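import Pool.Agent.H6.LQ.Model

/-!
# Floating point programs with adversarial relative errors (MP_63a4b3_lc)

A program works on write-once registers which contain complex numbers.  Every operation creates a new
register; its value is the exact result up to a relative error chosen by an adversary (`Adv.e t` for
the register number `t`).  The only way in which a program can look at numbers is a comparison of the
real parts of two registers.
-/

set_option autoImplicit false

open Complex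

namespace H6LP

/-! ## sequencing -/

theorem bind_eq {α β : Type} (p : Prog α) (g : α → Prog β) : p >>= g = p.bind g := rfl

theorem pure_eq {α : Type} (a : α) : (pure a : Prog α) = Prog.ret a := rfl

theorem exec_bind {α β : Type} (ad : Adv) (p : Prog α) (g : α → Prog β) (env : Env) :
    exec ad (p.bind g) env = exec ad (g (exec ad p env).1) (exec ad p env).2 := by
  induction p generalizing env with
  | ret a => rfl
  | op o k ih => simp only [Prog.bind, exec]; exact ih _ _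
  | cmp i j k ih => simp only [Prog.bind, exec]; exact ih _ _

theorem exec_prefix {α : Type} (ad : Adv) (p : Prog α) (env : Env) :
    env <+: (exec ad p env).2 := by
  induction p generalizing env with
  | ret a => exact List.prefix_refl _
  | op o k ih => exact (List.prefix_append _ _).trans (ih _ _)
  | cmp i j k ih => exact ih _ _

/-- register `r` exists and has the value `x` -/
def Has (env : Env) (r : ℕ) (x : ℂ) : Prop := r < env.length ∧ val env r = x

theorem Has.mono {env env' : Env} {r : ℕ} {x : ℂ} (h : Has env r x) (hp : env <+: env') :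
    Has env' r x := by
  obtain ⟨t, rfl⟩ := hp
  refine ⟨by simp; have := h.1; omega, ?_⟩
  rw [← h.2]
  unfold val
  rw [List.getD_eq_getElem?_getD, List.getD_eq_getElem?_getD, List.getElem?_append_left h.1]

/-- postconditions -/
def Post {α : Type} (ad : Adv) (p : Prog α) (env : Env) (Q : α → Env → Prop) : Prop :=
  env <+: (exec ad p env).2 ∧ Q (exec ad p env).1 (exec ad p env).2

theorem Post.ret {α : Type} {ad : Adv} {a : α} {env : Env} {Q : α → Env → Prop} (h : Q a env) :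
    Post ad (Prog.ret a) env Q := ⟨List.prefix_refl _, h⟩

theorem Post.pure {α : Type} {ad : Adv} {a : α} {env : Env} {Q : α → Env → Prop} (h : Q a env) :
    Post ad (pure a : Prog α) env Q := ⟨List.prefix_refl _, h⟩

theorem Post.weaken {α : Type} {ad : Adv} {p : Prog α} {env : Env} {Q Q' : α → Env → Prop}
    (h : Post ad p env Q) (hQ : ∀ a env', env <+: env' → Q a env' → Q' a env') :
    Post ad p env Q' := ⟨h.1, hQ _ _ h.1 h.2⟩

theorem Post.bind {α β : Type} {ad : Adv} {p : Prog α} {g : α → Prog β} {env : Env}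
    {Q : α → Env → Prop} {Q' : β → Env → Prop} (h : Post ad p env Q)
    (hg : ∀ a env', env <+: env' → Q a env' → Post ad (g a) env' Q') :
    Post ad (p >>= g) env Q' := by
  have h1 := hg _ _ h.1 h.2
  unfold Post
  rw [bind_eq, exec_bind]
  exact ⟨h.1.trans h1.1, h1.2⟩

theorem Bdd.mono {α : Type} {p : Prog α} {c d c' d' : ℕ} (h : Bdd p c d) (hc : c ≤ c') (hd : d ≤ d') :
    Bdd p c' d' := by
  induction h generalizing c' d' with
  | ret a c d => exact Bdd.ret a c' d'
  | op o k c d h ih =>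
    obtain ⟨c'', rfl⟩ : ∃ c'', c' = c'' + 1 := ⟨c' - 1, by omega⟩
    exact Bdd.op o k c'' d' (fun i => ih i (by omega) hd)
  | cmp i j k c d h ih =>
    obtain ⟨c'', rfl⟩ : ∃ c'', c' = c'' + 1 := ⟨c' - 1, by omega⟩
    obtain ⟨d'', rfl⟩ : ∃ d'', d' = d'' + 1 := ⟨d' - 1, by omega⟩
    exact Bdd.cmp i j k c'' d'' (fun b => ih b (by omega) (by omega))

theorem Bdd.bind {α β : Type} {p : Prog α} {g : α → Prog β} {c d c' d' : ℕ} (h : Bdd p c d)
    (hg : ∀ a, Bdd (g a) c' d') : Bdd (p >>= g) (c + c') (d + d') := by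
  rw [bind_eq]
  induction h with
  | ret a c d => exact (hg a).mono (by omega) (by omega)
  | op o k c d h ih =>
    have h1 : c + 1 + c' = (c + c') + 1 := by omega
    rw [h1]
    exact Bdd.op o _ _ _ ih
  | cmp i j k c d h ih =>
    have h1 : c + 1 + c' = (c + c') + 1 := by omega
    have h2 : d + 1 + d' = (d + d') + 1 := by omega
    rw [h1, h2]
    exact Bdd.cmp i j _ _ _ ih

theorem Bdd.pure {α : Type} (a : α) (c d : ℕ) : Bdd (pure a : Prog α) c d := Bdd.ret a c d

/-! ## single operations -/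

/-- `z` is `x` up to a relative error at most `u` -/
def Rel (u : ℝ) (x z : ℂ) : Prop := ‖z - x‖ ≤ u * ‖x‖

/-- all relative errors are at most `u` -/
def Adv.Le (ad : Adv) (u : ℝ) : Prop := ∀ t, ‖ad.e t‖ ≤ u

theorem rel_mul {u : ℝ} {x e : ℂ} (h : ‖e‖ ≤ u) : Rel u x (x * (1 + e)) := by
  unfold Rel
  have h1 : x * (1 + e) - x = e * x := by ring
  rw [h1, norm_mul]
  gcongr

theorem has_new (env : Env) (x : ℂ) : Has (env ++ [x]) env.length x := by
  refine ⟨by simp, ?_⟩
  unfold val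
  simp

theorem post_op {ad : Adv} {env : Env} (o : Op) {Q : ℕ → Env → Prop}
    (h : Q env.length (env ++ [opVal ad env o])) : Post ad (Prog.op o Prog.ret) env Q :=
  ⟨List.prefix_append _ _, h⟩

theorem post_cst {ad : Adv} {u : ℝ} (hu : ad.Le u) (env : Env) (a b : ℚ) :
    Post ad (cst a b) env (fun r env' => ∃ z, Has env' r z ∧ Rel u ((a : ℂ) + (b : ℂ) * I) z) :=
  post_op _ ⟨_, has_new _ _, rel_mul (hu _)⟩

theorem post_add {ad : Adv} {u : ℝ} (hu : ad.Le u) {env : Env} {i j : ℕ} {x y : ℂ}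
    (hi : Has env i x) (hj : Has env j y) :
    Post ad (addP i j) env (fun r env' => ∃ z, Has env' r z ∧ Rel u (x + y) z) := by
  refine post_op _ ⟨_, has_new _ _, ?_⟩
  simp only [opVal, hi.2, hj.2]
  exact rel_mul (hu _)

theorem post_sub {ad : Adv} {u : ℝ} (hu : ad.Le u) {env : Env} {i j : ℕ} {x y : ℂ}
    (hi : Has env i x) (hj : Has env j y) :
    Post ad (subP i j) env (fun r env' => ∃ z, Has env' r z ∧ Rel u (x - y) z) := by
  refine post_op _ ⟨_, has_new _ _, ?_⟩
  simp only [opVal, hi.2, hj.2]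
  exact rel_mul (hu _)

theorem post_mul {ad : Adv} {u : ℝ} (hu : ad.Le u) {env : Env} {i j : ℕ} {x y : ℂ}
    (hi : Has env i x) (hj : Has env j y) :
    Post ad (mulP i j) env (fun r env' => ∃ z, Has env' r z ∧ Rel u (x * y) z) := by
  refine post_op _ ⟨_, has_new _ _, ?_⟩
  simp only [opVal, hi.2, hj.2]
  exact rel_mul (hu _)

theorem post_div {ad : Adv} {u : ℝ} (hu : ad.Le u) {env : Env} {i j : ℕ} {x y : ℂ}
    (hi : Has env i x) (hj : Has env j y) (hy : y ≠ 0) :
    Post ad (divP i j) env (fun r env' => ∃ z, Has env' r z ∧ Rel u (x / y) z) := by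
  refine post_op _ ⟨_, has_new _ _, ?_⟩
  simp only [opVal, hi.2, hj.2, if_neg hy]
  exact rel_mul (hu _)

theorem post_sqrt {ad : Adv} {u : ℝ} (hu : ad.Le u) {env : Env} {i : ℕ} {x : ℂ}
    (hi : Has env i x) :
    Post ad (sqrtP i) env (fun r env' => ∃ z, Has env' r z ∧ Rel u (x ^ (1 / 2 : ℂ)) z) := by
  refine post_op _ ⟨_, has_new _ _, ?_⟩
  simp only [opVal, hi.2]
  exact rel_mul (hu _)

theorem cpow_half_ofReal {x : ℝ} (hx : 0 ≤ x) : (x : ℂ) ^ (1 / 2 : ℂ) = (Real.sqrt x : ℂ) := by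
  rw [Real.sqrt_eq_rpow, Complex.ofReal_cpow hx]
  norm_num

theorem post_sqrt_real {ad : Adv} {u : ℝ} (hu : ad.Le u) {env : Env} {i : ℕ} {x : ℝ}
    (hi : Has env i (x : ℂ)) (hx : 0 ≤ x) :
    Post ad (sqrtP i) env (fun r env' => ∃ z, Has env' r z ∧ Rel u ((Real.sqrt x : ℝ) : ℂ) z) := by
  rw [← cpow_half_ofReal hx]
  exact post_sqrt hu hi

theorem post_conj {ad : Adv} {env : Env} {i : ℕ} {x : ℂ} (hi : Has env i x) :
    Post ad (conjP i) env (fun r env' => Has env' r ((starRingEnd ℂ) x)) := by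
  refine post_op _ ?_
  have h := has_new env (opVal ad env (.conj i))
  simpa only [opVal, hi.2] using h

theorem post_re {ad : Adv} {env : Env} {i : ℕ} {x : ℂ} (hi : Has env i x) :
    Post ad (reP i) env (fun r env' => Has env' r (x.re : ℂ)) := by
  refine post_op _ ?_
  have h := has_new env (opVal ad env (.re i))
  simpa only [opVal, hi.2] using h

open Classical in
theorem post_le {ad : Adv} {env : Env} {i j : ℕ} {x y : ℂ} (hi : Has env i x) (hj : Has env j y) :
    Post ad (leP i j) env (fun b env' => env' = env ∧ (b = true ↔ x.re ≤ y.re)) := by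
  refine ⟨List.prefix_refl _, rfl, ?_⟩
  show decide ((val env i).re ≤ (val env j).re) = true ↔ _
  rw [hi.2, hj.2, decide_eq_true_iff]

theorem bdd_cst (a b : ℚ) : Bdd (cst a b) 1 0 := Bdd.op _ _ _ _ (fun _ => Bdd.ret _ _ _)
theorem bdd_add (i j : ℕ) : Bdd (addP i j) 1 0 := Bdd.op _ _ _ _ (fun _ => Bdd.ret _ _ _)
theorem bdd_sub (i j : ℕ) : Bdd (subP i j) 1 0 := Bdd.op _ _ _ _ (fun _ => Bdd.ret _ _ _)
theorem bdd_mul (i j : ℕ) : Bdd (mulP i j) 1 0 := Bdd.op _ _ _ _ (fun _ => Bdd.ret _ _ _)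
theorem bdd_div (i j : ℕ) : Bdd (divP i j) 1 0 := Bdd.op _ _ _ _ (fun _ => Bdd.ret _ _ _)
theorem bdd_sqrt (i : ℕ) : Bdd (sqrtP i) 1 0 := Bdd.op _ _ _ _ (fun _ => Bdd.ret _ _ _)
theorem bdd_conj (i : ℕ) : Bdd (conjP i) 1 0 := Bdd.op _ _ _ _ (fun _ => Bdd.ret _ _ _)
theorem bdd_re (i : ℕ) : Bdd (reP i) 1 0 := Bdd.op _ _ _ _ (fun _ => Bdd.ret _ _ _)
theorem bdd_le (i j : ℕ) : Bdd (leP i j) 1 1 := Bdd.cmp _ _ _ _ _ (fun _ => Bdd.ret _ _ _)

/-! ## loops -/

theorem post_vecM {β : Type} {ad : Adv} (n : ℕ) (f : Fin n → Prog β) (env : Env)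
    (R : Fin n → β → Env → Prop)
    (hR : ∀ i b env1 env2, env1 <+: env2 → R i b env1 → R i b env2)
    (h : ∀ i env', env <+: env' → Post ad (f i) env' (R i)) :
    Post ad (vecM n f) env (fun v env' => ∀ i, R i (v i) env') := by
  induction n generalizing env with
  | zero => exact Post.pure (fun i => i.elim0)
  | succ n ih =>
    unfold vecM
    refine Post.bind (h 0 env (List.prefix_refl _)) ?_
    intro a env1 h1 ha
    refine Post.bind (ih (fun i => f i.succ) env1 (fun i => R i.succ) (fun i => hR i.succ)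
      (fun i env' h' => h i.succ env' (h1.trans h'))) ?_
    intro g env2 h2 hg
    refine Post.pure ?_
    intro i
    refine Fin.cases ?_ (fun j => ?_) i
    · rw [Fin.cons_zero]; exact hR 0 a env1 env2 h2 ha
    · rw [Fin.cons_succ]; exact hg j

theorem post_matM {β : Type} {ad : Adv} (n m : ℕ) (f : Fin n → Fin m → Prog β) (env : Env)
    (R : Fin n → Fin m → β → Env → Prop)
    (hR : ∀ i j b env1 env2, env1 <+: env2 → R i j b env1 → R i j b env2)
    (h : ∀ i j env', env <+: env' → Post ad (f i j) env' (R i j)) :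
    Post ad (matM n m f) env (fun v env' => ∀ i j, R i j (v i j) env') := by
  refine post_vecM n _ env (fun i (b : Fin m → β) env' => ∀ j, R i j (b j) env') ?_ ?_
  · intro i b env1 env2 h12 hb j; exact hR i j _ _ _ h12 (hb j)
  · intro i env' h'
    exact post_vecM m _ env' (R i) (hR i) (fun j env'' h'' => h i j env'' (h'.trans h''))

theorem post_iterP {σ : Type} {ad : Adv} (n : ℕ) (step : ℕ → σ → Prog σ) (s : σ) (env : Env)
    (Inv : ℕ → σ → Env → Prop) (h0 : Inv 0 s env)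
    (h : ∀ k, k < n → ∀ s' env', env <+: env' → Inv k s' env' → Post ad (step k s') env' (Inv (k + 1))) :
    Post ad (iterP n step s) env (Inv n) := by
  induction n generalizing step s env Inv with
  | zero => exact Post.pure h0
  | succ n ih =>
    unfold iterP
    refine Post.bind (h 0 (by omega) s env (List.prefix_refl _) h0) ?_
    intro s' env1 h1 hs'
    exact ih (fun k => step (k + 1)) s' env1 (fun k => Inv (k + 1)) hs'
      (fun k hk s'' env' h' hi => h (k + 1) (by omega) s'' env' (h1.trans h') hi)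

theorem post_iterF {σ : Type} {ad : Adv} (n : ℕ) (step : Fin n → σ → Prog σ) (s : σ) (env : Env)
    (Inv : ℕ → σ → Env → Prop) (h0 : Inv 0 s env)
    (h : ∀ k : Fin n, ∀ s' env', env <+: env' → Inv k s' env' →
      Post ad (step k s') env' (Inv (k + 1))) :
    Post ad (iterF n step s) env (Inv n) := by
  induction n generalizing s env Inv with
  | zero => exact Post.pure h0
  | succ n ih =>
    unfold iterF
    refine Post.bind (h 0 s env (List.prefix_refl _) h0) ?_
    intro s' env1 h1 hs'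
    exact ih (fun k => step k.succ) s' env1 (fun k => Inv (k + 1)) hs'
      (fun k s'' env' h' hi => h k.succ s'' env' (h1.trans h') hi)

theorem bdd_vecM {β : Type} (n : ℕ) (f : Fin n → Prog β) (c d : ℕ) (h : ∀ i, Bdd (f i) c d) :
    Bdd (vecM n f) (n * c) (n * d) := by
  induction n with
  | zero => exact Bdd.pure _ _ _
  | succ n ih =>
    unfold vecM
    refine (Bdd.bind (h 0) (fun a => Bdd.bind (ih (fun i => f i.succ) (fun i => h i.succ))
      (fun g => Bdd.pure _ 0 0))).mono ?_ ?_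
    · ring_nf; omega
    · ring_nf; omega

theorem bdd_matM {β : Type} (n m : ℕ) (f : Fin n → Fin m → Prog β) (c d : ℕ)
    (h : ∀ i j, Bdd (f i j) c d) : Bdd (matM n m f) (n * (m * c)) (n * (m * d)) :=
  bdd_vecM n _ _ _ (fun i => bdd_vecM m _ _ _ (h i))

theorem bdd_iterP {σ : Type} (n : ℕ) (step : ℕ → σ → Prog σ) (s : σ) (c d : ℕ)
    (h : ∀ k s, Bdd (step k s) c d) : Bdd (iterP n step s) (n * c) (n * d) := by
  induction n generalizing step s with
  | zero => exact Bdd.pure _ _ _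
  | succ n ih =>
    unfold iterP
    exact (Bdd.bind (h 0 s) (fun s' => ih (fun k => step (k + 1)) s' (fun k s => h (k + 1) s))).mono
      (by ring_nf; omega) (by ring_nf; omega)

theorem bdd_iterF {σ : Type} (n : ℕ) (step : Fin n → σ → Prog σ) (s : σ) (c d : ℕ)
    (h : ∀ k s, Bdd (step k s) c d) : Bdd (iterF n step s) (n * c) (n * d) := by
  induction n generalizing s with
  | zero => exact Bdd.pure _ _ _
  | succ n ih =>
    unfold iterF
    exact (Bdd.bind (h 0 s) (fun s' => ih (fun k => step k.succ) s' (fun k s => h k.succ s))).mono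
      (by ring_nf; omega) (by ring_nf; omega)

/-! ## vectors and matrices of registers -/

def HasV {n : ℕ} (env : Env) (v : Fin n → ℕ) (x : Fin n → ℂ) : Prop := ∀ i, Has env (v i) (x i)

def HasM {n m : ℕ} (env : Env) (v : Fin n → Fin m → ℕ) (x : Matrix (Fin n) (Fin m) ℂ) : Prop :=
  ∀ i j, Has env (v i j) (x i j)

theorem HasV.mono {n : ℕ} {env env' : Env} {v : Fin n → ℕ} {x : Fin n → ℂ} (h : HasV env v x)
    (hp : env <+: env') : HasV env' v x := fun i => (h i).mono hp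

theorem HasM.mono {n m : ℕ} {env env' : Env} {v : Fin n → Fin m → ℕ} {x : Matrix (Fin n) (Fin m) ℂ}
    (h : HasM env v x) (hp : env <+: env') : HasM env' v x := fun i j => (h i j).mono hp

/-- Euclidean norm of a vector -/
noncomputable def nv {n : ℕ} (x : Fin n → ℂ) : ℝ := Real.sqrt (∑ i, ‖x i‖ ^ 2)

/-- Frobenius norm of a matrix -/
noncomputable def fro {n m : ℕ} (A : Matrix (Fin n) (Fin m) ℂ) : ℝ :=
  Real.sqrt (∑ i, ∑ j, ‖A i j‖ ^ 2)

/-- unitary matrix -/
def Uni {n : ℕ} (U : Matrix (Fin n) (Fin n) ℂ) : Prop := U.conjTranspose * U = 1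

/-- upper Hessenberg matrix -/
def Hess {n : ℕ} (H : Matrix (Fin n) (Fin n) ℂ) : Prop := ∀ i j : Fin n, (j : ℕ) + 1 < i → H i j = 0

end H6LP

section Defs_S

/-!
# Pure definitions (MP_63a4b3_lc)
-/

set_option autoImplicit false

open Complex Matrix

namespace H6LP

/-- the operator norm of `A` is at most `c` -/
def OpLe {n m : ℕ} (A : Matrix (Fin n) (Fin m) ℂ) (c : ℝ) : Prop :=
  ∀ x : Fin m → ℂ, nv (A *ᵥ x) ≤ c * nv x

/-- the first unit vector -/
def e1 (n : ℕ) : Fin n → ℂ := fun i => if (i : ℕ) = 0 then 1 else 0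

/-- first row and first column are those of the identity -/
def Fix0 {n : ℕ} (P : Matrix (Fin n) (Fin n) ℂ) : Prop :=
  (∀ i j : Fin n, (j : ℕ) = 0 → P i j = if (i : ℕ) = 0 then 1 else 0) ∧
  (∀ i j : Fin n, (i : ℕ) = 0 → P i j = if (j : ℕ) = 0 then 1 else 0)

/-- upper triangular -/
def UT {n : ℕ} (R : Matrix (Fin n) (Fin n) ℂ) : Prop := ∀ i j : Fin n, (j : ℕ) < i → R i j = 0

/-- `‖xᵀ (z - X)‖ ≥ s ‖x‖` for all `|z| ≤ 4` and all `x` with vanishing first coordinate -/
def RowLB {n : ℕ} (X : Matrix (Fin n) (Fin n) ℂ) (s : ℝ) : Prop :=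
  ∀ z : ℂ, ‖z‖ ≤ 4 → ∀ x : Fin n → ℂ, (∀ i : Fin n, (i : ℕ) = 0 → x i = 0) →
    s * nv x ≤ nv (x ᵥ* (z • (1 : Matrix (Fin n) (Fin n) ℂ) - X))

/-- `‖(z - X) x‖ ≥ t ‖x‖` for all `x` -/
def ColAt {n : ℕ} (X : Matrix (Fin n) (Fin n) ℂ) (z : ℂ) (t : ℝ) : Prop :=
  ∀ x : Fin n → ℂ, t * nv x ≤ nv ((z • (1 : Matrix (Fin n) (Fin n) ℂ) - X) *ᵥ x)

/-- the point `(a + b i) h` -/
noncomputable def grd (h : ℝ) (a b : ℤ) : ℂ := ((h * a : ℝ) : ℂ) + ((h * b : ℝ) : ℂ) * I

/-- `ColAt` at all points of the grid of mesh `h` in the square `|Re z|, |Im z| ≤ 4` -/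
def ColLB {n : ℕ} (X : Matrix (Fin n) (Fin n) ℂ) (h t : ℝ) : Prop :=
  ∀ a b : ℤ, |h * a| ≤ 4 → |h * b| ≤ 4 → ColAt X (grd h a b) t

/-- a diagonalization with the bounds which follow from `RowLB` and `ColLB` -/
structure Diag {n : ℕ} (X : Matrix (Fin n) (Fin n) ℂ) (s w0 : ℝ) (lam : Fin n → ℂ)
    (V W : Matrix (Fin n) (Fin n) ℂ) : Prop where
  eq : X = V * Matrix.diagonal lam * W
  vw : V * W = 1
  wv : W * V = 1
  lam_le : ∀ i, ‖lam i‖ ≤ 3
  col : ∀ j, nv (fun i => V i j) = 1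
  row : ∀ i, nv (W i) ≤ 1 / w0
  first : ∀ i j : Fin n, (j : ℕ) = 0 → s / 7 ≤ ‖W i j‖
  gap : ∀ i j, i ≠ j → s * w0 / 2 ≤ ‖lam i - lam j‖

/-! ## Householder -/

/-- `1 - τ v vᴴ` -/
def hhM {n : ℕ} (v : Fin n → ℂ) (t : ℂ) : Matrix (Fin n) (Fin n) ℂ :=
  1 - t • Matrix.vecMulVec v (star v)

/-- the exact Householder vector of the unit vector `y` -/
noncomputable def hv {n : ℕ} (y : Fin n → ℂ) (p : Fin n) (β : ℝ) : Fin n → ℂ :=
  fun i => if i = p then y i - β else y i

/-- the exact factor -/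
noncomputable def ht {n : ℕ} (y : Fin n → ℂ) (p : Fin n) (β : ℝ) : ℂ := 1 / (1 - β * y p)

/-! ## nodes -/

/-- `exp (2πi / 2^e)` -/
noncomputable def omg (e : ℕ) : ℂ := Complex.exp (2 * Real.pi * I / 2 ^ e)

/-- the random direction -/
noncomputable def dir (t : ℝ) : ℂ := (1 + t * I) / (1 - t * I)

/-- the nodes on the circle with centre `c` and radius `ρ` -/
noncomputable def nodeZ (c : ℂ) (rho : ℝ) (φ : ℂ) (e i : ℕ) : ℂ := c + rho * φ * omg e ^ i

open Classical in
/-- number of eigenvalues at distance `≤ 2 r` -/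
noncomputable def m2 {n : ℕ} (lam : Fin n → ℂ) (c : ℂ) (r : ℝ) : ℕ :=
  (Finset.univ.filter (fun i => ‖lam i - c‖ ≤ 2 * r)).card

open Classical in
/-- number of eigenvalues at distance `< 3 r` -/
noncomputable def m3 {n : ℕ} (lam : Fin n → ℂ) (c : ℂ) (r : ℝ) : ℕ :=
  (Finset.univ.filter (fun i => ‖lam i - c‖ < 3 * r)).card

open Classical in
/-- number of eigenvalues at distance `< 4 r` -/
noncomputable def m4 {n : ℕ} (lam : Fin n → ℂ) (c : ℂ) (r : ℝ) : ℕ :=
  (Finset.univ.filter (fun i => ‖lam i - c‖ < 4 * r)).card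

/-- radius of the discs of level `j` -/
noncomputable def rad (j : ℕ) : ℝ := 4 / 2 ^ j

/-- all nodes which can occur are good for `X` -/
def NodeOK {n : ℕ} (l : ℕ) (X : Matrix (Fin n) (Fin n) ℂ) (φ : ℂ) (t : ℝ) : Prop :=
  ∀ j ≤ l + 2, ∀ a b : ℤ, |a| ≤ 3 * 2 ^ j → |b| ≤ 3 * 2 ^ j → ∀ e i : ℕ, 2 ^ e ≤ 200000 * n * l →
    i < 2 ^ e → ∀ m : ℕ, m = 2 ∨ m = 3 →
      ColAt X (nodeZ (grd (rad j) a b) (m * rad j) φ e i) t

/-- everything which is needed about the Hessenberg matrix `X` for the counts -/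
structure HCtx {n : ℕ} (l : ℕ) (X : Matrix (Fin n) (Fin n) ℂ) (lam : Fin n → ℂ) (φ : ℂ) (u : ℝ) :
    Prop where
  hn : 1 ≤ n
  hl : 100 ≤ l
  hnl : (n : ℝ) ^ 25 ≤ 2 ^ (l - 100)
  hess : Hess X
  sub : ∀ k (hk : k + 1 < n), (2 : ℝ)⁻¹ ^ l ≤ ‖X ⟨k + 1, hk⟩ ⟨k, by omega⟩‖
  frob : fro X ≤ 4 * n
  det : ∀ z : ℂ, (z • (1 : Matrix (Fin n) (Fin n) ℂ) - X).det = ∏ i, (z - lam i)
  lamb : ∀ i, ‖lam i‖ ≤ 3
  hφ : ‖φ‖ = 1
  node : NodeOK l X φ ((2 : ℝ)⁻¹ ^ (5 * l + 1))
  u0 : 0 ≤ u
  hu : u ≤ (2 : ℝ)⁻¹ ^ (8 * l)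

/-! ## the quadtree -/

/-- the invariant of the list of level `j` -/
structure TInv {n : ℕ} (lam : Fin n → ℂ) (j : ℕ) (S : DList) : Prop where
  nodup : (S.map (fun p => (p.1, p.2.1))).Nodup
  pos : ∀ p ∈ S, 1 ≤ p.2.2
  low : ∀ p ∈ S, m2 lam (grd (rad j) p.1 p.2.1) (rad j) ≤ p.2.2
  list : ∀ a b : ℤ, (∃ i, ‖lam i - grd (rad j) a b‖ ≤ 2 * rad j) → ∃ k, (a, b, k) ∈ S
  sum : ksum S ≤ 98 * n
  box : ∀ p ∈ S, |p.1| < 3 * 2 ^ j ∧ |p.2.1| < 3 * 2 ^ j

/-- at positive levels: every disc of the list is near an eigenvalue -/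
def TNear {n : ℕ} (lam : Fin n → ℂ) (j : ℕ) (S : DList) : Prop :=
  ∀ p ∈ S, ∃ i, ‖lam i - grd (rad j) p.1 p.2.1‖ < 3 * rad j

/-! ## probability -/

open MeasureTheory

/-- the uniform measure on the cube `[0,1]^ι` -/
noncomputable def PP (ι : Type) [Fintype ι] : Measure (ι → ℝ) :=
  Measure.pi (fun _ : ι => (volume : Measure ℝ).restrict (Set.Icc 0 1))

/-- coordinates: `co i j false` is the coordinate of the real part of `G i j`, `co i j true` the one of
the imaginary part, `ct` the coordinate of the direction -/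
structure Coo (n : ℕ) (ι : Type) : Type where
  co : Fin n → Fin n → Bool → ι
  ct : ι
  inj : ∀ i j b i' j' b', co i j b = co i' j' b' → i = i' ∧ j = j' ∧ b = b'
  ne : ∀ i j b, co i j b ≠ ct

/-- the perturbed matrix -/
noncomputable def Mof {n : ℕ} {ι : Type} (A : Matrix (Fin n) (Fin n) ℂ) (γ : ℝ) (C : Coo n ι) (g : ι → ℝ) :
    Matrix (Fin n) (Fin n) ℂ :=
  fun i j => A i j + γ * (g (C.co i j false) + g (C.co i j true) * I)

end H6LP

end Defs_S
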