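import Pool.Agent.H6.LQ.Core

/-! MP_63a4b3_lc, part G7: this file joins the modules COST1, COST2, NUM. -/

section S_COST1

set_option autoImplicit false

namespace H6LP

variable {n m : ℕ}

theorem bdd_dot (x y : RVec n) : Bdd (dotP x y) (2 * n + 1) 0 := by
  unfold dotP
  refine (Bdd.bind (bdd_cst _ _) (fun z => bdd_iterF n _ z (1 + 1) (0 + 0) (fun i acc =>
    Bdd.bind (bdd_mul _ _) (fun p => bdd_add _ _)))).mono ?_ ?_ <;> omega

theorem bdd_sq (x : RVec n) : Bdd (sqP x) (4 * n + 1) 0 := by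
  unfold sqP
  refine (Bdd.bind (bdd_cst _ _) (fun z => bdd_iterF n _ z (1 + (1 + (1 + 1))) (0 + (0 + (0 + 0)))
    (fun i acc => Bdd.bind (bdd_conj _) (fun c => Bdd.bind (bdd_mul _ _) (fun p =>
      Bdd.bind (bdd_add _ _) (fun s => bdd_re _)))))).mono ?_ ?_ <;> omega

theorem bdd_norm (x : RVec n) : Bdd (normP x) (4 * n + 3) 0 := by
  unfold normP
  exact (Bdd.bind (bdd_sq x) (fun s => Bdd.bind (bdd_sqrt _) (fun r => bdd_re _))).mono
    (by omega) (by omega)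

theorem bdd_fmul (i j : ℕ) : Bdd (fmulP i j) 2 0 := by
  unfold fmulP
  exact (Bdd.bind (bdd_mul _ _) (fun m => bdd_re _)).mono (by omega) (by omega)

theorem bdd_hvec (x : RVec n) (p : Fin n) : Bdd (hvecP x p) (5 * n + 10) 1 := by
  unfold hvecP
  exact (Bdd.bind (bdd_cst _ _) (fun z => Bdd.bind (bdd_norm x) (fun nr =>
    Bdd.bind (bdd_vecM n _ 1 0 (fun i => bdd_div _ _)) (fun y =>
    Bdd.bind (bdd_le _ _) (fun b => Bdd.bind (bdd_cst _ _) (fun be =>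
    Bdd.bind (bdd_sub _ _) (fun vp => Bdd.bind (bdd_sub _ _) (fun m =>
    Bdd.bind (bdd_div _ _) (fun t => Bdd.bind (bdd_mul _ _) (fun a =>
    Bdd.pure _ 0 0)))))))))).mono (by omega) (by omega)

theorem bdd_lmul (v : RVec n) (t : ℕ) (X : RMat n m) : Bdd (lmulP v t X) (4 * n * m + 2 * n + m) 0 := by
  unfold lmulP
  exact (Bdd.bind (bdd_vecM n _ 1 0 (fun i => bdd_conj _)) (fun vc =>
    Bdd.bind (bdd_vecM n _ 1 0 (fun i => bdd_mul _ _)) (fun tv =>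
    Bdd.bind (bdd_vecM m _ (2 * n + 1) 0 (fun j => bdd_dot _ _)) (fun w =>
    bdd_matM n m _ (1 + 1) (0 + 0) (fun i j => Bdd.bind (bdd_mul _ _) (fun g => bdd_sub _ _)))))).mono
    (le_of_eq (by ring)) (le_of_eq (by ring))

theorem bdd_rmul (v : RVec n) (t : ℕ) (X : RMat m n) :
    Bdd (rmulP v t X) (4 * m * n + n + 2 * m + 1) 0 := by
  unfold rmulP
  exact (Bdd.bind (bdd_vecM n _ 1 0 (fun i => bdd_conj _)) (fun vc =>
    Bdd.bind (bdd_conj _) (fun tc =>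
    Bdd.bind (bdd_vecM m _ (2 * n + 1) 0 (fun j => bdd_dot _ _)) (fun w =>
    Bdd.bind (bdd_vecM m _ 1 0 (fun i => bdd_mul _ _)) (fun tw =>
    bdd_matM m n _ (1 + 1) (0 + 0) (fun i j =>
      Bdd.bind (bdd_mul _ _) (fun g => bdd_sub _ _))))))).mono
    (le_of_eq (by ring)) (le_of_eq (by ring))

theorem bdd_hstep (k : ℕ) (hk : k + 1 < n) (S : RMat n n × RMat n n) :
    Bdd (hstepP k hk S) (12 * n ^ 2 + 14 * n + 13) 1 := by
  unfold hstepP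
  exact (Bdd.bind (bdd_cst _ _) (fun z => Bdd.bind (bdd_hvec _ _) (fun h =>
    Bdd.bind (bdd_lmul _ _ _) (fun X => Bdd.bind (bdd_rmul _ _ _) (fun Y =>
    Bdd.bind (bdd_rmul _ _ _) (fun Q => Bdd.pure _ 0 0)))))).mono
    (le_of_eq (by ring)) (le_of_eq (by ring))

theorem bdd_hess (hn : 1 ≤ n) (X : RMat n n) : Bdd (hessP X) (40 * n ^ 3) n := by
  unfold hessP
  refine (Bdd.bind (bdd_cst _ _) (fun z => Bdd.bind (bdd_cst _ _) (fun one =>
    bdd_iterP (n - 1) _ _ (12 * n ^ 2 + 14 * n + 13) 1 (fun k S => ?_)))).mono ?_ ?_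
  · split_ifs with hk
    · exact bdd_hstep k hk S
    · exact Bdd.pure _ _ _
  · obtain ⟨k, rfl⟩ : ∃ k, n = k + 1 := ⟨n - 1, by omega⟩
    rw [Nat.add_sub_cancel]
    nlinarith [sq_nonneg k, Nat.zero_le (k ^ 3), Nat.zero_le (k ^ 2), Nat.zero_le k]
  · omega

theorem bdd_giv (k : ℕ) (hk : k + 1 < n) (S : RMat n n × RVec n) : Bdd (givP k hk S) (6 * n + 22) 0 := by
  unfold givP combP combsP
  exact (Bdd.bind (bdd_cst _ _) (fun z => Bdd.bind (bdd_norm _) (fun rho =>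
    Bdd.bind (bdd_div _ _) (fun al => Bdd.bind (bdd_div _ _) (fun be =>
    Bdd.bind (bdd_conj _) (fun alc => Bdd.bind (bdd_conj _) (fun bec =>
    Bdd.bind (bdd_vecM n _ (1 + (1 + 1)) (0 + (0 + 0)) (fun j => Bdd.bind (bdd_mul _ _) (fun p =>
      Bdd.bind (bdd_mul _ _) (fun q => bdd_add _ _)))) (fun r0 =>
    Bdd.bind (bdd_vecM n _ (1 + (1 + 1)) (0 + (0 + 0)) (fun j => Bdd.bind (bdd_mul _ _) (fun p =>
      Bdd.bind (bdd_mul _ _) (fun q => bdd_sub _ _)))) (fun r1 =>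
    Bdd.bind (Bdd.bind (bdd_mul _ _) (fun p => Bdd.bind (bdd_mul _ _) (fun q => bdd_add _ _))) (fun y0 =>
    Bdd.bind (Bdd.bind (bdd_mul _ _) (fun p => Bdd.bind (bdd_mul _ _) (fun q => bdd_sub _ _))) (fun y1 =>
    Bdd.pure _ 0 0))))))))))).mono (by omega) (by omega)

theorem bdd_qr (S : RMat n n × RVec n) : Bdd (qrP S) (28 * n ^ 2) 0 := by
  unfold qrP
  refine (bdd_iterP (n - 1) _ _ (6 * n + 22) 0 (fun k S => ?_)).mono ?_ ?_
  · split_ifs with hk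
    · exact bdd_giv k hk S
    · exact Bdd.pure _ _ _
  · rcases Nat.eq_zero_or_pos n with h | h
    · subst h; simp
    · obtain ⟨k, rfl⟩ : ∃ k, n = k + 1 := ⟨n - 1, by omega⟩
      rw [Nat.add_sub_cancel]
      nlinarith [sq_nonneg k, Nat.zero_le (k ^ 2), Nat.zero_le k]
  · omega

theorem bdd_shift (H : RMat n n) (z : ℕ) : Bdd (shiftP H z) n 0 := by
  unfold shiftP
  exact (Bdd.bind (bdd_vecM n _ 1 0 (fun i => bdd_sub _ _)) (fun d => Bdd.pure _ 0 0)).mono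
    (by omega) (by omega)

theorem bdd_det (hn : 1 ≤ n) (H : RMat n n) (z : ℕ) : Bdd (detP H z) (41 * n ^ 2) 0 := by
  unfold detP
  refine (Bdd.bind (bdd_shift _ _) (fun T => Bdd.bind (bdd_cst _ _) (fun zz =>
    Bdd.bind (bdd_qr _) (fun S => Bdd.bind (bdd_cst _ _) (fun o => Bdd.bind (bdd_re _) (fun one =>
    bdd_iterF n _ one (4 * 1 + 3 + 2) (0 + 0) (fun i acc => Bdd.bind (bdd_norm _) (fun a =>
      bdd_fmul _ _)))))))).mono ?_ ?_
  · nlinarith [Nat.mul_le_mul hn hn, Nat.mul_le_mul hn (le_refl n)]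
  · omega

theorem bdd_back (hn : 1 ≤ n) (R : RMat n n) (y : RVec n) : Bdd (backP R y) (6 * n ^ 2) 0 := by
  unfold backP
  refine (Bdd.bind (bdd_cst _ _) (fun z => bdd_iterF n _ _ (2 * n + 1 + (1 + (1 + 0))) (0 + (0 + (0 + 0)))
    (fun i x => Bdd.bind (bdd_dot _ _) (fun d => Bdd.bind (bdd_sub _ _) (fun e =>
      Bdd.bind (bdd_div _ _) (fun q => Bdd.pure _ 0 0)))))).mono ?_ ?_
  · nlinarith [Nat.mul_le_mul hn hn, Nat.mul_le_mul hn (le_refl n)]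
  · omega

theorem bdd_solve (hn : 1 ≤ n) (H : RMat n n) (z : ℕ) : Bdd (solveP H z) (45 * n ^ 2) 0 := by
  unfold solveP
  refine (Bdd.bind (bdd_shift _ _) (fun T => Bdd.bind (bdd_cst _ _) (fun zz =>
    Bdd.bind (bdd_cst _ _) (fun one => Bdd.bind (bdd_qr _) (fun S =>
    Bdd.bind (bdd_back hn _ _) (fun x => Bdd.bind (bdd_norm _) (fun nr =>
    bdd_vecM n _ 1 0 (fun i => bdd_div _ _)))))))).mono ?_ ?_
  · nlinarith [Nat.mul_le_mul hn hn, Nat.mul_le_mul hn (le_refl n)]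
  · omega

theorem bdd_eig (hn : 1 ≤ n) (l : ℕ) (H Q : RMat n n) (pos : ℤ × ℤ) :
    Bdd (eigP l H Q pos) (49 * n ^ 2) 0 := by
  unfold eigP
  refine (Bdd.bind (bdd_cst _ _) (fun z => Bdd.bind (bdd_solve hn _ _) (fun x =>
    bdd_vecM n _ (2 * n + 1) 0 (fun i => bdd_dot _ _)))).mono ?_ ?_
  · nlinarith [Nat.mul_le_mul hn hn, Nat.mul_le_mul hn (le_refl n)]
  · omega

theorem bdd_pert (hn : 1 ≤ n) (b : ℕ) : Bdd (pertP n b) (6 * n ^ 2) 0 := by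
  unfold pertP
  refine (Bdd.bind (bdd_cst _ _) (fun gR => Bdd.bind (bdd_cst _ _) (fun gI =>
    bdd_matM n n _ (1 + (1 + (1 + 1))) (0 + (0 + (0 + 0))) (fun i j =>
      Bdd.bind (bdd_mul _ _) (fun x => Bdd.bind (bdd_mul _ _) (fun y =>
      Bdd.bind (bdd_add _ _) (fun c => bdd_add _ _))))))).mono ?_ ?_
  · nlinarith [Nat.mul_le_mul hn hn, Nat.mul_le_mul hn (le_refl n)]
  · simp

end H6LP

end S_COST1

section S_COST2

set_option autoImplicit false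

namespace H6LP

variable {n : ℕ}

theorem bdd_omega (e : ℕ) : Bdd (omegaP e) (e + 1) 0 := by
  unfold omegaP
  refine (Bdd.bind (bdd_cst _ _) (fun i => bdd_iterP (e - 2) _ i 1 0
    (fun k s => bdd_sqrt s))).mono ?_ ?_
  · omega
  · simp

theorem bdd_phi (t : ℕ) : Bdd (phiP t) 6 0 := by
  unfold phiP
  exact (Bdd.bind (bdd_cst _ _) (fun i => Bdd.bind (bdd_cst _ _) (fun one =>
    Bdd.bind (bdd_mul i t) (fun it => Bdd.bind (bdd_add one it) (fun a =>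
      Bdd.bind (bdd_sub one it) (fun b => bdd_div a b)))))).mono (by norm_num) (by norm_num)

theorem bdd_circ (hn : 1 ≤ n) (H : RMat n n) (c : ℕ) (rho : ℚ) (φ w e : ℕ) :
    Bdd (circP H c rho φ w e) (49 * 2 ^ e * n ^ 2) 0 := by
  unfold circP
  have hstep : ∀ (k : ℕ) (S : ℕ × ℕ), Bdd (do
      let z ← addP c S.1
      let d ← detP H z
      let acc ← fmulP S.2 d
      let p' ← mulP S.1 w
      pure (p', acc) : Prog (ℕ × ℕ)) (41 * n ^ 2 + 4) 0 := by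
    intro k S
    exact (Bdd.bind (bdd_add c S.1) (fun z => Bdd.bind (bdd_det hn H z) (fun d =>
      Bdd.bind (bdd_fmul S.2 d) (fun acc => Bdd.bind (bdd_mul S.1 w) (fun p' =>
        Bdd.pure _ 0 0))))).mono (by omega) (by norm_num)
  refine (Bdd.bind (bdd_cst _ _) (fun rr => Bdd.bind (bdd_mul rr φ) (fun p =>
    Bdd.bind (bdd_cst _ _) (fun o => Bdd.bind (bdd_re o) (fun one =>
      Bdd.bind (bdd_iterP (2 ^ e) _ (p, one) (41 * n ^ 2 + 4) 0 hstep) (fun S =>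
        Bdd.pure _ 0 0)))))).mono ?_ ?_
  · have h1 : 1 ≤ 2 ^ e := Nat.one_le_two_pow
    have h2 : 1 ≤ n ^ 2 := Nat.one_le_pow _ _ hn
    nlinarith [Nat.mul_le_mul h1 h2, Nat.mul_le_mul (le_refl (2 ^ e)) h2]
  · simp

theorem bdd_search (P1 P2 m T k : ℕ) : Bdd (searchP P1 P2 m T k) (5 * m) m := by
  induction m generalizing T k with
  | zero => exact Bdd.pure _ _ _
  | succ m ih =>
    unfold searchP
    refine (Bdd.bind (bdd_fmul P1 T) (fun x => Bdd.bind (bdd_le x P2) (fun b => ?_))).mono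
      (c := 2 + (1 + (2 + 5 * m))) (d := 0 + (1 + (0 + m))) (by omega) (by omega)
    cases b with
    | false =>
      simp only [Bool.false_eq_true, if_false]
      exact Bdd.pure _ _ _
    | true =>
      simp only [if_true]
      exact Bdd.bind (bdd_fmul T T) (fun T' => ih T' (2 * k))

theorem cost2_nodeE (l kh : ℕ) (hl : 1 ≤ l) : 2 ^ nodeE l kh ≤ 2000 * (kh + 1) * l := by
  unfold nodeE
  have h0 : 1 < 1000 * (kh + 1) * l := by nlinarith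
  have h1 := Nat.pow_pred_clog_lt_self (b := 2) (by norm_num) h0
  have h2 : 1 ≤ Nat.clog 2 (1000 * (kh + 1) * l) := Nat.clog_pos (by norm_num) h0
  obtain ⟨k, hk⟩ : ∃ k, Nat.clog 2 (1000 * (kh + 1) * l) = k + 1 := ⟨_, (Nat.sub_add_cancel h2).symm⟩
  rw [hk] at h1 ⊢
  simp only [Nat.pred_succ] at h1
  rw [pow_succ]
  nlinarith

theorem cost2_clog : Nat.clog 2 n ≤ n := by
  rw [Nat.clog_le_iff_le_pow (by norm_num)]
  exact Nat.lt_two_pow_self.le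

/-- `2^nodeE ≤ 2000 (kh+1) l` (`Nat.clog`), `e ≤ 2^e`, `clog n ≤ n` -/
theorem bdd_test (hn : 1 ≤ n) (l : ℕ) (hl : 1 ≤ l) (H : RMat n n) (φ : ℕ) (r : ℚ) (a b : ℤ) (kh : ℕ) :
    Bdd (testP l H φ r a b kh) (260000 * (kh + 1) * l * n ^ 2) (Nat.clog 2 n + 3) := by
  unfold testP
  refine (Bdd.bind (bdd_cst _ _) (fun c => Bdd.bind (bdd_omega (nodeE l kh)) (fun w =>
    Bdd.bind (bdd_circ hn H c (2 * r) φ w (nodeE l kh)) (fun P1 =>
      Bdd.bind (bdd_circ hn H c (3 * r) φ w (nodeE l kh)) (fun P2 =>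
        Bdd.bind (bdd_cst _ _) (fun base => Bdd.bind (bdd_re base) (fun rbase =>
          Bdd.bind (bdd_iterP (nodeE l kh - 1) _ rbase 2 0 (fun k s => bdd_fmul s s)) (fun T =>
            Bdd.bind (bdd_fmul P1 T) (fun x => Bdd.bind (bdd_le x P2) (fun b0 =>
              ?_)))))))))).mono (c := 1 + ((nodeE l kh + 1) + (49 * 2 ^ nodeE l kh * n ^ 2 +
                (49 * 2 ^ nodeE l kh * n ^ 2 + (1 + (1 + ((nodeE l kh - 1) * 2 + (2 + (1 +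
                  (2 + 5 * (Nat.clog 2 n + 2)))))))))))
                  (d := 0 + (0 + (0 + (0 + (0 + (0 + ((nodeE l kh - 1) * 0 + (0 + (1 +
                    (0 + (Nat.clog 2 n + 2))))))))))) ?_ ?_
  · cases b0 with
    | false =>
      simp only [Bool.false_eq_true, if_false]
      exact Bdd.pure _ _ _
    | true =>
      simp only [if_true]
      exact Bdd.bind (bdd_fmul T T) (fun T0 => bdd_search P1 P2 _ T0 1)
  · have h1 := cost2_nodeE l kh hl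
    have h2 := cost2_clog (n := n)
    have h3 : nodeE l kh ≤ 2 ^ nodeE l kh := Nat.lt_two_pow_self.le
    have h4 : n ≤ n ^ 2 := by nlinarith
    have h5 : 1 ≤ n ^ 2 := Nat.one_le_pow _ _ hn
    have h6 : 1 ≤ (kh + 1) * l := by nlinarith
    generalize nodeE l kh = e at *
    have h7 : 98 * 2 ^ e * n ^ 2 ≤ 98 * (2000 * ((kh + 1) * l)) * n ^ 2 := by
      apply Nat.mul_le_mul_right
      apply Nat.mul_le_mul_left
      calc 2 ^ e ≤ _ := h1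
        _ = _ := by ring
    have h8 : e ≤ 2000 * ((kh + 1) * l) * n ^ 2 := by
      calc e ≤ 2 ^ e := h3
        _ ≤ 2000 * (kh + 1) * l := h1
        _ = 2000 * ((kh + 1) * l) * 1 := by ring
        _ ≤ _ := Nat.mul_le_mul_left _ h5
    have h9 : n ^ 2 ≤ ((kh + 1) * l) * n ^ 2 := Nat.le_mul_of_pos_left _ h6
    have h10 : 260000 * (kh + 1) * l * n ^ 2 = 260000 * (((kh + 1) * l) * n ^ 2) := by ring
    have h11 : 98 * (2000 * ((kh + 1) * l)) * n ^ 2 = 196000 * (((kh + 1) * l) * n ^ 2) := by ring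
    have h12 : 2000 * ((kh + 1) * l) * n ^ 2 = 2000 * (((kh + 1) * l) * n ^ 2) := by ring
    have h13 : 49 * 2 ^ e * n ^ 2 + 49 * 2 ^ e * n ^ 2 = 98 * 2 ^ e * n ^ 2 := by ring
    rw [h10]
    rw [h11] at h7
    rw [h12] at h8
    omega
  · simp
    omega

theorem bdd_listM {α β : Type} (L : List α) (f : α → Prog β) (c d : α → ℕ)
    (h : ∀ a ∈ L, Bdd (f a) (c a) (d a)) : Bdd (listM L f) (L.map c).sum (L.map d).sum := by
  induction L with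
  | nil => exact Bdd.pure _ _ _
  | cons a L ih =>
    unfold listM
    rw [List.map_cons, List.map_cons, List.sum_cons, List.sum_cons]
    refine (Bdd.bind (h a List.mem_cons_self) (fun b => Bdd.bind (ih (fun a' ha' =>
      h a' (List.mem_cons_of_mem _ ha'))) (fun t => Bdd.pure _ 0 0))).mono (by omega) (by omega)

theorem cost2_children_sum (S : DList) :
    ((children S).map (fun c => c.2.2 + 1)).sum = 4 * (S.map (fun p => khat S p.1 p.2.1 + 1)).sum := by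
  unfold children
  have : ∀ T : DList, ((T.flatMap (fun p => [(2 * p.1, 2 * p.2.1, khat S p.1 p.2.1),
      (2 * p.1 + 1, 2 * p.2.1, khat S p.1 p.2.1), (2 * p.1, 2 * p.2.1 + 1, khat S p.1 p.2.1),
      (2 * p.1 + 1, 2 * p.2.1 + 1, khat S p.1 p.2.1)])).map
      (fun c : ℤ × ℤ × ℕ => c.2.2 + 1)).sum = 4 * (T.map (fun p => khat S p.1 p.2.1 + 1)).sum := by
    intro T
    induction T with
    | nil => rfl
    | cons p T ih =>
      rw [List.flatMap_cons, List.map_append, List.sum_append, ih, List.map_cons, List.sum_cons]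
      simp only [List.map_cons, List.map_nil, List.sum_cons, List.sum_nil]
      ring
  exact this S

theorem cost2_children_length (S : DList) : (children S).length = 4 * S.length := by
  unfold children
  rw [List.length_flatMap]
  simp
  ring

/-- by `capOK`: `∑_children (kh + 1) = 4 ∑_p (khat + 1) ≤ 4 · 4900 n`, number of children `≤ 4 · 98 n` -/
theorem bdd_lvl (hn : 1 ≤ n) (l : ℕ) (hl : 1 ≤ l) (H : RMat n n) (φ : ℕ) (r : ℚ) (S : DList) :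
    Bdd (lvlP l H φ r S) (5096000000 * l * n ^ 3) (392 * n * (Nat.clog 2 n + 3)) := by
  unfold lvlP
  by_cases hc : capOK n S = true
  · rw [if_pos hc]
    unfold capOK at hc
    simp only [Bool.and_eq_true, decide_eq_true_eq] at hc
    obtain ⟨⟨-, hc2⟩, hc3⟩ := hc
    have h := bdd_listM (children S) (fun c => (do
      let k ← testP l H φ r c.1 c.2.1 c.2.2
      pure (c.1, c.2.1, k) : Prog (ℤ × ℤ × ℕ)))
      (fun c => (260000 * l * n ^ 2) * (c.2.2 + 1)) (fun _ => Nat.clog 2 n + 3) (fun c _ =>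
        (Bdd.bind (bdd_test hn l hl H φ r c.1 c.2.1 c.2.2) (fun k => Bdd.pure _ 0 0)).mono
          (le_of_eq (by ring)) (by omega))
    refine (Bdd.bind h (fun L => Bdd.pure _ 0 0)).mono ?_ ?_
    · rw [List.sum_map_mul_left, cost2_children_sum]
      calc 260000 * l * n ^ 2 * (4 * (S.map (fun p => khat S p.1 p.2.1 + 1)).sum) + 0
          ≤ 260000 * l * n ^ 2 * (4 * (4900 * n)) + 0 := by
            apply Nat.add_le_add_right
            apply Nat.mul_le_mul_left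
            exact Nat.mul_le_mul_left _ hc3
        _ = 5096000000 * l * n ^ 3 := by ring
    · rw [List.map_const', List.sum_replicate, cost2_children_length, smul_eq_mul]
      calc 4 * S.length * (Nat.clog 2 n + 3) + 0 ≤ 4 * (98 * n) * (Nat.clog 2 n + 3) + 0 := by
            apply Nat.add_le_add_right
            apply Nat.mul_le_mul_right
            exact Nat.mul_le_mul_left _ hc2
        _ = _ := by ring
  · rw [if_neg hc]
    exact Bdd.pure _ _ _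

theorem bdd_tree (hn : 1 ≤ n) (l : ℕ) (hl : 1 ≤ l) (H : RMat n n) (φ : ℕ) :
    Bdd (treeP l H φ) ((l + 2) * (5096000000 * l * n ^ 3)) ((l + 2) * (392 * n * (Nat.clog 2 n + 3))) := by
  unfold treeP
  exact bdd_iterP (l + 2) _ _ _ _ (fun k S => bdd_lvl hn l hl H φ _ S)

/-- the total cost, `q = b + clog₂ n` -/
theorem bdd_main (hn : 1 ≤ n) (b : ℕ) :
    Bdd (mainP n b) (10 ^ 14 * n ^ 3 * (parQ n b + 1) ^ 2) (10 ^ 6 * n * (parQ n b + 1) ^ 2) := by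
  have hl : 1 ≤ parL n b := by unfold parL; omega
  unfold mainP
  refine (Bdd.bind (bdd_pert hn b) (fun M => Bdd.bind (bdd_phi (3 * n ^ 2)) (fun φ =>
    Bdd.bind (bdd_hess hn M) (fun HQ => Bdd.bind (bdd_tree hn (parL n b) hl HQ.1 φ) (fun S =>
      Bdd.bind (bdd_vecM n _ (49 * n ^ 2) 0 (fun j => bdd_eig hn _ _ _ _)) (fun V =>
        Bdd.bind (bdd_vecM n _ 1 0 (fun j => bdd_cst _ _)) (fun D =>
          Bdd.pure _ 0 0))))))).mono ?_ ?_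
  · have h1 : parL n b ≤ 100 * (parQ n b + 1) := by unfold parL; omega
    have h2 : parL n b + 2 ≤ 102 * (parQ n b + 1) := by unfold parL; omega
    have h3 : 1 ≤ (parQ n b + 1) ^ 2 := Nat.one_le_pow _ _ (by omega)
    have h4 : (parL n b + 2) * (5096000000 * parL n b * n ^ 3) ≤
        51979200000000 * (n ^ 3 * (parQ n b + 1) ^ 2) := by
      calc (parL n b + 2) * (5096000000 * parL n b * n ^ 3)
          ≤ (102 * (parQ n b + 1)) * (5096000000 * (100 * (parQ n b + 1)) * n ^ 3) := by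
            apply Nat.mul_le_mul h2
            apply Nat.mul_le_mul_right
            exact Nat.mul_le_mul_left _ h1
        _ = _ := by ring
    have h5 : n ^ 3 ≤ n ^ 3 * (parQ n b + 1) ^ 2 := Nat.le_mul_of_pos_right _ h3
    have h6 : 1 ≤ n ^ 3 := Nat.one_le_pow _ _ hn
    have h7 : n ^ 2 ≤ n ^ 3 := Nat.pow_le_pow_right hn (by norm_num)
    have h8 : n ≤ n ^ 3 := by
      calc n = n ^ 1 := (pow_one n).symm
        _ ≤ n ^ 3 := Nat.pow_le_pow_right hn (by norm_num)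
    have h9 : n * (49 * n ^ 2) = 49 * n ^ 3 := by ring
    have h10 : 10 ^ 14 * n ^ 3 * (parQ n b + 1) ^ 2 = 10 ^ 14 * (n ^ 3 * (parQ n b + 1) ^ 2) := by
      ring
    rw [h9, h10]
    norm_num
    omega
  · have h1 : parL n b + 2 ≤ 102 * (parQ n b + 1) := by unfold parL; omega
    have h2 : Nat.clog 2 n + 3 ≤ 3 * (parQ n b + 1) := by unfold parQ; omega
    have h3 : 1 ≤ (parQ n b + 1) ^ 2 := Nat.one_le_pow _ _ (by omega)
    have h4 : (parL n b + 2) * (392 * n * (Nat.clog 2 n + 3)) ≤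
        119952 * (n * (parQ n b + 1) ^ 2) := by
      calc (parL n b + 2) * (392 * n * (Nat.clog 2 n + 3))
          ≤ (102 * (parQ n b + 1)) * (392 * n * (3 * (parQ n b + 1))) := by
            apply Nat.mul_le_mul h1
            exact Nat.mul_le_mul_left _ h2
        _ = _ := by ring
    have h5 : n ≤ n * (parQ n b + 1) ^ 2 := Nat.le_mul_of_pos_right _ h3
    have h10 : 10 ^ 6 * n * (parQ n b + 1) ^ 2 = 10 ^ 6 * (n * (parQ n b + 1) ^ 2) := by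
      ring
    rw [h10]
    norm_num
    omega

end H6LP

end S_COST2

section S_NUM

set_option autoImplicit false

namespace H6LP

structure NumC (N y s w r u : ℝ) : Prop where
  hN : 1 ≤ N
  hy0 : 0 < y
  hy1 : y ≤ 1
  hNy : N * y ≤ 1
  hs : s = (2 : ℝ)⁻¹ ^ 17 * y ^ 5
  hw : w = (2 : ℝ)⁻¹ ^ 11 * y ^ 3
  hr : r = (2 : ℝ)⁻¹ ^ 100 * y ^ 25
  hu0 : 0 ≤ u
  hu : u ≤ r ^ 8

variable {N y s w r u : ℝ}

theorem NumC.npow (h : NumC N y s w r u) (k : ℕ) : N ^ k * y ^ k ≤ 1 := by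
  rw [← mul_pow]
  exact pow_le_one₀ (mul_nonneg (by linarith [h.hN]) h.hy0.le) h.hNy

theorem NumC.nu8 (h : NumC N y s w r u) (k m : ℕ) (hkm : k + m ≤ 200) :
    N ^ k * u ≤ (2 : ℝ)⁻¹ ^ 800 * y ^ m := by
  have h1 : u ≤ (2 : ℝ)⁻¹ ^ 800 * y ^ 200 := by
    refine h.hu.trans (le_of_eq ?_)
    rw [h.hr, mul_pow, ← pow_mul, ← pow_mul]
  have hN0 : (0 : ℝ) ≤ N ^ k := pow_nonneg (by linarith [h.hN]) k
  have h2 : y ^ 200 ≤ y ^ k * y ^ m := by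
    rw [← pow_add]
    exact pow_le_pow_of_le_one h.hy0.le h.hy1 hkm
  have hym : 0 ≤ y ^ m := pow_nonneg h.hy0.le m
  calc N ^ k * u ≤ N ^ k * ((2 : ℝ)⁻¹ ^ 800 * (y ^ k * y ^ m)) := by
        refine mul_le_mul_of_nonneg_left (h1.trans ?_) hN0
        exact mul_le_mul_of_nonneg_left h2 (by positivity)
    _ = (2 : ℝ)⁻¹ ^ 800 * y ^ m * (N ^ k * y ^ k) := by ring
    _ ≤ (2 : ℝ)⁻¹ ^ 800 * y ^ m * 1 := by
        refine mul_le_mul_of_nonneg_left (h.npow k) (by positivity)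
    _ = _ := by ring

theorem NumC.nu (h : NumC N y s w r u) (k m : ℕ) (hkm : k + m ≤ 200) :
    N ^ k * u ≤ (2 : ℝ)⁻¹ ^ 200 * y ^ m := by
  refine (h.nu8 k m hkm).trans ?_
  refine mul_le_mul_of_nonneg_right ?_ (pow_nonneg h.hy0.le m)
  exact pow_le_pow_of_le_one (by norm_num) (by norm_num) (by norm_num)

theorem NumC.ypow (h : NumC N y s w r u) {k m : ℕ} (hkm : k ≤ m) : y ^ m ≤ y ^ k :=
  pow_le_pow_of_le_one h.hy0.le h.hy1 hkm

theorem NumC.s_pos (h : NumC N y s w r u) : 0 < s := by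
  rw [h.hs]; have := h.hy0; positivity

theorem NumC.w_pos (h : NumC N y s w r u) : 0 < w := by
  rw [h.hw]; have := h.hy0; positivity

theorem NumC.r_pos (h : NumC N y s w r u) : 0 < r := by
  rw [h.hr]; have := h.hy0; positivity

theorem NumC.s_le (h : NumC N y s w r u) : s ≤ 1 := by
  rw [h.hs]
  have h1 : y ^ 5 ≤ 1 := pow_le_one₀ h.hy0.le h.hy1
  have h2 : (0 : ℝ) ≤ y ^ 5 := pow_nonneg h.hy0.le 5
  nlinarith [show ((2 : ℝ)⁻¹ ^ 17) ≤ 1 by norm_num]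

theorem NumC.w_le (h : NumC N y s w r u) : w ≤ 1 / 10 := by
  rw [h.hw]
  have h1 : y ^ 3 ≤ 1 := pow_le_one₀ h.hy0.le h.hy1
  have h2 : (0 : ℝ) ≤ y ^ 3 := pow_nonneg h.hy0.le 3
  nlinarith [show ((2 : ℝ)⁻¹ ^ 11) ≤ 1 / 10 by norm_num]

/-- (a) -/
theorem NumC.a (h : NumC N y s w r u) : 10 ^ 6 * N ^ 3 * u ≤ s / 2 := by
  have h1 := h.nu 3 5 (by norm_num)
  have h2 : (0 : ℝ) ≤ y ^ 5 := pow_nonneg h.hy0.le 5
  rw [h.hs]
  have h3 : (10 : ℝ) ^ 6 * (2 : ℝ)⁻¹ ^ 200 ≤ (2 : ℝ)⁻¹ ^ 18 := by norm_num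
  nlinarith [mul_le_mul_of_nonneg_right h3 h2]

/-- (b) -/
theorem NumC.b (h : NumC N y s w r u) : 20 * N * u ≤ s / 2 := by
  have h1 := h.nu 1 5 (by norm_num)
  rw [pow_one] at h1
  have h2 : (0 : ℝ) ≤ y ^ 5 := pow_nonneg h.hy0.le 5
  rw [h.hs]
  have h3 : (20 : ℝ) * (2 : ℝ)⁻¹ ^ 200 ≤ (2 : ℝ)⁻¹ ^ 18 := by norm_num
  nlinarith [mul_le_mul_of_nonneg_right h3 h2]

/-- (c) the size of the total error matrix -/
theorem NumC.c1 (h : NumC N y s w r u) : 2 * 10 ^ 5 * N ^ 3 * u ≤ s * w ^ 2 := by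
  have h1 := h.nu 3 11 (by norm_num)
  have h2 : (0 : ℝ) ≤ y ^ 11 := pow_nonneg h.hy0.le 11
  rw [h.hs, h.hw]
  have h3 : (2 * 10 ^ 5 : ℝ) * (2 : ℝ)⁻¹ ^ 200 ≤ (2 : ℝ)⁻¹ ^ 39 := by norm_num
  have h4 : ((2 : ℝ)⁻¹ ^ 17 * y ^ 5) * ((2 : ℝ)⁻¹ ^ 11 * y ^ 3) ^ 2 = (2 : ℝ)⁻¹ ^ 39 * y ^ 11 := by ring
  rw [h4]
  nlinarith [mul_le_mul_of_nonneg_right h3 h2]

theorem NumC.c2 (h : NumC N y s w r u) : 2 * 10 ^ 5 * N ^ 3 * u ≤ s := by
  have h1 := h.c1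
  have hs := h.s_pos
  have hw := h.w_pos
  have hw1 := h.w_le
  nlinarith [mul_pos hs hw, mul_le_mul hw1 hw1 hw.le (by norm_num : (0 : ℝ) ≤ 1 / 10)]

theorem NumC.c3 (h : NumC N y s w r u) : 2 * 10 ^ 5 * N ^ 3 * u ≤ r ^ 5 / 2 := by
  have h1 := h.nu8 3 125 (by norm_num)
  have h2 : (0 : ℝ) ≤ y ^ 125 := pow_nonneg h.hy0.le 125
  have h4 : r ^ 5 = (2 : ℝ)⁻¹ ^ 500 * y ^ 125 := by
    have e0 : ∀ (x : ℝ) (a b c : ℕ), a * b = c → x ^ c = (x ^ a) ^ b := by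
      intro x a b c habc
      rw [← pow_mul, habc]
    rw [h.hr, mul_pow, e0 _ 100 5 500 (by norm_num), e0 y 25 5 125 (by norm_num)]
  have h5 : (2 : ℝ)⁻¹ ^ 800 ≤ (2 : ℝ)⁻¹ ^ 500 * (2 : ℝ)⁻¹ ^ 100 := by
    have e3 : ∀ a b c : ℕ, a + b ≤ c → (2 : ℝ)⁻¹ ^ c ≤ (2 : ℝ)⁻¹ ^ a * (2 : ℝ)⁻¹ ^ b := by
      intro a b c habc
      rw [← pow_add]
      exact pow_le_pow_of_le_one (by norm_num) (by norm_num) habc
    exact e3 500 100 800 (by norm_num)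
  have h6 : (0 : ℝ) ≤ (2 : ℝ)⁻¹ ^ 500 * y ^ 125 := mul_nonneg (pow_nonneg (by norm_num) _) h2
  have h3 : (2 * 10 ^ 5 : ℝ) * (2 : ℝ)⁻¹ ^ 100 ≤ 1 / 2 := by norm_num
  rw [h4]
  calc 2 * 10 ^ 5 * N ^ 3 * u = 2 * 10 ^ 5 * (N ^ 3 * u) := by ring
    _ ≤ 2 * 10 ^ 5 * ((2 : ℝ)⁻¹ ^ 500 * (2 : ℝ)⁻¹ ^ 100 * y ^ 125) := by
        refine mul_le_mul_of_nonneg_left (h1.trans ?_) (by norm_num)
        exact mul_le_mul_of_nonneg_right h5 h2
    _ = ((2 * 10 ^ 5 : ℝ) * (2 : ℝ)⁻¹ ^ 100) * ((2 : ℝ)⁻¹ ^ 500 * y ^ 125) := by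
        generalize (2 : ℝ)⁻¹ ^ 500 = c
        generalize (2 : ℝ)⁻¹ ^ 100 = d
        ring
    _ ≤ 1 / 2 * ((2 : ℝ)⁻¹ ^ 500 * y ^ 125) := mul_le_mul_of_nonneg_right h3 h6
    _ = _ := by ring

theorem NumC.c4 (h : NumC N y s w r u) : 2 * 10 ^ 5 * N ^ 3 * u ≤ y / 16 := by
  have h1 := h.nu 3 1 (by norm_num)
  rw [pow_one] at h1
  have h2 := h.hy0
  have h3 : (2 * 10 ^ 5 : ℝ) * (2 : ℝ)⁻¹ ^ 200 ≤ 1 / 16 := by norm_num
  nlinarith [mul_le_mul_of_nonneg_right h3 h2.le]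

/-- (d) -/
theorem NumC.d (h : NumC N y s w r u) : 200 * r ≤ s * w := by
  rw [h.hs, h.hw, h.hr]
  have h1 := h.ypow (show 8 ≤ 25 by norm_num)
  have h2 : (0 : ℝ) ≤ y ^ 8 := pow_nonneg h.hy0.le 8
  have h4 : ((2 : ℝ)⁻¹ ^ 17 * y ^ 5) * ((2 : ℝ)⁻¹ ^ 11 * y ^ 3) = (2 : ℝ)⁻¹ ^ 28 * y ^ 8 := by ring
  rw [h4]
  have h3 : (200 : ℝ) * (2 : ℝ)⁻¹ ^ 100 ≤ (2 : ℝ)⁻¹ ^ 28 := by norm_num
  nlinarith [mul_le_mul_of_nonneg_right h3 h2, mul_le_mul_of_nonneg_left h1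
    (show (0 : ℝ) ≤ 200 * (2 : ℝ)⁻¹ ^ 100 by positivity)]

/-- (e) -/
theorem NumC.e (h : NumC N y s w r u) : 10 ^ 9 * N ^ 5 * u ≤ s * w ^ 2 * r := by
  have h1 := h.nu 5 36 (by norm_num)
  have h2 : (0 : ℝ) ≤ y ^ 36 := pow_nonneg h.hy0.le 36
  rw [h.hs, h.hw, h.hr]
  have h3 : (10 ^ 9 : ℝ) * (2 : ℝ)⁻¹ ^ 200 ≤ (2 : ℝ)⁻¹ ^ 139 := by norm_num
  have h4 : ((2 : ℝ)⁻¹ ^ 17 * y ^ 5) * ((2 : ℝ)⁻¹ ^ 11 * y ^ 3) ^ 2 * ((2 : ℝ)⁻¹ ^ 100 * y ^ 25) =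
      (2 : ℝ)⁻¹ ^ 139 * y ^ 36 := by ring
  rw [h4]
  nlinarith [mul_le_mul_of_nonneg_right h3 h2]

/-- `r ≤ s / 2` -/
theorem NumC.r_le (h : NumC N y s w r u) : r ≤ s / 2 := by
  have h1 := h.d
  have hs := h.s_pos
  have hw := h.w_pos
  have hw1 := h.w_le
  have hr := h.r_pos
  nlinarith [mul_le_mul_of_nonneg_left hw1 hs.le]

/-- the error of one column -/
noncomputable def epsCol (N s w r u : ℝ) : ℝ :=
  2200 * N * r / (w ^ 2 * s ^ 2) + 20 * N ^ 2 * u + 2 * (10 ^ 5 * N ^ 3 * u)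

theorem NumC.epsCol_nonneg (h : NumC N y s w r u) : 0 ≤ epsCol N s w r u := by
  have := h.hN; have := h.hu0; have := h.r_pos; have := h.s_pos; have := h.w_pos
  unfold epsCol
  positivity

theorem NumC.epsCol_le (h : NumC N y s w r u) : N * epsCol N s w r u ≤ (2 : ℝ)⁻¹ ^ 30 * y ^ 7 := by
  have hN := h.hN
  have hy0 := h.hy0
  have h1 : N * (2200 * N * r / (w ^ 2 * s ^ 2)) ≤ 2200 * (2 : ℝ)⁻¹ ^ 44 * y ^ 7 := by
    have e1 : N * (2200 * N * r / (w ^ 2 * s ^ 2)) = 2200 * (2 : ℝ)⁻¹ ^ 44 * (N ^ 2 * y ^ 2) * y ^ 7 := by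
      rw [h.hs, h.hw, h.hr]
      field_simp
    rw [e1]
    have h2 := h.npow 2
    have : (0 : ℝ) ≤ 2200 * (2 : ℝ)⁻¹ ^ 44 * y ^ 7 := by positivity
    nlinarith
  have h3 := h.nu 3 7 (by norm_num)
  have h4 := h.nu 4 7 (by norm_num)
  have hy7 : (0 : ℝ) ≤ y ^ 7 := by positivity
  have e2 : N * epsCol N s w r u = N * (2200 * N * r / (w ^ 2 * s ^ 2)) + 20 * (N ^ 3 * u) +
      2 * 10 ^ 5 * (N ^ 4 * u) := by
    unfold epsCol; ring
  rw [e2]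
  have h5 : 2200 * (2 : ℝ)⁻¹ ^ 44 + 20 * (2 : ℝ)⁻¹ ^ 200 + 2 * 10 ^ 5 * (2 : ℝ)⁻¹ ^ 200 ≤ (2 : ℝ)⁻¹ ^ 30 := by
    norm_num
  nlinarith [mul_le_mul_of_nonneg_right h5 hy7]

/-- (f) the final estimate, with `K = N / w`, `ε = N epsCol`, `ε' = 4 r` -/
theorem NumC.f (h : NumC N y s w r u) :
    2 * (N * epsCol N s w r u * (N / w)) ≤ 1 ∧
    2 * (N / w) * (N * (4 * r) + 8 * (N * epsCol N s w r u)) ≤ y / 16 := by
  have hN := h.hN
  have hy0 := h.hy0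
  have hw := h.w_pos
  have h1 : N * epsCol N s w r u * (N / w) ≤ (2 : ℝ)⁻¹ ^ 19 * y ^ 3 := by
    have e1 := mul_le_mul_of_nonneg_right h.epsCol_le (show (0 : ℝ) ≤ N / w by positivity)
    refine e1.trans ?_
    have e2 : (2 : ℝ)⁻¹ ^ 30 * y ^ 7 * (N / w) = (2 : ℝ)⁻¹ ^ 19 * (N ^ 1 * y ^ 1) * y ^ 3 := by
      rw [h.hw]; field_simp
    rw [e2]
    have := h.npow 1
    have : (0 : ℝ) ≤ (2 : ℝ)⁻¹ ^ 19 * y ^ 3 := by positivity
    nlinarith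
  have h2 : N / w * (N * (4 * r)) ≤ (2 : ℝ)⁻¹ ^ 80 * y := by
    have e2 : N / w * (N * (4 * r)) = 4 * (2 : ℝ)⁻¹ ^ 89 * (N ^ 2 * y ^ 2) * y ^ 20 := by
      rw [h.hw, h.hr]; field_simp
    rw [e2]
    have h3 := h.npow 2
    have h4 : y ^ 20 ≤ y ^ 1 := h.ypow (by norm_num)
    have h5 : (0 : ℝ) ≤ N ^ 2 * y ^ 2 := by positivity
    have h6 : (N ^ 2 * y ^ 2) * y ^ 20 ≤ 1 * y ^ 1 := mul_le_mul h3 h4 (by positivity) (by norm_num)
    have h7 : (4 : ℝ) * (2 : ℝ)⁻¹ ^ 89 ≤ (2 : ℝ)⁻¹ ^ 80 := by norm_num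
    calc 4 * (2 : ℝ)⁻¹ ^ 89 * (N ^ 2 * y ^ 2) * y ^ 20 = 4 * (2 : ℝ)⁻¹ ^ 89 * ((N ^ 2 * y ^ 2) * y ^ 20) := by ring
      _ ≤ 4 * (2 : ℝ)⁻¹ ^ 89 * (1 * y ^ 1) := mul_le_mul_of_nonneg_left h6 (by positivity)
      _ = 4 * (2 : ℝ)⁻¹ ^ 89 * y := by ring
      _ ≤ _ := mul_le_mul_of_nonneg_right h7 hy0.le
  have hy3 : y ^ 3 ≤ y ^ 1 := h.ypow (by norm_num)
  have hy31 : y ^ 3 ≤ 1 := pow_le_one₀ hy0.le h.hy1
  refine ⟨?_, ?_⟩
  · nlinarith [show (2 : ℝ)⁻¹ ^ 19 ≤ 1 / 4 by norm_num, pow_pos hy0 3]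
  · have e3 : 2 * (N / w) * (N * (4 * r) + 8 * (N * epsCol N s w r u)) =
        2 * (N / w * (N * (4 * r))) + 16 * (N * epsCol N s w r u * (N / w)) := by ring
    rw [e3]
    have h8 : (2 : ℝ)⁻¹ ^ 19 * y ^ 3 ≤ (2 : ℝ)⁻¹ ^ 19 * y := by
      rw [pow_one] at hy3
      exact mul_le_mul_of_nonneg_left hy3 (by positivity)
    have h9 : 2 * (2 : ℝ)⁻¹ ^ 80 + 16 * (2 : ℝ)⁻¹ ^ 19 ≤ 1 / 16 := by norm_num
    nlinarith [mul_le_mul_of_nonneg_right h9 hy0.le]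

end H6LP

end S_NUM
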