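import Pool.Agent.H6.LQ.Model

/-! MP_63a4b3_lc: the quantities of the final statement. -/

set_option autoImplicit false

namespace H6LP

/-- the accuracy parameter: `2^(-b) ≤ δ` -/
noncomputable def bOf (δ : ℝ) : ℕ := ⌈Real.logb 2 (1 / δ)⌉₊

/-- `L = 1 + log₂ (n/δ)` -/
noncomputable def LL (n : ℕ) (δ : ℝ) : ℝ := 1 + Real.logb 2 (n / δ)

/-- the computed matrix `V` -/
noncomputable def outV (ad : Adv) (n : ℕ) (δ : ℝ) (A : Matrix (Fin n) (Fin n) ℂ)
    (g : Fin (2 * n ^ 2 + 1) → ℝ) : Matrix (Fin n) (Fin n) ℂ :=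
  fun i j => val (exec ad (mainP n (bOf δ)) (env0 n A g ad)).2
    ((exec ad (mainP n (bOf δ)) (env0 n A g ad)).1.1 i j)

/-- the computed diagonal of `D` -/
noncomputable def outD (ad : Adv) (n : ℕ) (δ : ℝ) (A : Matrix (Fin n) (Fin n) ℂ)
    (g : Fin (2 * n ^ 2 + 1) → ℝ) : Fin n → ℂ :=
  fun i => val (exec ad (mainP n (bOf δ)) (env0 n A g ad)).2
    ((exec ad (mainP n (bOf δ)) (env0 n A g ad)).1.2 i)

end H6LP
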