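import Pool.Agent.H6.LQ.G8
import Pool.Agent.H6.LQ.G7
import Pool.Agent.H6.LQ.Stmt

/-! MP_63a4b3_lc: the final assembly. -/

set_option autoImplicit false

open MeasureTheory
open scoped Matrix.Norms.L2Operator

namespace H6LP

theorem bOf_spec {δ : ℝ} (hδ : 0 < δ) (hδ1 : δ < 1) :
    (2 : ℝ)⁻¹ ^ bOf δ ≤ δ ∧ (bOf δ : ℝ) ≤ Real.logb 2 (1 / δ) + 1 := by
  have h0 : 0 ≤ Real.logb 2 (1 / δ) :=
    Real.logb_nonneg (by norm_num) (by rw [le_div_iff₀ hδ]; linarith)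
  refine ⟨?_, (Nat.ceil_lt_add_one h0).le⟩
  have h1 : Real.logb 2 (1 / δ) ≤ bOf δ := Nat.le_ceil _
  have h2 : 1 / δ ≤ (2 : ℝ) ^ (bOf δ : ℝ) := by
    rw [← Real.logb_le_iff_le_rpow (by norm_num) (by positivity)]
    exact h1
  rw [Real.rpow_natCast] at h2
  rw [inv_pow, inv_le_comm₀ (by positivity) hδ]
  rwa [one_div] at h2

theorem clog_le (n : ℕ) (hn : 1 ≤ n) : (Nat.clog 2 n : ℝ) ≤ Real.logb 2 n + 1 := by
  rcases Nat.eq_or_lt_of_le hn with h | h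
  · rw [← h]; simp
  · have h1 : 2 ^ (Nat.clog 2 n - 1) < n := Nat.pow_pred_clog_lt_self (by norm_num) h
    have h2 : (2 : ℝ) ^ (Nat.clog 2 n - 1) ≤ n := by exact_mod_cast h1.le
    have h3 : 1 ≤ Nat.clog 2 n := Nat.clog_pos (by norm_num) h
    have h4 : ((Nat.clog 2 n - 1 : ℕ) : ℝ) ≤ Real.logb 2 n := by
      rw [Real.le_logb_iff_rpow_le (by norm_num) (by exact_mod_cast (by omega : 0 < n)),
        Real.rpow_natCast]
      exact h2
    rw [Nat.cast_sub h3] at h4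
    push_cast at h4
    linarith

theorem logb_split {n : ℕ} (hn : 1 ≤ n) {δ : ℝ} (hδ : 0 < δ) :
    Real.logb 2 (n / δ) = Real.logb 2 n + Real.logb 2 (1 / δ) := by
  have hn' : (n : ℝ) ≠ 0 := by positivity
  rw [div_eq_mul_one_div, Real.logb_mul hn' (by positivity)]

/-- `q + 1 ≤ L + 2` and `1 ≤ L` -/
theorem q_le {n : ℕ} (hn : 1 ≤ n) {δ : ℝ} (hδ : 0 < δ) (hδ1 : δ < 1) :
    (parQ n (bOf δ) : ℝ) ≤ LL n δ + 1 ∧ 1 ≤ LL n δ := by
  have h1 := (bOf_spec hδ hδ1).2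
  have h2 := clog_le n hn
  have h3 := logb_split hn hδ
  have h4 : 0 ≤ Real.logb 2 (1 / δ) :=
    Real.logb_nonneg (by norm_num) (by rw [le_div_iff₀ hδ]; linarith)
  have h5 : 0 ≤ Real.logb 2 (n : ℝ) := Real.logb_nonneg (by norm_num) (by exact_mod_cast hn)
  unfold LL parQ
  push_cast
  constructor <;> linarith

/-- **Diagonalization with logarithmic precision.**  For every `n ≥ 1` and `0 < δ < 1`:
the explicit program `mainP n (bOf δ)` makes on every path at most `10^15 n³ L²` operations, among them at most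
`10^7 n L²` comparisons, where `L = 1 + log₂ (n/δ)`; and for every unit roundoff `0 ≤ u ≤ 2^(-1200 L)` and every
`A` with operator norm `‖A‖ ≤ 1` there is a measurable set `S` of samples in the cube `[0,1]^(2n²+1)` of measure
at least `1 - δ/n` such that for all samples in `S` and all relative errors of size at most `u`, chosen by an
adversary, the computed `V` is invertible and `‖A - V D V⁻¹‖ ≤ δ`. -/
theorem result_aux (n : ℕ) (hn : 1 ≤ n) (δ : ℝ) (hδ : 0 < δ) (hδ1 : δ < 1) :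
    (∃ c d : ℕ, Bdd (mainP n (bOf δ)) c d ∧ (c : ℝ) ≤ 10 ^ 15 * n ^ 3 * LL n δ ^ 2 ∧
      (d : ℝ) ≤ 10 ^ 7 * n * LL n δ ^ 2) ∧
    ∀ u : ℝ, 0 ≤ u → u ≤ (2 : ℝ) ^ (-(1200 * LL n δ)) →
      ∀ A : Matrix (Fin n) (Fin n) ℂ, ‖A‖ ≤ 1 →
        ∃ S : Set (Fin (2 * n ^ 2 + 1) → ℝ), MeasurableSet S ∧
          (∀ g ∈ S, ∀ i, g i ∈ Set.Icc (0 : ℝ) 1) ∧
          ENNReal.ofReal (1 - δ / n) ≤ volume S ∧
          ∀ g ∈ S, ∀ ad : Adv, (∀ t, ‖ad.e t‖ ≤ u) →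
            IsUnit (outV ad n δ A g) ∧
              ‖A - outV ad n δ A g * Matrix.diagonal (outD ad n δ A g) * (outV ad n δ A g)⁻¹‖ ≤ δ := by
  obtain ⟨hq, hL⟩ := q_le hn hδ hδ1
  obtain ⟨hb, _⟩ := bOf_spec hδ hδ1
  have hq1 : (parQ n (bOf δ) : ℝ) + 1 ≤ 3 * LL n δ := by linarith
  have hq2 : ((parQ n (bOf δ) : ℝ) + 1) ^ 2 ≤ 9 * LL n δ ^ 2 := by
    have : 0 ≤ (parQ n (bOf δ) : ℝ) + 1 := by positivity
    nlinarith
  have hN : (1 : ℝ) ≤ n := by exact_mod_cast hn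
  refine ⟨⟨_, _, bdd_main hn (bOf δ), ?_, ?_⟩, ?_⟩
  · push_cast
    have h3 : (0 : ℝ) ≤ 10 ^ 14 * n ^ 3 := by positivity
    nlinarith [mul_le_mul_of_nonneg_left hq2 h3, mul_nonneg h3 (sq_nonneg (LL n δ))]
  · push_cast
    have h3 : (0 : ℝ) ≤ 10 ^ 6 * n := by positivity
    nlinarith [mul_le_mul_of_nonneg_left hq2 h3, mul_nonneg h3 (sq_nonneg (LL n δ))]
  · intro u hu0 hu A hA
    have hu1 : u ≤ (2 : ℝ)⁻¹ ^ (8 * parL n (bOf δ)) := by
      refine hu.trans ?_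
      have h4 : ((2 : ℝ)⁻¹ ^ (8 * parL n (bOf δ)) : ℝ) = (2 : ℝ) ^ (-((8 * parL n (bOf δ) : ℕ) : ℝ)) := by
        rw [Real.rpow_neg (by norm_num), Real.rpow_natCast, inv_pow]
      rw [h4]
      refine Real.rpow_le_rpow_of_exponent_le (by norm_num) ?_
      unfold parL
      push_cast
      linarith
    have hA' : OpLe A 1 := (opLe_iff_norm_le A (by norm_num)).2 hA
    obtain ⟨S, hSm, hSp, hS⟩ := good_event n (bOf δ) hn hA'
    refine ⟨S, hSm, fun g hg => (hS g hg).1, ?_, ?_⟩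
    · rw [← pp_eq_volume hSm (fun g hg => (hS g hg).1)]
      refine le_trans (ENNReal.ofReal_le_ofReal ?_) hSp
      have h5 : (2 : ℝ)⁻¹ ^ parQ n (bOf δ) ≤ δ / n := by
        rw [parQ, pow_add, le_div_iff₀ (by linarith)]
        have h6 : (n : ℝ) ≤ 2 ^ Nat.clog 2 n := by
          exact_mod_cast Nat.le_pow_clog (by norm_num) n
        have h7 : (2 : ℝ)⁻¹ ^ Nat.clog 2 n * (n : ℝ) ≤ 1 := by
          rw [inv_pow, mul_comm, ← div_eq_mul_inv, div_le_one (by positivity)]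
          exact h6
        have h8 : (0 : ℝ) ≤ (2 : ℝ)⁻¹ ^ bOf δ := by positivity
        calc (2 : ℝ)⁻¹ ^ bOf δ * (2 : ℝ)⁻¹ ^ Nat.clog 2 n * n
            = (2 : ℝ)⁻¹ ^ bOf δ * ((2 : ℝ)⁻¹ ^ Nat.clog 2 n * n) := by ring
          _ ≤ (2 : ℝ)⁻¹ ^ bOf δ * 1 := mul_le_mul_of_nonneg_left h7 h8
          _ ≤ δ := by rw [mul_one]; exact hb
      linarith
    · intro g hg ad had
      obtain ⟨hcube, hrow, hcol, hnode⟩ := hS g hg
      obtain ⟨_, V, D, hV, hD, hunit, hfro⟩ := post_main (b := bOf δ) hn (ad := ad) had hu1 hA' hcube hrow hcol hnode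
      have e1 : outV ad n δ A g = V := by
        funext i j
        exact (hV i j).2
      have e2 : outD ad n δ A g = D := by
        funext i
        exact (hD i).2
      rw [e1, e2]
      exact ⟨hunit, (norm_le_fro' _).trans (hfro.trans hb)⟩

end H6LP
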