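import Pool.Agent.H6.LQ.Core

/-! MP_63a4b3_lc, part G1: this file joins the modules NB, INV, DOT, NRM, HOUSE, HVEC, LMUL, RMUL, DETP. -/

section S_NB

set_option autoImplicit false

open Complex Matrix

namespace H6LP

variable {n m k : ℕ}

theorem NB_nv_eq (x : Fin n → ℂ) : nv x = ‖(WithLp.toLp 2 x : EuclideanSpace ℂ (Fin n))‖ := by
  rw [EuclideanSpace.norm_eq]; rfl

theorem NB_fro_eq (A : Matrix (Fin n) (Fin m) ℂ) :
    fro A = ‖(WithLp.toLp 2 (fun p : Fin n × Fin m => A p.1 p.2) :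
      EuclideanSpace ℂ (Fin n × Fin m))‖ := by
  rw [EuclideanSpace.norm_eq]
  unfold fro
  congr 1
  rw [Fintype.sum_prod_type]

theorem nv_nonneg (x : Fin n → ℂ) : 0 ≤ nv x := Real.sqrt_nonneg _

theorem nv_sq (x : Fin n → ℂ) : nv x ^ 2 = ∑ i, ‖x i‖ ^ 2 := by
  unfold nv
  exact Real.sq_sqrt (Finset.sum_nonneg fun i _ => by positivity)

theorem nv_zero : nv (0 : Fin n → ℂ) = 0 := by
  simp [nv]

theorem nv_eq_zero {x : Fin n → ℂ} : nv x = 0 ↔ x = 0 := by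
  rw [NB_nv_eq, norm_eq_zero]
  constructor
  · intro h
    have := congrArg (fun y : EuclideanSpace ℂ (Fin n) => y.ofLp) h
    simpa using this
  · intro h
    rw [h]; rfl

theorem nv_pos {x : Fin n → ℂ} (h : x ≠ 0) : 0 < nv x :=
  lt_of_le_of_ne (nv_nonneg x) (fun h0 => h (nv_eq_zero.1 h0.symm))

theorem nv_smul (c : ℂ) (x : Fin n → ℂ) : nv (c • x) = ‖c‖ * nv x := by
  rw [NB_nv_eq, NB_nv_eq, WithLp.toLp_smul, norm_smul]

theorem nv_neg (x : Fin n → ℂ) : nv (-x) = nv x := by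
  rw [NB_nv_eq, NB_nv_eq, WithLp.toLp_neg, norm_neg]

theorem nv_add_le (x y : Fin n → ℂ) : nv (x + y) ≤ nv x + nv y := by
  rw [NB_nv_eq, NB_nv_eq, NB_nv_eq, WithLp.toLp_add]
  exact norm_add_le _ _

theorem nv_sub_le (x y : Fin n → ℂ) : nv (x - y) ≤ nv x + nv y := by
  rw [NB_nv_eq, NB_nv_eq, NB_nv_eq, WithLp.toLp_sub]
  exact norm_sub_le _ _

theorem nv_sub_rev (x y : Fin n → ℂ) : nv (x - y) = nv (y - x) := by
  rw [← nv_neg, neg_sub]

theorem nv_sub_ge (x y : Fin n → ℂ) : nv x - nv y ≤ nv (x - y) := by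
  rw [NB_nv_eq, NB_nv_eq, NB_nv_eq, WithLp.toLp_sub]
  exact norm_sub_norm_le _ _

theorem abs_nv_sub_le (x y : Fin n → ℂ) : |nv x - nv y| ≤ nv (x - y) := by
  rw [NB_nv_eq, NB_nv_eq, NB_nv_eq, WithLp.toLp_sub]
  exact abs_norm_sub_norm_le _ _

theorem nv_sum_le {ι : Type} (s : Finset ι) (f : ι → Fin n → ℂ) :
    nv (∑ a ∈ s, f a) ≤ ∑ a ∈ s, nv (f a) := by
  classical
  induction s using Finset.induction_on with
  | empty => simp [nv_zero]
  | insert a s ha ih =>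
    rw [Finset.sum_insert ha, Finset.sum_insert ha]
    exact (nv_add_le _ _).trans (by linarith)

theorem norm_le_nv (x : Fin n → ℂ) (i : Fin n) : ‖x i‖ ≤ nv x := by
  unfold nv
  apply Real.le_sqrt_of_sq_le
  exact Finset.single_le_sum (f := fun i => ‖x i‖ ^ 2) (fun i _ => by positivity) (Finset.mem_univ i)

theorem NB_sq_le {a b : ℝ} (hb : 0 ≤ b) (h : a ^ 2 ≤ b ^ 2) : a ≤ b :=
  abs_le_of_sq_le_sq' h hb |>.2

theorem nv_le_mul_of_le {x y : Fin n → ℂ} {c : ℝ} (hc : 0 ≤ c) (h : ∀ i, ‖x i‖ ≤ c * ‖y i‖) :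
    nv x ≤ c * nv y := by
  apply NB_sq_le (mul_nonneg hc (nv_nonneg y))
  rw [mul_pow, nv_sq, nv_sq, Finset.mul_sum]
  apply Finset.sum_le_sum
  intro i _
  rw [← mul_pow]
  exact pow_le_pow_left₀ (norm_nonneg _) (h i) 2

theorem nv_mono {x y : Fin n → ℂ} (h : ∀ i, ‖x i‖ ≤ ‖y i‖) : nv x ≤ nv y := by
  have := nv_le_mul_of_le (x := x) (y := y) (c := 1) zero_le_one (fun i => by simpa using h i)
  simpa using this

theorem sum_norm_mul_le (x y : Fin n → ℂ) : ∑ i, ‖x i‖ * ‖y i‖ ≤ nv x * nv y := by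
  unfold nv
  exact Real.sum_mul_le_sqrt_mul_sqrt _ _ _

theorem norm_dot_le (x y : Fin n → ℂ) : ‖∑ i, x i * y i‖ ≤ nv x * nv y := by
  refine (norm_sum_le _ _).trans ?_
  simp only [norm_mul]
  exact sum_norm_mul_le x y

theorem norm_dotProduct_le (x y : Fin n → ℂ) : ‖x ⬝ᵥ y‖ ≤ nv x * nv y := norm_dot_le x y

theorem nv_star (x : Fin n → ℂ) : nv (star x) = nv x := by
  simp [nv]

theorem star_dot_self (x : Fin n → ℂ) : star x ⬝ᵥ x = ((nv x ^ 2 : ℝ) : ℂ) := by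
  rw [nv_sq]
  simp only [dotProduct, Pi.star_apply]
  rw [Complex.ofReal_sum]
  refine Finset.sum_congr rfl fun i _ => ?_
  rw [mul_comm]
  have := Complex.mul_conj (x i)
  rw [show star (x i) = (starRingEnd ℂ) (x i) from rfl, this, Complex.normSq_eq_norm_sq]

theorem nv_single (i : Fin n) (c : ℂ) : nv (Pi.single i c) = ‖c‖ := by
  unfold nv
  rw [Finset.sum_eq_single i]
  · simp [Real.sqrt_sq (norm_nonneg c)]
  · intro j _ hj
    simp [Pi.single_eq_of_ne hj]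
  · intro h; exact absurd (Finset.mem_univ i) h

theorem NB_e1_eq (hn : 1 ≤ n) : e1 n = Pi.single (⟨0, hn⟩ : Fin n) (1 : ℂ) := by
  funext i
  unfold e1
  by_cases h : (i : ℕ) = 0
  · have : i = ⟨0, hn⟩ := Fin.ext h
    rw [this]; simp
  · have : i ≠ ⟨0, hn⟩ := fun h' => h (by rw [h'])
    rw [if_neg h, Pi.single_eq_of_ne this]

theorem nv_e1 (hn : 1 ≤ n) : nv (e1 n) = 1 := by
  rw [NB_e1_eq hn, nv_single]; simp

theorem exists_large_coord (hn : 1 ≤ n) (x : Fin n → ℂ) : ∃ i, nv x ≤ Real.sqrt n * ‖x i‖ := by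
  have : Nonempty (Fin n) := ⟨⟨0, hn⟩⟩
  obtain ⟨i, hi⟩ := Finite.exists_max (fun i => ‖x i‖)
  refine ⟨i, ?_⟩
  apply NB_sq_le (by positivity)
  rw [nv_sq, mul_pow, Real.sq_sqrt (Nat.cast_nonneg n)]
  calc ∑ j, ‖x j‖ ^ 2 ≤ ∑ j : Fin n, ‖x i‖ ^ 2 :=
        Finset.sum_le_sum fun j _ => pow_le_pow_left₀ (norm_nonneg _) (hi j) 2
    _ = n * ‖x i‖ ^ 2 := by simp

/-! ## Frobenius norm -/

theorem fro_nonneg (A : Matrix (Fin n) (Fin m) ℂ) : 0 ≤ fro A := Real.sqrt_nonneg _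

theorem fro_sq (A : Matrix (Fin n) (Fin m) ℂ) : fro A ^ 2 = ∑ i, ∑ j, ‖A i j‖ ^ 2 := by
  unfold fro
  exact Real.sq_sqrt (Finset.sum_nonneg fun i _ => Finset.sum_nonneg fun j _ => by positivity)

theorem fro_sq_rows (A : Matrix (Fin n) (Fin m) ℂ) : fro A ^ 2 = ∑ i, nv (A i) ^ 2 := by
  rw [fro_sq]
  exact Finset.sum_congr rfl fun i _ => (nv_sq _).symm

theorem fro_sq_cols (A : Matrix (Fin n) (Fin m) ℂ) : fro A ^ 2 = ∑ j, nv (fun i => A i j) ^ 2 := by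
  rw [fro_sq, Finset.sum_comm]
  exact Finset.sum_congr rfl fun i _ => (nv_sq _).symm

theorem fro_zero : fro (0 : Matrix (Fin n) (Fin m) ℂ) = 0 := by
  simp [fro]

theorem fro_eq_zero {A : Matrix (Fin n) (Fin m) ℂ} : fro A = 0 ↔ A = 0 := by
  constructor
  · intro h
    have h2 : ∑ i, nv (A i) ^ 2 = 0 := by rw [← fro_sq_rows, h]; ring
    rw [Finset.sum_eq_zero_iff_of_nonneg (fun i _ => by positivity)] at h2
    funext i
    have := h2 i (Finset.mem_univ i)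
    exact nv_eq_zero.1 (pow_eq_zero_iff (two_ne_zero) |>.1 this)
  · rintro rfl
    exact fro_zero

theorem fro_smul (c : ℂ) (A : Matrix (Fin n) (Fin m) ℂ) : fro (c • A) = ‖c‖ * fro A := by
  rw [NB_fro_eq, NB_fro_eq, ← norm_smul, ← WithLp.toLp_smul]
  rfl

theorem fro_neg (A : Matrix (Fin n) (Fin m) ℂ) : fro (-A) = fro A := by
  simp [fro]

theorem fro_add_le (A B : Matrix (Fin n) (Fin m) ℂ) : fro (A + B) ≤ fro A + fro B := by
  rw [NB_fro_eq, NB_fro_eq, NB_fro_eq]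
  refine le_trans (le_of_eq ?_) (norm_add_le _ _)
  rw [← WithLp.toLp_add]
  rfl

theorem fro_sub_le (A B : Matrix (Fin n) (Fin m) ℂ) : fro (A - B) ≤ fro A + fro B := by
  have := fro_add_le A (-B)
  rwa [fro_neg, ← sub_eq_add_neg] at this

theorem fro_sub_rev (A B : Matrix (Fin n) (Fin m) ℂ) : fro (A - B) = fro (B - A) := by
  rw [← fro_neg, neg_sub]

theorem fro_transpose (A : Matrix (Fin n) (Fin m) ℂ) : fro Aᵀ = fro A := by
  unfold fro
  rw [Finset.sum_comm]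
  rfl

theorem fro_conjTranspose (A : Matrix (Fin n) (Fin m) ℂ) : fro Aᴴ = fro A := by
  unfold fro
  rw [Finset.sum_comm]
  simp [Matrix.conjTranspose_apply]

theorem fro_one : fro (1 : Matrix (Fin n) (Fin n) ℂ) = Real.sqrt n := by
  unfold fro
  congr 1
  calc ∑ i : Fin n, ∑ j : Fin n, ‖(1 : Matrix (Fin n) (Fin n) ℂ) i j‖ ^ 2 = ∑ i : Fin n, (1 : ℝ) := by
        refine Finset.sum_congr rfl fun i _ => ?_
        rw [Finset.sum_eq_single i]
        · simp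
        · intro j _ hj
          rw [Matrix.one_apply_ne hj.symm]; simp
        · intro h; exact absurd (Finset.mem_univ i) h
    _ = n := by simp

theorem fro_smul_one (c : ℂ) : fro (c • (1 : Matrix (Fin n) (Fin n) ℂ)) = ‖c‖ * Real.sqrt n := by
  rw [fro_smul, fro_one]

theorem nv_row_le_fro (A : Matrix (Fin n) (Fin m) ℂ) (i : Fin n) : nv (A i) ≤ fro A := by
  apply NB_sq_le (fro_nonneg A)
  rw [fro_sq_rows]
  exact Finset.single_le_sum (f := fun i => nv (A i) ^ 2) (fun i _ => by positivity) (Finset.mem_univ i)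

theorem nv_col_le_fro (A : Matrix (Fin n) (Fin m) ℂ) (j : Fin m) : nv (fun i => A i j) ≤ fro A := by
  apply NB_sq_le (fro_nonneg A)
  rw [fro_sq_cols]
  exact Finset.single_le_sum (f := fun j => nv (fun i => A i j) ^ 2) (fun i _ => by positivity)
    (Finset.mem_univ j)

theorem norm_le_fro (A : Matrix (Fin n) (Fin m) ℂ) (i : Fin n) (j : Fin m) : ‖A i j‖ ≤ fro A :=
  (norm_le_nv (A i) j).trans (nv_row_le_fro A i)

theorem fro_le_of_rows {A B : Matrix (Fin n) (Fin m) ℂ} {c : ℝ} (hc : 0 ≤ c)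
    (h : ∀ i, nv (A i) ≤ c * nv (B i)) : fro A ≤ c * fro B := by
  apply NB_sq_le (mul_nonneg hc (fro_nonneg B))
  rw [mul_pow, fro_sq_rows, fro_sq_rows, Finset.mul_sum]
  apply Finset.sum_le_sum
  intro i _
  rw [← mul_pow]
  exact pow_le_pow_left₀ (nv_nonneg _) (h i) 2

theorem fro_le_of_entries {A B : Matrix (Fin n) (Fin m) ℂ} {c : ℝ} (hc : 0 ≤ c)
    (h : ∀ i j, ‖A i j‖ ≤ c * ‖B i j‖) : fro A ≤ c * fro B :=
  fro_le_of_rows hc fun i => nv_le_mul_of_le hc (h i)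

theorem fro_le_of_cols {A B : Matrix (Fin n) (Fin m) ℂ} {c : ℝ} (hc : 0 ≤ c)
    (h : ∀ j, nv (fun i => A i j) ≤ c * nv (fun i => B i j)) : fro A ≤ c * fro B := by
  rw [← fro_transpose A, ← fro_transpose B]
  exact fro_le_of_rows hc h

theorem fro_le_sqrt_rows {A : Matrix (Fin n) (Fin m) ℂ} {c : ℝ} (hc : 0 ≤ c)
    (h : ∀ i, nv (A i) ≤ c) : fro A ≤ Real.sqrt n * c := by
  apply NB_sq_le (by positivity)
  rw [mul_pow, fro_sq_rows, Real.sq_sqrt (Nat.cast_nonneg n)]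
  calc ∑ i, nv (A i) ^ 2 ≤ ∑ _i : Fin n, c ^ 2 :=
        Finset.sum_le_sum fun i _ => pow_le_pow_left₀ (nv_nonneg _) (h i) 2
    _ = n * c ^ 2 := by simp

/-- all columns `≤ c` -/
theorem fro_le_sqrt_cols {A : Matrix (Fin n) (Fin m) ℂ} {c : ℝ} (hc : 0 ≤ c)
    (h : ∀ j, nv (fun i => A i j) ≤ c) : fro A ≤ Real.sqrt m * c := by
  rw [← fro_transpose A]
  exact fro_le_sqrt_rows hc h

theorem nv_mulVec_le (A : Matrix (Fin n) (Fin m) ℂ) (x : Fin m → ℂ) : nv (A *ᵥ x) ≤ fro A * nv x := by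
  apply NB_sq_le (mul_nonneg (fro_nonneg A) (nv_nonneg x))
  rw [mul_pow, nv_sq, fro_sq_rows, Finset.sum_mul]
  apply Finset.sum_le_sum
  intro i _
  rw [← mul_pow]
  exact pow_le_pow_left₀ (norm_nonneg _) (norm_dotProduct_le (A i) x) 2

theorem nv_vecMul_le (A : Matrix (Fin n) (Fin m) ℂ) (x : Fin n → ℂ) : nv (x ᵥ* A) ≤ fro A * nv x := by
  rw [← Matrix.mulVec_transpose, ← fro_transpose A]
  exact nv_mulVec_le _ _

theorem NB_mul_col (A : Matrix (Fin n) (Fin m) ℂ) (B : Matrix (Fin m) (Fin k) ℂ) (j : Fin k) :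
    (fun i => (A * B) i j) = A *ᵥ (fun i => B i j) := by
  funext i
  rfl

theorem NB_mul_row (A : Matrix (Fin n) (Fin m) ℂ) (B : Matrix (Fin m) (Fin k) ℂ) (i : Fin n) :
    (A * B) i = (A i) ᵥ* B := by
  funext j
  rfl

theorem NB_fro_le_of_cols {l : ℕ} {A : Matrix (Fin n) (Fin m) ℂ} {B : Matrix (Fin l) (Fin m) ℂ} {c : ℝ}
    (hc : 0 ≤ c) (h : ∀ j, nv (fun i => A i j) ≤ c * nv (fun i => B i j)) : fro A ≤ c * fro B := by
  apply NB_sq_le (mul_nonneg hc (fro_nonneg B))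
  rw [mul_pow, fro_sq_cols, fro_sq_cols, Finset.mul_sum]
  apply Finset.sum_le_sum
  intro i _
  rw [← mul_pow]
  exact pow_le_pow_left₀ (nv_nonneg _) (h i) 2

theorem NB_fro_le_of_rows {l : ℕ} {A : Matrix (Fin n) (Fin m) ℂ} {B : Matrix (Fin n) (Fin l) ℂ} {c : ℝ}
    (hc : 0 ≤ c) (h : ∀ i, nv (A i) ≤ c * nv (B i)) : fro A ≤ c * fro B := by
  apply NB_sq_le (mul_nonneg hc (fro_nonneg B))
  rw [mul_pow, fro_sq_rows, fro_sq_rows, Finset.mul_sum]
  apply Finset.sum_le_sum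
  intro i _
  rw [← mul_pow]
  exact pow_le_pow_left₀ (nv_nonneg _) (h i) 2

theorem fro_mul_le (A : Matrix (Fin n) (Fin m) ℂ) (B : Matrix (Fin m) (Fin k) ℂ) :
    fro (A * B) ≤ fro A * fro B := by
  apply NB_fro_le_of_cols (fro_nonneg A)
  intro j
  rw [NB_mul_col]
  exact nv_mulVec_le _ _

theorem fro_vecMulVec (x : Fin n → ℂ) (y : Fin m → ℂ) : fro (Matrix.vecMulVec x y) = nv x * nv y := by
  have h : fro (Matrix.vecMulVec x y) ^ 2 = (nv x * nv y) ^ 2 := by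
    rw [fro_sq, mul_pow, nv_sq, nv_sq, Finset.sum_mul_sum]
    refine Finset.sum_congr rfl fun i _ => Finset.sum_congr rfl fun j _ => ?_
    rw [Matrix.vecMulVec_apply, norm_mul, mul_pow]
  exact (sq_eq_sq₀ (fro_nonneg _) (mul_nonneg (nv_nonneg _) (nv_nonneg _))).1 h

theorem fro_mul_diagonal_le {A : Matrix (Fin n) (Fin m) ℂ} {d : Fin m → ℂ} {c : ℝ} (hc : 0 ≤ c)
    (h : ∀ i, ‖d i‖ ≤ c) : fro (A * Matrix.diagonal d) ≤ c * fro A := by
  apply fro_le_of_entries hc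
  intro i j
  rw [Matrix.mul_diagonal, norm_mul, mul_comm]
  exact mul_le_mul_of_nonneg_right (h j) (norm_nonneg _)

theorem fro_diagonal_mul_le {A : Matrix (Fin n) (Fin m) ℂ} {d : Fin n → ℂ} {c : ℝ} (hc : 0 ≤ c)
    (h : ∀ i, ‖d i‖ ≤ c) : fro (Matrix.diagonal d * A) ≤ c * fro A := by
  apply fro_le_of_entries hc
  intro i j
  rw [Matrix.diagonal_mul, norm_mul]
  exact mul_le_mul_of_nonneg_right (h i) (norm_nonneg _)

/-! ## operator norm bounds -/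

theorem opLe_fro (A : Matrix (Fin n) (Fin m) ℂ) : OpLe A (fro A) := fun x => nv_mulVec_le A x

theorem OpLe.mono {A : Matrix (Fin n) (Fin m) ℂ} {a b : ℝ} (h : OpLe A a) (hab : a ≤ b) : OpLe A b :=
  fun x => (h x).trans (mul_le_mul_of_nonneg_right hab (nv_nonneg x))

theorem OpLe.add {A B : Matrix (Fin n) (Fin m) ℂ} {a b : ℝ} (hA : OpLe A a) (hB : OpLe B b) :
    OpLe (A + B) (a + b) := by
  intro x
  rw [Matrix.add_mulVec, add_mul]
  exact (nv_add_le _ _).trans (add_le_add (hA x) (hB x))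

theorem OpLe.add_fro {A B : Matrix (Fin n) (Fin m) ℂ} {a b : ℝ} (hA : OpLe A a) (hB : fro B ≤ b) :
    OpLe (A + B) (a + b) :=
  hA.add ((opLe_fro B).mono hB)

theorem OpLe.mul {A : Matrix (Fin n) (Fin m) ℂ} {B : Matrix (Fin m) (Fin k) ℂ} {a b : ℝ} (ha : 0 ≤ a)
    (hA : OpLe A a) (hB : OpLe B b) : OpLe (A * B) (a * b) := by
  intro x
  rw [← Matrix.mulVec_mulVec, mul_assoc]
  exact (hA _).trans (mul_le_mul_of_nonneg_left (hB x) ha)

theorem OpLe.conjTranspose {A : Matrix (Fin n) (Fin m) ℂ} {a : ℝ} (ha : 0 ≤ a) (hA : OpLe A a) :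
    OpLe Aᴴ a := by
  intro x
  by_cases h0 : nv (Aᴴ *ᵥ x) = 0
  · rw [h0]; exact mul_nonneg ha (nv_nonneg x)
  have hpos : 0 < nv (Aᴴ *ᵥ x) := lt_of_le_of_ne (nv_nonneg _) (Ne.symm h0)
  have h1 : star (Aᴴ *ᵥ x) ⬝ᵥ (Aᴴ *ᵥ x) = star x ⬝ᵥ (A *ᵥ (Aᴴ *ᵥ x)) := by
    rw [Matrix.star_mulVec, Matrix.conjTranspose_conjTranspose, ← Matrix.dotProduct_mulVec]
  have h2 : nv (Aᴴ *ᵥ x) ^ 2 ≤ nv x * (a * nv (Aᴴ *ᵥ x)) := by
    have h3 : ‖star (Aᴴ *ᵥ x) ⬝ᵥ (Aᴴ *ᵥ x)‖ = nv (Aᴴ *ᵥ x) ^ 2 := by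
      rw [star_dot_self, Complex.norm_real, Real.norm_eq_abs, abs_of_nonneg (by positivity)]
    rw [← h3, h1]
    refine (norm_dotProduct_le _ _).trans ?_
    rw [nv_star]
    exact mul_le_mul_of_nonneg_left (hA _) (nv_nonneg x)
  nlinarith

theorem OpLe.vecMul {A : Matrix (Fin n) (Fin m) ℂ} {a : ℝ} (ha : 0 ≤ a) (hA : OpLe A a)
    (x : Fin n → ℂ) : nv (x ᵥ* A) ≤ a * nv x := by
  have h := hA.conjTranspose ha (star x)
  rw [nv_star] at h
  have h2 : star (x ᵥ* A) = Aᴴ *ᵥ star x := by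
    rw [Matrix.star_vecMul]
  rw [← nv_star, h2]
  exact h

theorem OpLe.fro_mul_le {A : Matrix (Fin n) (Fin m) ℂ} {a : ℝ} (ha : 0 ≤ a) (hA : OpLe A a)
    (B : Matrix (Fin m) (Fin k) ℂ) : fro (A * B) ≤ a * fro B := by
  apply NB_fro_le_of_cols ha
  intro j
  rw [NB_mul_col]
  exact hA _

theorem OpLe.fro_mul_le' {A : Matrix (Fin n) (Fin m) ℂ} {a : ℝ} (ha : 0 ≤ a) (hA : OpLe A a)
    (B : Matrix (Fin k) (Fin n) ℂ) : fro (B * A) ≤ a * fro B := by
  apply NB_fro_le_of_rows ha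
  intro i
  rw [NB_mul_row]
  exact hA.vecMul ha _

theorem OpLe.fro_le {A : Matrix (Fin n) (Fin m) ℂ} {a : ℝ} (ha : 0 ≤ a) (hA : OpLe A a) :
    fro A ≤ a * Real.sqrt m := by
  have := hA.fro_mul_le ha (1 : Matrix (Fin m) (Fin m) ℂ)
  rwa [Matrix.mul_one, fro_one] at this

/-- eigenvalues are bounded by the operator norm -/
theorem OpLe.eigenvalue_le {A : Matrix (Fin n) (Fin n) ℂ} {a : ℝ} (hA : OpLe A a) {x : Fin n → ℂ}
    {z : ℂ} (hx : x ≠ 0) (h : A *ᵥ x = z • x) : ‖z‖ ≤ a := by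
  have h1 := hA x
  rw [h, nv_smul] at h1
  exact le_of_mul_le_mul_right h1 (nv_pos hx)

/-! ## unitary matrices -/

theorem Uni.one : Uni (1 : Matrix (Fin n) (Fin n) ℂ) := by
  unfold Uni
  simp

theorem Uni.mul_conjTranspose {U : Matrix (Fin n) (Fin n) ℂ} (h : Uni U) : U * Uᴴ = 1 :=
  mul_eq_one_comm.1 h

theorem Uni.conjTranspose {U : Matrix (Fin n) (Fin n) ℂ} (h : Uni U) : Uni Uᴴ := by
  unfold Uni
  rw [Matrix.conjTranspose_conjTranspose]
  exact h.mul_conjTranspose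

theorem Uni.mul {U U' : Matrix (Fin n) (Fin n) ℂ} (h : Uni U) (h' : Uni U') : Uni (U * U') := by
  unfold Uni at *
  rw [Matrix.conjTranspose_mul, Matrix.mul_assoc, ← Matrix.mul_assoc Uᴴ, h, Matrix.one_mul, h']

theorem Uni.nv_mulVec {U : Matrix (Fin n) (Fin n) ℂ} (h : Uni U) (x : Fin n → ℂ) :
    nv (U *ᵥ x) = nv x := by
  have h1 : star (U *ᵥ x) ⬝ᵥ (U *ᵥ x) = star x ⬝ᵥ x := by
    rw [Matrix.star_mulVec, ← Matrix.dotProduct_mulVec, Matrix.mulVec_mulVec]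
    unfold Uni at h
    rw [h, Matrix.one_mulVec]
  rw [star_dot_self, star_dot_self] at h1
  have h2 : nv (U *ᵥ x) ^ 2 = nv x ^ 2 := by exact_mod_cast h1
  exact (sq_eq_sq₀ (nv_nonneg _) (nv_nonneg _)).1 h2

theorem Uni.nv_vecMul {U : Matrix (Fin n) (Fin n) ℂ} (h : Uni U) (x : Fin n → ℂ) :
    nv (x ᵥ* U) = nv x := by
  rw [← nv_star, Matrix.star_vecMul, h.conjTranspose.nv_mulVec, nv_star]

theorem Uni.opLe {U : Matrix (Fin n) (Fin n) ℂ} (h : Uni U) : OpLe U 1 := fun x => by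
  rw [h.nv_mulVec, one_mul]

theorem Uni.fro_mul {U : Matrix (Fin n) (Fin n) ℂ} (h : Uni U) (A : Matrix (Fin n) (Fin m) ℂ) :
    fro (U * A) = fro A := by
  apply le_antisymm
  · have := h.opLe.fro_mul_le zero_le_one A
    rwa [one_mul] at this
  · have := h.conjTranspose.opLe.fro_mul_le zero_le_one (U * A)
    unfold Uni at h
    rwa [one_mul, ← Matrix.mul_assoc, h, Matrix.one_mul] at this

theorem Uni.fro_mul' {U : Matrix (Fin n) (Fin n) ℂ} (h : Uni U) (A : Matrix (Fin m) (Fin n) ℂ) :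
    fro (A * U) = fro A := by
  apply le_antisymm
  · have := h.opLe.fro_mul_le' zero_le_one A
    rwa [one_mul] at this
  · have := h.conjTranspose.opLe.fro_mul_le' zero_le_one (A * U)
    rwa [one_mul, Matrix.mul_assoc, h.mul_conjTranspose, Matrix.mul_one] at this

theorem Uni.fro_eq {U : Matrix (Fin n) (Fin n) ℂ} (h : Uni U) : fro U = Real.sqrt n := by
  have := h.fro_mul (1 : Matrix (Fin n) (Fin n) ℂ)
  rwa [Matrix.mul_one, fro_one] at this

theorem Uni.norm_det {U : Matrix (Fin n) (Fin n) ℂ} (h : Uni U) : ‖U.det‖ = 1 := by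
  unfold Uni at h
  have h1 := congrArg Matrix.det h
  rw [Matrix.det_mul, Matrix.det_conjTranspose, Matrix.det_one] at h1
  have h2 : ‖star U.det * U.det‖ = 1 := by rw [h1]; simp
  rw [norm_mul, norm_star] at h2
  have h3 : 0 ≤ ‖U.det‖ := norm_nonneg _
  nlinarith

/-! ## `Fix0` -/

theorem Fix0.one : Fix0 (1 : Matrix (Fin n) (Fin n) ℂ) := by
  constructor
  · intro i j hj
    rw [Matrix.one_apply]
    by_cases hi : (i : ℕ) = 0
    · rw [if_pos hi, if_pos (Fin.ext (hi.trans hj.symm))]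
    · rw [if_neg hi, if_neg (fun h => hi (by rw [h, hj]))]
  · intro i j hi
    rw [Matrix.one_apply]
    by_cases hj : (j : ℕ) = 0
    · rw [if_pos hj, if_pos (Fin.ext (hi.trans hj.symm))]
    · rw [if_neg hj, if_neg (fun h => hj (by rw [← h, hi]))]

theorem Fix0.mul {P Q : Matrix (Fin n) (Fin n) ℂ} (hP : Fix0 P) (hQ : Fix0 Q) : Fix0 (P * Q) := by
  constructor
  · intro i j hj
    rw [Matrix.mul_apply, Finset.sum_eq_single j]
    · rw [hP.1 i j hj, hQ.1 j j hj, if_pos hj, mul_one]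
    · intro l _ hl
      rw [hQ.1 l j hj, if_neg (fun h => hl (Fin.ext (h.trans hj.symm))), mul_zero]
    · intro h; exact absurd (Finset.mem_univ j) h
  · intro i j hi
    rw [Matrix.mul_apply, Finset.sum_eq_single i]
    · rw [hP.2 i i hi, hQ.2 i j hi, if_pos hi, one_mul]
    · intro l _ hl
      rw [hP.2 i l hi, if_neg (fun h => hl (Fin.ext (h.trans hi.symm))), zero_mul]
    · intro h; exact absurd (Finset.mem_univ i) h

theorem Fix0.conjTranspose {P : Matrix (Fin n) (Fin n) ℂ} (hP : Fix0 P) : Fix0 Pᴴ := by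
  constructor
  · intro i j hj
    rw [Matrix.conjTranspose_apply, hP.2 j i hj]
    split_ifs <;> simp
  · intro i j hi
    rw [Matrix.conjTranspose_apply, hP.1 j i hi]
    split_ifs <;> simp

theorem Fix0.mulVec_e1 {P : Matrix (Fin n) (Fin n) ℂ} (hP : Fix0 P) : P *ᵥ e1 n = e1 n := by
  funext i
  have hn : 1 ≤ n := by have := i.2; omega
  rw [NB_e1_eq hn]
  simp only [Matrix.mulVec, dotProduct]
  rw [Finset.sum_eq_single (⟨0, hn⟩ : Fin n)]
  · rw [hP.1 i ⟨0, hn⟩ rfl, Pi.single_eq_same, mul_one, ← NB_e1_eq hn]; rfl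
  · intro l _ hl
    rw [Pi.single_eq_of_ne hl, mul_zero]
  · intro h; exact absurd (Finset.mem_univ _) h

/-- the first coordinate is not changed -/
theorem Fix0.vecMul_first {P : Matrix (Fin n) (Fin n) ℂ} (hP : Fix0 P) (x : Fin n → ℂ) (i : Fin n)
    (hi : (i : ℕ) = 0) : (x ᵥ* P) i = x i := by
  simp only [Matrix.vecMul, dotProduct]
  rw [Finset.sum_eq_single i]
  · rw [hP.1 i i hi, if_pos hi, mul_one]
  · intro l _ hl
    rw [hP.1 l i hi, if_neg (fun h => hl (Fin.ext (h.trans hi.symm))), mul_zero]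
  · intro h; exact absurd (Finset.mem_univ i) h

end H6LP

end S_NB

section S_INV

set_option autoImplicit false

open Complex Matrix

namespace H6LP

variable {n : ℕ}

theorem INV_sim {X Q : Matrix (Fin n) (Fin n) ℂ} (hQ : Uni Q) (z : ℂ) :
    z • (1 : Matrix (Fin n) (Fin n) ℂ) - Qᴴ * X * Q =
      Qᴴ * (z • (1 : Matrix (Fin n) (Fin n) ℂ) - X) * Q := by
  unfold Uni at hQ
  rw [Matrix.mul_sub, Matrix.sub_mul, Matrix.mul_smul, Matrix.smul_mul, Matrix.mul_one, hQ]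

theorem RowLB.mono {X : Matrix (Fin n) (Fin n) ℂ} {s s' : ℝ} (h : RowLB X s) (hs : s' ≤ s) :
    RowLB X s' := by
  intro z hz x hx
  exact (mul_le_mul_of_nonneg_right hs (nv_nonneg x)).trans (h z hz x hx)

theorem RowLB.pert {X E : Matrix (Fin n) (Fin n) ℂ} {s ε : ℝ} (h : RowLB X s) (hE : fro E ≤ ε) :
    RowLB (X + E) (s - ε) := by
  intro z hz x hx
  have h1 := h z hz x hx
  have h2 : x ᵥ* (z • (1 : Matrix (Fin n) (Fin n) ℂ) - (X + E)) =
      x ᵥ* (z • (1 : Matrix (Fin n) (Fin n) ℂ) - X) - x ᵥ* E := by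
    rw [← sub_sub, Matrix.vecMul_sub]
  rw [h2]
  have h3 := nv_sub_ge (x ᵥ* (z • (1 : Matrix (Fin n) (Fin n) ℂ) - X)) (x ᵥ* E)
  have h4 := nv_vecMul_le E x
  have h5 := mul_le_mul_of_nonneg_right hE (nv_nonneg x)
  nlinarith

theorem RowLB.uni {X Q : Matrix (Fin n) (Fin n) ℂ} {s : ℝ} (h : RowLB X s) (hQ : Uni Q) (h0 : Fix0 Q) :
    RowLB (Qᴴ * X * Q) s := by
  intro z hz x hx
  rw [INV_sim hQ, ← Matrix.vecMul_vecMul, ← Matrix.vecMul_vecMul, hQ.nv_vecMul]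
  have h1 := h z hz (x ᵥ* Qᴴ) (fun i hi => by
    rw [h0.conjTranspose.vecMul_first x i hi, hx i hi])
  rwa [hQ.conjTranspose.nv_vecMul] at h1

theorem ColAt.mono {X : Matrix (Fin n) (Fin n) ℂ} {z : ℂ} {t t' : ℝ} (h : ColAt X z t) (ht : t' ≤ t) :
    ColAt X z t' := by
  intro x
  exact (mul_le_mul_of_nonneg_right ht (nv_nonneg x)).trans (h x)

theorem ColAt.pert {X E : Matrix (Fin n) (Fin n) ℂ} {z : ℂ} {t ε : ℝ} (h : ColAt X z t)
    (hE : fro E ≤ ε) : ColAt (X + E) z (t - ε) := by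
  intro x
  have h1 := h x
  have h2 : (z • (1 : Matrix (Fin n) (Fin n) ℂ) - (X + E)) *ᵥ x =
      (z • (1 : Matrix (Fin n) (Fin n) ℂ) - X) *ᵥ x - E *ᵥ x := by
    rw [← sub_sub, Matrix.sub_mulVec]
  rw [h2]
  have h3 := nv_sub_ge ((z • (1 : Matrix (Fin n) (Fin n) ℂ) - X) *ᵥ x) (E *ᵥ x)
  have h4 := nv_mulVec_le E x
  have h5 := mul_le_mul_of_nonneg_right hE (nv_nonneg x)
  nlinarith

theorem ColAt.pert_z {X : Matrix (Fin n) (Fin n) ℂ} {z z' : ℂ} {t ε : ℝ} (h : ColAt X z t)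
    (hE : ‖z' - z‖ ≤ ε) : ColAt X z' (t - ε) := by
  intro x
  have h1 := h x
  have h2 : (z' • (1 : Matrix (Fin n) (Fin n) ℂ) - X) *ᵥ x =
      (z • (1 : Matrix (Fin n) (Fin n) ℂ) - X) *ᵥ x - (z - z') • x := by
    rw [Matrix.sub_mulVec, Matrix.sub_mulVec, Matrix.smul_mulVec, Matrix.smul_mulVec,
      Matrix.one_mulVec, sub_smul]
    abel
  rw [h2]
  have h3 := nv_sub_ge ((z • (1 : Matrix (Fin n) (Fin n) ℂ) - X) *ᵥ x) ((z - z') • x)
  have h4 : nv ((z - z') • x) = ‖z' - z‖ * nv x := by rw [nv_smul, norm_sub_rev]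
  have h5 := mul_le_mul_of_nonneg_right hE (nv_nonneg x)
  nlinarith

theorem ColAt.uni {X Q : Matrix (Fin n) (Fin n) ℂ} {z : ℂ} {t : ℝ} (h : ColAt X z t) (hQ : Uni Q) :
    ColAt (Qᴴ * X * Q) z t := by
  intro x
  rw [INV_sim hQ, ← Matrix.mulVec_mulVec, ← Matrix.mulVec_mulVec, hQ.conjTranspose.nv_mulVec]
  have h1 := h (Q *ᵥ x)
  rwa [hQ.nv_mulVec] at h1

theorem ColLB.pert {X E : Matrix (Fin n) (Fin n) ℂ} {h t ε : ℝ} (hc : ColLB X h t)
    (hE : fro E ≤ ε) : ColLB (X + E) h (t - ε) :=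
  fun a b ha hb => (hc a b ha hb).pert hE

theorem ColLB.uni {X Q : Matrix (Fin n) (Fin n) ℂ} {h t : ℝ} (hc : ColLB X h t) (hQ : Uni Q) :
    ColLB (Qᴴ * X * Q) h t :=
  fun a b ha hb => (hc a b ha hb).uni hQ

theorem NodeOK.pert {l : ℕ} {X E : Matrix (Fin n) (Fin n) ℂ} {φ : ℂ} {t ε : ℝ} (h : NodeOK l X φ t)
    (hE : fro E ≤ ε) : NodeOK l (X + E) φ (t - ε) :=
  fun j hj a b ha hb e i he hi m hm => (h j hj a b ha hb e i he hi m hm).pert hE

theorem NodeOK.uni {l : ℕ} {X Q : Matrix (Fin n) (Fin n) ℂ} {φ : ℂ} {t : ℝ} (h : NodeOK l X φ t)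
    (hQ : Uni Q) : NodeOK l (Qᴴ * X * Q) φ t :=
  fun j hj a b ha hb e i he hi m hm => (h j hj a b ha hb e i he hi m hm).uni hQ

theorem OpLe.uni {X Q : Matrix (Fin n) (Fin n) ℂ} {c : ℝ} (h : OpLe X c) (hQ : Uni Q) :
    OpLe (Qᴴ * X * Q) c := by
  intro x
  rw [← Matrix.mulVec_mulVec, ← Matrix.mulVec_mulVec, hQ.conjTranspose.nv_mulVec]
  have h1 := h (Q *ᵥ x)
  rwa [hQ.nv_mulVec] at h1

/-- eigenvalues keep away from good points -/
theorem ColAt.dist_eigenvalue {X : Matrix (Fin n) (Fin n) ℂ} {z : ℂ} {t : ℝ} (h : ColAt X z t)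
    {lam : ℂ} {v : Fin n → ℂ} (hv : v ≠ 0) (he : X *ᵥ v = lam • v) : t ≤ ‖z - lam‖ := by
  have h1 := h v
  rw [Matrix.sub_mulVec, Matrix.smul_mulVec, Matrix.one_mulVec, he, ← sub_smul, nv_smul] at h1
  exact le_of_mul_le_mul_right h1 (nv_pos hv)

/-- the same for the roots of the characteristic polynomial -/
theorem ColAt.dist_root {X : Matrix (Fin n) (Fin n) ℂ} {z : ℂ} {t : ℝ} (h : ColAt X z t)
    {lam : Fin n → ℂ} (hd : ∀ z : ℂ, (z • (1 : Matrix (Fin n) (Fin n) ℂ) - X).det = ∏ i, (z - lam i))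
    (i : Fin n) : t ≤ ‖z - lam i‖ := by
  have h1 : ((lam i) • (1 : Matrix (Fin n) (Fin n) ℂ) - X).det = 0 := by
    rw [hd]
    exact Finset.prod_eq_zero (Finset.mem_univ i) (sub_self _)
  obtain ⟨v, hv, hv0⟩ := Matrix.exists_mulVec_eq_zero_iff.2 h1
  refine h.dist_eigenvalue hv ?_
  rw [Matrix.sub_mulVec, Matrix.smul_mulVec, Matrix.one_mulVec, sub_eq_zero] at hv0
  exact hv0.symm

end H6LP

end S_INV

section S_DOT

set_option autoImplicit false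

open Complex Matrix

namespace H6LP

theorem Adv.Le.nonneg {ad : Adv} {u : ℝ} (hu : ad.Le u) : 0 ≤ u :=
  (norm_nonneg _).trans (hu 0)

/-- `(1+u)^k - 1 ≤ 2 k u` -/
theorem one_add_pow_sub_one_le {u : ℝ} (hu : 0 ≤ u) {k : ℕ} (h : k * u ≤ 1 / 2) :
    (1 + u) ^ k - 1 ≤ 2 * k * u := by
  induction k with
  | zero => simp
  | succ k ih =>
    have h1 : (k : ℝ) * u ≤ 1 / 2 := by
      push_cast at h
      nlinarith
    have h2 := ih h1
    have h3 : (1 + u) ^ (k + 1) = (1 + u) ^ k * (1 + u) := pow_succ _ _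
    have h4 : (1 + u) ^ k * (1 + u) ≤ (1 + 2 * k * u) * (1 + u) :=
      mul_le_mul_of_nonneg_right (by linarith) (by linarith)
    have h5 : (k : ℝ) * u * u ≤ 1 / 2 * u := mul_le_mul_of_nonneg_right h1 hu
    rw [h3]
    push_cast
    nlinarith

theorem DOT_sum_succ {M : Type} [AddCommMonoid M] {n : ℕ} (f : Fin n → M) (k : Fin n) :
    (∑ i : Fin n, if (i : ℕ) < (k : ℕ) + 1 then f i else 0)
      = (∑ i : Fin n, if (i : ℕ) < (k : ℕ) then f i else 0) + f k := by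
  have h : ∀ i : Fin n, (if (i : ℕ) < (k : ℕ) + 1 then f i else 0)
      = (if (i : ℕ) < (k : ℕ) then f i else 0) + (if i = k then f i else 0) := by
    intro i
    by_cases h1 : i = k
    · subst h1; simp
    · have h2 : (i : ℕ) ≠ (k : ℕ) := fun h => h1 (Fin.ext h)
      by_cases h3 : (i : ℕ) < (k : ℕ)
      · rw [if_pos (by omega), if_pos h3, if_neg h1, add_zero]
      · rw [if_neg (by omega), if_neg h3, if_neg h1, add_zero]
  rw [Finset.sum_congr rfl (fun i _ => h i), Finset.sum_add_distrib]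
  simp

theorem DOT_step {u : ℝ} (hu : 0 ≤ u) {k : ℕ} {z S p q z' : ℂ} {T : ℝ} (hS : ‖S‖ ≤ T)
    (hz : ‖z - S‖ ≤ ((1 + u) ^ (k + 1) - 1) * T) (hp : Rel u q p) (hz' : Rel u (z + p) z') :
    ‖z' - (S + q)‖ ≤ ((1 + u) ^ (k + 1 + 1) - 1) * (T + ‖q‖) := by
  unfold Rel at hp hz'
  have hT : 0 ≤ T := (norm_nonneg _).trans hS
  have hq := norm_nonneg q
  have h1 : ‖p‖ ≤ (1 + u) * ‖q‖ := by
    calc ‖p‖ = ‖(p - q) + q‖ := by rw [sub_add_cancel]
      _ ≤ ‖p - q‖ + ‖q‖ := norm_add_le _ _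
      _ ≤ (1 + u) * ‖q‖ := by linarith
  have h2 : ‖z + p‖ ≤ (1 + u) ^ (k + 1) * T + (1 + u) * ‖q‖ := by
    calc ‖z + p‖ = ‖(z - S) + S + p‖ := by rw [sub_add_cancel]
      _ ≤ ‖z - S‖ + ‖S‖ + ‖p‖ := norm_add₃_le
      _ ≤ _ := by nlinarith
  have h3 : ‖z' - (S + q)‖ ≤ ‖z' - (z + p)‖ + ‖z - S‖ + ‖p - q‖ := by
    calc ‖z' - (S + q)‖ = ‖(z' - (z + p)) + (z - S) + (p - q)‖ := by congr 1; ring
      _ ≤ _ := norm_add₃_le
  have h4 : (1 + u) ^ (k + 1 + 1) = (1 + u) ^ (k + 1) * (1 + u) := pow_succ _ _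
  have h5 : (1 + u) ≤ (1 + u) ^ (k + 1) := le_self_pow₀ (by linarith) (by omega)
  have h6 : u * ‖z + p‖ ≤ u * ((1 + u) ^ (k + 1) * T + (1 + u) * ‖q‖) :=
    mul_le_mul_of_nonneg_left h2 hu
  have h7 : (1 + u) * (1 + u) * ‖q‖ ≤ (1 + u) ^ (k + 1) * (1 + u) * ‖q‖ := by
    apply mul_le_mul_of_nonneg_right _ hq
    exact mul_le_mul_of_nonneg_right h5 (by linarith)
  rw [h4]
  nlinarith

theorem post_dot {ad : Adv} {u : ℝ} (hu : ad.Le u) {n : ℕ} (hn : 1 ≤ n) (hnu : n * u ≤ 1 / 100)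
    {env : Env} {x y : RVec n} {X Y : Fin n → ℂ} (hx : HasV env x X) (hy : HasV env y Y) :
    Post ad (dotP x y) env (fun r env' => ∃ z, Has env' r z ∧
      ‖z - ∑ i, X i * Y i‖ ≤ 4 * n * u * ∑ i, ‖X i‖ * ‖Y i‖) := by
  have hu0 := hu.nonneg
  unfold dotP
  refine Post.bind (post_cst hu env 0 0) ?_
  rintro r0 env0 h0 ⟨z0, hz0, hrel0⟩
  have hz00 : z0 = 0 := by
    unfold Rel at hrel0
    simpa using hrel0
  subst hz00
  refine Post.weaken (post_iterF n _ r0 env0 (fun k r env' => ∃ z, Has env' r z ∧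
    ‖z - ∑ i : Fin n, (if (i : ℕ) < k then X i * Y i else 0)‖ ≤ ((1 + u) ^ (k + 1) - 1) *
      ∑ i : Fin n, (if (i : ℕ) < k then ‖X i‖ * ‖Y i‖ else 0)) ?_ ?_) ?_
  · exact ⟨0, hz0, by simp⟩
  · rintro k r env1 h1 ⟨z, hz, hzb⟩
    refine Post.bind (post_mul hu ((hx k).mono (h0.trans h1)) ((hy k).mono (h0.trans h1))) ?_
    rintro p env2 h2 ⟨w, hw, hwr⟩
    refine Post.weaken (post_add hu (hz.mono h2) hw) ?_
    rintro r' env3 _ ⟨z', hz', hz'r⟩
    refine ⟨z', hz', ?_⟩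
    rw [DOT_sum_succ (fun i => X i * Y i) k, DOT_sum_succ (fun i => ‖X i‖ * ‖Y i‖) k]
    have hS : ‖∑ i : Fin n, (if (i : ℕ) < (k : ℕ) then X i * Y i else 0)‖
        ≤ ∑ i : Fin n, (if (i : ℕ) < (k : ℕ) then ‖X i‖ * ‖Y i‖ else 0) := by
      refine (norm_sum_le _ _).trans (le_of_eq ?_)
      apply Finset.sum_congr rfl
      intro i _
      split_ifs
      · exact norm_mul _ _
      · exact norm_zero
    have h3 := DOT_step hu0 hS hzb hwr hz'r
    rw [norm_mul] at h3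
    exact h3
  · rintro r env' _ ⟨z, hz, hzb⟩
    refine ⟨z, hz, ?_⟩
    simp only [Fin.is_lt, if_true] at hzb
    refine hzb.trans ?_
    apply mul_le_mul_of_nonneg_right _ (Finset.sum_nonneg fun i _ => by positivity)
    have hn1 : (1 : ℝ) ≤ n := by exact_mod_cast hn
    have h1 : ((n + 1 : ℕ) : ℝ) * u ≤ 1 / 2 := by
      push_cast
      nlinarith
    have h2 := one_add_pow_sub_one_le hu0 h1
    refine h2.trans ?_
    push_cast
    nlinarith

theorem post_dot' {ad : Adv} {u : ℝ} (hu : ad.Le u) {n : ℕ} (hn : 1 ≤ n) (hnu : n * u ≤ 1 / 100)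
    {env : Env} {x y : RVec n} {X Y : Fin n → ℂ} (hx : HasV env x X) (hy : HasV env y Y) :
    Post ad (dotP x y) env (fun r env' => ∃ z, Has env' r z ∧
      ‖z - X ⬝ᵥ Y‖ ≤ 4 * n * u * (nv X * nv Y)) := by
  have hu0 := hu.nonneg
  refine (post_dot hu hn hnu hx hy).weaken ?_
  rintro r env' _ ⟨z, hz, hzb⟩
  refine ⟨z, hz, hzb.trans ?_⟩
  exact mul_le_mul_of_nonneg_left (sum_norm_mul_le X Y) (by positivity)

theorem post_fmul {ad : Adv} {u : ℝ} (hu : ad.Le u) {env : Env} {i j : ℕ} {x y : ℝ}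
    (hi : Has env i (x : ℂ)) (hj : Has env j (y : ℂ)) :
    Post ad (fmulP i j) env (fun r env' => ∃ t : ℝ, Has env' r (t : ℂ) ∧
      |t - x * y| ≤ u * |x * y|) := by
  unfold fmulP
  refine Post.bind (post_mul hu hi hj) ?_
  rintro m env1 h1 ⟨z, hz, hr⟩
  refine (post_re hz).weaken ?_
  rintro r env2 _ h2
  refine ⟨z.re, h2, ?_⟩
  unfold Rel at hr
  have h3 : z.re - x * y = (z - (x : ℂ) * (y : ℂ)).re := by simp
  have h4 : ‖(x : ℂ) * (y : ℂ)‖ = |x * y| := by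
    rw [← Complex.ofReal_mul, Complex.norm_real, Real.norm_eq_abs]
  rw [h3, ← h4]
  exact (Complex.abs_re_le_norm _).trans hr

end H6LP

end S_DOT

section S_NRM

set_option autoImplicit false

open Complex Matrix

namespace H6LP

/-- partial sums of the squares -/
noncomputable def NRM_S {n : ℕ} (X : Fin n → ℂ) (k : ℕ) : ℝ :=
  ∑ i ∈ Finset.univ.filter (fun i : Fin n => (i : ℕ) < k), ‖X i‖ ^ 2

theorem NRM_S_nonneg {n : ℕ} (X : Fin n → ℂ) (k : ℕ) : 0 ≤ NRM_S X k :=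
  Finset.sum_nonneg fun i _ => sq_nonneg _

theorem NRM_S_zero {n : ℕ} (X : Fin n → ℂ) : NRM_S X 0 = 0 := by
  unfold NRM_S
  simp

theorem NRM_S_succ {n : ℕ} (X : Fin n → ℂ) (k : Fin n) :
    NRM_S X ((k : ℕ) + 1) = NRM_S X k + ‖X k‖ ^ 2 := by
  unfold NRM_S
  have h : (Finset.univ.filter fun i : Fin n => (i : ℕ) < (k : ℕ) + 1) =
      insert k (Finset.univ.filter fun i : Fin n => (i : ℕ) < (k : ℕ)) := by
    ext i
    simp only [Finset.mem_filter, Finset.mem_univ, true_and, Finset.mem_insert]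
    rw [Fin.ext_iff]
    omega
  rw [h, Finset.sum_insert (by simp), add_comm]

theorem NRM_nv_sq {n : ℕ} (X : Fin n → ℂ) : nv X ^ 2 = ∑ i, ‖X i‖ ^ 2 := by
  unfold nv
  exact Real.sq_sqrt (Finset.sum_nonneg fun i _ => sq_nonneg _)

theorem NRM_S_all {n : ℕ} (X : Fin n → ℂ) : NRM_S X n = nv X ^ 2 := by
  rw [NRM_nv_sq]
  unfold NRM_S
  congr 1
  ext i
  simp

theorem NRM_pow {u : ℝ} (hu : 0 ≤ u) {k : ℕ} (h : k * u ≤ 1 / 50) :
    (1 + u) ^ k - 1 ≤ 1.02 * (k * u) := by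
  have h0 : 0 ≤ (k : ℝ) * u := by positivity
  have h1 : (1 + u) ^ k ≤ Real.exp (k * u) := by
    rw [Real.exp_nat_mul]
    refine pow_le_pow_left₀ (by linarith) ?_ k
    have := Real.add_one_le_exp u
    linarith
  have h2 : |(k : ℝ) * u| ≤ 1 := by
    rw [abs_of_nonneg h0]
    linarith
  have h3 := (abs_le.1 (Real.abs_exp_sub_one_sub_id_le h2)).2
  nlinarith

/-- the arithmetic of one step -/
theorem NRM_step {u : ℝ} (hu : 0 ≤ u) {S a t B : ℝ} (hS : 0 ≤ S) (ha : 0 ≤ a) (hB : 1 + u ≤ B)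
    (ht : |t - S| ≤ (B - 1) * S) {p s : ℂ} (hp : Rel u (a : ℂ) p) (hs : Rel u ((t : ℂ) + p) s) :
    |s.re - (S + a)| ≤ (B * (1 + u) - 1) * (S + a) := by
  unfold Rel at hp hs
  have hna : ‖(a : ℂ)‖ = a := by rw [Complex.norm_real, Real.norm_eq_abs, abs_of_nonneg ha]
  rw [hna] at hp
  have hp2 : ‖p‖ ≤ (1 + u) * a := by
    have := norm_sub_norm_le p (a : ℂ)
    rw [hna] at this
    linarith
  have ht2 : |t| ≤ B * S := by
    have := abs_sub_abs_le_abs_sub t S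
    rw [abs_of_nonneg hS] at this
    linarith
  have htn : ‖(t : ℂ)‖ = |t| := by rw [Complex.norm_real, Real.norm_eq_abs]
  have h1 : ‖(t : ℂ) + p‖ ≤ B * S + (1 + u) * a := by
    refine (norm_add_le _ _).trans ?_
    rw [htn]
    linarith
  have h2 : ‖s - ((t : ℂ) + p)‖ ≤ u * (B * S + (1 + u) * a) :=
    hs.trans (mul_le_mul_of_nonneg_left h1 hu)
  have h3 : ‖((t : ℂ) - (S : ℂ))‖ ≤ (B - 1) * S := by
    rw [← Complex.ofReal_sub, Complex.norm_real, Real.norm_eq_abs]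
    exact ht
  have h4 : ‖s - ((S : ℂ) + (a : ℂ))‖ ≤ (B * (1 + u) - 1) * S + ((1 + u) * (1 + u) - 1) * a := by
    have e : s - ((S : ℂ) + (a : ℂ)) = (s - ((t : ℂ) + p)) + ((t : ℂ) - S) + (p - a) := by ring
    rw [e]
    refine (norm_add_le _ _).trans ?_
    have := norm_add_le (s - ((t : ℂ) + p)) ((t : ℂ) - S)
    linarith
  have h5 : |s.re - (S + a)| ≤ ‖s - ((S : ℂ) + (a : ℂ))‖ := by
    have := Complex.abs_re_le_norm (s - ((S : ℂ) + (a : ℂ)))
    simpa using this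
  refine h5.trans (h4.trans ?_)
  have h6 : ((1 + u) * (1 + u) - 1) * a ≤ (B * (1 + u) - 1) * a := by
    refine mul_le_mul_of_nonneg_right ?_ ha
    have := mul_le_mul_of_nonneg_right hB (by linarith : (0 : ℝ) ≤ 1 + u)
    linarith
  linarith

theorem post_sq {ad : Adv} {u : ℝ} (hu : ad.Le u) {n : ℕ} (hn : 1 ≤ n) (hnu : n * u ≤ 1 / 100)
    {env : Env} {x : RVec n} {X : Fin n → ℂ} (hx : HasV env x X) :
    Post ad (sqP x) env (fun r env' => ∃ t : ℝ, Has env' r (t : ℂ) ∧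
      |t - nv X ^ 2| ≤ 2.1 * (n + 1) * u * nv X ^ 2 / 2) := by
  have hu0 := hu.nonneg
  unfold sqP
  refine Post.bind (post_cst hu env 0 0) ?_
  rintro r0 env0 h0 ⟨z, hz, hz2⟩
  have hz0 : z = ((0 : ℝ) : ℂ) := by
    unfold Rel at hz2
    simp at hz2
    rw [hz2]
    simp
  have key := post_iterF (ad := ad) n (fun i acc => do
    let c ← conjP (x i)
    let p ← mulP (x i) c
    let s ← addP acc p
    reP s) r0 env0 (fun k r env' => ∃ t : ℝ, Has env' r (t : ℂ) ∧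
      |t - NRM_S X k| ≤ ((1 + u) ^ (k + 1) - 1) * NRM_S X k)
    ⟨0, by rw [hz0] at hz; exact hz, by rw [NRM_S_zero]; simp⟩ ?_
  · refine key.weaken ?_
    rintro r env' _ ⟨t, ht, ht2⟩
    refine ⟨t, ht, ?_⟩
    rw [NRM_S_all] at ht2
    refine ht2.trans ?_
    have hn' : (1 : ℝ) ≤ n := by exact_mod_cast hn
    have h1 : ((n + 1 : ℕ) : ℝ) * u ≤ 1 / 50 := by
      push_cast
      nlinarith
    have h2 := NRM_pow hu0 h1
    push_cast at h2
    have h3 : 0 ≤ nv X ^ 2 := sq_nonneg _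
    have h4 : 0 ≤ ((n : ℝ) + 1) * u := by positivity
    have h5 : ((1 + u) ^ (n + 1) - 1) * nv X ^ 2 ≤ (1.02 * ((n + 1) * u)) * nv X ^ 2 :=
      mul_le_mul_of_nonneg_right h2 h3
    nlinarith [mul_nonneg h4 h3]
  · intro k s env1 h1 hi
    obtain ⟨t, ht, ht2⟩ := hi
    have hxk : Has env1 (x k) (X k) := (hx k).mono (h0.trans h1)
    refine Post.bind (post_conj hxk) ?_
    intro c env2 h2 hc
    refine Post.bind (post_mul hu (hxk.mono h2) hc) ?_
    rintro p env3 h3 ⟨pv, hp, hpr⟩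
    refine Post.bind (post_add hu ((ht.mono h2).mono h3) hp) ?_
    rintro s' env4 h4 ⟨sv, hs, hsr⟩
    refine (post_re hs).weaken ?_
    intro r env5 _ hr
    refine ⟨sv.re, hr, ?_⟩
    rw [NRM_S_succ]
    have hmul : X k * (starRingEnd ℂ) (X k) = ((‖X k‖ ^ 2 : ℝ) : ℂ) := by
      rw [Complex.mul_conj, Complex.normSq_eq_norm_sq]
    rw [hmul] at hpr
    have hB : 1 + u ≤ (1 + u) ^ ((k : ℕ) + 1) := by
      have := one_le_pow₀ (M₀ := ℝ) (a := 1 + u) (n := (k : ℕ)) (by linarith)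
      rw [pow_succ]
      nlinarith
    have := NRM_step hu0 (NRM_S_nonneg X k) (sq_nonneg ‖X k‖) hB ht2 hpr hsr
    rw [pow_succ _ ((k : ℕ) + 1)]
    exact this

theorem post_norm {ad : Adv} {u : ℝ} (hu : ad.Le u) {n : ℕ} (hn : 1 ≤ n) (hnu : n * u ≤ 1 / 100)
    {env : Env} {x : RVec n} {X : Fin n → ℂ} (hx : HasV env x X) :
    Post ad (normP x) env (fun r env' => ∃ t : ℝ, Has env' r (t : ℂ) ∧ |t - nv X| ≤ 4 * n * u * nv X) := by
  have hu0 := hu.nonneg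
  have hn' : (1 : ℝ) ≤ n := by exact_mod_cast hn
  have hN : 0 ≤ nv X := Real.sqrt_nonneg _
  have hnu' : ((n : ℝ) + 1) * u ≤ 1 / 50 := by nlinarith
  have hnu0 : 0 ≤ ((n : ℝ) + 1) * u := by positivity
  unfold normP
  refine Post.bind (post_sq hu hn hnu hx) ?_
  rintro r0 env0 _ ⟨t, ht, ht2⟩
  have hN2 : 0 ≤ nv X ^ 2 := sq_nonneg _
  have ht0 : 0 ≤ t := by
    have h1 := (abs_le.1 ht2).1
    nlinarith [mul_nonneg hnu0 hN2]
  refine Post.bind (post_sqrt_real hu ht ht0) ?_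
  rintro r1 env1 _ ⟨z, hz, hz2⟩
  refine (post_re hz).weaken ?_
  intro r2 env2 _ hr2
  refine ⟨z.re, hr2, ?_⟩
  have hs0 : 0 ≤ Real.sqrt t := Real.sqrt_nonneg t
  have hss : Real.sqrt t ^ 2 = t := Real.sq_sqrt ht0
  have h1 : |z.re - Real.sqrt t| ≤ u * Real.sqrt t := by
    unfold Rel at hz2
    rw [Complex.norm_real, Real.norm_eq_abs, abs_of_nonneg hs0] at hz2
    have := Complex.abs_re_le_norm (z - ((Real.sqrt t : ℝ) : ℂ))
    rw [Complex.sub_re, Complex.ofReal_re] at this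
    exact this.trans hz2
  have h2 : |Real.sqrt t - nv X| ≤ 1.05 * (((n : ℝ) + 1) * u) * nv X := by
    rcases hN.eq_or_lt with h0 | hpos
    · rw [← h0] at ht2 ⊢
      have : t = 0 := by
        have : |t - 0 ^ 2| ≤ 0 := by
          refine ht2.trans (le_of_eq ?_)
          ring
        have h3 := abs_nonpos_iff.1 this
        linarith
      rw [this]
      simp
    · have h3 : |Real.sqrt t - nv X| * (Real.sqrt t + nv X) = |t - nv X ^ 2| := by
        rw [← abs_of_nonneg (add_nonneg hs0 hN), ← abs_mul]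
        congr 1
        nlinarith
      have h4 : |Real.sqrt t - nv X| * nv X ≤ |t - nv X ^ 2| := by
        rw [← h3]
        exact mul_le_mul_of_nonneg_left (by linarith) (abs_nonneg _)
      have h5 : |Real.sqrt t - nv X| * nv X ≤ 1.05 * (((n : ℝ) + 1) * u) * nv X * nv X := by
        refine h4.trans (ht2.trans (le_of_eq ?_))
        ring
      exact le_of_mul_le_mul_right h5 hpos
  have h6 : Real.sqrt t ≤ 1.05 * nv X := by
    have := (abs_le.1 h2).2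
    nlinarith
  have h7 : |z.re - nv X| ≤ u * Real.sqrt t + 1.05 * (((n : ℝ) + 1) * u) * nv X := by
    have e : z.re - nv X = (z.re - Real.sqrt t) + (Real.sqrt t - nv X) := by ring
    rw [e]
    exact (abs_add_le _ _).trans (add_le_add h1 h2)
  refine h7.trans ?_
  have h8 : u * Real.sqrt t ≤ u * (1.05 * nv X) := mul_le_mul_of_nonneg_left h6 hu0
  have h9 : 0 ≤ u * nv X := mul_nonneg hu0 hN
  nlinarith [mul_le_mul_of_nonneg_right hn' h9]

end H6LP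

end S_NRM

section S_HOUSE

set_option autoImplicit false

open Complex Matrix

namespace H6LP

variable {n : ℕ}

theorem hhM_mulVec (v : Fin n → ℂ) (t : ℂ) (x : Fin n → ℂ) :
    hhM v t *ᵥ x = x - (t * (star v ⬝ᵥ x)) • v := by
  unfold hhM
  rw [Matrix.sub_mulVec, Matrix.one_mulVec, Matrix.smul_mulVec, Matrix.vecMulVec_mulVec]
  congr 1
  funext i
  simp only [Pi.smul_apply, smul_eq_mul, MulOpposite.smul_eq_mul_unop, MulOpposite.unop_op]
  ring

theorem HOUSE_sum_sq {y : Fin n → ℂ} (hy : nv y = 1) : star y ⬝ᵥ y = 1 := by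
  rw [star_dot_self, hy]; norm_num

theorem HOUSE_hv_eq (y : Fin n → ℂ) (p : Fin n) (β : ℝ) :
    hv y p β = y - Pi.single p (β : ℂ) := by
  funext i
  unfold hv
  by_cases h : i = p
  · subst h; simp
  · simp [h]

theorem HOUSE_star_hv_dot {y : Fin n → ℂ} {p : Fin n} {β : ℝ} (hy : nv y = 1) :
    star (hv y p β) ⬝ᵥ y = 1 - β * y p := by
  rw [HOUSE_hv_eq, star_sub, sub_dotProduct, HOUSE_sum_sq hy]
  congr 1
  rw [dotProduct, Finset.sum_eq_single p]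
  · simp
  · intro i _ hi
    simp [hi]
  · intro h; exact absurd (Finset.mem_univ p) h

theorem HOUSE_dot_single (x : Fin n → ℂ) (p : Fin n) (c : ℂ) :
    x ⬝ᵥ Pi.single p c = x p * c := by
  rw [dotProduct_single]

theorem HOUSE_star_hv_self {y : Fin n → ℂ} {p : Fin n} {β : ℝ} (hy : nv y = 1)
    (hβ : β = 1 ∨ β = -1) :
    star (hv y p β) ⬝ᵥ (hv y p β) = ((2 - 2 * (β * (y p).re) : ℝ) : ℂ) := by
  have h1 : star (hv y p β) ⬝ᵥ (hv y p β) =
      star (hv y p β) ⬝ᵥ y - star (hv y p β) ⬝ᵥ Pi.single p (β : ℂ) := by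
    conv_lhs => rw [HOUSE_hv_eq y p β]
    rw [dotProduct_sub, ← HOUSE_hv_eq]
  rw [h1, HOUSE_star_hv_dot hy, HOUSE_dot_single]
  have h2 : (star (hv y p β)) p = (starRingEnd ℂ) (y p) - β := by
    simp [hv]
  rw [h2]
  have hb : (β : ℂ) * β = 1 := by
    rcases hβ with h | h <;> rw [h] <;> norm_num
  apply Complex.ext
  · have hb' : β * β = 1 := by exact_mod_cast hb
    simp only [Complex.sub_re, Complex.mul_re, Complex.ofReal_re, Complex.ofReal_im, Complex.one_re,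
      Complex.conj_re, Complex.conj_im, Complex.sub_im]
    nlinarith
  · simp only [Complex.sub_im, Complex.mul_im, Complex.ofReal_re, Complex.ofReal_im, Complex.one_im,
      Complex.conj_re, Complex.conj_im, Complex.sub_re]
    ring

theorem HOUSE_hv_sq {y : Fin n → ℂ} {p : Fin n} {β : ℝ} (hy : nv y = 1)
    (hβ : β = 1 ∨ β = -1) : nv (hv y p β) ^ 2 = 2 - 2 * (β * (y p).re) := by
  have h1 := star_dot_self (hv y p β)
  rw [HOUSE_star_hv_self hy hβ] at h1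
  exact_mod_cast h1.symm

theorem hv_norm {y : Fin n → ℂ} {p : Fin n} {β : ℝ} (hy : nv y = 1) (hβ : β = 1 ∨ β = -1)
    (hp : β * (y p).re ≤ 0) : nv (hv y p β) ≤ 2 := by
  apply NB_sq_le (by norm_num)
  rw [HOUSE_hv_sq hy hβ]
  have h1 : |(y p).re| ≤ 1 := (Complex.abs_re_le_norm _).trans ((norm_le_nv y p).trans (le_of_eq hy))
  have h2 := abs_le.1 h1
  rcases hβ with h | h <;> rw [h] <;> nlinarith

theorem HOUSE_den {y : Fin n → ℂ} {p : Fin n} {β : ℝ} (hp : β * (y p).re ≤ 0) :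
    1 ≤ (1 - β * y p : ℂ).re := by
  simp only [Complex.sub_re, Complex.mul_re, Complex.ofReal_re, Complex.ofReal_im, Complex.one_re]
  linarith

theorem HOUSE_den_norm {y : Fin n → ℂ} {p : Fin n} {β : ℝ} (hp : β * (y p).re ≤ 0) :
    1 ≤ ‖(1 - β * y p : ℂ)‖ :=
  (HOUSE_den hp).trans (Complex.re_le_norm _)

theorem ht_norm {y : Fin n → ℂ} {p : Fin n} {β : ℝ} (hp : β * (y p).re ≤ 0) : ‖ht y p β‖ ≤ 1 := by
  unfold ht
  rw [norm_div, norm_one]
  exact (div_le_one (lt_of_lt_of_le one_pos (HOUSE_den_norm hp))).2 (HOUSE_den_norm hp)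

theorem HOUSE_ht_ne {y : Fin n → ℂ} {p : Fin n} {β : ℝ} (hp : β * (y p).re ≤ 0) :
    (1 - β * y p : ℂ) ≠ 0 := by
  intro h
  have := HOUSE_den_norm hp
  rw [h, norm_zero] at this
  linarith

theorem house_uni {y : Fin n → ℂ} {p : Fin n} {β : ℝ} (hy : nv y = 1) (hβ : β = 1 ∨ β = -1)
    (hp : β * (y p).re ≤ 0) : Uni (hhM (hv y p β) (ht y p β)) := by
  unfold Uni
  set v := hv y p β with hv_def
  set t := ht y p β with ht_def
  have hvv : star v ⬝ᵥ v = ((2 - 2 * (β * (y p).re) : ℝ) : ℂ) := HOUSE_star_hv_self hy hβ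
  have hne := HOUSE_ht_ne hp
  have ht1 : t * (1 - β * y p) = 1 := by
    rw [ht_def]; unfold ht
    field_simp
  have ht2 : (starRingEnd ℂ) t * (1 - β * (starRingEnd ℂ) (y p)) = 1 := by
    have := congrArg (starRingEnd ℂ) ht1
    simpa using this
  have hkey : t + (starRingEnd ℂ) t = (starRingEnd ℂ) t * t * (star v ⬝ᵥ v) := by
    have h3 : (((2 - 2 * (β * (y p).re) : ℝ)) : ℂ) =
        (1 - β * y p) + (1 - β * (starRingEnd ℂ) (y p)) := by
      have h4 : ((y p).re : ℂ) = (y p + (starRingEnd ℂ) (y p)) / 2 := by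
        rw [Complex.add_conj]; push_cast; ring
      push_cast
      rw [h4]; ring
    rw [hvv, h3]
    linear_combination (-((starRingEnd ℂ) t)) * ht1 + (-t) * ht2
  have hct : (hhM v t)ᴴ = 1 - (starRingEnd ℂ) t • Matrix.vecMulVec v (star v) := by
    unfold hhM
    rw [Matrix.conjTranspose_sub, Matrix.conjTranspose_one, Matrix.conjTranspose_smul,
      Matrix.conjTranspose_vecMulVec, star_star]
    rfl
  rw [hct]
  unfold hhM
  have hmm : Matrix.vecMulVec v (star v) * Matrix.vecMulVec v (star v) =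
      (star v ⬝ᵥ v) • Matrix.vecMulVec v (star v) := by
    ext i j
    simp only [Matrix.mul_apply, Matrix.vecMulVec_apply, Matrix.smul_apply, smul_eq_mul, dotProduct]
    rw [Finset.sum_mul]
    refine Finset.sum_congr rfl fun k _ => ?_
    ring
  rw [sub_mul, mul_sub, mul_sub, one_mul, mul_one, one_mul, smul_mul_smul_comm, hmm, smul_smul]
  rw [← hkey, add_smul]
  abel

theorem house_mulVec {y : Fin n → ℂ} {p : Fin n} {β : ℝ} (hy : nv y = 1) (hβ : β = 1 ∨ β = -1)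
    (hp : β * (y p).re ≤ 0) :
    hhM (hv y p β) (ht y p β) *ᵥ y = fun i => if i = p then (β : ℂ) else 0 := by
  rw [hhM_mulVec, HOUSE_star_hv_dot hy]
  have hne := HOUSE_ht_ne hp
  have ht1 : ht y p β * (1 - β * y p) = 1 := by
    unfold ht
    field_simp
  rw [ht1, one_smul]
  funext i
  unfold hv
  simp only [Pi.sub_apply]
  by_cases h : i = p
  · simp [h]
  · simp [h]

/-- row and column `i` of `1 - τ v vᴴ` are those of the identity if `v i = 0` -/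
theorem hhM_row_of_zero {v : Fin n → ℂ} {t : ℂ} {i : Fin n} (h : v i = 0) (j : Fin n) :
    hhM v t i j = if i = j then 1 else 0 := by
  unfold hhM
  simp [Matrix.sub_apply, Matrix.smul_apply, Matrix.vecMulVec_apply, h, Matrix.one_apply]

theorem hhM_col_of_zero {v : Fin n → ℂ} {t : ℂ} {j : Fin n} (h : v j = 0) (i : Fin n) :
    hhM v t i j = if i = j then 1 else 0 := by
  unfold hhM
  simp [Matrix.sub_apply, Matrix.smul_apply, Matrix.vecMulVec_apply, h, Matrix.one_apply]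

/-- perturbation -/
theorem fro_hhM_sub_le {v v' : Fin n → ℂ} {t t' : ℂ} {ε : ℝ} (hv : nv v ≤ 2) (ht : ‖t‖ ≤ 1)
    (hv' : nv (v' - v) ≤ ε) (ht' : ‖t' - t‖ ≤ ε) (hε : ε ≤ 1 / 10) :
    fro (hhM v' t' - hhM v t) ≤ 10 * ε := by
  have hε0 : 0 ≤ ε := (norm_nonneg _).trans ht'
  have h1 : hhM v' t' - hhM v t = (t - t') • Matrix.vecMulVec v (star v) -
      t' • (Matrix.vecMulVec (v' - v) (star v) + Matrix.vecMulVec v' (star (v' - v))) := by
    ext i j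
    simp only [hhM, Matrix.sub_apply, Matrix.smul_apply, Matrix.vecMulVec_apply, smul_eq_mul,
      Matrix.add_apply, Pi.sub_apply, star_sub, Pi.star_apply]
    ring
  have hnv' : nv v' ≤ 2 + ε := by
    have h2 := nv_add_le (v' - v) v
    rw [sub_add_cancel] at h2
    linarith
  have hnt' : ‖t'‖ ≤ 1 + ε := by
    have h2 := norm_add_le (t' - t) t
    rw [sub_add_cancel] at h2
    linarith
  rw [h1]
  refine (fro_sub_le _ _).trans ?_
  rw [fro_smul, fro_smul, fro_vecMulVec, nv_star, norm_sub_rev]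
  have h3 : fro (Matrix.vecMulVec (v' - v) (star v) + Matrix.vecMulVec v' (star (v' - v))) ≤
      ε * 2 + (2 + ε) * ε := by
    refine (fro_add_le _ _).trans ?_
    rw [fro_vecMulVec, fro_vecMulVec, nv_star, nv_star]
    have a1 := nv_nonneg v
    have a2 := nv_nonneg (v' - v)
    have a3 := nv_nonneg v'
    have b1 : nv (v' - v) * nv v ≤ ε * 2 := mul_le_mul hv' hv a1 hε0
    have b2 : nv v' * nv (v' - v) ≤ (2 + ε) * ε := mul_le_mul hnv' hv' a2 (by linarith)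
    linarith
  have h4 : ‖t' - t‖ * (nv v * nv v) ≤ ε * 4 := by
    refine mul_le_mul ht' ?_ (mul_nonneg (nv_nonneg v) (nv_nonneg v)) hε0
    nlinarith [nv_nonneg v]
  have h5 : ‖t'‖ * fro (Matrix.vecMulVec (v' - v) (star v) + Matrix.vecMulVec v' (star (v' - v))) ≤
      (1 + ε) * (ε * 2 + (2 + ε) * ε) := mul_le_mul hnt' h3 (fro_nonneg _) (by linarith)
  have h6 : (1 + ε) * (ε * 2 + (2 + ε) * ε) ≤ 6 * ε := by
    nlinarith [mul_nonneg hε0 hε0, mul_nonneg hε0 (sub_nonneg.2 hε)]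
  linarith

end H6LP

end S_HOUSE

section S_HVEC

set_option autoImplicit false

open Complex Matrix

namespace H6LP

/-- the quotient `N / t` -/
theorem HVEC_ratio {N t ν : ℝ} (hN : 0 < N) (hν0 : 0 ≤ ν) (hν : ν ≤ 1 / 1000)
    (ht : |t - N| ≤ 4 * ν * N) : 0 < t ∧ |N / t - 1| ≤ 4.02 * ν ∧ N / t ≤ 1.005 ∧ t ≤ 1.004 * N := by
  have h1 := abs_le.1 ht
  have hνN : ν * N ≤ 1 / 1000 * N := mul_le_mul_of_nonneg_right hν hN.le
  have ht0 : 0.996 * N ≤ t := by nlinarith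
  have htp : 0 < t := by nlinarith
  have h2 : |N / t - 1| ≤ 4.02 * ν := by
    have h3 : N / t - 1 = (N - t) / t := by field_simp
    rw [h3, abs_div, abs_of_pos htp, div_le_iff₀ htp, abs_sub_comm]
    refine ht.trans ?_
    have h4 : 0 ≤ ν * (4.02 * t - 4 * N) := mul_nonneg hν0 (by nlinarith)
    nlinarith
  refine ⟨htp, h2, ?_, by nlinarith⟩
  have h5 := (abs_le.1 h2).2
  nlinarith

theorem HVEC_y {x y : ℂ} {N t ν u : ℝ} (hN : 0 < N) (hu0 : 0 ≤ u) (huν : u ≤ ν)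
    (hν : ν ≤ 1 / 1000) (ht : |t - N| ≤ 4 * ν * N) (hy : ‖y - x / (t : ℂ)‖ ≤ u * ‖x / (t : ℂ)‖) :
    ‖y - (((N : ℝ) : ℂ)⁻¹) * x‖ ≤ 5.1 * ν * ‖(((N : ℝ) : ℂ)⁻¹) * x‖ := by
  have hν0 : 0 ≤ ν := hu0.trans huν
  obtain ⟨htp, h1, h2, h3⟩ := HVEC_ratio hN hν0 hν ht
  have hNc : (N : ℂ) ≠ 0 := by exact_mod_cast hN.ne'
  have htc : (t : ℂ) ≠ 0 := by exact_mod_cast htp.ne'
  set Y : ℂ := (((N : ℝ) : ℂ)⁻¹) * x with hY
  have e1 : x / (t : ℂ) = ((N / t : ℝ) : ℂ) * Y := by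
    rw [hY]
    push_cast
    field_simp
  have h4 : ‖x / (t : ℂ)‖ ≤ 1.005 * ‖Y‖ := by
    rw [e1, norm_mul, Complex.norm_real, Real.norm_eq_abs, abs_of_pos (div_pos hN htp)]
    exact mul_le_mul_of_nonneg_right h2 (norm_nonneg _)
  have h5 : ‖x / (t : ℂ) - Y‖ ≤ 4.02 * ν * ‖Y‖ := by
    have e2 : x / (t : ℂ) - Y = ((N / t - 1 : ℝ) : ℂ) * Y := by
      rw [e1]
      push_cast
      ring
    rw [e2, norm_mul, Complex.norm_real, Real.norm_eq_abs]
    exact mul_le_mul_of_nonneg_right h1 (norm_nonneg _)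
  have h6 : ‖y - Y‖ ≤ ‖y - x / (t : ℂ)‖ + ‖x / (t : ℂ) - Y‖ := by
    have e3 : y - Y = (y - x / (t : ℂ)) + (x / (t : ℂ) - Y) := by ring
    rw [e3]
    exact norm_add_le _ _
  have h7 : u * ‖x / (t : ℂ)‖ ≤ ν * (1.005 * ‖Y‖) :=
    mul_le_mul huν h4 (norm_nonneg _) hν0
  have h8 : 0 ≤ ν * ‖Y‖ := mul_nonneg hν0 (norm_nonneg _)
  nlinarith

theorem HVEC_re {y : ℂ} {β : ℝ} (hβ : β = 1 ∨ β = -1) (h : β * y.re ≤ 0) : 1 ≤ ‖y - (β : ℂ)‖ := by
  have h1 : |(y - (β : ℂ)).re| ≤ ‖y - (β : ℂ)‖ := Complex.abs_re_le_norm _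
  refine le_trans ?_ h1
  rw [Complex.sub_re, Complex.ofReal_re]
  rcases hβ with rfl | rfl
  · rw [abs_of_nonpos (by linarith)]; linarith
  · rw [abs_of_nonneg (by linarith)]; linarith

theorem HVEC_tau {Yp yp B vp m T : ℂ} {β ν u : ℝ} (hβ : β = 1 ∨ β = -1) (hp : β * Yp.re ≤ 0)
    (hu0 : 0 ≤ u) (huν : u ≤ ν) (hν : ν ≤ 1 / 1000) (hY1 : ‖Yp‖ ≤ 1)
    (hy : ‖yp - Yp‖ ≤ 5.1 * ν) (hB : ‖B - (β : ℂ)‖ ≤ u)
    (hvp : ‖vp - (yp - B)‖ ≤ u * ‖yp - B‖) (hm : ‖m - (0 - B)‖ ≤ u * ‖0 - B‖) :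
    ‖vp - (yp - (β : ℂ))‖ ≤ 3.1 * ν ∧ vp ≠ 0 ∧
      (‖T - m / vp‖ ≤ u * ‖m / vp‖ → ‖T - 1 / (1 - (β : ℂ) * Yp)‖ ≤ 20 * ν) := by
  have hν0 : 0 ≤ ν := hu0.trans huν
  have hβn : ‖(β : ℂ)‖ = 1 := by
    rw [Complex.norm_real]
    rcases hβ with rfl | rfl <;> simp
  have hβsq : (β : ℂ) * (β : ℂ) = 1 := by
    rcases hβ with rfl | rfl <;> simp
  have hBn : ‖B‖ ≤ 1.001 := by
    have h1 : ‖B‖ ≤ ‖B - (β : ℂ)‖ + ‖(β : ℂ)‖ := by
      simpa using norm_add_le (B - (β : ℂ)) (β : ℂ)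
    rw [hβn] at h1
    linarith
  have hyn : ‖yp‖ ≤ 1.0051 := by
    have h1 : ‖yp‖ ≤ ‖yp - Yp‖ + ‖Yp‖ := by
      simpa using norm_add_le (yp - Yp) Yp
    linarith
  have h1 : ‖yp - B‖ ≤ 2.0061 := (norm_sub_le _ _).trans (by linarith)
  have h2 : ‖vp - (yp - (β : ℂ))‖ ≤ 3.1 * ν := by
    have e1 : vp - (yp - (β : ℂ)) = (vp - (yp - B)) - (B - (β : ℂ)) := by ring
    rw [e1]
    refine (norm_sub_le _ _).trans ?_
    have h3 : u * ‖yp - B‖ ≤ ν * 2.0061 := mul_le_mul huν h1 (norm_nonneg _) hν0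
    nlinarith
  have h3 : ‖vp - (Yp - (β : ℂ))‖ ≤ 8.2 * ν := by
    have e1 : vp - (Yp - (β : ℂ)) = (vp - (yp - (β : ℂ))) + (yp - Yp) := by ring
    rw [e1]
    refine (norm_add_le _ _).trans ?_
    linarith
  have h4 := HVEC_re hβ hp
  have h5 : 0.99 ≤ ‖vp‖ := by
    have h6 : ‖Yp - (β : ℂ)‖ ≤ ‖vp‖ + ‖vp - (Yp - (β : ℂ))‖ := by
      have e1 : Yp - (β : ℂ) = vp - (vp - (Yp - (β : ℂ))) := by ring
      conv_lhs => rw [e1]
      exact norm_sub_le _ _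
    linarith
  have h6 : vp ≠ 0 := by
    intro h
    rw [h, norm_zero] at h5
    linarith
  refine ⟨h2, h6, ?_⟩
  intro hT
  have hmb : ‖m + (β : ℂ)‖ ≤ 2.01 * ν := by
    have e1 : m + (β : ℂ) = (m - (0 - B)) - (B - (β : ℂ)) := by ring
    rw [e1]
    refine (norm_sub_le _ _).trans ?_
    have h7 : ‖(0 : ℂ) - B‖ ≤ 1.001 := by rw [zero_sub, norm_neg]; exact hBn
    have h8 : u * ‖(0 : ℂ) - B‖ ≤ ν * 1.001 := mul_le_mul huν h7 (norm_nonneg _) hν0
    nlinarith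
  have hYβ : Yp - (β : ℂ) ≠ 0 := by
    intro h
    rw [h, norm_zero] at h4
    linarith
  have e0 : (1 : ℂ) - (β : ℂ) * Yp = -((β : ℂ) * (Yp - (β : ℂ))) := by
    rw [mul_sub, hβsq]; ring
  have hβ0 : (β : ℂ) ≠ 0 := by
    intro h
    rw [h, norm_zero] at hβn
    exact zero_ne_one hβn
  have e1 : m / vp - 1 / (1 - (β : ℂ) * Yp) =
      ((m + (β : ℂ)) * (Yp - (β : ℂ)) + (β : ℂ) * (vp - (Yp - (β : ℂ)))) / (vp * (Yp - (β : ℂ))) := by
    have h7 : (1 : ℂ) / (1 - (β : ℂ) * Yp) = -(β : ℂ) / (Yp - (β : ℂ)) := by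
      rw [e0, div_eq_div_iff (neg_ne_zero.2 (mul_ne_zero hβ0 hYβ)) hYβ]
      have : (-(β : ℂ)) * -((β : ℂ) * (Yp - (β : ℂ))) = ((β : ℂ) * (β : ℂ)) * (Yp - (β : ℂ)) := by ring
      rw [this, hβsq]
    rw [h7, div_sub_div _ _ h6 hYβ]
    congr 1
    ring
  have h7 : ‖m / vp - 1 / (1 - (β : ℂ) * Yp)‖ ≤ 10.4 * ν := by
    rw [e1, norm_div, norm_mul vp]
    have hpos : 0 < ‖vp‖ * ‖Yp - (β : ℂ)‖ := mul_pos (by linarith) (by linarith)
    rw [div_le_iff₀ hpos]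
    refine (norm_add_le _ _).trans ?_
    rw [norm_mul, norm_mul, hβn, one_mul]
    have h8 : ‖m + (β : ℂ)‖ * ‖Yp - (β : ℂ)‖ ≤ 2.01 * ν * ‖Yp - (β : ℂ)‖ :=
      mul_le_mul_of_nonneg_right hmb (norm_nonneg _)
    have h9 : 8.2 * ν ≤ 8.2 * ν * ‖Yp - (β : ℂ)‖ := by
      have := mul_le_mul_of_nonneg_left h4 (by positivity : (0 : ℝ) ≤ 8.2 * ν)
      linarith
    have h10 : 10.21 * ν * ‖Yp - (β : ℂ)‖ ≤ 10.4 * ν * (‖vp‖ * ‖Yp - (β : ℂ)‖) := by
      have h11 : 10.21 * ν ≤ 10.4 * ν * ‖vp‖ := by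
        have := mul_le_mul_of_nonneg_left h5 (by positivity : (0 : ℝ) ≤ 10.4 * ν)
        nlinarith
      have := mul_le_mul_of_nonneg_right h11 (norm_nonneg (Yp - (β : ℂ)))
      nlinarith
    nlinarith
  have h8 : ‖m / vp‖ ≤ 1.02 := by
    rw [norm_div, div_le_iff₀ (by linarith)]
    have h9 : ‖m‖ ≤ 1.003 := by
      have h10 : ‖m‖ ≤ ‖m + (β : ℂ)‖ + ‖(β : ℂ)‖ := by
        simpa using norm_sub_le (m + (β : ℂ)) (β : ℂ)
      rw [hβn] at h10
      linarith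
    nlinarith
  have e2 : T - 1 / (1 - (β : ℂ) * Yp) = (T - m / vp) + (m / vp - 1 / (1 - (β : ℂ) * Yp)) := by ring
  rw [e2]
  refine (norm_add_le _ _).trans ?_
  have h9 : u * ‖m / vp‖ ≤ ν * 1.02 := mul_le_mul huν h8 (norm_nonneg _) hν0
  nlinarith

theorem HVEC_a {B a : ℂ} {β N t ν u : ℝ} (hβ : β = 1 ∨ β = -1) (hN : 0 < N)
    (hu0 : 0 ≤ u) (huν : u ≤ ν) (hν : ν ≤ 1 / 1000) (ht : |t - N| ≤ 4 * ν * N)
    (hB : ‖B - (β : ℂ)‖ ≤ u) (ha : ‖a - B * (t : ℂ)‖ ≤ u * ‖B * (t : ℂ)‖) :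
    ‖a - ((β * N : ℝ) : ℂ)‖ ≤ 20 * ν * N := by
  have hν0 : 0 ≤ ν := hu0.trans huν
  obtain ⟨htp, -, -, h3⟩ := HVEC_ratio hN hν0 hν ht
  have hβn : ‖(β : ℂ)‖ = 1 := by
    rw [Complex.norm_real]
    rcases hβ with rfl | rfl <;> simp
  have hBn : ‖B‖ ≤ 1.001 := by
    have h1 : ‖B‖ ≤ ‖B - (β : ℂ)‖ + ‖(β : ℂ)‖ := by
      simpa using norm_add_le (B - (β : ℂ)) (β : ℂ)
    rw [hβn] at h1
    linarith
  have htn : ‖(t : ℂ)‖ = t := by
    rw [Complex.norm_real, Real.norm_eq_abs, abs_of_pos htp]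
  have h1 : ‖B * (t : ℂ)‖ ≤ 1.001 * (1.004 * N) := by
    rw [norm_mul, htn]
    exact mul_le_mul hBn h3 htp.le (by norm_num)
  have e1 : a - ((β * N : ℝ) : ℂ) = (a - B * (t : ℂ)) + ((B - (β : ℂ)) * (t : ℂ) +
      (β : ℂ) * ((t - N : ℝ) : ℂ)) := by
    push_cast
    ring
  rw [e1]
  refine (norm_add_le _ _).trans ?_
  have h2 : ‖(B - (β : ℂ)) * (t : ℂ) + (β : ℂ) * ((t - N : ℝ) : ℂ)‖ ≤ ν * (1.004 * N) + 4 * ν * N := by
    refine (norm_add_le _ _).trans ?_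
    rw [norm_mul, norm_mul, htn, hβn, one_mul, Complex.norm_real, Real.norm_eq_abs]
    have := mul_le_mul (hB.trans huν) h3 htp.le hν0
    linarith
  have h4 : u * ‖B * (t : ℂ)‖ ≤ ν * (1.001 * (1.004 * N)) := mul_le_mul huν h1 (norm_nonneg _) hν0
  have h5 : 0 ≤ ν * N := mul_nonneg hν0 hN.le
  nlinarith

theorem post_hvec {ad : Adv} {u : ℝ} (hu : ad.Le u) {n : ℕ} (hn : 1 ≤ n) (hnu : n * u ≤ 1 / 1000)
    {env : Env} {x : RVec n} {X : Fin n → ℂ} (hx : HasV env x X) (hX : 0 < nv X) (p : Fin n) :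
    Post ad (hvecP x p) env (fun h env' => ∃ β : ℝ, (β = 1 ∨ β = -1) ∧ β * (X p).re ≤ 0 ∧
      ∃ (V : Fin n → ℂ) (T a : ℂ), HasV env' h.1 V ∧ Has env' h.2.1 T ∧ Has env' h.2.2 a ∧
        nv (V - hv (((nv X)⁻¹ : ℂ) • X) p β) ≤ 20 * n * u ∧
        ‖T - ht (((nv X)⁻¹ : ℂ) • X) p β‖ ≤ 20 * n * u ∧
        ‖a - ((β * nv X : ℝ) : ℂ)‖ ≤ 20 * n * u * nv X ∧
        ∀ i, i ≠ p → X i = 0 → V i = 0) := by
  have hu0 : 0 ≤ u := hu.nonneg
  have hn1 : (1 : ℝ) ≤ n := by exact_mod_cast hn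
  have huν : u ≤ n * u := by nlinarith
  unfold hvecP
  refine Post.bind (post_cst hu env 0 0) ?_
  rintro z env1 h1 ⟨zv, hz, hzr⟩
  have hz0 : zv = 0 := by
    unfold Rel at hzr
    simpa using hzr
  subst hz0
  refine Post.bind (post_norm hu hn (by linarith) (hx.mono h1)) ?_
  rintro nr env2 h2 ⟨t, hnr, ht⟩
  have ht' : |t - nv X| ≤ 4 * (n * u) * nv X := by
    have : 4 * (n * u) * nv X = 4 * n * u * nv X := by ring
    rw [this]; exact ht
  have hν0 : 0 ≤ n * u := hu0.trans huν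
  obtain ⟨htp, -, -, -⟩ := HVEC_ratio hX hν0 hnu ht'
  have htc : (t : ℂ) ≠ 0 := by exact_mod_cast htp.ne'
  refine Post.bind (post_vecM n _ env2 (fun i b env' => ∃ y, Has env' b y ∧ Rel u (X i / (t : ℂ)) y)
    (fun i b e1 e2 he hb => ?_) (fun i e he => ?_)) ?_
  · obtain ⟨y, hy, hy2⟩ := hb
    exact ⟨y, hy.mono he, hy2⟩
  · exact post_div hu ((hx i).mono (h1.trans (h2.trans he))) (hnr.mono he) htc
  rintro y env3 h3 hy
  choose Y' hY' hYr using hy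
  refine Post.bind (post_le ((hx p).mono (h1.trans (h2.trans h3))) (hz.mono (h2.trans h3))) ?_
  rintro b env4 h4 ⟨henv, hb⟩
  subst henv
  refine Post.bind (post_cst hu _ _ _) ?_
  rintro be env5 h5 ⟨B, hBe, hBr⟩
  set β : ℝ := if b = true then 1 else -1 with hβdef
  have hβ : β = 1 ∨ β = -1 := by
    rw [hβdef]; split_ifs <;> simp
  have hβX : β * (X p).re ≤ 0 := by
    rw [hβdef]
    rcases Bool.eq_false_or_eq_true b with hb' | hb'
    · have := hb.1 hb'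
      rw [if_pos hb', one_mul]
      simpa using this
    · have h6 : ¬ ((X p).re ≤ (0 : ℂ).re) := fun h => by
        rw [hb.2 h] at hb'
        exact absurd hb' (by simp)
      rw [Complex.zero_re, not_le] at h6
      rw [if_neg (by rw [hb']; simp)]
      linarith
  have hBβ : ‖B - (β : ℂ)‖ ≤ u := by
    unfold Rel at hBr
    have e1 : (((if b = true then (1 : ℚ) else -1 : ℚ) : ℂ) + ((0 : ℚ) : ℂ) * I) = (β : ℂ) := by
      rw [hβdef]
      split_ifs <;> simp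
    have e2 : ‖(β : ℂ)‖ = 1 := by
      rw [Complex.norm_real]
      rcases hβ with h | h <;> rw [h] <;> simp
    rw [e1, e2, mul_one] at hBr
    exact hBr
  refine Post.bind (post_sub hu ((hY' p).mono h5) hBe) ?_
  rintro vp env6 h6 ⟨vpv, hvp, hvpr⟩
  refine Post.bind (post_sub hu (hz.mono (h2.trans (h3.trans (h5.trans h6)))) (hBe.mono h6)) ?_
  rintro m env7 h7 ⟨mv, hm, hmr⟩
  set Y : Fin n → ℂ := ((nv X)⁻¹ : ℂ) • X with hYdef
  have hYi : ∀ i, Y i = ((nv X : ℝ) : ℂ)⁻¹ * X i := fun i => rfl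
  have hnY : nv Y = 1 := by
    rw [hYdef, nv_smul, norm_inv, Complex.norm_real, Real.norm_eq_abs, abs_of_pos hX]
    exact inv_mul_cancel₀ hX.ne'
  have hyY : ∀ i, ‖Y' i - Y i‖ ≤ 5.1 * (n * u) * ‖Y i‖ := by
    intro i
    rw [hYi]
    exact HVEC_y hX hu0 huν hnu ht' (hYr i)
  have hYp1 : ‖Y p‖ ≤ 1 := by
    rw [← hnY]; exact norm_le_nv Y p
  have hyp : ‖Y' p - Y p‖ ≤ 5.1 * (n * u) := by
    refine (hyY p).trans ?_
    have := mul_le_mul_of_nonneg_left hYp1 (by positivity : (0 : ℝ) ≤ 5.1 * (n * u))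
    linarith
  have hpY : β * (Y p).re ≤ 0 := by
    have e1 : (Y p).re = (nv X)⁻¹ * (X p).re := by
      rw [hYi, ← Complex.ofReal_inv, Complex.re_ofReal_mul]
    rw [e1]
    have : β * ((nv X)⁻¹ * (X p).re) = (nv X)⁻¹ * (β * (X p).re) := by ring
    rw [this]
    exact mul_nonpos_of_nonneg_of_nonpos (by positivity) hβX
  obtain ⟨hk1, hk2, -⟩ := HVEC_tau (T := 0) hβ hpY hu0 huν hnu hYp1 hyp hBβ hvpr hmr
  refine Post.bind (post_div hu hm (hvp.mono h7) hk2) ?_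
  rintro tr env8 h8 ⟨Tv, hT, hTr⟩
  have hTT := (HVEC_tau (T := Tv) hβ hpY hu0 huν hnu hYp1 hyp hBβ hvpr hmr).2.2 hTr
  refine Post.bind (post_mul hu (hBe.mono (h6.trans (h7.trans h8)))
    (hnr.mono (h3.trans (h5.trans (h6.trans (h7.trans h8)))))) ?_
  rintro ar env9 h9 ⟨av, ha, har⟩
  refine Post.pure ?_
  refine ⟨β, hβ, hβX, Function.update Y' p vpv, Tv, av, ?_, hT.mono h9, ha, ?_, ?_, ?_, ?_⟩
  · intro i
    by_cases hi : i = p
    · subst hi
      simp only [Function.update_self]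
      exact hvp.mono (h7.trans (h8.trans h9))
    · simp only [Function.update_of_ne hi]
      exact (hY' i).mono (h5.trans (h6.trans (h7.trans (h8.trans h9))))
  · have e1 : Function.update Y' p vpv - hv Y p β =
        (Y' - Y) + Pi.single p (vpv - (Y' p - (β : ℂ))) := by
      funext i
      by_cases hi : i = p
      · subst hi
        simp only [Pi.sub_apply, Function.update_self, hv, if_true, Pi.add_apply, Pi.single_eq_same]
        ring
      · simp only [Pi.sub_apply, Function.update_of_ne hi, hv, if_neg hi, Pi.add_apply,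
          Pi.single_eq_of_ne hi, add_zero]
    rw [e1]
    refine (nv_add_le _ _).trans ?_
    rw [nv_single]
    have h10 : nv (Y' - Y) ≤ 5.1 * (n * u) * nv Y :=
      nv_le_mul_of_le (by positivity) (fun i => hyY i)
    rw [hnY] at h10
    nlinarith
  · have e1 : 20 * (n : ℝ) * u = 20 * (n * u) := by ring
    rw [e1]
    exact hTT
  · have e1 : 20 * (n : ℝ) * u * nv X = 20 * (n * u) * nv X := by ring
    rw [e1]
    exact HVEC_a hβ hX hu0 huν hnu ht' hBβ har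
  · intro i hi hXi
    rw [Function.update_of_ne hi]
    have h10 := hYr i
    unfold Rel at h10
    rw [hXi, zero_div, sub_zero, norm_zero, mul_zero] at h10
    simpa using h10

end H6LP

end S_HVEC

section S_LMUL

set_option autoImplicit false

open Complex Matrix

namespace H6LP

theorem LMUL_prod {u : ℝ} (hu : 0 ≤ u) (hu1 : u ≤ 1) {P Q p g : ℂ} (hp : ‖p - P‖ ≤ u * ‖P‖)
    (hg : ‖g - p * Q‖ ≤ u * ‖p * Q‖) : ‖g - P * Q‖ ≤ 3 * u * ‖P * Q‖ := by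
  have h1 : ‖p‖ ≤ (1 + u) * ‖P‖ := by
    have : ‖p‖ ≤ ‖p - P‖ + ‖P‖ := by simpa using norm_add_le (p - P) P
    linarith
  have h2 : ‖g - P * Q‖ ≤ ‖g - p * Q‖ + ‖p - P‖ * ‖Q‖ := by
    have h3 : g - P * Q = (g - p * Q) + (p - P) * Q := by ring
    rw [h3]
    refine (norm_add_le _ _).trans ?_
    rw [norm_mul (p - P) Q]
  rw [norm_mul] at hg ⊢
  have h4 : u * (‖p‖ * ‖Q‖) ≤ u * ((1 + u) * ‖P‖ * ‖Q‖) := by gcongr
  have h5 : ‖p - P‖ * ‖Q‖ ≤ u * ‖P‖ * ‖Q‖ := by gcongr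
  have h6 : 0 ≤ ‖P‖ * ‖Q‖ := by positivity
  have h7 : u * ((1 + u) * ‖P‖ * ‖Q‖) ≤ 2 * u * (‖P‖ * ‖Q‖) := by
    have : u * ((1 + u) * ‖P‖ * ‖Q‖) = (u * (1 + u)) * (‖P‖ * ‖Q‖) := by ring
    rw [this]
    apply mul_le_mul_of_nonneg_right _ h6
    nlinarith
  nlinarith

theorem LMUL_entry {u N c : ℝ} (hu : 0 ≤ u) (hN : 1 ≤ N) (hNu : N * u ≤ 1 / 1000) (hc : 0 ≤ c)
    {T V d W g x x' : ℂ} (hT : ‖T‖ ≤ 3) (hd : ‖d‖ ≤ 3 * c) (hW : ‖W - d‖ ≤ 12 * N * u * c)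
    (hg : ‖g - T * V * W‖ ≤ 3 * u * ‖T * V * W‖) (hx : ‖x' - (x - g)‖ ≤ u * ‖x - g‖) :
    ‖x' - (x - T * V * d)‖ ≤ 73 * N * u * (‖V‖ * c) + u * ‖x‖ := by
  have huN : u ≤ N * u := by nlinarith
  have hA : 0 ≤ ‖V‖ := norm_nonneg V
  have hAc : 0 ≤ ‖V‖ * c := mul_nonneg hA hc
  have hWn : ‖W‖ ≤ (3 + 12 * (N * u)) * c := by
    have : ‖W‖ ≤ ‖W - d‖ + ‖d‖ := by simpa using norm_add_le (W - d) d
    nlinarith
  have hWn' : ‖W‖ ≤ 3.012 * c := by nlinarith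
  have h1 : ‖T * V * W‖ ≤ 9.04 * (‖V‖ * c) := by
    rw [norm_mul, norm_mul]
    calc ‖T‖ * ‖V‖ * ‖W‖ ≤ 3 * ‖V‖ * (3.012 * c) := by gcongr
      _ ≤ 9.04 * (‖V‖ * c) := by nlinarith
  have h2 : ‖g - T * V * W‖ ≤ 27.2 * (N * u) * (‖V‖ * c) := by
    calc ‖g - T * V * W‖ ≤ 3 * u * ‖T * V * W‖ := hg
      _ ≤ 3 * u * (9.04 * (‖V‖ * c)) := by gcongr
      _ = 27.12 * u * (‖V‖ * c) := by ring
      _ ≤ 27.2 * (N * u) * (‖V‖ * c) := by
        apply mul_le_mul_of_nonneg_right _ hAc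
        nlinarith
  have h3 : ‖T * V * W - T * V * d‖ ≤ 36 * (N * u) * (‖V‖ * c) := by
    rw [← mul_sub, norm_mul, norm_mul]
    calc ‖T‖ * ‖V‖ * ‖W - d‖ ≤ 3 * ‖V‖ * (12 * N * u * c) := by gcongr
      _ = 36 * (N * u) * (‖V‖ * c) := by ring
  have h4 : ‖g - T * V * d‖ ≤ 63.2 * (N * u) * (‖V‖ * c) := by
    have : g - T * V * d = (g - T * V * W) + (T * V * W - T * V * d) := by ring
    rw [this]
    refine (norm_add_le _ _).trans ?_
    linarith
  have h5 : ‖T * V * d‖ ≤ 9 * (‖V‖ * c) := by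
    rw [norm_mul, norm_mul]
    calc ‖T‖ * ‖V‖ * ‖d‖ ≤ 3 * ‖V‖ * (3 * c) := by gcongr
      _ = 9 * (‖V‖ * c) := by ring
  have h6 : ‖g‖ ≤ 9.1 * (‖V‖ * c) := by
    have h7 : ‖g‖ ≤ ‖g - T * V * d‖ + ‖T * V * d‖ := by
      simpa using norm_add_le (g - T * V * d) (T * V * d)
    have h8 : 63.2 * (N * u) * (‖V‖ * c) ≤ 0.1 * (‖V‖ * c) := by
      apply mul_le_mul_of_nonneg_right _ hAc
      linarith
    linarith
  have h9 : ‖x' - (x - g)‖ ≤ u * (‖x‖ + 9.1 * (‖V‖ * c)) := by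
    refine hx.trans ?_
    apply mul_le_mul_of_nonneg_left _ hu
    exact (norm_sub_le _ _).trans (by linarith)
  have h10 : x' - (x - T * V * d) = (x' - (x - g)) - (g - T * V * d) := by ring
  rw [h10]
  refine (norm_sub_le _ _).trans ?_
  have h11 : u * (9.1 * (‖V‖ * c)) ≤ 9.1 * (N * u) * (‖V‖ * c) := by
    have : u * (9.1 * (‖V‖ * c)) = (9.1 * u) * (‖V‖ * c) := by ring
    rw [this]
    apply mul_le_mul_of_nonneg_right _ hAc
    linarith
  have h12 : 0 ≤ (N * u) * (‖V‖ * c) := by positivity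
  nlinarith

theorem LMUL_vec {n : ℕ} {u N c : ℝ} (hu : 0 ≤ u) (hN : 1 ≤ N) (hc : 0 ≤ c)
    {V e X : Fin n → ℂ} (hV : nv V ≤ 3) (hX : nv X ≤ c)
    (he : ∀ i, ‖e i‖ ≤ 73 * N * u * (‖V i‖ * c) + u * ‖X i‖) :
    nv e ≤ 250 * N * u * c := by
  have h1 : nv e ≤ nv (fun i => (((73 * N * u * c : ℝ) : ℂ) • (fun i => ((‖V i‖ : ℝ) : ℂ))
      + ((u : ℝ) : ℂ) • (fun i => ((‖X i‖ : ℝ) : ℂ))) i) := by
    apply nv_mono
    intro i
    refine (he i).trans ?_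
    simp only [Pi.add_apply, Pi.smul_apply, smul_eq_mul]
    rw [← Complex.ofReal_mul, ← Complex.ofReal_mul, ← Complex.ofReal_add, Complex.norm_real,
      Real.norm_eq_abs]
    refine le_trans (le_of_eq ?_) (le_abs_self _)
    ring
  refine h1.trans ?_
  refine (nv_add_le _ _).trans ?_
  rw [nv_smul, nv_smul, Complex.norm_real, Complex.norm_real, Real.norm_eq_abs, Real.norm_eq_abs,
    abs_of_nonneg hu, abs_of_nonneg (by positivity : 0 ≤ 73 * N * u * c)]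
  have h2 : nv (fun i => ((‖V i‖ : ℝ) : ℂ)) ≤ 3 := by
    refine le_trans (nv_mono fun i => ?_) hV
    simp
  have h3 : nv (fun i => ((‖X i‖ : ℝ) : ℂ)) ≤ c := by
    refine le_trans (nv_mono fun i => ?_) hX
    simp
  have h4 : 73 * N * u * c * nv (fun i => ((‖V i‖ : ℝ) : ℂ)) ≤ 73 * N * u * c * 3 := by
    gcongr
  have h5 : u * nv (fun i => ((‖X i‖ : ℝ) : ℂ)) ≤ u * c := by gcongr
  have h6 : u * c ≤ N * u * c := by
    have : 0 ≤ u * c := mul_nonneg hu hc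
    nlinarith
  have h7 : 0 ≤ N * u * c := by positivity
  nlinarith

theorem LMUL_nv_star {n : ℕ} (V : Fin n → ℂ) : nv (fun i => (starRingEnd ℂ) (V i)) = nv V := by
  unfold nv
  simp

theorem post_lmul {ad : Adv} {u : ℝ} (hu : ad.Le u) {n m : ℕ} (hn : 1 ≤ n) (hnu : n * u ≤ 1 / 1000)
    {env : Env} {v : RVec n} {t : ℕ} {x : RMat n m} {V : Fin n → ℂ} {T : ℂ}
    {X : Matrix (Fin n) (Fin m) ℂ} (hv : HasV env v V) (ht : Has env t T) (hx : HasM env x X)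
    (hV : nv V ≤ 3) (hT : ‖T‖ ≤ 3) :
    Post ad (lmulP v t x) env (fun x' env' => ∃ X' : Matrix (Fin n) (Fin m) ℂ, HasM env' x' X' ∧
      fro (X' - hhM V T * X) ≤ 250 * n * u * fro X) := by
  have hu0 : 0 ≤ u := hu.nonneg
  have hN : (1 : ℝ) ≤ n := by exact_mod_cast hn
  have hu1 : u ≤ 1 := by nlinarith
  unfold lmulP
  refine Post.bind (post_vecM n _ env (fun i r env' => Has env' r ((starRingEnd ℂ) (V i)))
    (fun i b env1 env2 h12 h => h.mono h12)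
    (fun i env' h' => post_conj ((hv i).mono h'))) ?_
  intro vc env1 h1 hvc
  refine Post.bind (post_vecM n _ env1 (fun i r env' => ∃ z, Has env' r z ∧ Rel u (T * V i) z)
    (fun i b env1 env2 h12 ⟨z, hz, hr⟩ => ⟨z, hz.mono h12, hr⟩)
    (fun i env' h' => post_mul hu (ht.mono (h1.trans h')) ((hv i).mono (h1.trans h')))) ?_
  intro tv env2 h2 htv
  refine Post.bind (post_vecM m _ env2 (fun j r env' => ∃ z, Has env' r z ∧
      ‖z - (fun i => (starRingEnd ℂ) (V i)) ⬝ᵥ (fun i => X i j)‖ ≤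
        4 * n * u * (nv (fun i => (starRingEnd ℂ) (V i)) * nv (fun i => X i j)))
    (fun i b env1 env2 h12 ⟨z, hz, hr⟩ => ⟨z, hz.mono h12, hr⟩)
    (fun j env' h' => post_dot' hu hn (by linarith)
      (HasV.mono (fun i => hvc i) (h2.trans h'))
      (fun i => (hx i j).mono (h1.trans (h2.trans h'))))) ?_
  intro w env3 h3 hw
  choose TV hTV hTVr using htv
  choose W hW hWr using hw
  refine Post.weaken (post_matM n m _ env3 (fun i j r env' => ∃ z, Has env' r z ∧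
      ∃ g, ‖g - TV i * W j‖ ≤ u * ‖TV i * W j‖ ∧ ‖z - (X i j - g)‖ ≤ u * ‖X i j - g‖)
    (fun i j b env1 env2 h12 ⟨z, hz, hr⟩ => ⟨z, hz.mono h12, hr⟩)
    (fun i j env' h' => ?_)) ?_
  · refine Post.bind (post_mul hu ((hTV i).mono (h3.trans h')) ((hW j).mono h')) ?_
    rintro g env4 h4 ⟨G, hG, hGr⟩
    refine Post.weaken (post_sub hu ((hx i j).mono (h1.trans (h2.trans (h3.trans (h'.trans h4)))))
      hG) ?_
    rintro r env5 _ ⟨z, hz, hzr⟩
    exact ⟨z, hz, G, hGr, hzr⟩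
  · intro x' env' _ hx'
    choose X0 hX' G hG hXG using hx'
    obtain ⟨X', rfl⟩ : ∃ Y : Matrix (Fin n) (Fin m) ℂ, Y = X0 := ⟨X0, rfl⟩
    refine ⟨X', hX', ?_⟩
    apply fro_le_of_cols (by positivity)
    intro j
    have hc : 0 ≤ nv (fun i => X i j) := nv_nonneg _
    refine LMUL_vec hu0 hN hc hV le_rfl (fun i => ?_)
    have hent : (X' - hhM V T * X) i j
        = X' i j - (X i j - T * V i * ((fun i => (starRingEnd ℂ) (V i)) ⬝ᵥ (fun i => X i j))) := by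
      rw [Matrix.sub_apply]
      congr 1
      unfold hhM
      rw [Matrix.sub_mul, Matrix.one_mul, Matrix.sub_apply, Matrix.smul_mul, Matrix.smul_apply,
        Matrix.mul_apply]
      congr 1
      rw [smul_eq_mul, dotProduct, Finset.mul_sum, Finset.mul_sum]
      apply Finset.sum_congr rfl
      intro k _
      rw [Matrix.vecMulVec_apply, Pi.star_apply]
      simp only [RCLike.star_def]
      ring
    rw [hent]
    apply LMUL_entry hu0 hN hnu hc hT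
    · refine (norm_dotProduct_le _ _).trans ?_
      rw [LMUL_nv_star]
      exact mul_le_mul_of_nonneg_right hV hc
    · refine (hWr j).trans ?_
      rw [LMUL_nv_star]
      calc 4 * (n : ℝ) * u * (nv V * nv (fun i => X i j))
          ≤ 4 * (n : ℝ) * u * (3 * nv (fun i => X i j)) := by gcongr
        _ = 12 * n * u * nv (fun i => X i j) := by ring
    · exact LMUL_prod hu0 hu1 (hTVr i) (hG i j)
    · exact hXG i j

end H6LP

end S_LMUL

section S_RMUL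

set_option autoImplicit false

open Complex Matrix

namespace H6LP

theorem post_rmul {ad : Adv} {u : ℝ} (hu : ad.Le u) {n m : ℕ} (hn : 1 ≤ n) (hnu : n * u ≤ 1 / 1000)
    {env : Env} {v : RVec n} {t : ℕ} {x : RMat m n} {V : Fin n → ℂ} {T : ℂ}
    {X : Matrix (Fin m) (Fin n) ℂ} (hv : HasV env v V) (ht : Has env t T) (hx : HasM env x X)
    (hV : nv V ≤ 3) (hT : ‖T‖ ≤ 3) :
    Post ad (rmulP v t x) env (fun x' env' => ∃ X' : Matrix (Fin m) (Fin n) ℂ, HasM env' x' X' ∧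
      fro (X' - X * (hhM V T)ᴴ) ≤ 250 * n * u * fro X) := by
  have hu0 : 0 ≤ u := hu.nonneg
  have hN : (1 : ℝ) ≤ n := by exact_mod_cast hn
  have hu1 : u ≤ 1 := by nlinarith
  unfold rmulP
  refine Post.bind (post_vecM n _ env (fun i r env' => Has env' r ((starRingEnd ℂ) (V i)))
    (fun i b env1 env2 h12 h => h.mono h12)
    (fun i env' h' => post_conj ((hv i).mono h'))) ?_
  intro vc env1 h1 hvc
  refine Post.bind (post_conj (ht.mono h1)) ?_
  intro tc env2 h2 htc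
  refine Post.bind (post_vecM m _ env2 (fun i r env' => ∃ z, Has env' r z ∧
      ‖z - (X i) ⬝ᵥ V‖ ≤ 4 * n * u * (nv (X i) * nv V))
    (fun i b env1 env2 h12 ⟨z, hz, hr⟩ => ⟨z, hz.mono h12, hr⟩)
    (fun i env' h' => post_dot' hu hn (by linarith)
      (fun j => (hx i j).mono (h1.trans (h2.trans h')))
      (hv.mono (h1.trans (h2.trans h'))))) ?_
  intro w env3 h3 hw
  choose W hW hWr using hw
  refine Post.bind (post_vecM m _ env3 (fun i r env' => ∃ z, Has env' r z ∧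
      Rel u ((starRingEnd ℂ) T * W i) z)
    (fun i b env1 env2 h12 ⟨z, hz, hr⟩ => ⟨z, hz.mono h12, hr⟩)
    (fun i env' h' => post_mul hu (htc.mono (h3.trans h')) ((hW i).mono h'))) ?_
  intro tw env4 h4 htw
  choose TW hTW hTWr using htw
  refine Post.weaken (post_matM m n _ env4 (fun i j r env' => ∃ z, Has env' r z ∧
      ∃ g, ‖g - TW i * (starRingEnd ℂ) (V j)‖ ≤ u * ‖TW i * (starRingEnd ℂ) (V j)‖ ∧
        ‖z - (X i j - g)‖ ≤ u * ‖X i j - g‖)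
    (fun i j b env1 env2 h12 ⟨z, hz, hr⟩ => ⟨z, hz.mono h12, hr⟩)
    (fun i j env' h' => ?_)) ?_
  · refine Post.bind (post_mul hu ((hTW i).mono h')
      ((hvc j).mono (h2.trans (h3.trans (h4.trans h'))))) ?_
    rintro g env5 h5 ⟨G, hG, hGr⟩
    refine Post.weaken (post_sub hu
      ((hx i j).mono (h1.trans (h2.trans (h3.trans (h4.trans (h'.trans h5)))))) hG) ?_
    rintro r env6 _ ⟨z, hz, hzr⟩
    exact ⟨z, hz, G, hGr, hzr⟩
  · intro x' env' _ hx'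
    choose X0 hX' G hG hXG using hx'
    obtain ⟨X', rfl⟩ : ∃ Y : Matrix (Fin m) (Fin n) ℂ, Y = X0 := ⟨X0, rfl⟩
    refine ⟨X', hX', ?_⟩
    apply fro_le_of_rows (by positivity)
    intro i
    have hc : 0 ≤ nv (X i) := nv_nonneg _
    have hTn : ‖(starRingEnd ℂ) T‖ ≤ 3 := by rw [RCLike.norm_conj]; exact hT
    refine LMUL_vec hu0 hN hc (V := fun j => (starRingEnd ℂ) (V j)) (X := X i)
      (by rw [LMUL_nv_star]; exact hV) le_rfl (fun j => ?_)
    have hent : (X' - X * (hhM V T)ᴴ) i j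
        = X' i j - (X i j - (starRingEnd ℂ) T * (starRingEnd ℂ) (V j) * (X i ⬝ᵥ V)) := by
      rw [Matrix.sub_apply]
      congr 1
      unfold hhM
      rw [Matrix.conjTranspose_sub, Matrix.conjTranspose_one, Matrix.conjTranspose_smul,
        Matrix.mul_sub, Matrix.mul_one, Matrix.sub_apply, Matrix.mul_smul, Matrix.smul_apply,
        Matrix.mul_apply]
      congr 1
      rw [smul_eq_mul, dotProduct, Finset.mul_sum, Finset.mul_sum]
      apply Finset.sum_congr rfl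
      intro k _
      rw [Matrix.conjTranspose_apply, Matrix.vecMulVec_apply, Pi.star_apply]
      simp only [RCLike.star_def, map_mul, RingHomCompTriple.comp_apply, RingHom.id_apply]
      ring
    rw [hent]
    apply LMUL_entry hu0 hN hnu hc hTn
    · refine (norm_dotProduct_le _ _).trans ?_
      rw [mul_comm]
      exact mul_le_mul_of_nonneg_right hV hc
    · refine (hWr i).trans ?_
      calc 4 * (n : ℝ) * u * (nv (X i) * nv V)
          ≤ 4 * (n : ℝ) * u * (nv (X i) * 3) := by gcongr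
        _ = 12 * n * u * nv (X i) := by ring
    · have h := LMUL_prod hu0 hu1 (hTWr i) (hG i j)
      have h5 : (starRingEnd ℂ) T * (starRingEnd ℂ) (V j) * W i
          = (starRingEnd ℂ) T * W i * (starRingEnd ℂ) (V j) := by ring
      rw [h5]
      exact h
    · exact hXG i j

end H6LP

end S_RMUL

section S_DETP

set_option autoImplicit false

open Complex Matrix

namespace H6LP

theorem DETP_multiset (s : Multiset ℂ) {x : ℝ} (hx : 0 ≤ x) (h : ∀ ν ∈ s, ‖ν - 1‖ ≤ x) :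
    ‖s.prod - 1‖ ≤ (1 + x) ^ s.card - 1 := by
  induction s using Multiset.induction_on with
  | empty => simp
  | cons a s ih =>
    have h1 := ih (fun ν hν => h ν (Multiset.mem_cons_of_mem hν))
    have h2 := h a (Multiset.mem_cons_self a s)
    rw [Multiset.prod_cons, Multiset.card_cons]
    have h3 : a * s.prod - 1 = a * (s.prod - 1) + (a - 1) := by ring
    have h4 : ‖a‖ ≤ 1 + x := by
      have : a = 1 + (a - 1) := by ring
      rw [this]
      exact (norm_add_le _ _).trans (by rw [norm_one]; linarith)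
    have h5 : 0 ≤ (1 + x) ^ s.card - 1 := le_trans (norm_nonneg _) h1
    calc ‖a * s.prod - 1‖ = ‖a * (s.prod - 1) + (a - 1)‖ := by rw [h3]
      _ ≤ ‖a‖ * ‖s.prod - 1‖ + ‖a - 1‖ := (norm_add_le _ _).trans (by rw [norm_mul])
      _ ≤ (1 + x) * ((1 + x) ^ s.card - 1) + x :=
          add_le_add (mul_le_mul h4 h1 (norm_nonneg _) (by linarith)) h2
      _ = (1 + x) ^ (s.card + 1) - 1 := by ring

theorem DETP_root {n : ℕ} {A : Matrix (Fin n) (Fin n) ℂ} {ν : ℂ} (h : ν ∈ A.charpoly.roots) :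
    ∃ v : Fin n → ℂ, v ≠ 0 ∧ A *ᵥ v = ν • v := by
  have h1 : A.charpoly.eval ν = 0 := Polynomial.isRoot_of_mem_roots h
  rw [Matrix.eval_charpoly] at h1
  obtain ⟨v, hv, hv'⟩ := Matrix.exists_mulVec_eq_zero_iff.mpr h1
  refine ⟨v, hv, ?_⟩
  rw [Matrix.sub_mulVec, sub_eq_zero] at hv'
  rw [← hv']
  simp

theorem norm_det_one_add_sub_one_le {n : ℕ} {X : Matrix (Fin n) (Fin n) ℂ} {x : ℝ} (hx : fro X ≤ x) :
    ‖(1 + X).det - 1‖ ≤ (1 + x) ^ n - 1 := by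
  have hx0 : 0 ≤ x := (fro_nonneg X).trans hx
  rw [Matrix.det_eq_prod_roots_charpoly]
  have h1 : ∀ ν ∈ (1 + X).charpoly.roots, ‖ν - 1‖ ≤ x := by
    intro ν hν
    obtain ⟨v, hv, he⟩ := DETP_root hν
    have h2 : X *ᵥ v = (ν - 1) • v := by
      rw [Matrix.add_mulVec, Matrix.one_mulVec] at he
      rw [sub_smul, one_smul, ← he]
      simp
    have h3 := nv_mulVec_le X v
    rw [h2, nv_smul] at h3
    have h4 := nv_pos hv
    exact (le_of_mul_le_mul_right h3 h4).trans hx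
  refine (DETP_multiset _ hx0 h1).trans ?_
  have h2 : Multiset.card (1 + X).charpoly.roots ≤ n := by
    refine (Polynomial.card_roots' _).trans ?_
    rw [Matrix.charpoly_natDegree_eq_dim, Fintype.card_fin]
  have h3 : (1 + x) ^ Multiset.card (1 + X).charpoly.roots ≤ (1 + x) ^ n :=
    pow_le_pow_right₀ (by linarith) h2
  linarith

/-- `T` with `t ‖x‖ ≤ ‖T x‖` and a small perturbation `E` -/
theorem norm_det_add_bound {n : ℕ} (hn : 1 ≤ n) {T E : Matrix (Fin n) (Fin n) ℂ} {t : ℝ} (ht : 0 < t)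
    (hT : ∀ x : Fin n → ℂ, t * nv x ≤ nv (T *ᵥ x)) (hE : 300 * n * fro E ≤ t) :
    T.det ≠ 0 ∧ |‖(T + E).det‖ - ‖T.det‖| ≤ 0.004 * ‖T.det‖ := by
  have hdet : T.det ≠ 0 := by
    intro h0
    obtain ⟨v, hv, hv'⟩ := Matrix.exists_mulVec_eq_zero_iff.mpr h0
    have h1 := hT v
    rw [hv', nv_zero] at h1
    have := mul_pos ht (nv_pos hv)
    linarith
  refine ⟨hdet, ?_⟩
  have hu : IsUnit T.det := isUnit_iff_ne_zero.mpr hdet
  have hop : OpLe T⁻¹ (1 / t) := by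
    intro x
    have h1 := hT (T⁻¹ *ᵥ x)
    rw [Matrix.mulVec_mulVec, Matrix.mul_nonsing_inv _ hu, Matrix.one_mulVec] at h1
    rw [div_mul_eq_mul_div, one_mul, le_div_iff₀ ht]
    linarith
  have hn0 : (0 : ℝ) < n := by exact_mod_cast hn
  have hfro : fro (T⁻¹ * E) ≤ 1 / (300 * n) := by
    refine (OpLe.fro_mul_le (by positivity) hop E).trans ?_
    rw [div_mul_eq_mul_div, one_mul, div_le_div_iff₀ ht (by positivity)]
    linarith
  have hTE : T + E = T * (1 + T⁻¹ * E) := by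
    rw [Matrix.mul_add, Matrix.mul_one, ← Matrix.mul_assoc, Matrix.mul_nonsing_inv _ hu,
      Matrix.one_mul]
  have hb := norm_det_one_add_sub_one_le hfro
  have hpow : (1 + 1 / (300 * (n : ℝ))) ^ n ≤ 300 / 299 := by
    have h1 : 1 + 1 / (300 * (n : ℝ)) ≤ Real.exp (1 / (300 * n)) := by
      have := Real.add_one_le_exp (1 / (300 * (n : ℝ)))
      linarith
    have h2 : (1 + 1 / (300 * (n : ℝ))) ^ n ≤ Real.exp (1 / (300 * n)) ^ n :=
      pow_le_pow_left₀ (by positivity) h1 n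
    have h3 : Real.exp (1 / (300 * (n : ℝ))) ^ n = Real.exp (1 / 300) := by
      rw [← Real.exp_nat_mul]
      congr 1
      field_simp
    have h4 : Real.exp (1 / 300) ≤ 300 / 299 := by
      have h5 := Real.add_one_le_exp (-(1 / 300) : ℝ)
      rw [Real.exp_neg] at h5
      have h6 : (299 / 300 : ℝ) ≤ (Real.exp (1 / 300))⁻¹ := by linarith
      have h7 := Real.exp_pos (1 / 300 : ℝ)
      rw [le_inv_comm₀ (by norm_num) h7] at h6
      refine h6.trans (by norm_num)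
    rw [h3] at h2
    exact h2.trans h4
  have hb2 : |‖(1 + T⁻¹ * E).det‖ - 1| ≤ 0.004 := by
    have h1 : |‖(1 + T⁻¹ * E).det‖ - ‖(1 : ℂ)‖| ≤ ‖(1 + T⁻¹ * E).det - 1‖ := abs_norm_sub_norm_le _ _
    rw [norm_one] at h1
    refine h1.trans (hb.trans ?_)
    have h2 : (300 / 299 : ℝ) - 1 ≤ 0.004 := by norm_num
    linarith
  rw [hTE, Matrix.det_mul, norm_mul]
  have h1 : ‖T.det‖ * ‖(1 + T⁻¹ * E).det‖ - ‖T.det‖ = ‖T.det‖ * (‖(1 + T⁻¹ * E).det‖ - 1) := by ring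
  rw [h1, abs_mul, abs_of_nonneg (norm_nonneg _), mul_comm]
  exact mul_le_mul_of_nonneg_right hb2 (norm_nonneg _)

end H6LP

end S_DETP
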