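import Pool.Agent.H6.LQ.Core
import Pool.Agent.H6.LQ.G1

/-! MP_63a4b3_lc, part G2: this file joins the modules HSTEP, HMIN, HESS, GIV, QR, DET, BACK, SOLVE. -/

section S_HSTEP

set_option autoImplicit false

open Complex Matrix

namespace H6LP

/-- the part of the column `k` below the diagonal -/
def subcol {n : ℕ} (X : Matrix (Fin n) (Fin n) ℂ) (k : ℕ) (hk : k + 1 < n) : Fin n → ℂ :=
  fun i => if (i : ℕ) ≤ k then 0 else X i ⟨k, by omega⟩

theorem HSTEP_split {n m : ℕ} {A B C : Matrix (Fin n) (Fin m) ℂ}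
    (h : ∀ i j, ‖A i j‖ ≤ ‖B i j‖ + ‖C i j‖) : fro A ≤ fro B + fro C := by
  have h1 : fro A ≤ 1 * fro (fun i j => ((‖B i j‖ + ‖C i j‖ : ℝ) : ℂ)) := by
    refine fro_le_of_entries zero_le_one fun i j => ?_
    rw [one_mul, Complex.norm_real, Real.norm_of_nonneg (by positivity)]
    exact h i j
  rw [one_mul] at h1
  refine h1.trans ?_
  have h2 : (fun i j => ((‖B i j‖ + ‖C i j‖ : ℝ) : ℂ) : Matrix (Fin n) (Fin m) ℂ) =
      (fun i j => ((‖B i j‖ : ℝ) : ℂ) : Matrix (Fin n) (Fin m) ℂ) +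
      (fun i j => ((‖C i j‖ : ℝ) : ℂ) : Matrix (Fin n) (Fin m) ℂ) := by
    funext i j
    show _ = ((‖B i j‖ : ℝ) : ℂ) + ((‖C i j‖ : ℝ) : ℂ)
    push_cast; rfl
  rw [h2]
  refine (fro_add_le _ _).trans ?_
  have h3 : ∀ D : Matrix (Fin n) (Fin m) ℂ,
      fro (fun i j => ((‖D i j‖ : ℝ) : ℂ) : Matrix (Fin n) (Fin m) ℂ) ≤ fro D := by
    intro D
    have h4 : fro (fun i j => ((‖D i j‖ : ℝ) : ℂ) : Matrix (Fin n) (Fin m) ℂ) ≤ 1 * fro D := by
      refine fro_le_of_entries zero_le_one fun i j => ?_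
      rw [one_mul, Complex.norm_real, Real.norm_of_nonneg (norm_nonneg _)]
    rwa [one_mul] at h4
  exact add_le_add (h3 B) (h3 C)

theorem HSTEP_fro_single {n m : ℕ} (p : Fin n) (q : Fin m) (c : ℂ) :
    fro (fun i j => if i = p ∧ j = q then c else 0 : Matrix (Fin n) (Fin m) ℂ) = ‖c‖ := by
  have h : (fun i j => if i = p ∧ j = q then c else 0 : Matrix (Fin n) (Fin m) ℂ) =
      Matrix.vecMulVec (Pi.single p c) (Pi.single q 1) := by
    funext i j
    rw [Matrix.vecMulVec_apply]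
    by_cases hi : i = p
    · subst hi
      by_cases hj : j = q
      · subst hj; simp
      · simp [hj]
    · simp [hi]
  rw [h, fro_vecMulVec, nv_single, nv_single]
  simp

/-- a vector which vanishes up to `k` -/
theorem HSTEP_hv_zero {n : ℕ} {c : Fin n → ℂ} {k : ℕ} (hk : k + 1 < n) (s : ℂ) (β : ℝ)
    (hc : ∀ i : Fin n, (i : ℕ) ≤ k → c i = 0) (i : Fin n) (hi : (i : ℕ) ≤ k) :
    hv (s • c) ⟨k + 1, hk⟩ β i = 0 := by
  unfold hv
  rw [if_neg]
  · simp [hc i hi]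
  · intro h
    have := congrArg Fin.val h
    simp only at this
    omega

/-- columns which live above `k` are not changed -/
theorem HSTEP_mulVec_fix {n : ℕ} {v : Fin n → ℂ} {t : ℂ} {k : ℕ}
    (hv : ∀ i : Fin n, (i : ℕ) ≤ k → v i = 0) (x : Fin n → ℂ)
    (hx : ∀ i : Fin n, k < (i : ℕ) → x i = 0) : hhM v t *ᵥ x = x := by
  rw [hhM_mulVec]
  have h : star v ⬝ᵥ x = 0 := by
    rw [dotProduct]
    refine Finset.sum_eq_zero fun i _ => ?_
    by_cases hi : (i : ℕ) ≤ k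
    · rw [Pi.star_apply, hv i hi, star_zero, zero_mul]
    · rw [hx i (by omega), mul_zero]
  rw [h, mul_zero, zero_smul, sub_zero]

/-- the columns `≤ k` of `M Pᴴ` -/
theorem HSTEP_mul_conj_col {n m : ℕ} {v : Fin n → ℂ} {t : ℂ} (M : Matrix (Fin m) (Fin n) ℂ)
    (i : Fin m) (j : Fin n) (hj : v j = 0) : (M * (hhM v t)ᴴ) i j = M i j := by
  rw [Matrix.mul_apply, Finset.sum_eq_single j]
  · rw [Matrix.conjTranspose_apply, hhM_row_of_zero hj, if_pos rfl, star_one, mul_one]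
  · intro l _ hl
    rw [Matrix.conjTranspose_apply, hhM_row_of_zero hj, if_neg (fun h => hl h.symm), star_zero,
      mul_zero]
  · intro h; exact absurd (Finset.mem_univ j) h

/-- the columns `≤ k` of `P X` -/
theorem HSTEP_PX_col {n : ℕ} {X : Matrix (Fin n) (Fin n) ℂ} (k : ℕ) (hk : k + 1 < n) {β : ℝ}
    (hβ : β = 1 ∨ β = -1) (hs : 0 < nv (subcol X k hk))
    (hz : ∀ i j : Fin n, (j : ℕ) < k → (j : ℕ) + 1 < i → X i j = 0)
    (hp : β * (subcol X k hk ⟨k + 1, hk⟩).re ≤ 0) {P : Matrix (Fin n) (Fin n) ℂ}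
    (hP : P = hhM (hv (((nv (subcol X k hk))⁻¹ : ℂ) • subcol X k hk) ⟨k + 1, hk⟩ β)
      (ht (((nv (subcol X k hk))⁻¹ : ℂ) • subcol X k hk) ⟨k + 1, hk⟩ β)) :
    (∀ i j : Fin n, (j : ℕ) < k → (P * X) i j = X i j) ∧
    (∀ i j : Fin n, (j : ℕ) = k → (P * X) i j =
      if (i : ℕ) ≤ k then X i j else if (i : ℕ) = k + 1 then ((β * nv (subcol X k hk) : ℝ) : ℂ)
      else 0) := by
  set c := subcol X k hk with hc_def
  have hc0 : ∀ i : Fin n, (i : ℕ) ≤ k → c i = 0 := by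
    intro i hi
    rw [hc_def]; unfold subcol; rw [if_pos hi]
  have hv0 := HSTEP_hv_zero hk ((nv c)⁻¹ : ℂ) β hc0
  have hcol : ∀ i j : Fin n, (P * X) i j = (P *ᵥ (fun i => X i j)) i :=
    fun i j => congrFun (NB_mul_col P X j) i
  constructor
  · intro i j hj
    rw [hcol i j, hP, HSTEP_mulVec_fix hv0]
    intro i' hi'
    exact hz i' j hj (by omega)
  · intro i j hj
    rw [hcol i j]
    have hsplit : (fun i => X i j) = (fun i : Fin n => if (i : ℕ) ≤ k then X i j else 0) + c := by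
      funext i
      simp only [Pi.add_apply]
      have hjk : j = ⟨k, by omega⟩ := Fin.ext hj
      by_cases hi : (i : ℕ) ≤ k
      · rw [if_pos hi, hc0 i hi, add_zero]
      · rw [if_neg hi, zero_add, hc_def]; unfold subcol; rw [if_neg hi, hjk]
    rw [hsplit, Matrix.mulVec_add]
    have hn1 : nv (((nv c)⁻¹ : ℂ) • c) = 1 := by
      rw [nv_smul, norm_inv, Complex.norm_real, Real.norm_of_nonneg hs.le]
      exact inv_mul_cancel₀ hs.ne'
    have hp' : β * ((((nv c)⁻¹ : ℂ) • c) ⟨k + 1, hk⟩).re ≤ 0 := by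
      have h2 : ((((nv c)⁻¹ : ℂ) • c) ⟨k + 1, hk⟩).re = (nv c)⁻¹ * (c ⟨k + 1, hk⟩).re := by
        rw [Pi.smul_apply, smul_eq_mul, ← Complex.ofReal_inv, Complex.re_ofReal_mul]
      rw [h2]
      have h3 : 0 < (nv c)⁻¹ := inv_pos.2 hs
      nlinarith
    have h4 : P *ᵥ c = fun i => if i = ⟨k + 1, hk⟩ then ((β * nv c : ℝ) : ℂ) else 0 := by
      have h5 : c = ((nv c : ℝ) : ℂ) • (((nv c)⁻¹ : ℂ) • c) := by
        rw [smul_smul, mul_inv_cancel₀ (by exact_mod_cast hs.ne'), one_smul]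
      have h6 := house_mulVec hn1 hβ hp'
      rw [← hP] at h6
      calc P *ᵥ c = P *ᵥ (((nv c : ℝ) : ℂ) • (((nv c)⁻¹ : ℂ) • c)) := by rw [← h5]
        _ = ((nv c : ℝ) : ℂ) • (P *ᵥ (((nv c)⁻¹ : ℂ) • c)) := by rw [Matrix.mulVec_smul]
        _ = _ := by
          rw [h6]
          funext i
          by_cases hi : i = ⟨k + 1, hk⟩
          · simp [hi, mul_comm]
          · simp [hi]
    rw [h4]
    have h7 : P *ᵥ (fun i : Fin n => if (i : ℕ) ≤ k then X i j else 0) =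
        fun i : Fin n => if (i : ℕ) ≤ k then X i j else 0 := by
      rw [hP]
      refine HSTEP_mulVec_fix hv0 _ ?_
      intro i' hi'
      rw [if_neg (by omega)]
    rw [h7]
    simp only [Pi.add_apply]
    by_cases hi : (i : ℕ) ≤ k
    · rw [if_pos hi, if_pos hi, if_neg, add_zero]
      intro h
      have := congrArg Fin.val h
      simp only at this
      omega
    · rw [if_neg hi, if_neg hi, zero_add]
      by_cases hi2 : (i : ℕ) = k + 1
      · rw [if_pos hi2, if_pos (Fin.ext hi2)]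
      · rw [if_neg hi2, if_neg]
        intro h
        exact hi2 (congrArg Fin.val h)

theorem post_hstep {ad : Adv} {u : ℝ} (hu : ad.Le u) {n : ℕ} (hn : 1 ≤ n) (hnu : n * u ≤ 1 / 10000)
    {env : Env} {x q : RMat n n} {X Q : Matrix (Fin n) (Fin n) ℂ} (hx : HasM env x X)
    (hq : HasM env q Q) (k : ℕ) (hk : k + 1 < n)
    (hz : ∀ i j : Fin n, (j : ℕ) < k → (j : ℕ) + 1 < i → X i j = 0)
    (hs : 0 < nv (subcol X k hk)) :
    Post ad (hstepP k hk (x, q)) env (fun r env' => ∃ (P X' Q' : Matrix (Fin n) (Fin n) ℂ),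
      Uni P ∧ Fix0 P ∧ HasM env' r.1 X' ∧ HasM env' r.2 Q' ∧
      fro (X' - P * X * Pᴴ) ≤ 2000 * n * u * fro X ∧
      fro (Q' - Q * Pᴴ) ≤ 2000 * n * u * fro Q ∧
      ∀ i j : Fin n, (j : ℕ) < k + 1 → (j : ℕ) + 1 < i → X' i j = 0) := by
  have hu0 : 0 ≤ u := hu.nonneg
  have hn0 : (0 : ℝ) ≤ n := Nat.cast_nonneg n
  have hnu0 : 0 ≤ n * u := mul_nonneg hn0 hu0
  unfold hstepP
  -- the constant zero
  refine Post.bind (post_cst hu env 0 0) ?_
  rintro z env1 h01 ⟨zv, hzv, hzr⟩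
  have hzv0 : zv = 0 := by
    have : Rel u 0 zv := by simpa using hzr
    unfold Rel at this
    rw [norm_zero, mul_zero] at this
    simpa using this
  subst hzv0
  -- the Householder vector
  have hcol : HasV env1 (fun i : Fin n => if (i : ℕ) ≤ k then z else x i ⟨k, by omega⟩)
      (subcol X k hk) := by
    intro i
    unfold subcol
    by_cases hi : (i : ℕ) ≤ k
    · simp only [if_pos hi]; exact hzv
    · simp only [if_neg hi]; exact (hx i _).mono h01
  refine Post.bind (post_hvec hu hn (by linarith) hcol hs ⟨k + 1, hk⟩) ?_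
  rintro h env2 h12 ⟨β, hβ, hp, V, T, a, hV, hT, ha, eV, eT, ea, hV0⟩
  set c := subcol X k hk with hc_def
  set v := hv (((nv c)⁻¹ : ℂ) • c) ⟨k + 1, hk⟩ β with hv_def
  set t := ht (((nv c)⁻¹ : ℂ) • c) ⟨k + 1, hk⟩ β with ht_def
  set P := hhM v t with hP_def
  have hc0 : ∀ i : Fin n, (i : ℕ) ≤ k → c i = 0 := by
    intro i hi
    rw [hc_def]; unfold subcol; rw [if_pos hi]
  have hv0 : ∀ i : Fin n, (i : ℕ) ≤ k → v i = 0 := HSTEP_hv_zero hk ((nv c)⁻¹ : ℂ) β hc0
  have hn1 : nv (((nv c)⁻¹ : ℂ) • c) = 1 := by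
    rw [nv_smul, norm_inv, Complex.norm_real, Real.norm_of_nonneg hs.le]
    exact inv_mul_cancel₀ hs.ne'
  have hp' : β * ((((nv c)⁻¹ : ℂ) • c) ⟨k + 1, hk⟩).re ≤ 0 := by
    have h2 : ((((nv c)⁻¹ : ℂ) • c) ⟨k + 1, hk⟩).re = (nv c)⁻¹ * (c ⟨k + 1, hk⟩).re := by
      rw [Pi.smul_apply, smul_eq_mul, ← Complex.ofReal_inv, Complex.re_ofReal_mul]
    rw [h2]
    have h3 : 0 < (nv c)⁻¹ := inv_pos.2 hs
    nlinarith
  have hUni : Uni P := house_uni hn1 hβ hp'
  have hFix : Fix0 P := by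
    constructor
    · intro i j hj
      rw [hP_def, hhM_col_of_zero (hv0 j (by omega))]
      by_cases hi : (i : ℕ) = 0
      · rw [if_pos hi, if_pos (Fin.ext (hi.trans hj.symm))]
      · rw [if_neg hi, if_neg (fun h => hi (by rw [h, hj]))]
    · intro i j hi
      rw [hP_def, hhM_row_of_zero (hv0 i (by omega))]
      by_cases hj : (j : ℕ) = 0
      · rw [if_pos hj, if_pos (Fin.ext (hi.trans hj.symm))]
      · rw [if_neg hj, if_neg (fun h => hj (by rw [← h, hi]))]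
  have hvn : nv v ≤ 2 := hv_norm hn1 hβ hp'
  have htn : ‖t‖ ≤ 1 := ht_norm hp'
  have hε : 20 * n * u ≤ 1 / 500 := by linarith
  have hVn : nv V ≤ 3 := by
    have h2 := nv_add_le (V - v) v
    rw [sub_add_cancel] at h2
    linarith
  have hTn : ‖T‖ ≤ 3 := by
    have h2 := norm_add_le (T - t) t
    rw [sub_add_cancel] at h2
    linarith
  have hRP : fro (hhM V T - P) ≤ 200 * (n * u) := by
    have := fro_hhM_sub_le hvn htn eV eT (by linarith)
    linarith
  -- left multiplication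
  refine Post.bind (post_lmul hu hn (by linarith) hV hT (hx.mono (h01.trans h12)) hVn hTn) ?_
  rintro x1 env3 h23 ⟨X1, hX1, eX1⟩
  have hfX := fro_nonneg X
  have eX1' : fro (X1 - P * X) ≤ 450 * (n * u) * fro X := by
    have h1 : X1 - P * X = (X1 - hhM V T * X) + (hhM V T - P) * X := by
      rw [sub_mul]; abel
    rw [h1]
    refine (fro_add_le _ _).trans ?_
    have h2 := fro_mul_le (hhM V T - P) X
    have h3 : fro (hhM V T - P) * fro X ≤ 200 * (n * u) * fro X :=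
      mul_le_mul_of_nonneg_right hRP hfX
    linarith
  -- the matrix with replaced columns
  set X2 : Matrix (Fin n) (Fin n) ℂ := fun i j =>
    if (j : ℕ) < k then X i j
    else if (j : ℕ) = k then (if (i : ℕ) ≤ k then X i j else if (i : ℕ) = k + 1 then a else 0)
    else X1 i j with hX2_def
  have hX2 : HasM env3 (fun i j : Fin n =>
      if (j : ℕ) < k then x i j
      else if (j : ℕ) = k then (if (i : ℕ) ≤ k then x i j else if (i : ℕ) = k + 1 then h.2.2 else z)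
      else x1 i j) X2 := by
    intro i j
    rw [hX2_def]
    simp only
    by_cases hj1 : (j : ℕ) < k
    · simp only [if_pos hj1]
      exact (hx i j).mono ((h01.trans h12).trans h23)
    · simp only [if_neg hj1]
      by_cases hj2 : (j : ℕ) = k
      · simp only [if_pos hj2]
        by_cases hi1 : (i : ℕ) ≤ k
        · simp only [if_pos hi1]
          exact (hx i j).mono ((h01.trans h12).trans h23)
        · simp only [if_neg hi1]
          by_cases hi2 : (i : ℕ) = k + 1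
          · simp only [if_pos hi2]
            exact ha.mono h23
          · simp only [if_neg hi2]
            exact hzv.mono (h12.trans h23)
      · simp only [if_neg hj2]
        exact hX1 i j
  obtain ⟨hPX1, hPX2⟩ := HSTEP_PX_col k hk hβ hs hz hp hP_def
  have hcX : nv c ≤ fro X := by
    refine le_trans ?_ (nv_col_le_fro X ⟨k, by omega⟩)
    refine nv_mono fun i => ?_
    rw [hc_def]; unfold subcol
    by_cases hi : (i : ℕ) ≤ k
    · rw [if_pos hi, norm_zero]; exact norm_nonneg _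
    · rw [if_neg hi]
  have eX2 : fro (X2 - P * X) ≤ 470 * (n * u) * fro X := by
    have h1 : fro (X2 - P * X) ≤ fro (X1 - P * X) +
        fro (fun i j : Fin n => if i = ⟨k + 1, hk⟩ ∧ j = ⟨k, by omega⟩
          then a - ((β * nv c : ℝ) : ℂ) else 0 : Matrix (Fin n) (Fin n) ℂ) := by
      refine HSTEP_split fun i j => ?_
      rw [Matrix.sub_apply, Matrix.sub_apply]
      by_cases hj1 : (j : ℕ) < k
      · rw [hX2_def]
        simp only [if_pos hj1]
        rw [hPX1 i j hj1, sub_self, norm_zero]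
        positivity
      · by_cases hj2 : (j : ℕ) = k
        · rw [hPX2 i j hj2, hX2_def]
          simp only [if_neg hj1, if_pos hj2]
          by_cases hi1 : (i : ℕ) ≤ k
          · simp only [if_pos hi1]
            rw [sub_self, norm_zero]; positivity
          · simp only [if_neg hi1]
            by_cases hi2 : (i : ℕ) = k + 1
            · simp only [if_pos hi2]
              rw [if_pos ⟨Fin.ext hi2, Fin.ext hj2⟩]
              have := norm_nonneg (X1 i j - ((β * nv c : ℝ) : ℂ))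
              linarith
            · simp only [if_neg hi2]
              rw [sub_self, norm_zero]; positivity
        · rw [hX2_def]
          simp only [if_neg hj1, if_neg hj2]
          have := norm_nonneg (if i = ⟨k + 1, hk⟩ ∧ j = ⟨k, by omega⟩
            then a - ((β * nv c : ℝ) : ℂ) else 0)
          linarith
    rw [HSTEP_fro_single] at h1
    have h2 : 20 * n * u * nv c ≤ 20 * (n * u) * fro X := by
      have : 20 * n * u * nv c = 20 * (n * u) * nv c := by ring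
      rw [this]
      exact mul_le_mul_of_nonneg_left hcX (by linarith)
    linarith
  have hPX : fro (P * X) = fro X := hUni.fro_mul X
  have hX2n : fro X2 ≤ 1.05 * fro X := by
    have h1 : X2 = (X2 - P * X) + P * X := by abel
    rw [h1]
    refine (fro_add_le _ _).trans ?_
    rw [hPX]
    nlinarith
  -- right multiplications
  refine Post.bind (post_rmul hu hn (by linarith) (hV.mono h23) (hT.mono h23) hX2 hVn hTn) ?_
  rintro y env4 h34 ⟨Y, hY, eY⟩
  refine Post.bind (post_rmul hu hn (by linarith) (hV.mono (h23.trans h34))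
    (hT.mono (h23.trans h34)) (hq.mono (((h01.trans h12).trans h23).trans h34)) hVn hTn) ?_
  rintro q' env5 h45 ⟨Q', hQ', eQ⟩
  have hRPc : fro ((hhM V T)ᴴ - Pᴴ) ≤ 200 * (n * u) := by
    rw [← Matrix.conjTranspose_sub, fro_conjTranspose]; exact hRP
  have eY' : fro (Y - P * X * Pᴴ) ≤ 945 * (n * u) * fro X := by
    have h1 : Y - P * X * Pᴴ = ((Y - X2 * (hhM V T)ᴴ) + X2 * ((hhM V T)ᴴ - Pᴴ)) +
        (X2 - P * X) * Pᴴ := by
      rw [mul_sub, sub_mul]; abel
    rw [h1]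
    refine (fro_add_le _ _).trans ?_
    have h2 := fro_add_le (Y - X2 * (hhM V T)ᴴ) (X2 * ((hhM V T)ᴴ - Pᴴ))
    have h3 := fro_mul_le X2 ((hhM V T)ᴴ - Pᴴ)
    rw [hUni.conjTranspose.fro_mul']
    have h4 : fro X2 * fro ((hhM V T)ᴴ - Pᴴ) ≤ (1.05 * fro X) * (200 * (n * u)) :=
      mul_le_mul hX2n hRPc (fro_nonneg _) (by positivity)
    have h5 : 250 * n * u * fro X2 ≤ 250 * (n * u) * (1.05 * fro X) := by
      have : 250 * n * u * fro X2 = 250 * (n * u) * fro X2 := by ring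
      rw [this]
      exact mul_le_mul_of_nonneg_left hX2n (by linarith)
    nlinarith [mul_nonneg hnu0 hfX]
  have eQ' : fro (Q' - Q * Pᴴ) ≤ 450 * (n * u) * fro Q := by
    have h1 : Q' - Q * Pᴴ = (Q' - Q * (hhM V T)ᴴ) + Q * ((hhM V T)ᴴ - Pᴴ) := by
      rw [mul_sub]; abel
    rw [h1]
    refine (fro_add_le _ _).trans ?_
    have h3 := fro_mul_le Q ((hhM V T)ᴴ - Pᴴ)
    have h4 : fro Q * fro ((hhM V T)ᴴ - Pᴴ) ≤ fro Q * (200 * (n * u)) :=
      mul_le_mul_of_nonneg_left hRPc (fro_nonneg _)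
    linarith
  set X3 : Matrix (Fin n) (Fin n) ℂ := fun i j => if (j : ℕ) ≤ k then X2 i j else Y i j with hX3_def
  refine Post.pure ⟨P, X3, Q', hUni, hFix, ?_, hQ', ?_, ?_, ?_⟩
  · intro i j
    rw [hX3_def]
    by_cases hj : (j : ℕ) ≤ k
    · simp only [if_pos hj]
      exact (hX2 i j).mono (h34.trans h45)
    · simp only [if_neg hj]
      exact (hY i j).mono h45
  · have h1 : fro (X3 - P * X * Pᴴ) ≤ fro (X2 - P * X) + fro (Y - P * X * Pᴴ) := by
      refine HSTEP_split fun i j => ?_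
      rw [Matrix.sub_apply, Matrix.sub_apply, Matrix.sub_apply, hX3_def]
      by_cases hj : (j : ℕ) ≤ k
      · simp only [if_pos hj]
        have h2 : (P * X * Pᴴ) i j = (P * X) i j := by
          conv_lhs => rw [hP_def]
          exact HSTEP_mul_conj_col _ i j (hv0 j hj)
        have := norm_nonneg (Y i j - (P * X * Pᴴ) i j)
        rw [h2] at this ⊢
        linarith
      · simp only [if_neg hj]
        have := norm_nonneg (X2 i j - (P * X) i j)
        linarith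
    refine h1.trans ?_
    nlinarith [mul_nonneg hnu0 hfX]
  · nlinarith [mul_nonneg hnu0 (fro_nonneg Q)]
  · intro i j hj hij
    have hjk : (j : ℕ) ≤ k := by omega
    rw [hX3_def]
    simp only [if_pos hjk]
    rw [hX2_def]
    simp only
    by_cases hj1 : (j : ℕ) < k
    · rw [if_pos hj1]; exact hz i j hj1 hij
    · have hj2 : (j : ℕ) = k := by omega
      rw [if_neg hj1, if_pos hj2, if_neg (by omega), if_neg (by omega)]

end H6LP

end S_HSTEP

section S_HMIN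

set_option autoImplicit false

open Complex Matrix

namespace H6LP

theorem hmin {n : ℕ} {X : Matrix (Fin n) (Fin n) ℂ} {s : ℝ} (hop : OpLe X 4) (hr : RowLB X s)
    (k : ℕ) (hk : k + 1 < n)
    (hz : ∀ i j : Fin n, (j : ℕ) < k → k < (i : ℕ) → X i j = 0) :
    s ≤ nv (subcol X k hk) := by
  classical
  let W : Submodule ℂ (Fin n → ℂ) :=
    { carrier := {x | ∀ i : Fin n, (i : ℕ) ≤ k → x i = 0}
      add_mem' := by
        intro a b ha hb i hi
        simp only [Pi.add_apply]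
        rw [ha i hi, hb i hi, add_zero]
      zero_mem' := by intro i _; rfl
      smul_mem' := by
        intro c x hx i hi
        simp only [Pi.smul_apply, smul_eq_mul]
        rw [hx i hi, mul_zero] }
  let T : (Fin n → ℂ) →ₗ[ℂ] (Fin n → ℂ) :=
    { toFun := fun x j => if (j : ℕ) ≤ k then 0 else (x ᵥ* X) j
      map_add' := by
        intro a b
        funext j
        by_cases hj : (j : ℕ) ≤ k
        · simp [hj]
        · simp [hj, Matrix.add_vecMul]
      map_smul' := by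
        intro c x
        funext j
        by_cases hj : (j : ℕ) ≤ k
        · simp [hj]
        · simp [hj, Matrix.smul_vecMul] }
  have hT : ∀ x ∈ W, T x ∈ W := by
    intro x _ i hi
    change (if (i : ℕ) ≤ k then (0 : ℂ) else (x ᵥ* X) i) = 0
    rw [if_pos hi]
  have hWn : Nontrivial W := by
    refine ⟨⟨⟨Pi.single (⟨k + 1, hk⟩ : Fin n) (1 : ℂ), ?_⟩, 0, ?_⟩⟩
    · intro i hi
      refine Pi.single_eq_of_ne ?_ _
      intro h
      rw [h] at hi
      simp at hi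
    · intro h
      have h1 := congrArg (fun w : W => (w : Fin n → ℂ) ⟨k + 1, hk⟩) h
      simp at h1
  obtain ⟨z, hz0⟩ := Module.End.exists_eigenvalue (T.restrict hT)
  obtain ⟨w, hw⟩ := hz0.exists_hasEigenvector
  have hTw : (T.restrict hT) w = z • w := hw.apply_eq_smul
  have hwne : (w : Fin n → ℂ) ≠ 0 := by
    intro h
    exact hw.2 (Subtype.ext h)
  have hx0 : ∀ i : Fin n, (i : ℕ) ≤ k → (w : Fin n → ℂ) i = 0 := w.2
  have hcol : ∀ j : Fin n, k < (j : ℕ) → ((w : Fin n → ℂ) ᵥ* X) j = z * (w : Fin n → ℂ) j := by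
    intro j hj
    have h1 := congrArg (fun v : W => (v : Fin n → ℂ) j) hTw
    have h2 : (if (j : ℕ) ≤ k then (0 : ℂ) else ((w : Fin n → ℂ) ᵥ* X) j)
        = z * (w : Fin n → ℂ) j := h1
    rwa [if_neg (by omega)] at h2
  generalize (w : Fin n → ℂ) = x at hwne hx0 hcol
  have hpos : 0 < nv x := nv_pos hwne
  have hzle : ‖z‖ ≤ 4 := by
    have h1 : nv (z • x) ≤ nv (x ᵥ* X) := by
      refine nv_mono (fun j => ?_)
      by_cases hj : (j : ℕ) ≤ k
      · simp [hx0 j hj]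
      · rw [hcol j (by omega)]
        simp
    have h2 : nv (x ᵥ* X) ≤ 4 * nv x := OpLe.vecMul (by norm_num) hop x
    rw [nv_smul] at h1
    exact le_of_mul_le_mul_right (h1.trans h2) hpos
  have hmain := hr z hzle x (fun i hi => hx0 i (by omega))
  have hval : x ᵥ* (z • (1 : Matrix (Fin n) (Fin n) ℂ) - X)
      = Pi.single (⟨k, by omega⟩ : Fin n) (-(x ⬝ᵥ subcol X k hk)) := by
    funext j
    have hj0 : (x ᵥ* (z • (1 : Matrix (Fin n) (Fin n) ℂ) - X)) j = z * x j - (x ᵥ* X) j := by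
      rw [Matrix.vecMul_sub, Matrix.vecMul_smul, Matrix.vecMul_one]
      rfl
    rw [hj0]
    rcases lt_trichotomy (j : ℕ) k with hj | hj | hj
    · have hne : j ≠ (⟨k, by omega⟩ : Fin n) := by
        intro h
        rw [h] at hj
        simp at hj
      rw [Pi.single_eq_of_ne hne, hx0 j hj.le]
      have : (x ᵥ* X) j = 0 := by
        change ∑ i, x i * X i j = 0
        refine Finset.sum_eq_zero (fun i _ => ?_)
        by_cases hi : (i : ℕ) ≤ k
        · rw [hx0 i hi, zero_mul]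
        · rw [hz i j hj (by omega), mul_zero]
      rw [this]
      ring
    · have hjk : j = (⟨k, by omega⟩ : Fin n) := Fin.ext hj
      rw [hjk, Pi.single_eq_same, hx0 _ le_rfl]
      have : (x ᵥ* X) (⟨k, by omega⟩ : Fin n) = x ⬝ᵥ subcol X k hk := by
        change ∑ i, x i * X i (⟨k, by omega⟩ : Fin n) = ∑ i, x i * subcol X k hk i
        refine Finset.sum_congr rfl (fun i _ => ?_)
        unfold subcol
        by_cases hi : (i : ℕ) ≤ k
        · rw [hx0 i hi]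
          simp
        · rw [if_neg hi]
      rw [this]
      ring
    · have hne : j ≠ (⟨k, by omega⟩ : Fin n) := by
        intro h
        rw [h] at hj
        simp at hj
      rw [Pi.single_eq_of_ne hne, hcol j hj, sub_self]
  rw [hval, nv_single, norm_neg] at hmain
  have h3 := hmain.trans (norm_dotProduct_le x (subcol X k hk))
  rw [mul_comm (nv x)] at h3
  exact le_of_mul_le_mul_right h3 hpos

end H6LP

end S_HMIN

section S_HESS

set_option autoImplicit false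

open Complex Matrix

namespace H6LP

theorem HESS_ctx {n : ℕ} {X : Matrix (Fin n) (Fin n) ℂ} {s : ℝ}
    (hs1 : s ≤ 1) (hrow : RowLB X (2 * s)) (hop : OpLe X 3)
    {Q E : Matrix (Fin n) (Fin n) ℂ} (hQ : Uni Q) (hQ0 : Fix0 Q) (hE : fro E ≤ s) :
    OpLe (Qᴴ * (X + E) * Q) 4 ∧ RowLB (Qᴴ * (X + E) * Q) s := by
  constructor
  · exact OpLe.uni ((hop.add_fro hE).mono (by linarith)) hQ
  · exact RowLB.uni ((hrow.pert hE).mono (by linarith)) hQ hQ0

theorem HESS_sqrt_le {n : ℕ} (hn : 1 ≤ n) : Real.sqrt n ≤ n := by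
  have h1 : (1 : ℝ) ≤ n := by exact_mod_cast hn
  rw [Real.sqrt_le_left (by linarith)]
  nlinarith

/-- the algebra of one step -/
theorem HESS_alg {n : ℕ} {X E Q P H X' : Matrix (Fin n) (Fin n) ℂ} (hQ : Uni Q) (hP : Uni P)
    (hH : H = Qᴴ * (X + E) * Q) :
    X' = (Q * Pᴴ)ᴴ * (X + (E + (Q * Pᴴ) * (X' - P * H * Pᴴ) * (Q * Pᴴ)ᴴ)) * (Q * Pᴴ) := by
  have hU : Uni (Q * Pᴴ) := hQ.mul hP.conjTranspose
  have h1 : (Q * Pᴴ)ᴴ * (Q * Pᴴ) = 1 := hU
  have h3 : (Q * Pᴴ)ᴴ * (X + E) * (Q * Pᴴ) = P * H * Pᴴ := by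
    rw [hH, Matrix.conjTranspose_mul, Matrix.conjTranspose_conjTranspose]
    simp only [Matrix.mul_assoc]
  have h4 : (Q * Pᴴ)ᴴ * ((Q * Pᴴ) * (X' - P * H * Pᴴ) * (Q * Pᴴ)ᴴ) * (Q * Pᴴ) =
      X' - P * H * Pᴴ := by
    calc (Q * Pᴴ)ᴴ * ((Q * Pᴴ) * (X' - P * H * Pᴴ) * (Q * Pᴴ)ᴴ) * (Q * Pᴴ)
        = ((Q * Pᴴ)ᴴ * (Q * Pᴴ)) * (X' - P * H * Pᴴ) * ((Q * Pᴴ)ᴴ * (Q * Pᴴ)) := by
          simp only [Matrix.mul_assoc]
      _ = X' - P * H * Pᴴ := by rw [h1, Matrix.one_mul, Matrix.mul_one]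
  rw [← add_assoc, Matrix.mul_add, Matrix.add_mul, h3, h4]
  abel

theorem HESS_fro {n : ℕ} {E Q P H X' : Matrix (Fin n) (Fin n) ℂ} (hQ : Uni Q) (hP : Uni P) {a b : ℝ}
    (hE : fro E ≤ a) (hX' : fro (X' - P * H * Pᴴ) ≤ b) :
    fro (E + (Q * Pᴴ) * (X' - P * H * Pᴴ) * (Q * Pᴴ)ᴴ) ≤ a + b := by
  have hU : Uni (Q * Pᴴ) := hQ.mul hP.conjTranspose
  refine (fro_add_le _ _).trans (add_le_add hE ?_)
  rw [hU.conjTranspose.fro_mul', hU.fro_mul]
  exact hX'

theorem post_hess {ad : Adv} {u : ℝ} (hu : ad.Le u) {n : ℕ} (hn : 1 ≤ n)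
    {env : Env} {x : RMat n n} {X : Matrix (Fin n) (Fin n) ℂ} (hx : HasM env x X) {s : ℝ}
    (hs : 0 < s) (hs1 : s ≤ 1) (hrow : RowLB X (2 * s)) (hop : OpLe X 3)
    (hnu : 10 ^ 6 * n ^ 3 * u ≤ s) :
    Post ad (hessP x) env (fun HQ env' => ∃ Q E H Q' : Matrix (Fin n) (Fin n) ℂ,
      Uni Q ∧ Fix0 Q ∧ H = Qᴴ * (X + E) * Q ∧ fro E ≤ 10 ^ 5 * n ^ 3 * u ∧ Hess H ∧
      HasM env' HQ.1 H ∧ HasM env' HQ.2 Q' ∧ fro (Q' - Q) ≤ 10 ^ 5 * n ^ 3 * u ∧
      ∀ k (hk : k + 1 < n), s ≤ ‖H ⟨k + 1, hk⟩ ⟨k, by omega⟩‖) := by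
  have hu0 : 0 ≤ u := (norm_nonneg _).trans (hu 0)
  have hn1 : (1 : ℝ) ≤ n := by exact_mod_cast hn
  have hn2 : (1 : ℝ) ≤ (n : ℝ) ^ 2 := one_le_pow₀ hn1
  have hn13 : (n : ℝ) ≤ (n : ℝ) ^ 3 := by
    calc (n : ℝ) = n * 1 := (mul_one _).symm
      _ ≤ n * (n : ℝ) ^ 2 := by gcongr
      _ = _ := by ring
  have hsq : Real.sqrt n ≤ n := HESS_sqrt_le hn
  have hu3 : (n : ℝ) * u ≤ (n : ℝ) ^ 3 * u := mul_le_mul_of_nonneg_right hn13 hu0
  have hnu' : (n : ℝ) * u ≤ 1 / 10000 := by nlinarith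
  set c : ℝ := (n : ℝ) ^ 2 * u with hc
  have hc0 : 0 ≤ c := by positivity
  have hnc : (n : ℝ) * c = (n : ℝ) ^ 3 * u := by rw [hc]; ring
  have hkc : ∀ k : ℕ, k ≤ n → (k : ℝ) * c ≤ (n : ℝ) ^ 3 * u := by
    intro k hk
    rw [← hnc]
    have : (k : ℝ) ≤ n := by exact_mod_cast hk
    gcongr
  unfold hessP
  refine Post.bind (post_cst hu env 0 0) ?_
  rintro z env1 h1 ⟨zv, hzv, hzr⟩
  have hz0 : zv = 0 := by
    unfold Rel at hzr
    simp only [Rat.cast_zero, zero_mul, add_zero, sub_zero, norm_zero, mul_zero] at hzr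
    exact norm_le_zero_iff.1 hzr
  subst hz0
  refine Post.bind (post_cst hu env1 1 0) ?_
  rintro one env2 h2 ⟨ov, hov, hor⟩
  have hor' : ‖ov - 1‖ ≤ u := by
    unfold Rel at hor
    simpa using hor
  have hx2 : HasM env2 x X := hx.mono (h1.trans h2)
  have hz2 : Has env2 z 0 := hzv.mono h2
  -- the invariant
  refine (post_iterP (n - 1) _ _ env2 (fun k (S : RMat n n × RMat n n) env' =>
    ∃ Q E H Q' : Matrix (Fin n) (Fin n) ℂ,
      Uni Q ∧ Fix0 Q ∧ H = Qᴴ * (X + E) * Q ∧ fro E ≤ k * (8000 * c) ∧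
      (∀ i j : Fin n, (j : ℕ) < k → (j : ℕ) + 1 < i → H i j = 0) ∧
      HasM env' S.1 H ∧ HasM env' S.2 Q' ∧ fro (Q' - Q) ≤ (n : ℝ) * u + k * (4000 * c)) ?_ ?_).weaken ?_
  · refine ⟨1, 0, X, ov • 1, Uni.one, Fix0.one, by simp, by simp [fro_zero], ?_, hx2, ?_, ?_⟩
    · intro i j hj; exact absurd hj (Nat.not_lt_zero _)
    · intro i j
      by_cases hij : i = j
      · subst hij
        simpa using hov
      · simpa [hij, Matrix.one_apply_ne hij] using hz2
    · have e : ov • (1 : Matrix (Fin n) (Fin n) ℂ) - 1 = (ov - 1) • 1 := by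
        rw [sub_smul, one_smul]
      rw [e, fro_smul_one]
      simp only [Nat.cast_zero, zero_mul, add_zero]
      calc ‖ov - 1‖ * Real.sqrt n ≤ u * n := by gcongr
        _ = n * u := mul_comm _ _
  · intro k hk S env' henv hInv
    obtain ⟨Q, E, H, Q', hQ, hQ0, hH, hE, hHz, hS1, hS2, hQ'⟩ := hInv
    have hk1 : k + 1 < n := by omega
    have hEs : fro E ≤ s := by
      have := hkc k (by omega)
      nlinarith
    obtain ⟨hop4, hrs⟩ := HESS_ctx hs1 hrow hop hQ hQ0 hEs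
    rw [← hH] at hop4 hrs
    have hmn : s ≤ nv (subcol H k hk1) := hmin hop4 hrs k hk1
      (fun i j hj hi => hHz i j hj (by omega))
    rw [dif_pos hk1]
    have hfH : fro H ≤ 4 * n := (hop4.fro_le (by norm_num)).trans (by gcongr)
    have hfQ' : fro Q' ≤ 2 * n := by
      have e : Q' = Q + (Q' - Q) := by abel
      rw [e]
      refine (fro_add_le _ _).trans ?_
      rw [hQ.fro_eq]
      have := hkc k (by omega)
      nlinarith
    refine (post_hstep hu hn hnu' (x := S.1) (q := S.2) hS1 hS2 k hk1 hHz (hs.trans_le hmn)).weaken ?_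
    rintro r env'' hpre ⟨P, X', Q'', hP, hP0, hr1, hr2, hX', hQ'', hzz⟩
    have hX'' : fro (X' - P * H * Pᴴ) ≤ 8000 * c := by
      refine hX'.trans ?_
      calc 2000 * (n : ℝ) * u * fro H ≤ 2000 * (n : ℝ) * u * (4 * n) := by gcongr
        _ = 8000 * c := by rw [hc]; ring
    have hQ3 : fro (Q'' - Q' * Pᴴ) ≤ 4000 * c := by
      refine hQ''.trans ?_
      calc 2000 * (n : ℝ) * u * fro Q' ≤ 2000 * (n : ℝ) * u * (2 * n) := by gcongr
        _ = 4000 * c := by rw [hc]; ring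
    refine ⟨Q * Pᴴ, E + (Q * Pᴴ) * (X' - P * H * Pᴴ) * (Q * Pᴴ)ᴴ, X', Q'',
      hQ.mul hP.conjTranspose, hQ0.mul hP0.conjTranspose, HESS_alg hQ hP hH, ?_, ?_, hr1, hr2, ?_⟩
    · refine (HESS_fro hQ hP hE hX'').trans (le_of_eq ?_)
      push_cast; ring
    · intro i j hj hi
      exact hzz i j hj hi
    · have e : Q'' - Q * Pᴴ = (Q'' - Q' * Pᴴ) + (Q' - Q) * Pᴴ := by
        rw [Matrix.sub_mul]; abel
      rw [e]
      refine (fro_add_le _ _).trans ?_
      rw [hP.conjTranspose.fro_mul']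
      push_cast
      linarith
  · rintro ⟨a, b⟩ env' hpre ⟨Q, E, H, Q', hQ, hQ0, hH, hE, hHz, hS1, hS2, hQ'⟩
    have hk1 := hkc (n - 1) (by omega)
    have hEs : fro E ≤ s := by
      nlinarith
    obtain ⟨hop4, hrs⟩ := HESS_ctx hs1 hrow hop hQ hQ0 hEs
    rw [← hH] at hop4 hrs
    have hHess : Hess H := by
      intro i j hij
      exact hHz i j (by have := i.2; omega) hij
    refine ⟨Q, E, H, Q', hQ, hQ0, hH, ?_, hHess, hS1, hS2, ?_, ?_⟩
    · nlinarith
    · nlinarith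
    · intro k hk
      have hmn : s ≤ nv (subcol H k hk) := hmin hop4 hrs k hk
        (fun i j hj hi => hHess i j (by omega))
      refine hmn.trans (le_of_eq ?_)
      have e : ∑ i : Fin n, ‖subcol H k hk i‖ ^ 2 = ‖H ⟨k + 1, hk⟩ ⟨k, by omega⟩‖ ^ 2 := by
        rw [Finset.sum_eq_single (⟨k + 1, hk⟩ : Fin n)]
        · unfold subcol
          rw [if_neg (by simp)]
        · intro i _ hi
          unfold subcol
          split_ifs with h5
          · simp
          · rw [hHess i ⟨k, by omega⟩ (by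
              have : (i : ℕ) ≠ k + 1 := fun h => hi (Fin.ext h)
              show k + 1 < (i : ℕ)
              omega)]
            simp
        · intro h; exact absurd (Finset.mem_univ _) h
      unfold nv
      rw [e, Real.sqrt_sq (norm_nonneg _)]

end H6LP

end S_HESS

section S_GIV

set_option autoImplicit false

open Complex Matrix

namespace H6LP

/-- the Givens matrix -/
def givM {n : ℕ} (k0 k1 : Fin n) (al be : ℂ) : Matrix (Fin n) (Fin n) ℂ := fun i j =>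
  if i = k0 then (if j = k0 then star al else if j = k1 then star be else 0)
  else if i = k1 then (if j = k0 then -be else if j = k1 then al else 0)
  else if i = j then 1 else 0

theorem givM_mulVec {n : ℕ} {k0 k1 : Fin n} (h : k0 ≠ k1) (al be : ℂ) (x : Fin n → ℂ) (i : Fin n) :
    (givM k0 k1 al be *ᵥ x) i = if i = k0 then star al * x k0 + star be * x k1
      else if i = k1 then -be * x k0 + al * x k1 else x i := by
  have two : ∀ c d : ℂ, ∑ j, (if j = k0 then c else if j = k1 then d else 0) * x j =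
      c * x k0 + d * x k1 := by
    intro c d
    have : ∀ j : Fin n, (if j = k0 then c else if j = k1 then d else 0) * x j =
        (if j = k0 then c * x j else 0) + (if j = k1 then d * x j else 0) := by
      intro j
      by_cases h0 : j = k0
      · subst h0
        simp [h]
      · by_cases h1 : j = k1
        · subst h1
          simp [h0]
        · simp [h0, h1]
    rw [Finset.sum_congr rfl (fun j _ => this j), Finset.sum_add_distrib]
    simp
  show ∑ j, givM k0 k1 al be i j * x j = _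
  unfold givM
  by_cases h0 : i = k0
  · simp only [h0, if_true]
    exact two _ _
  · by_cases h1 : i = k1
    · simp only [h1, if_true, if_false, Ne.symm h]
      exact two _ _
    · simp [h0, h1]

theorem givM_uni {n : ℕ} {k0 k1 : Fin n} (h : k0 ≠ k1) {al be : ℂ} (hab : ‖al‖ ^ 2 + ‖be‖ ^ 2 = 1) :
    Uni (givM k0 k1 al be) := by
  have hc : (starRingEnd ℂ) al * al + (starRingEnd ℂ) be * be = 1 := by
    have h1 : ∀ w : ℂ, (starRingEnd ℂ) w * w = ((‖w‖ ^ 2 : ℝ) : ℂ) := by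
      intro w
      rw [mul_comm, Complex.mul_conj, Complex.normSq_eq_norm_sq]
    rw [h1, h1, ← Complex.ofReal_add, hab, Complex.ofReal_one]
  unfold Uni
  rw [mul_eq_one_comm]
  ext i j
  have key : (givM k0 k1 al be * (givM k0 k1 al be)ᴴ) i j =
      (givM k0 k1 al be *ᵥ (fun l => star (givM k0 k1 al be j l))) i := rfl
  rw [key, givM_mulVec h, Matrix.one_apply]
  have h' := Ne.symm h
  unfold givM
  by_cases hi0 : i = k0
  · subst hi0
    by_cases hj0 : j = i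
    · subst hj0
      simp only [if_true, h', if_false]
      simpa using hc
    · by_cases hj1 : j = k1
      · subst hj1
        simp only [if_true, hj0, h, if_false]
        simp
        ring
      · simp [hj0, hj1, Ne.symm hj0]
  · by_cases hi1 : i = k1
    · subst hi1
      by_cases hj0 : j = k0
      · subst hj0
        simp only [if_true, hi0, if_false]
        simp
        ring
      · by_cases hj1 : j = i
        · subst hj1
          simp only [if_true, hj0, h, if_false]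
          simp
          rw [← hc]
          ring
        · simp [hj0, hj1, hi0, Ne.symm hj1]
    · by_cases hj0 : j = k0
      · subst hj0
        simp [hi0, hi1]
      · by_cases hj1 : j = k1
        · subst hj1
          simp [hi0, hi1, hj0]
        · simp [hi0, hi1, hj0, hj1, eq_comm]

theorem giv_pair_le_nv {n : ℕ} {k0 k1 : Fin n} (h : k0 ≠ k1) (x : Fin n → ℂ) :
    Real.sqrt (‖x k0‖ ^ 2 + ‖x k1‖ ^ 2) ≤ nv x := by
  unfold nv
  apply Real.sqrt_le_sqrt
  rw [← Finset.sum_pair (f := fun i => ‖x i‖ ^ 2) h]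
  exact Finset.sum_le_sum_of_subset_of_nonneg (Finset.subset_univ _) (fun i _ _ => by positivity)

theorem giv_col_err {n : ℕ} {k0 k1 : Fin n} (h : k0 ≠ k1) {v x : Fin n → ℂ} {u : ℝ} (hu : 0 ≤ u)
    (hv : ∀ i, i ≠ k0 → i ≠ k1 → v i = 0)
    (h0 : ‖v k0‖ ≤ 13 * u * Real.sqrt (‖x k0‖ ^ 2 + ‖x k1‖ ^ 2))
    (h1 : ‖v k1‖ ≤ 13 * u * Real.sqrt (‖x k0‖ ^ 2 + ‖x k1‖ ^ 2)) :
    nv v ≤ 100 * u * nv x := by
  have hv' : v = Pi.single k0 (v k0) + Pi.single k1 (v k1) := by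
    funext i
    by_cases hi0 : i = k0
    · subst hi0
      simp [h]
    · by_cases hi1 : i = k1
      · subst hi1
        simp [hi0]
      · simp [hi0, hi1, hv i hi0 hi1]
  have h2 : nv v ≤ ‖v k0‖ + ‖v k1‖ := by
    conv_lhs => rw [hv']
    refine (nv_add_le _ _).trans ?_
    rw [nv_single, nv_single]
  have h3 := giv_pair_le_nv h x
  have h4 : 0 ≤ nv x := nv_nonneg x
  have h5 : 13 * u * Real.sqrt (‖x k0‖ ^ 2 + ‖x k1‖ ^ 2) ≤ 13 * u * nv x := by gcongr
  have h6 : 0 ≤ u * nv x := by positivity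
  nlinarith

theorem giv_comb_err {u : ℝ} (hu0 : 0 ≤ u) (hu1 : u ≤ 1 / 10000) {A A' B B' X Y P Q Z : ℂ}
    (hA : ‖A' - A‖ ≤ 10 * u * ‖A‖) (hB : ‖B' - B‖ ≤ 10 * u * ‖B‖)
    (hAB : ‖A‖ ^ 2 + ‖B‖ ^ 2 = 1) (hP : ‖P - A' * X‖ ≤ u * ‖A' * X‖)
    (hQ : ‖Q - B' * Y‖ ≤ u * ‖B' * Y‖) (hZ : ‖Z - (P + Q)‖ ≤ u * ‖P + Q‖) :
    ‖Z - (A * X + B * Y)‖ ≤ 13 * u * Real.sqrt (‖X‖ ^ 2 + ‖Y‖ ^ 2) := by
  have gen : ∀ {C C' W R : ℂ}, ‖C' - C‖ ≤ 10 * u * ‖C‖ → ‖R - C' * W‖ ≤ u * ‖C' * W‖ →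
      ‖R - C * W‖ ≤ 11.01 * u * (‖C‖ * ‖W‖) := by
    intro C C' W R h1 h2
    have h3 : ‖C'‖ ≤ (1 + 10 * u) * ‖C‖ := by
      have : ‖C'‖ ≤ ‖C' - C‖ + ‖C‖ := by
        simpa using norm_add_le (C' - C) C
      linarith
    have h4 : R - C * W = (R - C' * W) + (C' - C) * W := by ring
    have h5 : ‖R - C * W‖ ≤ ‖R - C' * W‖ + ‖C' - C‖ * ‖W‖ := by
      rw [h4]
      refine (norm_add_le _ _).trans ?_
      rw [norm_mul]
    rw [norm_mul] at h2
    have h6 : u * (‖C'‖ * ‖W‖) ≤ u * ((1 + 10 * u) * ‖C‖ * ‖W‖) := by gcongr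
    have h7 : ‖C' - C‖ * ‖W‖ ≤ 10 * u * ‖C‖ * ‖W‖ := by gcongr
    have h8 : 0 ≤ ‖C‖ * ‖W‖ := by positivity
    have h9 : u * ((1 + 10 * u) * ‖C‖ * ‖W‖) ≤ 1.01 * u * (‖C‖ * ‖W‖) := by
      have : (1 + 10 * u) ≤ 1.01 := by linarith
      calc u * ((1 + 10 * u) * ‖C‖ * ‖W‖) = (1 + 10 * u) * (u * (‖C‖ * ‖W‖)) := by ring
        _ ≤ 1.01 * (u * (‖C‖ * ‖W‖)) := by gcongr
        _ = _ := by ring
    nlinarith
  have hP' := gen hA hP
  have hQ' := gen hB hQ
  set s := ‖A‖ * ‖X‖ + ‖B‖ * ‖Y‖ with hs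
  have hs0 : 0 ≤ s := by positivity
  have hss : s ≤ Real.sqrt (‖X‖ ^ 2 + ‖Y‖ ^ 2) := by
    apply Real.le_sqrt_of_sq_le
    have : (‖A‖ ^ 2 + ‖B‖ ^ 2) * (‖X‖ ^ 2 + ‖Y‖ ^ 2) - s ^ 2 = (‖A‖ * ‖Y‖ - ‖B‖ * ‖X‖) ^ 2 := by
      rw [hs]; ring
    rw [hAB] at this
    have h2 := sq_nonneg (‖A‖ * ‖Y‖ - ‖B‖ * ‖X‖)
    linarith
  have hPQ : ‖P + Q - (A * X + B * Y)‖ ≤ 11.01 * u * s := by
    have h1 : P + Q - (A * X + B * Y) = (P - A * X) + (Q - B * Y) := by ring
    rw [h1]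
    refine (norm_add_le _ _).trans ?_
    rw [hs]
    linarith
  have hAX : ‖A * X + B * Y‖ ≤ s := by
    refine (norm_add_le _ _).trans ?_
    rw [norm_mul, norm_mul]
  have hPQ2 : ‖P + Q‖ ≤ 1.01 * s := by
    have h1 : ‖P + Q‖ ≤ ‖P + Q - (A * X + B * Y)‖ + ‖A * X + B * Y‖ := by
      simpa using norm_add_le (P + Q - (A * X + B * Y)) (A * X + B * Y)
    have h2 : 11.01 * u * s ≤ 0.01 * s := by
      have : 11.01 * u ≤ 0.01 := by linarith
      gcongr
    linarith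
  have h1 : Z - (A * X + B * Y) = (Z - (P + Q)) + (P + Q - (A * X + B * Y)) := by ring
  have h2 : ‖Z - (A * X + B * Y)‖ ≤ 13 * u * s := by
    rw [h1]
    refine (norm_add_le _ _).trans ?_
    have h3 : u * ‖P + Q‖ ≤ u * (1.01 * s) := by gcongr
    have h4 : 0 ≤ u * s := by positivity
    nlinarith
  refine h2.trans ?_
  gcongr

theorem giv_post_comb {ad : Adv} {u : ℝ} (hu : ad.Le u) (hu1 : u ≤ 1 / 10000) {env : Env}
    {a x b y : ℕ} {A A' B B' X Y : ℂ} (ha : Has env a A') (hx : Has env x X) (hb : Has env b B')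
    (hy : Has env y Y) (hA : ‖A' - A‖ ≤ 10 * u * ‖A‖) (hB : ‖B' - B‖ ≤ 10 * u * ‖B‖)
    (hAB : ‖A‖ ^ 2 + ‖B‖ ^ 2 = 1) :
    Post ad (combP a x b y) env (fun r env' => ∃ z, Has env' r z ∧
      ‖z - (A * X + B * Y)‖ ≤ 13 * u * Real.sqrt (‖X‖ ^ 2 + ‖Y‖ ^ 2)) := by
  unfold combP
  refine Post.bind (post_mul hu ha hx) ?_
  rintro p env1 h1 ⟨P, hp, hP⟩
  refine Post.bind (post_mul hu (hb.mono h1) (hy.mono h1)) ?_
  rintro q env2 h2 ⟨Q, hq, hQ⟩
  refine (post_add hu (hp.mono h2) hq).weaken ?_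
  rintro z env3 h3 ⟨Z, hz, hZ⟩
  exact ⟨Z, hz, giv_comb_err hu.nonneg hu1 hA hB hAB hP hQ hZ⟩

theorem giv_post_combs {ad : Adv} {u : ℝ} (hu : ad.Le u) (hu1 : u ≤ 1 / 10000) {env : Env}
    {a x b y : ℕ} {A A' B B' X Y : ℂ} (ha : Has env a A') (hx : Has env x X) (hb : Has env b B')
    (hy : Has env y Y) (hA : ‖A' - A‖ ≤ 10 * u * ‖A‖) (hB : ‖B' - B‖ ≤ 10 * u * ‖B‖)
    (hAB : ‖A‖ ^ 2 + ‖B‖ ^ 2 = 1) :
    Post ad (combsP a x b y) env (fun r env' => ∃ z, Has env' r z ∧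
      ‖z - (A * X - B * Y)‖ ≤ 13 * u * Real.sqrt (‖X‖ ^ 2 + ‖Y‖ ^ 2)) := by
  unfold combsP
  refine Post.bind (post_mul hu ha hx) ?_
  rintro p env1 h1 ⟨P, hp, hP⟩
  refine Post.bind (post_mul hu (hb.mono h1) (hy.mono h1)) ?_
  rintro q env2 h2 ⟨Q, hq, hQ⟩
  refine (post_sub hu (hp.mono h2) hq).weaken ?_
  rintro z env3 h3 ⟨Z, hz, hZ⟩
  refine ⟨Z, hz, ?_⟩
  unfold Rel at hP hQ hZ
  have := giv_comb_err (A := A) (A' := A') (B := -B) (B' := -B') (X := X) (Y := Y) (P := P) (Q := -Q)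
    (Z := Z) hu.nonneg hu1 hA ?_ ?_ hP ?_ ?_
  · have e1 : A * X + -B * Y = A * X - B * Y := by ring
    rwa [e1] at this
  · have e1 : -B' - -B = -(B' - B) := by ring
    rw [e1, norm_neg, norm_neg]
    exact hB
  · rw [norm_neg]
    exact hAB
  · have e1 : -Q - -B' * Y = -(Q - B' * Y) := by ring
    have e2 : -B' * Y = -(B' * Y) := by ring
    rw [e1, norm_neg, e2, norm_neg]
    exact hQ
  · have e1 : Z - (P + -Q) = Z - (P - Q) := by ring
    have e2 : P + -Q = P - Q := by ring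
    rw [e1, e2]
    exact hZ

/-- the error of the quotient `a / ρ̃` -/
theorem giv_quot_err {u : ℝ} (hu0 : 0 ≤ u) (hu1 : u ≤ 1 / 10000) {rho t : ℝ} (hr : 0 < rho)
    (ht : |t - rho| ≤ 8 * u * rho) {a z : ℂ} (hz : Rel u (a / (t : ℂ)) z) :
    ‖z - a / (rho : ℂ)‖ ≤ 10 * u * ‖a / (rho : ℂ)‖ := by
  have ht1 : (1 - 8 * u) * rho ≤ t := by
    have := (abs_le.mp ht).1
    linarith
  have ht0 : 0 < t := by
    have : 0 < (1 - 8 * u) * rho := by
      apply mul_pos _ hr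
      linarith
    linarith
  have htc : (t : ℂ) ≠ 0 := by exact_mod_cast ht0.ne'
  have hrc : (rho : ℂ) ≠ 0 := by exact_mod_cast hr.ne'
  have e1 : a / (t : ℂ) - a / (rho : ℂ) = (a / (rho : ℂ)) * (((rho - t) / t : ℝ) : ℂ) := by
    push_cast
    field_simp
  have hq : |(rho - t) / t| ≤ 8.1 * u := by
    rw [abs_div, abs_of_pos ht0, div_le_iff₀ ht0, abs_sub_comm]
    refine ht.trans ?_
    have h1 : 8.1 * u * ((1 - 8 * u) * rho) ≤ 8.1 * u * t := by gcongr
    have h2 : 8 * u * rho ≤ 8.1 * u * ((1 - 8 * u) * rho) := by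
      have h3 : 8 ≤ 8.1 * (1 - 8 * u) := by linarith
      have h4 : 0 ≤ u * rho := by positivity
      nlinarith
    linarith
  have n1 : ‖a / (t : ℂ) - a / (rho : ℂ)‖ ≤ 8.1 * u * ‖a / (rho : ℂ)‖ := by
    rw [e1, norm_mul, Complex.norm_real, Real.norm_eq_abs, mul_comm]
    gcongr
  have n2 : ‖a / (t : ℂ)‖ ≤ (1 + 8.1 * u) * ‖a / (rho : ℂ)‖ := by
    have : ‖a / (t : ℂ)‖ ≤ ‖a / (t : ℂ) - a / (rho : ℂ)‖ + ‖a / (rho : ℂ)‖ := by
      simpa using norm_add_le (a / (t : ℂ) - a / (rho : ℂ)) (a / (rho : ℂ))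
    linarith
  unfold Rel at hz
  have e2 : z - a / (rho : ℂ) = (z - a / (t : ℂ)) + (a / (t : ℂ) - a / (rho : ℂ)) := by ring
  rw [e2]
  refine (norm_add_le _ _).trans ?_
  have n3 : u * ‖a / (t : ℂ)‖ ≤ u * ((1 + 8.1 * u) * ‖a / (rho : ℂ)‖) := by gcongr
  have n4 : u * ((1 + 8.1 * u) * ‖a / (rho : ℂ)‖) ≤ 1.1 * u * ‖a / (rho : ℂ)‖ := by
    have h3 : (1 + 8.1 * u) ≤ 1.1 := by linarith
    have h4 : 0 ≤ u * ‖a / (rho : ℂ)‖ := by positivity
    nlinarith
  have n5 : 0 ≤ u * ‖a / (rho : ℂ)‖ := by positivity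
  nlinarith

theorem post_giv {ad : Adv} {u : ℝ} (hu : ad.Le u) {n : ℕ} (hn : 1 ≤ n) (hu1 : u ≤ 1 / 10000)
    {env : Env} {x : RMat n n} {y : RVec n} {X : Matrix (Fin n) (Fin n) ℂ} {Y : Fin n → ℂ}
    (hx : HasM env x X) (hy : HasV env y Y) (k : ℕ) (hk : k + 1 < n)
    (hz : ∀ i j : Fin n, (j : ℕ) < k → (j : ℕ) < i → X i j = 0)
    (hh : ∀ i j : Fin n, (j : ℕ) + 1 < i → X i j = 0)
    (hb : X ⟨k + 1, hk⟩ ⟨k, by omega⟩ ≠ 0) :
    Post ad (givP k hk (x, y)) env (fun S env' => ∃ (G X' : Matrix (Fin n) (Fin n) ℂ) (Y' : Fin n → ℂ)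
      (rho : ℝ), Uni G ∧ HasM env' S.1 X' ∧ HasV env' S.2 Y' ∧
      fro (X' - G * X) ≤ 100 * u * fro X ∧ nv (Y' - G *ᵥ Y) ≤ 100 * u * nv Y ∧
      (∀ i j : Fin n, (j : ℕ) < k + 1 → (j : ℕ) < i → X' i j = 0) ∧
      (∀ i j : Fin n, (j : ℕ) + 1 < i → X' i j = 0) ∧
      (∀ i j : Fin n, k + 1 < (i : ℕ) → X' i j = X i j) ∧
      (∀ i j : Fin n, (i : ℕ) < k → X' i j = X i j) ∧
      X' ⟨k, by omega⟩ ⟨k, by omega⟩ = (rho : ℂ) ∧
      ‖X ⟨k + 1, hk⟩ ⟨k, by omega⟩‖ / 2 ≤ rho) := by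
  have hu0 : 0 ≤ u := hu.nonneg
  set k0 : Fin n := ⟨k, by omega⟩ with hk0
  set k1 : Fin n := ⟨k + 1, hk⟩ with hk1
  have hne : k0 ≠ k1 := by
    rw [hk0, hk1, Ne, Fin.mk.injEq]
    omega
  set rho : ℝ := nv ![X k0 k0, X k1 k0] with hrho
  have hrho2 : rho ^ 2 = ‖X k0 k0‖ ^ 2 + ‖X k1 k0‖ ^ 2 := by
    rw [hrho, nv_sq, Fin.sum_univ_two]
    rfl
  have hrb : ‖X k1 k0‖ ≤ rho := by
    have := norm_le_nv ![X k0 k0, X k1 k0] 1
    exact this
  have hrpos : 0 < rho := lt_of_lt_of_le (norm_pos_iff.mpr hb) hrb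
  set al : ℂ := X k0 k0 / (rho : ℂ) with hal
  set be : ℂ := X k1 k0 / (rho : ℂ) with hbe
  have hrc : (rho : ℂ) ≠ 0 := by exact_mod_cast hrpos.ne'
  have hab : ‖al‖ ^ 2 + ‖be‖ ^ 2 = 1 := by
    rw [hal, hbe, norm_div, norm_div, Complex.norm_real, Real.norm_eq_abs, abs_of_pos hrpos,
      div_pow, div_pow, ← add_div, ← hrho2]
    field_simp
  unfold givP
  refine Post.bind (post_cst hu env 0 0) ?_
  rintro z env1 h1 ⟨Z, hz1, hZ⟩
  have hZ0 : Z = 0 := by
    unfold Rel at hZ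
    simpa using hZ
  subst hZ0
  have hnv : HasV env1 ![x k0 k0, x k1 k0] ![X k0 k0, X k1 k0] := by
    intro i
    fin_cases i
    · exact (hx k0 k0).mono h1
    · exact (hx k1 k0).mono h1
  refine Post.bind (post_norm hu (by norm_num) (by norm_num; linarith) hnv) ?_
  rintro rr env2 h2 ⟨t, ht1, ht2⟩
  have ht2' : |t - rho| ≤ 8 * u * rho := by
    refine ht2.trans (le_of_eq ?_)
    push_cast
    ring
  have htp : rho / 2 ≤ t := by
    have h3 := (abs_le.mp ht2').1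
    have h4 : 8 * u * rho ≤ 1 / 2 * rho := by
      have : 8 * u ≤ 1 / 2 := by linarith
      gcongr
    linarith
  have ht0 : 0 < t := by linarith
  have htc : (t : ℂ) ≠ 0 := by exact_mod_cast ht0.ne'
  have p12 := h1.trans h2
  refine Post.bind (post_div hu ((hx k0 k0).mono p12) ht1 htc) ?_
  rintro ar env3 h3 ⟨al', hal1, hal2⟩
  have hal3 := giv_quot_err hu0 hu1 hrpos ht2' hal2
  rw [← hal] at hal3
  have p13 := p12.trans h3
  refine Post.bind (post_div hu ((hx k1 k0).mono p13) (ht1.mono h3) htc) ?_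
  rintro br env4 h4 ⟨be', hbe1, hbe2⟩
  have hbe3 := giv_quot_err hu0 hu1 hrpos ht2' hbe2
  rw [← hbe] at hbe3
  have p14 := p13.trans h4
  refine Post.bind (post_conj (hal1.mono h4)) ?_
  rintro acr env5 h5 hac
  have p15 := p14.trans h5
  refine Post.bind (post_conj (hbe1.mono h5)) ?_
  rintro bcr env6 h6 hbc
  have p16 := p15.trans h6
  have hac3 : ‖(starRingEnd ℂ) al' - (starRingEnd ℂ) al‖ ≤ 10 * u * ‖(starRingEnd ℂ) al‖ := by
    rw [← map_sub, Complex.norm_conj, Complex.norm_conj]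
    exact hal3
  have hbc3 : ‖(starRingEnd ℂ) be' - (starRingEnd ℂ) be‖ ≤ 10 * u * ‖(starRingEnd ℂ) be‖ := by
    rw [← map_sub, Complex.norm_conj, Complex.norm_conj]
    exact hbe3
  have habc : ‖(starRingEnd ℂ) al‖ ^ 2 + ‖(starRingEnd ℂ) be‖ ^ 2 = 1 := by
    rw [Complex.norm_conj, Complex.norm_conj]
    exact hab
  -- the row `k`
  refine Post.bind (post_vecM n _ env6 (fun j r env' => ∃ w, Has env' r w ∧
    ‖w - ((starRingEnd ℂ) al * X k0 j + (starRingEnd ℂ) be * X k1 j)‖ ≤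
      13 * u * Real.sqrt (‖X k0 j‖ ^ 2 + ‖X k1 j‖ ^ 2)) ?_ ?_) ?_
  · rintro i b e1 e2 h12 ⟨w, hw1, hw2⟩
    exact ⟨w, hw1.mono h12, hw2⟩
  · intro j env' h'
    exact giv_post_comb hu hu1 (hac.mono (h6.trans h')) ((hx k0 j).mono (p16.trans h'))
      (hbc.mono h') ((hx k1 j).mono (p16.trans h')) hac3 hbc3 habc
  rintro r0 env7 h7 hr0
  choose R0 hR0 hR0' using hr0
  have p17 := p16.trans h7
  -- the row `k + 1`
  refine Post.bind (post_vecM n _ env7 (fun j r env' => ∃ w, Has env' r w ∧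
    ‖w - (al * X k1 j - be * X k0 j)‖ ≤
      13 * u * Real.sqrt (‖X k1 j‖ ^ 2 + ‖X k0 j‖ ^ 2)) ?_ ?_) ?_
  · rintro i b e1 e2 h12 ⟨w, hw1, hw2⟩
    exact ⟨w, hw1.mono h12, hw2⟩
  · intro j env' h'
    exact giv_post_combs hu hu1 (hal1.mono (((h4.trans h5).trans (h6.trans h7)).trans h'))
      ((hx k1 j).mono (p17.trans h')) (hbe1.mono ((h5.trans (h6.trans h7)).trans h'))
      ((hx k0 j).mono (p17.trans h')) hal3 hbe3 hab
  rintro r1 env8 h8 hr1
  choose R1 hR1 hR1' using hr1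
  have p18 := p17.trans h8
  refine Post.bind (giv_post_comb hu hu1 (hac.mono (h6.trans (h7.trans h8))) ((hy k0).mono p18)
      (hbc.mono (h7.trans h8)) ((hy k1).mono p18) hac3 hbc3 habc) ?_
  rintro y0 env9 h9 ⟨Y0, hY0, hY0'⟩
  have p19 := p18.trans h9
  refine Post.bind (giv_post_combs hu hu1 (hal1.mono ((h4.trans h5).trans ((h6.trans h7).trans (h8.trans h9))))
      ((hy k1).mono p19) (hbe1.mono ((h5.trans h6).trans (h7.trans (h8.trans h9))))
      ((hy k0).mono p19) hal3 hbe3 hab) ?_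
  rintro y1 env10 h10 ⟨Y1, hY1, hY1'⟩
  have p110 := p19.trans h10
  refine Post.pure ?_
  have q2 : env2 <+: env10 := h3.trans (h4.trans (h5.trans (h6.trans (h7.trans (h8.trans (h9.trans h10))))))
  obtain ⟨X', hX'⟩ : ∃ X' : Matrix (Fin n) (Fin n) ℂ, ∀ i j, X' i j =
      if (i : ℕ) = k then (if (j : ℕ) < k then X i j else if (j : ℕ) = k then (t : ℂ) else R0 j)
      else if (i : ℕ) = k + 1 then (if (j : ℕ) ≤ k then 0 else R1 j)
      else X i j := ⟨_, fun _ _ => rfl⟩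
  obtain ⟨Y', hY'⟩ : ∃ Y' : Fin n → ℂ, ∀ i, Y' i =
      if (i : ℕ) = k then Y0 else if (i : ℕ) = k + 1 then Y1 else Y i := ⟨_, fun _ => rfl⟩
  have e0 : (k0 : ℕ) = k := rfl
  have e1 : (k1 : ℕ) = k + 1 := rfl
  have e2 : ¬ (k + 1 = k) := by omega
  refine ⟨givM k0 k1 al be, X', Y', t,
    givM_uni hne hab, ?_, ?_, ?_, ?_, ?_, ?_, ?_, ?_, ?_, ?_⟩
  · intro i j
    rw [hX']
    dsimp only
    split_ifs with c1 c2 c3 c4 c5
    · exact (hx i j).mono p110
    · exact ht1.mono q2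
    · exact (hR0 j).mono (h8.trans (h9.trans h10))
    · exact hz1.mono (h2.trans q2)
    · exact (hR1 j).mono (h9.trans h10)
    · exact (hx i j).mono p110
  · intro i
    rw [hY']
    dsimp only
    split_ifs with c1 c2
    · exact hY0.mono h10
    · exact hY1
    · exact (hy i).mono p110
  · refine fro_le_of_cols (by positivity) (fun j => ?_)
    have hmul : ∀ i, (givM k0 k1 al be * X) i j = (givM k0 k1 al be *ᵥ (fun l => X l j)) i :=
      fun i => rfl
    refine giv_col_err hne hu0 ?_ ?_ ?_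
    · intro i hi0 hi1
      have hi0' : ¬ (i : ℕ) = k := fun h => hi0 (Fin.ext h)
      have hi1' : ¬ (i : ℕ) = k + 1 := fun h => hi1 (Fin.ext h)
      rw [Matrix.sub_apply, hmul, givM_mulVec hne, if_neg hi0, if_neg hi1, hX', if_neg hi0',
        if_neg hi1', sub_self]
    · rw [Matrix.sub_apply, hmul, givM_mulVec hne, if_pos rfl, hX', if_pos e0]
      split_ifs with c1 c2
      · have z0 : X k0 j = 0 := hz _ _ c1 (by rw [e0]; exact c1)
        have z1 : X k1 j = 0 := hz _ _ c1 (by rw [hk1]; show (j : ℕ) < k + 1; omega)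
        rw [z0, z1]
        simp
      · have hj : j = k0 := Fin.ext c2
        subst hj
        have e1 : star al * X k0 k0 + star be * X k1 k0 = (rho : ℂ) := by
          have a1 : X k0 k0 = al * rho := by rw [hal]; field_simp
          have a2 : X k1 k0 = be * rho := by rw [hbe]; field_simp
          have h1 : ∀ w : ℂ, star w * w = ((‖w‖ ^ 2 : ℝ) : ℂ) := by
            intro w
            rw [mul_comm]
            have := Complex.mul_conj w
            rw [Complex.normSq_eq_norm_sq] at this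
            exact this
          rw [a1, a2]
          calc star al * (al * rho) + star be * (be * rho)
              = (star al * al + star be * be) * rho := by ring
            _ = rho := by rw [h1, h1, ← Complex.ofReal_add, hab, Complex.ofReal_one, one_mul]
        rw [e1, ← hrho2, Real.sqrt_sq hrpos.le, ← Complex.ofReal_sub, Complex.norm_real,
          Real.norm_eq_abs]
        refine ht2'.trans ?_
        gcongr
        norm_num
      · exact hR0' j
    · rw [Matrix.sub_apply, hmul, givM_mulVec hne, if_neg (Ne.symm hne), if_pos rfl, hX', e1,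
        if_neg e2, if_pos rfl]
      have e3 : -be * X k0 j + al * X k1 j = al * X k1 j - be * X k0 j := by ring
      rw [e3]
      split_ifs with c1
      · have hzero : al * X k1 j - be * X k0 j = 0 := by
          rcases Nat.lt_or_ge (j : ℕ) k with hlt | hge
          · have z0 : X k0 j = 0 := hz _ _ hlt hlt
            have z1 : X k1 j = 0 := hz _ _ hlt (by rw [hk1]; show (j : ℕ) < k + 1; omega)
            rw [z0, z1]
            ring
          · have hj : j = k0 := Fin.ext (by show (j : ℕ) = k; omega)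
            subst hj
            rw [hal, hbe]
            ring
        rw [hzero]
        simp only [sub_self, norm_zero]
        positivity
      · have := hR1' j
        rwa [add_comm (‖X k1 j‖ ^ 2)] at this
  · refine giv_col_err hne hu0 ?_ ?_ ?_
    · intro i hi0 hi1
      have hi0' : ¬ (i : ℕ) = k := fun h => hi0 (Fin.ext h)
      have hi1' : ¬ (i : ℕ) = k + 1 := fun h => hi1 (Fin.ext h)
      rw [Pi.sub_apply, givM_mulVec hne, if_neg hi0, if_neg hi1, hY', if_neg hi0', if_neg hi1',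
        sub_self]
    · rw [Pi.sub_apply, givM_mulVec hne, if_pos rfl, hY', if_pos e0]
      exact hY0'
    · rw [Pi.sub_apply, givM_mulVec hne, if_neg (Ne.symm hne), if_pos rfl, hY', e1, if_neg e2,
        if_pos rfl]
      have e3 : -be * Y k0 + al * Y k1 = al * Y k1 - be * Y k0 := by ring
      rw [e3]
      rwa [add_comm (‖Y k1‖ ^ 2)] at hY1'
  · intro i j hj hji
    rw [hX']
    split_ifs with c1 c2 c3 c4 c5
    · exact hz i j c2 hji
    · omega
    · omega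
    · rfl
    · omega
    · rcases Nat.lt_or_ge (j : ℕ) k with hlt | hge
      · exact hz i j hlt hji
      · exact hh i j (by omega)
  · intro i j hji
    rw [hX']
    split_ifs with c1 c2 c3 c4 c5
    · exact hh i j hji
    · omega
    · omega
    · rfl
    · omega
    · exact hh i j hji
  · intro i j hi
    rw [hX', if_neg (by omega), if_neg (by omega)]
  · intro i j hi
    rw [hX', if_neg (by omega), if_neg (by omega)]
  · rw [hX', if_pos e0, e0, if_neg (lt_irrefl _), if_pos rfl]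
  · linarith

end H6LP

end S_GIV

section S_QR

set_option autoImplicit false

open Complex Matrix

namespace H6LP

/-- the invariant of the factorization -/
structure QrInv {n : ℕ} (u : ℝ) (X : Matrix (Fin n) (Fin n) ℂ) (Y : Fin n → ℂ) (k : ℕ)
    (R : Matrix (Fin n) (Fin n) ℂ) (Y' : Fin n → ℂ) : Prop where
  ex : ∃ (Q E : Matrix (Fin n) (Fin n) ℂ) (f : Fin n → ℂ), Uni Q ∧ R = Q * (X + E) ∧
    Y' = Q *ᵥ (Y + f) ∧ fro E ≤ ((1 + 100 * u) ^ k - 1) * fro X ∧
    nv f ≤ ((1 + 100 * u) ^ k - 1) * nv Y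
  tri : ∀ i j : Fin n, (j : ℕ) < k → (j : ℕ) < i → R i j = 0
  hess : ∀ i j : Fin n, (j : ℕ) + 1 < i → R i j = 0
  row : ∀ i j : Fin n, k < (i : ℕ) → R i j = X i j
  dia : ∀ l (hl : l + 1 < n), l < k → R ⟨l, by omega⟩ ⟨l, by omega⟩ ≠ 0

theorem qr_growth {A v F e d : ℝ} (hv : 0 ≤ v) (he : e ≤ (A - 1) * F)
    (hd : d ≤ v * (F + e)) : e + d ≤ (A * (1 + v) - 1) * F := by
  nlinarith [mul_le_mul_of_nonneg_left he hv]

theorem qr_step {n : ℕ} {u : ℝ} (hu : 0 ≤ u) {X : Matrix (Fin n) (Fin n) ℂ} {Y : Fin n → ℂ} {k : ℕ}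
    {R : Matrix (Fin n) (Fin n) ℂ} {Y' : Fin n → ℂ} (h : QrInv u X Y k R Y')
    {G R' : Matrix (Fin n) (Fin n) ℂ} {Y'' : Fin n → ℂ} (hG : Uni G)
    (h1 : fro (R' - G * R) ≤ 100 * u * fro R) (h2 : nv (Y'' - G *ᵥ Y') ≤ 100 * u * nv Y') :
    ∃ (Q E : Matrix (Fin n) (Fin n) ℂ) (f : Fin n → ℂ), Uni Q ∧ R' = Q * (X + E) ∧
    Y'' = Q *ᵥ (Y + f) ∧ fro E ≤ ((1 + 100 * u) ^ (k + 1) - 1) * fro X ∧
    nv f ≤ ((1 + 100 * u) ^ (k + 1) - 1) * nv Y := by
  obtain ⟨Q, E, f, hQ, hR, hY, hE, hf⟩ := h.ex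
  have hGQ : Uni (G * Q) := hG.mul hQ
  have hinv : (G * Q) * (G * Q)ᴴ = 1 := hGQ.mul_conjTranspose
  refine ⟨G * Q, E + (G * Q)ᴴ * (R' - G * R), f + (G * Q)ᴴ *ᵥ (Y'' - G *ᵥ Y'), hGQ, ?_, ?_, ?_, ?_⟩
  · rw [← add_assoc, Matrix.mul_add, ← Matrix.mul_assoc (G * Q) ((G * Q)ᴴ), hinv, Matrix.one_mul,
      Matrix.mul_assoc G Q, ← hR]
    abel
  · rw [← add_assoc, Matrix.mulVec_add, Matrix.mulVec_mulVec, hinv, Matrix.one_mulVec,
      ← Matrix.mulVec_mulVec, ← hY]
    abel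
  · have e1 : fro ((G * Q)ᴴ * (R' - G * R)) ≤ 100 * u * (fro X + fro E) := by
      rw [hGQ.conjTranspose.fro_mul]
      refine h1.trans ?_
      rw [hR, hQ.fro_mul]
      gcongr
      exact fro_add_le _ _
    have e2 := qr_growth (v := 100 * u) (by positivity) hE e1
    rw [pow_succ]
    exact (fro_add_le _ _).trans e2
  · have e1 : nv ((G * Q)ᴴ *ᵥ (Y'' - G *ᵥ Y')) ≤ 100 * u * (nv Y + nv f) := by
      rw [hGQ.conjTranspose.nv_mulVec]
      refine h2.trans ?_
      rw [hY, hQ.nv_mulVec]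
      gcongr
      exact nv_add_le _ _
    have e2 := qr_growth (v := 100 * u) (by positivity) hf e1
    rw [pow_succ]
    exact (nv_add_le _ _).trans e2

theorem post_qr {ad : Adv} {u : ℝ} (hu : ad.Le u) {n : ℕ} (hn : 1 ≤ n) (hnu : n * u ≤ 1 / 10000)
    {env : Env} {x : RMat n n} {y : RVec n} {X : Matrix (Fin n) (Fin n) ℂ} {Y : Fin n → ℂ}
    (hx : HasM env x X) (hy : HasV env y Y) (hh : Hess X)
    (hb : ∀ k (hk : k + 1 < n), X ⟨k + 1, hk⟩ ⟨k, by omega⟩ ≠ 0) :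
    Post ad (qrP (x, y)) env (fun S env' => ∃ (Q E R : Matrix (Fin n) (Fin n) ℂ) (f Y' : Fin n → ℂ),
      Uni Q ∧ HasM env' S.1 R ∧ HasV env' S.2 Y' ∧ R = Q * (X + E) ∧ Y' = Q *ᵥ (Y + f) ∧
      fro E ≤ 200 * n * u * fro X ∧ nv f ≤ 200 * n * u * nv Y ∧ UT R ∧
      (∀ k (hk : k + 1 < n), R ⟨k, by omega⟩ ⟨k, by omega⟩ ≠ 0)) := by
  have hu0 : 0 ≤ u := hu.nonneg
  have hn1 : (1 : ℝ) ≤ n := by exact_mod_cast hn
  have hu1 : u ≤ 1 / 10000 := by
    refine le_trans ?_ hnu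
    nlinarith
  unfold qrP
  refine (post_iterP (n - 1) _ (x, y) env (fun k S env' => ∃ R Y', HasM env' S.1 R ∧
    HasV env' S.2 Y' ∧ QrInv u X Y k R Y') ?_ ?_).weaken ?_
  · refine ⟨X, Y, hx, hy, ⟨⟨1, 0, 0, Uni.one, ?_, ?_, ?_, ?_⟩, ?_, hh, ?_, ?_⟩⟩
    · rw [add_zero, Matrix.one_mul]
    · rw [add_zero, Matrix.one_mulVec]
    · rw [fro_zero]
      simp
    · rw [nv_zero]
      simp
    · intro i j hj
      omega
    · intro i j _
      rfl
    · intro l _ hl
      omega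
  · rintro k hk ⟨s1, s2⟩ env1 h1 ⟨R, Y', hR, hY', hinv⟩
    have hk' : k + 1 < n := by omega
    rw [dif_pos hk']
    have hsub : R ⟨k + 1, hk'⟩ ⟨k, by omega⟩ ≠ 0 := by
      rw [hinv.row _ _ (by show k < k + 1; omega)]
      exact hb k hk'
    refine (post_giv hu hn hu1 hR hY' k hk' hinv.tri hinv.hess hsub).weaken ?_
    rintro ⟨t1, t2⟩ env2 h2 ⟨G, R', Y'', rho, hG, hR', hY'', hfro, hnv, htri, hhess, hrow, hrow', hrho, hle⟩
    refine ⟨R', Y'', hR', hY'', ⟨qr_step hu0 hinv hG hfro hnv, htri, hhess, ?_, ?_⟩⟩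
    · intro i j hi
      rw [hrow i j hi, hinv.row i j (by omega)]
    · intro l hl hlk
      rcases Nat.lt_or_ge l k with hlt | hge
      · rw [hrow' _ _ hlt]
        exact hinv.dia l hl hlt
      · have : l = k := by omega
        subst this
        rw [hrho]
        have hpos := norm_pos_iff.mpr hsub
        have : 0 < rho := by linarith
        exact_mod_cast this.ne'
  · rintro ⟨t1, t2⟩ env2 h2 ⟨R, Y', hR, hY', hinv⟩
    obtain ⟨Q, E, f, hQ, hRQ, hYQ, hE, hf⟩ := hinv.ex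
    have hgr : (1 + 100 * u) ^ (n - 1) - 1 ≤ 200 * n * u := by
      have h3 : ((n - 1 : ℕ) : ℝ) ≤ n := by exact_mod_cast Nat.sub_le _ _
      have h4 : ((n - 1 : ℕ) : ℝ) * (100 * u) ≤ n * (100 * u) := by gcongr
      have h5 := one_add_pow_sub_one_le (u := 100 * u) (by positivity) (k := n - 1) (by linarith)
      refine h5.trans ?_
      linarith
    refine ⟨Q, E, R, f, Y', hQ, hR, hY', hRQ, hYQ, ?_, ?_, ?_, ?_⟩
    · exact hE.trans (mul_le_mul_of_nonneg_right hgr (fro_nonneg _))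
    · exact hf.trans (mul_le_mul_of_nonneg_right hgr (nv_nonneg _))
    · intro i j hji
      exact hinv.tri i j (by omega) hji
    · intro k hk
      exact hinv.dia k hk (by omega)

end H6LP

end S_QR

section S_DET

set_option autoImplicit false

open Complex Matrix

namespace H6LP

/-- the shifted matrix -/
theorem post_shift {ad : Adv} {u : ℝ} (hu : ad.Le u) {n : ℕ} {env : Env} {x : RMat n n} {z : ℕ}
    {X : Matrix (Fin n) (Fin n) ℂ} {Z : ℂ} (hx : HasM env x X) (hz : Has env z Z) :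
    Post ad (shiftP x z) env (fun t env' => ∃ T : Matrix (Fin n) (Fin n) ℂ, HasM env' t T ∧
      fro (T - (X - Z • (1 : Matrix (Fin n) (Fin n) ℂ))) ≤ u * fro (X - Z • (1 : Matrix (Fin n) (Fin n) ℂ)) ∧
      (∀ i j, i ≠ j → T i j = X i j)) := by
  unfold shiftP
  refine Post.bind (post_vecM n _ env (fun i (r : ℕ) env' => ∃ d, Has env' r d ∧ Rel u (X i i - Z) d)
    ?_ ?_) ?_
  · rintro i b env1 env2 h12 ⟨d, hd, hr⟩
    exact ⟨d, hd.mono h12, hr⟩
  · intro i env' h'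
    exact post_sub hu ((hx i i).mono h') (hz.mono h')
  · intro d env' h' hd
    choose v hv hr using hd
    refine Post.pure ?_
    refine ⟨fun i j => if i = j then v i else X i j, ?_, ?_, ?_⟩
    · intro i j
      by_cases hij : i = j
      · simp only [if_pos hij]
        exact hv i
      · simp only [if_neg hij]
        exact (hx i j).mono h'
    · refine fro_le_of_entries hu.nonneg ?_
      intro i j
      by_cases hij : i = j
      · subst hij
        have h1 := hr i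
        unfold Rel at h1
        simpa [Matrix.sub_apply, Matrix.smul_apply] using h1
      · simp only [Matrix.sub_apply, Matrix.smul_apply, if_neg hij, Matrix.one_apply_ne hij,
          smul_zero, sub_zero, sub_self, norm_zero]
        exact mul_nonneg hu.nonneg (norm_nonneg _)
    · intro i j hij
      simp only [if_neg hij]

/-- the diagonal products -/
noncomputable def DET_pr {n : ℕ} (R : Matrix (Fin n) (Fin n) ℂ) (k : ℕ) : ℝ :=
  ∏ i ∈ Finset.range k, (if h : i < n then ‖R ⟨i, h⟩ ⟨i, h⟩‖ else 1)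

theorem DET_pr_succ {n : ℕ} (R : Matrix (Fin n) (Fin n) ℂ) (k : Fin n) :
    DET_pr R (k + 1) = DET_pr R k * ‖R k k‖ := by
  unfold DET_pr
  rw [Finset.prod_range_succ, dif_pos k.2]

theorem DET_pr_nonneg {n : ℕ} (R : Matrix (Fin n) (Fin n) ℂ) (k : ℕ) : 0 ≤ DET_pr R k := by
  refine Finset.prod_nonneg fun i _ => ?_
  split_ifs
  · exact norm_nonneg _
  · exact zero_le_one

theorem DET_pr_eq {n : ℕ} (R : Matrix (Fin n) (Fin n) ℂ) : DET_pr R n = ∏ i, ‖R i i‖ := by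
  unfold DET_pr
  rw [← Fin.prod_univ_eq_prod_range (fun i => if h : i < n then ‖R ⟨i, h⟩ ⟨i, h⟩‖ else 1) n]
  refine Finset.prod_congr rfl fun i _ => ?_
  rw [dif_pos i.2]

theorem DET_nv1 (r : ℂ) : nv ![r] = ‖r‖ := by
  unfold nv
  simp [Real.sqrt_sq (norm_nonneg r)]

/-- one multiplication step -/
theorem DET_step {a t a' P r u δ : ℝ} (hu : 0 ≤ u) (hu1 : u ≤ 1 / 4) (hP : 0 ≤ P) (hr : 0 ≤ r)
    (hδ : 0 ≤ δ) (ha : |a - P| ≤ δ * P) (ht : |t - r| ≤ 4 * u * r) (ha' : |a' - a * t| ≤ u * |a * t|) :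
    |a' - P * r| ≤ ((1 + δ) * (1 + 6 * u) - 1) * (P * r) := by
  have hPr : 0 ≤ P * r := mul_nonneg hP hr
  have h1 : |a * t - P * r| ≤ ((1 + δ) * (1 + 4 * u) - 1) * (P * r) := by
    have e1 : a * t - P * r = (a - P) * (t - r) + (a - P) * r + P * (t - r) := by ring
    have h2 : |(a - P) * (t - r)| ≤ δ * P * (4 * u * r) := by
      rw [abs_mul]
      exact mul_le_mul ha ht (abs_nonneg _) (mul_nonneg hδ hP)
    have h3 : |(a - P) * r| ≤ δ * P * r := by
      rw [abs_mul, abs_of_nonneg hr]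
      exact mul_le_mul_of_nonneg_right ha hr
    have h4 : |P * (t - r)| ≤ P * (4 * u * r) := by
      rw [abs_mul, abs_of_nonneg hP]
      exact mul_le_mul_of_nonneg_left ht hP
    rw [e1]
    refine (abs_add_three _ _ _).trans ?_
    nlinarith
  have h2 : |a * t| ≤ (1 + δ) * (1 + 4 * u) * (P * r) := by
    have e1 : a * t = (a * t - P * r) + P * r := by ring
    rw [e1]
    refine (abs_add_le _ _).trans ?_
    rw [abs_of_nonneg hPr]
    linarith
  have h3 : |a' - P * r| ≤ u * |a * t| + |a * t - P * r| := by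
    have e1 : a' - P * r = (a' - a * t) + (a * t - P * r) := by ring
    rw [e1]
    exact (abs_add_le _ _).trans (add_le_add_left ha' _)
  have h4 : u * |a * t| ≤ u * ((1 + δ) * (1 + 4 * u) * (P * r)) := mul_le_mul_of_nonneg_left h2 hu
  have h5 : (1 + δ) * ((1 + 4 * u) * (1 + u)) * (P * r) ≤ (1 + δ) * (1 + 6 * u) * (P * r) := by
    refine mul_le_mul_of_nonneg_right (mul_le_mul_of_nonneg_left ?_ (by linarith)) hPr
    nlinarith
  nlinarith

theorem DET_loop {ad : Adv} {u : ℝ} (hu : ad.Le u) (hu1 : u ≤ 1 / 100) {n : ℕ}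
    {env : Env} {s : RMat n n} {R : Matrix (Fin n) (Fin n) ℂ} (hs : HasM env s R) {one : ℕ} {a0 : ℝ}
    (h1 : Has env one (a0 : ℂ)) (ha0 : |a0 - 1| ≤ u) :
    Post ad (iterF n (fun i acc => do
      let a ← normP ![s i i]
      fmulP acc a) one) env (fun r env' => ∃ d : ℝ, Has env' r (d : ℂ) ∧
        |d - ∏ i, ‖R i i‖| ≤ ((1 + 6 * u) ^ (n + 1) - 1) * ∏ i, ‖R i i‖) := by
  have hu0 := hu.nonneg
  have h := post_iterF (ad := ad) n (fun i acc => do
      let a ← normP ![s i i]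
      fmulP acc a) one env (fun k acc env' => ∃ d : ℝ, Has env' acc (d : ℂ) ∧
        |d - DET_pr R k| ≤ ((1 + 6 * u) ^ (k + 1) - 1) * DET_pr R k) ?_ ?_
  · refine h.weaken ?_
    rintro r env' _ ⟨d, hd, hd'⟩
    refine ⟨d, hd, ?_⟩
    rw [DET_pr_eq] at hd'
    exact hd'
  · refine ⟨a0, h1, ?_⟩
    have : DET_pr R 0 = 1 := by simp [DET_pr]
    rw [this]
    refine ha0.trans ?_
    rw [zero_add, pow_one]
    linarith
  · rintro k acc env1 hpre ⟨d, hd, hd'⟩
    have hv : HasV env1 ![s k k] ![R k k] := by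
      intro i
      have : i = 0 := Subsingleton.elim _ _
      subst this
      exact (hs k k).mono hpre
    refine Post.bind (post_norm hu (le_refl 1) (by simpa using hu1) hv) ?_
    rintro t env2 hpre2 ⟨tt, htt, htt'⟩
    refine (post_fmul hu (hd.mono hpre2) htt).weaken ?_
    rintro r env3 hpre3 ⟨a', ha', ha''⟩
    refine ⟨a', ha', ?_⟩
    rw [DET_nv1] at htt'
    rw [DET_pr_succ]
    have hδ : 0 ≤ (1 + 6 * u) ^ ((k : ℕ) + 1) - 1 := by
      have := one_le_pow₀ (n := (k : ℕ) + 1) (show (1 : ℝ) ≤ 1 + 6 * u by linarith)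
      linarith
    have h2 := DET_step hu0 (by linarith) (DET_pr_nonneg R k) (norm_nonneg (R k k)) hδ hd'
      (by push_cast at htt'; linarith) ha''
    refine h2.trans (le_of_eq ?_)
    ring

theorem DET_UT_det {n : ℕ} {R : Matrix (Fin n) (Fin n) ℂ} (h : UT R) : R.det = ∏ i, R i i := by
  refine Matrix.det_of_upperTriangular ?_
  intro i j hij
  exact h i j hij

theorem post_det {ad : Adv} {u : ℝ} (hu : ad.Le u) {n : ℕ} (hn : 1 ≤ n)
    {env : Env} {x : RMat n n} {z : ℕ} {X : Matrix (Fin n) (Fin n) ℂ} {Z ζ : ℂ} {t : ℝ}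
    (hx : HasM env x X) (hz : Has env z Z) (hh : Hess X)
    (hb : ∀ k (hk : k + 1 < n), X ⟨k + 1, hk⟩ ⟨k, by omega⟩ ≠ 0)
    (ht : 0 < t) (ht1 : t ≤ 1) (hcol : ColAt X ζ t) (hζ : 10 ^ 4 * n ^ 2 * ‖Z - ζ‖ ≤ t)
    (hnu : 10 ^ 6 * n ^ 3 * u * (fro X + ‖ζ‖ + 1) ≤ t) :
    Post ad (detP x z) env (fun r env' => ∃ d : ℝ, Has env' r (d : ℂ) ∧
      0 < ‖(ζ • (1 : Matrix (Fin n) (Fin n) ℂ) - X).det‖ ∧
      |d - ‖(ζ • (1 : Matrix (Fin n) (Fin n) ℂ) - X).det‖| ≤
        0.005 * ‖(ζ • (1 : Matrix (Fin n) (Fin n) ℂ) - X).det‖) := by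
  have hu0 := hu.nonneg
  have hn1 : (1 : ℝ) ≤ n := by exact_mod_cast hn
  set F : ℝ := fro X + ‖ζ‖ + 1 with hF
  have hF1 : 1 ≤ F := by
    have h1 := fro_nonneg X
    have h2 := norm_nonneg ζ
    rw [hF]
    linarith
  -- consequences of hnu
  have hn3 : (n : ℝ) ≤ (n : ℝ) ^ 3 := by
    have : (n : ℝ) ^ 1 ≤ (n : ℝ) ^ 3 := pow_le_pow_right₀ hn1 (by norm_num)
    simpa using this
  have hn2 : (n : ℝ) ≤ (n : ℝ) ^ 2 := by
    have : (n : ℝ) ^ 1 ≤ (n : ℝ) ^ 2 := pow_le_pow_right₀ hn1 (by norm_num)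
    simpa using this
  have hnu3 : 10 ^ 6 * (n : ℝ) ^ 3 * u ≤ 1 := by
    have h1 : 10 ^ 6 * (n : ℝ) ^ 3 * u * 1 ≤ 10 ^ 6 * (n : ℝ) ^ 3 * u * F :=
      mul_le_mul_of_nonneg_left hF1 (by positivity)
    linarith
  have hnu1 : (n : ℝ) * u ≤ 1 / 10 ^ 6 := by
    have h1 : (n : ℝ) * u ≤ (n : ℝ) ^ 3 * u := mul_le_mul_of_nonneg_right hn3 hu0
    have h2 : (n : ℝ) ^ 3 * u ≤ 1 / 10 ^ 6 := by
      rw [le_div_iff₀ (by norm_num)]
      linarith
    exact h1.trans h2
  have hu1 : u ≤ 1 / 10 ^ 6 := by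
    have : 1 * u ≤ n * u := mul_le_mul_of_nonneg_right hn1 hu0
    linarith
  unfold detP
  refine Post.bind (post_shift hu hx hz) ?_
  rintro tt env1 hp1 ⟨T, hT, hT1, hT2⟩
  refine Post.bind (post_cst hu env1 0 0) ?_
  rintro zz env2 hp2 ⟨z0, hz0, hz0'⟩
  have hTh : Hess T := by
    intro i j hij
    rw [hT2 i j (by rintro rfl; omega)]
    exact hh i j hij
  have hTb : ∀ k (hk : k + 1 < n), T ⟨k + 1, hk⟩ ⟨k, by omega⟩ ≠ 0 := by
    intro k hk
    rw [hT2 _ _ (by intro h; have := congrArg Fin.val h; simp at this)]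
    exact hb k hk
  refine Post.bind (post_qr hu hn (by linarith) (hT.mono hp2) (y := fun _ => zz)
    (Y := fun _ => z0) (fun _ => hz0) hTh hTb) ?_
  rintro S env3 hp3 ⟨Q, E, R, f, Y', hQ, hS1, hS2, hR, hY', hE, hf, hUT, hne⟩
  refine Post.bind (post_cst hu env3 1 0) ?_
  rintro o env4 hp4 ⟨o0, ho0, ho0'⟩
  refine Post.bind (post_re ho0) ?_
  rintro one env5 hp5 hone
  have ho1 : |o0.re - 1| ≤ u := by
    unfold Rel at ho0'
    have h1 : ‖o0 - 1‖ ≤ u := by simpa using ho0'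
    have h2 := Complex.abs_re_le_norm (o0 - 1)
    simp only [Complex.sub_re, Complex.one_re] at h2
    exact h2.trans h1
  refine (DET_loop hu (by linarith) ((hS1.mono hp4).mono hp5) hone ho1).weaken ?_
  rintro r env6 hp6 ⟨d, hd, hd'⟩
  refine ⟨d, hd, ?_⟩
  -- the product of the diagonal entries
  set E' : Matrix (Fin n) (Fin n) ℂ :=
    (Z - ζ) • (1 : Matrix (Fin n) (Fin n) ℂ) - (T - (X - Z • (1 : Matrix (Fin n) (Fin n) ℂ))) - E
    with hE'
  have hprod : ∏ i, ‖R i i‖ = ‖((ζ • (1 : Matrix (Fin n) (Fin n) ℂ) - X) + E').det‖ := by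
    have h1 : ∏ i, ‖R i i‖ = ‖R.det‖ := by rw [DET_UT_det hUT, norm_prod]
    have h2 : T + E = -((ζ • (1 : Matrix (Fin n) (Fin n) ℂ) - X) + E') := by
      rw [hE', sub_smul]
      abel
    rw [h1, hR, Matrix.det_mul, norm_mul, hQ.norm_det, one_mul, h2, Matrix.det_neg, norm_mul]
    simp
  have hXZ : fro (X - Z • (1 : Matrix (Fin n) (Fin n) ℂ)) ≤ n * F := by
    have h1 := fro_sub_le X (Z • (1 : Matrix (Fin n) (Fin n) ℂ))
    rw [fro_smul_one] at h1
    have h2 : ‖Z‖ ≤ ‖ζ‖ + ‖Z - ζ‖ := by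
      have e1 : Z = ζ + (Z - ζ) := by ring
      calc ‖Z‖ = ‖ζ + (Z - ζ)‖ := by rw [← e1]
        _ ≤ _ := norm_add_le _ _
    have h3 : ‖Z - ζ‖ ≤ 1 := by
      have h4 : (1 : ℝ) * ‖Z - ζ‖ ≤ 10 ^ 4 * n ^ 2 * ‖Z - ζ‖ := by
        refine mul_le_mul_of_nonneg_right ?_ (norm_nonneg _)
        nlinarith
      linarith
    have h4 : Real.sqrt n ≤ n := by
      rw [Real.sqrt_le_left (by linarith)]
      exact hn2
    have h5 : ‖Z‖ * Real.sqrt n ≤ (‖ζ‖ + 1) * n :=
      mul_le_mul (by linarith) h4 (Real.sqrt_nonneg _) (by positivity)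
    have h6 : fro X ≤ fro X * n := le_mul_of_one_le_right (fro_nonneg X) hn1
    calc fro (X - Z • (1 : Matrix (Fin n) (Fin n) ℂ)) ≤ fro X * n + (‖ζ‖ + 1) * n := by linarith
      _ = n * F := by rw [hF]; ring
  have hTf : fro T ≤ 2 * (n * F) := by
    have e1 : T = (T - (X - Z • (1 : Matrix (Fin n) (Fin n) ℂ))) +
      (X - Z • (1 : Matrix (Fin n) (Fin n) ℂ)) := by abel
    have h1 : fro T ≤ fro (T - (X - Z • (1 : Matrix (Fin n) (Fin n) ℂ))) +
        fro (X - Z • (1 : Matrix (Fin n) (Fin n) ℂ)) := by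
      conv_lhs => rw [e1]
      exact fro_add_le _ _
    have h2 : u * fro (X - Z • (1 : Matrix (Fin n) (Fin n) ℂ)) ≤
        1 * fro (X - Z • (1 : Matrix (Fin n) (Fin n) ℂ)) :=
      mul_le_mul_of_nonneg_right (by linarith) (fro_nonneg _)
    linarith
  have hE'f : 300 * n * fro E' ≤ t := by
    have h1 : fro E' ≤ fro ((Z - ζ) • (1 : Matrix (Fin n) (Fin n) ℂ)) +
        fro (T - (X - Z • (1 : Matrix (Fin n) (Fin n) ℂ))) + fro E := by
      rw [hE']
      exact (fro_sub_le _ _).trans (add_le_add_left (fro_sub_le _ _) _)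
    rw [fro_smul_one] at h1
    have h4 : Real.sqrt n ≤ n := by
      rw [Real.sqrt_le_left (by linarith)]
      exact hn2
    have h2 : ‖Z - ζ‖ * Real.sqrt n ≤ ‖Z - ζ‖ * n := mul_le_mul_of_nonneg_left h4 (norm_nonneg _)
    have h3 : u * fro (X - Z • (1 : Matrix (Fin n) (Fin n) ℂ)) ≤ u * (n * F) :=
      mul_le_mul_of_nonneg_left hXZ hu0
    have h5 : 200 * n * u * fro T ≤ 200 * n * u * (2 * (n * F)) :=
      mul_le_mul_of_nonneg_left hTf (by positivity)
    have h6 : fro E' ≤ ‖Z - ζ‖ * n + u * (n * F) + 200 * n * u * (2 * (n * F)) := by linarith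
    have h7 : 300 * n * fro E' ≤
        300 * n * (‖Z - ζ‖ * n + u * (n * F) + 200 * n * u * (2 * (n * F))) :=
      mul_le_mul_of_nonneg_left h6 (by positivity)
    have h8 : (n : ℝ) * (u * (n * F)) ≤ n ^ 3 * u * F := by
      have h9 : (n : ℝ) ^ 2 * (u * F) ≤ n ^ 3 * (u * F) :=
        mul_le_mul_of_nonneg_right (pow_le_pow_right₀ hn1 (by norm_num)) (by positivity)
      nlinarith
    have h9 : 300 * n * (‖Z - ζ‖ * n + u * (n * F) + 200 * n * u * (2 * (n * F))) =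
        300 * ((n : ℝ) ^ 2 * ‖Z - ζ‖) + 300 * (n * (u * (n * F))) + 120000 * (n ^ 3 * u * F) := by
      ring
    have h10 : (n : ℝ) ^ 2 * ‖Z - ζ‖ ≤ t / 10 ^ 4 := by
      rw [le_div_iff₀ (by norm_num)]
      linarith
    have h11 : (n : ℝ) ^ 3 * u * F ≤ t / 10 ^ 6 := by
      rw [le_div_iff₀ (by norm_num)]
      linarith
    linarith
  obtain ⟨hdet0, hdet1⟩ := norm_det_add_bound hn ht hcol hE'f
  rw [hprod] at hd'
  set D : ℝ := ‖(ζ • (1 : Matrix (Fin n) (Fin n) ℂ) - X).det‖ with hD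
  set P : ℝ := ‖((ζ • (1 : Matrix (Fin n) (Fin n) ℂ) - X) + E').det‖ with hP
  have hDpos : 0 < D := norm_pos_iff.2 hdet0
  refine ⟨hDpos, ?_⟩
  have hP0 : 0 ≤ P := norm_nonneg _
  have hpow : (1 + 6 * u) ^ (n + 1) - 1 ≤ 24 * (1 / 10 ^ 6) := by
    have h1 := one_add_pow_sub_one_le (u := 6 * u) (by linarith) (k := n + 1) (by
      push_cast
      nlinarith)
    push_cast at h1
    nlinarith
  have h1 : |d - P| ≤ 24 * (1 / 10 ^ 6) * P := hd'.trans (mul_le_mul_of_nonneg_right hpow hP0)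
  have h2 : P ≤ 1.004 * D := by
    have := (abs_le.1 hdet1).2
    linarith
  have h3 : |d - D| ≤ |d - P| + |P - D| := abs_sub_le _ _ _
  linarith

end H6LP

end S_DET

section S_BACK

set_option autoImplicit false

open Complex Matrix

namespace H6LP

/-- the error of one row -/
theorem BACK_row {u : ℝ} (hu0 : 0 ≤ u) (hu1 : u ≤ 1 / 1000) {y e w : ℂ}
    (he : Rel u y e) (hw : Rel u e w) : ‖w - y‖ ≤ 3 * u * ‖w‖ := by
  unfold Rel at he hw
  have h1 : ‖y‖ ≤ ‖e‖ + u * ‖y‖ := by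
    have : y = e - (e - y) := by ring
    calc ‖y‖ = ‖e - (e - y)‖ := by rw [← this]
      _ ≤ ‖e‖ + ‖e - y‖ := norm_sub_le _ _
      _ ≤ _ := by linarith
  have h2 : ‖e‖ ≤ ‖w‖ + u * ‖e‖ := by
    have : e = w - (w - e) := by ring
    calc ‖e‖ = ‖w - (w - e)‖ := by rw [← this]
      _ ≤ ‖w‖ + ‖w - e‖ := norm_sub_le _ _
      _ ≤ _ := by linarith
  have hy := norm_nonneg y
  have he0 := norm_nonneg e
  have hw0 := norm_nonneg w
  have h3 : ‖e‖ ≤ (1001 / 1000 + 1 / 100000) * ‖w‖ := by nlinarith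
  have h4 : ‖y‖ ≤ (1001 / 1000 + 1 / 100000) * ‖e‖ := by nlinarith
  have h5 : ‖y‖ ≤ 3 / 2 * ‖w‖ := by nlinarith
  have h6 : ‖e‖ ≤ 3 / 2 * ‖w‖ := by nlinarith
  have h7 : w - y = (w - e) + (e - y) := by ring
  rw [h7]
  refine (norm_add_le _ _).trans ?_
  nlinarith [mul_le_mul_of_nonneg_left h5 hu0, mul_le_mul_of_nonneg_left h6 hu0]

/-- the invariant -/
def BInv {n : ℕ} (u : ℝ) (R : Matrix (Fin n) (Fin n) ℂ) (Y : Fin n → ℂ) (k : ℕ) (x : RVec n)
    (env : Env) : Prop :=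
  ∃ X : Fin n → ℂ, HasV env x X ∧ (∀ j : Fin n, (j : ℕ) + k < n → X j = 0) ∧
    ∀ i : Fin n, n ≤ (i : ℕ) + k →
      ‖∑ j, R i j * X j - Y i‖ ≤ 4 * n * u * ∑ j, ‖R i j‖ * ‖X j‖ + 3 * u * (‖R i i‖ * ‖X i‖)

theorem BACK_fin {n : ℕ} (hn : 1 ≤ n) {u : ℝ} (hu0 : 0 ≤ u) {R : Matrix (Fin n) (Fin n) ℂ}
    {Y X : Fin n → ℂ}
    (h : ∀ i : Fin n, ‖∑ j, R i j * X j - Y i‖ ≤
      4 * n * u * ∑ j, ‖R i j‖ * ‖X j‖ + 3 * u * (‖R i i‖ * ‖X i‖)) :
    nv (R *ᵥ X - Y) ≤ 10 * n * u * fro R * nv X := by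
  have hn1 : (1 : ℝ) ≤ n := by exact_mod_cast hn
  have hX := nv_nonneg X
  have hrow : ∀ i, ‖(R *ᵥ X - Y) i‖ ≤ 10 * n * u * nv X * nv (R i) := by
    intro i
    have h1 := h i
    have h2 : ∑ j, ‖R i j‖ * ‖X j‖ ≤ nv (R i) * nv X := sum_norm_mul_le (R i) X
    have h3 : ‖R i i‖ * ‖X i‖ ≤ nv (R i) * nv X :=
      mul_le_mul (norm_le_nv (R i) i) (norm_le_nv X i) (norm_nonneg _) (nv_nonneg _)
    have h4 : (R *ᵥ X - Y) i = ∑ j, R i j * X j - Y i := by
      simp [Matrix.mulVec, dotProduct]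
    rw [h4]
    refine h1.trans ?_
    have h5 : 0 ≤ nv (R i) * nv X := mul_nonneg (nv_nonneg _) hX
    have h6 : 4 * n * u * ∑ j, ‖R i j‖ * ‖X j‖ ≤ 4 * n * u * (nv (R i) * nv X) :=
      mul_le_mul_of_nonneg_left h2 (by positivity)
    have h7 : 3 * u * (‖R i i‖ * ‖X i‖) ≤ 3 * n * u * (nv (R i) * nv X) := by
      refine mul_le_mul ?_ h3 (by positivity) (by positivity)
      nlinarith
    nlinarith [mul_nonneg (mul_nonneg (by linarith : (0 : ℝ) ≤ n) hu0) h5]
  have hc : 0 ≤ 10 * n * u * nv X := by positivity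
  apply NB_sq_le (by have := fro_nonneg R; positivity)
  rw [nv_sq]
  calc ∑ i, ‖(R *ᵥ X - Y) i‖ ^ 2 ≤ ∑ i, (10 * n * u * nv X * nv (R i)) ^ 2 :=
        Finset.sum_le_sum (fun i _ => pow_le_pow_left₀ (norm_nonneg _) (hrow i) 2)
    _ = (10 * n * u * nv X) ^ 2 * ∑ i, nv (R i) ^ 2 := by
        rw [Finset.mul_sum]
        exact Finset.sum_congr rfl (fun i _ => by ring)
    _ = (10 * n * u * fro R * nv X) ^ 2 := by
        rw [← fro_sq_rows]; ring

theorem post_back {ad : Adv} {u : ℝ} (hu : ad.Le u) {n : ℕ} (hn : 1 ≤ n) (hnu : n * u ≤ 1 / 1000)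
    {env : Env} {r : RMat n n} {y : RVec n} {R : Matrix (Fin n) (Fin n) ℂ} {Y : Fin n → ℂ}
    (hr : HasM env r R) (hy : HasV env y Y) (hu' : UT R) (hd : ∀ i, R i i ≠ 0) :
    Post ad (backP r y) env (fun x env' => ∃ X : Fin n → ℂ, HasV env' x X ∧
      nv (R *ᵥ X - Y) ≤ 10 * n * u * fro R * nv X) := by
  have hu0 : 0 ≤ u := hu.nonneg
  have hn1 : (1 : ℝ) ≤ n := by exact_mod_cast hn
  have hu1 : u ≤ 1 / 1000 := by nlinarith
  unfold backP
  refine Post.bind (post_cst hu env 0 0) ?_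
  rintro z env1 h01 ⟨Z, hZ, hZr⟩
  have hZ0 : Z = 0 := by
    unfold Rel at hZr
    have h1 : ((0 : ℚ) : ℂ) + ((0 : ℚ) : ℂ) * I = 0 := by simp
    rw [h1, norm_zero, mul_zero, sub_zero] at hZr
    exact norm_le_zero_iff.mp hZr
  subst hZ0
  refine Post.weaken (Q := BInv u R Y n) (post_iterF n _ _ env1 (BInv u R Y) ?_ ?_) ?_
  · refine ⟨fun _ => 0, fun i => hZ, fun _ _ => rfl, ?_⟩
    intro i hi
    have := i.2
    omega
  · rintro k x env2 h12 ⟨X, hX, hX0, hXi⟩
    set p : Fin n := Fin.rev k with hp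
    have hpv : (p : ℕ) + k + 1 = n := by
      have := k.2
      simp only [hp, Fin.val_rev]
      omega
    have h02 := h01.trans h12
    have hR2 := hr.mono h02
    have hY2 := hy.mono h02
    refine Post.bind (post_dot hu hn (by linarith) (fun j => hR2 p j) hX) ?_
    rintro d env3 h23 ⟨D, hD, hDe⟩
    refine Post.bind (post_sub hu ((hY2 p).mono h23) hD) ?_
    rintro e env4 h34 ⟨E, hE, hEe⟩
    refine Post.bind (post_div hu hE (((hR2 p p).mono h23).mono h34) (hd p)) ?_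
    rintro q env5 h45 ⟨Q, hQ, hQe⟩
    refine Post.pure ?_
    have hXp : X p = 0 := hX0 p (by omega)
    refine ⟨Function.update X p Q, ?_, ?_, ?_⟩
    · intro j
      by_cases hj : j = p
      · subst hj
        simp only [Function.update_self]
        exact hQ
      · simp only [Function.update_of_ne hj]
        exact ((hX j).mono h23).mono (h34.trans h45)
    · intro j hj
      have hjp : j ≠ p := by
        intro h
        rw [h] at hj
        omega
      rw [Function.update_of_ne hjp]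
      exact hX0 j (by omega)
    · intro i hi
      by_cases hip : i = p
      · subst hip
        -- the new row
        have hs1 : ∑ j, R p j * Function.update X p Q j = R p p * Q + ∑ j, R p j * X j := by
          have e1 : ∀ j, R p j * Function.update X p Q j =
              (if j = p then R p p * Q else 0) + R p j * X j := by
            intro j
            by_cases hj : j = p
            · subst hj
              rw [Function.update_self, if_pos rfl, hXp]
              ring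
            · rw [Function.update_of_ne hj, if_neg hj, zero_add]
          rw [Finset.sum_congr rfl (fun j _ => e1 j), Finset.sum_add_distrib]
          simp
        have hs2 : ∑ j, ‖R p j‖ * ‖X j‖ ≤ ∑ j, ‖R p j‖ * ‖Function.update X p Q j‖ := by
          refine Finset.sum_le_sum (fun j _ => ?_)
          by_cases hj : j = p
          · subst hj
            rw [hXp, norm_zero, mul_zero]
            positivity
          · rw [Function.update_of_ne hj]
        have hRQ : Rel u E (R p p * Q) := by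
          unfold Rel at hQe ⊢
          have hne : ‖R p p‖ ≠ 0 := norm_ne_zero_iff.mpr (hd p)
          have e2 : R p p * Q - E = R p p * (Q - E / R p p) := by
            have := hd p
            field_simp
          rw [e2, norm_mul]
          calc ‖R p p‖ * ‖Q - E / R p p‖ ≤ ‖R p p‖ * (u * ‖E / R p p‖) :=
                mul_le_mul_of_nonneg_left hQe (norm_nonneg _)
            _ = u * ‖E‖ := by
                rw [norm_div]
                field_simp
        have hrow := BACK_row hu0 hu1 hEe hRQ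
        rw [norm_mul] at hrow
        have e3 : ∑ j, R p j * Function.update X p Q j - Y p =
            (R p p * Q - (Y p - D)) - (D - ∑ j, R p j * X j) := by
          rw [hs1]; ring
        rw [e3]
        refine (norm_sub_le _ _).trans ?_
        rw [Function.update_self]
        have h6 : 4 * n * u * ∑ j, ‖R p j‖ * ‖X j‖ ≤
            4 * n * u * ∑ j, ‖R p j‖ * ‖Function.update X p Q j‖ :=
          mul_le_mul_of_nonneg_left hs2 (by positivity)
        linarith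
      · -- an old row
        have hpi : (p : ℕ) < i := by
          have h1 : (i : ℕ) ≠ p := fun h => hip (Fin.ext h)
          omega
        have hRip : R i p = 0 := hu' i p hpi
        have hs1 : ∑ j, R i j * Function.update X p Q j = ∑ j, R i j * X j := by
          refine Finset.sum_congr rfl (fun j _ => ?_)
          by_cases hj : j = p
          · subst hj; rw [hRip]; ring
          · rw [Function.update_of_ne hj]
        have hs2 : ∑ j, ‖R i j‖ * ‖Function.update X p Q j‖ = ∑ j, ‖R i j‖ * ‖X j‖ := by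
          refine Finset.sum_congr rfl (fun j _ => ?_)
          by_cases hj : j = p
          · subst hj; rw [hRip]; simp
          · rw [Function.update_of_ne hj]
        rw [hs1, hs2, Function.update_of_ne hip]
        exact hXi i (by omega)
  · rintro x env2 _ ⟨X, hX, _, hXi⟩
    exact ⟨X, hX, BACK_fin hn hu0 (fun i => hXi i (by omega))⟩

end H6LP

end S_BACK

section S_SOLVE

set_option autoImplicit false

open Complex Matrix

namespace H6LP

/-- the error of the quotient `a / ρ̃` -/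
theorem solve_quot_err {u δ : ℝ} (hu0 : 0 ≤ u) (hu1 : u ≤ 1 / 100) (hδ0 : 0 ≤ δ) (hδ1 : δ ≤ 1 / 100)
    {rho t : ℝ} (hr : 0 < rho) (ht : |t - rho| ≤ δ * rho) {a z : ℂ} (hz : Rel u (a / (t : ℂ)) z) :
    ‖z - a / (rho : ℂ)‖ ≤ (1.02 * δ + 1.1 * u) * ‖a / (rho : ℂ)‖ := by
  have ht1 : (1 - δ) * rho ≤ t := by
    have := (abs_le.mp ht).1
    linarith
  have ht0 : 0 < t := by
    have : 0 < (1 - δ) * rho := by
      apply mul_pos _ hr
      linarith
    linarith
  have htc : (t : ℂ) ≠ 0 := by exact_mod_cast ht0.ne'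
  have hrc : (rho : ℂ) ≠ 0 := by exact_mod_cast hr.ne'
  have e1 : a / (t : ℂ) - a / (rho : ℂ) = (a / (rho : ℂ)) * (((rho - t) / t : ℝ) : ℂ) := by
    push_cast
    field_simp
  have hq : |(rho - t) / t| ≤ 1.02 * δ := by
    rw [abs_div, abs_of_pos ht0, div_le_iff₀ ht0, abs_sub_comm]
    refine ht.trans ?_
    have h1 : 1.02 * δ * ((1 - δ) * rho) ≤ 1.02 * δ * t := by gcongr
    have h2 : δ * rho ≤ 1.02 * δ * ((1 - δ) * rho) := by
      have h3 : 1 ≤ 1.02 * (1 - δ) := by linarith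
      have h4 : 0 ≤ δ * rho := by positivity
      nlinarith
    linarith
  have n1 : ‖a / (t : ℂ) - a / (rho : ℂ)‖ ≤ 1.02 * δ * ‖a / (rho : ℂ)‖ := by
    rw [e1, norm_mul, Complex.norm_real, Real.norm_eq_abs, mul_comm]
    gcongr
  have n2 : ‖a / (t : ℂ)‖ ≤ (1 + 1.02 * δ) * ‖a / (rho : ℂ)‖ := by
    have : ‖a / (t : ℂ)‖ ≤ ‖a / (t : ℂ) - a / (rho : ℂ)‖ + ‖a / (rho : ℂ)‖ := by
      simpa using norm_add_le (a / (t : ℂ) - a / (rho : ℂ)) (a / (rho : ℂ))
    linarith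
  unfold Rel at hz
  have e2 : z - a / (rho : ℂ) = (z - a / (t : ℂ)) + (a / (t : ℂ) - a / (rho : ℂ)) := by ring
  rw [e2]
  refine (norm_add_le _ _).trans ?_
  have n3 : u * ‖a / (t : ℂ)‖ ≤ u * ((1 + 1.02 * δ) * ‖a / (rho : ℂ)‖) := by gcongr
  have n4 : u * ((1 + 1.02 * δ) * ‖a / (rho : ℂ)‖) ≤ 1.1 * u * ‖a / (rho : ℂ)‖ := by
    have h3 : (1 + 1.02 * δ) ≤ 1.1 := by linarith
    have h4 : 0 ≤ u * ‖a / (rho : ℂ)‖ := by positivity
    nlinarith
  linarith

/-- an injective upper triangular matrix has nonzero diagonal entries -/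
theorem solve_diag_ne {n : ℕ} {R : Matrix (Fin n) (Fin n) ℂ} (hR : UT R)
    (hinj : ∀ x : Fin n → ℂ, R *ᵥ x = 0 → x = 0) (i : Fin n) : R i i ≠ 0 := by
  have hdet : R.det ≠ 0 := by
    intro h0
    obtain ⟨v, hv, hv0⟩ := Matrix.exists_mulVec_eq_zero_iff.mpr h0
    exact hv (hinj v hv0)
  have htri : R.BlockTriangular id := fun i j hij => hR i j hij
  rw [Matrix.det_of_isUpperTriangular htri] at hdet
  exact (Finset.prod_ne_zero_iff.mp hdet) i (Finset.mem_univ _)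

theorem post_solve {ad : Adv} {u : ℝ} (hu : ad.Le u) {n : ℕ} (hn : 1 ≤ n)
    {env : Env} {x : RMat n n} {z : ℕ} {X : Matrix (Fin n) (Fin n) ℂ} {Z : ℂ} {t : ℝ}
    (hx : HasM env x X) (hz : Has env z Z) (hh : Hess X)
    (hb : ∀ k (hk : k + 1 < n), X ⟨k + 1, hk⟩ ⟨k, by omega⟩ ≠ 0)
    (ht : 0 < t) (ht1 : t ≤ 1) (hcol : ColAt X Z t)
    (hnu : 10 ^ 6 * n ^ 3 * u * (fro X + ‖Z‖ + 1) ≤ t) :
    Post ad (solveP x z) env (fun y env' => ∃ (Y w f : Fin n → ℂ), HasV env' y Y ∧ w ≠ 0 ∧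
      (X - Z • (1 : Matrix (Fin n) (Fin n) ℂ)) *ᵥ w = e1 n + f ∧
      nv f ≤ 1000 * n ^ 2 * u * (1 + (fro X + ‖Z‖) * nv w) ∧
      nv (Y - ((nv w)⁻¹ : ℂ) • w) ≤ 10 * n * u) := by
  have hu0 : 0 ≤ u := hu.nonneg
  have hn1 : (1 : ℝ) ≤ n := by exact_mod_cast hn
  set M := fro X + ‖Z‖ with hM
  have hM0 : 0 ≤ M := add_nonneg (fro_nonneg _) (norm_nonneg _)
  set K := (n : ℝ) ^ 3 * u * (M + 1) with hK
  have hK0 : 0 ≤ K := by positivity
  have hKt : 10 ^ 6 * K ≤ t := by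
    rw [hK]
    linarith
  have hn2 : (1 : ℝ) ≤ (n : ℝ) ^ 2 := one_le_pow₀ hn1
  have h2uM : (n : ℝ) ^ 2 * u * M ≤ K := by
    have h1 : (n : ℝ) ^ 2 * u * M ≤ (n : ℝ) ^ 3 * u * (M + 1) := by
      gcongr
      · norm_num
      · linarith
    exact h1
  have h2u : (n : ℝ) ^ 2 * u ≤ K := by
    have h1 : (n : ℝ) ^ 2 * u * 1 ≤ (n : ℝ) ^ 3 * u * (M + 1) := by
      gcongr
      · norm_num
      · linarith
    linarith
  have h1u : (n : ℝ) * u ≤ K := by
    have h1 : (n : ℝ) * u ≤ (n : ℝ) ^ 2 * u := by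
      gcongr
      nlinarith
    linarith
  have hnu1 : (n : ℝ) * u ≤ 1 / 1000000 := by linarith
  have huu : u ≤ (n : ℝ) * u := by nlinarith
  set F := fro (X - Z • (1 : Matrix (Fin n) (Fin n) ℂ)) with hF
  have hF0 : 0 ≤ F := fro_nonneg _
  have hFM : F ≤ n * M := by
    have h1 : F ≤ fro X + ‖Z‖ * Real.sqrt n := by
      rw [hF, ← fro_smul_one]
      exact fro_sub_le _ _
    have h2 : Real.sqrt n ≤ n := by
      rw [Real.sqrt_le_left (by positivity)]
      nlinarith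
    have h3 : ‖Z‖ * Real.sqrt n ≤ ‖Z‖ * n := by gcongr
    have h4 : fro X ≤ n * fro X := by
      have := fro_nonneg X
      nlinarith
    rw [hM]
    linarith
  have hnuF : (n : ℝ) * u * F ≤ K := by
    have : (n : ℝ) * u * F ≤ n * u * (n * M) := by gcongr
    have h1 : (n : ℝ) * u * (n * M) = (n : ℝ) ^ 2 * u * M := by ring
    linarith
  have huF : u * F ≤ n * u * F := by
    gcongr
  unfold solveP
  refine Post.bind (post_shift hu hx hz) ?_
  rintro tr env1 h1 ⟨T, hT, hTF, hToff⟩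
  refine Post.bind (post_cst hu env1 0 0) ?_
  rintro zz env2 h2 ⟨Z0, hZ0, hZ0'⟩
  have hZ00 : Z0 = 0 := by
    unfold Rel at hZ0'
    simpa using hZ0'
  subst hZ00
  refine Post.bind (post_cst hu env2 1 0) ?_
  rintro one env3 h3 ⟨o, ho, ho'⟩
  have ho2 : ‖o - 1‖ ≤ u := by
    unfold Rel at ho'
    simpa using ho'
  -- the right hand side
  have hyV : HasV env3 (fun i : Fin n => if (i : ℕ) = 0 then one else zz) (o • e1 n) := by
    intro i
    unfold e1
    rw [Pi.smul_apply]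
    dsimp only
    split_ifs with c
    · simpa using ho
    · simpa using hZ0.mono h3
  have hTh : Hess T := by
    intro i j hij
    rw [hToff i j (by intro h; rw [h] at hij; omega)]
    exact hh i j hij
  have hTb : ∀ k (hk : k + 1 < n), T ⟨k + 1, hk⟩ ⟨k, by omega⟩ ≠ 0 := by
    intro k hk
    rw [hToff _ _ (by intro h; rw [Fin.mk.injEq] at h; omega)]
    exact hb k hk
  refine Post.bind (post_qr hu hn (by linarith) (hT.mono (h2.trans h3)) hyV hTh hTb) ?_
  rintro S env4 h4 ⟨Q, E, R, f, Y', hQ, hS1, hS2, hR, hY', hE, hf, hUT, -⟩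
  -- norms
  have hTF2 : fro T ≤ (1 + u) * F := by
    have : fro T ≤ fro (T - (X - Z • (1 : Matrix (Fin n) (Fin n) ℂ))) + F := by
      have := fro_add_le (T - (X - Z • (1 : Matrix (Fin n) (Fin n) ℂ)))
        (X - Z • (1 : Matrix (Fin n) (Fin n) ℂ))
      rwa [sub_add_cancel] at this
    linarith
  have hTF3 : fro T ≤ 1.01 * F := by
    have : (1 + u) * F ≤ 1.01 * F := by
      gcongr
      linarith
    linarith
  have hE2 : fro E ≤ 202 * (n * u * F) := by
    have : 200 * n * u * fro T ≤ 200 * n * u * (1.01 * F) := by gcongr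
    linarith
  have hRF : fro R ≤ 1.1 * F := by
    rw [hR, hQ.fro_mul]
    refine (fro_add_le _ _).trans ?_
    have : 202 * (n * u * F) ≤ 0.01 * F := by
      have : 202 * (n * u) ≤ 0.01 := by linarith
      nlinarith
    linarith
  have hy0 : nv (o • e1 n) ≤ 1.01 := by
    rw [nv_smul, nv_e1 hn, mul_one]
    have : ‖o‖ ≤ ‖o - 1‖ + 1 := by
      simpa using norm_add_le (o - 1) 1
    linarith
  have hf2 : nv f ≤ 202 * (n * u) := by
    have : 200 * n * u * nv (o • e1 n) ≤ 200 * n * u * 1.01 := by gcongr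
    linarith
  -- injectivity
  have hlow : ∀ v : Fin n → ℂ, t * nv v ≤ nv ((X - Z • (1 : Matrix (Fin n) (Fin n) ℂ)) *ᵥ v) := by
    intro v
    have e : (X - Z • (1 : Matrix (Fin n) (Fin n) ℂ)) *ᵥ v =
        -((Z • (1 : Matrix (Fin n) (Fin n) ℂ) - X) *ᵥ v) := by
      rw [← Matrix.neg_mulVec, neg_sub]
    rw [e, nv_neg]
    exact hcol v
  have hinj : ∀ v : Fin n → ℂ, R *ᵥ v = 0 → v = 0 := by
    intro v hv
    by_contra hne
    have hpos := nv_pos hne
    have e1 : (X - Z • (1 : Matrix (Fin n) (Fin n) ℂ)) *ᵥ v = (T + E) *ᵥ v -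
        ((T - (X - Z • (1 : Matrix (Fin n) (Fin n) ℂ))) *ᵥ v + E *ᵥ v) := by
      rw [← Matrix.add_mulVec, ← Matrix.sub_mulVec]
      congr 1
      abel
    have e2 : (T + E) *ᵥ v = 0 := by
      have h5 : nv ((T + E) *ᵥ v) = 0 := by
        rw [← hQ.nv_mulVec, Matrix.mulVec_mulVec, ← hR, hv, nv_zero]
      exact nv_eq_zero.mp h5
    have e3 := hlow v
    rw [e1, e2, zero_sub, nv_neg] at e3
    have e4 := (nv_add_le ((T - (X - Z • (1 : Matrix (Fin n) (Fin n) ℂ))) *ᵥ v) (E *ᵥ v))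
    have e5 := nv_mulVec_le (T - (X - Z • (1 : Matrix (Fin n) (Fin n) ℂ))) v
    have e6 := nv_mulVec_le E v
    have e7 : fro (T - (X - Z • (1 : Matrix (Fin n) (Fin n) ℂ))) * nv v ≤ K * nv v := by
      gcongr
      linarith
    have e8 : fro E * nv v ≤ 202 * K * nv v := by
      gcongr
      linarith
    have e9 : 203 * K * nv v < t * nv v := by
      apply mul_lt_mul_of_pos_right _ hpos
      linarith
    linarith
  refine Post.bind (post_back hu hn (by linarith) hS1 hS2 hUT (solve_diag_ne hUT hinj)) ?_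
  rintro xr env5 h5 ⟨w, hw, hwd⟩
  -- the residual
  set d := R *ᵥ w - Y' with hd
  have hres : (X - Z • (1 : Matrix (Fin n) (Fin n) ℂ)) *ᵥ w = e1 n +
      ((o - 1) • e1 n + f + Qᴴ *ᵥ d - ((T - (X - Z • (1 : Matrix (Fin n) (Fin n) ℂ))) *ᵥ w + E *ᵥ w)) := by
    have g1 : Qᴴ *ᵥ d = (T + E) *ᵥ w - (o • e1 n + f) := by
      rw [hd, Matrix.mulVec_sub, hR, hY', Matrix.mulVec_mulVec, Matrix.mulVec_mulVec,
        ← Matrix.mul_assoc]
      have : Qᴴ * Q = 1 := hQ
      rw [this, Matrix.one_mul, Matrix.one_mulVec]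
    rw [g1, ← Matrix.add_mulVec, sub_smul, one_smul]
    have g2 : (T - (X - Z • (1 : Matrix (Fin n) (Fin n) ℂ)) + E) *ᵥ w =
        (T + E) *ᵥ w - (X - Z • (1 : Matrix (Fin n) (Fin n) ℂ)) *ᵥ w := by
      rw [← Matrix.sub_mulVec]
      congr 1
      abel
    rw [g2]
    abel
  set f' := ((o - 1) • e1 n + f + Qᴴ *ᵥ d -
    ((T - (X - Z • (1 : Matrix (Fin n) (Fin n) ℂ))) *ᵥ w + E *ᵥ w)) with hf'
  have hw0 := nv_nonneg w
  have hf'b : nv f' ≤ 1000 * n ^ 2 * u * (1 + M * nv w) := by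
    have b1 : nv ((o - 1) • e1 n) ≤ u := by
      rw [nv_smul, nv_e1 hn, mul_one]
      exact ho2
    have b2 : nv (Qᴴ *ᵥ d) ≤ 11 * (n * u * F) * nv w := by
      rw [hQ.conjTranspose.nv_mulVec]
      refine hwd.trans ?_
      have : 10 * n * u * fro R ≤ 10 * n * u * (1.1 * F) := by gcongr
      have h6 : 10 * n * u * fro R * nv w ≤ 10 * n * u * (1.1 * F) * nv w := by gcongr
      linarith
    have b3 : nv ((T - (X - Z • (1 : Matrix (Fin n) (Fin n) ℂ))) *ᵥ w) ≤ (n * u * F) * nv w := by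
      refine (nv_mulVec_le _ _).trans ?_
      gcongr
      linarith
    have b4 : nv (E *ᵥ w) ≤ 202 * (n * u * F) * nv w := by
      refine (nv_mulVec_le _ _).trans ?_
      gcongr
    have b5 : nv f' ≤ nv ((o - 1) • e1 n) + nv f + nv (Qᴴ *ᵥ d) +
        (nv ((T - (X - Z • (1 : Matrix (Fin n) (Fin n) ℂ))) *ᵥ w) + nv (E *ᵥ w)) := by
      rw [hf']
      refine (nv_sub_le _ _).trans ?_
      have c1 := nv_add_le ((o - 1) • e1 n + f) (Qᴴ *ᵥ d)
      have c2 := nv_add_le ((o - 1) • e1 n) f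
      have c3 := nv_add_le ((T - (X - Z • (1 : Matrix (Fin n) (Fin n) ℂ))) *ᵥ w) (E *ᵥ w)
      linarith
    have b6 : (n * u * F) * nv w ≤ (n ^ 2 * u * M) * nv w := by
      refine mul_le_mul_of_nonneg_right ?_ hw0
      have h7 : (n : ℝ) * u * F ≤ n * u * (n * M) := by gcongr
      have h8 : (n : ℝ) * u * (n * M) = n ^ 2 * u * M := by ring
      linarith
    have b7 : (n : ℝ) * u ≤ (n : ℝ) ^ 2 * u := by
      gcongr
      nlinarith
    have b8 : 0 ≤ (n : ℝ) ^ 2 * u := by positivity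
    have b9 : 0 ≤ (n ^ 2 * u * M) * nv w := by positivity
    calc nv f' ≤ u + 202 * (n * u) + 11 * (n * u * F) * nv w + ((n * u * F) * nv w +
          202 * (n * u * F) * nv w) := by linarith
      _ ≤ 1000 * (n ^ 2 * u) + 1000 * ((n ^ 2 * u * M) * nv w) := by nlinarith
      _ = 1000 * n ^ 2 * u * (1 + M * nv w) := by ring
  have hwne : w ≠ 0 := by
    intro h0
    have g1 : nv f' < 1 := by
      have : nv w = 0 := by rw [h0]; exact nv_zero
      rw [this] at hf'b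
      linarith
    have g2 : e1 n + f' = 0 := by
      rw [← hres, h0, Matrix.mulVec_zero]
    have g3 : nv (e1 n) = nv f' := by
      have : e1 n = -f' := eq_neg_of_add_eq_zero_left g2
      rw [this, nv_neg]
    rw [nv_e1 hn] at g3
    linarith
  have hwpos := nv_pos hwne
  -- normalization
  refine Post.bind (post_norm hu hn (by linarith) hw) ?_
  rintro nr env6 h6 ⟨s, hs, hs'⟩
  have hs0 : 0 < s := by
    have g1 := (abs_le.mp hs').1
    have g2 : 4 * n * u * nv w ≤ 1 / 2 * nv w := by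
      gcongr
      linarith
    linarith
  have hsc : (s : ℂ) ≠ 0 := by exact_mod_cast hs0.ne'
  refine (post_vecM n _ env6 (fun i b env' => ∃ y, Has env' b y ∧ Rel u (w i / (s : ℂ)) y) ?_ ?_).weaken ?_
  · rintro i b e1 e2 h12 ⟨y, hy1, hy2⟩
    exact ⟨y, hy1.mono h12, hy2⟩
  · intro i env' h'
    exact post_div hu ((hw i).mono (h6.trans h')) (hs.mono h') hsc
  rintro yr env7 h7 hyr
  choose Y hY1 hY2 using hyr
  refine ⟨Y, w, f', hY1, hwne, hres, hf'b, ?_⟩
  have hfin : nv (Y - ((nv w)⁻¹ : ℂ) • w) ≤ (1.02 * (4 * n * u) + 1.1 * u) * nv (((nv w)⁻¹ : ℂ) • w) := by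
    refine nv_le_mul_of_le (by positivity) (fun i => ?_)
    have g1 := solve_quot_err hu0 (by linarith) (by positivity) (by linarith) hwpos hs' (hY2 i)
    have g2 : (((nv w)⁻¹ : ℂ) • w) i = w i / ((nv w : ℝ) : ℂ) := by
      rw [Pi.smul_apply, smul_eq_mul, div_eq_mul_inv, mul_comm]
    rw [Pi.sub_apply, g2]
    exact g1
  have hone : nv (((nv w)⁻¹ : ℂ) • w) = 1 := by
    rw [nv_smul, norm_inv, Complex.norm_real, Real.norm_eq_abs, abs_of_pos hwpos,
      inv_mul_cancel₀ hwpos.ne']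
  rw [hone, mul_one] at hfin
  linarith

end H6LP

end S_SOLVE
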