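import Pool.Agent.H6.LQ.Core
import Pool.Agent.H6.LQ.G1
import Pool.Agent.H6.LQ.G2

/-! MP_63a4b3_lc, part G3: this file joins the modules NODEP, RATIO, PHI, SRCH, CIRC, TEST. -/

section S_NODEP

set_option autoImplicit false

open Complex Matrix

namespace H6LP

theorem omg_norm (e : ℕ) : ‖omg e‖ = 1 := by
  unfold omg
  have h : (2 * Real.pi * I / 2 ^ e : ℂ) = ((2 * Real.pi / 2 ^ e : ℝ) : ℂ) * I := by
    push_cast
    ring
  rw [h]
  exact Complex.norm_exp_ofReal_mul_I _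

theorem nodep_prim (e : ℕ) : IsPrimitiveRoot (omg e) (2 ^ e) := by
  have h := Complex.isPrimitiveRoot_exp (2 ^ e) (by positivity)
  unfold omg
  push_cast at h
  exact h

theorem omg_pow (e : ℕ) : omg e ^ (2 ^ e) = 1 := (nodep_prim e).pow_eq_one

theorem nodep_roots (e : ℕ) :
    Polynomial.nthRootsFinset (2 ^ e) (1 : ℂ) =
      (Finset.range (2 ^ e)).image (fun j => omg e ^ j) := by
  classical
  symm
  apply Finset.eq_of_subset_of_card_le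
  · intro z hz
    obtain ⟨j, _, rfl⟩ := Finset.mem_image.1 hz
    rw [Polynomial.mem_nthRootsFinset (by positivity)]
    rw [← pow_mul, mul_comm, pow_mul, omg_pow, one_pow]
  · rw [(nodep_prim e).card_nthRootsFinset, Finset.card_image_of_injOn, Finset.card_range]
    intro i hi j hj hij
    exact (nodep_prim e).pow_inj (Finset.mem_range.1 (Finset.mem_coe.1 hi))
      (Finset.mem_range.1 (Finset.mem_coe.1 hj)) hij

theorem nodep_prod_roots (e : ℕ) {R : Type} [CommMonoid R] (f : ℂ → R) :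
    ∏ z ∈ Polynomial.nthRootsFinset (2 ^ e) (1 : ℂ), f z =
      ∏ j ∈ Finset.range (2 ^ e), f (omg e ^ j) := by
  classical
  rw [nodep_roots, Finset.prod_image]
  intro i hi j hj hij
  exact (nodep_prim e).pow_inj (Finset.mem_range.1 (Finset.mem_coe.1 hi))
    (Finset.mem_range.1 (Finset.mem_coe.1 hj)) hij

theorem prod_nodes (e : ℕ) (x y : ℂ) :
    ∏ j ∈ Finset.range (2 ^ e), ‖x * omg e ^ j - y‖ = ‖x ^ (2 ^ e) - y ^ (2 ^ e)‖ := by
  have h := (nodep_prim e).pow_sub_pow_eq_prod_sub_mul y x (by positivity)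
  rw [nodep_prod_roots e (fun z => y - z * x)] at h
  rw [norm_sub_rev, h, norm_prod]
  refine Finset.prod_congr rfl fun j _ => ?_
  rw [norm_sub_rev, mul_comm]

/-- the kappa lemma for `‖w‖ ≤ 1` -/
theorem nodep_core (e : ℕ) (w : ℂ) (hw : ‖w‖ ≤ 1) {κ : ℝ} (hκ : 0 < κ) (hκ1 : κ ≤ 1)
    (h : ∀ j < 2 ^ e, κ ≤ ‖w - omg e ^ j‖) : κ / 2 ≤ ‖w ^ (2 ^ e) - 1‖ := by
  classical
  have hN : 0 < 2 ^ e := by positivity
  have hprod : ∏ j ∈ Finset.range (2 ^ e), ‖w - omg e ^ j‖ = ‖w ^ (2 ^ e) - 1‖ := by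
    have h1 := prod_nodes e 1 w
    rw [one_pow, norm_sub_rev] at h1
    rw [← h1]
    refine Finset.prod_congr rfl fun j _ => ?_
    rw [one_mul, norm_sub_rev]
  have hder : ((2 ^ e : ℕ) : ℂ) * w ^ (2 ^ e - 1) =
      ∑ j ∈ Finset.range (2 ^ e), ∏ i ∈ (Finset.range (2 ^ e)).erase j, (w - omg e ^ i) := by
    have h1 := Polynomial.X_pow_sub_one_eq_prod (R := ℂ) hN (nodep_prim e)
    rw [nodep_prod_roots e (fun z => Polynomial.X - Polynomial.C z)] at h1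
    have h2 := congrArg Polynomial.derivative h1
    rw [Polynomial.derivative_prod_finset] at h2
    have h3 := congrArg (Polynomial.eval w) h2
    rw [Polynomial.eval_finsetSum] at h3
    simp only [Polynomial.derivative_sub, Polynomial.derivative_X_pow, Polynomial.derivative_one,
      Polynomial.derivative_X, Polynomial.derivative_C, sub_zero, mul_one, Polynomial.eval_prod,
      Polynomial.eval_sub, Polynomial.eval_X, Polynomial.eval_C, Polynomial.eval_mul,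
      Polynomial.eval_pow] at h3
    simpa using h3
  have h4 : κ * ‖w‖ ^ (2 ^ e - 1) ≤ ‖w ^ (2 ^ e) - 1‖ := by
    have h5 : ((2 ^ e : ℕ) : ℝ) * ‖w‖ ^ (2 ^ e - 1) ≤
        ∑ j ∈ Finset.range (2 ^ e), ∏ i ∈ (Finset.range (2 ^ e)).erase j, ‖w - omg e ^ i‖ := by
      have h6 := congrArg (fun z : ℂ => ‖z‖) hder
      simp only [norm_mul, norm_pow] at h6
      rw [Complex.norm_natCast] at h6
      rw [h6]
      refine (norm_sum_le _ _).trans (Finset.sum_le_sum fun j _ => ?_)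
      rw [norm_prod]
    have h7 : ∀ j ∈ Finset.range (2 ^ e),
        κ * ∏ i ∈ (Finset.range (2 ^ e)).erase j, ‖w - omg e ^ i‖ ≤ ‖w ^ (2 ^ e) - 1‖ := by
      intro j hj
      rw [← hprod, ← Finset.mul_prod_erase _ _ hj]
      refine mul_le_mul_of_nonneg_right (h j (Finset.mem_range.1 hj)) ?_
      exact Finset.prod_nonneg fun i _ => norm_nonneg _
    have h8 : κ * (((2 ^ e : ℕ) : ℝ) * ‖w‖ ^ (2 ^ e - 1)) ≤
        ((2 ^ e : ℕ) : ℝ) * ‖w ^ (2 ^ e) - 1‖ := by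
      calc κ * (((2 ^ e : ℕ) : ℝ) * ‖w‖ ^ (2 ^ e - 1))
          ≤ κ * ∑ j ∈ Finset.range (2 ^ e),
              ∏ i ∈ (Finset.range (2 ^ e)).erase j, ‖w - omg e ^ i‖ :=
            mul_le_mul_of_nonneg_left h5 hκ.le
        _ = ∑ j ∈ Finset.range (2 ^ e),
              κ * ∏ i ∈ (Finset.range (2 ^ e)).erase j, ‖w - omg e ^ i‖ := Finset.mul_sum _ _ _
        _ ≤ ∑ _j ∈ Finset.range (2 ^ e), ‖w ^ (2 ^ e) - 1‖ := Finset.sum_le_sum h7
        _ = ((2 ^ e : ℕ) : ℝ) * ‖w ^ (2 ^ e) - 1‖ := by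
            rw [Finset.sum_const, Finset.card_range, nsmul_eq_mul]
    have h9 : (0 : ℝ) < ((2 ^ e : ℕ) : ℝ) := by exact_mod_cast hN
    refine le_of_mul_le_mul_left ?_ h9
    calc ((2 ^ e : ℕ) : ℝ) * (κ * ‖w‖ ^ (2 ^ e - 1))
        = κ * (((2 ^ e : ℕ) : ℝ) * ‖w‖ ^ (2 ^ e - 1)) := by ring
      _ ≤ _ := h8
  rcases le_or_gt (1 / 2) (‖w‖ ^ (2 ^ e - 1)) with h5 | h5
  · calc κ / 2 = κ * (1 / 2) := by ring
      _ ≤ κ * ‖w‖ ^ (2 ^ e - 1) := mul_le_mul_of_nonneg_left h5 hκ.le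
      _ ≤ _ := h4
  · have h6 : ‖w‖ ^ (2 ^ e) ≤ ‖w‖ ^ (2 ^ e - 1) :=
      pow_le_pow_of_le_one (norm_nonneg _) hw (Nat.sub_le _ _)
    have h7 : 1 - ‖w‖ ^ (2 ^ e) ≤ ‖w ^ (2 ^ e) - 1‖ := by
      have h8 := norm_sub_norm_le (1 : ℂ) (w ^ (2 ^ e))
      rw [norm_one, norm_pow, norm_sub_rev] at h8
      exact h8
    linarith

theorem node_kappa (e : ℕ) (x y : ℂ) {κ : ℝ} (hκ : 0 < κ) (hκ1 : κ ≤ 1)
    (h : ∀ j < 2 ^ e, κ * max ‖x‖ ‖y‖ ≤ ‖x * omg e ^ j - y‖) :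
    κ / 2 * (max ‖x‖ ‖y‖) ^ (2 ^ e) ≤ ‖x ^ (2 ^ e) - y ^ (2 ^ e)‖ := by
  have hN : 0 < 2 ^ e := by positivity
  rcases le_total ‖y‖ ‖x‖ with hxy | hxy
  · rw [max_eq_left hxy] at h ⊢
    rcases eq_or_ne x 0 with hx | hx
    · rw [hx, norm_zero, zero_pow hN.ne', mul_zero]
      exact norm_nonneg _
    · have hx' : 0 < ‖x‖ := norm_pos_iff.2 hx
      have h1 : ∀ j < 2 ^ e, κ ≤ ‖y / x - omg e ^ j‖ := by
        intro j hj
        have h2 := h j hj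
        have h3 : x * omg e ^ j - y = -(x * (y / x - omg e ^ j)) := by
          field_simp
          ring
        rw [h3, norm_neg, norm_mul, mul_comm κ] at h2
        exact le_of_mul_le_mul_left h2 hx'
      have h4 := nodep_core e (y / x) (by
        rw [norm_div]
        exact div_le_one_of_le₀ hxy (norm_nonneg _)) hκ hκ1 h1
      have h5 : x ^ (2 ^ e) - y ^ (2 ^ e) = -(x ^ (2 ^ e) * ((y / x) ^ (2 ^ e) - 1)) := by
        rw [div_pow]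
        field_simp
        ring
      rw [h5, norm_neg, norm_mul, norm_pow, mul_comm (κ / 2)]
      exact mul_le_mul_of_nonneg_left h4 (by positivity)
  · rw [max_eq_right hxy] at h ⊢
    rcases eq_or_ne y 0 with hy | hy
    · rw [hy, norm_zero, zero_pow hN.ne', mul_zero]
      exact norm_nonneg _
    · have hy' : 0 < ‖y‖ := norm_pos_iff.2 hy
      have hinv : ∀ i < 2 ^ e, ∃ j < 2 ^ e, omg e ^ i * omg e ^ j = 1 := by
        intro i hi
        rcases Nat.eq_zero_or_pos i with rfl | hi0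
        · exact ⟨0, hN, by simp⟩
        · refine ⟨2 ^ e - i, by omega, ?_⟩
          rw [← pow_add, Nat.add_sub_cancel' hi.le, omg_pow]
      have h1 : ∀ i < 2 ^ e, κ ≤ ‖x / y - omg e ^ i‖ := by
        intro i hi
        obtain ⟨j, hj, hij⟩ := hinv i hi
        have h2 := h j hj
        have h3 : x * omg e ^ j - y = y * omg e ^ j * (x / y - omg e ^ i) := by
          have h6 : y * omg e ^ j * (x / y - omg e ^ i) =
              y * (x / y) * omg e ^ j - y * (omg e ^ i * omg e ^ j) := by ring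
          rw [h6, hij, mul_div_cancel₀ x hy, mul_one]
        rw [h3, norm_mul, norm_mul, norm_pow, omg_norm, one_pow, mul_one, mul_comm κ] at h2
        exact le_of_mul_le_mul_left h2 hy'
      have h4 := nodep_core e (x / y) (by
        rw [norm_div]
        exact div_le_one_of_le₀ hxy (norm_nonneg _)) hκ hκ1 h1
      have h5 : x ^ (2 ^ e) - y ^ (2 ^ e) = y ^ (2 ^ e) * ((x / y) ^ (2 ^ e) - 1) := by
        rw [div_pow]
        field_simp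
      rw [h5, norm_mul, norm_pow, mul_comm (κ / 2)]
      exact mul_le_mul_of_nonneg_left h4 (by positivity)

end H6LP

end S_NODEP

section S_RATIO

set_option autoImplicit false

open Complex Matrix

namespace H6LP

/-- the product of the distances of the nodes to the eigenvalues -/
noncomputable def PiN {n : ℕ} (lam : Fin n → ℂ) (c : ℂ) (rho : ℝ) (φ : ℂ) (e : ℕ) : ℝ :=
  ∏ j ∈ Finset.range (2 ^ e), ∏ i, ‖nodeZ c rho φ e j - lam i‖

theorem ratio_F {n : ℕ} (lam : Fin n → ℂ) (c φ : ℂ) (rho : ℝ) (e : ℕ) (i : Fin n) :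
    ∏ j ∈ Finset.range (2 ^ e), ‖nodeZ c rho φ e j - lam i‖ =
      ‖(rho * φ) ^ (2 ^ e) - (lam i - c) ^ (2 ^ e)‖ := by
  rw [← prod_nodes]
  refine Finset.prod_congr rfl fun j _ => ?_
  congr 1
  unfold nodeZ
  ring

theorem ratio_PiN {n : ℕ} (lam : Fin n → ℂ) (c φ : ℂ) (rho : ℝ) (e : ℕ) :
    PiN lam c rho φ e = ∏ i, ‖(rho * φ) ^ (2 ^ e) - (lam i - c) ^ (2 ^ e)‖ := by
  unfold PiN
  rw [Finset.prod_comm]
  exact Finset.prod_congr rfl fun i _ => ratio_F lam c φ rho e i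

theorem ratio_norm {φ : ℂ} (hφ : ‖φ‖ = 1) {rho : ℝ} (h : 0 ≤ rho) : ‖(rho : ℂ) * φ‖ = rho := by
  rw [norm_mul, hφ, mul_one, Complex.norm_real, Real.norm_of_nonneg h]

theorem ratio_upper {φ : ℂ} (hφ : ‖φ‖ = 1) {rho t : ℝ} (h : 0 ≤ rho) (y : ℂ) (ht : ‖y‖ = t) (N : ℕ) :
    ‖((rho : ℂ) * φ) ^ N - y ^ N‖ ≤ rho ^ N + t ^ N := by
  refine (norm_sub_le _ _).trans ?_
  rw [norm_pow, norm_pow, ratio_norm hφ h, ht]

theorem ratio_lower {φ : ℂ} (hφ : ‖φ‖ = 1) {rho t : ℝ} (h : 0 ≤ rho) (y : ℂ) (ht : ‖y‖ = t) (N : ℕ) :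
    t ^ N - rho ^ N ≤ ‖((rho : ℂ) * φ) ^ N - y ^ N‖ := by
  have h1 := norm_sub_norm_le (y ^ N) (((rho : ℂ) * φ) ^ N)
  rw [norm_pow, norm_pow, ratio_norm hφ h, ht, norm_sub_rev] at h1
  exact h1

theorem ratio_kappa {n : ℕ} (lam : Fin n → ℂ) (c : ℂ) {φ : ℂ} (hφ : ‖φ‖ = 1) {r rho κ : ℝ}
    (hr : 0 < r) (hκ : 0 < κ) (hκ1 : κ ≤ 1) {e : ℕ} (h0 : 0 ≤ rho) (h4 : rho ≤ 4 * r) (i : Fin n)
    (hn : ∀ j < 2 ^ e, κ * (4 * r) ≤ ‖nodeZ c rho φ e j - lam i‖) (ht : ‖lam i - c‖ < 4 * r) :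
    κ / 2 * (max rho ‖lam i - c‖) ^ (2 ^ e) ≤ ‖(rho * φ) ^ (2 ^ e) - (lam i - c) ^ (2 ^ e)‖ := by
  have h := node_kappa e ((rho : ℂ) * φ) (lam i - c) hκ hκ1 (fun j hj => by
    rw [ratio_norm hφ h0]
    have h1 : κ * max rho ‖lam i - c‖ ≤ κ * (4 * r) :=
      mul_le_mul_of_nonneg_left (max_le h4 ht.le) hκ.le
    refine h1.trans ((hn j hj).trans (le_of_eq ?_))
    congr 1
    unfold nodeZ
    ring)
  rwa [ratio_norm hφ h0] at h

theorem ratio_far {A B t δ : ℝ} {N : ℕ} (hδ0 : 0 ≤ δ) (hδ : δ ≤ 1 / 16) (ht : 0 ≤ t)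
    (hA : A ≤ t ^ N * (1 + δ)) (hB : t ^ N * (1 - δ) ≤ B) : A ≤ (1 + 4 * δ) * B := by
  have h1 : t ^ N * (1 + δ) ≤ (1 + 4 * δ) * (t ^ N * (1 - δ)) := by
    have h2 : 0 ≤ t ^ N := pow_nonneg ht N
    have h3 : 1 + δ ≤ (1 + 4 * δ) * (1 - δ) := by nlinarith
    calc t ^ N * (1 + δ) ≤ t ^ N * ((1 + 4 * δ) * (1 - δ)) := mul_le_mul_of_nonneg_left h3 h2
      _ = _ := by ring
  refine hA.trans (h1.trans ?_)
  exact mul_le_mul_of_nonneg_left hB (by linarith)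

theorem ratio_pow_le {x t : ℝ} (hx : 0 ≤ x) (ht : 0 ≤ t) (h : x ≤ 3 / 4 * t) (N : ℕ) :
    x ^ N ≤ t ^ N * (3 / 4 : ℝ) ^ N := by
  rw [← mul_pow]
  exact pow_le_pow_left₀ hx (by linarith) N

/-- the factors -/
theorem ratio_g {n : ℕ} (lam : Fin n → ℂ) (c : ℂ) {r κ : ℝ} (hκ : 0 < κ)
    (hκ1 : κ ≤ 1) {K kh N : ℕ} (h4 : m4 lam c r ≤ kh)
    (hkap : (4 / κ) ^ kh * 4 ≤ (3 / 2 : ℝ) ^ K) (hfar : n * (3 / 4 : ℝ) ^ N ≤ 1 / 16) :
    ∏ i : Fin n, (if ‖lam i - c‖ < 4 * r then 4 / κ else 1 + 4 * (3 / 4 : ℝ) ^ N) ≤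
      (3 / 2 : ℝ) ^ K := by
  classical
  have hδ : (0 : ℝ) ≤ (3 / 4 : ℝ) ^ N := by positivity
  have h1 : (1 : ℝ) ≤ 4 / κ := by
    rw [le_div_iff₀ hκ]
    linarith
  have h2 : ∏ i : Fin n, (if ‖lam i - c‖ < 4 * r then 4 / κ else 1 + 4 * (3 / 4 : ℝ) ^ N) ≤
      ∏ i : Fin n, ((if ‖lam i - c‖ < 4 * r then 4 / κ else 1) * (1 + 4 * (3 / 4 : ℝ) ^ N)) := by
    refine Finset.prod_le_prod (fun i _ => ?_) (fun i _ => ?_)
    · split_ifs <;> positivity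
    · split_ifs
      · refine le_mul_of_one_le_right (by positivity) ?_
        linarith
      · rw [one_mul]
  refine h2.trans ?_
  rw [Finset.prod_mul_distrib, Finset.prod_const, Finset.card_univ, Fintype.card_fin]
  have h3 : ∏ i : Fin n, (if ‖lam i - c‖ < 4 * r then 4 / κ else 1) = (4 / κ) ^ m4 lam c r := by
    rw [Finset.prod_ite, Finset.prod_const, Finset.prod_const_one, mul_one]
    congr 1
  rw [h3]
  have h5 : (1 + 4 * (3 / 4 : ℝ) ^ N) ^ n ≤ 4 := by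
    have h6 : 1 + 4 * (3 / 4 : ℝ) ^ N ≤ Real.exp (4 * (3 / 4 : ℝ) ^ N) := by
      have := Real.add_one_le_exp (4 * (3 / 4 : ℝ) ^ N)
      linarith
    calc (1 + 4 * (3 / 4 : ℝ) ^ N) ^ n ≤ (Real.exp (4 * (3 / 4 : ℝ) ^ N)) ^ n :=
          pow_le_pow_left₀ (by positivity) h6 n
      _ = Real.exp (n * (4 * (3 / 4 : ℝ) ^ N)) := by rw [← Real.exp_nat_mul]
      _ ≤ Real.exp 1 := Real.exp_le_exp.2 (by linarith)
      _ ≤ 4 := by
          have := Real.exp_one_lt_d9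
          linarith
  calc (4 / κ) ^ m4 lam c r * (1 + 4 * (3 / 4 : ℝ) ^ N) ^ n ≤ (4 / κ) ^ kh * 4 :=
        mul_le_mul (pow_le_pow_right₀ h1 h4) h5 (by positivity) (by positivity)
    _ ≤ _ := hkap

theorem ratio_delta {n N : ℕ} (i : Fin n) (hfar : n * (3 / 4 : ℝ) ^ N ≤ 1 / 16) :
    (3 / 4 : ℝ) ^ N ≤ 1 / 16 := by
  have h1 : (1 : ℝ) ≤ n := by
    have := i.pos
    exact_mod_cast this
  have h2 : (0 : ℝ) ≤ (3 / 4 : ℝ) ^ N := by positivity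
  nlinarith

theorem ratio {n : ℕ} (lam : Fin n → ℂ) (c φ : ℂ) (hφ : ‖φ‖ = 1) {r κ : ℝ} (hr : 0 < r) (hκ : 0 < κ)
    (hκ1 : κ ≤ 1) {e K kh : ℕ} (hK : 2 ^ e = 16 * K) (h4 : m4 lam c r ≤ kh)
    (hn2 : ∀ i, ∀ j < 2 ^ e, κ * (4 * r) ≤ ‖nodeZ c (2 * r) φ e j - lam i‖)
    (hn3 : ∀ i, ∀ j < 2 ^ e, κ * (4 * r) ≤ ‖nodeZ c (3 * r) φ e j - lam i‖)
    (hkap : (4 / κ) ^ kh * 4 ≤ (3 / 2 : ℝ) ^ K)
    (hfar : n * (3 / 4 : ℝ) ^ (2 ^ e) ≤ 1 / 16) :
    PiN lam c (2 * r) φ e * (3 / 2 : ℝ) ^ (16 * K * m2 lam c r) ≤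
        PiN lam c (3 * r) φ e * (3 / 2 : ℝ) ^ K ∧
      PiN lam c (3 * r) φ e ≤
        PiN lam c (2 * r) φ e * (3 / 2 : ℝ) ^ (16 * K * m3 lam c r + K) := by
  classical
  have hg := ratio_g lam c hκ hκ1 h4 hkap hfar
  have hδ0 : (0 : ℝ) ≤ (3 / 4 : ℝ) ^ (2 ^ e) := by positivity
  have hg0 : ∀ i : Fin n, 0 ≤ (if ‖lam i - c‖ < 4 * r then 4 / κ
      else 1 + 4 * (3 / 4 : ℝ) ^ (2 ^ e)) := by
    intro i
    split_ifs <;> positivity
  have hA0 : ∀ (rho : ℝ) (i : Fin n), 0 ≤ ‖(rho * φ) ^ (2 ^ e) - (lam i - c) ^ (2 ^ e)‖ :=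
    fun _ _ => norm_nonneg _
  have e32 : (2 * r) ^ (2 ^ e) * (3 / 2 : ℝ) ^ (2 ^ e) = (3 * r) ^ (2 ^ e) := by
    rw [← mul_pow]
    congr 1
    ring
  constructor
  · -- first inequality
    have hm : (3 / 2 : ℝ) ^ (16 * K * m2 lam c r) =
        ∏ i : Fin n, (if ‖lam i - c‖ ≤ 2 * r then (3 / 2 : ℝ) ^ (2 ^ e) else 1) := by
      rw [Finset.prod_ite, Finset.prod_const, Finset.prod_const_one, mul_one, ← pow_mul, hK]
      congr 2
    rw [ratio_PiN, ratio_PiN, hm, ← Finset.prod_mul_distrib]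
    have hstep : ∀ i : Fin n,
        ‖(((2 * r : ℝ) : ℂ) * φ) ^ (2 ^ e) - (lam i - c) ^ (2 ^ e)‖ *
          (if ‖lam i - c‖ ≤ 2 * r then (3 / 2 : ℝ) ^ (2 ^ e) else 1) ≤
        ‖(((3 * r : ℝ) : ℂ) * φ) ^ (2 ^ e) - (lam i - c) ^ (2 ^ e)‖ *
          (if ‖lam i - c‖ < 4 * r then 4 / κ else 1 + 4 * (3 / 4 : ℝ) ^ (2 ^ e)) := by
      intro i
      have ht0 : 0 ≤ ‖lam i - c‖ := norm_nonneg _
      by_cases ht : ‖lam i - c‖ < 4 * r
      · rw [if_pos ht]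
        have hB := ratio_kappa lam c hφ hr hκ hκ1 (by linarith : (0 : ℝ) ≤ 3 * r)
          (by linarith) i (hn3 i) ht
        have hA := ratio_upper hφ (by linarith : (0 : ℝ) ≤ 2 * r) (lam i - c) rfl (2 ^ e)
        have hmax : ((3 * r : ℝ) ^ (2 ^ e)) ≤ (max (3 * r) ‖lam i - c‖) ^ (2 ^ e) :=
          pow_le_pow_left₀ (by linarith) (le_max_left _ _) _
        have hmax2 : (‖lam i - c‖ ^ (2 ^ e)) ≤ (max (3 * r) ‖lam i - c‖) ^ (2 ^ e) :=
          pow_le_pow_left₀ ht0 (le_max_right _ _) _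
        have key : ‖(((2 * r : ℝ) : ℂ) * φ) ^ (2 ^ e) - (lam i - c) ^ (2 ^ e)‖ *
            (if ‖lam i - c‖ ≤ 2 * r then (3 / 2 : ℝ) ^ (2 ^ e) else 1) ≤
            2 * (max (3 * r) ‖lam i - c‖) ^ (2 ^ e) := by
          split_ifs with h2
          · have h3 : ‖lam i - c‖ ^ (2 ^ e) ≤ (2 * r) ^ (2 ^ e) := pow_le_pow_left₀ ht0 h2 _
            calc _ ≤ (2 * (2 * r) ^ (2 ^ e)) * (3 / 2 : ℝ) ^ (2 ^ e) :=
                  mul_le_mul_of_nonneg_right (by linarith) (by positivity)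
              _ = 2 * (3 * r) ^ (2 ^ e) := by rw [mul_assoc, e32]
              _ ≤ _ := by linarith
          · have h3 : (2 * r) ^ (2 ^ e) ≤ ‖lam i - c‖ ^ (2 ^ e) :=
              pow_le_pow_left₀ (by linarith) (not_le.1 h2).le _
            rw [mul_one]
            linarith
        refine key.trans ?_
        have h5 : 2 * (max (3 * r) ‖lam i - c‖) ^ (2 ^ e) =
            (κ / 2 * (max (3 * r) ‖lam i - c‖) ^ (2 ^ e)) * (4 / κ) := by
          field_simp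
          ring
        rw [h5]
        exact mul_le_mul_of_nonneg_right hB (by positivity)
      · rw [if_neg ht]
        have ht' := not_lt.1 ht
        have h2 : ¬ ‖lam i - c‖ ≤ 2 * r := by
          intro h
          linarith
        rw [if_neg h2, mul_one,
          mul_comm ‖(((3 * r : ℝ) : ℂ) * φ) ^ (2 ^ e) - (lam i - c) ^ (2 ^ e)‖]
        have hA := ratio_upper hφ (by linarith : (0 : ℝ) ≤ 2 * r) (lam i - c) rfl (2 ^ e)
        have hB := ratio_lower hφ (by linarith : (0 : ℝ) ≤ 3 * r) (lam i - c) rfl (2 ^ e)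
        have e1 := ratio_pow_le (by linarith : (0 : ℝ) ≤ 2 * r) ht0 (by linarith) (2 ^ e)
        have e2 := ratio_pow_le (by linarith : (0 : ℝ) ≤ 3 * r) ht0 (by linarith) (2 ^ e)
        refine ratio_far hδ0 (ratio_delta i hfar) ht0 (N := 2 ^ e) ?_ ?_
        · rw [mul_add, mul_one]; linarith
        · rw [mul_sub, mul_one]; linarith
    refine (Finset.prod_le_prod (fun i _ => ?_) fun i _ => hstep i).trans ?_
    · split_ifs <;> positivity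
    · rw [Finset.prod_mul_distrib]
      exact mul_le_mul_of_nonneg_left hg (Finset.prod_nonneg fun i _ => norm_nonneg _)
  · -- second inequality
    have hm : (3 / 2 : ℝ) ^ (16 * K * m3 lam c r) =
        ∏ i : Fin n, (if ‖lam i - c‖ < 3 * r then (3 / 2 : ℝ) ^ (2 ^ e) else 1) := by
      rw [Finset.prod_ite, Finset.prod_const, Finset.prod_const_one, mul_one, ← pow_mul, hK]
      congr 2
    rw [ratio_PiN, ratio_PiN, pow_add, hm, ← mul_assoc, ← Finset.prod_mul_distrib]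
    have hstep : ∀ i : Fin n,
        ‖(((3 * r : ℝ) : ℂ) * φ) ^ (2 ^ e) - (lam i - c) ^ (2 ^ e)‖ ≤
        ‖(((2 * r : ℝ) : ℂ) * φ) ^ (2 ^ e) - (lam i - c) ^ (2 ^ e)‖ *
          (if ‖lam i - c‖ < 3 * r then (3 / 2 : ℝ) ^ (2 ^ e) else 1) *
          (if ‖lam i - c‖ < 4 * r then 4 / κ else 1 + 4 * (3 / 4 : ℝ) ^ (2 ^ e)) := by
      intro i
      have ht0 : 0 ≤ ‖lam i - c‖ := norm_nonneg _
      by_cases ht : ‖lam i - c‖ < 4 * r
      · rw [if_pos ht]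
        have hB := ratio_kappa lam c hφ hr hκ hκ1 (by linarith : (0 : ℝ) ≤ 2 * r)
          (by linarith) i (hn2 i) ht
        have hA := ratio_upper hφ (by linarith : (0 : ℝ) ≤ 3 * r) (lam i - c) rfl (2 ^ e)
        have hmax : ((2 * r : ℝ) ^ (2 ^ e)) ≤ (max (2 * r) ‖lam i - c‖) ^ (2 ^ e) :=
          pow_le_pow_left₀ (by linarith) (le_max_left _ _) _
        have hmax2 : (‖lam i - c‖ ^ (2 ^ e)) ≤ (max (2 * r) ‖lam i - c‖) ^ (2 ^ e) :=
          pow_le_pow_left₀ ht0 (le_max_right _ _) _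
        have key : ‖(((3 * r : ℝ) : ℂ) * φ) ^ (2 ^ e) - (lam i - c) ^ (2 ^ e)‖ ≤
            2 * (max (2 * r) ‖lam i - c‖) ^ (2 ^ e) *
            (if ‖lam i - c‖ < 3 * r then (3 / 2 : ℝ) ^ (2 ^ e) else 1) := by
          split_ifs with h2
          · have h3 : ‖lam i - c‖ ^ (2 ^ e) ≤ (3 * r) ^ (2 ^ e) := pow_le_pow_left₀ ht0 h2.le _
            have h6 : (3 * r) ^ (2 ^ e) ≤ (max (2 * r) ‖lam i - c‖) ^ (2 ^ e) *
                (3 / 2 : ℝ) ^ (2 ^ e) := by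
              rw [← e32]
              exact mul_le_mul_of_nonneg_right hmax (by positivity)
            linarith
          · have h3 : (3 * r) ^ (2 ^ e) ≤ ‖lam i - c‖ ^ (2 ^ e) :=
              pow_le_pow_left₀ (by linarith) (not_lt.1 h2) _
            rw [mul_one]
            linarith
        refine key.trans ?_
        have h5 : 2 * (max (2 * r) ‖lam i - c‖) ^ (2 ^ e) =
            (κ / 2 * (max (2 * r) ‖lam i - c‖) ^ (2 ^ e)) * (4 / κ) := by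
          field_simp
          ring
        rw [h5]
        have h7 : 0 ≤ (if ‖lam i - c‖ < 3 * r then (3 / 2 : ℝ) ^ (2 ^ e) else 1) := by
          split_ifs <;> positivity
        have h8 := mul_le_mul_of_nonneg_right hB
          (mul_nonneg (by positivity : (0 : ℝ) ≤ 4 / κ) h7)
        calc _ = κ / 2 * max (2 * r) ‖lam i - c‖ ^ 2 ^ e * (4 / κ *
              (if ‖lam i - c‖ < 3 * r then (3 / 2 : ℝ) ^ (2 ^ e) else 1)) := by ring
          _ ≤ _ := h8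
          _ = _ := by ring
      · rw [if_neg ht]
        have ht' := not_lt.1 ht
        have h2 : ¬ ‖lam i - c‖ < 3 * r := by
          intro h
          linarith
        rw [if_neg h2, mul_one,
          mul_comm ‖(((2 * r : ℝ) : ℂ) * φ) ^ (2 ^ e) - (lam i - c) ^ (2 ^ e)‖]
        have hA := ratio_upper hφ (by linarith : (0 : ℝ) ≤ 3 * r) (lam i - c) rfl (2 ^ e)
        have hB := ratio_lower hφ (by linarith : (0 : ℝ) ≤ 2 * r) (lam i - c) rfl (2 ^ e)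
        have e1 := ratio_pow_le (by linarith : (0 : ℝ) ≤ 2 * r) ht0 (by linarith) (2 ^ e)
        have e2 := ratio_pow_le (by linarith : (0 : ℝ) ≤ 3 * r) ht0 (by linarith) (2 ^ e)
        refine ratio_far hδ0 (ratio_delta i hfar) ht0 (N := 2 ^ e) ?_ ?_
        · rw [mul_add, mul_one]; linarith
        · rw [mul_sub, mul_one]; linarith
    refine (Finset.prod_le_prod (fun i _ => norm_nonneg _) fun i _ => hstep i).trans ?_
    rw [Finset.prod_mul_distrib]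
    refine mul_le_mul_of_nonneg_left hg (Finset.prod_nonneg fun i _ => ?_)
    split_ifs <;> positivity

end H6LP

end S_RATIO

section S_PHI

set_option autoImplicit false

open Complex Matrix

namespace H6LP

theorem PHI_normSq_add (t : ℝ) : ‖(1 : ℂ) + t * I‖ ^ 2 = 1 + t ^ 2 := by
  rw [← Complex.normSq_eq_norm_sq, Complex.normSq_apply]
  simp
  ring

theorem PHI_normSq_sub (t : ℝ) : ‖(1 : ℂ) - t * I‖ ^ 2 = 1 + t ^ 2 := by
  rw [← Complex.normSq_eq_norm_sq, Complex.normSq_apply]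
  simp
  ring

theorem PHI_one_le (t : ℝ) : 1 ≤ ‖(1 : ℂ) - t * I‖ := by
  have h1 := PHI_normSq_sub t
  have h2 := norm_nonneg ((1 : ℂ) - t * I)
  nlinarith [sq_nonneg t]

theorem PHI_norm_eq (t : ℝ) : ‖(1 : ℂ) + t * I‖ = ‖(1 : ℂ) - t * I‖ := by
  have h1 := PHI_normSq_sub t
  have h2 := PHI_normSq_add t
  have h3 := norm_nonneg ((1 : ℂ) - t * I)
  have h4 := norm_nonneg ((1 : ℂ) + t * I)
  nlinarith

theorem PHI_le {t : ℝ} (ht : t ∈ Set.Icc (0 : ℝ) 1) : ‖(1 : ℂ) - t * I‖ ^ 2 ≤ 2 := by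
  rw [PHI_normSq_sub]
  have := ht.1
  have := ht.2
  nlinarith

theorem PHI_ne (t : ℝ) : (1 : ℂ) - t * I ≠ 0 := by
  intro h
  have := PHI_one_le t
  rw [h, norm_zero] at this
  linarith

theorem dir_norm (t : ℝ) : ‖dir t‖ = 1 := by
  unfold dir
  rw [norm_div, PHI_norm_eq]
  exact div_self (norm_ne_zero_iff.2 (PHI_ne t))

/-- `t ↦ dir t` does not contract distances on `[0,1]` -/
theorem dir_sub (t t' : ℝ) (ht : t ∈ Set.Icc (0 : ℝ) 1) (ht' : t' ∈ Set.Icc (0 : ℝ) 1) :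
    |t - t'| ≤ ‖dir t - dir t'‖ := by
  have h1 := PHI_ne t
  have h2 := PHI_ne t'
  have h3 : dir t - dir t' = (2 * ((t - t' : ℝ) : ℂ) * I) / (((1 : ℂ) - t * I) * ((1 : ℂ) - t' * I)) := by
    unfold dir
    rw [div_sub_div _ _ h1 h2]
    congr 1
    push_cast
    ring
  rw [h3, norm_div, norm_mul, norm_mul, norm_mul, Complex.norm_I, mul_one, Complex.norm_real,
    Real.norm_eq_abs, Complex.norm_ofNat]
  have h4 := PHI_one_le t
  have h5 := PHI_one_le t'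
  have h6 := PHI_le ht
  have h7 := PHI_le ht'
  rw [le_div_iff₀ (by positivity), mul_comm]
  gcongr
  nlinarith [sq_nonneg (‖(1 : ℂ) - t * I‖ - ‖(1 : ℂ) - t' * I‖)]

/-! ### the principal root -/

theorem PHI_sqrt_sq (z : ℂ) : z ^ (1 / 2 : ℂ) * z ^ (1 / 2 : ℂ) = z := by
  have h := Complex.cpow_ofNat_inv_pow z 2
  rw [← sq, one_div]
  exact h

theorem PHI_sqrt_re (z : ℂ) : 0 ≤ (z ^ (1 / 2 : ℂ)).re := by
  by_cases hz : z = 0
  · subst hz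
    rw [Complex.zero_cpow (by norm_num)]
    simp
  · rw [Complex.cpow_def_of_ne_zero hz, Complex.exp_re]
    refine mul_nonneg (Real.exp_pos _).le ?_
    have h1 : (Complex.log z * (1 / 2)).im = Complex.arg z / 2 := by
      rw [Complex.mul_im, Complex.log_im]
      norm_num
      ring
    rw [h1]
    apply Real.cos_nonneg_of_neg_pi_div_two_le_of_le
    · have := Complex.neg_pi_lt_arg z
      linarith
    · have := Complex.arg_le_pi z
      linarith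

theorem PHI_sqrt_re_ge {z : ℂ} {ε : ℝ} (h1 : 1 - ε ≤ ‖z‖) (h2 : -ε ≤ z.re) (hε : ε ≤ 1 / 4) :
    1 / 2 ≤ (z ^ (1 / 2 : ℂ)).re := by
  set s := z ^ (1 / 2 : ℂ) with hs
  have h3 : s * s = z := PHI_sqrt_sq z
  have h4 : 0 ≤ s.re := PHI_sqrt_re z
  have h5 : ‖z‖ = s.re * s.re + s.im * s.im := by
    rw [← h3, norm_mul, ← sq, ← Complex.normSq_eq_norm_sq, Complex.normSq_apply]
  have h6 : z.re = s.re * s.re - s.im * s.im := by
    rw [← h3, Complex.mul_re]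
  by_contra hlt
  push Not at hlt
  have h7 : s.re * s.re < 1 / 4 := by nlinarith
  linarith

theorem PHI_omg_re (e : ℕ) : (omg e).re = Real.cos (2 * Real.pi / 2 ^ e) := by
  unfold omg
  have h1 : 2 * (Real.pi : ℂ) * I / 2 ^ e = ((2 * Real.pi / 2 ^ e : ℝ) : ℂ) * I := by
    push_cast
    ring
  rw [h1, Complex.exp_ofReal_mul_I_re]

theorem PHI_omg_succ (e : ℕ) : omg (e + 1) * omg (e + 1) = omg e := by
  unfold omg
  rw [← Complex.exp_add]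
  congr 1
  rw [pow_succ]
  have : (2 : ℂ) ^ e ≠ 0 := pow_ne_zero _ (by norm_num)
  field_simp
  ring

theorem PHI_omg2 : omg 2 = I := by
  unfold omg
  have h1 : 2 * (Real.pi : ℂ) * I / 2 ^ 2 = (Real.pi : ℂ) / 2 * I := by ring
  rw [h1, Complex.exp_pi_div_two_mul_I]

theorem PHI_omg_re_nonneg (k : ℕ) : 0 ≤ (omg (k + 2)).re := by
  rw [PHI_omg_re]
  have hpi := Real.pi_pos
  have h1 : (1 : ℝ) ≤ 2 ^ k := one_le_pow₀ (by norm_num)
  apply Real.cos_nonneg_of_neg_pi_div_two_le_of_le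
  · have : 0 ≤ 2 * Real.pi / 2 ^ (k + 2) := by positivity
    linarith
  · rw [div_le_iff₀ (by positivity), pow_add]
    nlinarith

theorem PHI_omg_re_half (k : ℕ) : 1 / 2 ≤ (omg (k + 3)).re := by
  have h1 := PHI_omg_re_nonneg k
  have h2 := PHI_omg_re_nonneg (k + 1)
  have h3 := PHI_omg_succ (k + 2)
  have h4 : (omg (k + 2)).re = (omg (k + 3)).re * (omg (k + 3)).re - (omg (k + 3)).im * (omg (k + 3)).im := by
    rw [← h3, Complex.mul_re]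
  have h5 : (omg (k + 3)).re * (omg (k + 3)).re + (omg (k + 3)).im * (omg (k + 3)).im = 1 := by
    have := omg_norm (k + 3)
    have h6 : ‖omg (k + 3)‖ ^ 2 = 1 := by rw [this]; norm_num
    rw [← Complex.normSq_eq_norm_sq, Complex.normSq_apply] at h6
    exact h6
  have h2' : 0 ≤ (omg (k + 3)).re := h2
  nlinarith

/-- one root -/
theorem PHI_step {k : ℕ} {z : ℂ} {ε : ℝ} (h : ‖z - omg (k + 2)‖ ≤ ε) (hε : ε ≤ 1 / 4) :
    ‖z ^ (1 / 2 : ℂ) - omg (k + 3)‖ ≤ ε := by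
  have h1 : 1 - ε ≤ ‖z‖ := by
    have h2 := norm_sub_norm_le (omg (k + 2)) z
    rw [omg_norm, norm_sub_rev] at h2
    linarith
  have h2 : -ε ≤ z.re := by
    have h3 := Complex.abs_re_le_norm (z - omg (k + 2))
    rw [Complex.sub_re] at h3
    have h4 := (abs_le.1 (h3.trans h)).1
    have h5 := PHI_omg_re_nonneg k
    linarith
  have h3 := PHI_sqrt_re_ge h1 h2 hε
  have h4 := PHI_omg_re_half k
  set s := z ^ (1 / 2 : ℂ) with hs
  have h5 : (s - omg (k + 3)) * (s + omg (k + 3)) = z - omg (k + 2) := by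
    have h6 : s * s = z := PHI_sqrt_sq z
    have h7 : omg (k + 3) * omg (k + 3) = omg (k + 2) := PHI_omg_succ (k + 2)
    calc (s - omg (k + 3)) * (s + omg (k + 3)) = s * s - omg (k + 3) * omg (k + 3) := by ring
      _ = z - omg (k + 2) := by rw [h6, h7]
  have h6 : 1 ≤ ‖s + omg (k + 3)‖ := by
    have h7 := Complex.abs_re_le_norm (s + omg (k + 3))
    rw [Complex.add_re] at h7
    have h8 := le_abs_self (s.re + (omg (k + 3)).re)
    linarith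
  have h7 : ‖s - omg (k + 3)‖ * ‖s + omg (k + 3)‖ ≤ ε := by
    rw [← norm_mul, h5]
    exact h
  have h8 := norm_nonneg (s - omg (k + 3))
  nlinarith

theorem post_omega {ad : Adv} {u : ℝ} (hu : ad.Le u) {env : Env} (e : ℕ) (he : 2 ≤ e)
    (heu : e * u ≤ 1 / 1000) :
    Post ad (omegaP e) env (fun r env' => ∃ z, Has env' r z ∧ ‖z - omg e‖ ≤ 4 * e * u) := by
  have hu0 : 0 ≤ u := hu.nonneg
  obtain ⟨m, rfl⟩ : ∃ m, e = m + 2 := ⟨e - 2, by omega⟩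
  unfold omegaP
  refine Post.bind (post_cst hu env _ _) ?_
  rintro i env1 h1 ⟨z0, hz0, hz0r⟩
  have hz : ‖z0 - omg 2‖ ≤ u := by
    rw [PHI_omg2]
    unfold Rel at hz0r
    have h2 : (((0 : ℚ) : ℂ) + ((1 : ℚ) : ℂ) * I) = I := by push_cast; ring
    rw [h2, Complex.norm_I, mul_one] at hz0r
    exact hz0r
  have hm : m + 2 - 2 = m := by omega
  rw [hm]
  refine (post_iterP m (fun _ w => sqrtP w) i env1 (fun k r env' => ∃ z, Has env' r z ∧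
      ‖z - omg (k + 2)‖ ≤ (2 * k + 1) * u) ⟨z0, hz0, by simpa using hz⟩ ?_).weaken ?_
  · rintro k hk r env' henv ⟨z, hzr, hzb⟩
    refine (post_sqrt hu hzr).weaken ?_
    rintro r2 env2 he2 ⟨z2, hz2, hz2r⟩
    refine ⟨z2, hz2, ?_⟩
    have hkm : ((k : ℝ)) + 1 ≤ m := by exact_mod_cast hk
    have hsm : (2 * k + 1) * u ≤ 1 / 4 := by
      push_cast at heu
      nlinarith
    have h3 := PHI_step hzb hsm
    have h4 : ‖z ^ (1 / 2 : ℂ)‖ ≤ 2 := by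
      have h5 := norm_sub_norm_le (z ^ (1 / 2 : ℂ)) (omg (k + 3))
      rw [omg_norm] at h5
      linarith
    unfold Rel at hz2r
    have h5 : z2 - omg (k + 1 + 2) = (z2 - z ^ (1 / 2 : ℂ)) + (z ^ (1 / 2 : ℂ) - omg (k + 3)) := by ring
    rw [h5]
    refine (norm_add_le _ _).trans ?_
    have h6 : u * ‖z ^ (1 / 2 : ℂ)‖ ≤ u * 2 := by gcongr
    push_cast
    linarith
  · rintro r env' henv ⟨z, hzr, hzb⟩
    refine ⟨z, hzr, hzb.trans ?_⟩
    push_cast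
    gcongr
    linarith [Nat.cast_nonneg (α := ℝ) m]

/-- arithmetic of the sum -/
theorem PHI_sum {u t : ℝ} {a b a' b' z : ℂ} (hu0 : 0 ≤ u) (hu1 : u ≤ 1 / 1000) (hab : ‖a + b‖ ≤ 3 / 2)
    (ha : ‖a' - a‖ ≤ u) (hb : ‖b' - b‖ ≤ 4 * u) (hz : Rel u (a' + b') z) (ht : t = 7 * u) :
    ‖z - (a + b)‖ ≤ t := by
  unfold Rel at hz
  have h1 : ‖(a' + b') - (a + b)‖ ≤ 5 * u := by
    have : (a' + b') - (a + b) = (a' - a) + (b' - b) := by ring
    rw [this]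
    refine (norm_add_le _ _).trans ?_
    linarith
  have h2 : ‖a' + b'‖ ≤ 3 / 2 + 5 * u := by
    have := norm_sub_norm_le (a' + b') (a + b)
    linarith
  have h3 : z - (a + b) = (z - (a' + b')) + ((a' + b') - (a + b)) := by ring
  rw [h3, ht]
  refine (norm_add_le _ _).trans ?_
  nlinarith

theorem post_phi {ad : Adv} {u : ℝ} (hu : ad.Le u) (hu1 : u ≤ 1 / 1000) {env : Env} {r : ℕ} {t : ℝ}
    {T : ℂ} (ht : t ∈ Set.Icc (0 : ℝ) 1) (hT : ‖T - t‖ ≤ u * t) (hr : Has env r T) :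
    Post ad (phiP r) env (fun r env' => ∃ z, Has env' r z ∧ ‖z - dir t‖ ≤ 40 * u) := by
  have hu0 : 0 ≤ u := hu.nonneg
  have ht0 := ht.1
  have ht1 := ht.2
  unfold phiP
  refine Post.bind (post_cst hu env _ _) ?_
  rintro i env1 h1 ⟨J, hJ, hJr⟩
  have hJ' : ‖J - I‖ ≤ u := by
    unfold Rel at hJr
    have h2 : (((0 : ℚ) : ℂ) + ((1 : ℚ) : ℂ) * I) = I := by push_cast; ring
    rw [h2, Complex.norm_I, mul_one] at hJr
    exact hJr
  refine Post.bind (post_cst hu env1 _ _) ?_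
  rintro o env2 h2 ⟨O, hO, hOr⟩
  have hO' : ‖O - 1‖ ≤ u := by
    unfold Rel at hOr
    have h2 : (((1 : ℚ) : ℂ) + ((0 : ℚ) : ℂ) * I) = 1 := by push_cast; ring
    rw [h2, norm_one, mul_one] at hOr
    exact hOr
  refine Post.bind (post_mul hu (hJ.mono h2) (hr.mono (h1.trans h2))) ?_
  rintro it env3 h3 ⟨K, hK, hKr⟩
  have hTn : ‖T‖ ≤ 1 + u := by
    have h4 := norm_sub_norm_le T t
    rw [Complex.norm_real, Real.norm_eq_abs, abs_of_nonneg ht0] at h4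
    nlinarith
  have hJn : ‖J‖ ≤ 1 + u := by
    have h4 := norm_sub_norm_le J I
    rw [Complex.norm_I] at h4
    linarith
  have hK' : ‖K - t * I‖ ≤ 4 * u := by
    unfold Rel at hKr
    have h4 : K - t * I = (K - J * T) + ((J - I) * T + I * (T - t)) := by ring
    rw [h4]
    refine (norm_add_le _ _).trans ?_
    have h5 : ‖(J - I) * T + I * (T - t)‖ ≤ u * (1 + u) + u := by
      refine (norm_add_le _ _).trans ?_
      rw [norm_mul, norm_mul, Complex.norm_I, one_mul]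
      have h6 : ‖J - I‖ * ‖T‖ ≤ u * (1 + u) := by gcongr
      nlinarith
    rw [norm_mul] at hKr
    have h7 : u * (‖J‖ * ‖T‖) ≤ u * ((1 + u) * (1 + u)) := by gcongr
    have h8 : u * ((1 + u) * (1 + u)) ≤ u * 1.01 := by
      gcongr
      nlinarith
    have h9 : u * (1 + u) ≤ u * 1.01 := by
      gcongr
      linarith
    linarith
  have hKm : ‖(-K) - (-(t * I))‖ ≤ 4 * u := by
    have h4 : (-K) - (-(t * I)) = -(K - t * I) := by ring
    rw [h4, norm_neg]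
    exact hK'
  have hnm : ‖(1 : ℂ) - t * I‖ ≤ 3 / 2 := by
    have h4 := PHI_le ht
    have h5 := norm_nonneg ((1 : ℂ) - t * I)
    nlinarith
  have hnp : ‖(1 : ℂ) + t * I‖ ≤ 3 / 2 := by rw [PHI_norm_eq]; exact hnm
  refine Post.bind (post_add hu (hO.mono h3) hK) ?_
  rintro a env4 h4 ⟨A, hA, hAr⟩
  have hA' := PHI_sum hu0 hu1 hnp hO' hK' hAr rfl
  refine Post.bind (post_sub hu (hO.mono (h3.trans h4)) (hK.mono h4)) ?_
  rintro b env5 h5 ⟨B, hB, hBr⟩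
  have hB' : ‖B - (1 - t * I)‖ ≤ 7 * u := by
    have h6 := PHI_sum (a := 1) (b := -(t * I)) (a' := O) (b' := -K) (z := B) hu0 hu1 (by
      rw [← sub_eq_add_neg]; exact hnm) hO' hKm (by rw [← sub_eq_add_neg]; exact hBr) rfl
    rw [← sub_eq_add_neg] at h6
    exact h6
  have hb1 := PHI_one_le t
  have hBn : 0.99 ≤ ‖B‖ := by
    have h6 := norm_sub_norm_le (1 - t * I : ℂ) B
    rw [norm_sub_rev (1 - t * I : ℂ) B] at h6
    linarith
  have hB0 : B ≠ 0 := by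
    intro h6
    rw [h6, norm_zero] at hBn
    norm_num at hBn
  refine (post_div hu (hA.mono h5) hB hB0).weaken ?_
  rintro r' env6 h6 ⟨z, hz, hzr⟩
  refine ⟨z, hz, ?_⟩
  have hq : ‖A / B - dir t‖ ≤ 15 * u := by
    unfold dir
    rw [div_sub_div _ _ hB0 (PHI_ne t), norm_div, norm_mul, div_le_iff₀ (by positivity)]
    have h7 : A * (1 - t * I) - B * (1 + t * I) =
        (A - (1 + t * I)) * (1 - t * I) - (B - (1 - t * I)) * (1 + t * I) := by ring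
    rw [h7]
    refine (norm_sub_le _ _).trans ?_
    rw [norm_mul, norm_mul, PHI_norm_eq]
    have h8 : ‖A - (1 + t * I)‖ * ‖(1 : ℂ) - t * I‖ ≤ 7 * u * ‖(1 : ℂ) - t * I‖ := by gcongr
    have h9 : ‖B - (1 - t * I)‖ * ‖(1 : ℂ) - t * I‖ ≤ 7 * u * ‖(1 : ℂ) - t * I‖ := by gcongr
    have h10 : 15 * u * (0.99 * ‖(1 : ℂ) - t * I‖) ≤ 15 * u * (‖B‖ * ‖(1 : ℂ) - t * I‖) := by gcongr
    have h11 : 0 ≤ u * ‖(1 : ℂ) - t * I‖ := by positivity
    nlinarith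
  unfold Rel at hzr
  have hqn : ‖A / B‖ ≤ 2 := by
    have h7 := norm_sub_norm_le (A / B) (dir t)
    rw [dir_norm] at h7
    linarith
  have h8 : z - dir t = (z - A / B) + (A / B - dir t) := by ring
  rw [h8]
  refine (norm_add_le _ _).trans ?_
  have h9 : u * ‖A / B‖ ≤ u * 2 := by gcongr
  linarith

end H6LP

end S_PHI

section S_SRCH

set_option autoImplicit false

open Complex Matrix

namespace H6LP

/-- one squaring -/
theorem SRCH_sq {u ε y t t' : ℝ} (hu0 : 0 ≤ u) (hε0 : 0 ≤ ε) (hy : 0 < y) (hs : ε + u ≤ 1 / 10)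
    (ht : |t - y| ≤ ε * y) (ht' : |t' - t * t| ≤ u * |t * t|) :
    |t' - y * y| ≤ (3 * ε + 2 * u) * (y * y) ∧ 0 < t := by
  have h1 := abs_le.1 ht
  have ht0 : 0 < t := by nlinarith
  have hyy : 0 < y * y := mul_pos hy hy
  have htu : t ≤ (1 + ε) * y := by nlinarith
  have h2 : t * t ≤ (1 + ε) ^ 2 * (y * y) := by
    calc t * t ≤ ((1 + ε) * y) * ((1 + ε) * y) := by gcongr
      _ = (1 + ε) ^ 2 * (y * y) := by ring
  have h3 : |t * t - y * y| ≤ (ε * y) * ((2 + ε) * y) := by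
    have h4 : t * t - y * y = (t - y) * (t + y) := by ring
    rw [h4, abs_mul]
    have h5 : |t + y| ≤ (2 + ε) * y := by
      rw [abs_of_pos (by linarith)]
      nlinarith
    gcongr
  have h6 : |t' - y * y| ≤ |t' - t * t| + |t * t - y * y| := abs_sub_le _ _ _
  rw [abs_of_pos (mul_pos ht0 ht0)] at ht'
  have h7 : (1 + ε) ^ 2 ≤ 2 := by nlinarith
  have h8 : u * (t * t) ≤ u * (2 * (y * y)) :=
    mul_le_mul_of_nonneg_left (h2.trans (mul_le_mul_of_nonneg_right h7 hyy.le)) hu0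
  refine ⟨?_, ht0⟩
  have h9 : (ε * y) * ((2 + ε) * y) ≤ 3 * ε * (y * y) := by
    have : (ε * y) * ((2 + ε) * y) = (2 + ε) * ε * (y * y) := by ring
    rw [this]
    gcongr
    linarith
  nlinarith

/-- repeated squaring -/
theorem post_sqrs {ad : Adv} {u : ℝ} (hu : ad.Le u) {env : Env} {r : ℕ} {x t0 : ℝ} (hx : 0 < x)
    (hr : Has env r (t0 : ℂ)) (h0 : |t0 - x| ≤ u * x) (m : ℕ) (hm : 4 ^ (m + 1) * u ≤ 1 / 100) :
    Post ad (iterP m (fun _ t => fmulP t t) r) env (fun r' env' => ∃ t : ℝ, Has env' r' (t : ℂ) ∧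
      |t - x ^ (2 ^ m)| ≤ 4 ^ (m + 1) * u * x ^ (2 ^ m)) := by
  have hu0 : 0 ≤ u := hu.nonneg
  -- stronger invariant: `ε_k = (4^k·3 - 2)…`; we use `4^(k+1) u - 3 u ≥ ε_k`
  refine (post_iterP m (fun _ t => fmulP t t) r env (fun k r' env' => ∃ t : ℝ, Has env' r' (t : ℂ) ∧
      |t - x ^ (2 ^ k)| ≤ (4 ^ (k + 1) - 3) * u * x ^ (2 ^ k)) ⟨t0, hr, ?_⟩ ?_).weaken ?_
  · norm_num
    exact h0
  · rintro k hk r' env' henv ⟨t, ht, htb⟩
    refine (post_fmul hu ht ht).weaken ?_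
    rintro r2 env2 h2 ⟨t2, ht2, ht2b⟩
    refine ⟨t2, ht2, ?_⟩
    have hk4 : (4 : ℝ) ^ (k + 1) ≤ 4 ^ (m + 1) := pow_le_pow_right₀ (by norm_num) (by omega)
    have h41 : (4 : ℝ) ≤ 4 ^ (k + 1) := by
      calc (4 : ℝ) = 4 ^ 1 := by norm_num
        _ ≤ 4 ^ (k + 1) := pow_le_pow_right₀ (by norm_num) (by omega)
    have h3 : (4 : ℝ) ^ (k + 1) * u ≤ 1 / 100 := (mul_le_mul_of_nonneg_right hk4 hu0).trans hm
    have hy : 0 < x ^ (2 ^ k) := by positivity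
    obtain ⟨h5, -⟩ := SRCH_sq hu0 (ε := (4 ^ (k + 1) - 3) * u) (mul_nonneg (by linarith) hu0) hy
      (by nlinarith) htb ht2b
    have h6 : x ^ (2 ^ (k + 1)) = x ^ (2 ^ k) * x ^ (2 ^ k) := by
      rw [← pow_add]; congr 1; rw [pow_succ]; ring
    rw [h6]
    refine h5.trans ?_
    gcongr
    rw [pow_succ (4 : ℝ) (k + 1)]
    nlinarith
  · rintro r' env' henv ⟨t, ht, htb⟩
    refine ⟨t, ht, htb.trans ?_⟩
    gcongr
    linarith

/-- the search: the result is `k 2^j` where `j` is the first index with `P₂ < P₁ τ^(k 2^j)` (up to the factors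
`0.8`, `1.25`), or `j = m` -/
theorem post_search {ad : Adv} {u : ℝ} (hu : ad.Le u) {P1 P2 τ : ℝ} (h1 : 0 < P1) (hτ : 1 ≤ τ)
    {p1 p2 : ℕ} (m : ℕ) : ∀ (k : ℕ) (env : Env) (r : ℕ) (t ε : ℝ), 1 ≤ k → 0 ≤ ε →
    Has env p1 (P1 : ℂ) → Has env p2 (P2 : ℂ) → Has env r (t : ℂ) → |t - τ ^ k| ≤ ε * τ ^ k →
    4 ^ (m + 1) * (ε + u) ≤ 1 / 10 →
    Post ad (searchP p1 p2 m r k) env (fun k' _ => ∃ j ≤ m, k' = k * 2 ^ j ∧
      (j < m → P2 < 1.25 * (P1 * τ ^ k')) ∧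
      (∀ j', j = j' + 1 → 0.8 * (P1 * τ ^ (k * 2 ^ j')) ≤ P2)) := by
  have hu0 : 0 ≤ u := hu.nonneg
  induction m with
  | zero =>
    intro k env r t ε hk hε hp1 hp2 hr ht hsm
    refine Post.pure ⟨0, le_rfl, by simp, by simp, ?_⟩
    intro j' hj'
    omega
  | succ m ih =>
    intro k env r t ε hk hε hp1 hp2 hr ht hsm
    have h4 : (4 : ℝ) ^ (m + 1 + 1) = 4 * 4 ^ (m + 1) := by rw [pow_succ]; ring
    have h41 : (1 : ℝ) ≤ 4 ^ (m + 1) := one_le_pow₀ (by norm_num)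
    have hεu : ε + u ≤ 1 / 40 := by
      rw [h4] at hsm
      have h5 : 0 ≤ ε + u := by linarith
      nlinarith
    have hy : 0 < τ ^ k := by positivity
    have hPy : 0 < P1 * τ ^ k := mul_pos h1 hy
    have ht' := abs_le.1 ht
    have ht0 : 0 < t := by nlinarith
    unfold searchP
    refine Post.bind (post_fmul hu hp1 hr) ?_
    rintro xr env1 he1 ⟨x, hx, hxb⟩
    refine Post.bind (post_le hx (hp2.mono he1)) ?_
    rintro b env2 he2 ⟨rfl, hb⟩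
    rw [Complex.ofReal_re, Complex.ofReal_re] at hb
    rw [abs_of_pos (mul_pos h1 ht0)] at hxb
    have hxb' := abs_le.1 hxb
    have hPt1 : P1 * t ≤ (1 + ε) * (P1 * τ ^ k) := by nlinarith
    have hPt2 : (1 - ε) * (P1 * τ ^ k) ≤ P1 * t := by nlinarith
    have hPt0 : 0 < P1 * t := mul_pos h1 ht0
    have hε' : ε ≤ 1 / 40 := by linarith
    have hu' : u ≤ 1 / 40 := by linarith
    have hu2 : u * (P1 * t) ≤ 1 / 40 * (P1 * t) := by gcongr
    have he2' : ε * (P1 * τ ^ k) ≤ 1 / 40 * (P1 * τ ^ k) := by gcongr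
    have hxu : x < 1.25 * (P1 * τ ^ k) := by nlinarith
    have hxl : 0.8 * (P1 * τ ^ k) ≤ x := by nlinarith
    by_cases hbb : b = true
    · have hle := hb.1 hbb
      rw [if_pos hbb]
      refine Post.bind (post_fmul hu (hr.mono he1) (hr.mono he1)) ?_
      rintro r3 env3 he3 ⟨t3, ht3, ht3b⟩
      obtain ⟨h5, -⟩ := SRCH_sq hu0 hε hy (by linarith) ht ht3b
      have h6 : τ ^ (2 * k) = τ ^ k * τ ^ k := by rw [← pow_add]; congr 1; ring
      rw [← h6] at h5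
      refine (ih (2 * k) env3 r3 t3 (3 * ε + 2 * u) (by omega) (by positivity)
        (hp1.mono (he1.trans he3)) (hp2.mono (he1.trans he3)) ht3 h5 ?_).weaken ?_
      · refine le_trans ?_ hsm
        rw [h4]
        have h7 : 0 ≤ ε + u := by linarith
        calc 4 ^ (m + 1) * (3 * ε + 2 * u + u) = 4 ^ (m + 1) * (3 * (ε + u)) := by ring
          _ ≤ 4 ^ (m + 1) * (4 * (ε + u)) := by gcongr; linarith
          _ = 4 * 4 ^ (m + 1) * (ε + u) := by ring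
      · rintro k' env' henv' ⟨j, hj, hk', hs1, hs2⟩
        refine ⟨j + 1, by omega, by rw [hk', pow_succ]; ring, fun hjm => hs1 (by omega), ?_⟩
        intro j' hj'
        have hjj : j' = j := by omega
        subst hjj
        rcases Nat.eq_zero_or_pos j' with h0 | h0
        · subst h0
          simp only [pow_zero, mul_one]
          linarith
        · obtain ⟨i, rfl⟩ : ∃ i, j' = i + 1 := ⟨j' - 1, by omega⟩
          have := hs2 i rfl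
          have h8 : 2 * k * 2 ^ i = k * 2 ^ (i + 1) := by rw [pow_succ]; ring
          rw [h8] at this
          exact this
    · rw [if_neg hbb]
      have hlt : P2 < x := by
        by_contra hge
        push Not at hge
        exact hbb (hb.2 hge)
      refine Post.pure ⟨0, Nat.zero_le _, by simp, fun _ => by linarith, ?_⟩
      intro j' hj'
      omega

end H6LP

end S_SRCH

section S_CIRC

set_option autoImplicit false

open Complex Matrix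

namespace H6LP

/-- one step of the recursion of the nodes (numbers) -/
theorem CIRC_arith {u v g E w : ℝ} (hu0 : 0 ≤ u) (hE : 1 ≤ E) (hv : v = 50 * E * u) (hg : 1 ≤ g)
    (hw : w ≤ 4 * E * u) (hw0 : 0 ≤ w) (hEu : E * u ≤ 1 / 8) :
    u * g * (1 + w) + (g - 1) * (1 + w) + w ≤ (1 + v) * g - 1 := by
  have h0 : 0 ≤ E * u := by positivity
  have h1 : u ≤ E * u := le_mul_of_one_le_left hu0 hE
  have h2 : u * (1 + w) ≤ 2 * (E * u) := by nlinarith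
  have h3 : u * (1 + w) + w ≤ v := by rw [hv]; nlinarith
  have h4 : (u * (1 + w) + w) * g ≤ v * g := by gcongr
  nlinarith

/-- one step of the recursion of the nodes -/
theorem CIRC_step {u v g E rho : ℝ} {x q W om p' : ℂ} (hu0 : 0 ≤ u) (hE : 1 ≤ E) (hv : v = 50 * E * u)
    (hg : 1 ≤ g) (hEu : E * u ≤ 1 / 8) (hrho : 0 ≤ rho) (hx : ‖x‖ = rho) (hom : ‖om‖ = 1)
    (hW : ‖W - om‖ ≤ 4 * E * u) (hq : ‖q - x‖ ≤ rho * (g - 1)) (hp : Rel u (q * W) p') :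
    ‖p' - x * om‖ ≤ rho * ((1 + v) * g - 1) := by
  unfold Rel at hp
  have hWn : ‖W‖ ≤ 1 + ‖W - om‖ := by
    have h1 : W = om + (W - om) := by ring
    calc ‖W‖ = ‖om + (W - om)‖ := by rw [← h1]
      _ ≤ ‖om‖ + ‖W - om‖ := norm_add_le _ _
      _ = 1 + ‖W - om‖ := by rw [hom]
  have hqn : ‖q‖ ≤ rho * g := by
    have h1 : q = x + (q - x) := by ring
    calc ‖q‖ = ‖x + (q - x)‖ := by rw [← h1]
      _ ≤ ‖x‖ + ‖q - x‖ := norm_add_le _ _
      _ ≤ rho + rho * (g - 1) := by rw [hx]; gcongr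
      _ = rho * g := by ring
  set w := ‖W - om‖ with hw
  have hw0 : 0 ≤ w := norm_nonneg _
  have h1 : p' - x * om = (p' - q * W) + ((q - x) * W + x * (W - om)) := by ring
  have h2 : ‖p' - x * om‖ ≤ u * (‖q‖ * ‖W‖) + (‖q - x‖ * ‖W‖ + ‖x‖ * w) := by
    rw [h1]
    refine (norm_add_le _ _).trans (add_le_add ?_ ((norm_add_le _ _).trans ?_))
    · rw [← norm_mul]; exact hp
    · rw [norm_mul, norm_mul]
  refine h2.trans ?_
  have h3 := CIRC_arith hu0 hE hv hg hW hw0 hEu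
  have hg0 : 0 ≤ g - 1 := by linarith
  calc u * (‖q‖ * ‖W‖) + (‖q - x‖ * ‖W‖ + ‖x‖ * w)
      ≤ u * ((rho * g) * (1 + w)) + ((rho * (g - 1)) * (1 + w) + rho * w) := by
        rw [hx]
        gcongr
    _ = rho * (u * g * (1 + w) + (g - 1) * (1 + w) + w) := by ring
    _ ≤ rho * ((1 + v) * g - 1) := by gcongr

/-- the starting point -/
theorem CIRC_start {u v E rho : ℝ} {phi Phi rr p' : ℂ} (hu0 : 0 ≤ u) (hu1 : u ≤ 1 / 100) (hE : 2 ≤ E)
    (hv : v = 50 * E * u) (hrho : 0 ≤ rho) (hphi : ‖phi‖ = 1) (hPhi : ‖Phi - phi‖ ≤ 40 * u)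
    (hr : Rel u (rho : ℂ) rr) (hp : Rel u (rr * Phi) p') :
    ‖p' - rho * phi‖ ≤ rho * ((1 + v) - 1) := by
  unfold Rel at hr hp
  have hrn0 : ‖(rho : ℂ)‖ = rho := by rw [Complex.norm_real, Real.norm_eq_abs, abs_of_nonneg hrho]
  rw [hrn0] at hr
  have hPn : ‖Phi‖ ≤ 1 + 40 * u := by
    have h1 : Phi = phi + (Phi - phi) := by ring
    calc ‖Phi‖ = ‖phi + (Phi - phi)‖ := by rw [← h1]
      _ ≤ ‖phi‖ + ‖Phi - phi‖ := norm_add_le _ _
      _ ≤ 1 + 40 * u := by rw [hphi]; gcongr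
  have hrn : ‖rr‖ ≤ rho * (1 + u) := by
    have h1 : rr = (rho : ℂ) + (rr - (rho : ℂ)) := by ring
    calc ‖rr‖ = ‖(rho : ℂ) + (rr - (rho : ℂ))‖ := by rw [← h1]
      _ ≤ ‖(rho : ℂ)‖ + ‖rr - (rho : ℂ)‖ := norm_add_le _ _
      _ ≤ rho + u * rho := by rw [hrn0]; gcongr
      _ = rho * (1 + u) := by ring
  have h1 : p' - rho * phi = (p' - rr * Phi) + ((rr - rho) * Phi + rho * (Phi - phi)) := by ring
  have h2 : ‖p' - rho * phi‖ ≤ u * (‖rr‖ * ‖Phi‖) + (‖rr - rho‖ * ‖Phi‖ + ‖(rho : ℂ)‖ * ‖Phi - phi‖) := by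
    rw [h1]
    refine (norm_add_le _ _).trans (add_le_add ?_ ((norm_add_le _ _).trans ?_))
    · rw [← norm_mul]; exact hp
    · rw [norm_mul, norm_mul]
  refine h2.trans ?_
  rw [hrn0]
  calc u * (‖rr‖ * ‖Phi‖) + (‖rr - rho‖ * ‖Phi‖ + rho * ‖Phi - phi‖)
      ≤ u * ((rho * (1 + u)) * (1 + 40 * u)) + ((u * rho) * (1 + 40 * u) + rho * (40 * u)) := by
        gcongr
    _ = rho * (u * ((1 + u) * (1 + 40 * u) + (1 + 40 * u) + 40)) := by ring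
    _ ≤ rho * (u * 100) := by
        gcongr
        nlinarith
    _ ≤ rho * ((1 + v) - 1) := by
        gcongr
        rw [hv]
        nlinarith

/-- the distance of the computed node -/
theorem CIRC_dist {u g rho : ℝ} {x q C c Z : ℂ} (hu0 : 0 ≤ u) (hu1 : u ≤ 1 / 100) (hrho : 0 ≤ rho)
    (hx : ‖x‖ = rho) (hq : ‖q - x‖ ≤ rho * (g - 1)) (hg : g ≤ 2) (hC : ‖C - c‖ ≤ u * ‖c‖)
    (hZ : Rel u (C + q) Z) :
    ‖Z - (c + x)‖ ≤ u * (4 * ‖c‖ + 2 * rho) + rho * (g - 1) := by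
  unfold Rel at hZ
  have hCn : ‖C‖ ≤ ‖c‖ + u * ‖c‖ := by
    have h1 : C = c + (C - c) := by ring
    calc ‖C‖ = ‖c + (C - c)‖ := by rw [← h1]
      _ ≤ ‖c‖ + ‖C - c‖ := norm_add_le _ _
      _ ≤ ‖c‖ + u * ‖c‖ := by gcongr
  have hqn : ‖q‖ ≤ 2 * rho := by
    have h1 : q = x + (q - x) := by ring
    calc ‖q‖ = ‖x + (q - x)‖ := by rw [← h1]
      _ ≤ ‖x‖ + ‖q - x‖ := norm_add_le _ _
      _ ≤ rho + rho * (g - 1) := by rw [hx]; gcongr
      _ ≤ 2 * rho := by nlinarith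
  have h1 : Z - (c + x) = (Z - (C + q)) + ((C - c) + (q - x)) := by ring
  have h2 : ‖Z - (c + x)‖ ≤ u * (‖C‖ + ‖q‖) + (u * ‖c‖ + rho * (g - 1)) := by
    rw [h1]
    refine (norm_add_le _ _).trans (add_le_add ?_ ((norm_add_le _ _).trans (add_le_add hC hq)))
    refine hZ.trans ?_
    gcongr
    exact norm_add_le _ _
  refine h2.trans ?_
  have h3 : u * (‖C‖ + ‖q‖) ≤ u * ((‖c‖ + u * ‖c‖) + 2 * rho) := by gcongr
  have h4 : u * (u * ‖c‖) ≤ u * (1 * ‖c‖) := by gcongr; linarith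
  have h5 : 0 ≤ u * ‖c‖ := by positivity
  nlinarith

/-- the accumulated product -/
theorem CIRC_acc {u a d D lo hi acc pr : ℝ} (hu0 : 0 ≤ u) (hu1 : u ≤ 1 / 10000) (hD : 0 < D) (hpr : 0 < pr)
    (hlo : 0 < lo) (hhi : 0 < hi)
    (hd : |d - D| ≤ 0.005 * D) (h1 : lo * pr ≤ acc) (h2 : acc ≤ hi * pr)
    (ha : |a - acc * d| ≤ u * |acc * d|) :
    (lo * 0.994) * (pr * D) ≤ a ∧ a ≤ (hi * 1.006) * (pr * D) := by
  have hd' := abs_le.1 hd
  have hd0 : 0 < d := by nlinarith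
  have hacc : 0 < acc := lt_of_lt_of_le (by positivity) h1
  rw [abs_of_pos (mul_pos hacc hd0)] at ha
  have ha' := abs_le.1 ha
  have h3 : acc * d ≤ (hi * pr) * (1.005 * D) := by
    gcongr
    linarith
  have h4 : (lo * pr) * (0.995 * D) ≤ acc * d := by
    gcongr
    linarith
  have h5 : 0 < acc * d := mul_pos hacc hd0
  have h6 : u * (acc * d) ≤ 1 / 10000 * (acc * d) := by gcongr
  have h7 : 0 < lo * pr * D := by positivity
  have h8 : 0 < hi * pr * D := by positivity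
  constructor <;> nlinarith

theorem CIRC_fin1 {u : ℝ} (hu0 : 0 ≤ u) (hu1 : u ≤ 1 / 10000) {N : ℕ} (hN : 1 ≤ N) :
    (0.99 : ℝ) ^ N ≤ (1 - u) * 0.994 ^ N := by
  obtain ⟨m, rfl⟩ : ∃ m, N = m + 1 := ⟨N - 1, by omega⟩
  have h1 : (0.99 : ℝ) ^ m ≤ 0.994 ^ m := by gcongr; norm_num
  have h2 : (0 : ℝ) < 0.994 ^ m := by positivity
  rw [pow_succ, pow_succ]
  nlinarith

theorem CIRC_fin2 {u : ℝ} (hu0 : 0 ≤ u) (hu1 : u ≤ 1 / 10000) {N : ℕ} (hN : 1 ≤ N) :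
    (1 + u) * (1.006 : ℝ) ^ N ≤ 1.01 ^ N := by
  obtain ⟨m, rfl⟩ : ∃ m, N = m + 1 := ⟨N - 1, by omega⟩
  have h1 : (1.006 : ℝ) ^ m ≤ 1.01 ^ m := by gcongr; norm_num
  have h2 : (0 : ℝ) < 1.006 ^ m := by positivity
  rw [pow_succ, pow_succ]
  nlinarith

theorem post_circ {ad : Adv} {u : ℝ} (hu : ad.Le u) {n : ℕ} (hn : 1 ≤ n)
    {env : Env} {x : RMat n n} {cr φr wr : ℕ} {X : Matrix (Fin n) (Fin n) ℂ} {C c Φ φ W : ℂ} {t : ℝ}
    {rho : ℚ} {e : ℕ} (he : 2 ≤ e)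
    (hx : HasM env x X) (hc : Has env cr C) (hφ : Has env φr Φ) (hw : Has env wr W)
    (hh : Hess X) (hb : ∀ k (hk : k + 1 < n), X ⟨k + 1, hk⟩ ⟨k, by omega⟩ ≠ 0)
    (hrho : 0 < rho) (hC : ‖C - c‖ ≤ u * ‖c‖) (hφ1 : ‖φ‖ = 1) (hΦ : ‖Φ - φ‖ ≤ 40 * u)
    (hW : ‖W - omg e‖ ≤ 4 * e * u)
    (ht : 0 < t) (ht1 : t ≤ 1) (hcol : ∀ j < 2 ^ e, ColAt X (nodeZ c rho φ e j) t)
    (hnu : 10 ^ 8 * n ^ 3 * (2 ^ e) ^ 2 * u * (fro X + ‖c‖ + rho + 1) ≤ t) :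
    Post ad (circP x cr rho φr wr e) env (fun r env' => ∃ P : ℝ, Has env' r (P : ℂ) ∧
      (0.99 : ℝ) ^ (2 ^ e) * ∏ j ∈ Finset.range (2 ^ e),
        ‖(nodeZ c rho φ e j • (1 : Matrix (Fin n) (Fin n) ℂ) - X).det‖ ≤ P ∧
      P ≤ (1.01 : ℝ) ^ (2 ^ e) * ∏ j ∈ Finset.range (2 ^ e),
        ‖(nodeZ c rho φ e j • (1 : Matrix (Fin n) (Fin n) ℂ) - X).det‖ ∧
      0 < ∏ j ∈ Finset.range (2 ^ e),
        ‖(nodeZ c rho φ e j • (1 : Matrix (Fin n) (Fin n) ℂ) - X).det‖) := by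
  have hu0 : 0 ≤ u := hu.nonneg
  have hn1 : (1 : ℝ) ≤ n := by exact_mod_cast hn
  have hfro0 : 0 ≤ fro X := fro_nonneg X
  have hrho0 : (0 : ℝ) < rho := by exact_mod_cast hrho
  have hN1 : (1 : ℝ) ≤ (2 : ℝ) ^ e := one_le_pow₀ (by norm_num)
  have heN : (e : ℝ) ≤ (2 : ℝ) ^ e := by exact_mod_cast (Nat.lt_two_pow_self (n := e)).le
  have he2 : (2 : ℝ) ≤ e := by exact_mod_cast he
  set N : ℝ := (2 : ℝ) ^ e with hN
  set v : ℝ := 50 * e * u with hv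
  -- smallness
  have hB : 10 ^ 8 * (N ^ 2 * u) * (fro X + ‖c‖ + rho + 1) ≤ t := by
    refine le_trans ?_ hnu
    have h1 : (1 : ℝ) ≤ (n : ℝ) ^ 3 := one_le_pow₀ hn1
    have h2 : (0 : ℝ) ≤ fro X + ‖c‖ + rho + 1 := by positivity
    calc 10 ^ 8 * (N ^ 2 * u) * (fro X + ‖c‖ + rho + 1)
        = 10 ^ 8 * 1 * N ^ 2 * u * (fro X + ‖c‖ + rho + 1) := by ring
      _ ≤ 10 ^ 8 * n ^ 3 * N ^ 2 * u * (fro X + ‖c‖ + rho + 1) := by gcongr
  have hNu : 10 ^ 8 * (N ^ 2 * u) ≤ 1 := by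
    have h1 : 10 ^ 8 * (N ^ 2 * u) * 1 ≤ 10 ^ 8 * (N ^ 2 * u) * (fro X + ‖c‖ + rho + 1) := by
      gcongr
      have := norm_nonneg c
      linarith
    linarith
  have huN : u ≤ N ^ 2 * u := le_mul_of_one_le_left hu0 (one_le_pow₀ hN1)
  have hu1 : u ≤ 1 / 10000 := by norm_num at hNu; linarith
  have heu : (e : ℝ) * u ≤ N ^ 2 * u := by
    gcongr
    nlinarith
  have hev : (e : ℝ) * u ≤ 1 / 8 := by norm_num at hNu; linarith
  have hv0 : 0 ≤ v := by positivity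
  have hg : ∀ j : ℕ, j < 2 ^ e → 1 ≤ (1 + v) ^ (j + 1) ∧ (1 + v) ^ (j + 1) - 1 ≤ 100 * (N ^ 2 * u) := by
    intro j hj
    refine ⟨one_le_pow₀ (by linarith), ?_⟩
    have hjN : ((j + 1 : ℕ) : ℝ) ≤ N := by
      rw [hN]
      exact_mod_cast hj
    have h1 : ((j + 1 : ℕ) : ℝ) * v ≤ 50 * (N ^ 2 * u) := by
      calc ((j + 1 : ℕ) : ℝ) * v ≤ N * (50 * N * u) := by
            rw [hv]
            gcongr
        _ = 50 * (N ^ 2 * u) := by ring
    have h2 := one_add_pow_sub_one_le hv0 (k := j + 1) (by norm_num at hNu; linarith)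
    linarith
  unfold circP
  refine Post.bind (post_cst hu env _ _) ?_
  rintro rr env1 h1 ⟨RR, hRR, hRRrel⟩
  have hRRrel' : Rel u ((rho : ℝ) : ℂ) RR := by
    have h5 : ((rho : ℂ) + ((0 : ℚ) : ℂ) * I) = ((rho : ℝ) : ℂ) := by push_cast; ring
    rw [h5] at hRRrel
    exact hRRrel
  refine Post.bind (post_mul hu hRR (hφ.mono h1)) ?_
  rintro p env2 h2 ⟨P0, hP0, hP0rel⟩
  have hstart := CIRC_start hu0 (by linarith) he2 hv hrho0.le hφ1 hΦ hRRrel' hP0rel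
  refine Post.bind (post_cst hu env2 _ _) ?_
  rintro o env3 h3 ⟨O, hO, hOrel⟩
  refine Post.bind (post_re hO) ?_
  rintro one env4 h4 hone
  have hOre : |O.re - 1| ≤ u := by
    unfold Rel at hOrel
    have h7 := Complex.abs_re_le_norm (O - (((1 : ℚ) : ℂ) + ((0 : ℚ) : ℂ) * I))
    have h8 : (O - (((1 : ℚ) : ℂ) + ((0 : ℚ) : ℂ) * I)).re = O.re - 1 := by
      push_cast
      norm_num
    have h9 : ‖(((1 : ℚ) : ℂ) + ((0 : ℚ) : ℂ) * I)‖ = 1 := by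
      push_cast
      norm_num
    rw [h8] at h7
    rw [h9] at hOrel
    linarith
  have hOre' := abs_le.1 hOre
  refine Post.bind (post_iterP (2 ^ e) _ (p, one) env4 (fun k S env' => ∃ (q : ℂ) (acc : ℝ),
    Has env' S.1 q ∧ Has env' S.2 (acc : ℂ) ∧
    ‖q - rho * φ * omg e ^ k‖ ≤ rho * ((1 + v) ^ (k + 1) - 1) ∧
    ((1 - u) * 0.994 ^ k) * ∏ j ∈ Finset.range k,
        ‖(nodeZ c rho φ e j • (1 : Matrix (Fin n) (Fin n) ℂ) - X).det‖ ≤ acc ∧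
    acc ≤ ((1 + u) * 1.006 ^ k) * ∏ j ∈ Finset.range k,
        ‖(nodeZ c rho φ e j • (1 : Matrix (Fin n) (Fin n) ℂ) - X).det‖ ∧
    0 < ∏ j ∈ Finset.range k,
        ‖(nodeZ c rho φ e j • (1 : Matrix (Fin n) (Fin n) ℂ) - X).det‖) ?_ ?_) ?_
  · refine ⟨P0, O.re, hP0.mono (h3.trans h4), hone, ?_, ?_, ?_, ?_⟩
    · simpa using hstart
    · simp only [pow_zero, mul_one, Finset.range_zero, Finset.prod_empty]
      linarith
    · simp only [pow_zero, mul_one, Finset.range_zero, Finset.prod_empty]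
      linarith
    · simp
  · rintro k hk ⟨s1, s2⟩ env5 h5 ⟨q, acc, hq, hacc, hqd, hlo, hhi, hpos⟩
    simp only at hq hacc ⊢
    obtain ⟨hg1, hg2⟩ := hg k hk
    have hxn : ‖(rho : ℂ) * φ * omg e ^ k‖ = rho := by
      rw [norm_mul, norm_mul, norm_pow, omg_norm, hφ1, one_pow, mul_one, mul_one]
      have : ((rho : ℂ)) = ((rho : ℝ) : ℂ) := by push_cast; rfl
      rw [this, Complex.norm_real, Real.norm_eq_abs, abs_of_pos hrho0]
    refine Post.bind (post_add hu (hc.mono (((h1.trans h2).trans (h3.trans h4)).trans h5)) hq) ?_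
    rintro z env6 h6 ⟨Z, hZ, hZrel⟩
    have hdist := CIRC_dist hu0 (by linarith) hrho0.le hxn hqd (by norm_num at hNu; linarith) hC hZrel
    have hnodez : nodeZ c rho φ e k = c + (rho : ℂ) * φ * omg e ^ k := by
      unfold nodeZ
      push_cast
      rfl
    rw [← hnodez] at hdist
    have hζn : ‖nodeZ c rho φ e k‖ ≤ ‖c‖ + rho := by
      rw [hnodez]
      refine (norm_add_le _ _).trans ?_
      rw [hxn]
    have hd1 : 10 ^ 4 * (n : ℝ) ^ 2 * ‖Z - nodeZ c rho φ e k‖ ≤ t := by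
      have h7 : ‖Z - nodeZ c rho φ e k‖ ≤ 104 * (N ^ 2 * u) * (fro X + ‖c‖ + rho + 1) := by
        refine hdist.trans ?_
        have h8 : u * (4 * ‖c‖ + 2 * rho) ≤ (N ^ 2 * u) * (4 * ‖c‖ + 2 * rho) := by gcongr
        have h9 : rho * ((1 + v) ^ (k + 1) - 1) ≤ rho * (100 * (N ^ 2 * u)) := by gcongr
        have h10 : 0 ≤ N ^ 2 * u := by positivity
        have h11 : 0 ≤ N ^ 2 * u * ‖c‖ := by positivity
        have h12 : 0 ≤ N ^ 2 * u * rho := by positivity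
        have h13 : 0 ≤ N ^ 2 * u * fro X := by positivity
        nlinarith
      have h14 : (n : ℝ) ^ 2 ≤ (n : ℝ) ^ 3 := pow_le_pow_right₀ hn1 (by norm_num)
      have h15 : 0 ≤ fro X + ‖c‖ + rho + 1 := by positivity
      calc 10 ^ 4 * (n : ℝ) ^ 2 * ‖Z - nodeZ c rho φ e k‖
          ≤ 10 ^ 4 * (n : ℝ) ^ 3 * (104 * (N ^ 2 * u) * (fro X + ‖c‖ + rho + 1)) := by gcongr
        _ = 1040000 * ((n : ℝ) ^ 3 * N ^ 2 * u * (fro X + ‖c‖ + rho + 1)) := by ring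
        _ ≤ 10 ^ 8 * ((n : ℝ) ^ 3 * N ^ 2 * u * (fro X + ‖c‖ + rho + 1)) := by gcongr; norm_num
        _ = 10 ^ 8 * n ^ 3 * N ^ 2 * u * (fro X + ‖c‖ + rho + 1) := by ring
        _ ≤ t := hnu
    have hd2 : 10 ^ 6 * (n : ℝ) ^ 3 * u * (fro X + ‖nodeZ c rho φ e k‖ + 1) ≤ t := by
      have h15 : 0 ≤ fro X + ‖c‖ + rho + 1 := by positivity
      calc 10 ^ 6 * (n : ℝ) ^ 3 * u * (fro X + ‖nodeZ c rho φ e k‖ + 1)
          ≤ 10 ^ 6 * (n : ℝ) ^ 3 * u * (fro X + (‖c‖ + rho) + 1) := by gcongr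
        _ = 10 ^ 6 * (n : ℝ) ^ 3 * u * (fro X + ‖c‖ + rho + 1) := by ring
        _ ≤ 10 ^ 8 * (n : ℝ) ^ 3 * (N ^ 2 * u) * (fro X + ‖c‖ + rho + 1) := by
            gcongr
            · norm_num
            · norm_num
        _ = 10 ^ 8 * n ^ 3 * N ^ 2 * u * (fro X + ‖c‖ + rho + 1) := by ring
        _ ≤ t := hnu
    refine Post.bind (post_det hu hn (hx.mono ((((h1.trans h2).trans (h3.trans h4)).trans h5).trans h6)) hZ
      hh hb ht ht1 (hcol k hk) hd1 hd2) ?_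
    rintro d env7 h7 ⟨D, hD, hDpos, hDb⟩
    refine Post.bind (post_fmul hu (hacc.mono (h6.trans h7)) hD) ?_
    rintro a env8 h8 ⟨A, hA, hAb⟩
    refine Post.bind (post_mul hu (hq.mono ((h6.trans h7).trans h8))
      (hw.mono (((((h1.trans h2).trans (h3.trans h4)).trans h5).trans h6).trans (h7.trans h8)))) ?_
    rintro p' env9 h9 ⟨P', hP', hP'rel⟩
    refine Post.pure ⟨P', A, hP', hA.mono h9, ?_, ?_⟩
    · have h10 := CIRC_step hu0 (by linarith) hv hg1 hev hrho0.le hxn (omg_norm e) hW hqd hP'rel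
      have h11 : (rho : ℂ) * φ * omg e ^ (k + 1) = (rho : ℂ) * φ * omg e ^ k * omg e := by
        rw [pow_succ]; ring
      have h12 : (1 + v) ^ (k + 1 + 1) - 1 = (1 + v) * (1 + v) ^ (k + 1) - 1 := by rw [pow_succ]; ring
      rw [h11, h12]
      exact h10
    · have h1u : 0 < 1 - u := by linarith
      have h10 := CIRC_acc hu0 hu1 hDpos hpos (mul_pos h1u (by positivity)) (by positivity) hDb hlo hhi hAb
      rw [Finset.prod_range_succ]
      have h11 : (1 - u) * 0.994 ^ k * 0.994 = (1 - u) * (0.994 : ℝ) ^ (k + 1) := by rw [pow_succ]; ring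
      have h12 : (1 + u) * 1.006 ^ k * 1.006 = (1 + u) * (1.006 : ℝ) ^ (k + 1) := by rw [pow_succ]; ring
      rw [h11, h12] at h10
      exact ⟨h10.1, h10.2, mul_pos hpos hDpos⟩
  · rintro ⟨s1, s2⟩ env5 h5 ⟨q, acc, hq, hacc, hqd, hlo, hhi, hpos⟩
    refine Post.pure ⟨acc, hacc, le_trans ?_ hlo, le_trans hhi ?_, hpos⟩
    · gcongr
      exact CIRC_fin1 hu0 hu1 Nat.one_le_two_pow
    · gcongr
      exact CIRC_fin2 hu0 hu1 Nat.one_le_two_pow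

end H6LP

end S_CIRC

section S_TEST

set_option autoImplicit false

open Complex Matrix

namespace H6LP

/-- numerical facts about the parameters -/
theorem nodeE_bounds {n l kh : ℕ} (hn : 1 ≤ n) (hl : 100 ≤ l) (hkh : kh ≤ 98 * n) :
    1000 * (kh + 1) * l ≤ 2 ^ nodeE l kh ∧ 2 ^ nodeE l kh ≤ 200000 * n * l ∧
    4 ≤ nodeE l kh ∧ 2 ^ nodeE l kh = 16 * (2 ^ (nodeE l kh - 4)) := by
  have h1 : 1000 * (kh + 1) * l ≤ 2 ^ nodeE l kh := Nat.le_pow_clog (by norm_num) _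
  have hbig : 100000 ≤ 1000 * (kh + 1) * l := by
    calc 100000 = 1000 * 1 * 100 := by norm_num
      _ ≤ 1000 * (kh + 1) * l := by gcongr; omega
  have h4 : 4 ≤ nodeE l kh := by
    by_contra hlt
    push Not at hlt
    have h5 : 2 ^ nodeE l kh ≤ 2 ^ 3 := Nat.pow_le_pow_right (by norm_num) (by omega)
    omega
  have h2 : 2 ^ (nodeE l kh - 1) < 1000 * (kh + 1) * l := by
    have := Nat.pow_pred_clog_lt_self (b := 2) (by norm_num) (x := 1000 * (kh + 1) * l) (by omega)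
    simpa [nodeE, Nat.pred_eq_sub_one] using this
  have h3 : 2 ^ nodeE l kh = 2 * 2 ^ (nodeE l kh - 1) := by
    rw [← pow_succ']
    congr 1
    omega
  refine ⟨h1, ?_, h4, ?_⟩
  · have h6 : 1000 * (kh + 1) * l ≤ 1000 * (98 * n + 1) * l := by gcongr
    have h7 : 1000 * (98 * n + 1) * l ≤ 1000 * (100 * n) * l := by gcongr; omega
    have h8 : 1000 * (100 * n) * l = 100000 * n * l := by ring
    have h9 : 200000 * n * l = 2 * (100000 * n * l) := by ring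
    omega
  · have : (16 : ℕ) = 2 ^ 4 := by norm_num
    rw [this, ← pow_add]
    congr 1
    omega

theorem TEST_l_lt (l : ℕ) : (l : ℝ) ≤ 2 ^ l := by
  exact_mod_cast (Nat.lt_two_pow_self (n := l)).le

/-- `n^25 ≤ 2^(l-100)` in a usable form -/
theorem TEST_n25 {n l : ℕ} (hl : 100 ≤ l) (hnl : (n : ℝ) ^ 25 ≤ 2 ^ (l - 100)) :
    (2 : ℝ) ^ 100 * (n : ℝ) ^ 25 ≤ 2 ^ l := by
  calc (2 : ℝ) ^ 100 * (n : ℝ) ^ 25 ≤ 2 ^ 100 * 2 ^ (l - 100) := by gcongr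
    _ = 2 ^ l := by rw [← pow_add]; congr 1; omega

theorem TEST_u {l : ℕ} {u : ℝ} (hu : u ≤ (2 : ℝ)⁻¹ ^ (8 * l)) : u * (2 ^ l) ^ 8 ≤ 1 := by
  calc u * ((2 : ℝ) ^ l) ^ 8 ≤ (2 : ℝ)⁻¹ ^ (8 * l) * (2 ^ l) ^ 8 := by gcongr
    _ = 1 := by
      rw [← pow_mul, mul_comm l 8, ← mul_pow]
      norm_num

/-- the master inequality -/
theorem TEST_master {n l kh : ℕ} {u : ℝ} (hn : 1 ≤ n) (hl : 100 ≤ l) (hkh : kh ≤ 98 * n)
    (hnl : (n : ℝ) ^ 25 ≤ 2 ^ (l - 100)) (hu0 : 0 ≤ u) (hu : u ≤ (2 : ℝ)⁻¹ ^ (8 * l)) :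
    (2 : ℝ) ^ 64 * (n : ℝ) ^ 4 * ((2 : ℝ) ^ nodeE l kh) ^ 2 * (2 ^ l) ^ 5 * u ≤ 1 := by
  have hn1 : (1 : ℝ) ≤ n := by exact_mod_cast hn
  have hN : (2 : ℝ) ^ nodeE l kh ≤ 200000 * n * l := by
    exact_mod_cast (nodeE_bounds hn hl hkh).2.1
  have hN0 : (0 : ℝ) ≤ (2 : ℝ) ^ nodeE l kh := by positivity
  have hL := TEST_l_lt l
  have h25 := TEST_n25 hl hnl
  have hl0 : (0 : ℝ) ≤ l := by positivity
  set L : ℝ := (2 : ℝ) ^ l with hLdef
  have hL0 : 0 ≤ L := by positivity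
  have h1 : ((2 : ℝ) ^ nodeE l kh) ^ 2 ≤ (200000 * n * L) ^ 2 := by
    apply pow_le_pow_left₀ hN0
    calc (2 : ℝ) ^ nodeE l kh ≤ 200000 * n * l := hN
      _ ≤ 200000 * n * L := by gcongr
  have h2 : (2 : ℝ) ^ 64 * (n : ℝ) ^ 4 * ((2 : ℝ) ^ nodeE l kh) ^ 2 ≤ L ^ 3 := by
    calc (2 : ℝ) ^ 64 * (n : ℝ) ^ 4 * ((2 : ℝ) ^ nodeE l kh) ^ 2
        ≤ (2 : ℝ) ^ 64 * (n : ℝ) ^ 4 * (200000 * n * L) ^ 2 := by gcongr
      _ = (2 ^ 64 * 200000 ^ 2 * (n : ℝ) ^ 6) * L ^ 2 := by ring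
      _ ≤ (2 ^ 100 * (n : ℝ) ^ 25) * L ^ 2 := by
          gcongr
          · norm_num
          · norm_num
      _ ≤ L * L ^ 2 := by gcongr
      _ = L ^ 3 := by ring
  calc (2 : ℝ) ^ 64 * (n : ℝ) ^ 4 * ((2 : ℝ) ^ nodeE l kh) ^ 2 * L ^ 5 * u
      ≤ L ^ 3 * L ^ 5 * u := by gcongr
    _ = u * L ^ 8 := by ring
    _ ≤ 1 := TEST_u hu

theorem TEST_norm_grd {j : ℕ} {a b : ℤ} (ha : |a| ≤ 3 * 2 ^ j) (hb : |b| ≤ 3 * 2 ^ j) :
    ‖grd (rad j) a b‖ ≤ 24 := by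
  have hr : rad j * 2 ^ j = 4 := by unfold rad; field_simp
  have hr0 : 0 ≤ rad j := by unfold rad; positivity
  have ha' : |(a : ℝ)| ≤ 3 * 2 ^ j := by exact_mod_cast ha
  have hb' : |(b : ℝ)| ≤ 3 * 2 ^ j := by exact_mod_cast hb
  unfold grd
  refine (norm_add_le _ _).trans ?_
  rw [norm_mul, Complex.norm_I, mul_one, Complex.norm_real, Complex.norm_real, Real.norm_eq_abs,
    Real.norm_eq_abs, abs_mul, abs_mul, abs_of_nonneg hr0]
  nlinarith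

/-- the far roots -/
theorem TEST_far {n l kh : ℕ} (hn : 1 ≤ n) (hl : 100 ≤ l) (hkh : kh ≤ 98 * n)
    (hnl : (n : ℝ) ^ 25 ≤ 2 ^ (l - 100)) :
    n * (3 / 4 : ℝ) ^ (2 ^ nodeE l kh) ≤ 1 / 16 := by
  have hn1 : (1 : ℝ) ≤ n := by exact_mod_cast hn
  have h1 : 1000 * l ≤ 2 ^ nodeE l kh := by
    have := (nodeE_bounds hn hl hkh).1
    nlinarith
  have h25 := TEST_n25 hl hnl
  have h2 : (3 / 4 : ℝ) ^ (2 ^ nodeE l kh) ≤ (3 / 4 : ℝ) ^ (3 * l) :=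
    pow_le_pow_of_le_one (by norm_num) (by norm_num) (by omega)
  have h3 : (3 / 4 : ℝ) ^ (3 * l) ≤ (1 / 2 : ℝ) ^ l := by
    rw [pow_mul]
    apply pow_le_pow_left₀ (by norm_num)
    norm_num
  have h4 : (1 / 2 : ℝ) ^ l * 2 ^ l = 1 := by
    rw [← mul_pow]; norm_num
  have h5 : (n : ℝ) ≤ (n : ℝ) ^ 25 := by
    calc (n : ℝ) = (n : ℝ) ^ 1 := by ring
      _ ≤ (n : ℝ) ^ 25 := by gcongr; norm_num
  have h6 : (n : ℝ) * 16 ≤ 2 ^ l := by
    nlinarith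
  have h7 : 0 ≤ (1 / 2 : ℝ) ^ l := by positivity
  calc n * (3 / 4 : ℝ) ^ (2 ^ nodeE l kh) ≤ n * (1 / 2 : ℝ) ^ l := by
        gcongr; exact h2.trans h3
    _ = (n * 16) * (1 / 2 : ℝ) ^ l / 16 := by ring
    _ ≤ 2 ^ l * (1 / 2 : ℝ) ^ l / 16 := by gcongr
    _ = 1 / 16 := by rw [mul_comm, h4]

/-- the near roots -/
theorem TEST_kap {n l kh : ℕ} (hn : 1 ≤ n) (hl : 100 ≤ l) (hkh : kh ≤ 98 * n) :
    (4 / (2 : ℝ)⁻¹ ^ (5 * l + 5)) ^ kh * 4 ≤ (3 / 2 : ℝ) ^ (2 ^ (nodeE l kh - 4)) := by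
  have hb := nodeE_bounds hn hl hkh
  set K := 2 ^ (nodeE l kh - 4) with hK
  have h1 : 62 * (kh + 1) * l ≤ K := by
    have := hb.1
    rw [hb.2.2.2] at this
    have h3 : 62 * (kh + 1) * l * 16 ≤ 1000 * (kh + 1) * l := by nlinarith
    omega
  have h2 : (4 / (2 : ℝ)⁻¹ ^ (5 * l + 5)) = 2 ^ (5 * l + 7) := by
    rw [inv_pow, div_inv_eq_mul]
    have : (4 : ℝ) = 2 ^ 2 := by norm_num
    rw [this, ← pow_add]
    congr 1
    omega
  rw [h2, ← pow_mul]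
  have h3 : (2 : ℝ) ^ ((5 * l + 7) * kh) * 4 = 2 ^ ((5 * l + 7) * kh + 2) := by
    rw [pow_add]; norm_num
  rw [h3]
  have h4 : (5 * l + 7) * kh + 2 ≤ K / 2 := by
    have h5 : 2 * ((5 * l + 7) * kh + 2) ≤ 62 * (kh + 1) * l := by
      nlinarith [Nat.zero_le (kh * l), Nat.zero_le kh, Nat.mul_le_mul_left kh hl]
    omega
  calc (2 : ℝ) ^ ((5 * l + 7) * kh + 2) ≤ 2 ^ (K / 2) := by gcongr; norm_num
    _ ≤ ((3 / 2 : ℝ) ^ 2) ^ (K / 2) := by gcongr; norm_num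
    _ = (3 / 2 : ℝ) ^ (2 * (K / 2)) := by rw [← pow_mul]
    _ ≤ (3 / 2 : ℝ) ^ K := by gcongr; · norm_num
                              · omega

/-- the comparison of the computed products -/
theorem TEST_cmp {N K m2' m3' : ℕ} (hNK : N = 16 * K) {D1 D2 P1 P2 : ℝ} (h1 : 0 < D1) (h2 : 0 < D2)
    (hP1l : (0.99 : ℝ) ^ N * D1 ≤ P1) (hP1u : P1 ≤ (1.01 : ℝ) ^ N * D1)
    (hP2l : (0.99 : ℝ) ^ N * D2 ≤ P2) (hP2u : P2 ≤ (1.01 : ℝ) ^ N * D2)
    (hA : D1 * (3 / 2 : ℝ) ^ (16 * K * m2') ≤ D2 * (3 / 2 : ℝ) ^ K)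
    (hB : D2 ≤ D1 * (3 / 2 : ℝ) ^ (16 * K * m3' + K)) :
    P1 * (3 / 2 : ℝ) ^ (16 * K * m2') ≤ P2 * (3 / 2 : ℝ) ^ (2 * K) ∧
      P2 ≤ P1 * (3 / 2 : ℝ) ^ (16 * K * m3' + 2 * K) := by
  have hk : (1.01 : ℝ) ^ N ≤ (0.99 : ℝ) ^ N * (3 / 2 : ℝ) ^ K := by
    rw [hNK, pow_mul, pow_mul, ← mul_pow]
    gcongr
    norm_num
  constructor
  · calc P1 * (3 / 2 : ℝ) ^ (16 * K * m2') ≤ ((1.01 : ℝ) ^ N * D1) * (3 / 2 : ℝ) ^ (16 * K * m2') := by
          gcongr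
      _ = (1.01 : ℝ) ^ N * (D1 * (3 / 2 : ℝ) ^ (16 * K * m2')) := by ring
      _ ≤ ((0.99 : ℝ) ^ N * (3 / 2 : ℝ) ^ K) * (D2 * (3 / 2 : ℝ) ^ K) := by gcongr
      _ = ((0.99 : ℝ) ^ N * D2) * (3 / 2 : ℝ) ^ (2 * K) := by rw [two_mul, pow_add]; ring
      _ ≤ P2 * (3 / 2 : ℝ) ^ (2 * K) := by gcongr
  · calc P2 ≤ (1.01 : ℝ) ^ N * D2 := hP2u
      _ ≤ ((0.99 : ℝ) ^ N * (3 / 2 : ℝ) ^ K) * (D1 * (3 / 2 : ℝ) ^ (16 * K * m3' + K)) := by gcongr
      _ = ((0.99 : ℝ) ^ N * D1) * (3 / 2 : ℝ) ^ (16 * K * m3' + 2 * K) := by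
          rw [show 16 * K * m3' + 2 * K = K + (16 * K * m3' + K) by ring, pow_add (3 / 2 : ℝ) K]
          ring
      _ ≤ P1 * (3 / 2 : ℝ) ^ (16 * K * m3' + 2 * K) := by gcongr

/-- comparison of exponents -/
theorem TEST_exp {P c : ℝ} (hP : 0 < P) {a b : ℕ} (h : c * (P * (3 / 2 : ℝ) ^ a) ≤ P * (3 / 2 : ℝ) ^ b)
    (hc : (1 / 2 : ℝ) < c) : a ≤ b + 1 := by
  by_contra hlt
  push Not at hlt
  have h1 : (3 / 2 : ℝ) ^ (b + 2) ≤ (3 / 2 : ℝ) ^ a := by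
    gcongr
    · norm_num
    · omega
  have h3 : c * (P * (3 / 2 : ℝ) ^ (b + 2)) ≤ P * (3 / 2 : ℝ) ^ b :=
    le_trans (by gcongr) h
  have h4 : 0 < P * (3 / 2 : ℝ) ^ b := by positivity
  have h5 : c * (P * (3 / 2 : ℝ) ^ (b + 2)) = (c * (9 / 4)) * (P * (3 / 2 : ℝ) ^ b) := by
    rw [pow_add]; ring
  rw [h5] at h3
  nlinarith

/-- bounds for the first comparison -/
theorem TEST_arith {P1 y Nu T u x8 : ℝ} (hP1 : 0 < P1) (hy0 : 0 < y) (hu0 : 0 ≤ u) (huN : u ≤ Nu)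
    (hNu : Nu ≤ 1 / 1000000) (hTb : |T - y| ≤ Nu * y) (hx8b : |x8 - P1 * T| ≤ u * |P1 * T|) :
    x8 ≤ 1.1 * (P1 * y) ∧ 0.9 * (P1 * y) ≤ x8 ∧ 0 < T := by
  have hTb' := abs_le.1 hTb
  have hT0 : 0 < T := by nlinarith
  rw [abs_of_pos (mul_pos hP1 hT0)] at hx8b
  have hx8b' := abs_le.1 hx8b
  have hPy : 0 < P1 * y := mul_pos hP1 hy0
  have hPT1 : P1 * T ≤ (1 + Nu) * (P1 * y) := by nlinarith
  have hPT2 : (1 - Nu) * (P1 * y) ≤ P1 * T := by nlinarith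
  have hPT0 : 0 < P1 * T := mul_pos hP1 hT0
  have hNu0 : 0 ≤ Nu := hu0.trans huN
  have h1 : P1 * T ≤ 1.01 * (P1 * y) := by nlinarith
  have h2 : 0.99 * (P1 * y) ≤ P1 * T := by nlinarith
  have h3 : u * (P1 * T) ≤ 0.01 * (P1 * T) := by nlinarith
  refine ⟨by nlinarith, by nlinarith, hT0⟩

/-- the error of the square -/
theorem TEST_arith2 {y Nu T u t : ℝ} (hy0 : 0 < y) (hu0 : 0 ≤ u) (huN : u ≤ Nu)
    (hNu : Nu ≤ 1 / 1000000) (hTb : |T - y| ≤ Nu * y) (ht : |t - T * T| ≤ u * |T * T|) :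
    |t - y * y| ≤ 4 * Nu * (y * y) := by
  have hTb' := abs_le.1 hTb
  have hNu0 : 0 ≤ Nu := hu0.trans huN
  have hT0 : 0 < T := by nlinarith
  have hyy : 0 < y * y := mul_pos hy0 hy0
  have hT1 : T ≤ (1 + Nu) * y := by nlinarith
  have hTT : T * T ≤ 1.01 * (y * y) := by
    calc T * T ≤ ((1 + Nu) * y) * ((1 + Nu) * y) := by gcongr
      _ = (1 + Nu) ^ 2 * (y * y) := by ring
      _ ≤ 1.01 * (y * y) := by
        gcongr
        nlinarith
  have h1 : |T * T - y * y| ≤ Nu * y * (2.1 * y) := by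
    have : T * T - y * y = (T - y) * (T + y) := by ring
    rw [this, abs_mul]
    have h2 : |T + y| ≤ 2.1 * y := by
      rw [abs_of_pos (by linarith)]
      nlinarith
    gcongr
  have h3 : |t - y * y| ≤ |t - T * T| + |T * T - y * y| := abs_sub_le _ _ _
  rw [abs_of_pos (mul_pos hT0 hT0)] at ht
  have h4 : u * (T * T) ≤ Nu * (1.01 * (y * y)) := by gcongr
  have h5 : 0 ≤ Nu * (y * y) := by positivity
  nlinarith

/-- the last part of the program -/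
theorem TEST_tail {ad : Adv} {u : ℝ} (hu : ad.Le u) {P1 P2 Nu T : ℝ} {K m2' m3' M : ℕ} (hu0 : 0 ≤ u)
    (hP1 : 0 < P1) (hP2 : 0 < P2) (hK1 : 1 ≤ K) (huN : u ≤ Nu) (hNu : Nu ≤ 1 / 1000000)
    (hTb : |T - (3 / 2 : ℝ) ^ (8 * K)| ≤ Nu * (3 / 2 : ℝ) ^ (8 * K))
    (h4M : 4 ^ (M + 1) * (4 * Nu + u) ≤ 1 / 10) (hm2M : m2' ≤ 2 ^ M)
    (hA : P1 * (3 / 2 : ℝ) ^ (16 * K * m2') ≤ P2 * (3 / 2 : ℝ) ^ (2 * K))
    (hB : P2 ≤ P1 * (3 / 2 : ℝ) ^ (16 * K * m3' + 2 * K))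
    {env : Env} {p1 p2 tr : ℕ} (hp1 : Has env p1 (P1 : ℂ)) (hp2 : Has env p2 (P2 : ℂ))
    (hT : Has env tr (T : ℂ)) :
    Post ad (do
      let x ← fmulP p1 tr
      let b0 ← leP x p2
      if b0 = true then do
          let T0 ← fmulP tr tr
          searchP p1 p2 M T0 1
        else pure 0) env (fun k _ => m2' ≤ k ∧ k ≤ 2 * m3') := by
  set y : ℝ := (3 / 2 : ℝ) ^ (8 * K) with hy
  have hy0 : 0 < y := by positivity
  have hyy : y * y = (3 / 2 : ℝ) ^ (16 * K) := by rw [hy, ← pow_add]; congr 1; ring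
  refine Post.bind (post_fmul hu hp1 hT) ?_
  rintro xr env8 h8 ⟨x8, hx8, hx8b⟩
  obtain ⟨hxu, hxl, hT0⟩ := TEST_arith hP1 hy0 hu0 huN hNu hTb hx8b
  refine Post.bind (post_le hx8 (hp2.mono h8)) ?_
  rintro b0 env9 h9 ⟨rfl, hb0⟩
  rw [Complex.ofReal_re, Complex.ofReal_re] at hb0
  by_cases hbb : b0 = true
  · have hle := hb0.1 hbb
    rw [if_pos hbb]
    -- `m3 ≥ 1`
    have hm3pos : 1 ≤ m3' := by
      by_contra hlt
      have hm0 : m3' = 0 := by omega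
      have h10 : 0.9 * (P1 * (3 / 2 : ℝ) ^ (8 * K)) ≤ P1 * (3 / 2 : ℝ) ^ (16 * K * m3' + 2 * K) :=
        (hxl.trans hle).trans hB
      have := TEST_exp hP1 h10 (by norm_num)
      rw [hm0] at this
      omega
    refine Post.bind (post_fmul hu (hT.mono h8) (hT.mono h8)) ?_
    rintro r0 env10 h10 ⟨t0, ht0, ht0b⟩
    have ht0c := TEST_arith2 hy0 hu0 huN hNu hTb ht0b
    rw [hyy] at ht0c
    refine (post_search hu (P1 := P1) (P2 := P2) (τ := (3 / 2 : ℝ) ^ (16 * K)) hP1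
      (one_le_pow₀ (by norm_num)) M 1 env10 r0 t0 (4 * Nu) le_rfl (by linarith [hu0.trans huN])
      (hp1.mono (h8.trans h10)) (hp2.mono (h8.trans h10)) ht0 (by rw [pow_one]; exact ht0c) h4M).weaken ?_
    rintro k' env11 h11 ⟨j, hj, hk', hs1, hs2⟩
    rw [one_mul] at hk'
    constructor
    · by_contra hlt
      push Not at hlt
      have hjM : j < M := by
        rcases Nat.lt_or_ge j M with h | h
        · exact h
        · exfalso
          have : 2 ^ M ≤ 2 ^ j := Nat.pow_le_pow_right (by norm_num) h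
          omega
      have h12 := (hs1 hjM).le
      rw [← pow_mul] at h12
      have h13 : P1 * (3 / 2 : ℝ) ^ (16 * K * m2') ≤ 1.25 * (P1 * (3 / 2 : ℝ) ^ (16 * K * k' + 2 * K)) := by
        refine hA.trans ?_
        calc P2 * (3 / 2 : ℝ) ^ (2 * K) ≤ 1.25 * (P1 * (3 / 2 : ℝ) ^ (16 * K * k')) * (3 / 2 : ℝ) ^ (2 * K) := by
              gcongr
          _ = 1.25 * (P1 * (3 / 2 : ℝ) ^ (16 * K * k' + 2 * K)) := by rw [pow_add]; ring
      have h14 : 0.8 * (P1 * (3 / 2 : ℝ) ^ (16 * K * m2')) ≤ P1 * (3 / 2 : ℝ) ^ (16 * K * k' + 2 * K) := by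
        linarith
      have := TEST_exp hP1 h14 (by norm_num)
      have h15 : 16 * K * (k' + 1) ≤ 16 * K * m2' := Nat.mul_le_mul_left _ hlt
      have h16 : 16 * K * (k' + 1) = 16 * K * k' + 16 * K := by ring
      omega
    · rcases Nat.eq_zero_or_pos j with h0 | h0
      · subst h0
        simp only [pow_zero] at hk'
        omega
      · obtain ⟨j', rfl⟩ : ∃ j', j = j' + 1 := ⟨j - 1, by omega⟩
        have h12 := hs2 j' rfl
        rw [one_mul, ← pow_mul] at h12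
        have h13 := TEST_exp hP1 (h12.trans hB) (by norm_num)
        have h14 : 2 ^ j' ≤ m3' := by
          by_contra hlt
          push Not at hlt
          have h15 : 16 * K * (m3' + 1) ≤ 16 * K * 2 ^ j' := Nat.mul_le_mul_left _ hlt
          have h16 : 16 * K * (m3' + 1) = 16 * K * m3' + 16 * K := by ring
          omega
        rw [hk', pow_succ]
        omega
  · rw [if_neg hbb]
    refine Post.pure ⟨?_, Nat.zero_le _⟩
    have hlt : P2 < x8 := by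
      by_contra hge
      push Not at hge
      exact hbb (hb0.2 hge)
    by_contra hm
    push Not at hm
    have h10 : 0.9 * (P1 * (3 / 2 : ℝ) ^ (16 * K * m2')) ≤ P1 * (3 / 2 : ℝ) ^ (10 * K) := by
      have h11 : P2 * (3 / 2 : ℝ) ^ (2 * K) ≤ 1.1 * (P1 * y) * (3 / 2 : ℝ) ^ (2 * K) := by
        gcongr
        linarith
      have h12 : 1.1 * (P1 * y) * (3 / 2 : ℝ) ^ (2 * K) = 1.1 * (P1 * (3 / 2 : ℝ) ^ (10 * K)) := by
        rw [hy, show 10 * K = 8 * K + 2 * K by ring, pow_add]; ring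
      have h13 := hA.trans h11
      rw [h12] at h13
      have h14 : 0 < P1 * (3 / 2 : ℝ) ^ (10 * K) := by positivity
      linarith
    have := TEST_exp hP1 h10 (by norm_num)
    have h15 : 16 * K * 1 ≤ 16 * K * m2' := Nat.mul_le_mul_left _ hm
    omega

theorem post_test {ad : Adv} {u : ℝ} (hu : ad.Le u) {n l : ℕ} {X : Matrix (Fin n) (Fin n) ℂ}
    {lam : Fin n → ℂ} {φ Φ : ℂ} (hX : HCtx l X lam φ u) {env : Env} {x : RMat n n} {φr : ℕ}
    (hx : HasM env x X) (hφ : Has env φr Φ) (hΦ : ‖Φ - φ‖ ≤ 40 * u)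
    {j : ℕ} (hj1 : 1 ≤ j) (hj : j ≤ l + 2) {a b : ℤ} (ha : |a| ≤ 3 * 2 ^ j) (hb : |b| ≤ 3 * 2 ^ j)
    {kh : ℕ} (hkh : kh ≤ 98 * n) (h4 : m4 lam (grd (rad j) a b) (rad j) ≤ kh) :
    Post ad (testP l x φr (4 / 2 ^ j) a b kh) env (fun k _ =>
      m2 lam (grd (rad j) a b) (rad j) ≤ k ∧ k ≤ 2 * m3 lam (grd (rad j) a b) (rad j)) := by
  obtain ⟨hn, hl, hnl, hess, hsub, hfrob, hdet, hlamb, hφ1, hnode, hu0, hul⟩ := hX
  have hn1 : (1 : ℝ) ≤ n := by exact_mod_cast hn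
  have hEb := nodeE_bounds hn hl hkh
  have hmaster := TEST_master hn hl hkh hnl hu0 hul
  have hfar := TEST_far hn hl hkh hnl
  have hkap := TEST_kap hn hl hkh
  set e := nodeE l kh with he
  set K := 2 ^ (e - 4) with hK
  set c := grd (rad j) a b with hc
  have hNR : ((2 : ℝ) ^ e) = (2 ^ e : ℕ) := by push_cast; rfl
  have hN1 : (1 : ℝ) ≤ (2 : ℝ) ^ e := one_le_pow₀ (by norm_num)
  have hL1 : (1 : ℝ) ≤ (2 : ℝ) ^ l := one_le_pow₀ (by norm_num)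
  have hK1 : 1 ≤ K := Nat.one_le_two_pow
  -- consequences of the master inequality
  have hm1 : (2 : ℝ) ^ 64 * (n : ℝ) ^ 4 * ((2 : ℝ) ^ e) ^ 2 * u ≤ 1 := by
    calc (2 : ℝ) ^ 64 * (n : ℝ) ^ 4 * ((2 : ℝ) ^ e) ^ 2 * u
        ≤ (2 : ℝ) ^ 64 * (n : ℝ) ^ 4 * ((2 : ℝ) ^ e) ^ 2 * (2 ^ l) ^ 5 * u := by
          apply mul_le_mul_of_nonneg_right _ hu0
          exact le_mul_of_one_le_right (by positivity) (one_le_pow₀ hL1)
      _ ≤ 1 := hmaster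
  have hm2 : (2 : ℝ) ^ 64 * ((n : ℝ) ^ 2 * (((2 : ℝ) ^ e) ^ 2 * u)) ≤ 1 := by
    refine le_trans ?_ hm1
    calc (2 : ℝ) ^ 64 * ((n : ℝ) ^ 2 * (((2 : ℝ) ^ e) ^ 2 * u))
        = (2 : ℝ) ^ 64 * (n : ℝ) ^ 2 * ((2 : ℝ) ^ e) ^ 2 * u := by ring
      _ ≤ (2 : ℝ) ^ 64 * (n : ℝ) ^ 4 * ((2 : ℝ) ^ e) ^ 2 * u := by
          gcongr
          norm_num
  have hm3 : (2 : ℝ) ^ 64 * (((2 : ℝ) ^ e) ^ 2 * u) ≤ 1 := by
    refine le_trans ?_ hm2
    apply mul_le_mul_of_nonneg_left _ (by positivity)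
    exact le_mul_of_one_le_left (by positivity) (one_le_pow₀ hn1)
  set Nu : ℝ := ((2 : ℝ) ^ e) ^ 2 * u with hNu
  have hNu0 : 0 ≤ Nu := by positivity
  have hm5 : (18446744073709551616 : ℝ) * Nu ≤ 1 := by
    have : (2 : ℝ) ^ 64 = 18446744073709551616 := by norm_num
    rw [← this]; exact hm3
  have hm6 : (18446744073709551616 : ℝ) * ((n : ℝ) ^ 2 * Nu) ≤ 1 := by
    have : (2 : ℝ) ^ 64 = 18446744073709551616 := by norm_num
    rw [← this]; exact hm2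
  have hm2M : m2 lam c (rad j) ≤ 2 ^ (Nat.clog 2 n + 2) := by
    have h1 : m2 lam c (rad j) ≤ n := by
      unfold m2
      exact (Finset.card_filter_le _ _).trans (by simp)
    have h2 : n ≤ 2 ^ Nat.clog 2 n := Nat.le_pow_clog (by norm_num) n
    have h3 : 2 ^ Nat.clog 2 n ≤ 2 ^ (Nat.clog 2 n + 2) := Nat.pow_le_pow_right (by norm_num) (by omega)
    omega
  have hclog : (2 : ℝ) ^ Nat.clog 2 n ≤ 2 * n := by
    rcases Nat.eq_or_lt_of_le hn with h | h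
    · rw [← h]; norm_num
    · have h1 := Nat.pow_pred_clog_lt_self (b := 2) (by norm_num) (x := n) h
      have h2 : 0 < Nat.clog 2 n := Nat.clog_pos (by norm_num) h
      have h3 : 2 ^ Nat.clog 2 n = 2 * 2 ^ (Nat.clog 2 n - 1) := by
        rw [← pow_succ']
        congr 1
        omega
      have h4 : 2 ^ Nat.clog 2 n ≤ 2 * n := by
        rw [h3]
        rw [Nat.pred_eq_sub_one] at h1
        omega
      exact_mod_cast h4
  have hue : u ≤ Nu := le_mul_of_one_le_left hu0 (one_le_pow₀ hN1)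
  have h4M : 4 ^ (Nat.clog 2 n + 2 + 1) * (4 * Nu + u) ≤ 1 / 10 := by
    have h1 : (4 : ℝ) ^ (Nat.clog 2 n + 2 + 1) = 64 * ((2 : ℝ) ^ Nat.clog 2 n) ^ 2 := by
      rw [pow_add, pow_add, ← pow_mul, mul_comm (Nat.clog 2 n) 2, pow_mul]
      norm_num
      ring
    have h2 : ((2 : ℝ) ^ Nat.clog 2 n) ^ 2 ≤ (2 * n) ^ 2 := by gcongr
    calc 4 ^ (Nat.clog 2 n + 2 + 1) * (4 * Nu + u) ≤ (64 * (2 * n) ^ 2) * (5 * Nu) := by
          rw [h1]
          gcongr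
          linarith
      _ = 1280 * ((n : ℝ) ^ 2 * Nu) := by ring
      _ ≤ 1 / 10 := by linarith
  -- the radius
  have hr0 : 0 < rad j := by unfold rad; positivity
  have hr2 : rad j ≤ 2 := by
    unfold rad
    rw [div_le_iff₀ (by positivity)]
    have : (2 : ℝ) ^ 1 ≤ 2 ^ j := pow_le_pow_right₀ (by norm_num) hj1
    linarith
  have hcn : ‖c‖ ≤ 24 := TEST_norm_grd ha hb
  -- nodes
  have hcond : 2 ^ e ≤ 200000 * n * l := hEb.2.1
  have hrq2 : ((2 * (4 / 2 ^ j) : ℚ) : ℝ) = 2 * rad j := by unfold rad; push_cast; ring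
  have hrq3 : ((3 * (4 / 2 ^ j) : ℚ) : ℝ) = 3 * rad j := by unfold rad; push_cast; ring
  have hnode2 : ∀ i < 2 ^ e, ColAt X (nodeZ c (2 * rad j) φ e i) ((2 : ℝ)⁻¹ ^ (5 * l + 1)) := by
    intro i hi
    have := hnode j hj a b ha hb e i hcond hi 2 (Or.inl rfl)
    simpa using this
  have hnode3 : ∀ i < 2 ^ e, ColAt X (nodeZ c (3 * rad j) φ e i) ((2 : ℝ)⁻¹ ^ (5 * l + 1)) := by
    intro i hi
    have := hnode j hj a b ha hb e i hcond hi 3 (Or.inr rfl)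
    simpa using this
  have ht0 : (0 : ℝ) < (2 : ℝ)⁻¹ ^ (5 * l + 1) := by positivity
  have ht1 : (2 : ℝ)⁻¹ ^ (5 * l + 1) ≤ 1 := pow_le_one₀ (by norm_num) (by norm_num)
  have htval : (2 : ℝ)⁻¹ ^ (5 * l + 1) * (2 * (2 ^ l) ^ 5) = 1 := by
    rw [← pow_mul, mul_comm l 5, inv_pow, pow_succ]
    field_simp
  have hprod : ∀ rho : ℝ, ∏ i ∈ Finset.range (2 ^ e),
      ‖(nodeZ c rho φ e i • (1 : Matrix (Fin n) (Fin n) ℂ) - X).det‖ = PiN lam c rho φ e := by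
    intro rho
    unfold PiN
    refine Finset.prod_congr rfl (fun i _ => ?_)
    rw [hdet, norm_prod]
  have hbnz : ∀ k (hk : k + 1 < n), X ⟨k + 1, hk⟩ ⟨k, by omega⟩ ≠ 0 := by
    intro k hk h0
    have := hsub k hk
    rw [h0, norm_zero] at this
    have h5 : (0 : ℝ) < (2 : ℝ)⁻¹ ^ l := by positivity
    linarith
  have hnum : ∀ rho : ℝ, 0 < rho → rho ≤ 6 →
      10 ^ 8 * n ^ 3 * (2 ^ e) ^ 2 * u * (fro X + ‖c‖ + rho + 1) ≤ (2 : ℝ)⁻¹ ^ (5 * l + 1) := by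
    intro rho hrho0 hrho
    have h1 : fro X + ‖c‖ + rho + 1 ≤ 35 * n := by linarith
    have h2 : 10 ^ 8 * (n : ℝ) ^ 3 * (2 ^ e) ^ 2 * u * (fro X + ‖c‖ + rho + 1) ≤
        10 ^ 8 * (n : ℝ) ^ 3 * (2 ^ e) ^ 2 * u * (35 * n) := by gcongr
    refine h2.trans ?_
    have hA : (0 : ℝ) < 2 * (2 ^ l) ^ 5 := by positivity
    rw [← mul_le_mul_iff_left₀ hA, htval]
    calc 10 ^ 8 * (n : ℝ) ^ 3 * (2 ^ e) ^ 2 * u * (35 * n) * (2 * (2 ^ l) ^ 5)
        = 7000000000 * ((n : ℝ) ^ 4 * ((2 : ℝ) ^ e) ^ 2 * (2 ^ l) ^ 5 * u) := by ring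
      _ ≤ 2 ^ 64 * ((n : ℝ) ^ 4 * ((2 : ℝ) ^ e) ^ 2 * (2 ^ l) ^ 5 * u) := by gcongr; norm_num
      _ = (2 : ℝ) ^ 64 * (n : ℝ) ^ 4 * ((2 : ℝ) ^ e) ^ 2 * (2 ^ l) ^ 5 * u := by ring
      _ ≤ 1 := hmaster
  -- the ratio
  have hdist : ∀ rho : ℝ, (∀ i < 2 ^ e, ColAt X (nodeZ c rho φ e i) ((2 : ℝ)⁻¹ ^ (5 * l + 1))) →
      ∀ i, ∀ k < 2 ^ e, (2 : ℝ)⁻¹ ^ (5 * l + 5) * (4 * rad j) ≤ ‖nodeZ c rho φ e k - lam i‖ := by
    intro rho hcol i k hk
    refine le_trans ?_ ((hcol k hk).dist_root hdet i)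
    calc (2 : ℝ)⁻¹ ^ (5 * l + 5) * (4 * rad j) ≤ (2 : ℝ)⁻¹ ^ (5 * l + 5) * (4 * 2) := by gcongr
      _ = (2 : ℝ)⁻¹ ^ (5 * l + 1) * (1 / 2) := by
          rw [show 5 * l + 5 = (5 * l + 1) + 4 by ring, pow_add _ (5 * l + 1) 4]
          ring
      _ ≤ (2 : ℝ)⁻¹ ^ (5 * l + 1) := by linarith
  have hrat := ratio lam c φ hφ1 (r := rad j) (κ := (2 : ℝ)⁻¹ ^ (5 * l + 5)) hr0 (by positivity)
    (pow_le_one₀ (by norm_num) (by norm_num)) (e := e) (K := K) (kh := kh) hEb.2.2.2 h4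
    (hdist _ hnode2) (hdist _ hnode3) hkap hfar
  -- the program
  unfold testP
  refine Post.bind (post_cst hu env _ _) ?_
  rintro cr env1 h1 ⟨C, hC, hCrel⟩
  have hCc : ‖C - c‖ ≤ u * ‖c‖ := by
    have h5 : (((a * (4 / 2 ^ j) : ℚ) : ℂ) + ((b * (4 / 2 ^ j) : ℚ) : ℂ) * I) = c := by
      rw [hc]; unfold grd rad; push_cast; ring
    unfold Rel at hCrel
    rw [h5] at hCrel
    exact hCrel
  refine Post.bind (post_omega hu e (by omega) ?_) ?_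
  · have h5 : (e : ℝ) ≤ (2 : ℝ) ^ e := TEST_l_lt e
    have h6 : (e : ℝ) * u ≤ Nu := by
      rw [hNu]
      gcongr
      calc (e : ℝ) ≤ (2 : ℝ) ^ e := h5
        _ ≤ ((2 : ℝ) ^ e) ^ 2 := by nlinarith
    linarith
  rintro wr env2 h2 ⟨W, hW, hWo⟩
  refine Post.bind (post_circ hu hn (rho := 2 * (4 / 2 ^ j)) (e := e) (by omega)
    (hx.mono (h1.trans h2)) (hC.mono h2) (hφ.mono (h1.trans h2)) hW hess hbnz (by positivity) hCc hφ1 hΦ hWo
    ht0 ht1 (by rw [hrq2]; exact hnode2) (by rw [hrq2]; exact hnum _ (by linarith) (by linarith))) ?_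
  rintro p1 env3 h3 ⟨P1, hp1, hP1l, hP1u, hD1⟩
  rw [hrq2, hprod] at hP1l hP1u hD1
  refine Post.bind (post_circ hu hn (rho := 3 * (4 / 2 ^ j)) (e := e) (by omega)
    (hx.mono ((h1.trans h2).trans h3)) (hC.mono (h2.trans h3)) (hφ.mono ((h1.trans h2).trans h3))
    (hW.mono h3) hess hbnz (by positivity) hCc hφ1 hΦ hWo
    ht0 ht1 (by rw [hrq3]; exact hnode3) (by rw [hrq3]; exact hnum _ (by linarith) (by linarith))) ?_
  rintro p2 env4 h4' ⟨P2, hp2, hP2l, hP2u, hD2⟩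
  rw [hrq3, hprod] at hP2l hP2u hD2
  have hcmp := TEST_cmp hEb.2.2.2 hD1 hD2 hP1l hP1u hP2l hP2u hrat.1 hrat.2
  have hP1 : 0 < P1 := lt_of_lt_of_le (by positivity) hP1l
  have hP2 : 0 < P2 := lt_of_lt_of_le (by positivity) hP2l
  refine Post.bind (post_cst hu env4 _ _) ?_
  rintro br env5 h5 ⟨B, hB, hBrel⟩
  refine Post.bind (post_re hB) ?_
  rintro rb env6 h6 hB6
  have hB0 : |B.re - 3 / 2| ≤ u * (3 / 2) := by
    unfold Rel at hBrel
    have h7 := Complex.abs_re_le_norm (B - ((((3 / 2 : ℚ) : ℂ)) + ((0 : ℚ) : ℂ) * I))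
    have h8 : (B - ((((3 / 2 : ℚ) : ℂ)) + ((0 : ℚ) : ℂ) * I)).re = B.re - 3 / 2 := by
      push_cast
      norm_num
    have h9 : ‖((((3 / 2 : ℚ) : ℂ)) + ((0 : ℚ) : ℂ) * I)‖ = 3 / 2 := by
      push_cast
      norm_num
    rw [h8] at h7
    rw [h9] at hBrel
    linarith
  have h4e : (4 : ℝ) ^ e = ((2 : ℝ) ^ e) ^ 2 := by
    rw [← pow_mul, mul_comm, pow_mul]; norm_num
  have hee : e - 1 + 1 = e := by omega
  refine Post.bind (post_sqrs hu (x := 3 / 2) (by norm_num) hB6 hB0 (e - 1) ?_) ?_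
  · rw [hee, h4e, ← hNu]
    linarith
  rintro tr env7 h7 ⟨T, hT, hTb⟩
  rw [hee, h4e, ← hNu] at hTb
  have h8K : 2 ^ (e - 1) = 8 * K := by
    rw [hK, show (8 : ℕ) = 2 ^ 3 by norm_num, ← pow_add]
    congr 1
    omega
  rw [h8K] at hTb
  exact TEST_tail hu hu0 hP1 hP2 hK1 hue (by linarith) hTb h4M hm2M hcmp.1 hcmp.2
    (hp1.mono (((h4'.trans h5).trans h6).trans h7)) (hp2.mono ((h5.trans h6).trans h7)) hT

end H6LP

end S_TEST
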