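import Pool.Agent.H6.LQ.Core
import Pool.Agent.H6.LQ.G3

/-! MP_63a4b3_lc, part G4: this file joins the modules TREE1, TREE2, REPS, TREEP. -/

section S_TREE1

set_option autoImplicit false

open Complex Matrix

namespace H6LP

variable {n : ℕ}

theorem TREE1_grd_re (h : ℝ) (a b : ℤ) : (grd h a b).re = h * a := by
  unfold grd
  simp

theorem TREE1_grd_im (h : ℝ) (a b : ℤ) : (grd h a b).im = h * b := by
  unfold grd
  simp

theorem tinv_zero {lam : Fin n → ℂ} (hlam : ∀ i, ‖lam i‖ ≤ 3) (hn : 1 ≤ n) :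
    TInv lam 0 (tree0 n) := by
  have hr : rad 0 = 4 := by unfold rad; norm_num
  have hmem : ∀ p ∈ tree0 n, (p.1 ∈ ([-2, -1, 0, 1, 2] : List ℤ) ∧
      p.2.1 ∈ ([-2, -1, 0, 1, 2] : List ℤ)) ∧ p.2.2 = n := by
    intro p hp
    unfold tree0 at hp
    rw [List.mem_map] at hp
    obtain ⟨q, hq, rfl⟩ := hp
    exact ⟨List.mem_product.1 hq, rfl⟩
  constructor
  · unfold tree0
    rw [List.map_map]
    have : (fun p : ℤ × ℤ × ℕ => (p.1, p.2.1)) ∘ (fun p : ℤ × ℤ => (p.1, p.2, n)) = id := by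
      funext p; rfl
    rw [this, List.map_id]
    decide
  · intro p hp
    rw [(hmem p hp).2]; exact hn
  · intro p hp
    rw [(hmem p hp).2]
    unfold m2
    exact (Finset.card_le_univ _).trans (by simp)
  · intro a b ⟨i, hi⟩
    rw [hr] at hi
    have h1 := Complex.abs_re_le_norm (lam i - grd 4 a b)
    have h2 := Complex.abs_im_le_norm (lam i - grd 4 a b)
    have h3 := Complex.abs_re_le_norm (lam i)
    have h4 := Complex.abs_im_le_norm (lam i)
    have h5 := hlam i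
    rw [Complex.sub_re, TREE1_grd_re] at h1
    rw [Complex.sub_im, TREE1_grd_im] at h2
    rw [abs_le] at h1 h2 h3 h4
    have ha : -3 < a ∧ a < 3 := by
      constructor
      · have : (-3 : ℝ) < a := by linarith
        exact_mod_cast this
      · have : (a : ℝ) < 3 := by linarith
        exact_mod_cast this
    have hb : -3 < b ∧ b < 3 := by
      constructor
      · have : (-3 : ℝ) < b := by linarith
        exact_mod_cast this
      · have : (b : ℝ) < 3 := by linarith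
        exact_mod_cast this
    refine ⟨n, ?_⟩
    unfold tree0
    rw [List.mem_map]
    refine ⟨(a, b), List.mem_product.2 ⟨?_, ?_⟩, rfl⟩
    · obtain ⟨h6, h7⟩ := ha
      interval_cases a <;> simp
    · obtain ⟨h6, h7⟩ := hb
      interval_cases b <;> simp
  · unfold ksum tree0
    rw [List.map_map]
    have : (fun p : ℤ × ℤ × ℕ => p.2.2) ∘ (fun p : ℤ × ℤ => (p.1, p.2, n)) = fun _ => n := by
      funext p; rfl
    rw [this, List.map_const', List.sum_replicate, List.length_product]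
    simp
    omega
  · intro p hp
    obtain ⟨⟨h1, h2⟩, -⟩ := hmem p hp
    have key : ∀ x ∈ ([-2, -1, 0, 1, 2] : List ℤ), |x| < 3 * 2 ^ 0 := by decide
    exact ⟨key _ h1, key _ h2⟩

theorem khat_le_ksum (S : DList) (a b : ℤ) : khat S a b ≤ ksum S := by
  unfold khat ksum
  exact List.Sublist.sum_le_sum (List.filter_sublist.map _) (fun _ _ => Nat.zero_le _)

/-- the list of positions has no duplicates, hence the list has none -/
theorem TREE1_nodup {S : DList} (h : (S.map (fun p => (p.1, p.2.1))).Nodup) : S.Nodup :=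
  List.Nodup.of_map _ h

theorem TREE1_ksum {S : DList} (h : S.Nodup) : ksum S = ∑ p ∈ S.toFinset, p.2.2 := by
  unfold ksum
  rw [List.sum_toFinset _ h]

theorem TREE1_khat {S : DList} (h : S.Nodup) (a b : ℤ) :
    khat S a b = ∑ p ∈ S.toFinset with (|p.1 - a| ≤ 3 ∧ |p.2.1 - b| ≤ 3), p.2.2 := by
  unfold khat
  rw [TREE1_ksum (h.filter _)]
  congr 1
  ext p
  simp

theorem TREE1_window {S : DList} (h : (S.map (fun p => (p.1, p.2.1))).Nodup) (a b : ℤ) :
    (S.toFinset.filter (fun p => |a - p.1| ≤ 3 ∧ |b - p.2.1| ≤ 3)).card ≤ 49 := by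
  have hinj : Set.InjOn (fun p : ℤ × ℤ × ℕ => (p.1, p.2.1))
      ((S.toFinset.filter (fun p => |a - p.1| ≤ 3 ∧ |b - p.2.1| ≤ 3) : Finset _) :
        Set (ℤ × ℤ × ℕ)) := by
    intro p hp q hq hpq
    simp only [Finset.coe_filter, List.mem_toFinset, Set.mem_ofPred_eq] at hp hq
    exact List.inj_on_of_nodup_map h hp.1 hq.1 hpq
  have hsub : (S.toFinset.filter (fun p => |a - p.1| ≤ 3 ∧ |b - p.2.1| ≤ 3)).image
      (fun p : ℤ × ℤ × ℕ => (p.1, p.2.1)) ⊆
      (Finset.Icc (a - 3) (a + 3)) ×ˢ (Finset.Icc (b - 3) (b + 3)) := by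
    intro q hq
    rw [Finset.mem_image] at hq
    obtain ⟨p, hp, rfl⟩ := hq
    rw [Finset.mem_filter, abs_le, abs_le] at hp
    rw [Finset.mem_product, Finset.mem_Icc, Finset.mem_Icc]
    refine ⟨⟨?_, ?_⟩, ⟨?_, ?_⟩⟩ <;> simp only <;> omega
  have h1 := Finset.card_le_card hsub
  rw [Finset.card_image_of_injOn hinj, Finset.card_product, Int.card_Icc, Int.card_Icc] at h1
  have h2 : (a + 3 + 1 - (a - 3)).toNat = 7 := by
    have : a + 3 + 1 - (a - 3) = 7 := by ring
    rw [this]; rfl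
  have h3 : (b + 3 + 1 - (b - 3)).toNat = 7 := by
    have : b + 3 + 1 - (b - 3) = 7 := by ring
    rw [this]; rfl
  rw [h2, h3] at h1
  exact h1

theorem TREE1_khat_sum {S : DList} (h : (S.map (fun p => (p.1, p.2.1))).Nodup) :
    ∑ p ∈ S.toFinset, khat S p.1 p.2.1 ≤ 49 * ksum S := by
  have hS := TREE1_nodup h
  calc ∑ p ∈ S.toFinset, khat S p.1 p.2.1
      = ∑ p ∈ S.toFinset, ∑ q ∈ S.toFinset,
          if (|q.1 - p.1| ≤ 3 ∧ |q.2.1 - p.2.1| ≤ 3) then q.2.2 else 0 := by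
        refine Finset.sum_congr rfl (fun p _ => ?_)
        rw [TREE1_khat hS, Finset.sum_filter]
    _ = ∑ q ∈ S.toFinset, ∑ p ∈ S.toFinset,
          if (|q.1 - p.1| ≤ 3 ∧ |q.2.1 - p.2.1| ≤ 3) then q.2.2 else 0 := Finset.sum_comm
    _ ≤ ∑ q ∈ S.toFinset, 49 * q.2.2 := by
        refine Finset.sum_le_sum (fun q _ => ?_)
        rw [← Finset.sum_filter, Finset.sum_const, smul_eq_mul]
        exact Nat.mul_le_mul_right _ (TREE1_window h _ _)
    _ = 49 * ksum S := by rw [← Finset.mul_sum, TREE1_ksum hS]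

theorem TREE1_length {S : DList} (hp : ∀ p ∈ S, 1 ≤ p.2.2) : S.length ≤ ksum S := by
  unfold ksum
  have := List.length_le_sum_of_one_le (S.map (fun p => p.2.2)) (by
    intro i hi
    rw [List.mem_map] at hi
    obtain ⟨p, hpS, rfl⟩ := hi
    exact hp p hpS)
  rwa [List.length_map] at this

theorem tinv_cap {lam : Fin n → ℂ} {j : ℕ} {S : DList} (h : TInv lam j S) : capOK n S = true := by
  have h1 := h.sum
  have h2 : S.length ≤ 98 * n := (TREE1_length h.pos).trans h1
  have h3 : (S.map (fun p => khat S p.1 p.2.1 + 1)).sum ≤ 4900 * n := by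
    have hS := TREE1_nodup h.nodup
    rw [← List.sum_toFinset _ hS, Finset.sum_add_distrib, Finset.sum_const, smul_eq_mul, mul_one,
      List.toFinset_card_of_nodup hS]
    have := TREE1_khat_sum h.nodup
    omega
  unfold capOK
  rw [Bool.and_eq_true, Bool.and_eq_true]
  exact ⟨⟨decide_eq_true h1, decide_eq_true h2⟩, decide_eq_true h3⟩

theorem TREE1_round (R x : ℝ) (hR : 0 < R) : |x - R * (round (x / R) : ℤ)| ≤ R / 2 := by
  have h1 := abs_sub_round (x / R)
  have h2 : x - R * (round (x / R) : ℤ) = R * (x / R - (round (x / R) : ℤ)) := by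
    field_simp
  rw [h2, abs_mul, abs_of_pos hR]
  nlinarith

theorem TREE1_near {R x : ℝ} {p d a : ℤ} (hR : 0 < R) (hd : 0 ≤ d ∧ d ≤ 1)
    (hx : |x - R / 2 * ((2 * p + d : ℤ) : ℝ)| < 2 * R) (ha : |x - R * a| ≤ R / 2) :
    |a - p| ≤ 3 := by
  push_cast at hx
  rw [abs_lt] at hx
  rw [abs_le] at ha ⊢
  have hd0 : (0 : ℝ) ≤ d := by exact_mod_cast hd.1
  have hd1 : (d : ℝ) ≤ 1 := by exact_mod_cast hd.2
  constructor
  · by_contra hc
    push Not at hc
    have hc' : (a : ℝ) - p ≤ -4 := by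
      have : a - p ≤ -4 := by omega
      exact_mod_cast this
    nlinarith
  · by_contra hc
    push Not at hc
    have hc' : (4 : ℝ) ≤ (a : ℝ) - p := by
      have : 4 ≤ a - p := by omega
      exact_mod_cast this
    nlinarith

theorem TREE1_m4 {lam : Fin n → ℂ} {j : ℕ} {S : DList} (h : TInv lam j S) {p : ℤ × ℤ × ℕ}
    {d e : ℤ} (hd : 0 ≤ d ∧ d ≤ 1) (he : 0 ≤ e ∧ e ≤ 1) :
    m4 lam (grd (rad (j + 1)) (2 * p.1 + d) (2 * p.2.1 + e)) (rad (j + 1)) ≤ khat S p.1 p.2.1 := by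
  classical
  have hR : 0 < rad j := by unfold rad; positivity
  have hr : rad (j + 1) = rad j / 2 := by
    unfold rad; rw [pow_succ]; field_simp
  rw [TREE1_khat (TREE1_nodup h.nodup), hr]
  unfold m4
  have hsub : (Finset.univ.filter (fun i =>
      ‖lam i - grd (rad j / 2) (2 * p.1 + d) (2 * p.2.1 + e)‖ < 4 * (rad j / 2))) ⊆
      (S.toFinset.filter (fun q => |q.1 - p.1| ≤ 3 ∧ |q.2.1 - p.2.1| ≤ 3)).biUnion
        (fun q => Finset.univ.filter (fun i => ‖lam i - grd (rad j) q.1 q.2.1‖ ≤ 2 * rad j)) := by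
    intro i hi
    rw [Finset.mem_filter] at hi
    have hi := hi.2
    have h1 := Complex.abs_re_le_norm (lam i - grd (rad j / 2) (2 * p.1 + d) (2 * p.2.1 + e))
    have h2 := Complex.abs_im_le_norm (lam i - grd (rad j / 2) (2 * p.1 + d) (2 * p.2.1 + e))
    rw [Complex.sub_re, TREE1_grd_re] at h1
    rw [Complex.sub_im, TREE1_grd_im] at h2
    have h3 := TREE1_round (rad j) (lam i).re hR
    have h4 := TREE1_round (rad j) (lam i).im hR
    set a := round ((lam i).re / rad j) with ha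
    set b := round ((lam i).im / rad j) with hb
    have h5 : ‖lam i - grd (rad j) a b‖ ≤ 2 * rad j := by
      have := Complex.norm_le_abs_re_add_abs_im (lam i - grd (rad j) a b)
      rw [Complex.sub_re, Complex.sub_im, TREE1_grd_re, TREE1_grd_im] at this
      linarith
    obtain ⟨k, hk⟩ := h.list a b ⟨i, h5⟩
    rw [Finset.mem_biUnion]
    refine ⟨(a, b, k), ?_, ?_⟩
    · rw [Finset.mem_filter, List.mem_toFinset]
      refine ⟨hk, ?_, ?_⟩
      · exact TREE1_near hR hd (lt_of_le_of_lt h1 (by linarith)) h3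
      · exact TREE1_near hR he (lt_of_le_of_lt h2 (by linarith)) h4
    · rw [Finset.mem_filter]
      exact ⟨Finset.mem_univ _, h5⟩
  refine ((Finset.card_le_card hsub).trans Finset.card_biUnion_le).trans ?_
  refine Finset.sum_le_sum (fun q hq => ?_)
  rw [Finset.mem_filter, List.mem_toFinset] at hq
  have := h.low q hq.1
  unfold m2 at this
  convert this

/-- the bound `khat` of a child -/
theorem child_m4 {lam : Fin n → ℂ} {j : ℕ} {S : DList} (h : TInv lam j S) {c : ℤ × ℤ × ℕ}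
    (hc : c ∈ children S) :
    m4 lam (grd (rad (j + 1)) c.1 c.2.1) (rad (j + 1)) ≤ c.2.2 ∧ c.2.2 ≤ 98 * n ∧
      |c.1| < 3 * 2 ^ (j + 1) ∧ |c.2.1| < 3 * 2 ^ (j + 1) := by
  unfold children at hc
  rw [List.mem_flatMap] at hc
  obtain ⟨p, hp, hc⟩ := hc
  obtain ⟨d, e, hd, he, rfl⟩ : ∃ d e : ℤ, (0 ≤ d ∧ d ≤ 1) ∧ (0 ≤ e ∧ e ≤ 1) ∧
      c = (2 * p.1 + d, 2 * p.2.1 + e, khat S p.1 p.2.1) := by
    simp only [List.mem_cons, List.not_mem_nil, or_false] at hc
    rcases hc with rfl | rfl | rfl | rfl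
    · exact ⟨0, 0, by norm_num, by norm_num, by simp⟩
    · exact ⟨1, 0, by norm_num, by norm_num, by simp⟩
    · exact ⟨0, 1, by norm_num, by norm_num, by simp⟩
    · exact ⟨1, 1, by norm_num, by norm_num, by simp⟩
  refine ⟨TREE1_m4 h hd he, (khat_le_ksum _ _ _).trans h.sum, ?_, ?_⟩
  · have h1 := (h.box p hp).1
    rw [abs_lt] at h1
    rw [abs_lt, pow_succ]
    simp only
    constructor <;> omega
  · have h1 := (h.box p hp).2
    rw [abs_lt] at h1
    rw [abs_lt, pow_succ]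
    simp only
    constructor <;> omega

end H6LP

end S_TREE1

section S_TREE2

set_option autoImplicit false

open Complex Matrix

namespace H6LP

variable {n : ℕ}

/-- positions of the children of a position -/
def tree2Kids (q : ℤ × ℤ) : List (ℤ × ℤ) :=
  [(2 * q.1, 2 * q.2), (2 * q.1 + 1, 2 * q.2), (2 * q.1, 2 * q.2 + 1), (2 * q.1 + 1, 2 * q.2 + 1)]

theorem tree2_children_pos (S : DList) :
    (children S).map (fun p => (p.1, p.2.1)) =
      (S.map (fun p => (p.1, p.2.1))).flatMap tree2Kids := by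
  unfold children
  rw [List.map_flatMap, List.flatMap_map]
  rfl

theorem tree2_kids_nodup (q : ℤ × ℤ) : (tree2Kids q).Nodup := by
  unfold tree2Kids
  simp only [List.nodup_cons, List.mem_cons, Prod.mk.injEq, List.not_mem_nil, or_false,
    not_or, not_and, not_false_eq_true, List.nodup_nil, and_true]
  omega

theorem tree2_mem_kids {q x : ℤ × ℤ} : x ∈ tree2Kids q ↔ (x.1 / 2 = q.1 ∧ x.2 / 2 = q.2) := by
  unfold tree2Kids
  obtain ⟨x1, x2⟩ := x
  simp only [List.mem_cons, Prod.mk.injEq, List.not_mem_nil, or_false]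
  omega

theorem tree2_nodup {S : DList} (h : (S.map (fun p => (p.1, p.2.1))).Nodup) :
    ((children S).map (fun p => (p.1, p.2.1))).Nodup := by
  rw [tree2_children_pos, List.nodup_flatMap]
  refine ⟨fun q _ => tree2_kids_nodup q, ?_⟩
  refine List.Pairwise.imp ?_ h
  intro q q' hne
  intro x hx hx'
  rw [tree2_mem_kids] at hx hx'
  apply hne
  ext
  · exact hx.1.symm.trans hx'.1
  · exact hx.2.symm.trans hx'.2

theorem tree2_pos_eq {R : ℤ × ℤ × ℕ → ℤ × ℤ × ℕ → Prop}
    (hR : ∀ c p, R c p → p.1 = c.1 ∧ p.2.1 = c.2.1) {C L : DList} (h : List.Forall₂ R C L) :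
    L.map (fun p => (p.1, p.2.1)) = C.map (fun p => (p.1, p.2.1)) := by
  induction h with
  | nil => rfl
  | cons hcp _ ih =>
    obtain ⟨h1, h2⟩ := hR _ _ hcp
    simp only [List.map_cons, ih, h1, h2]

theorem tree2_left {R : ℤ × ℤ × ℕ → ℤ × ℤ × ℕ → Prop} {C L : DList} (h : List.Forall₂ R C L) :
    ∀ p ∈ L, ∃ c ∈ C, R c p := by
  induction h with
  | nil => intro p hp; simp at hp
  | cons hcp _ ih =>
    intro p hp
    rcases List.mem_cons.1 hp with rfl | hp
    · exact ⟨_, List.mem_cons_self, hcp⟩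
    · obtain ⟨c, hc, hr⟩ := ih p hp
      exact ⟨c, List.mem_cons_of_mem _ hc, hr⟩

theorem tree2_right {R : ℤ × ℤ × ℕ → ℤ × ℤ × ℕ → Prop} {C L : DList} (h : List.Forall₂ R C L) :
    ∀ c ∈ C, ∃ p ∈ L, R c p := by
  induction h with
  | nil => intro p hp; simp at hp
  | cons hcp _ ih =>
    intro c hc
    rcases List.mem_cons.1 hc with rfl | hc
    · exact ⟨_, List.mem_cons_self, hcp⟩
    · obtain ⟨p, hp, hr⟩ := ih c hc
      exact ⟨p, List.mem_cons_of_mem _ hp, hr⟩

theorem tree2_mem_children {S : DList} {c : ℤ × ℤ × ℕ} (hc : c ∈ children S) :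
    ∃ p ∈ S, c.1 / 2 = p.1 ∧ c.2.1 / 2 = p.2.1 := by
  unfold children at hc
  rw [List.mem_flatMap] at hc
  obtain ⟨p, hp, hc⟩ := hc
  refine ⟨p, hp, ?_⟩
  obtain ⟨c1, c2, c3⟩ := c
  simp only [List.mem_cons, Prod.mk.injEq, List.not_mem_nil, or_false] at hc
  show c1 / 2 = p.1 ∧ c2 / 2 = p.2.1
  rcases hc with hc | hc | hc | hc <;> obtain ⟨h1, h2, _⟩ := hc <;> omega

theorem tree2_child_mem {S : DList} {a b : ℤ} {k : ℕ} (h : (a / 2, b / 2, k) ∈ S) :
    (a, b, khat S (a / 2) (b / 2)) ∈ children S := by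
  unfold children
  rw [List.mem_flatMap]
  refine ⟨_, h, ?_⟩
  simp only [List.mem_cons, Prod.mk.injEq, List.not_mem_nil, or_false, and_true]
  omega

theorem tree2_rad_pos (j : ℕ) : 0 < rad j := by
  unfold rad; positivity

theorem tree2_rad_succ (j : ℕ) : rad j = 2 * rad (j + 1) := by
  unfold rad
  rw [pow_succ]
  field_simp

theorem tree2_grd_sub (r : ℝ) (hr : 0 ≤ r) (a b : ℤ) :
    ‖grd r a b - grd (2 * r) (a / 2) (b / 2)‖ ≤ 2 * r := by
  have ha : (a : ℝ) - 2 * ((a / 2 : ℤ) : ℝ) = ((a % 2 : ℤ) : ℝ) := by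
    have := Int.emod_add_mul_ediv a 2
    have h2 : ((a % 2 + 2 * (a / 2) : ℤ) : ℝ) = (a : ℝ) := by rw [this]
    push_cast at h2
    linarith
  have hb : (b : ℝ) - 2 * ((b / 2 : ℤ) : ℝ) = ((b % 2 : ℤ) : ℝ) := by
    have := Int.emod_add_mul_ediv b 2
    have h2 : ((b % 2 + 2 * (b / 2) : ℤ) : ℝ) = (b : ℝ) := by rw [this]
    push_cast at h2
    linarith
  have ha1 : |((a % 2 : ℤ) : ℝ)| ≤ 1 := by
    have h0 : 0 ≤ a % 2 := by omega
    have h1 : a % 2 ≤ 1 := by omega
    rw [abs_of_nonneg (by exact_mod_cast h0)]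
    exact_mod_cast h1
  have hb1 : |((b % 2 : ℤ) : ℝ)| ≤ 1 := by
    have h0 : 0 ≤ b % 2 := by omega
    have h1 : b % 2 ≤ 1 := by omega
    rw [abs_of_nonneg (by exact_mod_cast h0)]
    exact_mod_cast h1
  have e : grd r a b - grd (2 * r) (a / 2) (b / 2) =
      ((r * ((a % 2 : ℤ) : ℝ) : ℝ) : ℂ) + ((r * ((b % 2 : ℤ) : ℝ) : ℝ) : ℂ) * I := by
    rw [← ha, ← hb]
    unfold grd
    push_cast
    ring
  rw [e]
  refine (norm_add_le _ _).trans ?_
  rw [norm_mul, Complex.norm_I, mul_one, Complex.norm_real, Complex.norm_real, Real.norm_eq_abs,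
    Real.norm_eq_abs, abs_mul, abs_mul, abs_of_nonneg hr]
  nlinarith [mul_le_mul_of_nonneg_left ha1 hr, mul_le_mul_of_nonneg_left hb1 hr]

/-- at most 49 grid points are at distance `< 3 r` -/
theorem tree2_count (z : ℂ) {r : ℝ} (hr : 0 < r) (T : Finset (ℤ × ℤ))
    (hT : ∀ q ∈ T, ‖z - grd r q.1 q.2‖ < 3 * r) : T.card ≤ 49 := by
  have hsub : T ⊆ Finset.Icc (⌊z.re / r⌋ - 3) (⌊z.re / r⌋ + 3) ×ˢ
      Finset.Icc (⌊z.im / r⌋ - 3) (⌊z.im / r⌋ + 3) := by
    intro q hq
    have h := hT q hq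
    have h1 : |(z - grd r q.1 q.2).re| < 3 * r := (Complex.abs_re_le_norm _).trans_lt h
    have h2 : |(z - grd r q.1 q.2).im| < 3 * r := (Complex.abs_im_le_norm _).trans_lt h
    have e1 : (z - grd r q.1 q.2).re = z.re - r * q.1 := by
      unfold grd
      simp
    have e2 : (z - grd r q.1 q.2).im = z.im - r * q.2 := by
      unfold grd
      simp
    rw [e1] at h1
    rw [e2] at h2
    have key : ∀ (x : ℝ) (m : ℤ), |x - r * m| < 3 * r → ⌊x / r⌋ - 3 ≤ m ∧ m ≤ ⌊x / r⌋ + 3 := by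
      intro x m hx
      rw [abs_lt] at hx
      have hx1 : x / r < m + 3 := by
        rw [div_lt_iff₀ hr]; nlinarith [hx.2]
      have hx2 : (m : ℝ) - 3 < x / r := by
        rw [lt_div_iff₀ hr]; nlinarith [hx.1]
      have f1 : (⌊x / r⌋ : ℝ) ≤ x / r := Int.floor_le _
      have f2 : x / r < ⌊x / r⌋ + 1 := Int.lt_floor_add_one _
      constructor
      · have : ((⌊x / r⌋ : ℤ) : ℝ) < ((m + 3 : ℤ) : ℝ) := by push_cast; linarith
        have := Int.cast_lt.1 this
        omega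
      · have : ((m - 3 : ℤ) : ℝ) < ((⌊x / r⌋ + 1 : ℤ) : ℝ) := by push_cast; linarith
        have := Int.cast_lt.1 this
        omega
    rw [Finset.mem_product, Finset.mem_Icc, Finset.mem_Icc]
    exact ⟨key _ _ h1, key _ _ h2⟩
  refine (Finset.card_le_card hsub).trans ?_
  rw [Finset.card_product, Int.card_Icc, Int.card_Icc]
  have h1 : (⌊z.re / r⌋ + 3 + 1 - (⌊z.re / r⌋ - 3)).toNat = 7 := by
    have : (⌊z.re / r⌋ + 3 + 1 - (⌊z.re / r⌋ - 3)) = 7 := by ring
    rw [this]; rfl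
  have h2 : (⌊z.im / r⌋ + 3 + 1 - (⌊z.im / r⌋ - 3)).toNat = 7 := by
    have : (⌊z.im / r⌋ + 3 + 1 - (⌊z.im / r⌋ - 3)) = 7 := by ring
    rw [this]; rfl
  rw [h1, h2]

theorem tree2_m3_sum (lam : Fin n → ℂ) {r : ℝ} (hr : 0 < r) (T : Finset (ℤ × ℤ)) :
    ∑ q ∈ T, m3 lam (grd r q.1 q.2) r ≤ 49 * n := by
  classical
  have e : ∀ q : ℤ × ℤ, m3 lam (grd r q.1 q.2) r =
      ∑ i : Fin n, if ‖lam i - grd r q.1 q.2‖ < 3 * r then 1 else 0 := by
    intro q
    unfold m3
    rw [Finset.card_filter]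
  simp only [e]
  rw [Finset.sum_comm]
  refine (Finset.sum_le_card_nsmul Finset.univ _ 49 ?_).trans ?_
  · intro i _
    rw [← Finset.card_filter]
    exact tree2_count (lam i) hr _ (fun q hq => (Finset.mem_filter.1 hq).2)
  · simp [mul_comm]

theorem tree2_sum_map {g : ℤ × ℤ → ℕ} : ∀ {L : DList},
    (L.map (fun p => (p.1, p.2.1))).Nodup → (∀ p ∈ L, p.2.2 ≤ g (p.1, p.2.1)) →
    ksum L ≤ ∑ q ∈ (L.map (fun p => (p.1, p.2.1))).toFinset, g q := by
  classical
  intro L
  induction L with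
  | nil => intro _ _; simp [ksum]
  | cons p L ih =>
    intro hn hg
    rw [List.map_cons, List.nodup_cons] at hn
    rw [List.map_cons, List.toFinset_cons, Finset.sum_insert (by
      rw [List.mem_toFinset]; exact hn.1)]
    have h1 : ksum (p :: L) = p.2.2 + ksum L := by simp [ksum]
    rw [h1]
    exact add_le_add (hg p List.mem_cons_self)
      (ih hn.2 (fun q hq => hg q (List.mem_cons_of_mem _ hq)))

theorem tinv_step {lam : Fin n → ℂ} {j : ℕ} {S L : DList} (h : TInv lam j S)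
    (hL : List.Forall₂ (fun c p : ℤ × ℤ × ℕ => p.1 = c.1 ∧ p.2.1 = c.2.1 ∧
      m2 lam (grd (rad (j + 1)) c.1 c.2.1) (rad (j + 1)) ≤ p.2.2 ∧
      p.2.2 ≤ 2 * m3 lam (grd (rad (j + 1)) c.1 c.2.1) (rad (j + 1))) (children S) L) :
    TInv lam (j + 1) (L.filter (fun p => 0 < p.2.2)) ∧
      TNear lam (j + 1) (L.filter (fun p => 0 < p.2.2)) := by
  classical
  have hr := tree2_rad_pos (j + 1)
  have hpos : L.map (fun p => (p.1, p.2.1)) = (children S).map (fun p => (p.1, p.2.1)) :=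
    tree2_pos_eq (fun c p hcp => ⟨hcp.1, hcp.2.1⟩) hL
  have hnd : (L.map (fun p => (p.1, p.2.1))).Nodup := by
    rw [hpos]; exact tree2_nodup h.nodup
  have hsub : ((L.filter (fun p => 0 < p.2.2)).map (fun p => (p.1, p.2.1))).Sublist
      (L.map (fun p => (p.1, p.2.1))) := List.Sublist.map _ List.filter_sublist
  have hnd' := hnd.sublist hsub
  have hmem : ∀ p ∈ L.filter (fun p => 0 < p.2.2), p ∈ L ∧ 0 < p.2.2 := by
    intro p hp
    rw [List.mem_filter] at hp
    exact ⟨hp.1, by simpa using hp.2⟩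
  have hbd : ∀ p ∈ L, m2 lam (grd (rad (j + 1)) p.1 p.2.1) (rad (j + 1)) ≤ p.2.2 ∧
      p.2.2 ≤ 2 * m3 lam (grd (rad (j + 1)) p.1 p.2.1) (rad (j + 1)) := by
    intro p hp
    obtain ⟨c, _, h1, h2, h3, h4⟩ := tree2_left hL p hp
    rw [h1, h2]
    exact ⟨h3, h4⟩
  have hnear : TNear lam (j + 1) (L.filter (fun p => 0 < p.2.2)) := by
    intro p hp
    obtain ⟨hpL, hp0⟩ := hmem p hp
    have h3 := (hbd p hpL).2
    have h4 : 0 < m3 lam (grd (rad (j + 1)) p.1 p.2.1) (rad (j + 1)) := by omega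
    unfold m3 at h4
    rw [Finset.card_pos] at h4
    obtain ⟨i, hi⟩ := h4
    exact ⟨i, (Finset.mem_filter.1 hi).2⟩
  refine ⟨⟨hnd', ?_, ?_, ?_, ?_, ?_⟩, hnear⟩
  · intro p hp
    exact (hmem p hp).2
  · intro p hp
    exact (hbd p (hmem p hp).1).1
  · rintro a b ⟨i, hi⟩
    have hpar : ‖lam i - grd (rad j) (a / 2) (b / 2)‖ ≤ 2 * rad j := by
      have e : lam i - grd (rad j) (a / 2) (b / 2) =
          (lam i - grd (rad (j + 1)) a b) + (grd (rad (j + 1)) a b - grd (rad j) (a / 2) (b / 2)) := by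
        ring
      rw [e]
      refine (norm_add_le _ _).trans ?_
      have h2 : ‖grd (rad (j + 1)) a b - grd (rad j) (a / 2) (b / 2)‖ ≤ 2 * rad (j + 1) := by
        rw [tree2_rad_succ j]
        exact tree2_grd_sub _ hr.le a b
      have h3 := tree2_rad_succ j
      linarith
    obtain ⟨k, hk⟩ := h.list (a / 2) (b / 2) ⟨i, hpar⟩
    have hc := tree2_child_mem hk
    obtain ⟨p, hp, h1, h2, h3, _⟩ := tree2_right hL _ hc
    simp only at h1 h2 h3
    have hm : 0 < m2 lam (grd (rad (j + 1)) a b) (rad (j + 1)) := by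
      unfold m2
      rw [Finset.card_pos]
      exact ⟨i, Finset.mem_filter.2 ⟨Finset.mem_univ _, hi⟩⟩
    refine ⟨p.2.2, ?_⟩
    rw [List.mem_filter]
    have hp0 : 0 < p.2.2 := lt_of_lt_of_le hm h3
    refine ⟨?_, by simpa using hp0⟩
    have : p = (a, b, p.2.2) := by
      obtain ⟨p1, p2, p3⟩ := p
      simp only at h1 h2
      simp [h1, h2]
    rw [← this]
    exact hp
  · have h1 : ksum (L.filter (fun p => 0 < p.2.2)) ≤
        ∑ q ∈ ((L.filter (fun p => 0 < p.2.2)).map (fun p => (p.1, p.2.1))).toFinset,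
          2 * m3 lam (grd (rad (j + 1)) q.1 q.2) (rad (j + 1)) :=
      tree2_sum_map (g := fun q => 2 * m3 lam (grd (rad (j + 1)) q.1 q.2) (rad (j + 1))) hnd'
        (fun p hp => (hbd p (hmem p hp).1).2)
    rw [← Finset.mul_sum] at h1
    have h2 := tree2_m3_sum lam hr
      ((L.filter (fun p => 0 < p.2.2)).map (fun p => (p.1, p.2.1))).toFinset
    omega
  · intro p hp
    obtain ⟨c, hc, h1, h2, _, _⟩ := tree2_left hL p (hmem p hp).1
    obtain ⟨q, hq, e1, e2⟩ := tree2_mem_children hc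
    obtain ⟨b1, b2⟩ := h.box q hq
    rw [h1, h2]
    rw [← e1] at b1
    rw [← e2] at b2
    rw [abs_lt] at b1 b2 ⊢
    rw [abs_lt]
    rw [pow_succ]
    generalize (2 : ℤ) ^ j = X at *
    omega

end H6LP

end S_TREE2

section S_REPS

set_option autoImplicit false

open Complex Matrix

namespace H6LP

theorem REPS_grd_re (h : ℝ) (a b : ℤ) : (grd h a b).re = h * a := by
  unfold grd
  simp

theorem REPS_grd_im (h : ℝ) (a b : ℤ) : (grd h a b).im = h * b := by
  unfold grd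
  simp

/-- the two positions are far from each other -/
def REPSfar (p q : ℤ × ℤ) : Prop := 10 < |p.1 - q.1| ∨ 10 < |p.2 - q.2|

theorem REPS_far_symm {p q : ℤ × ℤ} (h : REPSfar p q) : REPSfar q p := by
  unfold REPSfar at *
  rw [abs_sub_comm q.1, abs_sub_comm q.2]
  exact h

theorem REPS_cons (p : ℤ × ℤ × ℕ) (S : DList) :
    reps (p :: S) = if (reps S).all
      (fun q => decide (10 < |p.1 - q.1|) || decide (10 < |p.2.1 - q.2|)) then
        (p.1, p.2.1) :: reps S else reps S := rfl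

theorem REPS_mem (S : DList) : ∀ q ∈ reps S, ∃ k, (q.1, q.2, k) ∈ S := by
  induction S with
  | nil => intro q hq; exact absurd hq (List.not_mem_nil)
  | cons p S ih =>
    intro q hq
    rw [REPS_cons] at hq
    split_ifs at hq with hc
    · rcases List.mem_cons.1 hq with rfl | hq
      · exact ⟨p.2.2, List.mem_cons_self⟩
      · obtain ⟨k, hk⟩ := ih q hq
        exact ⟨k, List.mem_cons_of_mem _ hk⟩
    · obtain ⟨k, hk⟩ := ih q hq
      exact ⟨k, List.mem_cons_of_mem _ hk⟩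

theorem REPS_pairwise (S : DList) : (reps S).Pairwise REPSfar := by
  induction S with
  | nil => exact List.Pairwise.nil
  | cons p S ih =>
    rw [REPS_cons]
    split_ifs with hc
    · rw [List.pairwise_cons]
      refine ⟨fun q hq => ?_, ih⟩
      rw [List.all_eq_true] at hc
      have := hc q hq
      rw [Bool.or_eq_true, decide_eq_true_iff, decide_eq_true_iff] at this
      exact this
    · exact ih

theorem REPS_cover (S : DList) : ∀ p ∈ S, ∃ q ∈ reps S, ¬ REPSfar (p.1, p.2.1) q := by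
  have hself : ∀ q : ℤ × ℤ, ¬ REPSfar q q := by
    intro q; unfold REPSfar; simp
  induction S with
  | nil => intro p hp; exact absurd hp (List.not_mem_nil)
  | cons p S ih =>
    intro p' hp'
    rw [REPS_cons]
    split_ifs with hc
    · rcases List.mem_cons.1 hp' with rfl | hp'
      · exact ⟨_, List.mem_cons_self, hself _⟩
      · obtain ⟨q, hq, hn⟩ := ih p' hp'
        exact ⟨q, List.mem_cons_of_mem _ hq, hn⟩
    · rcases List.mem_cons.1 hp' with rfl | hp'
      · rw [List.all_eq_true] at hc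
        push Not at hc
        obtain ⟨q, hq, hn⟩ := hc
        refine ⟨q, hq, fun hf => hn ?_⟩
        rw [Bool.or_eq_true, decide_eq_true_iff, decide_eq_true_iff]
        exact hf
      · exact ih p' hp'

theorem REPS_round (R x : ℝ) (hR : 0 < R) : |x - R * (round (x / R) : ℤ)| ≤ R / 2 := by
  have h1 := abs_sub_round (x / R)
  have h2 : x - R * (round (x / R) : ℤ) = R * (x / R - (round (x / R) : ℤ)) := by
    field_simp
  rw [h2, abs_mul, abs_of_pos hR]
  nlinarith

theorem REPS_int_near {r x : ℝ} {a b : ℤ} (hr : 0 < r) (h1 : |x - r * a| < 3 * r)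
    (h2 : |x - r * b| < 3 * r) : |a - b| ≤ 10 := by
  rw [abs_lt] at h1 h2
  rw [abs_le]
  constructor
  · by_contra hc
    push Not at hc
    have hc' : (a : ℝ) - b ≤ -10 := by
      have : a - b ≤ -10 := by omega
      exact_mod_cast this
    nlinarith
  · by_contra hc
    push Not at hc
    have hc' : (10 : ℝ) ≤ (a : ℝ) - b := by
      have : 10 ≤ a - b := by omega
      exact_mod_cast this
    nlinarith

/-- positions near the same point are not far -/
theorem REPS_not_far {r : ℝ} (hr : 0 < r) {z : ℂ} {p q : ℤ × ℤ} (hp : ‖z - grd r p.1 p.2‖ < 3 * r)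
    (hq : ‖z - grd r q.1 q.2‖ < 3 * r) : ¬ REPSfar p q := by
  unfold REPSfar
  push Not
  have h1 := (Complex.abs_re_le_norm (z - grd r p.1 p.2)).trans_lt hp
  have h2 := (Complex.abs_im_le_norm (z - grd r p.1 p.2)).trans_lt hp
  have h3 := (Complex.abs_re_le_norm (z - grd r q.1 q.2)).trans_lt hq
  have h4 := (Complex.abs_im_le_norm (z - grd r q.1 q.2)).trans_lt hq
  rw [Complex.sub_re, REPS_grd_re] at h1 h3
  rw [Complex.sub_im, REPS_grd_im] at h2 h4
  exact ⟨REPS_int_near hr h1 h3, REPS_int_near hr h2 h4⟩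

/-- not far positions have close grid points -/
theorem REPS_close {r : ℝ} (hr : 0 < r) {p q : ℤ × ℤ} (h : ¬ REPSfar p q) :
    ‖grd r p.1 p.2 - grd r q.1 q.2‖ ≤ 20 * r := by
  unfold REPSfar at h
  push Not at h
  have h0 := Complex.norm_le_abs_re_add_abs_im (grd r p.1 p.2 - grd r q.1 q.2)
  rw [Complex.sub_re, Complex.sub_im, REPS_grd_re, REPS_grd_re, REPS_grd_im, REPS_grd_im,
    ← mul_sub, ← mul_sub, abs_mul, abs_mul, abs_of_pos hr] at h0
  have h1 : |(p.1 : ℝ) - q.1| ≤ 10 := by exact_mod_cast h.1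
  have h2 : |(p.2 : ℝ) - q.2| ≤ 10 := by exact_mod_cast h.2
  nlinarith

theorem REPS_core {n : ℕ} {lam : Fin n → ℂ} {r : ℝ} (hr : 0 < r) (R : List (ℤ × ℤ))
    (hnear : ∀ q ∈ R, ∃ i, ‖lam i - grd r q.1 q.2‖ < 3 * r) (hpw : R.Pairwise REPSfar)
    (hcov : ∀ i, ∃ z : ℂ, ∃ q ∈ R, ‖lam i - z‖ ≤ 2 * r ∧ ‖z - grd r q.1 q.2‖ ≤ 20 * r)
    (hgap : ∀ i i', i ≠ i' → 100 * r ≤ ‖lam i - lam i'‖) :
    ∃ σ : Equiv.Perm (Fin n), ∀ i : Fin n,
      ‖lam (σ i) - grd r (R.getD i (0, 0)).1 (R.getD i (0, 0)).2‖ ≤ 3 * r := by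
  have hex : ∀ k : Fin R.length, ∃ i, ‖lam i - grd r (R.get k).1 (R.get k).2‖ < 3 * r :=
    fun k => hnear _ (List.get_mem _ _)
  choose F hF using hex
  have hinj : Function.Injective F := by
    intro k k' hk
    by_contra hne
    have h1 := hF k
    have h2 := hF k'
    rw [← hk] at h2
    have h3 := REPS_not_far hr h1 h2
    have h4 := List.pairwise_iff_get.1 hpw
    rcases lt_or_gt_of_ne hne with h5 | h5
    · exact h3 (h4 k k' h5)
    · exact h3 (REPS_far_symm (h4 k' k h5))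
  have hsurj : Function.Surjective F := by
    intro i
    obtain ⟨z, q, hq, h5, h8⟩ := hcov i
    obtain ⟨k, rfl⟩ := List.get_of_mem hq
    refine ⟨k, ?_⟩
    by_contra hne
    have h6 := hF k
    have h7 := hgap _ _ hne
    have h10 : ‖lam (F k) - lam i‖ ≤ ‖lam (F k) - grd r (R.get k).1 (R.get k).2‖ +
        ‖z - grd r (R.get k).1 (R.get k).2‖ + ‖lam i - z‖ := by
      have e : lam (F k) - lam i = (lam (F k) - grd r (R.get k).1 (R.get k).2)
          - (z - grd r (R.get k).1 (R.get k).2) - (lam i - z) := by ring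
      rw [e]
      exact (norm_sub_le _ _).trans (add_le_add_left (norm_sub_le _ _) _)
    linarith
  have hcard : R.length = n := by
    have := Fintype.card_of_bijective ⟨hinj, hsurj⟩
    simpa using this
  have hbij : Function.Bijective (fun i : Fin n => F (Fin.cast hcard.symm i)) :=
    Function.Bijective.comp (g := F) ⟨hinj, hsurj⟩ (finCongr hcard.symm).bijective
  refine ⟨Equiv.ofBijective _ hbij, fun i => ?_⟩
  have hi : (i : ℕ) < R.length := by rw [hcard]; exact i.2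
  rw [List.getD_eq_getElem _ _ hi]
  exact (hF (Fin.cast hcard.symm i)).le

theorem reps_spec {n : ℕ} {lam : Fin n → ℂ} {j : ℕ} {S : DList} (h : TInv lam j S)
    (h' : TNear lam j S) (hgap : ∀ i i', i ≠ i' → 100 * rad j ≤ ‖lam i - lam i'‖) :
    ∃ σ : Equiv.Perm (Fin n), ∀ i : Fin n,
      ‖lam (σ i) - grd (rad j) ((reps S).getD i (0, 0)).1 ((reps S).getD i (0, 0)).2‖ ≤ 3 * rad j := by
  have hr : 0 < rad j := by unfold rad; positivity
  refine REPS_core hr (reps S) (fun q hq => ?_) (REPS_pairwise S) (fun i => ?_) hgap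
  · obtain ⟨m, hm⟩ := REPS_mem S q hq
    obtain ⟨i, hi⟩ := h' _ hm
    exact ⟨i, hi⟩
  · have h3 := REPS_round (rad j) (lam i).re hr
    have h4 := REPS_round (rad j) (lam i).im hr
    set a := round ((lam i).re / rad j) with ha
    set b := round ((lam i).im / rad j) with hb
    have h5 : ‖lam i - grd (rad j) a b‖ ≤ 2 * rad j := by
      have := Complex.norm_le_abs_re_add_abs_im (lam i - grd (rad j) a b)
      rw [Complex.sub_re, Complex.sub_im, REPS_grd_re, REPS_grd_im] at this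
      linarith
    obtain ⟨m, hm⟩ := h.list a b ⟨i, h5⟩
    obtain ⟨q, hq, hn⟩ := REPS_cover S _ hm
    have h6 := REPS_close (p := (a, b)) hr hn
    exact ⟨grd (rad j) a b, q, hq, h5, h6⟩

end H6LP

end S_REPS

section S_TREEP

set_option autoImplicit false

open Complex Matrix

namespace H6LP

/-- the loop over a list; `R` is a relation between inputs and results which does not depend on registers -/
theorem post_listM {α β : Type} {ad : Adv} (L : List α) (f : α → Prog β) (env : Env)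
    (R : α → β → Prop) (h : ∀ a ∈ L, ∀ env', env <+: env' → Post ad (f a) env' (fun b _ => R a b)) :
    Post ad (listM L f) env (fun bs _ => List.Forall₂ R L bs) := by
  induction L generalizing env with
  | nil => exact Post.pure List.Forall₂.nil
  | cons a L ih =>
    unfold listM
    refine Post.bind (h a (by simp) env (List.prefix_refl _)) ?_
    intro b env1 h1 hb
    refine Post.bind (ih env1 (fun a' ha' env' h' => h a' (by simp [ha']) env' (h1.trans h'))) ?_
    intro t env2 h2 ht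
    exact Post.pure (List.Forall₂.cons hb ht)

theorem post_lvl {ad : Adv} {u : ℝ} (hu : ad.Le u) {n l : ℕ} {X : Matrix (Fin n) (Fin n) ℂ}
    {lam : Fin n → ℂ} {φ Φ : ℂ} (hX : HCtx l X lam φ u) {env : Env} {x : RMat n n} {φr : ℕ}
    (hx : HasM env x X) (hφ : Has env φr Φ) (hΦ : ‖Φ - φ‖ ≤ 40 * u)
    {j : ℕ} (hj : j + 1 ≤ l + 2) {S : DList} (hS : TInv lam j S) :
    Post ad (lvlP l x φr (4 / 2 ^ (j + 1)) S) env (fun S' _ => TInv lam (j + 1) S' ∧
      TNear lam (j + 1) S') := by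
  unfold lvlP
  rw [if_pos (tinv_cap hS)]
  refine Post.bind (post_listM (children S) _ env (fun c p : ℤ × ℤ × ℕ => p.1 = c.1 ∧ p.2.1 = c.2.1 ∧
      m2 lam (grd (rad (j + 1)) c.1 c.2.1) (rad (j + 1)) ≤ p.2.2 ∧
      p.2.2 ≤ 2 * m3 lam (grd (rad (j + 1)) c.1 c.2.1) (rad (j + 1))) ?_) ?_
  · intro c hc env' h'
    obtain ⟨h4, hk, ha, hb⟩ := child_m4 hS hc
    refine Post.bind (post_test hu hX (hx.mono h') (hφ.mono h') hΦ (j := j + 1) (by omega) hj
      ha.le hb.le hk h4) ?_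
    rintro k env1 _ ⟨h2, h3⟩
    exact Post.pure ⟨rfl, rfl, h2, h3⟩
  · intro L env1 _ hL
    exact Post.pure (tinv_step hS hL)

theorem post_tree {ad : Adv} {u : ℝ} (hu : ad.Le u) {n l : ℕ} {X : Matrix (Fin n) (Fin n) ℂ}
    {lam : Fin n → ℂ} {φ Φ : ℂ} (hX : HCtx l X lam φ u) {env : Env} {x : RMat n n} {φr : ℕ}
    (hx : HasM env x X) (hφ : Has env φr Φ) (hΦ : ‖Φ - φ‖ ≤ 40 * u) :
    Post ad (treeP l x φr) env (fun S _ => TInv lam (l + 2) S ∧ TNear lam (l + 2) S) := by
  unfold treeP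
  refine (post_iterP (l + 2) _ (tree0 n) env
    (fun j S _ => TInv lam j S ∧ (1 ≤ j → TNear lam j S)) ⟨tinv_zero hX.lamb hX.hn, by omega⟩ ?_).weaken ?_
  · rintro k hk S env' h' ⟨hS, _⟩
    refine (post_lvl hu hX (hx.mono h') (hφ.mono h') hΦ (j := k) (by omega) hS).weaken ?_
    rintro S' env1 _ ⟨h1, h2⟩
    exact ⟨h1, fun _ => h2⟩
  · rintro S env' _ ⟨h1, h2⟩
    exact ⟨h1, h2 (by omega)⟩

end H6LP

end S_TREEP
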