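import Pool.Agent.H6.LQ.Core
import Pool.Agent.H6.LQ.G1
import Pool.Agent.H6.LQ.G2

/-! MP_63a4b3_lc, part G5: this file joins the modules SOLV, EIGV, RMDET, DIAG, INVIT, EIG, FINA, OPN. -/

section S_SOLV

set_option autoImplicit false

open Complex Matrix

namespace H6LP

variable {n : ℕ}

theorem left_first {X : Matrix (Fin n) (Fin n) ℂ} {s : ℝ} (hs : 0 < s) (hs1 : s ≤ 1) (hop : OpLe X 3)
    (hr : RowLB X s) {z : ℂ} (hz : ‖z‖ ≤ 3) {u : Fin n → ℂ} (hu : nv u = 1)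
    (hl : u ᵥ* (z • (1 : Matrix (Fin n) (Fin n) ℂ) - X) = 0) (i : Fin n) (hi : (i : ℕ) = 0) :
    s / 7 ≤ ‖u i‖ := by
  set T := z • (1 : Matrix (Fin n) (Fin n) ℂ) - X with hT
  -- the first coordinate is removed
  let x : Fin n → ℂ := fun j => if (j : ℕ) = 0 then 0 else u j
  have hx : x = u - Pi.single i (u i) := by
    funext j
    by_cases hj : (j : ℕ) = 0
    · have : j = i := Fin.ext (by omega)
      subst this
      simp [x, hj]
    · have : j ≠ i := fun h => hj (by rw [h]; exact hi)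
      simp [x, hj, Pi.single_eq_of_ne this]
  have h1 := hr z (by linarith) x (fun j hj => by simp [x, hj])
  have h2 : x ᵥ* T = - (Pi.single i (u i) ᵥ* T) := by
    rw [hx, Matrix.sub_vecMul, hl, zero_sub]
  have h3 : nv (Pi.single i (u i) ᵥ* T) ≤ 6 * ‖u i‖ := by
    rw [hT, Matrix.vecMul_sub, Matrix.vecMul_smul, Matrix.vecMul_one]
    refine (nv_sub_le _ _).trans ?_
    rw [nv_smul]
    have h4 := hop.vecMul (by norm_num) (Pi.single i (u i))
    rw [nv_single] at h4 ⊢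
    nlinarith [norm_nonneg (u i)]
  rw [h2, nv_neg] at h1
  have h5 : nv u ≤ nv x + ‖u i‖ := by
    have h6 : x + Pi.single i (u i) = u := by rw [hx, sub_add_cancel]
    have h8 := nv_add_le x (Pi.single i (u i))
    rw [h6, nv_single] at h8
    exact h8
  rw [hu] at h5
  have h7 : s * nv x ≤ 6 * ‖u i‖ := h1.trans h3
  nlinarith [norm_nonneg (u i), nv_nonneg x]

theorem SOLV_surj (T : Matrix (Fin n) (Fin n) ℂ)
    (hT : ∀ w : Fin n → ℂ, (∀ i : Fin n, (i : ℕ) = 0 → w i = 0) → Tᴴ *ᵥ w = 0 → w = 0)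
    (r : Fin n → ℂ) : ∃ w : Fin n → ℂ, (∀ i : Fin n, (i : ℕ) = 0 → w i = 0) ∧
      ∀ i : Fin n, (i : ℕ) ≠ 0 → (T *ᵥ (Tᴴ *ᵥ w)) i = r i := by
  let P : (Fin n → ℂ) →ₗ[ℂ] (Fin n → ℂ) :=
    { toFun := fun w j => if (j : ℕ) = 0 then 0 else w j
      map_add' := fun v w => by
        funext j
        by_cases hj : (j : ℕ) = 0 <;> simp [hj]
      map_smul' := fun c w => by
        funext j
        by_cases hj : (j : ℕ) = 0 <;> simp [hj] }
  let L : (Fin n → ℂ) →ₗ[ℂ] (Fin n → ℂ) := T.mulVecLin ∘ₗ Tᴴ.mulVecLin ∘ₗ P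
  let F : (Fin n → ℂ) →ₗ[ℂ] (Fin n → ℂ) :=
    { toFun := fun w j => if (j : ℕ) = 0 then w j else L w j
      map_add' := fun v w => by
        funext j
        by_cases hj : (j : ℕ) = 0 <;> simp [hj]
      map_smul' := fun c w => by
        funext j
        by_cases hj : (j : ℕ) = 0 <;> simp [hj] }
  have hP : ∀ w : Fin n → ℂ, (∀ i : Fin n, (i : ℕ) = 0 → w i = 0) → P w = w := by
    intro w hw
    funext j
    change (if (j : ℕ) = 0 then 0 else w j) = w j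
    split_ifs with h
    · exact (hw j h).symm
    · rfl
  have hinj : Function.Injective F := by
    rw [injective_iff_map_eq_zero]
    intro w hw
    have h1 : ∀ j : Fin n, (if (j : ℕ) = 0 then w j else L w j) = 0 := fun j => congrFun hw j
    have h0 : ∀ i : Fin n, (i : ℕ) = 0 → w i = 0 := by
      intro i hi
      simpa [hi] using h1 i
    have h2 : ∀ i : Fin n, (i : ℕ) ≠ 0 → (T *ᵥ (Tᴴ *ᵥ w)) i = 0 := by
      intro i hi
      have := h1 i
      rw [if_neg hi] at this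
      have h3 : L w = T *ᵥ (Tᴴ *ᵥ (P w)) := rfl
      rw [h3, hP w h0] at this
      exact this
    apply hT w h0
    apply nv_eq_zero.1
    have h4 : star (Tᴴ *ᵥ w) ⬝ᵥ (Tᴴ *ᵥ w) = 0 := by
      rw [Matrix.star_mulVec, Matrix.conjTranspose_conjTranspose, ← Matrix.dotProduct_mulVec]
      unfold dotProduct
      refine Finset.sum_eq_zero fun i _ => ?_
      by_cases hi : (i : ℕ) = 0
      · rw [Pi.star_apply, h0 i hi, star_zero, zero_mul]
      · rw [h2 i hi, mul_zero]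
    rw [star_dot_self] at h4
    have h5 : nv (Tᴴ *ᵥ w) ^ 2 = 0 := by exact_mod_cast h4
    exact pow_eq_zero_iff two_ne_zero |>.1 h5
  have hsurj : Function.Surjective F := LinearMap.injective_iff_surjective.1 hinj
  obtain ⟨w, hw⟩ := hsurj (fun j => if (j : ℕ) = 0 then 0 else r j)
  have h1 : ∀ j : Fin n, (if (j : ℕ) = 0 then w j else L w j) = if (j : ℕ) = 0 then 0 else r j :=
    fun j => congrFun hw j
  have h0 : ∀ i : Fin n, (i : ℕ) = 0 → w i = 0 := by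
    intro i hi
    simpa [hi] using h1 i
  refine ⟨w, h0, fun i hi => ?_⟩
  have := h1 i
  rw [if_neg hi, if_neg hi] at this
  have h3 : L w = T *ᵥ (Tᴴ *ᵥ (P w)) := rfl
  rw [h3, hP w h0] at this
  exact this

theorem solv {X : Matrix (Fin n) (Fin n) ℂ} {s : ℝ} (hs : 0 < s) (hs1 : s ≤ 1) (hop : OpLe X 3)
    (hr : RowLB X s) {z : ℂ} (hz : ‖z‖ ≤ 3) {u : Fin n → ℂ} (hu : u ≠ 0)
    (hl : u ᵥ* (z • (1 : Matrix (Fin n) (Fin n) ℂ) - X) = 0) {r : Fin n → ℂ} (hur : u ⬝ᵥ r = 0) :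
    ∃ y : Fin n → ℂ, (z • (1 : Matrix (Fin n) (Fin n) ℂ) - X) *ᵥ y = r ∧ nv y ≤ nv r / s := by
  set T := z • (1 : Matrix (Fin n) (Fin n) ℂ) - X with hT
  have hrow : ∀ x : Fin n → ℂ, (∀ i : Fin n, (i : ℕ) = 0 → x i = 0) → s * nv x ≤ nv (x ᵥ* T) :=
    hr z (by linarith)
  have hcol : ∀ w : Fin n → ℂ, (∀ i : Fin n, (i : ℕ) = 0 → w i = 0) →
      s * nv w ≤ nv (Tᴴ *ᵥ w) := by
    intro w hw
    have h1 := hrow (star w) (fun i hi => by rw [Pi.star_apply, hw i hi, star_zero])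
    have h2 : star w ᵥ* T = star (Tᴴ *ᵥ w) := by
      rw [Matrix.star_mulVec, Matrix.conjTranspose_conjTranspose]
    rw [h2, nv_star, nv_star] at h1
    exact h1
  obtain ⟨w, hw0, hw⟩ := SOLV_surj T (fun w hw h => by
    have h1 := hcol w hw
    rw [h, nv_zero] at h1
    have h2 : nv w = 0 := by nlinarith [nv_nonneg w]
    exact nv_eq_zero.1 h2) r
  have hTy : T *ᵥ (Tᴴ *ᵥ w) = r := by
    funext i
    by_cases hi : (i : ℕ) = 0
    · have hui : u i ≠ 0 := by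
        intro h0
        have h1 := hrow u (fun j hj => by
          have : j = i := Fin.ext (by omega)
          rw [this]; exact h0)
        rw [hl, nv_zero] at h1
        have h2 : nv u = 0 := by nlinarith [nv_nonneg u]
        exact hu (nv_eq_zero.1 h2)
      have h1 : u ⬝ᵥ (T *ᵥ (Tᴴ *ᵥ w) - r) = 0 := by
        rw [dotProduct_sub, Matrix.dotProduct_mulVec, hl, zero_dotProduct, hur, sub_zero]
      have h2 : u ⬝ᵥ (T *ᵥ (Tᴴ *ᵥ w) - r) = u i * ((T *ᵥ (Tᴴ *ᵥ w)) i - r i) := by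
        unfold dotProduct
        rw [Finset.sum_eq_single i]
        · rfl
        · intro j _ hj
          have : (j : ℕ) ≠ 0 := fun h => hj (Fin.ext (by omega))
          rw [Pi.sub_apply, hw j this, sub_self, mul_zero]
        · intro h
          exact absurd (Finset.mem_univ i) h
      rw [h2] at h1
      exact sub_eq_zero.1 ((mul_eq_zero.1 h1).resolve_left hui)
    · exact hw i hi
  refine ⟨Tᴴ *ᵥ w, hTy, ?_⟩
  have h1 : star (Tᴴ *ᵥ w) ⬝ᵥ (Tᴴ *ᵥ w) = star w ⬝ᵥ r := by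
    rw [Matrix.star_mulVec, Matrix.conjTranspose_conjTranspose, ← Matrix.dotProduct_mulVec, hTy]
  rw [star_dot_self] at h1
  have h2 : nv (Tᴴ *ᵥ w) ^ 2 ≤ nv w * nv r := by
    have h3 := norm_dotProduct_le (star w) r
    rw [← h1, nv_star, Complex.norm_real, Real.norm_eq_abs, abs_of_nonneg (by positivity)] at h3
    exact h3
  have h4 := hcol w hw0
  rw [le_div_iff₀ hs]
  by_cases h5 : nv (Tᴴ *ᵥ w) = 0
  · rw [h5, zero_mul]; exact nv_nonneg r
  · have h6 : 0 < nv (Tᴴ *ᵥ w) := lt_of_le_of_ne (nv_nonneg _) (Ne.symm h5)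
    have h7 : nv (Tᴴ *ᵥ w) * (nv (Tᴴ *ᵥ w) * s) ≤ nv (Tᴴ *ᵥ w) * nv r := by
      have h8 : s * (nv w * nv r) ≤ nv (Tᴴ *ᵥ w) * nv r := by
        rw [← mul_assoc]
        exact mul_le_mul_of_nonneg_right h4 (nv_nonneg r)
      nlinarith
    exact le_of_mul_le_mul_left h7 h6

end H6LP

end S_SOLV

section S_EIGV

set_option autoImplicit false

open Complex Matrix

namespace H6LP

variable {n : ℕ}

/-- nearest grid point of a real number -/
theorem EIGV_round {h x : ℝ} (hh : 0 < h) : |h * (round (x / h) : ℤ) - x| ≤ h / 2 := by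
  have h1 := abs_sub_round (x / h)
  have h2 : h * (round (x / h) : ℤ) - x = -(h * (x / h - (round (x / h) : ℤ))) := by
    field_simp
    ring
  rw [h2, abs_neg, abs_mul, abs_of_pos hh]
  nlinarith

/-- nearest grid point of a complex number -/
theorem EIGV_grid {h : ℝ} (hh : 0 < h) (hh1 : h ≤ 1) {z : ℂ} (hz : ‖z‖ ≤ 3) :
    ∃ a b : ℤ, |h * a| ≤ 4 ∧ |h * b| ≤ 4 ∧ ‖grd h a b - z‖ ≤ h := by
  refine ⟨round (z.re / h), round (z.im / h), ?_, ?_, ?_⟩
  · have h1 := EIGV_round (x := z.re) hh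
    have h2 : |z.re| ≤ 3 := (Complex.abs_re_le_norm z).trans hz
    have h3 : |h * (round (z.re / h) : ℤ)| ≤ |h * (round (z.re / h) : ℤ) - z.re| + |z.re| := by
      have := abs_add_le (h * (round (z.re / h) : ℤ) - z.re) z.re
      simpa using this
    linarith
  · have h1 := EIGV_round (x := z.im) hh
    have h2 : |z.im| ≤ 3 := (Complex.abs_im_le_norm z).trans hz
    have h3 : |h * (round (z.im / h) : ℤ)| ≤ |h * (round (z.im / h) : ℤ) - z.im| + |z.im| := by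
      have := abs_add_le (h * (round (z.im / h) : ℤ) - z.im) z.im
      simpa using this
    linarith
  · have h1 := EIGV_round (x := z.re) hh
    have h2 := EIGV_round (x := z.im) hh
    have h3 := Complex.norm_le_abs_re_add_abs_im (grd h (round (z.re / h)) (round (z.im / h)) - z)
    have h4 : (grd h (round (z.re / h)) (round (z.im / h)) - z).re
        = h * (round (z.re / h) : ℤ) - z.re := by
      simp [grd]
    have h5 : (grd h (round (z.re / h)) (round (z.im / h)) - z).im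
        = h * (round (z.im / h) : ℤ) - z.im := by
      simp [grd]
    rw [h4, h5] at h3
    linarith

theorem EIGV_nv_star (u : Fin n → ℂ) : nv (star u) = nv u := by
  unfold nv
  simp

theorem EIGV_dot_star (u : Fin n → ℂ) (hu : nv u = 1) : u ⬝ᵥ star u = 1 := by
  have h1 := nv_sq u
  rw [hu] at h1
  have h2 : u ⬝ᵥ star u = ((∑ i, ‖u i‖ ^ 2 : ℝ) : ℂ) := by
    unfold dotProduct
    push_cast
    apply Finset.sum_congr rfl
    intro i _
    rw [Pi.star_apply]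
    simpa using Complex.mul_conj' (u i)
  rw [h2, ← h1]
  simp

theorem uv_ge {X : Matrix (Fin n) (Fin n) ℂ} {s w0 : ℝ} (hs : 0 < s) (hs1 : s ≤ 1) (hw : 0 < w0)
    (hw1 : w0 ≤ 1 / 10) (hop : OpLe X 3) (hr : RowLB X s) (hc : ColLB X (s * w0) (4 * s * w0 ^ 2))
    {z : ℂ} (hz : ‖z‖ ≤ 3) {u v : Fin n → ℂ} (hu : nv u = 1) (hv : nv v = 1)
    (hl : u ᵥ* (z • (1 : Matrix (Fin n) (Fin n) ℂ) - X) = 0)
    (hv' : (z • (1 : Matrix (Fin n) (Fin n) ℂ) - X) *ᵥ v = 0) : w0 ≤ ‖u ⬝ᵥ v‖ := by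
  by_contra hlt
  push Not at hlt
  have hu0 : u ≠ 0 := by
    rintro rfl
    rw [nv_zero] at hu
    norm_num at hu
  set α : ℂ := u ⬝ᵥ v with hα
  set r : Fin n → ℂ := v - α • star u with hrdef
  have hur : u ⬝ᵥ r = 0 := by
    rw [hrdef, dotProduct_sub, dotProduct_smul, EIGV_dot_star u hu, ← hα]
    simp
  have hnr : nv r ≤ 1 + w0 := by
    have h1 := nv_sub_le v (α • star u)
    rw [nv_smul, EIGV_nv_star, hu, hv] at h1
    rw [hrdef]
    linarith
  have hvr : nv (v - r) ≤ w0 := by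
    have : v - r = α • star u := by rw [hrdef]; abel
    rw [this, nv_smul, EIGV_nv_star, hu]
    linarith
  obtain ⟨y, hy, hny⟩ := solv hs hs1 hop hr hz hu0 hl hur
  have hsw : 0 < s * w0 := mul_pos hs hw
  have hsw1 : s * w0 ≤ 1 := by nlinarith
  obtain ⟨a, b, ha, hb, hd⟩ := EIGV_grid hsw hsw1 hz
  set z' : ℂ := grd (s * w0) a b with hz'
  set d : ℝ := ‖z' - z‖ with hddef
  have hd0 : 0 ≤ d := norm_nonneg _
  set x : Fin n → ℂ := v - (z' - z) • y with hx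
  have hny' : nv y ≤ (1 + w0) / s := by
    refine hny.trans ?_
    gcongr
  have hdy : d * nv y ≤ w0 * (1 + w0) := by
    calc d * nv y ≤ (s * w0) * ((1 + w0) / s) :=
          mul_le_mul hd hny' (nv_nonneg y) hsw.le
      _ = w0 * (1 + w0) := by field_simp
  have hnx : 1 - w0 * (1 + w0) ≤ nv x := by
    have h1 := nv_sub_ge v ((z' - z) • y)
    rw [nv_smul, hv] at h1
    rw [hx]
    linarith
  have hkey : (z' • (1 : Matrix (Fin n) (Fin n) ℂ) - X) *ᵥ x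
      = (z' - z) • (v - r) - ((z' - z) * (z' - z)) • y := by
    have h1 : (z' • (1 : Matrix (Fin n) (Fin n) ℂ) - X)
        = (z' - z) • (1 : Matrix (Fin n) (Fin n) ℂ) + (z • (1 : Matrix (Fin n) (Fin n) ℂ) - X) := by
      rw [sub_smul]
      abel
    have h2 : (z • (1 : Matrix (Fin n) (Fin n) ℂ) - X) *ᵥ x = -((z' - z) • r) := by
      rw [hx, mulVec_sub, hv', mulVec_smul, hy, zero_sub]
    rw [h1, add_mulVec, h2, smul_mulVec, one_mulVec, hx]
    module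
  have hcol := hc a b ha hb x
  rw [← hz', hkey] at hcol
  have hle : nv ((z' - z) • (v - r) - ((z' - z) * (z' - z)) • y) ≤ d * w0 + d * (d * nv y) := by
    refine (nv_sub_le _ _).trans ?_
    rw [nv_smul, nv_smul, norm_mul, ← hddef]
    have := mul_le_mul_of_nonneg_left hvr hd0
    nlinarith
  have h3 : d * w0 + d * (d * nv y) ≤ (s * w0) * w0 + (s * w0) * (w0 * (1 + w0)) := by
    have h4 : d * w0 ≤ (s * w0) * w0 := mul_le_mul_of_nonneg_right hd hw.le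
    have h5 : d * (d * nv y) ≤ (s * w0) * (w0 * (1 + w0)) :=
      mul_le_mul hd hdy (mul_nonneg hd0 (nv_nonneg y)) hsw.le
    linarith
  have h6 : 4 * s * w0 ^ 2 * (1 - w0 * (1 + w0)) ≤ 4 * s * w0 ^ 2 * nv x :=
    mul_le_mul_of_nonneg_left hnx (by positivity)
  have h7 : 4 * s * w0 ^ 2 * (1 - w0 * (1 + w0)) ≤ (s * w0) * w0 + (s * w0) * (w0 * (1 + w0)) := by
    linarith
  have h8 : 4 * (1 - w0 * (1 + w0)) ≤ 1 + (1 + w0) := by
    have h9 : 0 < s * w0 ^ 2 := by positivity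
    have h10 : (s * w0 ^ 2) * (4 * (1 - w0 * (1 + w0))) ≤ (s * w0 ^ 2) * (1 + (1 + w0)) := by
      nlinarith
    exact le_of_mul_le_mul_left h10 h9
  nlinarith

theorem ker_one {X : Matrix (Fin n) (Fin n) ℂ} {s : ℝ} (hs : 0 < s) (hr : RowLB X s)
    {z : ℂ} (hz : ‖z‖ ≤ 4) {v p : Fin n → ℂ} (hv : v ≠ 0)
    (hv' : (z • (1 : Matrix (Fin n) (Fin n) ℂ) - X) *ᵥ v = 0)
    (hp : (z • (1 : Matrix (Fin n) (Fin n) ℂ) - X) *ᵥ p = 0) : ∃ c : ℂ, p = c • v := by
  set T : Matrix (Fin n) (Fin n) ℂ := z • (1 : Matrix (Fin n) (Fin n) ℂ) - X with hT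
  have hn : 0 < n := by
    rcases Nat.eq_zero_or_pos n with h | h
    · subst h
      exact absurd (Subsingleton.elim v 0) hv
    · exact h
  -- the left kernel has dimension at most one
  have hleft : Module.finrank ℂ (LinearMap.ker (Tᵀ).mulVecLin) ≤ 1 := by
    let φ : LinearMap.ker (Tᵀ).mulVecLin →ₗ[ℂ] ℂ :=
      (LinearMap.proj (⟨0, hn⟩ : Fin n)).comp (Submodule.subtype _)
    have hinj : Function.Injective φ := by
      rw [← LinearMap.ker_eq_bot, LinearMap.ker_eq_bot']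
      intro w hw
      have h0 : (w : Fin n → ℂ) ⟨0, hn⟩ = 0 := hw
      have h1 : (w : Fin n → ℂ) ᵥ* T = 0 := by
        have := w.2
        rw [LinearMap.mem_ker, mulVecLin_apply, mulVec_transpose] at this
        exact this
      have h2 := hr z hz (w : Fin n → ℂ) (fun i hi => by
        have : i = ⟨0, hn⟩ := Fin.ext hi
        rw [this]; exact h0)
      rw [← hT, h1, nv_zero] at h2
      have h3 : nv (w : Fin n → ℂ) = 0 := by
        have := nv_nonneg (w : Fin n → ℂ)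
        nlinarith
      exact Subtype.ext (nv_eq_zero.mp h3)
    have := LinearMap.finrank_le_finrank_of_injective hinj
    simpa using this
  have hright : Module.finrank ℂ (LinearMap.ker T.mulVecLin) ≤ 1 := by
    have h1 := LinearMap.finrank_range_add_finrank_ker T.mulVecLin
    have h2 := LinearMap.finrank_range_add_finrank_ker (Tᵀ).mulVecLin
    have h3 : Module.finrank ℂ (LinearMap.range T.mulVecLin)
        = Module.finrank ℂ (LinearMap.range (Tᵀ).mulVecLin) := by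
      have := Matrix.rank_transpose T
      unfold Matrix.rank at this
      exact this.symm
    omega
  obtain ⟨v0, hv0⟩ := finrank_le_one_iff.mp hright
  obtain ⟨c1, hc1⟩ := hv0 ⟨v, by rw [LinearMap.mem_ker, mulVecLin_apply]; exact hv'⟩
  obtain ⟨c2, hc2⟩ := hv0 ⟨p, by rw [LinearMap.mem_ker, mulVecLin_apply]; exact hp⟩
  have h1 : c1 • (v0 : Fin n → ℂ) = v := congrArg Subtype.val hc1
  have h2 : c2 • (v0 : Fin n → ℂ) = p := congrArg Subtype.val hc2
  have hc10 : c1 ≠ 0 := by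
    rintro rfl
    rw [zero_smul] at h1
    exact hv h1.symm
  refine ⟨c2 / c1, ?_⟩
  rw [← h1, ← h2, smul_smul, div_mul_cancel₀ _ hc10]

theorem EIGV_unit {v : Fin n → ℂ} (hv : v ≠ 0) : nv (((nv v)⁻¹ : ℂ) • v) = 1 := by
  have h1 := nv_pos hv
  rw [nv_smul, norm_inv, Complex.norm_real, Real.norm_eq_abs, abs_of_pos h1, inv_mul_cancel₀ h1.ne']

theorem eig_gap {X : Matrix (Fin n) (Fin n) ℂ} {s w0 : ℝ} (hs : 0 < s) (hs1 : s ≤ 1) (hw : 0 < w0)
    (hw1 : w0 ≤ 1 / 10) (hop : OpLe X 3) (hr : RowLB X s) (hc : ColLB X (s * w0) (4 * s * w0 ^ 2))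
    {z z' : ℂ} (hz : ‖z‖ ≤ 3) (hz' : ‖z'‖ ≤ 3) (hne : z ≠ z') {v v' : Fin n → ℂ} (hv0 : v ≠ 0) (hv0' : v' ≠ 0)
    (hv : (z • (1 : Matrix (Fin n) (Fin n) ℂ) - X) *ᵥ v = 0)
    (hv' : (z' • (1 : Matrix (Fin n) (Fin n) ℂ) - X) *ᵥ v' = 0) :
    s * w0 / 2 ≤ ‖z - z'‖ := by
  set T : Matrix (Fin n) (Fin n) ℂ := z • (1 : Matrix (Fin n) (Fin n) ℂ) - X with hT
  -- unit vectors
  set v1 : Fin n → ℂ := ((nv v)⁻¹ : ℂ) • v with hv1
  set v1' : Fin n → ℂ := ((nv v')⁻¹ : ℂ) • v' with hv1'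
  have hnv1 : nv v1 = 1 := EIGV_unit hv0
  have hnv1' : nv v1' = 1 := EIGV_unit hv0'
  have hTv1 : T *ᵥ v1 = 0 := by rw [hv1, mulVec_smul, hv, smul_zero]
  have hTv1' : (z' • (1 : Matrix (Fin n) (Fin n) ℂ) - X) *ᵥ v1' = 0 := by
    rw [hv1', mulVec_smul, hv', smul_zero]
  -- left null vector
  have hdet : T.det = 0 := Matrix.exists_mulVec_eq_zero_iff.mp ⟨v, hv0, hv⟩
  obtain ⟨u0, hu0, hu0l⟩ := Matrix.exists_vecMul_eq_zero_iff.mpr hdet
  set u : Fin n → ℂ := ((nv u0)⁻¹ : ℂ) • u0 with hu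
  have hnu : nv u = 1 := EIGV_unit hu0
  have hul : u ᵥ* T = 0 := by rw [hu, smul_vecMul, hu0l, smul_zero]
  have hune : u ≠ 0 := by
    intro h
    rw [h, nv_zero] at hnu
    norm_num at hnu
  have huv := uv_ge hs hs1 hw hw1 hop hr hc hz hnu hnv1 hul hTv1
  -- the difference
  have hTv' : T *ᵥ v1' = (z - z') • v1' := by
    have h1 : T = (z - z') • (1 : Matrix (Fin n) (Fin n) ℂ)
        + (z' • (1 : Matrix (Fin n) (Fin n) ℂ) - X) := by
      rw [hT, sub_smul]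
      abel
    rw [h1, add_mulVec, hTv1', smul_mulVec, one_mulVec, add_zero]
  have huv' : u ⬝ᵥ ((z - z') • v1') = 0 := by
    rw [← hTv', dotProduct_mulVec, hul, zero_dotProduct]
  obtain ⟨y, hy, hny⟩ := solv hs hs1 hop hr hz hune hul huv'
  have hker : T *ᵥ (v1' - y) = 0 := by
    rw [mulVec_sub, hTv', ← hT] at *
    rw [hy, sub_self]
  have hv1ne : v1 ≠ 0 := by
    intro h
    rw [h, nv_zero] at hnv1
    norm_num at hnv1
  obtain ⟨c, hcv⟩ := ker_one hs hr (by linarith) hv1ne hTv1 hker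
  have huv0 : u ⬝ᵥ v1' = 0 := by
    rw [dotProduct_smul, smul_eq_mul] at huv'
    rcases mul_eq_zero.mp huv' with h | h
    · exact absurd (sub_eq_zero.mp h) hne
    · exact h
  have h1 : c * (u ⬝ᵥ v1) = -(u ⬝ᵥ y) := by
    have h2 : u ⬝ᵥ (v1' - y) = u ⬝ᵥ (c • v1) := by rw [hcv]
    rw [dotProduct_sub, huv0, dotProduct_smul, smul_eq_mul, zero_sub] at h2
    exact h2.symm
  have h2 : ‖c‖ * w0 ≤ nv y := by
    calc ‖c‖ * w0 ≤ ‖c‖ * ‖u ⬝ᵥ v1‖ := mul_le_mul_of_nonneg_left huv (norm_nonneg _)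
      _ = ‖u ⬝ᵥ y‖ := by rw [← norm_mul, h1, norm_neg]
      _ ≤ nv u * nv y := norm_dotProduct_le u y
      _ = nv y := by rw [hnu, one_mul]
  have h3 : 1 ≤ nv y + ‖c‖ := by
    have h4 : v1' = y + c • v1 := by rw [← hcv]; abel
    calc 1 = nv v1' := hnv1'.symm
      _ = nv (y + c • v1) := by rw [← h4]
      _ ≤ nv y + nv (c • v1) := nv_add_le _ _
      _ = nv y + ‖c‖ := by rw [nv_smul, hnv1, mul_one]
  have h5 : nv y ≤ ‖z - z'‖ / s := by
    rw [nv_smul, hnv1', mul_one] at hny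
    exact hny
  have h6 : s * nv y ≤ ‖z - z'‖ := by
    rw [le_div_iff₀ hs] at h5
    linarith
  have h7 : w0 ≤ nv y * (1 + w0) := by nlinarith
  have h8 : w0 / 2 ≤ nv y := by
    have := nv_nonneg y
    nlinarith
  calc s * w0 / 2 = s * (w0 / 2) := by ring
    _ ≤ s * nv y := mul_le_mul_of_nonneg_left h8 hs.le
    _ ≤ ‖z - z'‖ := h6

end H6LP

end S_EIGV

section S_RMDET

set_option autoImplicit false

open Complex Matrix

namespace H6LP

theorem RMDET_unit {n : ℕ} {x : Fin n → ℂ} (hx : x ≠ 0) :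
    nv ((((nv x)⁻¹ : ℝ) : ℂ) • x) = 1 := by
  rw [nv_smul, Complex.norm_real, Real.norm_eq_abs, abs_of_nonneg (inv_nonneg.2 (nv_nonneg x))]
  exact inv_mul_cancel₀ (nv_pos hx).ne'

theorem RMDET_left {n : ℕ} {T : Matrix (Fin n) (Fin n) ℂ} {q : Fin n → ℂ} (hq : q ≠ 0)
    (h : T *ᵥ q = 0) : ∃ w : Fin n → ℂ, w ≠ 0 ∧ w ᵥ* T = 0 := by
  have hdet : T.det = 0 := Matrix.exists_mulVec_eq_zero_iff.1 ⟨q, hq, h⟩
  exact Matrix.exists_vecMul_eq_zero_iff.2 hdet

theorem RMDET_ev {n : ℕ} {X : Matrix (Fin n) (Fin n) ℂ} {z : ℂ} {q : Fin n → ℂ}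
    (h : (z • (1 : Matrix (Fin n) (Fin n) ℂ) - X) *ᵥ q = 0) : X *ᵥ q = z • q := by
  rw [Matrix.sub_mulVec, Matrix.smul_mulVec, Matrix.one_mulVec, sub_eq_zero] at h
  exact h.symm

theorem RMDET_ev' {n : ℕ} {X : Matrix (Fin n) (Fin n) ℂ} {z : ℂ} {q : Fin n → ℂ}
    (h : X *ᵥ q = z • q) : (z • (1 : Matrix (Fin n) (Fin n) ℂ) - X) *ᵥ q = 0 := by
  rw [Matrix.sub_mulVec, Matrix.smul_mulVec, Matrix.one_mulVec, sub_eq_zero, h]

theorem RMDET_sq {n : ℕ} {X : Matrix (Fin n) (Fin n) ℂ} {s w0 : ℝ} (hs : 0 < s) (hs1 : s ≤ 1)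
    (hw : 0 < w0) (hw1 : w0 ≤ 1 / 10) (hop : OpLe X 3) (hr : RowLB X s)
    (hc : ColLB X (s * w0) (4 * s * w0 ^ 2)) {z : ℂ} {p : Fin n → ℂ}
    (h : (z • (1 : Matrix (Fin n) (Fin n) ℂ) - X) *ᵥ
      ((z • (1 : Matrix (Fin n) (Fin n) ℂ) - X) *ᵥ p) = 0) :
    (z • (1 : Matrix (Fin n) (Fin n) ℂ) - X) *ᵥ p = 0 := by
  by_contra hq
  set q := (z • (1 : Matrix (Fin n) (Fin n) ℂ) - X) *ᵥ p with hqdef
  have hz : ‖z‖ ≤ 3 := hop.eigenvalue_le hq (RMDET_ev h)
  obtain ⟨w, hw0, hwT⟩ := RMDET_left hq h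
  have h1 := uv_ge hs hs1 hw hw1 hop hr hc hz (RMDET_unit hw0) (RMDET_unit hq)
    (by rw [Matrix.smul_vecMul, hwT, smul_zero]) (by rw [Matrix.mulVec_smul, h, smul_zero])
  rw [smul_dotProduct, dotProduct_smul, hqdef, Matrix.dotProduct_mulVec, hwT] at h1
  simp only [zero_dotProduct, smul_zero, norm_zero] at h1
  linarith

theorem RMDET_basis {n : ℕ} {X : Matrix (Fin n) (Fin n) ℂ} {s w0 : ℝ} (hs : 0 < s) (hs1 : s ≤ 1)
    (hw : 0 < w0) (hw1 : w0 ≤ 1 / 10) (hop : OpLe X 3) (hr : RowLB X s)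
    (hc : ColLB X (s * w0) (4 * s * w0 ^ 2)) :
    ∃ (lam : Fin n → ℂ) (v : Fin n → Fin n → ℂ), Function.Injective lam ∧ LinearIndependent ℂ v ∧
      ∀ i, nv (v i) = 1 ∧ X *ᵥ v i = lam i • v i := by
  classical
  set f : Module.End ℂ (Fin n → ℂ) := Matrix.mulVecLin X with hf
  have hfa : ∀ x, f x = X *ᵥ x := fun x => rfl
  have hsub : ∀ (μ : ℂ) (x : Fin n → ℂ), (f - μ • (1 : Module.End ℂ (Fin n → ℂ))) x
      = - ((μ • (1 : Matrix (Fin n) (Fin n) ℂ) - X) *ᵥ x) := by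
    intro μ x
    rw [LinearMap.sub_apply, LinearMap.smul_apply, Module.End.one_apply, hfa, Matrix.sub_mulVec,
      Matrix.smul_mulVec, Matrix.one_mulVec]
    abel
  have hsq : ∀ (μ : ℂ) (x : Fin n → ℂ), (f - μ • (1 : Module.End ℂ (Fin n → ℂ)))
      ((f - μ • (1 : Module.End ℂ (Fin n → ℂ))) x) = 0 →
      (f - μ • (1 : Module.End ℂ (Fin n → ℂ))) x = 0 := by
    intro μ x h
    rw [hsub, hsub, Matrix.mulVec_neg, neg_neg] at h
    rw [hsub, RMDET_sq hs hs1 hw hw1 hop hr hc h, neg_zero]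
  have hpow : ∀ (μ : ℂ) (k : ℕ) (x : Fin n → ℂ),
      ((f - μ • (1 : Module.End ℂ (Fin n → ℂ))) ^ k) x = 0 →
      (f - μ • (1 : Module.End ℂ (Fin n → ℂ))) x = 0 := by
    intro μ k
    induction k with
    | zero =>
      intro x h
      rw [pow_zero, Module.End.one_apply] at h
      rw [h, map_zero]
    | succ k ih =>
      intro x h
      rw [pow_succ, Module.End.mul_apply] at h
      exact hsq μ x (ih _ h)
  have hgen : ∀ μ : ℂ, f.maxGenEigenspace μ ≤ f.eigenspace μ := by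
    intro μ x hx
    rw [Module.End.mem_maxGenEigenspace] at hx
    obtain ⟨k, hk⟩ := hx
    have := hpow μ k x hk
    rw [Module.End.mem_eigenspace_iff]
    rw [LinearMap.sub_apply, LinearMap.smul_apply, Module.End.one_apply, sub_eq_zero] at this
    exact this
  have htop : (⨆ μ : ℂ, f.eigenspace μ) = ⊤ := by
    rw [eq_top_iff, ← Module.End.iSup_maxGenEigenspace_eq_top f]
    exact iSup_mono hgen
  -- unit eigenvectors
  have hex : ∀ μ : f.Eigenvalues, ∃ x : Fin n → ℂ, nv x = 1 ∧ f x = (μ : ℂ) • x := by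
    intro μ
    have hμ : f.HasEigenvalue (μ : ℂ) := μ.2
    obtain ⟨x, hx⟩ := hμ.exists_hasEigenvector
    refine ⟨(((nv x)⁻¹ : ℝ) : ℂ) • x, RMDET_unit hx.2, ?_⟩
    rw [map_smul, hx.apply_eq_smul, smul_comm]
  choose v hv1 hv2 using hex
  have hv0 : ∀ μ, v μ ≠ 0 := by
    intro μ h0
    have := hv1 μ
    rw [h0, nv_zero] at this
    exact zero_ne_one this
  have hli : LinearIndependent ℂ v :=
    Module.End.eigenvectors_linearIndependent' f (fun μ : f.Eigenvalues => (μ : ℂ))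
      Subtype.coe_injective v (fun μ => ⟨Module.End.mem_eigenspace_iff.2 (hv2 μ), hv0 μ⟩)
  have hspan : ⊤ ≤ Submodule.span ℂ (Set.range v) := by
    rw [← htop]
    refine iSup_le fun μ => ?_
    intro x hx
    by_cases hx0 : x = 0
    · rw [hx0]; exact Submodule.zero_mem _
    have hxe := Module.End.mem_eigenspace_iff.1 hx
    have hμ : f.HasEigenvalue μ := Module.End.hasEigenvalue_of_hasEigenvector ⟨hx, hx0⟩
    have hz : ‖μ‖ ≤ 3 := hop.eigenvalue_le hx0 hxe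
    obtain ⟨c, hc'⟩ := ker_one hs hr (hz.trans (by norm_num)) (hv0 ⟨μ, hμ⟩)
      (RMDET_ev' (hv2 ⟨μ, hμ⟩)) (RMDET_ev' hxe)
    rw [hc']
    exact Submodule.smul_mem _ _ (Submodule.subset_span ⟨_, rfl⟩)
  let b : Module.Basis f.Eigenvalues ℂ (Fin n → ℂ) := Module.Basis.mk hli hspan
  let e : Fin n ≃ f.Eigenvalues := (b.indexEquiv (Pi.basisFun ℂ (Fin n))).symm
  refine ⟨fun i => (e i : ℂ), fun i => v (e i), ?_, hli.comp e e.injective, fun i => ⟨hv1 _, hv2 _⟩⟩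
  exact Subtype.coe_injective.comp e.injective

theorem rmdet {n : ℕ} {X : Matrix (Fin n) (Fin n) ℂ} {s w0 : ℝ} (hs : 0 < s) (hs1 : s ≤ 1) (hw : 0 < w0)
    (hw1 : w0 ≤ 1 / 10) (hop : OpLe X 3) (hr : RowLB X s) (hc : ColLB X (s * w0) (4 * s * w0 ^ 2)) :
    ∃ (lam : Fin n → ℂ) (V W : Matrix (Fin n) (Fin n) ℂ), Diag X s w0 lam V W := by
  classical
  obtain ⟨lam, v, hinj, hli, hv⟩ := RMDET_basis hs hs1 hw hw1 hop hr hc
  have hv0 : ∀ i, v i ≠ 0 := by
    intro i h0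
    have := (hv i).1
    rw [h0, nv_zero] at this
    exact zero_ne_one this
  have hlam : ∀ i, ‖lam i‖ ≤ 3 := fun i => hop.eigenvalue_le (hv0 i) (hv i).2
  set V : Matrix (Fin n) (Fin n) ℂ := fun i j => v j i with hV
  have hVu : IsUnit V := by
    rw [← Matrix.linearIndependent_cols_iff_isUnit]
    exact hli
  have hVd : IsUnit V.det := (Matrix.isUnit_iff_isUnit_det V).1 hVu
  set W := V⁻¹ with hW
  have hvw : V * W = 1 := Matrix.mul_nonsing_inv V hVd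
  have hwv : W * V = 1 := Matrix.nonsing_inv_mul V hVd
  have hXV : X * V = V * Matrix.diagonal lam := by
    ext i j
    rw [Matrix.mul_diagonal]
    have := congrFun (hv j).2 i
    rw [Pi.smul_apply, smul_eq_mul, mul_comm] at this
    exact this
  have hX : X = V * Matrix.diagonal lam * W := by
    rw [← hXV, Matrix.mul_assoc, hvw, Matrix.mul_one]
  have hWX : W * X = Matrix.diagonal lam * W := by
    rw [hX, Matrix.mul_assoc, ← Matrix.mul_assoc W, hwv, Matrix.one_mul]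
  have hrow : ∀ i, (W i) ᵥ* X = lam i • W i := by
    intro i
    funext j
    have := congrFun (congrFun hWX i) j
    rw [Matrix.diagonal_mul] at this
    exact this
  have hrow' : ∀ i, (W i) ᵥ* (lam i • (1 : Matrix (Fin n) (Fin n) ℂ) - X) = 0 := by
    intro i
    rw [Matrix.vecMul_sub, hrow, Matrix.vecMul_smul, Matrix.vecMul_one, sub_self]
  have hdot : ∀ i, W i ⬝ᵥ v i = 1 := by
    intro i
    have := congrFun (congrFun hwv i) i
    rw [Matrix.one_apply_eq] at this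
    exact this
  have hW0 : ∀ i, W i ≠ 0 := by
    intro i h0
    have := hdot i
    rw [h0, zero_dotProduct] at this
    exact zero_ne_one this
  have hWpos : ∀ i, 0 < nv (W i) := fun i => nv_pos (hW0 i)
  have hWge : ∀ i, 1 ≤ nv (W i) := by
    intro i
    have := norm_dotProduct_le (W i) (v i)
    rw [hdot, (hv i).1, norm_one, mul_one] at this
    exact this
  refine ⟨lam, V, W, hX, hvw, hwv, hlam, fun j => (hv j).1, ?_, ?_, ?_⟩
  · intro i
    have h1 := uv_ge hs hs1 hw hw1 hop hr hc (hlam i) (RMDET_unit (hW0 i)) (hv i).1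
      (by rw [Matrix.smul_vecMul, hrow', smul_zero]) (RMDET_ev' (hv i).2)
    rw [smul_dotProduct, hdot, smul_eq_mul, mul_one, Complex.norm_real, Real.norm_eq_abs,
      abs_of_nonneg (inv_nonneg.2 (nv_nonneg _))] at h1
    rw [le_div_iff₀ hw]
    have h2 := mul_le_mul_of_nonneg_left h1 (nv_nonneg (W i))
    rw [mul_inv_cancel₀ (hWpos i).ne'] at h2
    exact h2
  · intro i j hj
    have h1 := left_first hs hs1 hop hr (hlam i) (RMDET_unit (hW0 i))
      (by rw [Matrix.smul_vecMul, hrow', smul_zero]) j hj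
    rw [Pi.smul_apply, smul_eq_mul, norm_mul, Complex.norm_real, Real.norm_eq_abs,
      abs_of_nonneg (inv_nonneg.2 (nv_nonneg _))] at h1
    refine h1.trans ?_
    have h3 : (nv (W i))⁻¹ ≤ 1 := inv_le_one_of_one_le₀ (hWge i)
    calc (nv (W i))⁻¹ * ‖W i j‖ ≤ 1 * ‖W i j‖ := mul_le_mul_of_nonneg_right h3 (norm_nonneg _)
      _ = ‖W i j‖ := one_mul _
  · intro i j hij
    exact eig_gap hs hs1 hw hw1 hop hr hc (hlam i) (hlam j) (fun h => hij (hinj h)) (hv0 i) (hv0 j)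
      (RMDET_ev' (hv i).2) (RMDET_ev' (hv j).2)

end H6LP

end S_RMDET

section S_DIAG

set_option autoImplicit false

open Complex Matrix

namespace H6LP

theorem DIAG_eq {n : ℕ} {X : Matrix (Fin n) (Fin n) ℂ} {s w0 : ℝ} {lam : Fin n → ℂ}
    {V W : Matrix (Fin n) (Fin n) ℂ} (h : Diag X s w0 lam V W) (z : ℂ) :
    z • (1 : Matrix (Fin n) (Fin n) ℂ) - X = V * Matrix.diagonal (fun i => z - lam i) * W := by
  have h1 : Matrix.diagonal (fun i => z - lam i) =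
      z • (1 : Matrix (Fin n) (Fin n) ℂ) - Matrix.diagonal lam := by
    ext i j
    rw [Matrix.sub_apply, Matrix.smul_apply, Matrix.diagonal_apply, Matrix.diagonal_apply,
      Matrix.one_apply]
    by_cases hij : i = j
    · simp [hij]
    · simp [hij]
  rw [h1, Matrix.mul_sub, Matrix.sub_mul, ← h.eq, Matrix.mul_smul, Matrix.mul_one,
    Matrix.smul_mul, h.vw]

/-- the determinant of `z - X` -/
theorem Diag.det {n : ℕ} {X : Matrix (Fin n) (Fin n) ℂ} {s w0 : ℝ} {lam : Fin n → ℂ}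
    {V W : Matrix (Fin n) (Fin n) ℂ} (h : Diag X s w0 lam V W) (z : ℂ) :
    (z • (1 : Matrix (Fin n) (Fin n) ℂ) - X).det = ∏ i, (z - lam i) := by
  rw [DIAG_eq h, Matrix.det_mul, Matrix.det_mul, Matrix.det_diagonal]
  have h1 : V.det * W.det = 1 := by rw [← Matrix.det_mul, h.vw, Matrix.det_one]
  calc V.det * (∏ i, (z - lam i)) * W.det = (V.det * W.det) * ∏ i, (z - lam i) := by ring
    _ = ∏ i, (z - lam i) := by rw [h1, one_mul]

/-- reindexing -/
theorem Diag.perm {n : ℕ} {X : Matrix (Fin n) (Fin n) ℂ} {s w0 : ℝ} {lam : Fin n → ℂ}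
    {V W : Matrix (Fin n) (Fin n) ℂ} (h : Diag X s w0 lam V W) (σ : Equiv.Perm (Fin n)) :
    Diag X s w0 (fun i => lam (σ i)) (fun i j => V i (σ j)) (fun i j => W (σ i) j) := by
  have hVW : ∀ D : Fin n → ℂ, (Matrix.of fun i j => V i (σ j)) * Matrix.diagonal (fun i => D (σ i)) *
      (Matrix.of fun i j => W (σ i) j) = V * Matrix.diagonal D * W := by
    intro D
    ext i j
    rw [Matrix.mul_apply, Matrix.mul_apply]
    simp only [Matrix.mul_diagonal, Matrix.of_apply]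
    exact Equiv.sum_comp σ (fun x => V i x * D x * W x j)
  refine ⟨?_, ?_, ?_, fun i => h.lam_le _, fun j => h.col _, fun i => h.row _,
    fun i j hj => h.first _ j hj, fun i j hij => h.gap _ _ (fun hc => hij (σ.injective hc))⟩
  · exact h.eq.trans (hVW lam).symm
  · ext i j
    have h1 : (V * W) i j = (1 : Matrix (Fin n) (Fin n) ℂ) i j := by rw [h.vw]
    rw [← h1]
    exact Equiv.sum_comp σ (fun x => V i x * W x j)
  · ext i j
    have h1 : (W * V) (σ i) (σ j) = (1 : Matrix (Fin n) (Fin n) ℂ) (σ i) (σ j) := by rw [h.wv]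
    have h2 : (1 : Matrix (Fin n) (Fin n) ℂ) (σ i) (σ j) = (1 : Matrix (Fin n) (Fin n) ℂ) i j := by
      rw [Matrix.one_apply, Matrix.one_apply]
      by_cases hij : i = j
      · simp [hij]
      · rw [if_neg hij, if_neg (fun hc => hij (σ.injective hc))]
    rw [← h2, ← h1]
    rfl

/-- the resolvent bound -/
theorem Diag.colAt {n : ℕ} (hn : 1 ≤ n) {X : Matrix (Fin n) (Fin n) ℂ} {s w0 : ℝ} (hw : 0 < w0)
    {lam : Fin n → ℂ} {V W : Matrix (Fin n) (Fin n) ℂ} (h : Diag X s w0 lam V W) {z : ℂ} {d : ℝ}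
    (hd : 0 ≤ d) (hz : ∀ i, d ≤ ‖z - lam i‖) : ColAt X z (w0 / n * d) := by
  intro x
  have hn0 : (0 : ℝ) < n := by exact_mod_cast (by omega : 0 < n)
  set y : Fin n → ℂ := W *ᵥ x with hy
  set r : Fin n → ℂ := (z • (1 : Matrix (Fin n) (Fin n) ℂ) - X) *ᵥ x with hr
  have hV : fro V ≤ Real.sqrt n * 1 := fro_le_sqrt_cols zero_le_one (fun j => (h.col j).le)
  have hW : fro W ≤ Real.sqrt n * (1 / w0) := fro_le_sqrt_rows (by positivity) h.row
  have hx : x = V *ᵥ y := by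
    rw [hy, Matrix.mulVec_mulVec, h.vw, Matrix.one_mulVec]
  have hWr : W *ᵥ r = fun i => (z - lam i) * y i := by
    rw [hr, DIAG_eq h, Matrix.mulVec_mulVec, ← Matrix.mul_assoc, ← Matrix.mul_assoc, h.wv,
      Matrix.one_mul, ← Matrix.mulVec_mulVec, ← hy]
    funext i
    rw [Matrix.mulVec_diagonal]
  have h1 : nv x ≤ Real.sqrt n * nv y := by
    rw [hx]
    refine (nv_mulVec_le V y).trans ?_
    have := mul_le_mul_of_nonneg_right hV (nv_nonneg y)
    linarith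
  have h2 : d * nv y ≤ Real.sqrt n * (1 / w0) * nv r := by
    have h3 : d * nv y ≤ nv (W *ᵥ r) := by
      rw [hWr]
      have h4 : nv ((d : ℂ) • y) = d * nv y := by
        rw [nv_smul, Complex.norm_real, Real.norm_eq_abs, abs_of_nonneg hd]
      rw [← h4]
      apply nv_mono
      intro i
      rw [Pi.smul_apply, smul_eq_mul, norm_mul, norm_mul, Complex.norm_real, Real.norm_eq_abs,
        abs_of_nonneg hd]
      exact mul_le_mul_of_nonneg_right (hz i) (norm_nonneg _)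
    refine h3.trans ((nv_mulVec_le W r).trans ?_)
    exact mul_le_mul_of_nonneg_right hW (nv_nonneg r)
  have hs : Real.sqrt n * Real.sqrt n = n := Real.mul_self_sqrt hn0.le
  have hs0 : 0 ≤ Real.sqrt n := Real.sqrt_nonneg _
  calc w0 / n * d * nv x ≤ w0 / n * d * (Real.sqrt n * nv y) :=
        mul_le_mul_of_nonneg_left h1 (by positivity)
    _ = w0 / n * Real.sqrt n * (d * nv y) := by ring
    _ ≤ w0 / n * Real.sqrt n * (Real.sqrt n * (1 / w0) * nv r) :=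
        mul_le_mul_of_nonneg_left h2 (by positivity)
    _ = (Real.sqrt n * Real.sqrt n) / n * (w0 / w0) * nv r := by ring
    _ = nv r := by rw [hs, div_self hn0.ne', div_self hw.ne']; ring

end H6LP

end S_DIAG

section S_INVIT

set_option autoImplicit false

open Complex Matrix

namespace H6LP

theorem INVIT_normalize {n : ℕ} {w r v : Fin n → ℂ} {c : ℂ} (hc : c ≠ 0) (hv : nv v = 1)
    (hw : w = c • v + r) (hw0 : 0 < nv w) :
    nv (((nv w)⁻¹ : ℂ) • w - (c / (‖c‖ : ℂ)) • v) ≤ 2 * nv r / ‖c‖ := by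
  have hcn : 0 < ‖c‖ := norm_pos_iff.2 hc
  have hcc : (‖c‖ : ℂ) ≠ 0 := by exact_mod_cast hcn.ne'
  have hww : (nv w : ℂ) ≠ 0 := by exact_mod_cast hw0.ne'
  have e : ((nv w)⁻¹ : ℂ) • w - (c / (‖c‖ : ℂ)) • v =
      ((‖c‖ : ℂ)⁻¹) • r + ((nv w : ℂ)⁻¹ - (‖c‖ : ℂ)⁻¹) • w := by
    have e1 : (‖c‖ : ℂ)⁻¹ • w = (c / (‖c‖ : ℂ)) • v + (‖c‖ : ℂ)⁻¹ • r := by
      conv_lhs => rw [hw]
      rw [smul_add, smul_smul, div_eq_mul_inv, mul_comm]
    rw [sub_smul, e1]
    abel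
  rw [e]
  refine le_trans (nv_add_le _ _) ?_
  rw [nv_smul, nv_smul]
  have h1 : ‖(‖c‖ : ℂ)⁻¹‖ = 1 / ‖c‖ := by
    rw [norm_inv, Complex.norm_real, norm_norm, one_div]
  have h2 : ‖(nv w : ℂ)⁻¹ - (‖c‖ : ℂ)⁻¹‖ * nv w = |‖c‖ - nv w| / ‖c‖ := by
    have e2 : (nv w : ℂ)⁻¹ - (‖c‖ : ℂ)⁻¹ = (((‖c‖ - nv w) / (nv w * ‖c‖) : ℝ) : ℂ) := by
      push_cast
      field_simp
    rw [e2, Complex.norm_real, Real.norm_eq_abs, abs_div, abs_mul, abs_of_pos hw0, abs_of_pos hcn]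
    field_simp
  have h3 : |‖c‖ - nv w| ≤ nv r := by
    have e3 : ‖c‖ = nv (c • v) := by rw [nv_smul, hv, mul_one]
    have e4 : nv r = nv (c • v - w) := by
      rw [hw, ← nv_neg]
      congr 1
      abel
    rw [e4, e3]
    have := abs_nv_sub_le (c • v) w
    exact this
  rw [h1, h2]
  have h4 : |‖c‖ - nv w| / ‖c‖ ≤ nv r / ‖c‖ := div_le_div_of_nonneg_right h3 hcn.le
  calc 1 / ‖c‖ * nv r + |‖c‖ - nv w| / ‖c‖ ≤ 1 / ‖c‖ * nv r + nv r / ‖c‖ := by linarith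
    _ = 2 * nv r / ‖c‖ := by ring

theorem invit {n : ℕ} (hn : 1 ≤ n) {X : Matrix (Fin n) (Fin n) ℂ} {s w0 : ℝ} (hs : 0 < s) (hs1 : s ≤ 1)
    (hw : 0 < w0) (hw1 : w0 ≤ 1 / 10) {lam : Fin n → ℂ} {V W : Matrix (Fin n) (Fin n) ℂ}
    (hD : Diag X s w0 lam V W) {i : Fin n} {Z : ℂ} {ρ ε : ℝ} (hρ : 0 < ρ)
    (h1 : ρ ≤ ‖lam i - Z‖) (h2 : ‖lam i - Z‖ ≤ 9 * ρ) (hρg : 40 * ρ ≤ s * w0)
    (hε0 : 0 ≤ ε) (hε : 100 * ε * n ≤ s * w0 ^ 2 * ρ) {w f : Fin n → ℂ}
    (hw' : (X - Z • (1 : Matrix (Fin n) (Fin n) ℂ)) *ᵥ w = e1 n + f)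
    (hf : nv f ≤ ε * (1 + nv w)) :
    ∃ t : ℂ, ‖t‖ = 1 ∧ nv (((nv w)⁻¹ : ℂ) • w - t • (fun a => V a i)) ≤ 2200 * n * ρ / (w0 ^ 2 * s ^ 2) := by
  have hnR : (1 : ℝ) ≤ n := by exact_mod_cast hn
  have hsw : 0 < s * w0 := mul_pos hs hw
  set c : Fin n → ℂ := W *ᵥ w with hc
  set F : ℝ := nv f with hF
  have hF0 : 0 ≤ F := nv_nonneg f
  have hVc : V *ᵥ c = w := by
    rw [hc, Matrix.mulVec_mulVec, hD.vw, Matrix.one_mulVec]
  -- the coefficients
  have hWX : W * (X - Z • (1 : Matrix (Fin n) (Fin n) ℂ)) =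
      Matrix.diagonal (fun j => lam j - Z) * W := by
    have e1 : W * X = Matrix.diagonal lam * W := by
      calc W * X = W * (V * Matrix.diagonal lam * W) := by rw [← hD.eq]
        _ = (W * V) * (Matrix.diagonal lam * W) := by simp only [Matrix.mul_assoc]
        _ = Matrix.diagonal lam * W := by rw [hD.wv, Matrix.one_mul]
    have e2 : Matrix.diagonal (fun j => lam j - Z) =
        Matrix.diagonal lam - Z • (1 : Matrix (Fin n) (Fin n) ℂ) := by
      rw [Matrix.smul_one_eq_diagonal, Matrix.diagonal_sub]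
    rw [Matrix.mul_sub, e1, e2, Matrix.sub_mul, Matrix.mul_smul, Matrix.smul_mul, Matrix.mul_one,
      Matrix.one_mul]
  have hcoef : ∀ j, (lam j - Z) * c j = (W *ᵥ (e1 n + f)) j := by
    intro j
    rw [← hw', Matrix.mulVec_mulVec, hWX, ← Matrix.mulVec_mulVec, Matrix.mulVec_diagonal]
  have hWrow : ∀ (x : Fin n → ℂ) (j : Fin n), ‖(W *ᵥ x) j‖ ≤ 1 / w0 * nv x := by
    intro x j
    have := norm_dotProduct_le (W j) x
    refine le_trans this ?_
    exact mul_le_mul_of_nonneg_right (hD.row j) (nv_nonneg x)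
  have hb : ∀ j, ‖lam j - Z‖ * ‖c j‖ ≤ 1 / w0 * (1 + F) := by
    intro j
    rw [← norm_mul, hcoef j]
    refine le_trans (hWrow _ j) ?_
    refine mul_le_mul_of_nonneg_left ?_ (by positivity)
    have := nv_add_le (e1 n) f
    rw [nv_e1 hn] at this
    exact this
  -- distances
  have hdist : ∀ j, j ≠ i → 11 / 40 * (s * w0) ≤ ‖lam j - Z‖ := by
    intro j hj
    have hg := hD.gap i j (Ne.symm hj)
    have h3 : ‖lam i - lam j‖ ≤ ‖lam i - Z‖ + ‖lam j - Z‖ := by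
      have e : lam i - lam j = (lam i - Z) - (lam j - Z) := by ring
      rw [e]
      exact norm_sub_le _ _
    nlinarith
  have hdρ : ∀ j, ρ ≤ ‖lam j - Z‖ := by
    intro j
    by_cases hj : j = i
    · rw [hj]; exact h1
    · have := hdist j hj
      linarith
  have hcj : ∀ j, ‖c j‖ ≤ 1 / w0 * (1 + F) / ρ := by
    intro j
    rw [le_div_iff₀ hρ]
    calc ‖c j‖ * ρ ≤ ‖c j‖ * ‖lam j - Z‖ := mul_le_mul_of_nonneg_left (hdρ j) (norm_nonneg _)
      _ = ‖lam j - Z‖ * ‖c j‖ := mul_comm _ _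
      _ ≤ _ := hb j
  have hcj' : ∀ j, j ≠ i → ‖c j‖ ≤ 1 / w0 * (1 + F) / (11 / 40 * (s * w0)) := by
    intro j hj
    rw [le_div_iff₀ (by positivity)]
    calc ‖c j‖ * (11 / 40 * (s * w0)) ≤ ‖c j‖ * ‖lam j - Z‖ :=
          mul_le_mul_of_nonneg_left (hdist j hj) (norm_nonneg _)
      _ = ‖lam j - Z‖ * ‖c j‖ := mul_comm _ _
      _ ≤ _ := hb j
  have hsumV : ∀ S : Finset (Fin n), nv (∑ j ∈ S, c j • (fun a => V a j)) ≤ ∑ j ∈ S, ‖c j‖ := by
    intro S
    refine le_trans (nv_sum_le S _) ?_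
    refine Finset.sum_le_sum fun j _ => ?_
    rw [nv_smul, hD.col j, mul_one]
  have hwsum : w = ∑ j, c j • (fun a => V a j) := by
    rw [← hVc]
    funext a
    rw [Finset.sum_apply]
    simp only [Matrix.mulVec, dotProduct, Pi.smul_apply, smul_eq_mul]
    exact Finset.sum_congr rfl fun j _ => mul_comm _ _
  have hnw : nv w ≤ n * (1 / w0 * (1 + F) / ρ) := by
    rw [hwsum]
    refine le_trans (hsumV Finset.univ) ?_
    refine le_trans (Finset.sum_le_sum fun j _ => hcj j) ?_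
    rw [Finset.sum_const, Finset.card_univ, Fintype.card_fin, nsmul_eq_mul]
  -- bound for F
  set τ : ℝ := ε * n / (w0 * ρ) with hτ
  have hτ0 : 0 ≤ τ := by positivity
  have hτ1 : τ ≤ s * w0 / 100 := by
    rw [hτ, div_le_div_iff₀ (by positivity) (by norm_num)]
    nlinarith
  have hsw1 : s * w0 ≤ 1 / 10 := by nlinarith
  have hρ1 : w0 * ρ ≤ 1 := by nlinarith
  have hετ : ε ≤ τ := by
    rw [hτ, le_div_iff₀ (by positivity)]
    calc ε * (w0 * ρ) ≤ ε * 1 := mul_le_mul_of_nonneg_left hρ1 hε0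
      _ ≤ ε * n := mul_le_mul_of_nonneg_left hnR hε0
  have hFF : F ≤ 2 * τ + τ * F := by
    have h3 : ε * nv w ≤ τ * (1 + F) := by
      calc ε * nv w ≤ ε * (n * (1 / w0 * (1 + F) / ρ)) := mul_le_mul_of_nonneg_left hnw hε0
        _ = τ * (1 + F) := by rw [hτ]; field_simp
    nlinarith [hf]
  have hFb : F ≤ 201 / 10000 * (s * w0) := by
    have h3 : τ ≤ 1 / 1000 := by linarith
    have h4 : τ * F ≤ 1 / 1000 * F := mul_le_mul_of_nonneg_right h3 hF0
    linarith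
  -- lower bound for the main coefficient
  have hbi : 12 / 100 * s ≤ ‖lam i - Z‖ * ‖c i‖ := by
    rw [← norm_mul, hcoef i]
    have e : (W *ᵥ (e1 n + f)) i = W i ⟨0, hn⟩ + (W *ᵥ f) i := by
      rw [Matrix.mulVec_add, Pi.add_apply, NB_e1_eq hn, Matrix.mulVec_single_one]
      rfl
    rw [e]
    have h3 := hD.first i ⟨0, hn⟩ rfl
    have h4 : ‖(W *ᵥ f) i‖ ≤ 201 / 10000 * s := by
      refine le_trans (hWrow f i) ?_
      calc 1 / w0 * nv f ≤ 1 / w0 * (201 / 10000 * (s * w0)) :=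
            mul_le_mul_of_nonneg_left hFb (by positivity)
        _ = 201 / 10000 * s := by field_simp
    have h5 : ‖W i ⟨0, hn⟩‖ - ‖(W *ᵥ f) i‖ ≤ ‖W i ⟨0, hn⟩ + (W *ᵥ f) i‖ := by
      have := norm_sub_le (W i ⟨0, hn⟩ + (W *ᵥ f) i) ((W *ᵥ f) i)
      rw [add_sub_cancel_right] at this
      linarith
    linarith
  have hci : 12 / 900 * s / ρ ≤ ‖c i‖ := by
    rw [div_le_iff₀ hρ]
    have h3 : ‖lam i - Z‖ * ‖c i‖ ≤ 9 * ρ * ‖c i‖ := mul_le_mul_of_nonneg_right h2 (norm_nonneg _)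
    linarith
  have hcipos : 0 < ‖c i‖ := lt_of_lt_of_le (by positivity) hci
  have hci0 : c i ≠ 0 := norm_pos_iff.1 hcipos
  have hwpos : 0 < nv w := by
    apply nv_pos
    intro h0
    apply hci0
    rw [hc, h0, Matrix.mulVec_zero]
    rfl
  -- the rest
  set r : Fin n → ℂ := ∑ j ∈ Finset.univ.erase i, c j • (fun a => V a j) with hr
  have hwr : w = c i • (fun a => V a i) + r := by
    rw [hr, Finset.add_sum_erase Finset.univ (fun j => c j • (fun a => V a j)) (Finset.mem_univ i)]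
    exact hwsum
  have hrb : nv r ≤ n * (1 / w0 * (1 + F) / (11 / 40 * (s * w0))) := by
    refine le_trans (hsumV _) ?_
    refine le_trans (Finset.sum_le_sum fun j hj => hcj' j (Finset.ne_of_mem_erase hj)) ?_
    rw [Finset.sum_const, nsmul_eq_mul]
    refine mul_le_mul_of_nonneg_right ?_ (by positivity)
    have : (Finset.univ.erase i).card ≤ n := by
      refine le_trans (Finset.card_le_card (Finset.erase_subset _ _)) ?_
      simp
    exact_mod_cast this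
  have hrb2 : nv r ≤ 4 * n / (s * w0 ^ 2) := by
    refine le_trans hrb ?_
    have e : (n : ℝ) * (1 / w0 * (1 + F) / (11 / 40 * (s * w0))) =
        (40 / 11 * (1 + F)) * n / (s * w0 ^ 2) := by field_simp
    rw [e]
    refine div_le_div_of_nonneg_right ?_ (by positivity)
    refine mul_le_mul_of_nonneg_right ?_ (by positivity)
    linarith
  refine ⟨c i / (‖c i‖ : ℂ), ?_, ?_⟩
  · rw [norm_div, Complex.norm_real, norm_norm, div_self hcipos.ne']
  · refine le_trans (INVIT_normalize hci0 (hD.col i) hwr hwpos) ?_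
    have h3 : 2 * nv r / ‖c i‖ ≤ 2 * (4 * n / (s * w0 ^ 2)) / (12 / 900 * s / ρ) := by
      apply div_le_div₀ (by positivity) (by linarith) (by positivity) hci
    refine le_trans h3 ?_
    have e : 2 * (4 * (n : ℝ) / (s * w0 ^ 2)) / (12 / 900 * s / ρ) = 600 * n * ρ / (w0 ^ 2 * s ^ 2) := by
      field_simp
      ring
    rw [e]
    refine div_le_div_of_nonneg_right ?_ (by positivity)
    have : (0 : ℝ) ≤ n * ρ := by positivity
    nlinarith

end H6LP

end S_INVIT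

section S_EIG

set_option autoImplicit false

open Complex Matrix

namespace H6LP

/-- the shift: casting -/
theorem EIG_shift (l : ℕ) (a b : ℤ) :
    ((((a : ℚ) + 5) / 2 ^ l : ℚ) : ℂ) + ((((b : ℚ)) / 2 ^ l : ℚ) : ℂ) * I =
      grd ((2 : ℝ)⁻¹ ^ l) a b + ((5 * (2 : ℝ)⁻¹ ^ l : ℝ) : ℂ) := by
  unfold grd
  push_cast
  simp only [div_eq_mul_inv, inv_pow]
  ring

/-- distances of the shift from the eigenvalue -/
theorem EIG_dist {u r : ℝ} {c lam Z : ℂ} (hu0 : 0 ≤ u) (hr : 0 < r) (hr1 : 100 * r ≤ 1)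
    (hur : 4 * u ≤ r) (hlam : ‖lam‖ ≤ 3)
    (hc : ‖lam - c‖ ≤ 3 * r) (hZ : Rel u (c + ((5 * r : ℝ) : ℂ)) Z) :
    r ≤ ‖lam - Z‖ ∧ ‖lam - Z‖ ≤ 9 * r := by
  have h5 : ‖((5 * r : ℝ) : ℂ)‖ = 5 * r := by
    rw [Complex.norm_real, Real.norm_of_nonneg (by positivity)]
  have hc1 : ‖c‖ ≤ 3 + 3 * r := by
    have h1 : c = lam - (lam - c) := by ring
    have h2 := norm_sub_le lam (lam - c)
    rw [← h1] at h2
    linarith
  have hc5 : ‖c + ((5 * r : ℝ) : ℂ)‖ ≤ 4 := by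
    have := norm_add_le c ((5 * r : ℝ) : ℂ)
    linarith
  have hZ1 : ‖Z - (c + ((5 * r : ℝ) : ℂ))‖ ≤ r := by
    unfold Rel at hZ
    have := mul_le_mul_of_nonneg_left hc5 hu0
    linarith
  have e1 : lam - Z = (lam - c) - ((5 * r : ℝ) : ℂ) - (Z - (c + ((5 * r : ℝ) : ℂ))) := by ring
  refine ⟨?_, ?_⟩
  · have e2 : ((5 * r : ℝ) : ℂ) = (lam - c) - (Z - (c + ((5 * r : ℝ) : ℂ))) - (lam - Z) := by ring
    have h1 := norm_sub_le ((lam - c) - (Z - (c + ((5 * r : ℝ) : ℂ)))) (lam - Z)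
    rw [← e2, h5] at h1
    have h2 := norm_sub_le (lam - c) (Z - (c + ((5 * r : ℝ) : ℂ)))
    linarith
  · have h1 := norm_sub_le ((lam - c) - ((5 * r : ℝ) : ℂ)) (Z - (c + ((5 * r : ℝ) : ℂ)))
    rw [← e1] at h1
    have h2 := norm_sub_le (lam - c) ((5 * r : ℝ) : ℂ)
    linarith

/-- the product with `Q'` -/
theorem EIG_mul {ad : Adv} {u : ℝ} (hu : ad.Le u) {n : ℕ} (hn : 1 ≤ n) (hnu : n * u ≤ 1 / 100)
    {env : Env} {q : RMat n n} {y : RVec n} {Q' : Matrix (Fin n) (Fin n) ℂ} {Y : Fin n → ℂ}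
    (hq : HasM env q Q') (hy : HasV env y Y) :
    Post ad (vecM n (fun i => dotP (q i) y)) env (fun z env' => ∃ Z : Fin n → ℂ, HasV env' z Z ∧
      nv (Z - Q' *ᵥ Y) ≤ 4 * n * u * (fro Q' * nv Y)) := by
  have hu0 : 0 ≤ u := hu.nonneg
  have h := post_vecM (ad := ad) n (fun i => dotP (q i) y) env
    (fun i b env' => ∃ z, Has env' b z ∧ ‖z - Q' i ⬝ᵥ Y‖ ≤ 4 * n * u * (nv (Q' i) * nv Y))
    (by
      rintro i b env1 env2 h12 ⟨z, hz, hz2⟩
      exact ⟨z, hz.mono h12, hz2⟩)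
    (by
      intro i env' h'
      exact post_dot' hu hn hnu (x := q i) (X := Q' i) (fun j => (hq i j).mono h') (hy.mono h'))
  refine h.weaken ?_
  intro v env' _ hv
  choose Z hZ using hv
  refine ⟨Z, fun i => (hZ i).1, ?_⟩
  have h4 : 0 ≤ 4 * (n : ℝ) * u := by positivity
  apply NB_sq_le (mul_nonneg h4 (mul_nonneg (fro_nonneg _) (nv_nonneg _)))
  have e : (4 * (n : ℝ) * u * (fro Q' * nv Y)) ^ 2 =
      (4 * (n : ℝ) * u) ^ 2 * (fro Q' ^ 2 * nv Y ^ 2) := by ring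
  rw [e, nv_sq, fro_sq_rows, Finset.sum_mul, Finset.mul_sum]
  apply Finset.sum_le_sum
  intro i _
  rw [← mul_pow, ← mul_pow]
  exact pow_le_pow_left₀ (norm_nonneg _) (hZ i).2 2

theorem post_eig {ad : Adv} {u : ℝ} (hu : ad.Le u) {n l : ℕ} (hn : 1 ≤ n)
    {env : Env} {x q : RMat n n} {X Q Q' : Matrix (Fin n) (Fin n) ℂ} {s w0 : ℝ} (hs : 0 < s) (hs1 : s ≤ 1)
    (hw : 0 < w0) (hw1 : w0 ≤ 1 / 10) {lam : Fin n → ℂ} {V W : Matrix (Fin n) (Fin n) ℂ}
    (hx : HasM env x X) (hq : HasM env q Q') (hQ : Uni Q) {εq : ℝ} (hQ' : fro (Q' - Q) ≤ εq)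
    (hεq : εq ≤ 1) (hh : Hess X)
    (hb : ∀ k (hk : k + 1 < n), X ⟨k + 1, hk⟩ ⟨k, by omega⟩ ≠ 0)
    (hD : Diag X s w0 lam V W) (hfr : fro X ≤ 4 * n) {i : Fin n} {pos : ℤ × ℤ}
    (hpos : ‖lam i - grd ((2 : ℝ)⁻¹ ^ l) pos.1 pos.2‖ ≤ 3 * (2 : ℝ)⁻¹ ^ l)
    (hl : 100 * (2 : ℝ)⁻¹ ^ l ≤ s * w0) (hnu : 10 ^ 9 * n ^ 5 * u ≤ s * w0 ^ 2 * (2 : ℝ)⁻¹ ^ l) :
    Post ad (eigP l x q pos) env (fun y env' => ∃ (Y : Fin n → ℂ) (t : ℂ), HasV env' y Y ∧ ‖t‖ = 1 ∧
      nv (Y - Q *ᵥ (t • (fun a => V a i))) ≤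
        2200 * n * (2 : ℝ)⁻¹ ^ l / (w0 ^ 2 * s ^ 2) + 20 * n ^ 2 * u + 2 * εq) := by
  have hu0 : 0 ≤ u := hu.nonneg
  set r : ℝ := (2 : ℝ)⁻¹ ^ l with hr_def
  have hr : 0 < r := by positivity
  have hN : (1 : ℝ) ≤ n := by exact_mod_cast hn
  have hN0 : (0 : ℝ) < n := by linarith
  have hsw : s * w0 ≤ 1 / 10 := by nlinarith
  have hsw0 : 0 < s * w0 := by positivity
  have hr1 : 100 * r ≤ 1 := by linarith
  have hswr : s * w0 ^ 2 * r ≤ w0 * r / 10 := by
    have : s * w0 ^ 2 * r = (s * w0) * (w0 * r) := by ring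
    rw [this]
    nlinarith [mul_pos hw hr]
  have hwr : w0 * r ≤ r / 10 := by nlinarith
  -- powers of n
  have hn2 : (n : ℝ) ≤ n ^ 2 := by nlinarith
  have hn5 : ∀ k : ℕ, k ≤ 5 → (n : ℝ) ^ k ≤ n ^ 5 := fun k hk => pow_le_pow_right₀ hN hk
  have hpu : ∀ k : ℕ, k ≤ 5 → 10 ^ 9 * ((n : ℝ) ^ k * u) ≤ s * w0 ^ 2 * r := by
    intro k hk
    have h1 := mul_le_mul_of_nonneg_right (hn5 k hk) hu0
    have h2 : 10 ^ 9 * ((n : ℝ) ^ 5 * u) = 10 ^ 9 * n ^ 5 * u := by ring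
    linarith
  have hpu0 := hpu 0 (by norm_num)
  have hpu1 := hpu 1 (by norm_num)
  have hpu2 := hpu 2 (by norm_num)
  have hpu4 := hpu 4 (by norm_num)
  have hpu5 := hpu 5 (by norm_num)
  rw [pow_zero, one_mul] at hpu0
  rw [pow_one] at hpu1
  have hur : 4 * u ≤ r := by linarith
  have hnu1 : (n : ℝ) * u ≤ 1 / 100 := by linarith
  unfold eigP
  refine Post.bind (post_cst hu env _ _) ?_
  rintro z env1 h1 ⟨Z, hzZ, hZrel⟩
  rw [EIG_shift] at hZrel
  obtain ⟨hZ1, hZ2⟩ := EIG_dist hu0 hr hr1 hur (hD.lam_le i) hpos hZrel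
  have hZn : ‖Z‖ ≤ 4 := by
    have e : Z = lam i - (lam i - Z) := by ring
    have h := norm_sub_le (lam i) (lam i - Z)
    rw [← e] at h
    have := hD.lam_le i
    linarith
  have hdist : ∀ j, r ≤ ‖Z - lam j‖ := by
    intro j
    by_cases hj : j = i
    · rw [hj, norm_sub_rev]; exact hZ1
    · have h := hD.gap j i hj
      have e : lam j - lam i = (lam j - Z) - (lam i - Z) := by ring
      have h' := norm_sub_le (lam j - Z) (lam i - Z)
      rw [← e] at h'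
      rw [norm_sub_rev Z]
      linarith
  have hcol : ColAt X Z (w0 / n * r) := hD.colAt hn hw hr.le hdist
  have ht0 : 0 < w0 / n * r := by positivity
  have hwn : w0 / n ≤ w0 := div_le_self hw.le hN
  have ht1 : w0 / n * r ≤ 1 := by
    have := mul_le_mul_of_nonneg_right hwn hr.le
    linarith
  have hfZ : fro X + ‖Z‖ + 1 ≤ 9 * n := by linarith
  have hsolve : 10 ^ 6 * (n : ℝ) ^ 3 * u * (fro X + ‖Z‖ + 1) ≤ w0 / n * r := by
    have h3 : 0 ≤ 10 ^ 6 * (n : ℝ) ^ 3 * u := by positivity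
    refine (mul_le_mul_of_nonneg_left hfZ h3).trans ?_
    rw [div_mul_eq_mul_div, le_div_iff₀ hN0]
    have e : 10 ^ 6 * (n : ℝ) ^ 3 * u * (9 * n) * n = 9 * 10 ^ 6 * (n ^ 5 * u) := by ring
    rw [e]
    have : 0 ≤ (n : ℝ) ^ 5 * u := by positivity
    nlinarith [mul_pos hw hr]
  refine Post.bind (post_solve hu hn (hx.mono h1) hzZ hh hb ht0 ht1 hcol hsolve) ?_
  rintro y env2 h2 ⟨Y, w, f, hyY, hw0, heq, hf, hYw⟩
  have hnw := nv_nonneg w
  have hε0 : 0 ≤ 9000 * (n : ℝ) ^ 3 * u := by positivity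
  have hε : 100 * (9000 * (n : ℝ) ^ 3 * u) * n ≤ s * w0 ^ 2 * r := by
    have e : 100 * (9000 * (n : ℝ) ^ 3 * u) * n = 900000 * (n ^ 4 * u) := by ring
    rw [e]
    have : 0 ≤ (n : ℝ) ^ 4 * u := by positivity
    linarith
  have hf' : nv f ≤ 9000 * (n : ℝ) ^ 3 * u * (1 + nv w) := by
    refine hf.trans ?_
    have h3 : 0 ≤ 1000 * (n : ℝ) ^ 2 * u := by positivity
    have h4 : 1 + (fro X + ‖Z‖) * nv w ≤ 9 * n * (1 + nv w) := by
      have h5 : (fro X + ‖Z‖) * nv w ≤ 9 * n * nv w :=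
        mul_le_mul_of_nonneg_right (by linarith) hnw
      linarith
    refine (mul_le_mul_of_nonneg_left h4 h3).trans (le_of_eq ?_)
    ring
  obtain ⟨t, ht, hinv⟩ := invit hn hs hs1 hw hw1 hD hr hZ1 hZ2 (by linarith) hε0 hε heq hf'
  -- the norm of `Y`
  have hY11 : nv Y ≤ 11 / 10 := by
    have h3 : nv (((nv w)⁻¹ : ℂ) • w) = 1 := by
      rw [nv_smul]
      have hp := nv_pos hw0
      rw [norm_inv, Complex.norm_real, Real.norm_of_nonneg hnw]
      exact inv_mul_cancel₀ hp.ne'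
    have e : Y = (Y - ((nv w)⁻¹ : ℂ) • w) + ((nv w)⁻¹ : ℂ) • w := by abel
    have h4 := nv_add_le (Y - ((nv w)⁻¹ : ℂ) • w) (((nv w)⁻¹ : ℂ) • w)
    rw [← e, h3] at h4
    have h5 : 10 * (n : ℝ) * u ≤ 1 / 10 := by linarith
    linarith
  have hY0 := nv_nonneg Y
  have hfQ : fro Q' ≤ 2 * n := by
    have e : Q' = (Q' - Q) + Q := by abel
    have h3 := fro_add_le (Q' - Q) Q
    rw [← e, hQ.fro_eq] at h3
    have h4 : Real.sqrt n ≤ n := by
      rw [Real.sqrt_le_left hN0.le]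
      exact hn2
    linarith
  refine (EIG_mul hu hn hnu1 ((hq.mono h1).mono h2) hyY).weaken ?_
  rintro v env3 _ ⟨Zo, hvZ, hZo⟩
  refine ⟨Zo, t, hvZ, ht, ?_⟩
  have a1 : nv (Zo - Q' *ᵥ Y) ≤ 9 * (n : ℝ) ^ 2 * u := by
    refine hZo.trans ?_
    have h3 : fro Q' * nv Y ≤ 2 * n * (11 / 10) :=
      mul_le_mul hfQ hY11 hY0 (by positivity)
    have h4 : 0 ≤ 4 * (n : ℝ) * u := by positivity
    refine (mul_le_mul_of_nonneg_left h3 h4).trans ?_
    have h5 : 0 ≤ (n : ℝ) ^ 2 * u := by positivity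
    nlinarith
  have a2 : nv ((Q' - Q) *ᵥ Y) ≤ 11 / 10 * εq := by
    refine (nv_mulVec_le _ _).trans ?_
    have h3 := fro_nonneg (Q' - Q)
    have h4 : fro (Q' - Q) * nv Y ≤ εq * (11 / 10) := mul_le_mul hQ' hY11 hY0 (by linarith)
    linarith
  have a3 : nv (Q *ᵥ (Y - t • (fun a => V a i))) ≤ 10 * n * u + 2200 * n * r / (w0 ^ 2 * s ^ 2) := by
    rw [hQ.nv_mulVec]
    have e : Y - t • (fun a => V a i) =
        (Y - ((nv w)⁻¹ : ℂ) • w) + (((nv w)⁻¹ : ℂ) • w - t • (fun a => V a i)) := by abel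
    rw [e]
    exact (nv_add_le _ _).trans (add_le_add hYw hinv)
  have e : Zo - Q *ᵥ (t • (fun a => V a i)) =
      (Zo - Q' *ᵥ Y) + ((Q' - Q) *ᵥ Y) + (Q *ᵥ (Y - t • (fun a => V a i))) := by
    rw [Matrix.mulVec_sub, Matrix.sub_mulVec]
    abel
  rw [e]
  have b1 := nv_add_le ((Zo - Q' *ᵥ Y) + ((Q' - Q) *ᵥ Y)) (Q *ᵥ (Y - t • (fun a => V a i)))
  have b2 := nv_add_le (Zo - Q' *ᵥ Y) ((Q' - Q) *ᵥ Y)
  have b3 : 0 ≤ εq := (fro_nonneg _).trans hQ'
  have b4 : (n : ℝ) * u ≤ n ^ 2 * u := mul_le_mul_of_nonneg_right hn2 hu0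
  nlinarith

end H6LP

end S_EIG

section S_FINA

set_option autoImplicit false

open Complex Matrix

namespace H6LP

theorem fina {n : ℕ} {B U U' Vh : Matrix (Fin n) (Fin n) ℂ} {lam D : Fin n → ℂ} {K ε ε' : ℝ}
    (hB : B = U * Matrix.diagonal lam * U') (hU : U * U' = 1) (hop : OpLe B 4)
    (hlam : ∀ i, ‖lam i‖ ≤ 3) (hK : fro U' ≤ K) (hUf : fro U ≤ Real.sqrt n) (hK1 : 1 ≤ K)
    (hF : fro (Vh - U) ≤ ε) (hD : ∀ i, ‖D i - lam i‖ ≤ ε') (hε' : ε' ≤ 1) (hεK : 2 * (ε * K) ≤ 1) :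
    IsUnit Vh ∧ fro (B - Vh * Matrix.diagonal D * Vh⁻¹) ≤ 2 * K * (Real.sqrt n * ε' + 8 * ε) := by
  have hU' : U' * U = 1 := mul_eq_one_comm.1 hU
  have hF0 : 0 ≤ fro (Vh - U) := fro_nonneg _
  have hε0 : 0 ≤ ε := hF0.trans hF
  have hK0 : 0 ≤ K := zero_le_one.trans hK1
  have hVU : U' * Vh = 1 + U' * (Vh - U) := by
    rw [Matrix.mul_sub, hU']
    abel
  have hsmall : fro (U' * (Vh - U)) ≤ 1 / 2 := by
    have h1 := fro_mul_le U' (Vh - U)
    have h2 : fro U' * fro (Vh - U) ≤ K * ε := mul_le_mul hK hF hF0 hK0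
    nlinarith
  have hlow : ∀ x : Fin n → ℂ, nv x ≤ 2 * K * nv (Vh *ᵥ x) := by
    intro x
    have h1 : nv (U' *ᵥ (Vh *ᵥ x)) ≤ K * nv (Vh *ᵥ x) :=
      (nv_mulVec_le _ _).trans (mul_le_mul_of_nonneg_right hK (nv_nonneg _))
    rw [Matrix.mulVec_mulVec, hVU, Matrix.add_mulVec, Matrix.one_mulVec] at h1
    have h2 : nv ((U' * (Vh - U)) *ᵥ x) ≤ 1 / 2 * nv x :=
      (nv_mulVec_le _ _).trans (mul_le_mul_of_nonneg_right hsmall (nv_nonneg _))
    have h3 : nv x ≤ nv (x + (U' * (Vh - U)) *ᵥ x) + nv ((U' * (Vh - U)) *ᵥ x) := by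
      have h4 := nv_sub_le (x + (U' * (Vh - U)) *ᵥ x) ((U' * (Vh - U)) *ᵥ x)
      rwa [add_sub_cancel_right] at h4
    linarith
  have hunit : IsUnit Vh := by
    rw [← Matrix.mulVec_injective_iff_isUnit]
    intro x y hxy
    have h1 := hlow (x - y)
    have hxy' : Vh *ᵥ x = Vh *ᵥ y := hxy
    rw [Matrix.mulVec_sub, hxy', sub_self, nv_zero, mul_zero] at h1
    have h2 : nv (x - y) = 0 := le_antisymm h1 (nv_nonneg _)
    exact sub_eq_zero.1 (nv_eq_zero.1 h2)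
  refine ⟨hunit, ?_⟩
  have hdet : IsUnit Vh.det := (Matrix.isUnit_iff_isUnit_det _).1 hunit
  have hVV : Vh * Vh⁻¹ = 1 := Matrix.mul_nonsing_inv _ hdet
  have hop' : OpLe Vh⁻¹ (2 * K) := by
    intro y
    have h1 := hlow (Vh⁻¹ *ᵥ y)
    rwa [Matrix.mulVec_mulVec, hVV, Matrix.one_mulVec] at h1
  have hBU : B * U = U * Matrix.diagonal lam := by
    rw [hB, Matrix.mul_assoc, hU', Matrix.mul_one]
  have heq : B - Vh * Matrix.diagonal D * Vh⁻¹ =
      (U * Matrix.diagonal (fun i => lam i - D i) + B * (Vh - U) -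
        (Vh - U) * Matrix.diagonal D) * Vh⁻¹ := by
    have h1 : U * Matrix.diagonal (fun i => lam i - D i) + B * (Vh - U) -
        (Vh - U) * Matrix.diagonal D = B * Vh - Vh * Matrix.diagonal D := by
      have h2 : Matrix.diagonal (fun i => lam i - D i) =
          Matrix.diagonal lam - Matrix.diagonal D := (Matrix.diagonal_sub lam D).symm
      rw [h2, Matrix.mul_sub, Matrix.mul_sub, Matrix.sub_mul, hBU]
      abel
    rw [h1, Matrix.sub_mul, Matrix.mul_assoc B, hVV, Matrix.mul_one]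
  rw [heq]
  have hD4 : ∀ i, ‖D i‖ ≤ 4 := by
    intro i
    have h1 := norm_add_le (D i - lam i) (lam i)
    rw [sub_add_cancel] at h1
    linarith [hD i, hlam i]
  have hε'0 : 0 ≤ ε' ∨ n = 0 := by
    rcases Nat.eq_zero_or_pos n with h | h
    · exact Or.inr h
    · exact Or.inl ((norm_nonneg _).trans (hD ⟨0, h⟩))
  have hmain : fro (U * Matrix.diagonal (fun i => lam i - D i) + B * (Vh - U) -
      (Vh - U) * Matrix.diagonal D) ≤ Real.sqrt n * ε' + 8 * ε := by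
    have h1 : fro (U * Matrix.diagonal (fun i => lam i - D i)) ≤ Real.sqrt n * ε' := by
      rcases hε'0 with h | h
      · have h2 := fro_mul_diagonal_le (A := U) (d := fun i => lam i - D i) h
          (fun i => by rw [norm_sub_rev]; exact hD i)
        refine h2.trans ?_
        rw [mul_comm]
        exact mul_le_mul_of_nonneg_right hUf h
      · subst h
        have h2 : U * Matrix.diagonal (fun i => lam i - D i) = 0 := Subsingleton.elim _ _
        rw [h2, fro_zero]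
        simp
    have h2 : fro (B * (Vh - U)) ≤ 4 * ε :=
      (hop.fro_mul_le (by norm_num) _).trans (mul_le_mul_of_nonneg_left hF (by norm_num))
    have h3 : fro ((Vh - U) * Matrix.diagonal D) ≤ 4 * ε :=
      (fro_mul_diagonal_le (by norm_num) hD4).trans (mul_le_mul_of_nonneg_left hF (by norm_num))
    have h4 := fro_sub_le (U * Matrix.diagonal (fun i => lam i - D i) + B * (Vh - U))
      ((Vh - U) * Matrix.diagonal D)
    have h5 := fro_add_le (U * Matrix.diagonal (fun i => lam i - D i)) (B * (Vh - U))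
    linarith
  exact (hop'.fro_mul_le' (by positivity) _).trans
    (mul_le_mul_of_nonneg_left hmain (by positivity))

end H6LP

end S_FINA

section S_OPN

set_option autoImplicit false

open Complex Matrix

namespace H6LP

theorem opn_nv_eq {n : ℕ} (x : Fin n → ℂ) : nv x = ‖(WithLp.toLp 2 x : EuclideanSpace ℂ (Fin n))‖ := by
  rw [EuclideanSpace.norm_eq]
  rfl

open scoped Matrix.Norms.L2Operator in
theorem opLe_iff_norm_le {n : ℕ} (A : Matrix (Fin n) (Fin n) ℂ) {c : ℝ} (hc : 0 ≤ c) :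
    OpLe A c ↔ ‖A‖ ≤ c := by
  constructor
  · intro h
    rw [Matrix.l2_opNorm_def]
    refine ContinuousLinearMap.opNorm_le_bound _ hc ?_
    intro x
    have h1 := h x.ofLp
    rw [opn_nv_eq, opn_nv_eq] at h1
    exact h1
  · intro h x
    have h1 := Matrix.l2_opNorm_mulVec A (WithLp.toLp 2 x : EuclideanSpace ℂ (Fin n))
    rw [opn_nv_eq, opn_nv_eq]
    exact h1.trans (mul_le_mul_of_nonneg_right h (norm_nonneg _))

open scoped Matrix.Norms.L2Operator in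
theorem norm_le_fro' {n : ℕ} (A : Matrix (Fin n) (Fin n) ℂ) : ‖A‖ ≤ fro A :=
  (opLe_iff_norm_le A (fro_nonneg A)).1 (opLe_fro A)

end H6LP

end S_OPN
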