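import Pool.Agent.H6.LQ.Core
import Pool.Agent.H6.LQ.G1
import Pool.Agent.H6.LQ.G3
import Pool.Agent.H6.LQ.G5

/-! MP_63a4b3_lc, part G6: this file joins the modules PISEC, SB, SBROW, SBCOL, EV, EVPHI. -/

section S_PISEC

set_option autoImplicit false

open MeasureTheory

namespace H6LP

variable {ι : Type} [Fintype ι] [DecidableEq ι]

instance pisecProb : IsProbabilityMeasure ((volume : Measure ℝ).restrict (Set.Icc 0 1)) :=
  ⟨by simp⟩

instance : IsProbabilityMeasure (PP ι) := by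
  unfold PP
  infer_instance

/-- coordinates in `S` from `h`, the others from `g` -/
def mix (S : Finset ι) (g h : ι → ℝ) : ι → ℝ := fun i => if i ∈ S then h i else g i

theorem pisec_measurable_mix (S : Finset ι) :
    Measurable (fun p : (ι → ℝ) × (ι → ℝ) => mix S p.1 p.2) := by
  rw [measurable_pi_iff]
  intro i
  by_cases hi : i ∈ S
  · simp only [mix, hi, if_true]
    exact (measurable_pi_apply i).comp measurable_snd
  · simp only [mix, hi, if_false]
    exact (measurable_pi_apply i).comp measurable_fst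

theorem mix_preserving (S : Finset ι) :
    MeasurePreserving (fun p : (ι → ℝ) × (ι → ℝ) => mix S p.1 p.2) ((PP ι).prod (PP ι)) (PP ι) := by
  refine ⟨pisec_measurable_mix S, ?_⟩
  symm
  refine Measure.pi_eq fun s hs => ?_
  rw [Measure.map_apply (pisec_measurable_mix S) (MeasurableSet.univ_pi hs)]
  have hpre : (fun p : (ι → ℝ) × (ι → ℝ) => mix S p.1 p.2) ⁻¹' (Set.univ.pi s) =
      (Set.univ.pi (fun i => if i ∈ S then Set.univ else s i)) ×ˢ
        (Set.univ.pi (fun i => if i ∈ S then s i else Set.univ)) := by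
    ext ⟨g, h⟩
    simp only [Set.mem_preimage, Set.mem_pi, Set.mem_univ, true_imp_iff, Set.mem_prod, mix]
    constructor
    · intro hm
      constructor
      · intro i
        have := hm i
        by_cases hi : i ∈ S
        · simp [hi]
        · simpa [hi] using this
      · intro i
        have := hm i
        by_cases hi : i ∈ S
        · simpa [hi] using this
        · simp [hi]
    · rintro ⟨h1, h2⟩ i
      have e1 := h1 i
      have e2 := h2 i
      by_cases hi : i ∈ S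
      · simpa [hi] using e2
      · simpa [hi] using e1
  rw [hpre, Measure.prod_prod]
  unfold PP
  rw [Measure.pi_pi, Measure.pi_pi, ← Finset.prod_mul_distrib]
  refine Finset.prod_congr rfl fun i _ => ?_
  by_cases hi : i ∈ S
  · simp only [hi, if_true, measure_univ, one_mul]
  · simp only [hi, if_false, measure_univ, mul_one]

theorem pisec (S : Finset ι) {A B : Set (ι → ℝ)} (hA : MeasurableSet A) (hB : MeasurableSet B)
    {c : ENNReal} (hinv : ∀ g h, mix S g h ∈ A ↔ g ∈ A)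
    (hsec : ∀ g ∈ A, PP ι {h | mix S g h ∈ B} ≤ c) : PP ι (A ∩ B) ≤ c * PP ι A := by
  have hm := pisec_measurable_mix S
  rw [← (mix_preserving S).measure_preimage (hA.inter hB).nullMeasurableSet,
    Measure.prod_apply (hm (hA.inter hB))]
  calc ∫⁻ g, PP ι (Prod.mk g ⁻¹' ((fun p : (ι → ℝ) × (ι → ℝ) => mix S p.1 p.2) ⁻¹' (A ∩ B))) ∂(PP ι)
      ≤ ∫⁻ g, A.indicator (fun _ => c) g ∂(PP ι) := by
        refine lintegral_mono fun g => ?_
        by_cases hg : g ∈ A
        · rw [Set.indicator_of_mem hg]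
          refine le_trans (measure_mono ?_) (hsec g hg)
          intro h hh
          exact hh.2
        · rw [Set.indicator_of_notMem hg]
          have : Prod.mk g ⁻¹' ((fun p : (ι → ℝ) × (ι → ℝ) => mix S p.1 p.2) ⁻¹' (A ∩ B)) = ∅ := by
            ext h
            simp only [Set.mem_preimage, Set.mem_inter_iff, Set.mem_empty_iff_false, iff_false,
              not_and]
            intro h1
            exact absurd ((hinv g h).mp h1) hg
          rw [this, measure_empty]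
    _ = c * PP ι A := by
        rw [lintegral_indicator hA, lintegral_const, Measure.restrict_apply_univ]

/-- the same without `A`; it is enough to bound the section by any set -/
theorem pisec' (S : Finset ι) {B : Set (ι → ℝ)} (hB : MeasurableSet B)
    {c : ENNReal} (hsec : ∀ g, PP ι {h | mix S g h ∈ B} ≤ c) : PP ι B ≤ c := by
  have h := pisec S MeasurableSet.univ hB (c := c) (fun g h => by simp) (fun g _ => hsec g)
  rwa [Set.univ_inter, measure_univ, mul_one] at h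

/-- one real coordinate -/
theorem pp_coord (i : ι) {s : Set ℝ} (hs : MeasurableSet s) :
    PP ι {h | h i ∈ s} = volume (s ∩ Set.Icc 0 1) := by
  have h1 := (measurePreserving_eval (fun _ : ι => (volume : Measure ℝ).restrict (Set.Icc 0 1)) i)
  have h2 := h1.measure_preimage hs.nullMeasurableSet
  rw [Measure.restrict_apply hs] at h2
  exact h2

/-- almost surely all coordinates are in `[0,1]` -/
theorem pp_cube : PP ι {h | ∀ i, h i ∈ Set.Icc (0 : ℝ) 1} = 1 := by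
  have : {h : ι → ℝ | ∀ i, h i ∈ Set.Icc (0 : ℝ) 1} = Set.univ.pi (fun _ => Set.Icc (0 : ℝ) 1) := by
    ext h; simp only [Set.mem_ofPred_eq, Set.mem_pi, Set.mem_univ, true_imp_iff]
  rw [this]
  unfold PP
  rw [Measure.pi_pi]
  simp

/-- the measure of subsets of the cube is the Lebesgue measure -/
theorem pp_eq_volume {S : Set (ι → ℝ)} (hS : MeasurableSet S)
    (h : ∀ g ∈ S, ∀ i, g i ∈ Set.Icc (0 : ℝ) 1) : PP ι S = volume S := by
  unfold PP
  rw [← Measure.restrict_pi_pi, Measure.restrict_apply hS]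
  have : S ∩ Set.univ.pi (fun _ : ι => Set.Icc (0 : ℝ) 1) = S := by
    refine Set.inter_eq_left.mpr fun g hg => ?_
    intro i _
    exact h g hg i
  rw [this]
  rfl

end H6LP

end S_PISEC

section S_SB

set_option autoImplicit false

open Complex Matrix MeasureTheory

namespace H6LP

variable {ι : Type} [Fintype ι] [DecidableEq ι] {n : ℕ}

/-- `G i j` as a function of the sample -/
noncomputable def Gc (C : Coo n ι) (g : ι → ℝ) (i j : Fin n) : ℂ :=
  (g (C.co i j false) : ℂ) + (g (C.co i j true) : ℂ) * I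

theorem SB_ne (C : Coo n ι) (i j : Fin n) : C.co i j false ≠ C.co i j true := by
  intro h
  have := (C.inj _ _ _ _ _ _ h).2.2
  exact absurd this (by decide)

omit [Fintype ι] [DecidableEq ι] in
theorem SB_meas_Gc (C : Coo n ι) (i j : Fin n) : Measurable fun g : ι → ℝ => Gc C g i j := by
  unfold Gc
  fun_prop

theorem SB_coord_le (i : ι) (x ρ : ℝ) :
    PP ι {h | h i ∈ Set.Icc (x - ρ) (x + ρ)} ≤ ENNReal.ofReal (2 * ρ) := by
  rw [pp_coord i measurableSet_Icc]
  refine (measure_mono Set.inter_subset_left).trans ?_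
  rw [Real.volume_Icc]
  apply le_of_eq
  congr 1
  ring

/-- the section of the event -/
theorem SB_sec (C : Coo n ι) {γ a β : ℝ} (hγ : 0 < γ) (ha : 0 ≤ a) (hβ : 0 < β) (i j : Fin n)
    (c0 w : ℂ) (hw : β ≤ ‖w‖) :
    PP ι {h | ‖c0 + γ * Gc C h i j * w‖ ≤ a} ≤ ENNReal.ofReal ((2 * a / (γ * β)) ^ 2) := by
  set ρ : ℝ := a / (γ * β) with hρ
  have hρ0 : 0 ≤ ρ := by positivity
  have hwpos : 0 < ‖w‖ := hβ.trans_le hw
  have hw0 : w ≠ 0 := norm_pos_iff.mp hwpos
  have hγ0 : (γ : ℂ) ≠ 0 := by exact_mod_cast hγ.ne'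
  set c' : ℂ := c0 / (γ * w) with hc'
  have hsub : {h : ι → ℝ | ‖c0 + γ * Gc C h i j * w‖ ≤ a} ⊆
      {h | h (C.co i j true) ∈ Set.Icc (-c'.im - ρ) (-c'.im + ρ)} ∩
        {h | h (C.co i j false) ∈ Set.Icc (-c'.re - ρ) (-c'.re + ρ)} := by
    intro h hh
    have h1 : c0 + γ * Gc C h i j * w = (γ * w) * (c' + Gc C h i j) := by
      rw [hc']
      field_simp
    have h2 : ‖c' + Gc C h i j‖ ≤ ρ := by
      have h3 : ‖(γ : ℂ) * w‖ * ‖c' + Gc C h i j‖ ≤ a := by
        rw [← norm_mul, ← h1]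
        exact hh
      rw [norm_mul, Complex.norm_real, Real.norm_eq_abs, abs_of_pos hγ] at h3
      rw [hρ, le_div_iff₀ (by positivity)]
      refine le_trans ?_ h3
      rw [mul_comm]
      exact mul_le_mul_of_nonneg_right (mul_le_mul_of_nonneg_left hw hγ.le) (norm_nonneg _)
    have h4 := (Complex.abs_re_le_norm (c' + Gc C h i j)).trans h2
    have h5 := (Complex.abs_im_le_norm (c' + Gc C h i j)).trans h2
    have h6 : (Gc C h i j).re = h (C.co i j false) := by simp [Gc]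
    have h7 : (Gc C h i j).im = h (C.co i j true) := by simp [Gc]
    rw [Complex.add_re, h6, abs_le] at h4
    rw [Complex.add_im, h7, abs_le] at h5
    refine ⟨⟨?_, ?_⟩, ⟨?_, ?_⟩⟩ <;> linarith [h4.1, h4.2, h5.1, h5.2]
  have hmeas : ∀ (k : ι) (s : Set ℝ), MeasurableSet s → MeasurableSet {h : ι → ℝ | h k ∈ s} :=
    fun k s hs => (measurable_pi_apply k) hs
  refine (measure_mono hsub).trans ?_
  refine (pisec {C.co i j false} (hmeas _ _ measurableSet_Icc) (hmeas _ _ measurableSet_Icc)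
    (c := ENNReal.ofReal (2 * ρ)) ?_ ?_).trans ?_
  · intro g h
    have : mix {C.co i j false} g h (C.co i j true) = g (C.co i j true) := by
      unfold mix
      rw [if_neg]
      rw [Finset.mem_singleton]
      exact (SB_ne C i j).symm
    simp only [Set.mem_ofPred_eq, this]
  · intro g _
    have : {h : ι → ℝ | mix {C.co i j false} g h ∈
        {h : ι → ℝ | h (C.co i j false) ∈ Set.Icc (-c'.re - ρ) (-c'.re + ρ)}} =
        {h | h (C.co i j false) ∈ Set.Icc (-c'.re - ρ) (-c'.re + ρ)} := by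
      ext h
      have : mix {C.co i j false} g h (C.co i j false) = h (C.co i j false) := by
        unfold mix
        rw [if_pos (Finset.mem_singleton_self _)]
      simp only [Set.mem_ofPred_eq, this]
    rw [this]
    exact SB_coord_le _ _ _
  · refine (mul_le_mul_right (SB_coord_le _ _ _) _).trans ?_
    rw [← ENNReal.ofReal_mul (by positivity)]
    apply le_of_eq
    congr 1
    rw [hρ]
    ring

/-- the general version -/
theorem SB_main (C : Coo n ι) {γ a β : ℝ} (hγ : 0 < γ) (ha : 0 ≤ a) (hβ : 0 < β) (i j : Fin n)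
    {A : Set (ι → ℝ)} (hA : MeasurableSet A)
    (hAi : ∀ g h : ι → ℝ, (∀ x, x ≠ C.co i j false → x ≠ C.co i j true → g x = h x) →
      g ∈ A → h ∈ A)
    (f : (ι → ℝ) → ℂ) (w : ℂ) (hw : β ≤ ‖w‖)
    (hf : ∀ g h, (∀ x, x ≠ C.co i j false → x ≠ C.co i j true → g x = h x) → f g = f h)
    (hfm : Measurable f) :
    PP ι (A ∩ {g | ‖f g + γ * Gc C g i j * w‖ ≤ a}) ≤
      ENNReal.ofReal ((2 * a / (γ * β)) ^ 2) * PP ι A := by
  have hmem : ∀ x, x ≠ C.co i j false → x ≠ C.co i j true →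
      x ∉ ({C.co i j false, C.co i j true} : Finset ι) := by
    intro x h1 h2 h3
    rw [Finset.mem_insert, Finset.mem_singleton] at h3
    rcases h3 with h3 | h3
    · exact h1 h3
    · exact h2 h3
  have hmix : ∀ g h : ι → ℝ, ∀ x, x ≠ C.co i j false → x ≠ C.co i j true →
      mix {C.co i j false, C.co i j true} g h x = g x := by
    intro g h x h1 h2
    unfold mix
    rw [if_neg (hmem x h1 h2)]
  have hB : MeasurableSet {g : ι → ℝ | ‖f g + γ * Gc C g i j * w‖ ≤ a} := by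
    apply measurableSet_le _ measurable_const
    have h1 := SB_meas_Gc C i j
    exact (hfm.add ((measurable_const.mul h1).mul measurable_const)).norm
  refine pisec {C.co i j false, C.co i j true} hA hB ?_ ?_
  · intro g h
    constructor
    · exact hAi _ _ (hmix g h)
    · exact hAi _ _ (fun x h1 h2 => (hmix g h x h1 h2).symm)
  · intro g _
    refine le_trans (measure_mono ?_) (SB_sec C hγ ha hβ i j (f g) w hw)
    intro h hh
    simp only [Set.mem_ofPred_eq] at hh ⊢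
    have h1 : f (mix {C.co i j false, C.co i j true} g h) = f g := hf _ _ (hmix g h)
    have h2 : Gc C (mix {C.co i j false, C.co i j true} g h) i j = Gc C h i j := by
      unfold Gc mix
      rw [if_pos (by simp), if_pos (by simp)]
    rwa [h1, h2] at hh

/-- two real coordinates -/
theorem sb2 (C : Coo n ι) {γ a β : ℝ} (hγ : 0 < γ) (ha : 0 ≤ a) (hβ : 0 < β) (i j : Fin n)
    {S : Set (ι → ℝ)} (f : (ι → ℝ) → ℂ) (w : ℂ) (hw : β ≤ ‖w‖)
    (hf : ∀ g h, (∀ x, x ≠ C.co i j false → x ≠ C.co i j true → g x = h x) → f g = f h)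
    (hfm : Measurable f)
    (hS : ∀ g ∈ S, ‖f g + γ * Gc C g i j * w‖ ≤ a) :
    PP ι S ≤ ENNReal.ofReal ((2 * a / (γ * β)) ^ 2) := by
  have h := SB_main C hγ ha hβ i j (A := Set.univ) MeasurableSet.univ
    (fun _ _ _ _ => Set.mem_univ _) f w hw hf hfm
  rw [measure_univ, mul_one, Set.univ_inter] at h
  exact (measure_mono hS).trans h

/-- entries at other places do not depend on the coordinates `(i, j)` -/
theorem SB_Gc_other (C : Coo n ι) {i j i' j' : Fin n} (hne : i' ≠ i ∨ j' ≠ j) {g h : ι → ℝ}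
    (hgh : ∀ x, x ≠ C.co i j false → x ≠ C.co i j true → g x = h x) :
    Gc C g i' j' = Gc C h i' j' := by
  have h1 : ∀ b b', C.co i' j' b ≠ C.co i j b' := by
    intro b b' hb
    obtain ⟨e1, e2, -⟩ := C.inj _ _ _ _ _ _ hb
    rcases hne with h | h
    · exact h e1
    · exact h e2
  unfold Gc
  rw [hgh _ (h1 _ _) (h1 _ _), hgh _ (h1 _ _) (h1 _ _)]

/-- rows: fixed `w1`, `w2`, the row `k` random -/
theorem sb_row (C : Coo n ι) {γ a β : ℝ} (hγ : 0 < γ) (ha : 0 ≤ a) (hβ : 0 < β) (k p q : Fin n)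
    (hpq : p ≠ q) (c1 c2 : ℂ) (w1 w2 : Fin n → ℂ) (h1 : β ≤ ‖w1 p‖) (h2 : β ≤ ‖w2 q‖) (h20 : w2 p = 0)
    {S : Set (ι → ℝ)}
    (hS1 : ∀ g ∈ S, ‖c1 + γ * ∑ j, Gc C g k j * w1 j‖ ≤ a)
    (hS2 : ∀ g ∈ S, ‖c2 + γ * ∑ j, Gc C g k j * w2 j‖ ≤ a) :
    PP ι S ≤ ENNReal.ofReal ((2 * a / (γ * β)) ^ 4) := by
  have hsum : ∀ (c : ℂ) (w : Fin n → ℂ) (r : Fin n) (g : ι → ℝ),
      c + γ * ∑ j, Gc C g k j * w j =
        (c + γ * ∑ j ∈ Finset.univ.erase r, Gc C g k j * w j) + γ * Gc C g k r * w r := by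
    intro c w r g
    rw [← Finset.add_sum_erase _ _ (Finset.mem_univ r)]
    ring
  have hmeas : ∀ (c : ℂ) (w : Fin n → ℂ) (s : Finset (Fin n)),
      Measurable fun g : ι → ℝ => c + γ * ∑ j ∈ s, Gc C g k j * w j := by
    intro c w s
    refine measurable_const.add (measurable_const.mul ?_)
    exact Finset.measurable_sum _ (fun j _ => (SB_meas_Gc C k j).mul measurable_const)
  have hinv : ∀ (c : ℂ) (w : Fin n → ℂ) (r : Fin n) (g h : ι → ℝ),
      (∀ x, x ≠ C.co k r false → x ≠ C.co k r true → g x = h x) →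
      c + γ * ∑ j ∈ Finset.univ.erase r, Gc C g k j * w j =
        c + γ * ∑ j ∈ Finset.univ.erase r, Gc C h k j * w j := by
    intro c w r g h hgh
    congr 2
    refine Finset.sum_congr rfl (fun j hj => ?_)
    rw [SB_Gc_other C (Or.inr (Finset.ne_of_mem_erase hj)) hgh]
  -- the second event
  have hA : MeasurableSet {g : ι → ℝ | ‖c2 + γ * ∑ j, Gc C g k j * w2 j‖ ≤ a} :=
    measurableSet_le (hmeas c2 w2 Finset.univ).norm measurable_const
  have hPA : PP ι {g : ι → ℝ | ‖c2 + γ * ∑ j, Gc C g k j * w2 j‖ ≤ a} ≤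
      ENNReal.ofReal ((2 * a / (γ * β)) ^ 2) := by
    refine sb2 C hγ ha hβ k q (fun g => c2 + γ * ∑ j ∈ Finset.univ.erase q, Gc C g k j * w2 j)
      (w2 q) h2 (hinv c2 w2 q) (hmeas c2 w2 _) ?_
    intro g hg
    rw [← hsum]
    exact hg
  have hAi : ∀ g h : ι → ℝ, (∀ x, x ≠ C.co k p false → x ≠ C.co k p true → g x = h x) →
      g ∈ {g : ι → ℝ | ‖c2 + γ * ∑ j, Gc C g k j * w2 j‖ ≤ a} →
      h ∈ {g : ι → ℝ | ‖c2 + γ * ∑ j, Gc C g k j * w2 j‖ ≤ a} := by
    intro g h hgh hg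
    simp only [Set.mem_ofPred_eq] at hg ⊢
    rw [hsum c2 w2 p, h20, mul_zero, add_zero] at hg ⊢
    rwa [← hinv c2 w2 p g h hgh]
  have hmain := SB_main C hγ ha hβ k p hA hAi
    (fun g => c1 + γ * ∑ j ∈ Finset.univ.erase p, Gc C g k j * w1 j) (w1 p) h1
    (hinv c1 w1 p) (hmeas c1 w1 _)
  refine (measure_mono ?_).trans (hmain.trans ?_)
  · intro g hg
    refine ⟨hS2 g hg, ?_⟩
    simp only [Set.mem_ofPred_eq]
    rw [← hsum]
    exact hS1 g hg
  · refine (mul_le_mul_right hPA _).trans ?_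
    rw [← ENNReal.ofReal_mul (by positivity)]
    apply le_of_eq
    congr 1
    ring

/-- columns: fixed `w`, the column `k` random -/
theorem sb_col (C : Coo n ι) {γ a β : ℝ} (hγ : 0 < γ) (ha : 0 ≤ a) (hβ : 0 < β) (k p : Fin n)
    (c : ℂ) (w : Fin n → ℂ) (h1 : β ≤ ‖w p‖) {S : Set (ι → ℝ)}
    (hS : ∀ g ∈ S, ‖c + γ * ∑ i, Gc C g i k * w i‖ ≤ a) :
    PP ι S ≤ ENNReal.ofReal ((2 * a / (γ * β)) ^ 2) := by
  refine sb2 C hγ ha hβ p k (fun g => c + γ * ∑ i ∈ Finset.univ.erase p, Gc C g i k * w i)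
    (w p) h1 ?_ ?_ ?_
  · intro g h hgh
    congr 2
    refine Finset.sum_congr rfl (fun i hi => ?_)
    rw [SB_Gc_other C (Or.inl (Finset.ne_of_mem_erase hi)) hgh]
  · refine measurable_const.add (measurable_const.mul ?_)
    exact Finset.measurable_sum _ (fun i _ => (SB_meas_Gc C i k).mul measurable_const)
  · intro g hg
    have h2 : c + γ * ∑ i, Gc C g i k * w i =
        (c + γ * ∑ i ∈ Finset.univ.erase p, Gc C g i k * w i) + γ * Gc C g p k * w p := by
      rw [← Finset.add_sum_erase _ _ (Finset.mem_univ p)]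
      ring
    rw [← h2]
    exact hS g hg

end H6LP

end S_SB

section S_SBROW

set_option autoImplicit false

open Complex Matrix MeasureTheory

namespace H6LP

variable {ι : Type} [Fintype ι] [DecidableEq ι] {n : ℕ}

theorem sbrow_continuous_nv : Continuous (nv : (Fin n → ℂ) → ℝ) := by
  unfold nv
  fun_prop

omit [Fintype ι] [DecidableEq ι] in
theorem sbrow_continuous_Mof (A : Matrix (Fin n) (Fin n) ℂ) (C : Coo n ι) (γ : ℝ) (i j : Fin n) :
    Continuous fun g : ι → ℝ => Mof A γ C g i j := by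
  unfold Mof
  fun_prop

/-- `∃ x ∈ K, f (g, x) ≤ a` is a closed condition on `g` for compact `K` and continuous `f` -/
theorem sbrow_isClosed_exists_le {E F : Type*} [TopologicalSpace E] [TopologicalSpace F] {K : Set F}
    (hK : IsCompact K) {f : E × F → ℝ} (hf : Continuous f) (a : ℝ) :
    IsClosed {g | ∃ x ∈ K, f (g, x) ≤ a} := by
  have : CompactSpace K := isCompact_iff_compactSpace.mp hK
  have h1 : IsClosed {p : E × K | f (p.1, (p.2 : F)) ≤ a} :=
    isClosed_le (hf.comp (continuous_fst.prodMk (continuous_subtype_val.comp continuous_snd)))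
      continuous_const
  have h2 := isClosedMap_fst_of_compactSpace (X := E) (Y := K) _ h1
  convert h2 using 1
  ext g
  constructor
  · rintro ⟨x, hx, hgx⟩
    exact ⟨(g, ⟨x, hx⟩), hgx, rfl⟩
  · rintro ⟨⟨g', x⟩, hgx, rfl⟩
    exact ⟨x, x.2, hgx⟩

/-- the compact set of the normalized vectors with large coordinate `k` -/
def sbrowK (n : ℕ) (k : Fin n) : Set (Fin n → ℂ) :=
  {x | nv x = 1 ∧ (∀ i : Fin n, (i : ℕ) = 0 → x i = 0) ∧ 1 ≤ Real.sqrt n * ‖x k‖}

theorem sbrow_isCompact_of_nv_eq_one {K : Set (Fin n → ℂ)} (hc : IsClosed K) (h : ∀ x ∈ K, nv x = 1) :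
    IsCompact K := by
  refine Metric.isCompact_of_isClosed_isBounded hc ?_
  refine (Metric.isBounded_closedBall (x := (0 : Fin n → ℂ)) (r := 1)).subset ?_
  intro x hx
  rw [mem_closedBall_zero_iff, pi_norm_le_iff_of_nonneg zero_le_one]
  intro i
  rw [← h x hx]
  exact norm_le_nv x i

theorem sbrow_isCompact_sbK (k : Fin n) : IsCompact (sbrowK n k) := by
  refine sbrow_isCompact_of_nv_eq_one ?_ (fun x hx => hx.1)
  have h2 : IsClosed {x : Fin n → ℂ | ∀ i : Fin n, (i : ℕ) = 0 → x i = 0} := by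
    have : {x : Fin n → ℂ | ∀ i : Fin n, (i : ℕ) = 0 → x i = 0} =
        ⋂ (i : Fin n) (_ : (i : ℕ) = 0), {x | x i = 0} := by
      ext x
      simp
    rw [this]
    exact isClosed_iInter fun i => isClosed_iInter fun _ =>
      isClosed_eq (continuous_apply i) continuous_const
  have h3 : IsClosed {x : Fin n → ℂ | 1 ≤ Real.sqrt n * ‖x k‖} :=
    isClosed_le continuous_const (continuous_const.mul (continuous_apply k).norm)
  exact (isClosed_eq sbrow_continuous_nv continuous_const).inter (h2.inter h3)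

/-- the block of the coordinates of the row `k` -/
def sbrowBlock (C : Coo n ι) (k : Fin n) : Finset ι :=
  Finset.univ.image (fun p : Fin n × Bool => C.co k p.1 p.2)

omit [Fintype ι] in
theorem sbrow_Mof_mix_row_ne (A : Matrix (Fin n) (Fin n) ℂ) (C : Coo n ι) (γ : ℝ) (g h : ι → ℝ)
    {k i : Fin n} (hik : i ≠ k) (j : Fin n) :
    Mof A γ C (mix (sbrowBlock C k) g h) i j = Mof A γ C g i j := by
  have hm : ∀ b, mix (sbrowBlock C k) g h (C.co i j b) = g (C.co i j b) := by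
    intro b
    unfold mix
    rw [if_neg]
    intro hmem
    unfold sbrowBlock at hmem
    rw [Finset.mem_image] at hmem
    obtain ⟨p, -, hp⟩ := hmem
    exact hik ((C.inj _ _ _ _ _ _ hp).1).symm
  unfold Mof
  rw [hm, hm]

omit [Fintype ι] in
theorem sbrow_Mof_mix_row_eq (A : Matrix (Fin n) (Fin n) ℂ) (C : Coo n ι) (γ : ℝ) (g h : ι → ℝ)
    (k j : Fin n) :
    Mof A γ C (mix (sbrowBlock C k) g h) k j = A k j + γ * Gc C h k j := by
  have hm : ∀ b, mix (sbrowBlock C k) g h (C.co k j b) = h (C.co k j b) := by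
    intro b
    unfold mix
    rw [if_pos]
    unfold sbrowBlock
    rw [Finset.mem_image]
    exact ⟨(j, b), Finset.mem_univ _, rfl⟩
  unfold Mof Gc
  rw [hm, hm]

/-- normalization -/
theorem sbrow_exists_normalized (hn : 1 ≤ n) {w : Fin n → ℂ} (hw : w ≠ 0) :
    ∃ c : ℂ, nv (c • w) = 1 ∧ ∃ p, 1 / Real.sqrt n ≤ ‖(c • w) p‖ := by
  have hpos := nv_pos hw
  have h1 : nv ((((nv w)⁻¹ : ℝ) : ℂ) • w) = 1 := by
    rw [nv_smul, Complex.norm_real, Real.norm_eq_abs, abs_of_pos (inv_pos.mpr hpos),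
      inv_mul_cancel₀ hpos.ne']
  refine ⟨(((nv w)⁻¹ : ℝ) : ℂ), h1, ?_⟩
  obtain ⟨p, hp⟩ := exists_large_coord hn ((((nv w)⁻¹ : ℝ) : ℂ) • w)
  rw [h1] at hp
  refine ⟨p, ?_⟩
  have hs : 0 < Real.sqrt n := Real.sqrt_pos.mpr (by exact_mod_cast hn)
  rw [div_le_iff₀ hs]
  linarith

theorem sbrow_aux (hn : 1 ≤ n) (A : Matrix (Fin n) (Fin n) ℂ) (C : Coo n ι) {γ a : ℝ} (hγ : 0 < γ)
    (ha : 0 ≤ a) (z : ℂ) (k : Fin n) (hk : (k : ℕ) ≠ 0) (g : ι → ℝ) :
    PP ι {h | ∃ x ∈ sbrowK n k, nv (x ᵥ* (z • (1 : Matrix (Fin n) (Fin n) ℂ) -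
      Mof A γ C (mix (sbrowBlock C k) g h))) ≤ a} ≤ ENNReal.ofReal ((2 * a * n / γ) ^ 4) := by
  set z0 : Fin n := ⟨0, by omega⟩ with hz0
  have hk0 : k ≠ z0 := by
    intro h
    rw [h] at hk
    exact hk rfl
  set T : Matrix (Fin n) (Fin n) ℂ := z • (1 : Matrix (Fin n) (Fin n) ℂ) - Mof A γ C g with hT
  have hs : 0 < Real.sqrt n := Real.sqrt_pos.mpr (by exact_mod_cast hn)
  -- kernel vectors
  have ker : ∀ c : Fin n → ℂ, ∃ w : Fin n → ℂ, w ≠ 0 ∧ c ⬝ᵥ w = 0 ∧
      ∀ i, i ≠ k → i ≠ z0 → T i ⬝ᵥ w = 0 := by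
    intro c
    set N : Matrix (Fin n) (Fin n) ℂ := fun i => if i = k then 0 else if i = z0 then c else T i
      with hN
    have hdet : N.det = 0 := Matrix.det_eq_zero_of_row_eq_zero k (fun j => by
      rw [hN]
      simp)
    obtain ⟨w, hw0, hw⟩ := Matrix.exists_mulVec_eq_zero_iff.mpr hdet
    refine ⟨w, hw0, ?_, ?_⟩
    · have h1 : N z0 ⬝ᵥ w = 0 := congrFun hw z0
      have h2 : N z0 = c := by
        rw [hN]
        simp [Ne.symm hk0]
      rwa [h2] at h1
    · intro i hik hi0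
      have h1 : N i ⬝ᵥ w = 0 := congrFun hw i
      have h2 : N i = T i := by
        rw [hN]
        simp [hik, hi0]
      rwa [h2] at h1
  obtain ⟨w1, hw10, -, hw1⟩ := ker 0
  obtain ⟨c1, hc1, p, hp⟩ := sbrow_exists_normalized hn hw10
  obtain ⟨w2, hw20, hw2p, hw2⟩ := ker (Pi.single p 1)
  obtain ⟨c2, hc2, q, hq⟩ := sbrow_exists_normalized hn hw20
  have hw2p' : (c2 • w2) p = 0 := by
    rw [single_dotProduct, one_mul] at hw2p
    rw [Pi.smul_apply, hw2p, smul_zero]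
  have hpq : p ≠ q := by
    intro h
    rw [← h, hw2p', norm_zero] at hq
    have : 0 < 1 / Real.sqrt n := by positivity
    linarith
  -- the main estimate
  have main : ∀ w : Fin n → ℂ, nv w = 1 → (∀ i, i ≠ k → i ≠ z0 → T i ⬝ᵥ w = 0) →
      ∀ h ∈ {h | ∃ x ∈ sbrowK n k, nv (x ᵥ* (z • (1 : Matrix (Fin n) (Fin n) ℂ) -
        Mof A γ C (mix (sbrowBlock C k) g h))) ≤ a},
      ‖-(z * w k - ∑ j, A k j * w j) + γ * ∑ j, Gc C h k j * w j‖ ≤ a * Real.sqrt n := by
    rintro w hw hker h ⟨x, ⟨hx1, hx0, hxk⟩, hxa⟩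
    set T' : Matrix (Fin n) (Fin n) ℂ := z • (1 : Matrix (Fin n) (Fin n) ℂ) -
        Mof A γ C (mix (sbrowBlock C k) g h) with hT'
    have hrow : ∀ i, i ≠ k → T' i = T i := by
      intro i hik
      funext j
      rw [hT', hT, Matrix.sub_apply, Matrix.sub_apply, sbrow_Mof_mix_row_ne A C γ g h hik]
    have e1 : (x ᵥ* T') ⬝ᵥ w = x k * (T' k ⬝ᵥ w) := by
      rw [← Matrix.dotProduct_mulVec]
      show ∑ i, x i * (T' *ᵥ w) i = _
      rw [Finset.sum_eq_single k]
      · rfl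
      · intro i _ hik
        by_cases hi0 : i = z0
        · rw [hx0 i (by rw [hi0]), zero_mul]
        · have : (T' *ᵥ w) i = 0 := by
            show T' i ⬝ᵥ w = 0
            rw [hrow i hik]
            exact hker i hik hi0
          rw [this, mul_zero]
      · intro h'
        exact absurd (Finset.mem_univ _) h'
    have e2 : ‖x k‖ * ‖T' k ⬝ᵥ w‖ ≤ a := by
      rw [← norm_mul, ← e1]
      refine (norm_dotProduct_le _ _).trans ?_
      rw [hw, mul_one]
      exact hxa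
    have e3 : ‖T' k ⬝ᵥ w‖ ≤ a * Real.sqrt n := by
      have h1 : ‖T' k ⬝ᵥ w‖ ≤ (Real.sqrt n * ‖x k‖) * ‖T' k ⬝ᵥ w‖ := by
        have := norm_nonneg (T' k ⬝ᵥ w)
        nlinarith
      have h2 : Real.sqrt n * (‖x k‖ * ‖T' k ⬝ᵥ w‖) ≤ Real.sqrt n * a := by gcongr
      nlinarith
    have e4 : -(z * w k - ∑ j, A k j * w j) + γ * ∑ j, Gc C h k j * w j = -(T' k ⬝ᵥ w) := by
      have e5 : T' k ⬝ᵥ w = ∑ j, ((z • (1 : Matrix (Fin n) (Fin n) ℂ)) k j * w j -
          (A k j * w j + γ * (Gc C h k j * w j))) := by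
        show ∑ j, T' k j * w j = _
        refine Finset.sum_congr rfl (fun j _ => ?_)
        rw [hT', Matrix.sub_apply, sbrow_Mof_mix_row_eq]
        ring
      rw [e5, Finset.sum_sub_distrib, Finset.sum_add_distrib, ← Finset.mul_sum]
      have e6 : ∑ j, (z • (1 : Matrix (Fin n) (Fin n) ℂ)) k j * w j = z * w k := by
        rw [Finset.sum_eq_single k]
        · simp
        · intro j _ hjk
          simp [Ne.symm hjk]
        · intro h'
          exact absurd (Finset.mem_univ _) h'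
      rw [e6]
      ring
    rw [e4, norm_neg]
    exact e3
  have hk1 : ∀ (c : ℂ) (w : Fin n → ℂ), (∀ i, i ≠ k → i ≠ z0 → T i ⬝ᵥ w = 0) →
      ∀ i, i ≠ k → i ≠ z0 → T i ⬝ᵥ (c • w) = 0 := by
    intro c w hw i h1 h2
    rw [dotProduct_smul, hw i h1 h2, smul_zero]
  have hfin := sb_row C hγ (mul_nonneg ha hs.le) (one_div_pos.mpr hs) k p q hpq _ _ (c1 • w1)
    (c2 • w2) hp hq hw2p' (main (c1 • w1) hc1 (hk1 c1 w1 hw1)) (main (c2 • w2) hc2 (hk1 c2 w2 hw2))
  refine hfin.trans (le_of_eq ?_)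
  congr 2
  have hsq : Real.sqrt n * Real.sqrt n = n := Real.mul_self_sqrt (by positivity)
  have hg := hγ.ne'
  have hs' := hs.ne'
  field_simp
  nlinarith [hsq]

theorem sbrow (hn : 1 ≤ n) (A : Matrix (Fin n) (Fin n) ℂ) (C : Coo n ι) {γ a : ℝ} (hγ : 0 < γ) (ha : 0 ≤ a)
    (z : ℂ) :
    PP ι {g | ∃ x : Fin n → ℂ, nv x = 1 ∧ (∀ i : Fin n, (i : ℕ) = 0 → x i = 0) ∧
      nv (x ᵥ* (z • (1 : Matrix (Fin n) (Fin n) ℂ) - Mof A γ C g)) ≤ a} ≤
    ENNReal.ofReal (n * (2 * a * n / γ) ^ 4) := by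
  have hs : 0 < Real.sqrt n := Real.sqrt_pos.mpr (by exact_mod_cast hn)
  have hcont : Continuous fun p : (ι → ℝ) × (Fin n → ℂ) =>
      nv (p.2 ᵥ* (z • (1 : Matrix (Fin n) (Fin n) ℂ) - Mof A γ C p.1)) := by
    refine sbrow_continuous_nv.comp (continuous_pi fun j => ?_)
    show Continuous fun p : (ι → ℝ) × (Fin n → ℂ) =>
      ∑ i, p.2 i * ((z • (1 : Matrix (Fin n) (Fin n) ℂ)) i j - Mof A γ C p.1 i j)
    refine continuous_finsetSum _ fun i _ => ?_
    refine Continuous.mul (by fun_prop) (Continuous.sub continuous_const ?_)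
    exact (sbrow_continuous_Mof A C γ i j).comp continuous_fst
  set Bk : Fin n → Set (ι → ℝ) := fun k =>
    {g | ∃ x ∈ sbrowK n k, nv (x ᵥ* (z • (1 : Matrix (Fin n) (Fin n) ℂ) - Mof A γ C g)) ≤ a} with hBk
  have hclosed : ∀ k, IsClosed (Bk k) := fun k =>
    sbrow_isClosed_exists_le (sbrow_isCompact_sbK k) hcont a
  have hbound : ∀ k, PP ι (Bk k) ≤ ENNReal.ofReal ((2 * a * n / γ) ^ 4) := by
    intro k
    by_cases hk : (k : ℕ) = 0
    · have : Bk k = ∅ := by
        rw [Set.eq_empty_iff_forall_notMem]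
        rintro g ⟨x, ⟨-, h0, h1⟩, -⟩
        rw [h0 k hk, norm_zero, mul_zero] at h1
        linarith
      rw [this, measure_empty]
      exact zero_le
    · exact pisec' (sbrowBlock C k) (hclosed k).measurableSet
        (fun g => sbrow_aux hn A C hγ ha z k hk g)
  have hsub : {g | ∃ x : Fin n → ℂ, nv x = 1 ∧ (∀ i : Fin n, (i : ℕ) = 0 → x i = 0) ∧
      nv (x ᵥ* (z • (1 : Matrix (Fin n) (Fin n) ℂ) - Mof A γ C g)) ≤ a} ⊆ ⋃ k, Bk k := by
    rintro g ⟨x, hx1, hx0, hxa⟩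
    obtain ⟨k, hk⟩ := exists_large_coord hn x
    rw [Set.mem_iUnion]
    exact ⟨k, x, ⟨hx1, hx0, by rw [← hx1]; exact hk⟩, hxa⟩
  calc _ ≤ PP ι (⋃ k, Bk k) := measure_mono hsub
    _ ≤ ∑ k, PP ι (Bk k) := measure_iUnion_fintype_le _ _
    _ ≤ ∑ _k : Fin n, ENNReal.ofReal ((2 * a * n / γ) ^ 4) := Finset.sum_le_sum fun k _ => hbound k
    _ = ENNReal.ofReal (n * (2 * a * n / γ) ^ 4) := by
      rw [Finset.sum_const, Finset.card_univ, Fintype.card_fin, nsmul_eq_mul,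
        ENNReal.ofReal_mul (Nat.cast_nonneg _), ENNReal.ofReal_natCast]

end H6LP

end S_SBROW

section S_SBCOL

set_option autoImplicit false

open Complex Matrix MeasureTheory

namespace H6LP

variable {ι : Type} [Fintype ι] [DecidableEq ι] {n : ℕ}

/-- the compact set of the normalized vectors with large coordinate `k` -/
def sbcolK (n : ℕ) (k : Fin n) : Set (Fin n → ℂ) :=
  {x | nv x = 1 ∧ 1 ≤ Real.sqrt n * ‖x k‖}

theorem sbcol_isCompact (k : Fin n) : IsCompact (sbcolK n k) := by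
  refine sbrow_isCompact_of_nv_eq_one ?_ (fun x hx => hx.1)
  have h3 : IsClosed {x : Fin n → ℂ | 1 ≤ Real.sqrt n * ‖x k‖} :=
    isClosed_le continuous_const (continuous_const.mul (continuous_apply k).norm)
  exact (isClosed_eq sbrow_continuous_nv continuous_const).inter h3

/-- the block of the coordinates of the column `k` -/
def sbcolBlock (C : Coo n ι) (k : Fin n) : Finset ι :=
  Finset.univ.image (fun p : Fin n × Bool => C.co p.1 k p.2)

omit [Fintype ι] in
theorem sbcol_Mof_mix_ne (A : Matrix (Fin n) (Fin n) ℂ) (C : Coo n ι) (γ : ℝ) (g h : ι → ℝ)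
    {k j : Fin n} (hjk : j ≠ k) (i : Fin n) :
    Mof A γ C (mix (sbcolBlock C k) g h) i j = Mof A γ C g i j := by
  have hm : ∀ b, mix (sbcolBlock C k) g h (C.co i j b) = g (C.co i j b) := by
    intro b
    unfold mix
    rw [if_neg]
    intro hmem
    unfold sbcolBlock at hmem
    rw [Finset.mem_image] at hmem
    obtain ⟨p, -, hp⟩ := hmem
    exact hjk ((C.inj _ _ _ _ _ _ hp).2.1).symm
  unfold Mof
  rw [hm, hm]

omit [Fintype ι] in
theorem sbcol_Mof_mix_eq (A : Matrix (Fin n) (Fin n) ℂ) (C : Coo n ι) (γ : ℝ) (g h : ι → ℝ)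
    (k i : Fin n) :
    Mof A γ C (mix (sbcolBlock C k) g h) i k = A i k + γ * Gc C h i k := by
  have hm : ∀ b, mix (sbcolBlock C k) g h (C.co i k b) = h (C.co i k b) := by
    intro b
    unfold mix
    rw [if_pos]
    unfold sbcolBlock
    rw [Finset.mem_image]
    exact ⟨(i, b), Finset.mem_univ _, rfl⟩
  unfold Mof Gc
  rw [hm, hm]

theorem sbcol_aux (hn : 1 ≤ n) (A : Matrix (Fin n) (Fin n) ℂ) (C : Coo n ι) {γ a : ℝ} (hγ : 0 < γ)
    (ha : 0 ≤ a) (z : ℂ) (k : Fin n) (g : ι → ℝ) :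
    PP ι {h | ∃ x ∈ sbcolK n k, nv ((z • (1 : Matrix (Fin n) (Fin n) ℂ) -
      Mof A γ C (mix (sbcolBlock C k) g h)) *ᵥ x) ≤ a} ≤ ENNReal.ofReal ((2 * a * n / γ) ^ 2) := by
  set T : Matrix (Fin n) (Fin n) ℂ := z • (1 : Matrix (Fin n) (Fin n) ℂ) - Mof A γ C g with hT
  have hs : 0 < Real.sqrt n := Real.sqrt_pos.mpr (by exact_mod_cast hn)
  -- kernel vector
  obtain ⟨w, hw0, hw⟩ : ∃ w : Fin n → ℂ, w ≠ 0 ∧ ∀ j, j ≠ k → w ⬝ᵥ (fun i => T i j) = 0 := by
    set N : Matrix (Fin n) (Fin n) ℂ := fun i j => if j = k then 0 else T i j with hN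
    have hdet : N.det = 0 := Matrix.det_eq_zero_of_column_eq_zero k (fun j => by
      rw [hN]
      simp)
    obtain ⟨w, hw0, hw⟩ := Matrix.exists_vecMul_eq_zero_iff.mpr hdet
    refine ⟨w, hw0, ?_⟩
    intro j hjk
    have h1 : w ⬝ᵥ (fun i => N i j) = 0 := congrFun hw j
    have h2 : (fun i => N i j) = fun i => T i j := by
      rw [hN]
      simp [hjk]
    rwa [h2] at h1
  obtain ⟨c, hc, p, hp⟩ := sbrow_exists_normalized hn hw0
  set w' := c • w with hw'
  have hker : ∀ j, j ≠ k → w' ⬝ᵥ (fun i => T i j) = 0 := by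
    intro j hj
    rw [hw', smul_dotProduct, hw j hj, smul_zero]
  -- the main estimate
  have main : ∀ h ∈ {h | ∃ x ∈ sbcolK n k, nv ((z • (1 : Matrix (Fin n) (Fin n) ℂ) -
        Mof A γ C (mix (sbcolBlock C k) g h)) *ᵥ x) ≤ a},
      ‖-(z * w' k - ∑ i, A i k * w' i) + γ * ∑ i, Gc C h i k * w' i‖ ≤ a * Real.sqrt n := by
    rintro h ⟨x, ⟨hx1, hxk⟩, hxa⟩
    set T' : Matrix (Fin n) (Fin n) ℂ := z • (1 : Matrix (Fin n) (Fin n) ℂ) -
        Mof A γ C (mix (sbcolBlock C k) g h) with hT'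
    have hcol : ∀ j, j ≠ k → (fun i => T' i j) = fun i => T i j := by
      intro j hjk
      funext i
      rw [hT', hT, Matrix.sub_apply, Matrix.sub_apply, sbcol_Mof_mix_ne A C γ g h hjk]
    have e1 : w' ⬝ᵥ (T' *ᵥ x) = (w' ⬝ᵥ (fun i => T' i k)) * x k := by
      rw [Matrix.dotProduct_mulVec]
      show ∑ j, (w' ᵥ* T') j * x j = _
      rw [Finset.sum_eq_single k]
      · rfl
      · intro j _ hjk
        have : (w' ᵥ* T') j = 0 := by
          show w' ⬝ᵥ (fun i => T' i j) = 0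
          rw [hcol j hjk]
          exact hker j hjk
        rw [this, zero_mul]
      · intro h'
        exact absurd (Finset.mem_univ _) h'
    have e2 : ‖w' ⬝ᵥ (fun i => T' i k)‖ * ‖x k‖ ≤ a := by
      rw [← norm_mul, ← e1]
      refine (norm_dotProduct_le _ _).trans ?_
      rw [hc, one_mul]
      exact hxa
    have e3 : ‖w' ⬝ᵥ (fun i => T' i k)‖ ≤ a * Real.sqrt n := by
      have h1 : ‖w' ⬝ᵥ (fun i => T' i k)‖ ≤
          (Real.sqrt n * ‖x k‖) * ‖w' ⬝ᵥ (fun i => T' i k)‖ := by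
        have := norm_nonneg (w' ⬝ᵥ (fun i => T' i k))
        nlinarith
      have h2 : Real.sqrt n * (‖w' ⬝ᵥ (fun i => T' i k)‖ * ‖x k‖) ≤ Real.sqrt n * a := by gcongr
      nlinarith
    have e4 : -(z * w' k - ∑ i, A i k * w' i) + γ * ∑ i, Gc C h i k * w' i =
        -(w' ⬝ᵥ (fun i => T' i k)) := by
      have e5 : w' ⬝ᵥ (fun i => T' i k) = ∑ i, ((z • (1 : Matrix (Fin n) (Fin n) ℂ)) i k * w' i -
          (A i k * w' i + γ * (Gc C h i k * w' i))) := by
        show ∑ i, w' i * T' i k = _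
        refine Finset.sum_congr rfl (fun i _ => ?_)
        rw [hT', Matrix.sub_apply, sbcol_Mof_mix_eq]
        ring
      rw [e5, Finset.sum_sub_distrib, Finset.sum_add_distrib, ← Finset.mul_sum]
      have e6 : ∑ i, (z • (1 : Matrix (Fin n) (Fin n) ℂ)) i k * w' i = z * w' k := by
        rw [Finset.sum_eq_single k]
        · simp
        · intro j _ hjk
          simp [hjk]
        · intro h'
          exact absurd (Finset.mem_univ _) h'
      rw [e6]
      ring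
    rw [e4, norm_neg]
    exact e3
  have hfin := sb_col C hγ (mul_nonneg ha hs.le) (one_div_pos.mpr hs) k p _ w' hp main
  refine hfin.trans (le_of_eq ?_)
  congr 2
  have hsq : Real.sqrt n * Real.sqrt n = n := Real.mul_self_sqrt (by positivity)
  have hg := hγ.ne'
  have hs' := hs.ne'
  field_simp
  nlinarith [hsq]

theorem sbcol (hn : 1 ≤ n) (A : Matrix (Fin n) (Fin n) ℂ) (C : Coo n ι) {γ a : ℝ} (hγ : 0 < γ) (ha : 0 ≤ a)
    (z : ℂ) :
    PP ι {g | ∃ x : Fin n → ℂ, nv x = 1 ∧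
      nv ((z • (1 : Matrix (Fin n) (Fin n) ℂ) - Mof A γ C g) *ᵥ x) ≤ a} ≤
    ENNReal.ofReal (n * (2 * a * n / γ) ^ 2) := by
  have hcont : Continuous fun p : (ι → ℝ) × (Fin n → ℂ) =>
      nv ((z • (1 : Matrix (Fin n) (Fin n) ℂ) - Mof A γ C p.1) *ᵥ p.2) := by
    refine sbrow_continuous_nv.comp (continuous_pi fun i => ?_)
    show Continuous fun p : (ι → ℝ) × (Fin n → ℂ) =>
      ∑ j, ((z • (1 : Matrix (Fin n) (Fin n) ℂ)) i j - Mof A γ C p.1 i j) * p.2 j
    refine continuous_finsetSum _ fun j _ => ?_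
    refine Continuous.mul (Continuous.sub continuous_const ?_) (by fun_prop)
    exact (sbrow_continuous_Mof A C γ i j).comp continuous_fst
  set Bk : Fin n → Set (ι → ℝ) := fun k =>
    {g | ∃ x ∈ sbcolK n k, nv ((z • (1 : Matrix (Fin n) (Fin n) ℂ) - Mof A γ C g) *ᵥ x) ≤ a} with hBk
  have hclosed : ∀ k, IsClosed (Bk k) := fun k =>
    sbrow_isClosed_exists_le (sbcol_isCompact k) hcont a
  have hbound : ∀ k, PP ι (Bk k) ≤ ENNReal.ofReal ((2 * a * n / γ) ^ 2) := fun k =>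
    pisec' (sbcolBlock C k) (hclosed k).measurableSet (fun g => sbcol_aux hn A C hγ ha z k g)
  have hsub : {g | ∃ x : Fin n → ℂ, nv x = 1 ∧
      nv ((z • (1 : Matrix (Fin n) (Fin n) ℂ) - Mof A γ C g) *ᵥ x) ≤ a} ⊆ ⋃ k, Bk k := by
    rintro g ⟨x, hx1, hxa⟩
    obtain ⟨k, hk⟩ := exists_large_coord hn x
    rw [Set.mem_iUnion]
    exact ⟨k, x, ⟨hx1, by rw [← hx1]; exact hk⟩, hxa⟩
  calc _ ≤ PP ι (⋃ k, Bk k) := measure_mono hsub
    _ ≤ ∑ k, PP ι (Bk k) := measure_iUnion_fintype_le _ _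
    _ ≤ ∑ _k : Fin n, ENNReal.ofReal ((2 * a * n / γ) ^ 2) := Finset.sum_le_sum fun k _ => hbound k
    _ = ENNReal.ofReal (n * (2 * a * n / γ) ^ 2) := by
      rw [Finset.sum_const, Finset.card_univ, Fintype.card_fin, nsmul_eq_mul,
        ENNReal.ofReal_mul (Nat.cast_nonneg _), ENNReal.ofReal_natCast]

end H6LP

end S_SBCOL

section S_EV

set_option autoImplicit false

open Complex Matrix MeasureTheory

namespace H6LP

variable {ι : Type} [Fintype ι] [DecidableEq ι] {n : ℕ}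

theorem ev_cont_Mof (A : Matrix (Fin n) (Fin n) ℂ) (C : Coo n ι) (γ : ℝ) (z : ℂ) (i j : Fin n) :
    Continuous fun g : ι → ℝ => (z • (1 : Matrix (Fin n) (Fin n) ℂ) - Mof A γ C g) i j := by
  simp only [Mof, Matrix.sub_apply]
  fun_prop

theorem ev_cont_nv {X : Type} [TopologicalSpace X] {f : X → Fin n → ℂ}
    (hf : ∀ i, Continuous fun x => f x i) : Continuous fun x => nv (f x) := by
  unfold nv
  refine Continuous.sqrt ?_
  exact continuous_finsetSum _ fun i _ => ((hf i).norm).pow 2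

theorem ev_cont_row (A : Matrix (Fin n) (Fin n) ℂ) (C : Coo n ι) (γ : ℝ) (z : ℂ) (x : Fin n → ℂ) :
    Continuous fun g : ι → ℝ => nv (x ᵥ* (z • (1 : Matrix (Fin n) (Fin n) ℂ) - Mof A γ C g)) := by
  refine ev_cont_nv fun j => ?_
  simp only [Matrix.vecMul, dotProduct]
  exact continuous_finsetSum _ fun i _ => continuous_const.mul (ev_cont_Mof A C γ z i j)

theorem ev_cont_col (A : Matrix (Fin n) (Fin n) ℂ) (C : Coo n ι) (γ : ℝ) (z : ℂ) (x : Fin n → ℂ) :
    Continuous fun g : ι → ℝ => nv ((z • (1 : Matrix (Fin n) (Fin n) ℂ) - Mof A γ C g) *ᵥ x) := by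
  refine ev_cont_nv fun i => ?_
  simp only [Matrix.mulVec, dotProduct]
  exact continuous_finsetSum _ fun j _ => (ev_cont_Mof A C γ z i j).mul continuous_const

theorem measurableSet_rowLB (A : Matrix (Fin n) (Fin n) ℂ) (C : Coo n ι) (γ s : ℝ) :
    MeasurableSet {g : ι → ℝ | RowLB (Mof A γ C g) s} := by
  apply IsClosed.measurableSet
  have : {g : ι → ℝ | RowLB (Mof A γ C g) s} =
      ⋂ z : ℂ, ⋂ _ : ‖z‖ ≤ 4, ⋂ x : Fin n → ℂ, ⋂ _ : ∀ i : Fin n, (i : ℕ) = 0 → x i = 0,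
        {g : ι → ℝ | s * nv x ≤ nv (x ᵥ* (z • (1 : Matrix (Fin n) (Fin n) ℂ) - Mof A γ C g))} := by
    ext g
    simp only [RowLB, Set.mem_iInter, Set.mem_ofPred_eq]
  rw [this]
  refine isClosed_iInter fun z => isClosed_iInter fun _ => isClosed_iInter fun x =>
    isClosed_iInter fun _ => ?_
  exact isClosed_le continuous_const (ev_cont_row A C γ z x)

theorem measurableSet_colLB (A : Matrix (Fin n) (Fin n) ℂ) (C : Coo n ι) (γ h t : ℝ) :
    MeasurableSet {g : ι → ℝ | ColLB (Mof A γ C g) h t} := by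
  apply IsClosed.measurableSet
  have : {g : ι → ℝ | ColLB (Mof A γ C g) h t} =
      ⋂ a : ℤ, ⋂ b : ℤ, ⋂ _ : |h * a| ≤ 4, ⋂ _ : |h * b| ≤ 4, ⋂ x : Fin n → ℂ,
        {g : ι → ℝ | t * nv x ≤
          nv ((grd h a b • (1 : Matrix (Fin n) (Fin n) ℂ) - Mof A γ C g) *ᵥ x)} := by
    ext g
    simp only [ColLB, ColAt, Set.mem_iInter, Set.mem_ofPred_eq]
  rw [this]
  refine isClosed_iInter fun a => isClosed_iInter fun b => isClosed_iInter fun _ =>
    isClosed_iInter fun _ => isClosed_iInter fun x => ?_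
  exact isClosed_le continuous_const (ev_cont_col A C γ _ x)

/-- the union bound over a square of grid points -/
theorem ev_union {N : ℤ} (hN : 0 ≤ N) {c q : ℝ} (hc : ((2 * N + 1 : ℤ) : ℝ) ≤ c)
    {E : Set (ι → ℝ)} {B : ℤ → ℤ → Set (ι → ℝ)} (hE : ∀ g ∈ E, ∃ a b : ℤ, |a| ≤ N ∧ |b| ≤ N ∧ g ∈ B a b)
    (hB : ∀ a b, PP ι (B a b) ≤ ENNReal.ofReal q) (hq : 0 ≤ q) :
    PP ι E ≤ ENNReal.ofReal (c ^ 2 * q) := by
  have h1 : E ⊆ ⋃ p ∈ (Finset.Icc (-N) N ×ˢ Finset.Icc (-N) N), B p.1 p.2 := by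
    intro g hg
    obtain ⟨a, b, ha, hb, hgB⟩ := hE g hg
    rw [abs_le] at ha hb
    simp only [Set.mem_iUnion]
    refine ⟨(a, b), ?_, hgB⟩
    rw [Finset.mem_product, Finset.mem_Icc, Finset.mem_Icc]
    exact ⟨ha, hb⟩
  have hcard : ((Finset.Icc (-N) N ×ˢ Finset.Icc (-N) N).card : ℝ) = ((2 * N + 1 : ℤ) : ℝ) ^ 2 := by
    rw [Finset.card_product, Int.card_Icc]
    have h2 : ((N + 1 - -N).toNat : ℤ) = 2 * N + 1 := by omega
    have h3 : ((N + 1 - -N).toNat : ℝ) = ((2 * N + 1 : ℤ) : ℝ) := by exact_mod_cast h2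
    push_cast
    rw [h3]
    push_cast
    ring
  calc PP ι E ≤ PP ι (⋃ p ∈ (Finset.Icc (-N) N ×ˢ Finset.Icc (-N) N), B p.1 p.2) :=
        measure_mono h1
    _ ≤ ∑ p ∈ (Finset.Icc (-N) N ×ˢ Finset.Icc (-N) N), PP ι (B p.1 p.2) :=
        measure_biUnion_finset_le _ _
    _ ≤ ∑ _p ∈ (Finset.Icc (-N) N ×ˢ Finset.Icc (-N) N), ENNReal.ofReal q :=
        Finset.sum_le_sum fun p _ => hB p.1 p.2
    _ = ENNReal.ofReal (((Finset.Icc (-N) N ×ˢ Finset.Icc (-N) N).card : ℝ) * q) := by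
        rw [Finset.sum_const, nsmul_eq_mul, ENNReal.ofReal_mul (by positivity),
          ENNReal.ofReal_natCast]
    _ ≤ ENNReal.ofReal (c ^ 2 * q) := by
        apply ENNReal.ofReal_le_ofReal
        apply mul_le_mul_of_nonneg_right _ hq
        rw [hcard]
        apply pow_le_pow_left₀ _ hc
        have : (0 : ℤ) ≤ 2 * N + 1 := by omega
        exact_mod_cast this

theorem ev_row (hn : 1 ≤ n) (A : Matrix (Fin n) (Fin n) ℂ) (C : Coo n ι) {γ s : ℝ} (hγ : 0 < γ) (hs : 0 < s)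
    (hs1 : s ≤ 1) :
    PP ι {g | ¬ RowLB (Mof A γ C g) (2 * s)} ≤
      ENNReal.ofReal ((11 / s) ^ 2 * (n * (2 * (3 * s) * n / γ) ^ 4)) := by
  have hN : (0 : ℤ) ≤ ⌊4 / s + 1 / 2⌋ := Int.floor_nonneg.mpr (by positivity)
  refine ev_union (N := ⌊4 / s + 1 / 2⌋) hN ?_
    (B := fun a b => {g | ∃ x : Fin n → ℂ, nv x = 1 ∧ (∀ i : Fin n, (i : ℕ) = 0 → x i = 0) ∧
      nv (x ᵥ* (grd s a b • (1 : Matrix (Fin n) (Fin n) ℂ) - Mof A γ C g)) ≤ 3 * s}) ?_
    (fun a b => sbrow hn A C hγ (by positivity) (grd s a b)) (by positivity)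
  · have h1 := Int.floor_le (4 / s + 1 / 2)
    push_cast
    have h2 : (1 : ℝ) ≤ 1 / s := by rw [le_div_iff₀ hs]; linarith
    have h3 : 4 / s = 4 * (1 / s) := by ring
    have h4 : 11 / s = 11 * (1 / s) := by ring
    rw [h3] at h1
    rw [h3, h4]
    linarith
  · intro g hg
    simp only [Set.mem_ofPred_eq, RowLB, not_forall, not_le] at hg
    obtain ⟨z, hz, x, hx0, hlt⟩ := hg
    have hxpos : 0 < nv x := by
      rcases (nv_nonneg x).lt_or_eq with h | h
      · exact h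
      · exfalso
        rw [← h, mul_zero] at hlt
        have hx : x = 0 := nv_eq_zero.mp h.symm
        rw [hx, Matrix.zero_vecMul, nv_zero] at hlt
        exact lt_irrefl _ hlt
    set y : Fin n → ℂ := ((1 / nv x : ℝ) : ℂ) • x with hy
    have hny : nv y = 1 := by
      rw [hy, nv_smul, Complex.norm_real, Real.norm_of_nonneg (by positivity)]
      field_simp
    have hy0 : ∀ i : Fin n, (i : ℕ) = 0 → y i = 0 := by
      intro i hi
      rw [hy, Pi.smul_apply, hx0 i hi, smul_zero]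
    have hylt : nv (y ᵥ* (z • (1 : Matrix (Fin n) (Fin n) ℂ) - Mof A γ C g)) ≤ 2 * s := by
      rw [hy, Matrix.smul_vecMul, nv_smul, Complex.norm_real,
        Real.norm_of_nonneg (by positivity : (0 : ℝ) ≤ 1 / nv x)]
      rw [div_mul_eq_mul_div, one_mul, div_le_iff₀ hxpos]
      exact hlt.le
    -- the grid point
    set a : ℤ := round (z.re / s) with ha
    set b : ℤ := round (z.im / s) with hb
    have hre : |z.re| ≤ 4 := (Complex.abs_re_le_norm z).trans hz
    have him : |z.im| ≤ 4 := (Complex.abs_im_le_norm z).trans hz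
    have key : ∀ r : ℝ, |r| ≤ 4 → |round (r / s)| ≤ ⌊4 / s + 1 / 2⌋ := by
      intro r hr
      rw [Int.le_floor]
      have h1 := abs_sub_round (r / s)
      have h2 : |r / s| ≤ 4 / s := by
        rw [abs_div, abs_of_pos hs]
        exact div_le_div_of_nonneg_right hr hs.le
      have h3 : |((round (r / s) : ℤ) : ℝ)| ≤ 4 / s + 1 / 2 := by
        have h4 : ((round (r / s) : ℤ) : ℝ) = r / s - (r / s - round (r / s)) := by ring
        rw [h4]
        calc _ ≤ |r / s| + |r / s - round (r / s)| := abs_sub _ _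
          _ ≤ _ := add_le_add h2 h1
      rw [← Int.cast_abs] at h3
      exact h3
    have hdist : ∀ r : ℝ, |r - s * round (r / s)| ≤ s / 2 := by
      intro r
      have h1 := abs_sub_round (r / s)
      have h2 : r - s * round (r / s) = s * (r / s - round (r / s)) := by
        field_simp
      rw [h2, abs_mul, abs_of_pos hs]
      calc s * |r / s - round (r / s)| ≤ s * (1 / 2) := mul_le_mul_of_nonneg_left h1 hs.le
        _ = s / 2 := by ring
    refine ⟨a, b, key _ hre, key _ him, y, hny, hy0, ?_⟩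
    have hzz : ‖grd s a b - z‖ ≤ s := by
      have h1 : ‖grd s a b - z‖ ≤ |(grd s a b - z).re| + |(grd s a b - z).im| :=
        Complex.norm_le_abs_re_add_abs_im _
      have h2 : (grd s a b - z).re = -(z.re - s * a) := by
        simp [grd]
      have h3 : (grd s a b - z).im = -(z.im - s * b) := by
        simp [grd]
      rw [h2, h3, abs_neg, abs_neg] at h1
      linarith [hdist z.re, hdist z.im]
    have hsplit : y ᵥ* (grd s a b • (1 : Matrix (Fin n) (Fin n) ℂ) - Mof A γ C g) =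
        y ᵥ* (z • (1 : Matrix (Fin n) (Fin n) ℂ) - Mof A γ C g) + (grd s a b - z) • y := by
      simp only [Matrix.vecMul_sub, Matrix.vecMul_smul, Matrix.vecMul_one]
      module
    calc nv (y ᵥ* (grd s a b • (1 : Matrix (Fin n) (Fin n) ℂ) - Mof A γ C g))
        ≤ nv (y ᵥ* (z • (1 : Matrix (Fin n) (Fin n) ℂ) - Mof A γ C g)) +
            nv ((grd s a b - z) • y) := by rw [hsplit]; exact nv_add_le _ _
      _ ≤ 2 * s + s := by
          refine add_le_add hylt ?_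
          rw [nv_smul, hny, mul_one]
          exact hzz
      _ = 3 * s := by ring

theorem ev_col (hn : 1 ≤ n) (A : Matrix (Fin n) (Fin n) ℂ) (C : Coo n ι) {γ h t : ℝ} (hγ : 0 < γ)
    (hh : 0 < h) (hh1 : h ≤ 1) (ht : 0 < t) :
    PP ι {g | ¬ ColLB (Mof A γ C g) h t} ≤
      ENNReal.ofReal ((9 / h) ^ 2 * (n * (2 * t * n / γ) ^ 2)) := by
  have hN : (0 : ℤ) ≤ ⌊4 / h⌋ := Int.floor_nonneg.mpr (by positivity)
  refine ev_union (N := ⌊4 / h⌋) hN ?_
    (B := fun a b => {g | ∃ x : Fin n → ℂ, nv x = 1 ∧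
      nv ((grd h a b • (1 : Matrix (Fin n) (Fin n) ℂ) - Mof A γ C g) *ᵥ x) ≤ t}) ?_
    (fun a b => sbcol hn A C hγ ht.le (grd h a b)) (by positivity)
  · have h1 := Int.floor_le (4 / h)
    push_cast
    have h2 : (1 : ℝ) ≤ 1 / h := by rw [le_div_iff₀ hh]; linarith
    have h3 : 4 / h = 4 * (1 / h) := by ring
    have h4 : 9 / h = 9 * (1 / h) := by ring
    rw [h3] at h1
    rw [h3, h4]
    linarith
  · intro g hg
    simp only [Set.mem_ofPred_eq, ColLB, ColAt, not_forall, not_le] at hg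
    obtain ⟨a, b, ha, hb, x, hlt⟩ := hg
    have hxpos : 0 < nv x := by
      rcases (nv_nonneg x).lt_or_eq with h | h
      · exact h
      · exfalso
        rw [← h, mul_zero] at hlt
        have hx : x = 0 := nv_eq_zero.mp h.symm
        rw [hx, Matrix.mulVec_zero, nv_zero] at hlt
        exact lt_irrefl _ hlt
    have key : ∀ c : ℤ, |h * c| ≤ 4 → |c| ≤ ⌊4 / h⌋ := by
      intro c hc
      rw [Int.le_floor, Int.cast_abs, le_div_iff₀ hh]
      rw [abs_mul, abs_of_pos hh] at hc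
      linarith
    refine ⟨a, b, key a ha, key b hb, ((1 / nv x : ℝ) : ℂ) • x, ?_, ?_⟩
    · rw [nv_smul, Complex.norm_real, Real.norm_of_nonneg (by positivity)]
      field_simp
    · rw [Matrix.mulVec_smul, nv_smul, Complex.norm_real,
        Real.norm_of_nonneg (by positivity : (0 : ℝ) ≤ 1 / nv x)]
      rw [div_mul_eq_mul_div, one_mul, div_le_iff₀ hxpos]
      exact hlt.le

end H6LP

end S_EV

section S_EVPHI

set_option autoImplicit false

open Complex Matrix MeasureTheory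

namespace H6LP

variable {ι : Type} [Fintype ι] [DecidableEq ι] {n : ℕ}

theorem evphi_cont_dir : Continuous dir := by
  unfold dir
  refine Continuous.div (by fun_prop) (by fun_prop) ?_
  intro t h
  have := congrArg Complex.re h
  simp at this

theorem evphi_closed {Y : Type} [TopologicalSpace Y] (X : Y → Matrix (Fin n) (Fin n) ℂ)
    (hX : ∀ i j, Continuous fun y => X y i j) (φ : Y → ℂ) (hφ : Continuous φ) (l : ℕ) (t : ℝ) :
    IsClosed {y | NodeOK l (X y) (φ y) t} := by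
  have : {y | NodeOK l (X y) (φ y) t} =
      ⋂ j : ℕ, ⋂ _ : j ≤ l + 2, ⋂ a : ℤ, ⋂ b : ℤ, ⋂ _ : |a| ≤ 3 * 2 ^ j, ⋂ _ : |b| ≤ 3 * 2 ^ j,
        ⋂ e : ℕ, ⋂ i : ℕ, ⋂ _ : 2 ^ e ≤ 200000 * n * l, ⋂ _ : i < 2 ^ e, ⋂ m : ℕ,
          ⋂ _ : m = 2 ∨ m = 3, ⋂ x : Fin n → ℂ,
            {y | t * nv x ≤ nv ((nodeZ (grd (rad j) a b) (m * rad j) (φ y) e i •
              (1 : Matrix (Fin n) (Fin n) ℂ) - X y) *ᵥ x)} := by
    ext y
    simp only [NodeOK, ColAt, Set.mem_iInter, Set.mem_ofPred_eq]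
  rw [this]
  refine isClosed_iInter fun j => isClosed_iInter fun _ => isClosed_iInter fun a =>
    isClosed_iInter fun b => isClosed_iInter fun _ => isClosed_iInter fun _ =>
    isClosed_iInter fun e => isClosed_iInter fun i => isClosed_iInter fun _ =>
    isClosed_iInter fun _ => isClosed_iInter fun m => isClosed_iInter fun _ =>
    isClosed_iInter fun x => ?_
  refine isClosed_le continuous_const (ev_cont_nv fun p => ?_)
  simp only [Matrix.mulVec, dotProduct, Matrix.sub_apply, Matrix.smul_apply, smul_eq_mul, nodeZ]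
  refine continuous_finsetSum _ fun q _ => ?_
  have h1 := hX p q
  fun_prop

theorem measurableSet_nodeOK (A : Matrix (Fin n) (Fin n) ℂ) (C : Coo n ι) (γ t : ℝ) (l : ℕ) :
    MeasurableSet {g : ι → ℝ | NodeOK l (Mof A γ C g) (dir (g C.ct)) t} := by
  apply IsClosed.measurableSet
  refine evphi_closed _ (fun i j => ?_) _ ?_ l t
  · simp only [Mof]; fun_prop
  · exact evphi_cont_dir.comp (continuous_apply _)

theorem evphi_norm_omg (e : ℕ) : ‖omg e‖ = 1 := by
  unfold omg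
  have : 2 * (Real.pi : ℂ) * I / 2 ^ e = ((2 * Real.pi / 2 ^ e : ℝ) : ℂ) * I := by
    push_cast; ring
  rw [this, Complex.norm_exp_ofReal_mul_I]

/-- the set of bad directions for one node and one eigenvalue -/
theorem evphi_one {l j e i m : ℕ} (hj : j ≤ l + 2) (hm : m = 2 ∨ m = 3) (c lam : ℂ) {d : ℝ}
    (hd : 0 ≤ d) :
    volume {τ : ℝ | τ ∈ Set.Icc (0 : ℝ) 1 ∧ ‖nodeZ c (m * rad j) (dir τ) e i - lam‖ < d} ≤
      ENNReal.ofReal (d * 2 ^ l) := by
  refine (Real.volume_le_diam _).trans ?_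
  refine Metric.ediam_le ?_
  rintro τ ⟨hτ, h1⟩ τ' ⟨hτ', h2⟩
  rw [edist_dist, Real.dist_eq]
  apply ENNReal.ofReal_le_ofReal
  have hρ : (2 : ℝ) / 2 ^ l ≤ m * rad j := by
    unfold rad
    have hm2 : (2 : ℝ) ≤ m := by rcases hm with rfl | rfl <;> norm_num
    have h3 : (2 : ℝ) ^ j ≤ 2 ^ (l + 2) := pow_le_pow_right₀ (by norm_num) hj
    have h4 : (4 : ℝ) / 2 ^ (l + 2) ≤ 4 / 2 ^ j := by
      apply div_le_div_of_nonneg_left (by norm_num) (by positivity) h3
    have h5 : (4 : ℝ) / 2 ^ (l + 2) = 1 / 2 ^ l := by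
      rw [pow_add]; field_simp; norm_num
    rw [h5] at h4
    calc (2 : ℝ) / 2 ^ l = 2 * (1 / 2 ^ l) := by ring
      _ ≤ m * (4 / 2 ^ j) := mul_le_mul hm2 h4 (by positivity) (by linarith)
  have hρ0 : 0 < m * rad j := lt_of_lt_of_le (by positivity) hρ
  have h6 : nodeZ c (m * rad j) (dir τ) e i - nodeZ c (m * rad j) (dir τ') e i =
      ((m * rad j : ℝ) : ℂ) * (dir τ - dir τ') * omg e ^ i := by
    unfold nodeZ; push_cast; ring
  have h7 : ‖nodeZ c (m * rad j) (dir τ) e i - nodeZ c (m * rad j) (dir τ') e i‖ =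
      m * rad j * ‖dir τ - dir τ'‖ := by
    rw [h6, norm_mul, norm_mul, norm_pow, evphi_norm_omg, one_pow, mul_one, Complex.norm_real,
      Real.norm_of_nonneg hρ0.le]
  have h8 : ‖nodeZ c (m * rad j) (dir τ) e i - nodeZ c (m * rad j) (dir τ') e i‖ ≤ 2 * d := by
    have h9 : nodeZ c (m * rad j) (dir τ) e i - nodeZ c (m * rad j) (dir τ') e i =
      (nodeZ c (m * rad j) (dir τ) e i - lam) - (nodeZ c (m * rad j) (dir τ') e i - lam) := by ring
    rw [h9]
    calc _ ≤ _ := norm_sub_le _ _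
      _ ≤ 2 * d := by linarith
  rw [h7] at h8
  have h10 := dir_sub τ τ' hτ hτ'
  have h11 : (2 / 2 ^ l) * ‖dir τ - dir τ'‖ ≤ 2 * d :=
    (mul_le_mul_of_nonneg_right hρ (norm_nonneg _)).trans h8
  have h12 : ‖dir τ - dir τ'‖ ≤ d * 2 ^ l := by
    have h13 : (2 / 2 ^ l) * ‖dir τ - dir τ'‖ * (2 ^ l / 2) = ‖dir τ - dir τ'‖ := by
      field_simp
    rw [← h13]
    calc (2 / 2 ^ l) * ‖dir τ - dir τ'‖ * (2 ^ l / 2) ≤ 2 * d * (2 ^ l / 2) :=
          mul_le_mul_of_nonneg_right h11 (by positivity)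
      _ = d * 2 ^ l := by ring
  exact h10.trans h12

theorem evphi_two_pow (q : ℕ) (hq : 16 ≤ q) : 6 * q + 8 ≤ 2 ^ q := by
  induction q, hq using Nat.le_induction with
  | base => norm_num
  | succ q hq ih => rw [pow_succ]; omega

/-- the numerical estimate -/
theorem evphi_num {l : ℕ} (hn : 1 ≤ n) (hl : 100 ≤ l) (hnl : (n : ℝ) ^ 25 ≤ 2 ^ (l - 100)) :
    200000 * n * l < 2 ^ l ∧
    ((l + 3) * (6 * 2 ^ (l + 2) + 1) * (6 * 2 ^ (l + 2) + 1) * l * (200000 * n * l) * 2 * n) * n ≤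
      2 ^ (3 * l) := by
  have hnl' : n ^ 25 ≤ 2 ^ (l - 100) := by exact_mod_cast hnl
  set k : ℕ := (l - 100) / 25 + 1 with hk
  have hnk : n ≤ 2 ^ k := by
    by_contra h
    push Not at h
    have h1 : (2 ^ k) ^ 25 < n ^ 25 := Nat.pow_lt_pow_left h (by norm_num)
    have h2 : 2 ^ (l - 100) ≤ (2 ^ k) ^ 25 := by
      rw [← pow_mul]; apply Nat.pow_le_pow_right (by norm_num); omega
    omega
  set q : ℕ := l / 6 with hq
  have hlq : l + 3 ≤ 2 ^ q := by
    have := evphi_two_pow q (by omega)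
    omega
  have hl1 : l ≤ 2 ^ q := by omega
  have h200 : 200000 ≤ 2 ^ 18 := by norm_num
  constructor
  · calc 200000 * n * l ≤ 2 ^ 18 * 2 ^ k * 2 ^ q :=
          Nat.mul_le_mul (Nat.mul_le_mul h200 hnk) hl1
      _ = 2 ^ (18 + k + q) := by rw [pow_add 2 (18 + k) q, pow_add 2 18 k]
      _ < 2 ^ l := Nat.pow_lt_pow_right (by norm_num) (by omega)
  · have h25 : 6 * 2 ^ (l + 2) + 1 ≤ 25 * 2 ^ l := by
      rw [pow_add]; have : 1 ≤ 2 ^ l := Nat.one_le_two_pow; omega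
    calc ((l + 3) * (6 * 2 ^ (l + 2) + 1) * (6 * 2 ^ (l + 2) + 1) * l * (200000 * n * l) * 2 * n) * n
        ≤ (2 ^ q * (25 * 2 ^ l) * (25 * 2 ^ l) * 2 ^ q * (200000 * 2 ^ k * 2 ^ q) * 2 * 2 ^ k) *
            2 ^ k := by gcongr
      _ = (25 * 25 * 200000 * 2) * (2 ^ (3 * q + 3 * k) * 2 ^ (2 * l)) := by ring
      _ ≤ 2 ^ 28 * (2 ^ (3 * q + 3 * k) * 2 ^ (2 * l)) := by
          apply Nat.mul_le_mul_right; norm_num
      _ = 2 ^ (28 + (3 * q + 3 * k) + 2 * l) := by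
          rw [pow_add 2 (28 + (3 * q + 3 * k)) (2 * l), pow_add 2 28 (3 * q + 3 * k)]; ring
      _ ≤ 2 ^ (3 * l) := Nat.pow_le_pow_right (by norm_num) (by omega)

theorem dir_section {l : ℕ} (hn : 1 ≤ n) (hl : 100 ≤ l) (hnl : (n : ℝ) ^ 25 ≤ 2 ^ (l - 100))
    {X : Matrix (Fin n) (Fin n) ℂ} {s w0 : ℝ} (hw : 0 < w0) (hw1 : w0 ≤ 1) {lam : Fin n → ℂ}
    {V W : Matrix (Fin n) (Fin n) ℂ} (h : Diag X s w0 lam V W) {t : ℝ} (ht : 0 < t) :
    volume ({τ : ℝ | ¬ NodeOK l X (dir τ) t} ∩ Set.Icc 0 1) ≤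
      ENNReal.ofReal ((2 : ℝ) ^ (4 * l) * t / w0) := by
  classical
  obtain ⟨hQ, hnum⟩ := evphi_num (n := n) hn hl hnl
  have hn0 : (0 : ℝ) < n := by exact_mod_cast hn
  set d : ℝ := t * n / w0 with hd
  have hd0 : 0 ≤ d := by positivity
  let N : ℤ := 3 * 2 ^ (l + 2)
  let F : Finset (ℕ × ℤ × ℤ × ℕ × ℕ × ℕ × Fin n) :=
    Finset.range (l + 3) ×ˢ Finset.Icc (-N) N ×ˢ Finset.Icc (-N) N ×ˢ Finset.range l ×ˢ
      Finset.range (200000 * n * l) ×ˢ ({2, 3} : Finset ℕ) ×ˢ Finset.univ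
  let B : ℕ × ℤ × ℤ × ℕ × ℕ × ℕ × Fin n → Set ℝ := fun p =>
    {τ : ℝ | τ ∈ Set.Icc (0 : ℝ) 1 ∧
      ‖nodeZ (grd (rad p.1) p.2.1 p.2.2.1) (p.2.2.2.2.2.1 * rad p.1) (dir τ) p.2.2.2.1 p.2.2.2.2.1 -
        lam p.2.2.2.2.2.2‖ < d}
  have hsub : {τ : ℝ | ¬ NodeOK l X (dir τ) t} ∩ Set.Icc 0 1 ⊆ ⋃ p ∈ F, B p := by
    rintro τ ⟨h1, h2⟩
    simp only [NodeOK, Set.mem_ofPred_eq, not_forall] at h1
    obtain ⟨j, hj, a, b, ha, hb, e, i, he, hi, m, hm, hcol⟩ := h1
    have h3 : ∃ k, ‖nodeZ (grd (rad j) a b) (m * rad j) (dir τ) e i - lam k‖ < d := by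
      by_contra hno
      push Not at hno
      apply hcol
      have h4 := Diag.colAt hn hw h hd0 hno
      have h5 : w0 / n * d = t := by rw [hd]; field_simp
      rwa [h5] at h4
    obtain ⟨k, hk⟩ := h3
    simp only [Set.mem_iUnion]
    refine ⟨(j, a, b, e, i, m, k), ?_, h2, hk⟩
    have h6 : (2 : ℤ) ^ j ≤ 2 ^ (l + 2) := pow_le_pow_right₀ (by norm_num) hj
    rw [abs_le] at ha hb
    have he2 : e < l := by
      have : 2 ^ e < 2 ^ l := lt_of_le_of_lt he hQ
      exact (Nat.pow_lt_pow_iff_right (by norm_num)).mp this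
    simp only [F, N, Finset.mem_product, Finset.mem_range, Finset.mem_Icc, Finset.mem_insert,
      Finset.mem_singleton, Finset.mem_univ, and_true]
    refine ⟨by omega, ⟨?_, ?_⟩, ⟨?_, ?_⟩, he2, by omega, hm⟩
    · linarith [ha.1]
    · linarith [ha.2]
    · linarith [hb.1]
    · linarith [hb.2]
  have hcard : (F.card : ℝ) = ((l + 3) * (6 * 2 ^ (l + 2) + 1) * (6 * 2 ^ (l + 2) + 1) * l *
      (200000 * n * l) * 2 * n : ℕ) := by
    have h1 : (Finset.Icc (-N) N).card = 6 * 2 ^ (l + 2) + 1 := by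
      rw [Int.card_Icc]
      have : (N + 1 - -N) = ((6 * 2 ^ (l + 2) + 1 : ℕ) : ℤ) := by
        simp only [N]; push_cast; ring
      rw [this, Int.toNat_natCast]
    have h2 : ({2, 3} : Finset ℕ).card = 2 := by decide
    have h3 : F.card = (l + 3) * (6 * 2 ^ (l + 2) + 1) * (6 * 2 ^ (l + 2) + 1) * l *
      (200000 * n * l) * 2 * n := by
      simp only [F, Finset.card_product, Finset.card_range, h1, h2, Finset.card_univ,
        Fintype.card_fin]
      ring
    rw [h3]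
  calc volume ({τ : ℝ | ¬ NodeOK l X (dir τ) t} ∩ Set.Icc 0 1)
      ≤ volume (⋃ p ∈ F, B p) := measure_mono hsub
    _ ≤ ∑ p ∈ F, volume (B p) := measure_biUnion_finset_le _ _
    _ ≤ ∑ _p ∈ F, ENNReal.ofReal (d * 2 ^ l) := by
        refine Finset.sum_le_sum fun p hp => ?_
        simp only [F, Finset.mem_product, Finset.mem_range, Finset.mem_insert,
          Finset.mem_singleton] at hp
        exact evphi_one (by omega) hp.2.2.2.2.2.1 _ _ hd0
    _ = ENNReal.ofReal ((F.card : ℝ) * (d * 2 ^ l)) := by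
        rw [Finset.sum_const, nsmul_eq_mul, ENNReal.ofReal_mul (p := (F.card : ℝ)) (by positivity),
          ENNReal.ofReal_natCast]
    _ ≤ ENNReal.ofReal ((2 : ℝ) ^ (4 * l) * t / w0) := by
        apply ENNReal.ofReal_le_ofReal
        have h1 : (F.card : ℝ) * n ≤ 2 ^ (3 * l) := by
          rw [hcard]; exact_mod_cast hnum
        calc (F.card : ℝ) * (d * 2 ^ l) = ((F.card : ℝ) * n) * (2 ^ l * t / w0) := by
              rw [hd]; ring
          _ ≤ 2 ^ (3 * l) * (2 ^ l * t / w0) :=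
              mul_le_mul_of_nonneg_right h1 (by positivity)
          _ = (2 : ℝ) ^ (4 * l) * t / w0 := by
              have : (2 : ℝ) ^ (4 * l) = 2 ^ (3 * l) * 2 ^ l := by rw [← pow_add]; congr 1; ring
              rw [this]; ring

theorem evphi_Mof_congr (A : Matrix (Fin n) (Fin n) ℂ) (C : Coo n ι) (γ : ℝ) {g h : ι → ℝ}
    (hgh : ∀ i, i ≠ C.ct → g i = h i) : Mof A γ C g = Mof A γ C h := by
  ext i j
  simp only [Mof]
  rw [hgh _ (C.ne i j false), hgh _ (C.ne i j true)]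

theorem ev_dir {l : ℕ} (hn : 1 ≤ n) (hl : 100 ≤ l) (hnl : (n : ℝ) ^ 25 ≤ 2 ^ (l - 100))
    (A : Matrix (Fin n) (Fin n) ℂ) (C : Coo n ι) {γ s w0 t : ℝ} (hs : 0 < s) (hs1 : s ≤ 1) (hw : 0 < w0)
    (hw1 : w0 ≤ 1 / 10) (ht : 0 < t) (hop : ∀ g : ι → ℝ, (∀ i, g i ∈ Set.Icc (0 : ℝ) 1) → OpLe (Mof A γ C g) 3) :
    PP ι {g | (∀ i, g i ∈ Set.Icc (0 : ℝ) 1) ∧ RowLB (Mof A γ C g) (2 * s) ∧
      ColLB (Mof A γ C g) (s * w0) (5 * s * w0 ^ 2) ∧
      ¬ NodeOK l (Mof A γ C g) (dir (g C.ct)) t} ≤ ENNReal.ofReal ((2 : ℝ) ^ (4 * l) * t / w0) := by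
  classical
  let AA : Set (ι → ℝ) := {g | (∀ i, i ≠ C.ct → g i ∈ Set.Icc (0 : ℝ) 1)} ∩
    ({g | RowLB (Mof A γ C g) (2 * s)} ∩ {g | ColLB (Mof A γ C g) (s * w0) (5 * s * w0 ^ 2)})
  let BB : Set (ι → ℝ) := {g | NodeOK l (Mof A γ C g) (dir (g C.ct)) t}ᶜ
  have hAA : MeasurableSet AA := by
    refine MeasurableSet.inter ?_ ((measurableSet_rowLB A C γ _).inter (measurableSet_colLB A C γ _ _))
    have : {g : ι → ℝ | (∀ i, i ≠ C.ct → g i ∈ Set.Icc (0 : ℝ) 1)} =
        ⋂ i : ι, ⋂ _ : i ≠ C.ct, {g : ι → ℝ | g i ∈ Set.Icc (0 : ℝ) 1} := by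
      ext g; simp only [Set.mem_iInter, Set.mem_ofPred_eq]
    rw [this]
    refine MeasurableSet.iInter fun i => MeasurableSet.iInter fun _ => ?_
    exact measurable_pi_apply i measurableSet_Icc
  have hBB : MeasurableSet BB := (measurableSet_nodeOK A C γ t l).compl
  have hmix : ∀ (g h : ι → ℝ), Mof A γ C (mix {C.ct} g h) = Mof A γ C g := by
    intro g h
    apply evphi_Mof_congr
    intro i hi
    simp [mix, hi]
  have hinv : ∀ g h, mix {C.ct} g h ∈ AA ↔ g ∈ AA := by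
    intro g h
    simp only [AA, Set.mem_inter_iff, Set.mem_ofPred_eq, hmix]
    have : (∀ i, i ≠ C.ct → mix {C.ct} g h i ∈ Set.Icc (0 : ℝ) 1) ↔
        (∀ i, i ≠ C.ct → g i ∈ Set.Icc (0 : ℝ) 1) := by
      refine forall_congr' fun i => ?_
      by_cases hi : i = C.ct
      · simp [hi]
      · simp [mix, hi]
    rw [this]
  have hsec : ∀ g ∈ AA, PP ι {h | mix {C.ct} g h ∈ BB} ≤
      ENNReal.ofReal ((2 : ℝ) ^ (4 * l) * t / w0) := by
    rintro g ⟨hg1, hg2, hg3⟩
    have hop' : OpLe (Mof A γ C g) 3 := by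
      have h1 := hop (Function.update g C.ct 0) (by
        intro i
        by_cases hi : i = C.ct
        · subst hi; simp
        · rw [Function.update_of_ne hi]; exact hg1 i hi)
      rwa [evphi_Mof_congr A C γ (g := Function.update g C.ct 0) (h := g)
        (fun i hi => Function.update_of_ne hi _ _)] at h1
    have hrow : RowLB (Mof A γ C g) s := by
      intro z hz x hx
      refine le_trans ?_ (hg2 z hz x hx)
      apply mul_le_mul_of_nonneg_right _ (nv_nonneg x)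
      linarith
    have hcol : ColLB (Mof A γ C g) (s * w0) (4 * s * w0 ^ 2) := by
      intro a b ha hb x
      refine le_trans ?_ (hg3 a b ha hb x)
      apply mul_le_mul_of_nonneg_right _ (nv_nonneg x)
      have : 0 ≤ s * w0 ^ 2 := by positivity
      linarith
    obtain ⟨lam, V, W, hD⟩ := rmdet hs hs1 hw hw1 hop' hrow hcol
    have hset : {h | mix {C.ct} g h ∈ BB} =
        {h : ι → ℝ | h C.ct ∈ {τ : ℝ | ¬ NodeOK l (Mof A γ C g) (dir τ) t}} := by
      ext h
      simp only [BB, Set.mem_compl_iff, Set.mem_ofPred_eq, hmix]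
      have : mix {C.ct} g h C.ct = h C.ct := by simp [mix]
      rw [this]
    have hmeas : MeasurableSet {τ : ℝ | ¬ NodeOK l (Mof A γ C g) (dir τ) t} := by
      have h1 : IsClosed {τ : ℝ | NodeOK l (Mof A γ C g) (dir τ) t} :=
        evphi_closed (fun _ : ℝ => Mof A γ C g) (fun i j => continuous_const) dir evphi_cont_dir l t
      exact h1.measurableSet.compl
    rw [hset, pp_coord C.ct hmeas]
    exact dir_section hn hl hnl hw (by linarith) hD ht
  calc PP ι {g | (∀ i, g i ∈ Set.Icc (0 : ℝ) 1) ∧ RowLB (Mof A γ C g) (2 * s) ∧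
      ColLB (Mof A γ C g) (s * w0) (5 * s * w0 ^ 2) ∧
      ¬ NodeOK l (Mof A γ C g) (dir (g C.ct)) t} ≤ PP ι (AA ∩ BB) := by
        apply measure_mono
        rintro g ⟨h1, h2, h3, h4⟩
        exact ⟨⟨fun i _ => h1 i, h2, h3⟩, h4⟩
    _ ≤ ENNReal.ofReal ((2 : ℝ) ^ (4 * l) * t / w0) * PP ι AA :=
        pisec {C.ct} hAA hBB hinv hsec
    _ ≤ ENNReal.ofReal ((2 : ℝ) ^ (4 * l) * t / w0) * 1 := by gcongr; exact prob_le_one
    _ = _ := mul_one _

end H6LP

end S_EVPHI
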