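import Pool.Agent.H6.LQ.Core
import Pool.Agent.H6.LQ.G1
import Pool.Agent.H6.LQ.G2
import Pool.Agent.H6.LQ.G4
import Pool.Agent.H6.LQ.G5
import Pool.Agent.H6.LQ.G6
import Pool.Agent.H6.LQ.G7

/-! MP_63a4b3_lc, part G8: this file joins the modules PERT, PROB, MAIN. -/

section S_PERT

set_option autoImplicit false

open Complex Matrix

namespace H6LP

/-- the coordinates of the samples -/
def coo (n : ℕ) : Coo n (Fin (2 * n ^ 2 + 1)) where
  co i j b := ⟨2 * ((i : ℕ) * n + (j : ℕ)) + (if b then 1 else 0), by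
    have hi := i.isLt
    have hj := j.isLt
    have h1 : (i : ℕ) * n + (j : ℕ) < n ^ 2 := by nlinarith
    split_ifs <;> omega⟩
  ct := ⟨2 * n ^ 2, by omega⟩
  inj := by
    intro i j b i' j' b' h
    have h1 := congrArg Fin.val h
    simp only at h1
    have hj := j.isLt
    have hj' := j'.isLt
    have hb : b = b' := by
      cases b <;> cases b' <;> simp at h1 ⊢ <;> omega
    subst hb
    have h2 : (i : ℕ) * n + (j : ℕ) = (i' : ℕ) * n + (j' : ℕ) := by omega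
    have h3 : (i : ℕ) = i' := by
      have e1 : ((i : ℕ) * n + (j : ℕ)) / n = i := by
        rw [Nat.add_comm, Nat.add_mul_div_right _ _ (by omega), Nat.div_eq_of_lt hj, Nat.zero_add]
      have e2 : ((i' : ℕ) * n + (j' : ℕ)) / n = i' := by
        rw [Nat.add_comm, Nat.add_mul_div_right _ _ (by omega), Nat.div_eq_of_lt hj', Nat.zero_add]
      rw [← e1, ← e2, h2]
    refine ⟨Fin.ext h3, Fin.ext ?_, rfl⟩
    rw [h3] at h2
    omega
  ne := by
    intro i j b h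
    have h1 := congrArg Fin.val h
    simp only at h1
    have hi := i.isLt
    have hj := j.isLt
    have h2 : (i : ℕ) * n + (j : ℕ) < n ^ 2 := by nlinarith
    split_ifs at h1 <;> omega

/-- the size of the perturbation -/
noncomputable def gam (n b : ℕ) : ℝ := (2 : ℝ)⁻¹ ^ (3 + parQ n b)

theorem PERT_has {env : Env} {r : ℕ} {x : ℂ} (h : env[r]? = some x) : Has env r x := by
  obtain ⟨hlt, hx⟩ := List.getElem?_eq_some_iff.1 h
  refine ⟨hlt, ?_⟩
  unfold val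
  rw [List.getD_eq_getElem?_getD, h]
  rfl

theorem env0_A (n : ℕ) (A : Matrix (Fin n) (Fin n) ℂ) (g : Fin (2 * n ^ 2 + 1) → ℝ) (ad : Adv)
    (i j : Fin n) : Has (env0 n A g ad) ((i : ℕ) * n + (j : ℕ)) (A i j) := by
  have hi := i.isLt
  have hj := j.isLt
  have hlt : (i : ℕ) * n + (j : ℕ) < n * n := by nlinarith
  apply PERT_has
  unfold env0
  rw [List.getElem?_append_left (by rw [List.length_ofFn]; exact hlt), List.getElem?_ofFn,
    dif_pos hlt]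
  have e1 : Fin.divNat (⟨(i : ℕ) * n + (j : ℕ), hlt⟩ : Fin (n * n)) = i := by
    apply Fin.ext
    simp only [Fin.coe_divNat]
    rw [Nat.add_comm, Nat.add_mul_div_right _ _ (by omega), Nat.div_eq_of_lt hj, Nat.zero_add]
  have e2 : Fin.modNat (⟨(i : ℕ) * n + (j : ℕ), hlt⟩ : Fin (n * n)) = j := by
    apply Fin.ext
    simp only [Fin.coe_modNat]
    rw [Nat.add_comm, Nat.add_mul_mod_self_right, Nat.mod_eq_of_lt hj]
  rw [e1, e2]

theorem PERT_second (n : ℕ) (A : Matrix (Fin n) (Fin n) ℂ) (g : Fin (2 * n ^ 2 + 1) → ℝ) (ad : Adv)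
    (k : Fin (2 * n ^ 2 + 1)) :
    Has (env0 n A g ad) (n ^ 2 + (k : ℕ)) ((g k : ℂ) * (1 + ad.e (n ^ 2 + (k : ℕ)))) := by
  apply PERT_has
  unfold env0
  rw [List.getElem?_append_right (by rw [List.length_ofFn, ← pow_two]; omega), List.length_ofFn,
    List.getElem?_ofFn]
  have e : n ^ 2 + (k : ℕ) - n * n = k := by rw [← pow_two]; omega
  rw [dif_pos (by rw [e]; exact k.isLt)]
  have e3 : (⟨n ^ 2 + (k : ℕ) - n * n, by rw [e]; exact k.isLt⟩ : Fin (2 * n ^ 2 + 1)) = k :=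
    Fin.ext e
  rw [e3, ← pow_two]

theorem env0_g (n : ℕ) (A : Matrix (Fin n) (Fin n) ℂ) (g : Fin (2 * n ^ 2 + 1) → ℝ) (ad : Adv)
    (i j : Fin n) (b : Bool) :
    Has (env0 n A g ad) (n ^ 2 + 2 * ((i : ℕ) * n + (j : ℕ)) + (if b then 1 else 0))
      ((g ((coo n).co i j b) : ℂ) * (1 + ad.e (n ^ 2 + 2 * ((i : ℕ) * n + (j : ℕ)) + (if b then 1 else 0)))) := by
  have h := PERT_second n A g ad ((coo n).co i j b)
  have e : n ^ 2 + (((coo n).co i j b : Fin (2 * n ^ 2 + 1)) : ℕ) =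
      n ^ 2 + 2 * ((i : ℕ) * n + (j : ℕ)) + (if b then 1 else 0) := by
    simp only [coo, Nat.add_assoc]
  rw [e] at h
  exact h

theorem env0_t (n : ℕ) (A : Matrix (Fin n) (Fin n) ℂ) (g : Fin (2 * n ^ 2 + 1) → ℝ) (ad : Adv) :
    Has (env0 n A g ad) (3 * n ^ 2) ((g (coo n).ct : ℂ) * (1 + ad.e (3 * n ^ 2))) := by
  have h := PERT_second n A g ad (coo n).ct
  have e : n ^ 2 + (((coo n).ct : Fin (2 * n ^ 2 + 1)) : ℕ) = 3 * n ^ 2 := by
    simp only [coo]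
    ring
  rw [e] at h
  exact h

theorem n_le_two_pow_parQ (n b : ℕ) : n ≤ 2 ^ parQ n b := by
  unfold parQ
  calc n ≤ 2 ^ Nat.clog 2 n := Nat.le_pow_clog (by norm_num) n
    _ ≤ 2 ^ (b + Nat.clog 2 n) := Nat.pow_le_pow_right (by norm_num) (by omega)

theorem PERT_gam_pos (n b : ℕ) : 0 < gam n b := by
  unfold gam
  positivity

theorem PERT_n_gam (n b : ℕ) : n * gam n b ≤ 1 / 8 := by
  have h1 : (n : ℝ) ≤ 2 ^ parQ n b := by exact_mod_cast n_le_two_pow_parQ n b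
  have h2 := PERT_gam_pos n b
  have h3 : (2 : ℝ) ^ parQ n b * gam n b = 1 / 8 := by
    unfold gam
    rw [pow_add, mul_left_comm, ← mul_pow]
    norm_num
  calc n * gam n b ≤ 2 ^ parQ n b * gam n b := mul_le_mul_of_nonneg_right h1 h2.le
    _ = 1 / 8 := h3

theorem PERT_gam_le (n b : ℕ) : gam n b ≤ 1 / 8 := by
  unfold gam
  rw [pow_add]
  have : ((2 : ℝ)⁻¹) ^ parQ n b ≤ 1 := pow_le_one₀ (by norm_num) (by norm_num)
  nlinarith

theorem PERT_fro_entries {n : ℕ} {E : Matrix (Fin n) (Fin n) ℂ} {c : ℝ} (hc : 0 ≤ c)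
    (h : ∀ i j, ‖E i j‖ ≤ c) : fro E ≤ n * c := by
  unfold fro
  have h1 : ∑ i, ∑ j, ‖E i j‖ ^ 2 ≤ (n * c) ^ 2 := by
    calc ∑ i : Fin n, ∑ j : Fin n, ‖E i j‖ ^ 2 ≤ ∑ _i : Fin n, ∑ _j : Fin n, c ^ 2 :=
          Finset.sum_le_sum fun i _ => Finset.sum_le_sum fun j _ =>
            pow_le_pow_left₀ (norm_nonneg _) (h i j) 2
      _ = (n * c) ^ 2 := by
          rw [Finset.sum_const, Finset.sum_const, Finset.card_univ, Fintype.card_fin, nsmul_eq_mul,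
            nsmul_eq_mul]
          ring
  calc Real.sqrt (∑ i, ∑ j, ‖E i j‖ ^ 2) ≤ Real.sqrt ((n * c) ^ 2) := Real.sqrt_le_sqrt h1
    _ = n * c := Real.sqrt_sq (by positivity)

/-- the perturbation is small -/
theorem fro_mof_sub_le {n : ℕ} (A : Matrix (Fin n) (Fin n) ℂ) (b : ℕ) {g : Fin (2 * n ^ 2 + 1) → ℝ}
    (hg : ∀ i, g i ∈ Set.Icc (0 : ℝ) 1) :
    fro (Mof A (gam n b) (coo n) g - A) ≤ 2 * n * gam n b := by
  have h0 := PERT_gam_pos n b
  have h1 : fro (Mof A (gam n b) (coo n) g - A) ≤ n * (2 * gam n b) := by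
    refine PERT_fro_entries (by positivity) ?_
    intro i j
    rw [Matrix.sub_apply]
    unfold Mof
    rw [add_sub_cancel_left, norm_mul, Complex.norm_real, Real.norm_eq_abs, abs_of_pos h0, mul_comm]
    refine mul_le_mul_of_nonneg_right ?_ h0.le
    refine le_trans (norm_add_le _ _) ?_
    rw [norm_mul, Complex.norm_I, mul_one, Complex.norm_real, Complex.norm_real, Real.norm_eq_abs,
      Real.norm_eq_abs, abs_of_nonneg (hg _).1, abs_of_nonneg (hg _).1]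
    have a1 := (hg ((coo n).co i j false)).2
    have a2 := (hg ((coo n).co i j true)).2
    linarith
  linarith

theorem opLe_mof {n : ℕ} {A : Matrix (Fin n) (Fin n) ℂ} (hA : OpLe A 1) (b : ℕ)
    {g : Fin (2 * n ^ 2 + 1) → ℝ} (hg : ∀ i, g i ∈ Set.Icc (0 : ℝ) 1) :
    OpLe (Mof A (gam n b) (coo n) g) 2 := by
  have h1 := fro_mof_sub_le A b hg
  have h2 := PERT_n_gam n b
  have h3 : OpLe (A + (Mof A (gam n b) (coo n) g - A)) (1 + 1) := hA.add_fro (by linarith)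
  rw [add_sub_cancel] at h3
  exact h3.mono (by norm_num)

theorem PERT_mul {u γ : ℝ} (hu : 0 ≤ u) (hu1 : u ≤ 1 / 1000) (hγ : 0 ≤ γ) {α a s g z : ℂ}
    (hα : ‖α‖ ≤ γ) (ha : ‖a - α‖ ≤ u * γ) (hg : ‖g‖ ≤ 1) (hs : ‖s - g‖ ≤ u)
    (hz : ‖z - a * s‖ ≤ u * ‖a * s‖) : ‖z - α * g‖ ≤ 4 * u * γ := by
  have h1 : ‖a‖ ≤ γ * (1 + u) := by
    have e : a = α + (a - α) := by ring
    calc ‖a‖ = ‖α + (a - α)‖ := by rw [← e]
      _ ≤ ‖α‖ + ‖a - α‖ := norm_add_le _ _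
      _ ≤ γ * (1 + u) := by linarith
  have h2 : ‖s‖ ≤ 1 + u := by
    have e : s = g + (s - g) := by ring
    calc ‖s‖ = ‖g + (s - g)‖ := by rw [← e]
      _ ≤ ‖g‖ + ‖s - g‖ := norm_add_le _ _
      _ ≤ 1 + u := by linarith
  have h3 : ‖a * s‖ ≤ γ * (1 + u) * (1 + u) := by
    rw [norm_mul]
    exact mul_le_mul h1 h2 (norm_nonneg _) (by positivity)
  have e2 : z - α * g = (z - a * s) + (a - α) * s + α * (s - g) := by ring
  have h4 : ‖(a - α) * s‖ ≤ u * γ * (1 + u) := by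
    rw [norm_mul]
    exact mul_le_mul ha h2 (norm_nonneg _) (by positivity)
  have h5 : ‖α * (s - g)‖ ≤ γ * u := by
    rw [norm_mul]
    exact mul_le_mul hα hs (norm_nonneg _) hγ
  have h6 : ‖z - α * g‖ ≤ ‖z - a * s‖ + ‖(a - α) * s‖ + ‖α * (s - g)‖ := by
    rw [e2]
    exact norm_add₃_le
  have h7 : u * ‖a * s‖ ≤ u * (γ * (1 + u) * (1 + u)) := mul_le_mul_of_nonneg_left h3 hu
  have h8 : ‖z - α * g‖ ≤ u * γ * ((1 + u) * (1 + u) + (1 + u) + 1) := by nlinarith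
  refine le_trans h8 ?_
  have h9 : 0 ≤ u * γ := by positivity
  have h10 : (1 + u) * (1 + u) + (1 + u) + 1 ≤ 4 := by nlinarith
  nlinarith

theorem PERT_entry {u γ : ℝ} (hu : 0 ≤ u) (hu1 : u ≤ 1 / 1000) (hγ0 : 0 ≤ γ) (hγ : γ ≤ 1 / 8)
    {m p q x y c z : ℂ} (hm : ‖m‖ ≤ 1) (hp : ‖p‖ ≤ γ) (hq : ‖q‖ ≤ γ)
    (hx : ‖x - p‖ ≤ 4 * u * γ) (hy : ‖y - q‖ ≤ 4 * u * γ)
    (hc : ‖c - (x + y)‖ ≤ u * ‖x + y‖) (hz : ‖z - (m + c)‖ ≤ u * ‖m + c‖) :
    ‖z - (m + (p + q))‖ ≤ 20 * u := by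
  have huγ : u * γ ≤ u * (1 / 8) := mul_le_mul_of_nonneg_left hγ hu
  have h1 : ‖x + y‖ ≤ 1 := by
    have e : x + y = (x - p) + (y - q) + (p + q) := by ring
    calc ‖x + y‖ = ‖(x - p) + (y - q) + (p + q)‖ := by rw [← e]
      _ ≤ ‖x - p‖ + ‖y - q‖ + ‖p + q‖ := norm_add₃_le
      _ ≤ ‖x - p‖ + ‖y - q‖ + (‖p‖ + ‖q‖) := by
          have := norm_add_le p q
          linarith
      _ ≤ 1 := by linarith
  have h2 : ‖c - (x + y)‖ ≤ u := le_trans hc (by nlinarith)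
  have h3 : ‖c‖ ≤ 2 := by
    have e : c = (c - (x + y)) + (x + y) := by ring
    calc ‖c‖ = ‖(c - (x + y)) + (x + y)‖ := by rw [← e]
      _ ≤ ‖c - (x + y)‖ + ‖x + y‖ := norm_add_le _ _
      _ ≤ 2 := by linarith
  have h4 : ‖z - (m + c)‖ ≤ 3 * u := by
    refine le_trans hz ?_
    have := norm_add_le m c
    nlinarith
  have e : z - (m + (p + q)) = (z - (m + c)) + (c - (x + y)) + ((x - p) + (y - q)) := by ring
  calc ‖z - (m + (p + q))‖ = ‖(z - (m + c)) + (c - (x + y)) + ((x - p) + (y - q))‖ := by rw [e]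
    _ ≤ ‖z - (m + c)‖ + ‖c - (x + y)‖ + ‖(x - p) + (y - q)‖ := norm_add₃_le
    _ ≤ ‖z - (m + c)‖ + ‖c - (x + y)‖ + (‖x - p‖ + ‖y - q‖) := by
        have := norm_add_le (x - p) (y - q)
        linarith
    _ ≤ 20 * u := by linarith

theorem PERT_opLe_entry {n : ℕ} {A : Matrix (Fin n) (Fin n) ℂ} (hA : OpLe A 1) (i j : Fin n) :
    ‖A i j‖ ≤ 1 := by
  have h1 := hA (Pi.single j 1)
  rw [nv_single, norm_one, Matrix.mulVec_single_one] at h1
  have h2 := norm_le_nv (A.col j) i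
  have e : A.col j i = A i j := rfl
  rw [e] at h2
  linarith

theorem PERT_sample {u : ℝ} {e : ℂ} (he : ‖e‖ ≤ u) {g : ℝ} (hg : g ∈ Set.Icc (0 : ℝ) 1) :
    ‖(g : ℂ)‖ ≤ 1 ∧ ‖(g : ℂ) * (1 + e) - (g : ℂ)‖ ≤ u := by
  have h1 : ‖(g : ℂ)‖ ≤ 1 := by
    rw [Complex.norm_real, Real.norm_eq_abs, abs_of_nonneg hg.1]
    exact hg.2
  refine ⟨h1, ?_⟩
  have h2 : (g : ℂ) * (1 + e) - (g : ℂ) = (g : ℂ) * e := by ring
  rw [h2, norm_mul]
  calc ‖(g : ℂ)‖ * ‖e‖ ≤ 1 * u := mul_le_mul h1 he (norm_nonneg _) (by norm_num)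
    _ = u := one_mul _

theorem post_pert {ad : Adv} {u : ℝ} (hu : ad.Le u) (hu1 : u ≤ 1 / 1000) {n : ℕ} (hn : 1 ≤ n)
    {A : Matrix (Fin n) (Fin n) ℂ} (hA : OpLe A 1) (b : ℕ) {g : Fin (2 * n ^ 2 + 1) → ℝ}
    (hg : ∀ i, g i ∈ Set.Icc (0 : ℝ) 1) :
    Post ad (pertP n b) (env0 n A g ad) (fun r env' => ∃ E : Matrix (Fin n) (Fin n) ℂ,
      HasM env' r (Mof A (gam n b) (coo n) g + E) ∧ fro E ≤ 20 * n * u) := by
  have hu0 := hu.nonneg
  have hγ0 := PERT_gam_pos n b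
  have hγ1 := PERT_gam_le n b
  have hγq : (((1 / 2 ^ (3 + parQ n b) : ℚ)) : ℂ) = (gam n b : ℂ) := by
    unfold gam
    push_cast
    rw [inv_pow, one_div]
  unfold pertP
  refine Post.bind (post_cst hu _ _ _) ?_
  rintro gR env1 h01 ⟨zR, hzR, hzR'⟩
  refine Post.bind (post_cst hu _ _ _) ?_
  rintro gI env2 h12 ⟨zI, hzI, hzI'⟩
  have hR : ‖zR - (gam n b : ℂ)‖ ≤ u * gam n b := by
    unfold Rel at hzR'
    rw [hγq] at hzR'
    simp only [Rat.cast_zero, zero_mul, add_zero] at hzR'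
    refine le_trans hzR' ?_
    rw [Complex.norm_real, Real.norm_eq_abs, abs_of_pos hγ0]
  have hI : ‖zI - (gam n b : ℂ) * I‖ ≤ u * gam n b := by
    unfold Rel at hzI'
    rw [hγq] at hzI'
    simp only [Rat.cast_zero, zero_add] at hzI'
    refine le_trans hzI' ?_
    rw [norm_mul, Complex.norm_I, mul_one, Complex.norm_real, Real.norm_eq_abs, abs_of_pos hγ0]
  refine Post.weaken (post_matM n n _ env2
    (fun i j r env' => ∃ z, Has env' r z ∧ ‖z - Mof A (gam n b) (coo n) g i j‖ ≤ 20 * u) ?_ ?_) ?_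
  · rintro i j r e1 e2 h ⟨z, hz, hzb⟩
    exact ⟨z, hz.mono h, hzb⟩
  · intro i j env3 h23
    have h03 : env0 n A g ad <+: env3 := (h01.trans h12).trans h23
    have hAij := (env0_A n A g ad i j).mono h03
    have hg0 := (env0_g n A g ad i j false).mono h03
    have hg1 := (env0_g n A g ad i j true).mono h03
    simp only [Bool.false_eq_true, if_false, add_zero, if_true] at hg0 hg1
    refine Post.bind (post_mul hu ((hzR.mono h12).mono h23) hg0) ?_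
    rintro rx env4 h34 ⟨x, hx, hx'⟩
    refine Post.bind (post_mul hu ((hzI.mono h23).mono h34) (hg1.mono h34)) ?_
    rintro ry env5 h45 ⟨y, hy, hy'⟩
    refine Post.bind (post_add hu (hx.mono h45) hy) ?_
    rintro rc env6 h56 ⟨c, hc, hc'⟩
    refine Post.weaken (post_add hu (((hAij.mono h34).mono h45).mono h56) hc) ?_
    rintro rz env7 h67 ⟨z, hz, hz'⟩
    refine ⟨z, hz, ?_⟩
    obtain ⟨s1, s2⟩ := PERT_sample (hu (n ^ 2 + 2 * ((i : ℕ) * n + (j : ℕ))))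
      (hg ((coo n).co i j false))
    obtain ⟨t1, t2⟩ := PERT_sample (hu (n ^ 2 + 2 * ((i : ℕ) * n + (j : ℕ)) + 1))
      (hg ((coo n).co i j true))
    have nγ : ‖(gam n b : ℂ)‖ ≤ gam n b := by
      rw [Complex.norm_real, Real.norm_eq_abs, abs_of_pos hγ0]
    have nγI : ‖(gam n b : ℂ) * I‖ ≤ gam n b := by
      rw [norm_mul, Complex.norm_I, mul_one]
      exact nγ
    have b1 := PERT_mul hu0 hu1 hγ0.le nγ hR s1 s2 hx'
    have b2 := PERT_mul hu0 hu1 hγ0.le nγI hI t1 t2 hy'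
    have p1 : ‖(gam n b : ℂ) * (g ((coo n).co i j false) : ℂ)‖ ≤ gam n b := by
      rw [norm_mul]
      calc _ ≤ gam n b * 1 := mul_le_mul nγ s1 (norm_nonneg _) hγ0.le
        _ = gam n b := mul_one _
    have p2 : ‖(gam n b : ℂ) * I * (g ((coo n).co i j true) : ℂ)‖ ≤ gam n b := by
      rw [norm_mul]
      calc _ ≤ gam n b * 1 := mul_le_mul nγI t1 (norm_nonneg _) hγ0.le
        _ = gam n b := mul_one _
    have key := PERT_entry hu0 hu1 hγ0.le hγ1 (PERT_opLe_entry hA i j) p1 p2 b1 b2 hc' hz'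
    have e : Mof A (gam n b) (coo n) g i j = A i j +
        ((gam n b : ℂ) * (g ((coo n).co i j false) : ℂ) +
          (gam n b : ℂ) * I * (g ((coo n).co i j true) : ℂ)) := by
      unfold Mof
      ring
    rw [e]
    exact key
  · intro r env3 h23 hr
    choose Z hZ hZb using hr
    refine ⟨(Matrix.of Z) - Mof A (gam n b) (coo n) g, ?_, ?_⟩
    · intro i j
      rw [add_sub_cancel]
      exact hZ i j
    · refine le_trans (PERT_fro_entries (c := 20 * u) (by positivity) ?_) ?_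
      · intro i j
        exact hZb i j
      · linarith

end H6LP

end S_PERT

section S_PROB

set_option autoImplicit false

open Complex Matrix MeasureTheory

namespace H6LP

noncomputable def sS (n b : ℕ) : ℝ := (2 : ℝ)⁻¹ ^ (17 + 5 * parQ n b)
noncomputable def wS (n b : ℕ) : ℝ := (2 : ℝ)⁻¹ ^ (11 + 3 * parQ n b)

/-- `n^25 ≤ 2^(l-100)` -/
theorem n_pow_le (n b : ℕ) : (n : ℝ) ^ 25 ≤ 2 ^ (parL n b - 100) := by
  have h1 : parL n b - 100 = parQ n b * 25 := by unfold parL; omega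
  rw [h1, pow_mul]
  refine pow_le_pow_left₀ (by positivity) ?_ 25
  exact_mod_cast n_le_two_pow_parQ n b

theorem good_event (n b : ℕ) (hn : 1 ≤ n) {A : Matrix (Fin n) (Fin n) ℂ} (hA : OpLe A 1) :
    ∃ S : Set (Fin (2 * n ^ 2 + 1) → ℝ), MeasurableSet S ∧
      ENNReal.ofReal (1 - (2 : ℝ)⁻¹ ^ parQ n b) ≤ PP (Fin (2 * n ^ 2 + 1)) S ∧
      ∀ g ∈ S, (∀ i, g i ∈ Set.Icc (0 : ℝ) 1) ∧
        RowLB (Mof A (gam n b) (coo n) g) (2 * sS n b) ∧
        ColLB (Mof A (gam n b) (coo n) g) (sS n b * wS n b) (5 * sS n b * wS n b ^ 2) ∧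
        NodeOK (parL n b) (Mof A (gam n b) (coo n) g) (dir (g (coo n).ct))
          ((2 : ℝ)⁻¹ ^ (5 * parL n b)) := by
  set y : ℝ := (2 : ℝ)⁻¹ ^ parQ n b with hy
  have hy0 : 0 < y := by rw [hy]; positivity
  have hy1 : y ≤ 1 := pow_le_one₀ (by norm_num) (by norm_num)
  have hN : (1 : ℝ) ≤ n := by exact_mod_cast hn
  have hNy : (n : ℝ) * y ≤ 1 := by
    rw [hy, inv_pow, ← div_eq_mul_inv, div_le_one (by positivity)]
    exact_mod_cast n_le_two_pow_parQ n b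
  have hs : sS n b = (2 : ℝ)⁻¹ ^ 17 * y ^ 5 := by rw [sS, pow_add, mul_comm 5 (parQ n b), pow_mul]
  have hw : wS n b = (2 : ℝ)⁻¹ ^ 11 * y ^ 3 := by rw [wS, pow_add, mul_comm 3 (parQ n b), pow_mul]
  have hg : gam n b = (2 : ℝ)⁻¹ ^ 3 * y := by rw [gam, pow_add]
  have hr : (2 : ℝ)⁻¹ ^ parL n b = (2 : ℝ)⁻¹ ^ 100 * y ^ 25 := by
    rw [parL, pow_add, mul_comm 25 (parQ n b), pow_mul]
  set s := sS n b with hsdef
  set w := wS n b with hwdef
  set γ := gam n b with hγdef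
  have hs0 : 0 < s := by rw [hs]; positivity
  have hw0 : 0 < w := by rw [hw]; positivity
  have hγ0 : 0 < γ := by rw [hg]; positivity
  have hy5 : y ^ 5 ≤ 1 := pow_le_one₀ hy0.le hy1
  have hy3 : y ^ 3 ≤ 1 := pow_le_one₀ hy0.le hy1
  have hs1 : s ≤ 1 := by
    rw [hs]
    have : (0 : ℝ) ≤ y ^ 5 := by positivity
    nlinarith [show ((2 : ℝ)⁻¹ ^ 17) ≤ 1 by norm_num]
  have hw1 : w ≤ 1 / 10 := by
    rw [hw]
    have : (0 : ℝ) ≤ y ^ 3 := by positivity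
    nlinarith [show ((2 : ℝ)⁻¹ ^ 11) ≤ 1 / 10 by norm_num]
  have hsw1 : s * w ≤ 1 := by nlinarith
  have hl : 100 ≤ parL n b := by unfold parL; omega
  set t : ℝ := (2 : ℝ)⁻¹ ^ (5 * parL n b) with ht
  have ht0 : 0 < t := by rw [ht]; positivity
  set ι := Fin (2 * n ^ 2 + 1) with hι
  set M : (ι → ℝ) → Matrix (Fin n) (Fin n) ℂ := fun g => Mof A γ (coo n) g with hM
  set Sc : Set (ι → ℝ) := {g | ∀ i, g i ∈ Set.Icc (0 : ℝ) 1} with hSc
  set Sr : Set (ι → ℝ) := {g | RowLB (M g) (2 * s)} with hSr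
  set Sl : Set (ι → ℝ) := {g | ColLB (M g) (s * w) (5 * s * w ^ 2)} with hSl
  set Sn : Set (ι → ℝ) := {g | NodeOK (parL n b) (M g) (dir (g (coo n).ct)) t} with hSn
  have mc : MeasurableSet Sc := by
    have : Sc = Set.pi Set.univ (fun _ : ι => Set.Icc (0 : ℝ) 1) := by
      ext g
      rw [Set.mem_pi]
      exact ⟨fun h i _ => h i, fun h i => h i (Set.mem_univ i)⟩
    rw [this]
    exact MeasurableSet.univ_pi (fun _ => measurableSet_Icc)
  have mr : MeasurableSet Sr := measurableSet_rowLB A (coo n) γ (2 * s)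
  have ml : MeasurableSet Sl := measurableSet_colLB A (coo n) γ _ _
  have mn : MeasurableSet Sn := measurableSet_nodeOK A (coo n) γ t _
  have er : PP ι Srᶜ ≤ ENNReal.ofReal (y / 20) := by
    refine (ev_row hn A (coo n) hγ0 hs0 hs1).trans (ENNReal.ofReal_le_ofReal ?_)
    have e1 : (11 / s) ^ 2 * (n * (2 * (3 * s) * n / γ) ^ 4) =
        156816 * 4096 * (2 : ℝ)⁻¹ ^ 34 * ((n * y) ^ 5 * y) := by
      rw [hg, hs]
      field_simp
      norm_num
    rw [e1]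
    have e2 : ((n : ℝ) * y) ^ 5 ≤ 1 := pow_le_one₀ (by positivity) hNy
    have e3 : ((n : ℝ) * y) ^ 5 * y ≤ 1 * y := mul_le_mul_of_nonneg_right e2 hy0.le
    have e4 : (156816 * 4096 * (2 : ℝ)⁻¹ ^ 34) ≤ 1 / 20 := by norm_num
    calc 156816 * 4096 * (2 : ℝ)⁻¹ ^ 34 * ((n * y) ^ 5 * y) ≤ 156816 * 4096 * (2 : ℝ)⁻¹ ^ 34 * (1 * y) :=
          mul_le_mul_of_nonneg_left e3 (by positivity)
      _ ≤ 1 / 20 * (1 * y) := mul_le_mul_of_nonneg_right e4 (by positivity)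
      _ = y / 20 := by ring
  have el : PP ι Slᶜ ≤ ENNReal.ofReal (y / 5) := by
    refine (ev_col hn A (coo n) hγ0 (mul_pos hs0 hw0) hsw1 (by positivity)).trans
      (ENNReal.ofReal_le_ofReal ?_)
    have e1 : (9 / (s * w)) ^ 2 * (n * (2 * (5 * s * w ^ 2) * n / γ) ^ 2) =
        8100 * 64 * (2 : ℝ)⁻¹ ^ 22 * ((n * y) ^ 3 * y) := by
      rw [hg, hs, hw]
      field_simp
      norm_num
    rw [e1]
    have e2 : ((n : ℝ) * y) ^ 3 ≤ 1 := pow_le_one₀ (by positivity) hNy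
    have e3 : ((n : ℝ) * y) ^ 3 * y ≤ 1 * y := mul_le_mul_of_nonneg_right e2 hy0.le
    have e4 : (8100 * 64 * (2 : ℝ)⁻¹ ^ 22) ≤ 1 / 5 := by norm_num
    calc 8100 * 64 * (2 : ℝ)⁻¹ ^ 22 * ((n * y) ^ 3 * y) ≤ 8100 * 64 * (2 : ℝ)⁻¹ ^ 22 * (1 * y) :=
          mul_le_mul_of_nonneg_left e3 (by positivity)
      _ ≤ 1 / 5 * (1 * y) := mul_le_mul_of_nonneg_right e4 (by positivity)
      _ = y / 5 := by ring
  have hop : ∀ g : ι → ℝ, (∀ i, g i ∈ Set.Icc (0 : ℝ) 1) → OpLe (Mof A γ (coo n) g) 3 :=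
    fun g hg' => (opLe_mof hA b hg').mono (by norm_num)
  have en : PP ι (Sc ∩ Sr ∩ Sl ∩ Snᶜ) ≤ ENNReal.ofReal (y / 20) := by
    have e0 := ev_dir hn hl (n_pow_le n b) A (coo n) (γ := γ) hs0 hs1 hw0 hw1 ht0 hop
    have e1 : Sc ∩ Sr ∩ Sl ∩ Snᶜ ⊆ {g | (∀ i, g i ∈ Set.Icc (0 : ℝ) 1) ∧ RowLB (Mof A γ (coo n) g) (2 * s) ∧
      ColLB (Mof A γ (coo n) g) (s * w) (5 * s * w ^ 2) ∧
      ¬ NodeOK (parL n b) (Mof A γ (coo n) g) (dir (g (coo n).ct)) t} := by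
      rintro g ⟨⟨⟨h1, h2⟩, h3⟩, h4⟩
      exact ⟨h1, h2, h3, h4⟩
    refine (measure_mono e1).trans (e0.trans (ENNReal.ofReal_le_ofReal ?_))
    have e2 : (2 : ℝ) ^ (4 * parL n b) * t = (2 : ℝ)⁻¹ ^ parL n b := by
      rw [ht, inv_pow, inv_pow, show 5 * parL n b = 4 * parL n b + parL n b by ring, pow_add]
      field_simp
    rw [e2, hr, hw]
    have e3 : (2 : ℝ)⁻¹ ^ 100 * y ^ 25 / ((2 : ℝ)⁻¹ ^ 11 * y ^ 3) = (2 : ℝ)⁻¹ ^ 89 * y ^ 22 := by
      field_simp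
    rw [e3]
    have e4 : y ^ 22 ≤ y ^ 1 := pow_le_pow_of_le_one hy0.le hy1 (by norm_num)
    rw [pow_one] at e4
    have e5 : (2 : ℝ)⁻¹ ^ 89 ≤ 1 / 20 := by norm_num
    have e6 : (0 : ℝ) ≤ y ^ 22 := by positivity
    calc (2 : ℝ)⁻¹ ^ 89 * y ^ 22 ≤ 1 / 20 * y := mul_le_mul e5 e4 e6 (by norm_num)
      _ = y / 20 := by ring
  have ec : PP ι Scᶜ = 0 := by
    rw [prob_compl_eq_zero_iff mc]
    exact pp_cube
  refine ⟨Sc ∩ Sr ∩ Sl ∩ Sn, ((mc.inter mr).inter ml).inter mn, ?_, ?_⟩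
  · have hmS : MeasurableSet (Sc ∩ Sr ∩ Sl ∩ Sn) := ((mc.inter mr).inter ml).inter mn
    have hcomp : PP ι (Sc ∩ Sr ∩ Sl ∩ Sn)ᶜ ≤ ENNReal.ofReal y := by
      have hsub : (Sc ∩ Sr ∩ Sl ∩ Sn)ᶜ ⊆ Scᶜ ∪ (Srᶜ ∪ (Slᶜ ∪ (Sc ∩ Sr ∩ Sl ∩ Snᶜ))) := by
        intro g hg'
        by_cases h1 : g ∈ Sc
        · by_cases h2 : g ∈ Sr
          · by_cases h3 : g ∈ Sl
            · right; right; right
              refine ⟨⟨⟨h1, h2⟩, h3⟩, ?_⟩
              intro h4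
              exact hg' ⟨⟨⟨h1, h2⟩, h3⟩, h4⟩
            · right; right; left; exact h3
          · right; left; exact h2
        · left; exact h1
      calc PP ι (Sc ∩ Sr ∩ Sl ∩ Sn)ᶜ ≤ PP ι (Scᶜ ∪ (Srᶜ ∪ (Slᶜ ∪ (Sc ∩ Sr ∩ Sl ∩ Snᶜ)))) :=
            measure_mono hsub
        _ ≤ PP ι Scᶜ + (PP ι Srᶜ + (PP ι Slᶜ + PP ι (Sc ∩ Sr ∩ Sl ∩ Snᶜ))) := by
            refine (measure_union_le _ _).trans (add_le_add le_rfl ?_)
            refine (measure_union_le _ _).trans (add_le_add le_rfl ?_)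
            exact measure_union_le _ _
        _ ≤ 0 + (ENNReal.ofReal (y / 20) + (ENNReal.ofReal (y / 5) + ENNReal.ofReal (y / 20))) := by
            refine add_le_add (le_of_eq ec) (add_le_add er (add_le_add el en))
        _ = ENNReal.ofReal (y / 20 + (y / 5 + y / 20)) := by
            rw [zero_add, ← ENNReal.ofReal_add (by positivity) (by positivity),
              ← ENNReal.ofReal_add (by positivity) (by positivity)]
        _ ≤ ENNReal.ofReal y := ENNReal.ofReal_le_ofReal (by linarith)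
    have h1 := prob_compl_eq_one_sub (μ := PP ι) hmS.compl
    rw [compl_compl] at h1
    rw [h1, ENNReal.ofReal_sub _ hy0.le, ENNReal.ofReal_one]
    exact tsub_le_tsub_left hcomp 1
  · rintro g ⟨⟨⟨h1, h2⟩, h3⟩, h4⟩
    exact ⟨h1, h2, h3, h4⟩

end H6LP

end S_PROB

section S_MAIN

set_option autoImplicit false

open Complex Matrix MeasureTheory

namespace H6LP

/-- the numerical context of the main theorem -/
theorem main_numC {n b : ℕ} (hn : 1 ≤ n) {u : ℝ} (hu0 : 0 ≤ u)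
    (hu1 : u ≤ (2 : ℝ)⁻¹ ^ (8 * parL n b)) :
    NumC n ((2 : ℝ)⁻¹ ^ parQ n b) (sS n b) (wS n b) ((2 : ℝ)⁻¹ ^ parL n b) u := by
  have h2 : (n : ℝ) ≤ 2 ^ parQ n b := by exact_mod_cast n_le_two_pow_parQ n b
  refine ⟨by exact_mod_cast hn, by positivity, pow_le_one₀ (by norm_num) (by norm_num), ?_, ?_, ?_, ?_, hu0, ?_⟩
  · rw [inv_pow]
    have : (0 : ℝ) < 2 ^ parQ n b := by positivity
    rw [← div_eq_mul_inv, div_le_one this]
    exact h2
  · rw [sS, pow_add, mul_comm 5 (parQ n b), pow_mul]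
  · rw [wS, pow_add, mul_comm 3 (parQ n b), pow_mul]
  · rw [parL, pow_add, mul_comm 25 (parQ n b), pow_mul]
  · rw [← pow_mul, mul_comm (parL n b) 8]
    exact hu1

theorem main_rad (l : ℕ) : rad (l + 2) = (2 : ℝ)⁻¹ ^ l := by
  unfold rad
  rw [pow_add, inv_pow]
  field_simp
  norm_num

theorem ColLB.mono {n : ℕ} {X : Matrix (Fin n) (Fin n) ℂ} {h t t' : ℝ} (hc : ColLB X h t) (ht : t' ≤ t) :
    ColLB X h t' := fun a b ha hb => (hc a b ha hb).mono ht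

theorem NodeOK.mono {n l : ℕ} {X : Matrix (Fin n) (Fin n) ℂ} {φ : ℂ} {t t' : ℝ} (h : NodeOK l X φ t)
    (ht : t' ≤ t) : NodeOK l X φ t' :=
  fun j hj a b ha hb e i he hi m hm => (h j hj a b ha hb e i he hi m hm).mono ht

/-- `U = Q V diag(t)` and its inverse -/
theorem main_U {n : ℕ} {H Q B : Matrix (Fin n) (Fin n) ℂ} {s w0 : ℝ} (hw : 0 < w0) {lam : Fin n → ℂ}
    {V W : Matrix (Fin n) (Fin n) ℂ} (hD : Diag H s w0 lam V W) (hQ : Uni Q) (hB : H = Qᴴ * B * Q)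
    {t : Fin n → ℂ} (ht : ∀ i, ‖t i‖ = 1) :
    B = (Q * V * Matrix.diagonal t) * Matrix.diagonal lam * (Matrix.diagonal (star t) * W * Qᴴ) ∧
    (Q * V * Matrix.diagonal t) * (Matrix.diagonal (star t) * W * Qᴴ) = 1 ∧
    fro (Matrix.diagonal (star t) * W * Qᴴ) ≤ Real.sqrt n * (1 / w0) ∧
    fro (Q * V * Matrix.diagonal t) ≤ Real.sqrt n ∧
    ∀ i, (fun a => (Q * V * Matrix.diagonal t) a i) = Q *ᵥ (t i • (fun a => V a i)) := by
  have htt : ∀ i, t i * (star t) i = 1 := by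
    intro i
    have h1 : t i * (starRingEnd ℂ) (t i) = ((‖t i‖ ^ 2 : ℝ) : ℂ) := by
      rw [Complex.mul_conj, Complex.normSq_eq_norm_sq]
    have h2 : (star t) i = (starRingEnd ℂ) (t i) := rfl
    rw [h2, h1, ht i]
    norm_num
  have hQ' : Q * Qᴴ = 1 := hQ.mul_conjTranspose
  have hdd : Matrix.diagonal t * Matrix.diagonal (star t) = (1 : Matrix (Fin n) (Fin n) ℂ) := by
    rw [Matrix.diagonal_mul_diagonal, ← Matrix.diagonal_one]
    congr 1
    funext i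
    exact htt i
  have hcol : ∀ i, (fun a => (Q * V * Matrix.diagonal t) a i) = Q *ᵥ (t i • (fun a => V a i)) := by
    intro i
    funext a
    rw [Matrix.mul_diagonal, Matrix.mulVec_smul]
    simp only [Pi.smul_apply, smul_eq_mul]
    rw [mul_comm]
    congr 1
  refine ⟨?_, ?_, ?_, ?_, hcol⟩
  · have h1 : Q * H * Qᴴ = B := by
      rw [hB]
      calc Q * (Qᴴ * B * Q) * Qᴴ = (Q * Qᴴ) * B * (Q * Qᴴ) := by simp only [Matrix.mul_assoc]
        _ = B := by rw [hQ', one_mul, mul_one]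
    rw [← h1, hD.eq]
    have h3 : Matrix.diagonal t * Matrix.diagonal lam * Matrix.diagonal (star t) = Matrix.diagonal lam := by
      rw [Matrix.diagonal_mul_diagonal, Matrix.diagonal_mul_diagonal]
      congr 1
      funext i
      calc t i * lam i * (star t) i = lam i * (t i * (star t) i) := by ring
        _ = lam i := by rw [htt i, mul_one]
    calc Q * (V * Matrix.diagonal lam * W) * Qᴴ
        = Q * (V * (Matrix.diagonal t * Matrix.diagonal lam * Matrix.diagonal (star t)) * W) * Qᴴ := by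
          rw [h3]
      _ = _ := by simp only [Matrix.mul_assoc]
  · calc (Q * V * Matrix.diagonal t) * (Matrix.diagonal (star t) * W * Qᴴ)
        = Q * (V * (Matrix.diagonal t * Matrix.diagonal (star t)) * W) * Qᴴ := by
          simp only [Matrix.mul_assoc]
      _ = 1 := by rw [hdd, mul_one, hD.vw, mul_one, hQ']
  · rw [hQ.conjTranspose.fro_mul']
    have h1 : fro (Matrix.diagonal (star t) * W) ≤ 1 * fro W := by
      refine fro_diagonal_mul_le (by norm_num) ?_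
      intro i
      have : (star t) i = star (t i) := rfl
      rw [this, norm_star, ht i]
    refine h1.trans ?_
    rw [one_mul]
    exact fro_le_sqrt_rows (by positivity) hD.row
  · have h1 := fro_le_sqrt_cols (A := Q * V * Matrix.diagonal t) (c := 1) (by norm_num) (by
      intro j
      rw [hcol j, hQ.nv_mulVec, nv_smul, ht j, one_mul, hD.col j])
    simpa using h1

theorem post_main {ad : Adv} {n b : ℕ} (hn : 1 ≤ n) {u : ℝ} (hu : ad.Le u)
    (hu1 : u ≤ (2 : ℝ)⁻¹ ^ (8 * parL n b)) {A : Matrix (Fin n) (Fin n) ℂ} (hA : OpLe A 1)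
    {g : Fin (2 * n ^ 2 + 1) → ℝ} (hg : ∀ i, g i ∈ Set.Icc (0 : ℝ) 1)
    (hrow : RowLB (Mof A (gam n b) (coo n) g) (2 * sS n b))
    (hcol : ColLB (Mof A (gam n b) (coo n) g) (sS n b * wS n b) (5 * sS n b * wS n b ^ 2))
    (hnode : NodeOK (parL n b) (Mof A (gam n b) (coo n) g) (dir (g (coo n).ct))
          ((2 : ℝ)⁻¹ ^ (5 * parL n b))) :
    Post ad (mainP n b) (env0 n A g ad) (fun VD env' =>
      ∃ (V : Matrix (Fin n) (Fin n) ℂ) (D : Fin n → ℂ), HasM env' VD.1 V ∧ HasV env' VD.2 D ∧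
        IsUnit V ∧ fro (A - V * Matrix.diagonal D * V⁻¹) ≤ (2 : ℝ)⁻¹ ^ b) := by
  have hu0 := hu.nonneg
  have hC := main_numC (b := b) hn hu0 hu1
  set y : ℝ := (2 : ℝ)⁻¹ ^ parQ n b with hy
  set s := sS n b with hs
  set w := wS n b with hw
  set l := parL n b with hl
  set r : ℝ := (2 : ℝ)⁻¹ ^ l with hr
  set M := Mof A (gam n b) (coo n) g with hM
  have hN : (1 : ℝ) ≤ n := hC.hN
  have hs0 := hC.s_pos
  have hw0 := hC.w_pos
  have hr0 := hC.r_pos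
  have hs1 := hC.s_le
  have hw1 := hC.w_le
  have hl100 : 100 ≤ l := by rw [hl, parL]; omega
  have hNa := hC.a
  have hNb := hC.b
  have hc1 := hC.c1
  have hc2 := hC.c2
  have hc3 := hC.c3
  have hc4 := hC.c4
  have hN3 : (n : ℝ) ≤ (n : ℝ) ^ 3 := by nlinarith [pow_pos (lt_of_lt_of_le one_pos hN) 3, pow_pos (lt_of_lt_of_le one_pos hN) 2]
  have hNu3 : (n : ℝ) * u ≤ (n : ℝ) ^ 3 * u := mul_le_mul_of_nonneg_right hN3 hu0
  have hu3 : u ≤ (n : ℝ) ^ 3 * u := by nlinarith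
  have hu' : u ≤ 1 / 1000 := by nlinarith
  -- the perturbed matrix
  unfold mainP
  refine Post.bind (post_pert hu hu' hn hA b hg) ?_
  rintro Mr env1 h01 ⟨E0, hMr, hE0⟩
  -- the direction
  have hgt := hg (coo n).ct
  refine Post.bind (post_phi hu hu' hgt (T := (g (coo n).ct : ℂ) * (1 + ad.e (3 * n ^ 2))) ?_
    ((env0_t n A g ad).mono h01)) ?_
  · have h1 : (g (coo n).ct : ℂ) * (1 + ad.e (3 * n ^ 2)) - (g (coo n).ct : ℂ) =
        ad.e (3 * n ^ 2) * (g (coo n).ct : ℂ) := by ring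
    rw [h1, norm_mul, Complex.norm_real, Real.norm_of_nonneg hgt.1]
    exact mul_le_mul_of_nonneg_right (hu _) hgt.1
  rintro φr env2 h12 ⟨Φ, hφr, hΦ⟩
  set φ := dir (g (coo n).ct) with hφ
  -- the Hessenberg matrix
  have hE0' : fro E0 ≤ s / 2 := hE0.trans hNb
  have hrow0 : RowLB (M + E0) (2 * (s / 2)) := (hrow.pert hE0').mono (by linarith)
  have hopM : OpLe M 2 := opLe_mof hA b hg
  have hop0 : OpLe (M + E0) 3 := (hopM.add_fro hE0').mono (by linarith)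
  refine Post.bind (post_hess hu hn (hMr.mono h12) (s := s / 2) (by linarith) (by linarith) hrow0 hop0 hNa) ?_
  rintro HQ env3 h23 ⟨Q, E1, H, Q', hQ, hQ0, hH, hE1, hHess, hHr, hQr, hQ', hsub⟩
  -- the total error
  obtain ⟨E, hEdef⟩ : ∃ E, E = E0 + E1 := ⟨_, rfl⟩
  have hE : fro E ≤ 2 * 10 ^ 5 * (n : ℝ) ^ 3 * u := by
    rw [hEdef]
    refine (fro_add_le _ _).trans ?_
    nlinarith
  have hH' : H = Qᴴ * (M + E) * Q := by rw [hH, hEdef, add_assoc]
  have hrowH : RowLB H s := by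
    rw [hH']
    exact ((hrow.pert (hE.trans hc2)).mono (by linarith)).uni hQ hQ0
  have hcolH : ColLB H (s * w) (4 * s * w ^ 2) := by
    rw [hH']
    exact ((hcol.pert (hE.trans hc1)).mono (by linarith)).uni hQ
  have hopB : OpLe (M + E) 3 := (hopM.add_fro (hE.trans hc2)).mono (by linarith)
  have hopH : OpLe H 3 := by
    rw [hH']
    exact hopB.uni hQ
  have hr5 : (2 : ℝ)⁻¹ ^ (5 * l) = r ^ 5 := by rw [hr, ← pow_mul, mul_comm]
  have hr5' : (2 : ℝ)⁻¹ ^ (5 * l + 1) = r ^ 5 / 2 := by rw [pow_succ, hr5]; ring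
  have hnodeH : NodeOK l H φ ((2 : ℝ)⁻¹ ^ (5 * l + 1)) := by
    rw [hH']
    refine ((hnode.pert (hE.trans hc3)).mono ?_).uni hQ
    rw [hr5, hr5']
    linarith
  have hfrH : fro H ≤ 4 * n := by
    have h1 := hopH.fro_le (by norm_num)
    have h2 : Real.sqrt n ≤ n := by
      rw [Real.sqrt_le_left (by linarith)]
      nlinarith
    linarith
  -- the diagonalization
  obtain ⟨lam, V0, W0, hD⟩ := rmdet hs0 hs1 hw0 hw1 hopH hrowH hcolH
  have hr_le := hC.r_le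
  have hctx : HCtx l H lam φ u := by
    refine ⟨hn, hl100, ?_, hHess, ?_, hfrH, hD.det, hD.lam_le, dir_norm _, hnodeH, hu0, hu1⟩
    · exact n_pow_le n b
    · intro k hk
      exact hr_le.trans (hsub k hk)
  -- the tree
  refine Post.bind (post_tree hu hctx hHr (hφr.mono h23) hΦ) ?_
  rintro S env4 h34 ⟨hTI, hTN⟩
  have hrad : rad (l + 2) = r := main_rad l
  have hdd := hC.d
  have hr100 : r ≤ 1 / 1000 := by
    have : s * w ≤ 1 * (1 / 10) := mul_le_mul hs1 hw1 hw0.le (by norm_num)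
    linarith
  obtain ⟨σ, hσ⟩ := reps_spec hTI hTN (by
    intro i i' hii
    rw [hrad]
    have := hD.gap i i' hii
    linarith)
  have hD' := hD.perm σ
  obtain ⟨lam', hlam'⟩ : ∃ lam' : Fin n → ℂ, lam' = fun i => lam (σ i) := ⟨_, rfl⟩
  obtain ⟨V', hV'⟩ : ∃ V' : Matrix (Fin n) (Fin n) ℂ, V' = fun i j => V0 i (σ j) := ⟨_, rfl⟩
  obtain ⟨W', hW'⟩ : ∃ W' : Matrix (Fin n) (Fin n) ℂ, W' = fun i j => W0 (σ i) j := ⟨_, rfl⟩
  rw [← hlam', ← hV', ← hW'] at hD'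
  have hpos : ∀ i : Fin n, ‖lam' i - grd r ((reps S).getD i (0, 0)).1 ((reps S).getD i (0, 0)).2‖ ≤ 3 * r := by
    intro i
    have := hσ i
    rw [hrad] at this
    rw [hlam']
    exact this
  have hQ'' : fro (Q' - Q) ≤ 10 ^ 5 * (n : ℝ) ^ 3 * u := hQ'
  have hεq : 10 ^ 5 * (n : ℝ) ^ 3 * u ≤ 1 := by nlinarith [hC.hy1]
  have hbne : ∀ k (hk : k + 1 < n), H ⟨k + 1, hk⟩ ⟨k, by omega⟩ ≠ 0 := by
    intro k hk h0
    have := hsub k hk
    rw [h0, norm_zero] at this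
    linarith
  have hNe := hC.e
  -- the eigenvectors
  refine Post.bind (post_vecM n _ env4
    (fun (j : Fin n) (yv : RVec n) env' => ∃ (Y : Fin n → ℂ) (t : ℂ), HasV env' yv Y ∧ ‖t‖ = 1 ∧
      nv (Y - Q *ᵥ (t • (fun a => V' a j))) ≤ epsCol n s w r u) ?_ ?_) ?_
  · rintro j yv e1' e2' h12' ⟨Y, t, hY, ht, hYt⟩
    exact ⟨Y, t, hY.mono h12', ht, hYt⟩
  · intro j env' h'
    have h5 := post_eig hu hn hs0 hs1 hw0 hw1 (hHr.mono (h34.trans h')) (hQr.mono (h34.trans h')) hQ hQ'' hεq hHess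
      hbne hD' hfrH (i := j) (pos := (reps S).getD j (0, 0)) (l := l) (hpos j) (by linarith) hNe
    refine h5.weaken ?_
    rintro yv e1' _ ⟨Y, t, hY, ht, hYt⟩
    exact ⟨Y, t, hY, ht, hYt⟩
  rintro Vr env5 h45 hVr
  -- the eigenvalues
  refine Post.bind (post_vecM n _ env5
    (fun (j : Fin n) (d : ℕ) env' => ∃ z : ℂ, Has env' d z ∧ ‖z - lam' j‖ ≤ 4 * r) ?_ ?_) ?_
  · rintro j d e1' e2' h12' ⟨z, hz, hz'⟩
    exact ⟨z, hz.mono h12', hz'⟩
  · intro j env' h'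
    refine (post_cst hu env' _ _).weaken ?_
    rintro d e1' _ ⟨z, hz, hrel⟩
    refine ⟨z, hz, ?_⟩
    unfold Rel at hrel
    have hg1 : ((((((reps S).getD j (0, 0)).1 : ℚ) / 2 ^ l : ℚ) : ℂ)) +
        (((((reps S).getD j (0, 0)).2 : ℚ) / 2 ^ l : ℚ) : ℂ) * I =
        grd r ((reps S).getD j (0, 0)).1 ((reps S).getD j (0, 0)).2 := by
      unfold grd
      rw [hr]
      push_cast
      rw [inv_pow]
      ring
    rw [hg1] at hrel
    have h6 := hpos j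
    have h7 : ‖grd r ((reps S).getD j (0, 0)).1 ((reps S).getD j (0, 0)).2‖ ≤ 4 := by
      have h8 := norm_sub_norm_le (grd r ((reps S).getD j (0, 0)).1 ((reps S).getD j (0, 0)).2) (lam' j)
      rw [norm_sub_rev] at h8
      have h9 := hD'.lam_le j
      have : 3 * r ≤ 1 := by linarith
      linarith
    have h10 : u * 4 ≤ r := by
      have h11 : u ≤ r ^ 8 := hC.hu
      have hr1 : r ≤ 1 / 100 := by linarith
      have h12 : r ^ 8 ≤ r ^ 2 := pow_le_pow_of_le_one hr0.le (by linarith) (by norm_num)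
      nlinarith
    calc ‖z - lam' j‖ ≤ ‖z - grd r ((reps S).getD j (0, 0)).1 ((reps S).getD j (0, 0)).2‖ +
          ‖grd r ((reps S).getD j (0, 0)).1 ((reps S).getD j (0, 0)).2 - lam' j‖ := norm_sub_le_norm_sub_add_norm_sub _ _ _
      _ ≤ u * 4 + 3 * r := by
          refine add_le_add (hrel.trans (mul_le_mul_of_nonneg_left h7 hu0)) ?_
          rw [norm_sub_rev]
          exact h6
      _ ≤ 4 * r := by linarith
  rintro Dr env6 h56 hDr
  refine Post.pure ?_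
  -- collect
  choose Yc tc hYc htc hYtc using hVr
  choose Dc hDc hDc' using hDr
  obtain ⟨hB, hUU, hUf', hUf, hUcol⟩ := main_U hw0 hD' hQ hH' htc
  set U := Q * V' * Matrix.diagonal tc with hU
  set U' := Matrix.diagonal (star tc) * W' * Qᴴ with hU'
  obtain ⟨Vh, hVh⟩ : ∃ Vh : Matrix (Fin n) (Fin n) ℂ, Vh = fun i j => Yc j i := ⟨_, rfl⟩
  have hsq1 : (1 : ℝ) ≤ Real.sqrt n := by
    rw [Real.one_le_sqrt]; exact hN
  have hsqn : Real.sqrt n ≤ n := by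
    rw [Real.sqrt_le_left (by linarith)]
    nlinarith
  have hε0 := hC.epsCol_nonneg
  have hF : fro (Vh - U) ≤ n * epsCol n s w r u := by
    have h1 := fro_le_sqrt_cols (A := Vh - U) hε0 (by
      intro j
      have h2 : (fun i => (Vh - U) i j) = Yc j - Q *ᵥ (tc j • (fun a => V' a j)) := by
        rw [← hUcol j]
        funext i
        simp only [Matrix.sub_apply, Pi.sub_apply, hVh]
      rw [h2]
      exact hYtc j)
    exact h1.trans (mul_le_mul_of_nonneg_right hsqn hε0)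
  have hK : fro U' ≤ n / w := by
    refine hUf'.trans ?_
    rw [mul_one_div]
    exact div_le_div_of_nonneg_right hsqn hw0.le
  have hK1 : (1 : ℝ) ≤ n / w := by
    rw [le_div_iff₀ hw0]
    linarith
  obtain ⟨hf1, hf2⟩ := hC.f
  have hr4 : 4 * r ≤ 1 := by linarith
  obtain ⟨hunit, hfin⟩ := fina hB hUU (hopB.mono (by norm_num)) hD'.lam_le hK hUf hK1 hF hDc' hr4 hf1
  refine ⟨Vh, Dc, ?_, fun i => hDc i, hunit, ?_⟩
  · intro i j
    rw [hVh]
    exact (hYc j i).mono h56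
  · have h1 : A - Vh * Matrix.diagonal Dc * Vh⁻¹ =
        -(M - A) + (-E + (M + E - Vh * Matrix.diagonal Dc * Vh⁻¹)) := by abel
    rw [h1]
    refine (fro_add_le _ _).trans ?_
    have h2 := fro_add_le (-E) (M + E - Vh * Matrix.diagonal Dc * Vh⁻¹)
    rw [fro_neg] at h2 ⊢
    have h3 : fro (M - A) ≤ 2 * n * gam n b := fro_mof_sub_le A b hg
    -- n 2^-q ≤ 2^-b
    have h4 : (n : ℝ) * y ≤ (2 : ℝ)⁻¹ ^ b := by
      rw [hy, parQ, pow_add]
      have h5 : (n : ℝ) ≤ 2 ^ Nat.clog 2 n := by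
        exact_mod_cast Nat.le_pow_clog (by norm_num) n
      have h6 : (n : ℝ) * (2 : ℝ)⁻¹ ^ Nat.clog 2 n ≤ 1 := by
        rw [inv_pow, ← div_eq_mul_inv, div_le_one (by positivity)]
        exact h5
      have h7 : (0 : ℝ) < (2 : ℝ)⁻¹ ^ b := by positivity
      calc (n : ℝ) * ((2 : ℝ)⁻¹ ^ b * (2 : ℝ)⁻¹ ^ Nat.clog 2 n)
          = (2 : ℝ)⁻¹ ^ b * ((n : ℝ) * (2 : ℝ)⁻¹ ^ Nat.clog 2 n) := by ring
        _ ≤ (2 : ℝ)⁻¹ ^ b * 1 := mul_le_mul_of_nonneg_left h6 h7.le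
        _ = _ := mul_one _
    have h5 : gam n b = y / 8 := by
      rw [gam, hy, pow_add]
      norm_num
      ring
    have hy0 := hC.hy0
    have h6 : y ≤ (2 : ℝ)⁻¹ ^ b := by nlinarith
    have h7 : 2 * n * gam n b ≤ (2 : ℝ)⁻¹ ^ b / 4 := by
      rw [h5]
      nlinarith
    have h8 : Real.sqrt n * (4 * r) ≤ n * (4 * r) := mul_le_mul_of_nonneg_right hsqn (by linarith)
    have h9 : 2 * (n / w) * (Real.sqrt n * (4 * r) + 8 * (n * epsCol n s w r u)) ≤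
        2 * (n / w) * (n * (4 * r) + 8 * (n * epsCol n s w r u)) := by
      refine mul_le_mul_of_nonneg_left (by linarith) (by positivity)
    linarith

end H6LP

end S_MAIN
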