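import Mathlib

/-!
# The machine model and the diagonalization algorithm (MP_63a4b3_lc)

A program works on write-once registers which contain complex numbers.  Every operation creates a new
register; its value is the exact result up to a relative error chosen by an adversary (`Adv.e t` for
the register number `t`).  The only way in which a program can look at numbers is a comparison of the
real parts of two registers.
-/

set_option autoImplicit false

open Complex

namespace H6LP

/-! ## the machine -/

/-- basic operations; the arguments are register numbers -/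
inductive Op : Type
  | const (a b : ℚ) : Op
  | add (i j : ℕ) : Op
  | sub (i j : ℕ) : Op
  | mul (i j : ℕ) : Op
  | div (i j : ℕ) : Op
  | sqrt (i : ℕ) : Op
  | conj (i : ℕ) : Op
  | re (i : ℕ) : Op

/-- programs (branching straight line programs) with result in `α`; the number of the register created
by an operation is passed to the rest of the program; the rest of the program can depend on data only
through the outcomes of comparisons -/
inductive Prog (α : Type) : Type
  | ret (a : α) : Prog α
  | op (o : Op) (k : ℕ → Prog α) : Prog α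
  | cmp (i j : ℕ) (k : Bool → Prog α) : Prog α

/-- the contents of the registers -/
abbrev Env := List ℂ

/-- the value of a register (`0` if the register does not exist) -/
def val (env : Env) (r : ℕ) : ℂ := env.getD r 0

/-- the adversary: `e t` is the relative error made when the register `t` is created, `f t` is the
result of a division by zero -/
structure Adv : Type where
  e : ℕ → ℂ
  f : ℕ → ℂ

open Classical in
/-- the value of the new register -/
noncomputable def opVal (ad : Adv) (env : Env) : Op → ℂ
  | .const a b => ((a : ℂ) + (b : ℂ) * I) * (1 + ad.e env.length)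
  | .add i j => (val env i + val env j) * (1 + ad.e env.length)
  | .sub i j => (val env i - val env j) * (1 + ad.e env.length)
  | .mul i j => (val env i * val env j) * (1 + ad.e env.length)
  | .div i j => if val env j = 0 then ad.f env.length
      else (val env i / val env j) * (1 + ad.e env.length)
  | .sqrt i => (val env i) ^ (1 / 2 : ℂ) * (1 + ad.e env.length)
  | .conj i => (starRingEnd ℂ) (val env i)
  | .re i => ((val env i).re : ℂ)

open Classical in
/-- execution of a program -/
noncomputable def exec {α : Type} (ad : Adv) : Prog α → Env → α × Env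
  | .ret a, env => (a, env)
  | .op o k, env => exec ad (k env.length) (env ++ [opVal ad env o])
  | .cmp i j k, env => exec ad (k (decide ((val env i).re ≤ (val env j).re))) env

/-- `Bdd p c d`: on every path of the program `p` at most `c` operations and comparisons, among them at
most `d` comparisons, are made -/
inductive Bdd {α : Type} : Prog α → ℕ → ℕ → Prop
  | ret (a : α) (c d : ℕ) : Bdd (.ret a) c d
  | op (o : Op) (k : ℕ → Prog α) (c d : ℕ) (h : ∀ i, Bdd (k i) c d) : Bdd (.op o k) (c + 1) d
  | cmp (i j : ℕ) (k : Bool → Prog α) (c d : ℕ) (h : ∀ b, Bdd (k b) c d) :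
      Bdd (.cmp i j k) (c + 1) (d + 1)

/-! ## sequencing of programs -/

def Prog.bind {α β : Type} : Prog α → (α → Prog β) → Prog β
  | .ret a, g => g a
  | .op o k, g => .op o (fun i => (k i).bind g)
  | .cmp i j k, g => .cmp i j (fun b => (k b).bind g)

instance : Pure Prog := ⟨fun a => Prog.ret a⟩

instance : Bind Prog := ⟨fun p g => p.bind g⟩

/-! ## single operations -/

def cst (a b : ℚ) : Prog ℕ := .op (.const a b) .ret
def addP (i j : ℕ) : Prog ℕ := .op (.add i j) .ret
def subP (i j : ℕ) : Prog ℕ := .op (.sub i j) .ret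
def mulP (i j : ℕ) : Prog ℕ := .op (.mul i j) .ret
def divP (i j : ℕ) : Prog ℕ := .op (.div i j) .ret
def sqrtP (i : ℕ) : Prog ℕ := .op (.sqrt i) .ret
def conjP (i : ℕ) : Prog ℕ := .op (.conj i) .ret
def reP (i : ℕ) : Prog ℕ := .op (.re i) .ret
/-- comparison of the real parts -/
def leP (i j : ℕ) : Prog Bool := .cmp i j .ret

/-! ## loops -/

/-- run `f 0, …, f (n-1)` and collect the results -/
def vecM {β : Type} : (n : ℕ) → (Fin n → Prog β) → Prog (Fin n → β)
  | 0, _ => pure Fin.elim0
  | n + 1, f => do
    let a ← f 0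
    let g ← vecM n (fun i => f i.succ)
    pure (Fin.cons a g)

/-- the same for matrices -/
def matM {β : Type} (n m : ℕ) (f : Fin n → Fin m → Prog β) : Prog (Fin n → Fin m → β) :=
  vecM n (fun i => vecM m (f i))

/-- `s ↦ step 0 s ↦ … ↦ step (n-1) s` -/
def iterP {σ : Type} : (n : ℕ) → (ℕ → σ → Prog σ) → σ → Prog σ
  | 0, _, s => pure s
  | n + 1, step, s => do
    let s' ← step 0 s
    iterP n (fun k => step (k + 1)) s'

/-- the same with `Fin n` -/
def iterF {σ : Type} : (n : ℕ) → (Fin n → σ → Prog σ) → σ → Prog σ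
  | 0, _, s => pure s
  | n + 1, step, s => do
    let s' ← step 0 s
    iterF n (fun k => step k.succ) s'

/-! ## the programs; registers are natural numbers, `RVec n` and `RMat n m` are vectors and matrices of
registers -/

abbrev RVec (n : ℕ) := Fin n → ℕ
abbrev RMat (n m : ℕ) := Fin n → Fin m → ℕ

/-! ## vectors -/

/-- `∑ i, x i * y i` -/
def dotP {n : ℕ} (x y : RVec n) : Prog ℕ := do
  let z ← cst 0 0
  iterF n (fun i acc => do
    let p ← mulP (x i) (y i)
    addP acc p) z

/-- `∑ i, |x i|²` (an exactly real number) -/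
def sqP {n : ℕ} (x : RVec n) : Prog ℕ := do
  let z ← cst 0 0
  iterF n (fun i acc => do
    let c ← conjP (x i)
    let p ← mulP (x i) c
    let s ← addP acc p
    reP s) z

/-- the Euclidean norm (an exactly real number) -/
def normP {n : ℕ} (x : RVec n) : Prog ℕ := do
  let s ← sqP x
  let r ← sqrtP s
  reP r

/-- product of two real numbers (an exactly real number) -/
def fmulP (i j : ℕ) : Prog ℕ := do
  let m ← mulP i j
  reP m

/-! ## Householder reduction to Hessenberg form -/

/-- the Householder vector `v`, the factor `τ` and the number `β‖x‖` for the vector `x` and the pivot `p` -/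
def hvecP {n : ℕ} (x : RVec n) (p : Fin n) : Prog (RVec n × ℕ × ℕ) := do
  let z ← cst 0 0
  let nr ← normP x
  let y ← vecM n (fun i => divP (x i) nr)
  let b ← leP (x p) z
  let be ← cst (if b then 1 else -1) 0
  let vp ← subP (y p) be
  let m ← subP z be
  let t ← divP m vp
  let a ← mulP be nr
  pure (Function.update y p vp, t, a)

/-- `X ↦ (1 - τ v vᴴ) X` -/
def lmulP {n m : ℕ} (v : RVec n) (t : ℕ) (X : RMat n m) : Prog (RMat n m) := do
  let vc ← vecM n (fun i => conjP (v i))
  let tv ← vecM n (fun i => mulP t (v i))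
  let w ← vecM m (fun j => dotP vc (fun i => X i j))
  matM n m (fun i j => do
    let g ← mulP (tv i) (w j)
    subP (X i j) g)

/-- `X ↦ X (1 - τ v vᴴ)ᴴ` -/
def rmulP {m n : ℕ} (v : RVec n) (t : ℕ) (X : RMat m n) : Prog (RMat m n) := do
  let vc ← vecM n (fun i => conjP (v i))
  let tc ← conjP t
  let w ← vecM m (fun i => dotP (X i) v)
  let tw ← vecM m (fun i => mulP tc (w i))
  matM m n (fun i j => do
    let g ← mulP (tw i) (vc j)
    subP (X i j) g)

/-- one step of the reduction: `(H, Q) ↦ (P H Pᴴ, Q Pᴴ)` -/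
def hstepP {n : ℕ} (k : ℕ) (hk : k + 1 < n) (S : RMat n n × RMat n n) :
    Prog (RMat n n × RMat n n) := do
  let z ← cst 0 0
  let h ← hvecP (fun i : Fin n => if (i : ℕ) ≤ k then z else S.1 i ⟨k, by omega⟩) ⟨k + 1, hk⟩
  let X ← lmulP h.1 h.2.1 S.1
  let X2 : RMat n n := fun i j =>
    if (j : ℕ) < k then S.1 i j
    else if (j : ℕ) = k then (if (i : ℕ) ≤ k then S.1 i j else if (i : ℕ) = k + 1 then h.2.2 else z)
    else X i j
  let Y ← rmulP h.1 h.2.1 X2
  let Q ← rmulP h.1 h.2.1 S.2
  pure ((fun i j => if (j : ℕ) ≤ k then X2 i j else Y i j), Q)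

/-- the reduction to Hessenberg form: returns `(H, Q)` with `H ≈ Qᴴ X Q` -/
def hessP {n : ℕ} (X : RMat n n) : Prog (RMat n n × RMat n n) := do
  let z ← cst 0 0
  let one ← cst 1 0
  iterP (n - 1) (fun k S => if hk : k + 1 < n then hstepP k hk S else pure S)
    (X, fun i j => if i = j then one else z)

/-! ## QR factorization of a Hessenberg matrix, determinants, linear systems -/

/-- `a x + b y` -/
def combP (a x b y : ℕ) : Prog ℕ := do
  let p ← mulP a x
  let q ← mulP b y
  addP p q

/-- `a x - b y` -/
def combsP (a x b y : ℕ) : Prog ℕ := do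
  let p ← mulP a x
  let q ← mulP b y
  subP p q

/-- one Givens rotation of the rows `k` and `k + 1` (of the matrix and of the right hand side) -/
def givP {n : ℕ} (k : ℕ) (hk : k + 1 < n) (S : RMat n n × RVec n) : Prog (RMat n n × RVec n) := do
  let k0 : Fin n := ⟨k, by omega⟩
  let k1 : Fin n := ⟨k + 1, hk⟩
  let z ← cst 0 0
  let rho ← normP ![S.1 k0 k0, S.1 k1 k0]
  let al ← divP (S.1 k0 k0) rho
  let be ← divP (S.1 k1 k0) rho
  let alc ← conjP al
  let bec ← conjP be
  let r0 ← vecM n (fun j => combP alc (S.1 k0 j) bec (S.1 k1 j))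
  let r1 ← vecM n (fun j => combsP al (S.1 k1 j) be (S.1 k0 j))
  let y0 ← combP alc (S.2 k0) bec (S.2 k1)
  let y1 ← combsP al (S.2 k1) be (S.2 k0)
  pure ((fun i j =>
      if (i : ℕ) = k then (if (j : ℕ) < k then S.1 i j else if (j : ℕ) = k then rho else r0 j)
      else if (i : ℕ) = k + 1 then (if (j : ℕ) ≤ k then z else r1 j)
      else S.1 i j),
    (fun i => if (i : ℕ) = k then y0 else if (i : ℕ) = k + 1 then y1 else S.2 i))

/-- QR factorization -/
def qrP {n : ℕ} (S : RMat n n × RVec n) : Prog (RMat n n × RVec n) :=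
  iterP (n - 1) (fun k S => if hk : k + 1 < n then givP k hk S else pure S) S

/-- `H - z` -/
def shiftP {n : ℕ} (H : RMat n n) (z : ℕ) : Prog (RMat n n) := do
  let d ← vecM n (fun i => subP (H i i) z)
  pure (fun i j => if i = j then d i else H i j)

/-- `|det (z - H)|` for a Hessenberg matrix `H` -/
def detP {n : ℕ} (H : RMat n n) (z : ℕ) : Prog ℕ := do
  let T ← shiftP H z
  let zz ← cst 0 0
  let S ← qrP (T, fun _ => zz)
  let o ← cst 1 0
  let one ← reP o
  iterF n (fun i acc => do
    let a ← normP ![S.1 i i]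
    fmulP acc a) one

/-- back substitution -/
def backP {n : ℕ} (R : RMat n n) (y : RVec n) : Prog (RVec n) := do
  let z ← cst 0 0
  iterF n (fun i x => do
    let d ← dotP (R (Fin.rev i)) x
    let e ← subP (y (Fin.rev i)) d
    let q ← divP e (R (Fin.rev i) (Fin.rev i))
    pure (Function.update x (Fin.rev i) q)) (fun _ => z)

/-- the normalized solution of `(H - z) x = e₁` -/
def solveP {n : ℕ} (H : RMat n n) (z : ℕ) : Prog (RVec n) := do
  let T ← shiftP H z
  let zz ← cst 0 0
  let one ← cst 1 0
  let S ← qrP (T, fun i => if (i : ℕ) = 0 then one else zz)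
  let x ← backP S.1 S.2
  let nr ← normP x
  vecM n (fun i => divP (x i) nr)

/-! ## counting the eigenvalues in a disc -/

/-- `exp (2πi / 2^e)` for `e ≥ 2` -/
def omegaP (e : ℕ) : Prog ℕ := do
  let i ← cst 0 1
  iterP (e - 2) (fun _ w => sqrtP w) i

/-- `(1 + it)/(1 - it)` -/
def phiP (t : ℕ) : Prog ℕ := do
  let i ← cst 0 1
  let one ← cst 1 0
  let it ← mulP i t
  let a ← addP one it
  let b ← subP one it
  divP a b

/-- the product of `|det (z - H)|` over the `2^e` nodes `z = c + ρ φ w^j` -/
def circP {n : ℕ} (H : RMat n n) (c : ℕ) (rho : ℚ) (φ w : ℕ) (e : ℕ) : Prog ℕ := do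
  let rr ← cst rho 0
  let p ← mulP rr φ
  let o ← cst 1 0
  let one ← reP o
  let S ← iterP (2 ^ e) (fun _ (S : ℕ × ℕ) => do
    let z ← addP c S.1
    let d ← detP H z
    let acc ← fmulP S.2 d
    let p' ← mulP S.1 w
    pure (p', acc)) (p, one)
  pure S.2

/-- the smallest `k = 2^j k₀` with `P₂ < P₁ T^(2^j)` -/
def searchP (P1 P2 : ℕ) : ℕ → ℕ → ℕ → Prog ℕ
  | 0, _, k => pure k
  | m + 1, T, k => do
    let x ← fmulP P1 T
    let b ← leP x P2
    if b then do
      let T' ← fmulP T T
      searchP P1 P2 m T' (2 * k)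
    else pure k

/-- the exponent of the number of nodes -/
def nodeE (l kh : ℕ) : ℕ := Nat.clog 2 (1000 * (kh + 1) * l)

/-- the soft count for the disc with centre `(a + bi) r` and radius `2r … 3r`; `kh` is an upper bound for
the number of eigenvalues at distance `< 4r` -/
def testP {n : ℕ} (l : ℕ) (H : RMat n n) (φ : ℕ) (r : ℚ) (a b : ℤ) (kh : ℕ) : Prog ℕ := do
  let c ← cst (a * r) (b * r)
  let w ← omegaP (nodeE l kh)
  let P1 ← circP H c (2 * r) φ w (nodeE l kh)
  let P2 ← circP H c (3 * r) φ w (nodeE l kh)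
  let base ← cst (3 / 2) 0
  let rbase ← reP base
  let T ← iterP (nodeE l kh - 1) (fun _ t => fmulP t t) rbase
  let x ← fmulP P1 T
  let b0 ← leP x P2
  if b0 then do
    let T0 ← fmulP T T
    searchP P1 P2 (Nat.clog 2 n + 2) T0 1
  else pure 0

/-! ## the quadtree -/

/-- run `f` on the elements of a list -/
def listM {α β : Type} : List α → (α → Prog β) → Prog (List β)
  | [], _ => pure []
  | a :: l, f => do
    let b ← f a
    let t ← listM l f
    pure (b :: t)

/-- a list of discs: the disc `(a, b, k)` has the centre `(a + bi) r` and the count `k` -/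
abbrev DList := List (ℤ × ℤ × ℕ)

/-- the sum of all counts -/
def ksum (S : DList) : ℕ := (S.map (fun p => p.2.2)).sum

/-- the sum of the counts in a window -/
def khat (S : DList) (a b : ℤ) : ℕ := ksum (S.filter (fun p => |p.1 - a| ≤ 3 ∧ |p.2.1 - b| ≤ 3))

/-- the children of the discs of the list, with their upper bounds -/
def children (S : DList) : DList :=
  S.flatMap (fun p => [(2 * p.1, 2 * p.2.1, khat S p.1 p.2.1), (2 * p.1 + 1, 2 * p.2.1, khat S p.1 p.2.1),
    (2 * p.1, 2 * p.2.1 + 1, khat S p.1 p.2.1), (2 * p.1 + 1, 2 * p.2.1 + 1, khat S p.1 p.2.1)])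

/-- the caps which bound the work -/
def capOK (n : ℕ) (S : DList) : Bool :=
  decide (ksum S ≤ 98 * n) && decide (S.length ≤ 98 * n) &&
    decide ((S.map (fun p => khat S p.1 p.2.1 + 1)).sum ≤ 4900 * n)

/-- one level; `r` is the radius of the children -/
def lvlP {n : ℕ} (l : ℕ) (H : RMat n n) (φ : ℕ) (r : ℚ) (S : DList) : Prog DList :=
  if capOK n S then do
    let L ← listM (children S) (fun c => do
      let k ← testP l H φ r c.1 c.2.1 c.2.2
      pure (c.1, c.2.1, k))
    pure (L.filter (fun p => 0 < p.2.2))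
  else pure []

/-- the initial list -/
def tree0 (n : ℕ) : DList :=
  (([-2, -1, 0, 1, 2] : List ℤ) ×ˢ ([-2, -1, 0, 1, 2] : List ℤ)).map (fun p => (p.1, p.2, n))

/-- the list of the level `l + 2` -/
def treeP {n : ℕ} (l : ℕ) (H : RMat n n) (φ : ℕ) : Prog DList :=
  iterP (l + 2) (fun j S => lvlP l H φ (4 / 2 ^ (j + 1)) S) (tree0 n)

/-- greedy choice of representatives -/
def reps : DList → List (ℤ × ℤ)
  | [] => []
  | p :: S =>
    let R := reps S
    if R.all (fun q => decide (10 < |p.1 - q.1|) || decide (10 < |p.2.1 - q.2|)) then (p.1, p.2.1) :: R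
    else R

/-! ## the main program -/

/-- the eigenvector for the eigenvalue near `pos / 2^l` -/
def eigP {n : ℕ} (l : ℕ) (H Q : RMat n n) (pos : ℤ × ℤ) : Prog (RVec n) := do
  let z ← cst ((pos.1 + 5) / 2 ^ l) (pos.2 / 2 ^ l)
  let x ← solveP H z
  vecM n (fun i => dotP (Q i) x)

/-- the parameters -/
def parQ (n b : ℕ) : ℕ := b + Nat.clog 2 n
def parL (n b : ℕ) : ℕ := 100 + 25 * parQ n b

/-- the perturbed matrix; the registers of the input are `A i j` in `i n + j`, the samples are in
`n² + 2 (i n + j)` and `n² + 2 (i n + j) + 1` -/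
def pertP (n b : ℕ) : Prog (RMat n n) := do
  let gR ← cst (1 / 2 ^ (3 + parQ n b)) 0
  let gI ← cst 0 (1 / 2 ^ (3 + parQ n b))
  matM n n (fun i j => do
    let x ← mulP gR (n ^ 2 + 2 * ((i : ℕ) * n + (j : ℕ)))
    let y ← mulP gI (n ^ 2 + 2 * ((i : ℕ) * n + (j : ℕ)) + 1)
    let c ← addP x y
    addP ((i : ℕ) * n + (j : ℕ)) c)

/-- **The diagonalization algorithm.**  Output: the registers of `V` and of the diagonal of `D`. -/
def mainP (n b : ℕ) : Prog (RMat n n × RVec n) := do
  let M ← pertP n b
  let φ ← phiP (3 * n ^ 2)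
  let HQ ← hessP M
  let S ← treeP (parL n b) HQ.1 φ
  let V ← vecM n (fun j : Fin n => eigP (parL n b) HQ.1 HQ.2 ((reps S).getD j (0, 0)))
  let D ← vecM n (fun j : Fin n =>
    cst (((reps S).getD j (0, 0)).1 / 2 ^ parL n b) (((reps S).getD j (0, 0)).2 / 2 ^ parL n b))
  pure ((fun i j => V j i), D)

/-! ## the initial registers -/

/-- the initial registers: the input matrix (exact), then the samples (with relative errors) -/
noncomputable def env0 (n : ℕ) (A : Matrix (Fin n) (Fin n) ℂ) (g : Fin (2 * n ^ 2 + 1) → ℝ) (ad : Adv) : Env :=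
  List.ofFn (fun k : Fin (n * n) => A k.divNat k.modNat) ++
    List.ofFn (fun k : Fin (2 * n ^ 2 + 1) => (g k : ℂ) * (1 + ad.e (n * n + k)))

end H6LP
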